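import Pool.Agent.Lib.DEn.Grad

set_option autoImplicit false
set_option maxSynthPendingDepth 3

/-!
# The basic gradient inequality, Fubini-Study metric

`∫ (s² - 1) / Pf ≤ 2 S G²` and its consequences for the energy.
-/

open MeasureTheory Set Metric Filter
open scoped ContDiff Topology

namespace Pool.Agent.Lib.DEn

open Pool.Agent.P28b04d
open Pool.Agent.Lib.Psd (W hp ON3 fr cmp st asd sd nrm2 Pf Skew Conn Basic dd a0 c0)

namespace AFinAux

open GradAux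

/-- general Cauchy-Schwarz on `U3` -/
theorem cs2 {ν : Measure X3} (hν : Ha ν) {a b : X3 → ℝ} (ha : ContinuousOn a U3) (hb : ContinuousOn b U3) :
    (∫ g, a g * b g ∂ν) ^ 2 ≤ (∫ g, a g ^ 2 ∂ν) * ∫ g, b g ^ 2 ∂ν := by
  have i1 := integrable_u hν (ha.pow 2)
  have i2 := integrable_u hν (hb.pow 2)
  have i3 := integrable_u hν (ha.mul hb)
  have h1 : ∀ t : ℝ, 0 ≤ (∫ g, b g ^ 2 ∂ν) * (t * t) + (-2 * ∫ g, a g * b g ∂ν) * t +
      ∫ g, a g ^ 2 ∂ν := by
    intro t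
    have h2 : (∫ g, b g ^ 2 ∂ν) * (t * t) + (-2 * ∫ g, a g * b g ∂ν) * t + ∫ g, a g ^ 2 ∂ν =
        ∫ g, ((t * t) * b g ^ 2 + (-2 * t) * (a g * b g) + a g ^ 2) ∂ν := by
      rw [integral_add, integral_add, integral_const_mul, integral_const_mul]
      · ring
      · exact i2.const_mul _
      · exact i3.const_mul _
      · exact (i2.const_mul _).add (i3.const_mul _)
      · exact i1
    rw [h2]
    refine integral_nonneg fun g => ?_
    have h4 : (t * t) * b g ^ 2 + (-2 * t) * (a g * b g) + a g ^ 2 = (a g - t * b g) ^ 2 := by ring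
    show 0 ≤ (t * t) * b g ^ 2 + (-2 * t) * (a g * b g) + a g ^ 2
    rw [h4]
    exact sq_nonneg _
  have h5 := discrim_le_zero h1
  unfold discrim at h5
  nlinarith

end AFinAux

open GradAux AFinAux

/-- the basic inequality -/
theorem J_fs {ν : Measure X3} (hν : Ha ν) {α : W → W →L[ℝ] ℝ} (hα : Conn α)
    (hP : ∀ g ∈ U3, 0 < Pf (cF (dB α) g)) {S G : ℝ} (hG : 0 ≤ G) (hS : ∀ g ∈ U3, sg (cF (dB α) g) ≤ S)
    (hb : ∀ γ : W → W →L[ℝ] ℝ, Basic γ → |∫ g, wd (cF (dB γ) g) (th (cF (dB α) g)) ∂ν| ≤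
      G * Real.sqrt (∫ g, ip (cF (dB γ) g) (cF (dB γ) g) ∂ν)) :
    ∫ g, (sg (cF (dB α) g) ^ 2 - 1) / Pf (cF (dB α) g) ∂ν ≤ 2 * S * G ^ 2 := by
  have hprob : IsProbabilityMeasure ν := hν.prob
  have hHF : HF (dB α) := dB_hfc hα
  have hct : CtU (cF (dB α)) := ctU_cF hHF.smooth
  have hsk : ∀ g ∈ U3, Skew (cF (dB α) g) := fun g hg => cF_skew hHF hg
  obtain ⟨Θ, hΘ, hΘe⟩ := theta_up hα hP
  have hcP := cont_pf hct
  have hcs := cont_sg hct hP
  have hs1 : ∀ g ∈ U3, 1 ≤ sg (cF (dB α) g) := fun g hg => sg_ge (hsk g hg) (hP g hg)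
  have hS1 : 1 ≤ S := (hs1 id3 id3_mem).trans (hS id3 id3_mem)
  set M : ℝ := ∫ g, 2 * (sg (cF (dB α) g) ^ 2 - 1) / Pf (cF (dB α) g) ∂ν with hM
  have hcM : ContinuousOn (fun g => 2 * (sg (cF (dB α) g) ^ 2 - 1) / Pf (cF (dB α) g)) U3 :=
    (continuousOn_const.mul ((hcs.pow 2).sub continuousOn_const)).div hcP fun g hg => (hP g hg).ne'
  have hM0 : 0 ≤ M := by
    refine int_nonneg hν fun g hg => ?_
    have h1 := hs1 g hg
    have h2 := hP g hg
    have h3 : 0 ≤ sg (cF (dB α) g) ^ 2 - 1 := by nlinarith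
    positivity
  have hMe : -∫ g, wd (cF Θ g) (cF Θ g) ∂ν = M := by
    rw [hM, ← integral_neg]
    refine integral_congr_u hν fun g hg => ?_
    rw [hΘe g hg, (th_facts (hsk g hg) (hP g hg)).2.2.1]
    ring
  have hI : ∫ g, ip (cF Θ g) (cF Θ g) ∂ν ≤ S * M := by
    rw [hM, ← integral_const_mul]
    refine int_mono hν (cont_ip (ctU_cF hΘ.smooth)) (continuousOn_const.mul hcM) fun g hg => ?_
    rw [hΘe g hg, (th_facts (hsk g hg) (hP g hg)).2.2.2, ← mul_div_assoc]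
    have h1 := hs1 g hg
    have h2 := hP g hg
    have h3 : 0 ≤ sg (cF (dB α) g) ^ 2 - 1 := by nlinarith
    have h4 := hS g hg
    refine div_le_div_of_nonneg_right ?_ h2.le
    nlinarith [mul_le_mul_of_nonneg_right h4 h3]
  have hcore := core hν hΘ hG (fun γ hγ => by
    have h1 : ∫ g, wd (cF (dB γ) g) (cF Θ g) ∂ν =
        ∫ g, wd (cF (dB γ) g) (th (cF (dB α) g)) ∂ν :=
      integral_congr_u hν fun g hg => by rw [hΘe g hg]
    rw [h1]
    exact hb γ hγ)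
  rw [hMe] at hcore
  have hMS : M ≤ 4 * S * G ^ 2 := by
    have h1 : M ≤ 2 * G * Real.sqrt (S * M) :=
      hcore.trans (mul_le_mul_of_nonneg_left (Real.sqrt_le_sqrt hI) (by positivity))
    rcases hM0.eq_or_lt with h0 | h0
    · rw [← h0]; positivity
    · have hSM : 0 ≤ S * M := by positivity
      have h2 : M ^ 2 ≤ (2 * G * Real.sqrt (S * M)) ^ 2 :=
        pow_le_pow_left₀ hM0 h1 2
      rw [mul_pow, Real.sq_sqrt hSM] at h2
      have h3 : M * M ≤ (4 * S * G ^ 2) * M := by nlinarith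
      exact le_of_mul_le_mul_right h3 h0
  have hM2 : M = 2 * ∫ g, (sg (cF (dB α) g) ^ 2 - 1) / Pf (cF (dB α) g) ∂ν := by
    rw [hM, ← integral_const_mul]
    refine integral_congr_u hν fun g _ => ?_
    ring
  linarith

/-- the consequences for the energy -/
theorem J_en {ν : Measure X3} (hν : Ha ν) {α : W → W →L[ℝ] ℝ} (hα : Conn α)
    (hP : ∀ g ∈ U3, 0 < Pf (cF (dB α) g)) {S : ℝ} (hS : ∀ g ∈ U3, sg (cF (dB α) g) ≤ S) {J : ℝ}
    (hJ : ∫ g, (sg (cF (dB α) g) ^ 2 - 1) / Pf (cF (dB α) g) ∂ν ≤ J) :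
    ∫ g, sg (cF (dB α) g) ∂ν - 1 ≤ Real.sqrt (4 * ((S - 1) / (S + 1)) * J) ∧
      ∀ U : ℝ, (∀ g ∈ U3, Pf (cF (dB α) g) ≤ U) → ∫ g, sg (cF (dB α) g) ∂ν - 1 ≤ U * J / 2 := by
  have hprob : IsProbabilityMeasure ν := hν.prob
  have hHF : HF (dB α) := dB_hfc hα
  have hct : CtU (cF (dB α)) := ctU_cF hHF.smooth
  have hsk : ∀ g ∈ U3, Skew (cF (dB α) g) := fun g hg => cF_skew hHF hg
  have hcP := cont_pf hct
  have hcs := cont_sg hct hP
  have hs1 : ∀ g ∈ U3, 1 ≤ sg (cF (dB α) g) := fun g hg => sg_ge (hsk g hg) (hP g hg)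
  have hS1 : 1 ≤ S := (hs1 id3 id3_mem).trans (hS id3 id3_mem)
  have hX : ∫ g, sg (cF (dB α) g) ∂ν - 1 = ∫ g, (sg (cF (dB α) g) - 1) ∂ν := by
    rw [integral_sub (integrable_u hν hcs) (integrable_const _)]
    simp
  set F : X3 → ℝ := fun g => (sg (cF (dB α) g) ^ 2 - 1) / Pf (cF (dB α) g) with hF
  have hFc : ContinuousOn F U3 :=
    ((hcs.pow 2).sub continuousOn_const).div hcP fun g hg => (hP g hg).ne'
  have hF0 : ∀ g ∈ U3, 0 ≤ F g := by
    intro g hg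
    have h1 := hs1 g hg
    exact div_nonneg (by nlinarith) (hP g hg).le
  set E : X3 → ℝ := fun g => Pf (cF (dB α) g) * ((sg (cF (dB α) g) - 1) / (sg (cF (dB α) g) + 1)) with hE
  have hEc : ContinuousOn E U3 :=
    hcP.mul ((hcs.sub continuousOn_const).div (hcs.add continuousOn_const) fun g hg => by
      have := hs1 g hg
      positivity)
  have hE0 : ∀ g ∈ U3, 0 ≤ E g := by
    intro g hg
    have h1 := hs1 g hg
    exact mul_nonneg (hP g hg).le (div_nonneg (by linarith) (by linarith))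
  have hFE : ∀ g ∈ U3, sg (cF (dB α) g) - 1 = Real.sqrt (F g) * Real.sqrt (E g) := by
    intro g hg
    have h1 := hs1 g hg
    have h2 := hP g hg
    rw [← Real.sqrt_mul (hF0 g hg)]
    have h3 : F g * E g = (sg (cF (dB α) g) - 1) ^ 2 := by
      simp only [hF, hE]
      field_simp
      ring
    rw [h3, Real.sqrt_sq (by linarith)]
  refine ⟨?_, fun U hU => ?_⟩
  · rw [hX]
    refine Real.le_sqrt_of_sq_le ?_
    have h1 := cs2 hν (hFc.sqrt) (hEc.sqrt)
    have h2 : ∫ g, Real.sqrt (F g) * Real.sqrt (E g) ∂ν = ∫ g, (sg (cF (dB α) g) - 1) ∂ν :=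
      integral_congr_u hν fun g hg => (hFE g hg).symm
    have h3 : ∫ g, Real.sqrt (F g) ^ 2 ∂ν = ∫ g, F g ∂ν :=
      integral_congr_u hν fun g hg => Real.sq_sqrt (hF0 g hg)
    have h4 : ∫ g, Real.sqrt (E g) ^ 2 ∂ν = ∫ g, E g ∂ν :=
      integral_congr_u hν fun g hg => Real.sq_sqrt (hE0 g hg)
    have h5 : ∫ g, E g ∂ν ≤ 4 * ((S - 1) / (S + 1)) := by
      have h6 : ∫ g, E g ∂ν ≤ ∫ g, Pf (cF (dB α) g) * ((S - 1) / (S + 1)) ∂ν := by
        refine int_mono hν hEc (hcP.mul continuousOn_const) fun g hg => ?_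
        refine mul_le_mul_of_nonneg_left ?_ (hP g hg).le
        have h7 := hs1 g hg
        have h8 := hS g hg
        rw [div_le_div_iff₀ (by linarith) (by linarith)]
        nlinarith
      rw [integral_mul_const, int_pf hν hα] at h6
      exact h6
    rw [h2, h3, h4] at h1
    have h9 : 0 ≤ ∫ g, F g ∂ν := int_nonneg hν hF0
    have h10 : 0 ≤ ∫ g, E g ∂ν := int_nonneg hν hE0
    calc (∫ g, (sg (cF (dB α) g) - 1) ∂ν) ^ 2 ≤ (∫ g, F g ∂ν) * ∫ g, E g ∂ν := h1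
      _ ≤ J * (4 * ((S - 1) / (S + 1))) := mul_le_mul hJ h5 h10 (h9.trans hJ)
      _ = 4 * ((S - 1) / (S + 1)) * J := by ring
  · rw [hX]
    have hU0 : 0 ≤ U := (hP id3 id3_mem).le.trans (hU id3 id3_mem)
    have h1 : ∫ g, (sg (cF (dB α) g) - 1) ∂ν ≤ ∫ g, U / 2 * F g ∂ν := by
      refine int_mono hν (hcs.sub continuousOn_const) (continuousOn_const.mul hFc) fun g hg => ?_
      have h2 := hP g hg
      have h3 := hs1 g hg
      have h4 := hU g hg
      simp only [hF]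
      rw [← mul_div_assoc, le_div_iff₀ h2]
      nlinarith [mul_nonneg (mul_nonneg (sub_nonneg.2 h3) (sub_nonneg.2 h3)) hU0,
        mul_le_mul_of_nonneg_left h4 (sub_nonneg.2 h3)]
    rw [integral_const_mul] at h1
    have h2 : U / 2 * ∫ g, F g ∂ν ≤ U / 2 * J := mul_le_mul_of_nonneg_left hJ (by positivity)
    linarith

end Pool.Agent.Lib.DEn
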