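import Pool.Agent.Lib.DEn.Defs
import Pool.Agent.Lib.Psd.Alg

/-!
# Algebra of two-forms on R^4  (1 h)

Everything is a finite computation with the six components `T 0 1, ..., T 2 3` of skew arrays (`Psd.AlgAux.sk`), after `Fin.sum_univ_four` and unfolding `st`, `Pf`, `nrm2`, `wd`, `ip` (compare `Psd.Alg`: `nrm2_split`, `Pf_split`).
`sg_ge`: `nrm2 T - 4 Pf T = 2 ((T01 - T23)^2 + (T02 + T13)^2 + (T03 - T12)^2)`; equality gives `T01 = T23`, `T02 = -T13`, `T03 = T12`, i.e. `st T = T`.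
`th_facts`: `wd T (th T) = (wd T (st T) - sg T * wd T T) / Pf T = (ip T T - 2 sg T Pf T) / Pf T = 0`, as `ip T T = nrm2 T / 2 = 2 sg T Pf T`; `wd (th T) (th T) = (wd (st T) (st T) - 2 sg T wd T (st T) + sg T^2 wd T T) / Pf T^2 = (2 Pf T - 4 sg T^2 Pf T + 2 sg T^2 Pf T) / Pf T^2`;
`ip (th T) (th T) = wd (th T) (st (th T))`, `st (th T) = (T - sg T • st T) / Pf T`.
`hasDerivAt_sg`: `t ↦ nrm2 (T + t D)` and `t ↦ Pf (T + t D)` are polynomials of degree two; `nrm2` has derivative `4 wd D (st T)` (`= 2 ∑ T D`) at `0`, `Pf` has derivative `wd D T`; quotient rule. The general `t` follows with `T + t D` in the place of `T`.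
-/

set_option autoImplicit false
set_option maxSynthPendingDepth 3

open MeasureTheory Set Metric Filter
open scoped ContDiff Topology

namespace Pool.Agent.Lib.DEn

open Pool.Agent.P28b04d
open Pool.Agent.Lib.Psd (W hp ON3 fr cmp st asd sd nrm2 Pf Skew Conn Basic dd a0 c0)

theorem skew_st {T : A4} (h : Skew T) : Skew (st T) := by
  obtain ⟨⟨e1, e2, e3, e4⟩, ⟨e5, e6, e7⟩, ⟨e8, e9, e10⟩⟩ := Psd.AlgAux.sk h
  intro i j
  fin_cases i <;> fin_cases j <;> simp [st, e5, e6, e7, e8, e9, e10]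

theorem st_st {T : A4} (h : Skew T) : st (st T) = T := by
  obtain ⟨⟨e1, e2, e3, e4⟩, ⟨e5, e6, e7⟩, ⟨e8, e9, e10⟩⟩ := Psd.AlgAux.sk h
  funext i j
  fin_cases i <;> fin_cases j <;> simp [st, e1, e2, e3, e4, e5, e6, e7, e8, e9, e10]

theorem st_add (A B : A4) : st (A + B) = st A + st B := by
  funext i j
  fin_cases i <;> fin_cases j <;> simp [st]

theorem st_smul (c : ℝ) (A : A4) : st (c • A) = c • st A := by
  funext i j
  fin_cases i <;> fin_cases j <;> simp [st]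

theorem wd_comm (A B : A4) : wd A B = wd B A := by
  unfold wd
  ring

theorem ip_comm (A B : A4) : ip A B = ip B A := by
  unfold ip
  simp only [mul_comm]

theorem wd_add (A B C : A4) : wd (A + B) C = wd A C + wd B C := by
  simp only [wd, Pi.add_apply]
  ring

theorem wd_smul (c : ℝ) (A B : A4) : wd (c • A) B = c * wd A B := by
  simp only [wd, Pi.smul_apply, smul_eq_mul]
  ring

theorem ip_add (A B C : A4) : ip (A + B) C = ip A C + ip B C := by
  simp only [ip, Pi.add_apply, add_mul, Finset.sum_add_distrib]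
  ring

theorem ip_smul (c : ℝ) (A B : A4) : ip (c • A) B = c * ip A B := by
  simp only [ip, Pi.smul_apply, smul_eq_mul, mul_assoc, ← Finset.mul_sum]
  ring

/-- `A ∧ * B = ⟨A, B⟩` -/
theorem wd_st {A B : A4} (hA : Skew A) (hB : Skew B) : wd A (st B) = ip A B := by
  obtain ⟨⟨e1, e2, e3, e4⟩, ⟨e5, e6, e7⟩, ⟨e8, e9, e10⟩⟩ := Psd.AlgAux.sk hA
  obtain ⟨⟨f1, f2, f3, f4⟩, ⟨f5, f6, f7⟩, ⟨f8, f9, f10⟩⟩ := Psd.AlgAux.sk hB
  simp only [wd, ip, st, Fin.sum_univ_four, Matrix.cons_val_zero, Matrix.cons_val_one,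
    Matrix.cons_val, e1, e2, e3, e4, e5, e6, e7, e8, e9, e10, f1, f2, f3, f4, f5, f6, f7, f8, f9,
    f10]
  ring

theorem wd_eq_ip {A B : A4} (hA : Skew A) (hB : Skew B) : wd A B = ip A (st B) := by
  rw [← wd_st hA (skew_st hB), st_st hB]

theorem wd_st_st {A B : A4} (hA : Skew A) (hB : Skew B) : wd (st A) (st B) = wd A B := by
  rw [wd_st (skew_st hA) hB, ip_comm, wd_comm A B, wd_eq_ip hB hA]

theorem ip_st_st {A B : A4} (hA : Skew A) (hB : Skew B) : ip (st A) (st B) = ip A B := by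
  rw [← wd_st (skew_st hA) (skew_st hB), wd_st_st hA (skew_st hB), wd_st hA hB]

theorem wd_self (T : A4) : wd T T = 2 * Pf T := by
  unfold wd Pf
  ring

theorem nrm2_ip (T : A4) : nrm2 T = 2 * ip T T := by
  unfold nrm2 ip
  simp only [pow_two]
  ring

theorem ip_nonneg (T : A4) : 0 ≤ ip T T := by
  have h := Psd.nrm2_nonneg T
  rw [nrm2_ip] at h
  linarith

theorem ip_zero {T : A4} (h : ip T T = 0) : T = 0 := by
  have h1 : nrm2 T = 0 := by rw [nrm2_ip, h, mul_zero]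
  unfold nrm2 at h1
  funext i j
  have h2 := (Finset.sum_eq_zero_iff_of_nonneg
    (fun i _ => Finset.sum_nonneg fun j _ => sq_nonneg (T i j))).1 h1 i (Finset.mem_univ i)
  have h3 := (Finset.sum_eq_zero_iff_of_nonneg
    (fun j _ => sq_nonneg (T i j))).1 h2 j (Finset.mem_univ j)
  exact pow_eq_zero_iff (two_ne_zero) |>.1 h3

/-- Cauchy-Schwarz -/
theorem ip_cs (A B : A4) : ip A B ^ 2 ≤ ip A A * ip B B := by
  have h1 : (∑ p : Fin 4 × Fin 4, A p.1 p.2 * B p.1 p.2) ^ 2 ≤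
      (∑ p : Fin 4 × Fin 4, A p.1 p.2 ^ 2) * ∑ p : Fin 4 × Fin 4, B p.1 p.2 ^ 2 :=
    Finset.sum_mul_sq_le_sq_mul_sq _ _ _
  rw [Fintype.sum_prod_type, Fintype.sum_prod_type, Fintype.sum_prod_type] at h1
  simp only [pow_two] at h1
  simp only [ip, pow_two]
  nlinarith [h1]

theorem sg_ge {T : A4} (h : Skew T) (hP : 0 < Pf T) : 1 ≤ sg T := by
  obtain ⟨⟨e1, e2, e3, e4⟩, ⟨e5, e6, e7⟩, ⟨e8, e9, e10⟩⟩ := Psd.AlgAux.sk h
  unfold sg
  rw [le_div_iff₀ (by linarith)]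
  have e : nrm2 T - 4 * Pf T =
      2 * ((T 0 1 - T 2 3) ^ 2 + (T 0 2 + T 1 3) ^ 2 + (T 0 3 - T 1 2) ^ 2) := by
    simp only [nrm2, Pf, Fin.sum_univ_four, e1, e2, e3, e4, e5, e6, e7, e8, e9, e10]
    ring
  nlinarith [sq_nonneg (T 0 1 - T 2 3), sq_nonneg (T 0 2 + T 1 3), sq_nonneg (T 0 3 - T 1 2)]

theorem sg_one {T : A4} (h : Skew T) (hP : 0 < Pf T) (h1 : sg T = 1) : st T = T := by
  obtain ⟨⟨e1, e2, e3, e4⟩, ⟨e5, e6, e7⟩, ⟨e8, e9, e10⟩⟩ := Psd.AlgAux.sk h
  unfold sg at h1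
  rw [div_eq_iff (by linarith), one_mul] at h1
  have e : nrm2 T - 4 * Pf T =
      2 * ((T 0 1 - T 2 3) ^ 2 + (T 0 2 + T 1 3) ^ 2 + (T 0 3 - T 1 2) ^ 2) := by
    simp only [nrm2, Pf, Fin.sum_univ_four, e1, e2, e3, e4, e5, e6, e7, e8, e9, e10]
    ring
  have g1 := sq_nonneg (T 0 1 - T 2 3)
  have g2 := sq_nonneg (T 0 2 + T 1 3)
  have g3 := sq_nonneg (T 0 3 - T 1 2)
  have k1 : T 0 1 - T 2 3 = 0 := pow_eq_zero_iff (two_ne_zero) |>.1 (by linarith)
  have k2 : T 0 2 + T 1 3 = 0 := pow_eq_zero_iff (two_ne_zero) |>.1 (by linarith)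
  have k3 : T 0 3 - T 1 2 = 0 := pow_eq_zero_iff (two_ne_zero) |>.1 (by linarith)
  have l1 : T 2 3 = T 0 1 := by linarith
  have l2 : T 1 3 = -T 0 2 := by linarith
  have l3 : T 1 2 = T 0 3 := by linarith
  funext i j
  fin_cases i <;> fin_cases j <;>
    simp [st, e1, e2, e3, e4, e5, e6, e7, e8, e9, e10, l1, l2, l3]

theorem algThEq (T : A4) : th T = (Pf T)⁻¹ • (st T + (-sg T) • T) := by
  funext i j
  simp only [th, Pi.smul_apply, Pi.add_apply, smul_eq_mul]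
  ring

theorem algWdSmul (c : ℝ) (A B : A4) : wd A (c • B) = c * wd A B := by
  rw [wd_comm, wd_smul, wd_comm]

theorem algWdAdd (A B C : A4) : wd A (B + C) = wd A B + wd A C := by
  rw [wd_comm, wd_add, wd_comm B, wd_comm C]

theorem algIpSmul (c : ℝ) (A B : A4) : ip A (c • B) = c * ip A B := by
  rw [ip_comm, ip_smul, ip_comm]

theorem algIpAdd (A B C : A4) : ip A (B + C) = ip A B + ip A C := by
  rw [ip_comm, ip_add, ip_comm B, ip_comm C]

theorem th_facts {T : A4} (h : Skew T) (hP : 0 < Pf T) :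
    Skew (th T) ∧ wd T (th T) = 0 ∧ wd (th T) (th T) = 2 * (1 - sg T ^ 2) / Pf T ∧
      ip (th T) (th T) = 2 * sg T * (sg T ^ 2 - 1) / Pf T := by
  have hs := skew_st h
  have hP' : Pf T ≠ 0 := hP.ne'
  have hn : ip T T = 2 * sg T * Pf T := by
    have h1 : sg T * (4 * Pf T) = nrm2 T := by
      unfold sg
      rw [div_mul_cancel₀]
      exact mul_ne_zero four_ne_zero hP'
    rw [nrm2_ip] at h1
    linarith
  have w1 : wd T (st T) = 2 * sg T * Pf T := by rw [wd_st h h, hn]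
  have w2 : wd T T = 2 * Pf T := wd_self T
  have w3 : wd (st T) (st T) = 2 * Pf T := by rw [wd_st_st h h, w2]
  have w4 : wd (st T) T = 2 * sg T * Pf T := by rw [wd_comm, w1]
  have i1 : ip T (st T) = 2 * Pf T := by rw [← wd_eq_ip h h, w2]
  have i2 : ip (st T) T = 2 * Pf T := by rw [ip_comm, i1]
  have i3 : ip (st T) (st T) = 2 * sg T * Pf T := by rw [ip_st_st h h, hn]
  refine ⟨?_, ?_, ?_, ?_⟩
  · intro i j
    simp only [th]
    rw [hs i j, h i j]
    ring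
  · rw [algThEq]
    simp only [algWdSmul, algWdAdd, w1, w2]
    ring
  · rw [algThEq]
    simp only [algWdSmul, algWdAdd, wd_smul, wd_add, w1, w2, w3, w4]
    field_simp
    ring
  · rw [algThEq]
    simp only [algIpSmul, algIpAdd, ip_smul, ip_add, hn, i1, i2, i3]
    field_simp
    ring

/-- the derivative of the distortion -/
theorem hasDerivAt_sg {T D : A4} (hT : Skew T) (hD : Skew D) (t : ℝ) (hP : Pf (T + t • D) ≠ 0) :
    HasDerivAt (fun t : ℝ => sg (T + t • D)) (wd D (th (T + t • D))) t := by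
  have hS : Skew (T + t • D) := by
    intro i j
    simp only [Pi.add_apply, Pi.smul_apply, smul_eq_mul]
    rw [hT i j, hD i j]
    ring
  have q1 : ∀ s : ℝ, nrm2 (T + s • D) = nrm2 T + s * (4 * ip D T) + s ^ 2 * nrm2 D := by
    intro s
    rw [nrm2_ip, nrm2_ip, nrm2_ip]
    simp only [algIpSmul, algIpAdd, ip_smul, ip_add]
    rw [ip_comm T D]
    ring
  have q2 : ∀ s : ℝ, Pf (T + s • D) = Pf T + s * wd D T + s ^ 2 * Pf D := by
    intro s
    simp only [Pf, wd, Pi.add_apply, Pi.smul_apply, smul_eq_mul]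
    ring
  have d1 : HasDerivAt (fun s : ℝ => nrm2 (T + s • D)) (4 * ip D (T + t • D)) t := by
    have h0 : HasDerivAt (fun s : ℝ => nrm2 T + s * (4 * ip D T) + s ^ 2 * nrm2 D)
        (0 + 1 * (4 * ip D T) + (((2 : ℕ) : ℝ) * t ^ (2 - 1)) * nrm2 D) t :=
      ((hasDerivAt_const t _).add ((hasDerivAt_id' t).mul_const _)).add
        ((hasDerivAt_pow 2 t).mul_const _)
    have h1 : (fun s : ℝ => nrm2 (T + s • D)) =
        fun s : ℝ => nrm2 T + s * (4 * ip D T) + s ^ 2 * nrm2 D := funext q1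
    rw [h1]
    convert h0 using 1
    rw [algIpAdd, algIpSmul, nrm2_ip]
    norm_num
    ring
  have d2 : HasDerivAt (fun s : ℝ => Pf (T + s • D)) (wd D (T + t • D)) t := by
    have h0 : HasDerivAt (fun s : ℝ => Pf T + s * wd D T + s ^ 2 * Pf D)
        (0 + 1 * wd D T + (((2 : ℕ) : ℝ) * t ^ (2 - 1)) * Pf D) t :=
      ((hasDerivAt_const t _).add ((hasDerivAt_id' t).mul_const _)).add
        ((hasDerivAt_pow 2 t).mul_const _)
    have h1 : (fun s : ℝ => Pf (T + s • D)) =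
        fun s : ℝ => Pf T + s * wd D T + s ^ 2 * Pf D := funext q2
    rw [h1]
    convert h0 using 1
    rw [algWdAdd, algWdSmul, wd_self]
    norm_num
    ring
  have d3 := d1.div (d2.const_mul 4) (mul_ne_zero four_ne_zero hP)
  have h2 : (fun t : ℝ => sg (T + t • D)) =
      fun s : ℝ => nrm2 (T + s • D) / (4 * Pf (T + s • D)) := rfl
  have e : wd D (th (T + t • D)) = (4 * ip D (T + t • D) * (4 * Pf (T + t • D)) -
      nrm2 (T + t • D) * (4 * wd D (T + t • D))) / (4 * Pf (T + t • D)) ^ 2 := by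
    rw [algThEq, algWdSmul, algWdAdd, algWdSmul, wd_st hD hS]
    unfold sg
    field_simp
    ring
  rw [h2, e]
  exact d3

/-- the components of the Fubini-Study form -/
theorem c0_st : Skew c0 ∧ st c0 = c0 ∧ Pf c0 = 4 ∧ sg c0 = 1 := by
  obtain ⟨h1, h2, _, _, h5⟩ := Psd.c0_facts
  refine ⟨h1, ?_, h5, ?_⟩
  · funext i j
    fin_cases i <;> fin_cases j <;> simp [st, c0]
  · unfold sg
    rw [h2, h5]
    norm_num

end Pool.Agent.Lib.DEn
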