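import Pool.Agent.Lib.DEn.Br
import Pool.Agent.Lib.P28u.WmF

set_option autoImplicit false
set_option maxSynthPendingDepth 3

/-!
# Derivatives of the components along the invariant fields  (1 h)

`P28u.Dv i F g = fderiv ℝ F g (rm g (Xm i))`. For `H : X3` the derivative at `g` of `x ↦ γ (x 0) (fr (x 1) (x 2) j)` in the direction `H` is `fderiv ℝ γ (g 0) (H 0) (fr (g 1) (g 2) j) + γ (g 0) (fr (H 1) (H 2) j)` (`fr` is linear in the pair; the maps `x ↦ x k` are continuous linear; `γ`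
is smooth off `0`, `g 0 ≠ 0` by `col_ne`). For `H = rm g (Xm i)`: `H 0 = mx g (Eb i) = fr (g 1) (g 2) i` (`Eb_eq`, `P28u.Xm` is `Fin.cons (Eb i) ...`), and `H 1`, `H 2` are complex multiples of `g 0` (`mx g (c • e0) = c • g 0`), so `fr (H 1) (H 2) j` is a complex multiple
`c • g 0` and `γ (g 0) (c • g 0) = 0` (`Psd.Basic.rad`, `rot`: `c • z = c.re • z + c.im • (I • z)`); for two-forms use `HF.hor` and `HF.skew`. Compare `P28u.WmF` (`DM_Wm`). Smoothness: compositions (`ContDiffOn.contDiffAt`, the complement of `0` is open).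
-/

open MeasureTheory Set Metric Filter
open scoped ContDiff Topology

namespace Pool.Agent.Lib.DEn

open Pool.Agent.P28b04d
open Pool.Agent.Lib.Psd (W hp ON3 fr cmp st asd sd nrm2 Pf Skew Conn Basic dd a0 c0)

namespace DvEAux

/-- `X ↦ X 0`, real linear. -/
noncomputable def q0 : X3 →L[ℝ] W :=
  ContinuousLinearMap.proj (R := ℝ) (φ := fun _ : Fin 3 => W) 0

theorem q0_apply (X : X3) : q0 X = X 0 := rfl

/-- `X ↦ fr (X 1) (X 2) j`, real linear. -/
noncomputable def qf (j : Fin 4) : X3 →L[ℝ] W := P28u.WmFAux.mp (n := 2) (P28u.Eb (n := 2) j)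

theorem qf_apply (j : Fin 4) (X : X3) : qf j X = fr (X 1) (X 2) j :=
  (P28u.WmFAux.mp_apply (n := 2) (P28u.Eb (n := 2) j) X).trans (Eb_eq X j)

theorem qf_dir (g : X3) (i j : Fin 4) :
    qf j (P28u.rm (n := 2) g (P28u.Xm (n := 2) i)) =
      (-hip (P28u.Eb (n := 2) i) (P28u.Eb (n := 2) j)) • g 0 := by
  have h : qf j (P28u.rm (n := 2) g (P28u.Xm (n := 2) i)) =
      P28t.mx (n := 2) (P28u.rm (n := 2) g (P28u.Xm (n := 2) i)) (P28u.Eb (n := 2) j) :=
    P28u.WmFAux.mp_apply (n := 2) (P28u.Eb (n := 2) j) _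
  rw [h, P28u.mx_rm, P28u.mx_Xm, P28u.WmFAux.Eb0, zero_smul, zero_sub, ← neg_smul, P28u.mx_smul,
    P28u.mx_e0]

theorem q0_dir (g : X3) (i : Fin 4) :
    q0 (P28u.rm (n := 2) g (P28u.Xm (n := 2) i)) = fr (g 1) (g 2) i := by
  have h0 : P28u.rm (n := 2) g (P28u.Xm (n := 2) i) 0 = P28t.mx (n := 2) g (P28u.Eb (n := 2) i) := by
    show P28t.mx (n := 2) g (P28u.Xm (n := 2) i 0) = _
    rw [P28u.Xm_zero]
  rw [q0_apply]
  exact h0.trans (Eb_eq g i)

theorem basic_smul {γ : W → W →L[ℝ] ℝ} (h : Basic γ) {z : W} (hz : z ≠ 0) (c : ℂ) :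
    γ z (c • z) = 0 := by
  have h1 : c • z = c.re • z + c.im • (Complex.I • z) := by
    funext k
    simp only [Pi.smul_apply, Pi.add_apply, smul_eq_mul, Complex.real_smul]
    conv_lhs => rw [← Complex.re_add_im c]
    ring
  rw [h1, map_add, map_smul, map_smul, h.rad z hz, h.rot z hz, smul_zero, smul_zero, add_zero]

theorem cd_at {F : Type*} [NormedAddCommGroup F] [NormedSpace ℝ F] {f : W → F}
    (h : ContDiffOn ℝ ∞ f {0}ᶜ) {z : W} (hz : z ≠ 0) : ContDiffAt ℝ ∞ f z :=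
  h.contDiffAt (isOpen_compl_singleton.mem_nhds hz)

theorem d_at {F : Type*} [NormedAddCommGroup F] [NormedSpace ℝ F] {f : W → F}
    (h : ContDiffOn ℝ ∞ f {0}ᶜ) {z : W} (hz : z ≠ 0) : HasFDerivAt f (fderiv ℝ f z) z :=
  ((cd_at h hz).differentiableAt (by simp)).hasFDerivAt

end DvEAux

open DvEAux

theorem smooth_c1 {γ : W → W →L[ℝ] ℝ} (h : Basic γ) {g : X3} (hg : g ∈ U3) (j : Fin 4) :
    ContDiffAt ℝ ∞ (fun x : X3 => c1 γ x j) g := by
  have h1 : ContDiffAt ℝ ∞ (fun x : X3 => γ (q0 x)) g :=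
    (cd_at h.smooth (col_ne hg 0)).comp g q0.contDiff.contDiffAt
  have h2 : ContDiffAt ℝ ∞ (fun x : X3 => qf j x) g := (qf j).contDiff.contDiffAt
  have h3 := h1.clm_apply h2
  simp only [qf_apply, q0_apply] at h3
  exact h3

theorem smooth_cF {τ : W → BW} (h : ContDiffOn ℝ ∞ τ {0}ᶜ) {g : X3} (hg : g ∈ U3) (i j : Fin 4) :
    ContDiffAt ℝ ∞ (fun x : X3 => cF τ x i j) g := by
  have h1 : ContDiffAt ℝ ∞ (fun x : X3 => τ (q0 x)) g :=
    (cd_at h (col_ne hg 0)).comp g q0.contDiff.contDiffAt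
  have h2 : ContDiffAt ℝ ∞ (fun x : X3 => qf i x) g := (qf i).contDiff.contDiffAt
  have h2' : ContDiffAt ℝ ∞ (fun x : X3 => qf j x) g := (qf j).contDiff.contDiffAt
  have h3 := (h1.clm_apply h2).clm_apply h2'
  simp only [qf_apply, q0_apply] at h3
  exact h3

theorem ctU_cF {τ : W → BW} (h : ContDiffOn ℝ ∞ τ {0}ᶜ) : CtU (cF τ) := by
  intro i j g hg
  exact (smooth_cF h hg i j).continuousAt.continuousWithinAt

theorem Dv_c1 {γ : W → W →L[ℝ] ℝ} (h : Basic γ) {g : X3} (hg : g ∈ U3) (i j : Fin 4) :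
    P28u.Dv (n := 2) i (fun x : X3 => c1 γ x j) g =
      fderiv ℝ γ (g 0) (fr (g 1) (g 2) i) (fr (g 1) (g 2) j) := by
  have hz := col_ne hg 0
  have h1 : HasFDerivAt (fun x : X3 => γ (q0 x)) ((fderiv ℝ γ (g 0)).comp q0) g := by
    have hd : HasFDerivAt γ (fderiv ℝ γ (g 0)) (q0 g) := d_at h.smooth hz
    exact hd.comp g q0.hasFDerivAt
  have h2 : HasFDerivAt (fun x : X3 => qf j x) (qf j) g := (qf j).hasFDerivAt
  have h3 := (h1.clm_apply h2).fderiv
  have h4 : (fun x : X3 => c1 γ x j) = fun x : X3 => (γ (q0 x)) (qf j x) := by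
    funext x
    simp only [qf_apply, q0_apply]
    rfl
  have key : ∀ (H : X3) (c : ℂ), q0 H = fr (g 1) (g 2) i → qf j H = c • g 0 →
      fderiv ℝ (fun x : X3 => c1 γ x j) g H =
      fderiv ℝ γ (g 0) (fr (g 1) (g 2) i) (fr (g 1) (g 2) j) := by
    intro H c k1 k2
    rw [h4, h3]
    simp only [add_apply, ContinuousLinearMap.comp_apply, ContinuousLinearMap.flip_apply]
    rw [k1, k2, q0_apply, basic_smul h hz, zero_add, qf_apply]
  exact key _ _ (q0_dir g i) (qf_dir g i j)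

theorem Dv_cF {τ : W → BW} (h : HF τ) {g : X3} (hg : g ∈ U3) (i j k : Fin 4) :
    P28u.Dv (n := 2) i (fun x : X3 => cF τ x j k) g =
      fderiv ℝ τ (g 0) (fr (g 1) (g 2) i) (fr (g 1) (g 2) j) (fr (g 1) (g 2) k) := by
  have hz := col_ne hg 0
  have h1 : HasFDerivAt (fun x : X3 => τ (q0 x)) ((fderiv ℝ τ (g 0)).comp q0) g := by
    have hd : HasFDerivAt τ (fderiv ℝ τ (g 0)) (q0 g) := d_at h.smooth hz
    exact hd.comp g q0.hasFDerivAt
  have h2 : HasFDerivAt (fun x : X3 => qf j x) (qf j) g := (qf j).hasFDerivAt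
  have h2' : HasFDerivAt (fun x : X3 => qf k x) (qf k) g := (qf k).hasFDerivAt
  have h3 := ((h1.clm_apply h2).clm_apply h2').fderiv
  have h4 : (fun x : X3 => cF τ x j k) = fun x : X3 => (τ (q0 x)) (qf j x) (qf k x) := by
    funext x
    simp only [qf_apply, q0_apply]
    rfl
  have h5 : ∀ (c : ℂ) (w : W), τ (g 0) (c • g 0) w = 0 := fun c w => h.hor (g 0) hz c w
  have h6 : ∀ (c : ℂ) (w : W), τ (g 0) w (c • g 0) = 0 := fun c w => by
    rw [h.skew (g 0) hz, h5, neg_zero]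
  have key : ∀ (H : X3) (c c' : ℂ), q0 H = fr (g 1) (g 2) i → qf j H = c • g 0 →
      qf k H = c' • g 0 → fderiv ℝ (fun x : X3 => cF τ x j k) g H =
      fderiv ℝ τ (g 0) (fr (g 1) (g 2) i) (fr (g 1) (g 2) j) (fr (g 1) (g 2) k) := by
    intro H c c' k1 k2 k3
    rw [h4, h3]
    simp only [add_apply, ContinuousLinearMap.comp_apply, ContinuousLinearMap.flip_apply]
    rw [k1, k2, k3, q0_apply, h5, h6, zero_add, zero_add, qf_apply, qf_apply]
  exact key _ _ _ (q0_dir g i) (qf_dir g i j) (qf_dir g i k)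

end Pool.Agent.Lib.DEn
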