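import Pool.Agent.Lib.DEn.Pos

set_option autoImplicit false
set_option maxSynthPendingDepth 3

/-!
# The kernel and the convolution operator  (1.5 h)

`tr_inv`: `∑_j hp (g j) (mv h (g j)) = ∑_j hp (id3 j) (h j)` for `g ∈ U3` (`trace (g* h g) = trace h`: `hp (g j) (mv h (g j)) = ∑_{k,l} star (g j k) h_l(k) g_j(l)` and `∑_j g_j(l) star (g_j(k)) = δ_{kl}`, the rows of a unitary matrix are orthonormal, e.g. from `exists_inv`/`Matrix.mem_unitaryGroup_iff`). Hence
`kN_mm`: `kN N g (mm h g) = kN N id3 h`. `kN_nonneg`, `kN_le`: for `g, h ∈ U3`: `|∑_j hp (g j) (h j)| ≤ 3` (Cauchy-Schwarz, `hp (g j) (g j) = 1`). `kN_symm`: `Re hp a b = Re hp b a`. `int_kN`: `integral_mm` with `f h = kN N g h`, `k = g`. `cN_pos`: the integrand `kN N id3 h` is continuous, nonnegative on `U3` and `1` at `id3`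
(`Pos.eq_zero_of_int`). `Cv_eq`: `integral_mm` for `h ↦ kN N g h * f h`. `Cv_cont`: dominated convergence / continuity of parametric integrals over the compact set `U3` (`continuous_of_dominated`, `g ↦ kN N g h` is continuous on all of `X3`; the restriction of `ν` to `U3` is `ν`). `Cv_self`: Fubini and `kN_symm`.
`Cv_contr`: Jensen/Cauchy-Schwarz: `(Cv ν N f g)^2 ≤ (cN ν N)⁻¹ * ∫ kN N g h * f h ^ 2 dν(h)` for `g ∈ U3`, integrate over `g` with Fubini and `int_kN`.
-/

open MeasureTheory Set Metric Filter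
open scoped ContDiff Topology

namespace Pool.Agent.Lib.DEn

open Pool.Agent.P28b04d
open Pool.Agent.Lib.Psd (W hp ON3 fr cmp st asd sd nrm2 Pf Skew Conn Basic dd a0 c0)

namespace KerAux

theorem hp_re (z w : W) :
    (hp z w).re = ∑ k, ((z k).re * (w k).re + (z k).im * (w k).im) := by
  unfold hp
  rw [Complex.re_sum]
  refine Finset.sum_congr rfl fun k _ => ?_
  rw [Complex.mul_re]
  simp

theorem hp_re_symm (z w : W) : (hp z w).re = (hp w z).re := by
  rw [hp_re, hp_re]
  refine Finset.sum_congr rfl fun k _ => ?_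
  ring

theorem hp_re_abs {z w : W} (hz : hp z z = 1) (hw : hp w w = 1) : |(hp z w).re| ≤ 1 := by
  have h1 : ∑ k, ((z k).re * (z k).re + (z k).im * (z k).im) = 1 := by
    rw [← hp_re, hz, Complex.one_re]
  have h2 : ∑ k, ((w k).re * (w k).re + (w k).im * (w k).im) = 1 := by
    rw [← hp_re, hw, Complex.one_re]
  have h3 : ∀ s : ℝ, s ^ 2 = 1 → s * (hp z w).re ≤ 1 := by
    intro s hs
    have h4 : s * (hp z w).re ≤ ∑ k, (((z k).re * (z k).re + (z k).im * (z k).im) +
        ((w k).re * (w k).re + (w k).im * (w k).im)) / 2 := by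
      rw [hp_re, Finset.mul_sum]
      refine Finset.sum_le_sum fun k _ => ?_
      nlinarith [sq_nonneg (s * (z k).re - (w k).re), sq_nonneg (s * (z k).im - (w k).im)]
    rw [← Finset.sum_div, Finset.sum_add_distrib, h1, h2] at h4
    linarith
  rw [abs_le]
  constructor
  · have := h3 (-1) (by norm_num)
    linarith
  · have := h3 1 (by norm_num)
    linarith

theorem sum_abs {g h : X3} (hg : g ∈ U3) (hh : h ∈ U3) : |(∑ j, hp (g j) (h j)).re| ≤ 3 := by
  rw [Complex.re_sum]
  refine (Finset.abs_sum_le_sum_abs _ _).trans ?_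
  have h1 : ∀ j ∈ (Finset.univ : Finset (Fin 3)), |(hp (g j) (h j)).re| ≤ 1 := by
    intro j _
    refine hp_re_abs ?_ ?_
    · have := hg j j
      simpa using this
    · have := hh j j
      simpa using this
  refine (Finset.sum_le_sum h1).trans ?_
  simp

theorem rows {g : X3} (hg : g ∈ U3) (k l : Fin 3) :
    ∑ j, g j k * star (g j l) = if k = l then 1 else 0 := by
  let G : Matrix (Fin 3) (Fin 3) ℂ := Matrix.of fun l j => g j l
  have h1 : Matrix.conjTranspose G * G = 1 := by
    ext j k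
    rw [Matrix.mul_apply, Matrix.one_apply]
    exact hg j k
  have h2 : G * Matrix.conjTranspose G = 1 := mul_eq_one_comm.mp h1
  have h3 := congrFun (congrFun h2 k) l
  rw [Matrix.mul_apply, Matrix.one_apply] at h3
  exact h3

theorem tr_inv {g : X3} (hg : g ∈ U3) (h : X3) :
    ∑ j, hp (g j) (mm h g j) = ∑ j, hp (id3 j) (h j) := by
  have e1 : ∀ j, hp (g j) (mm h g j) = ∑ l, ∑ k, (g j k * star (g j l)) * h k l := by
    intro j
    unfold hp
    refine Finset.sum_congr rfl fun l _ => ?_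
    have : mm h g j l = ∑ k, g j k * h k l := by
      show (∑ k, g j k • h k) l = _
      rw [Finset.sum_apply]
      rfl
    rw [this, Finset.mul_sum]
    refine Finset.sum_congr rfl fun k _ => ?_
    ring
  have e2 : ∀ j, hp (id3 j) (h j) = h j j := by
    intro j
    unfold hp id3
    rw [Finset.sum_eq_single j]
    · simp
    · intro b _ hb
      simp [hb]
    · simp
  simp only [e1, e2]
  rw [Finset.sum_comm]
  have e3 : ∀ l : Fin 3, ∑ j, ∑ k, (g j k * star (g j l)) * h k l = h l l := by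
    intro l
    rw [Finset.sum_comm]
    have e4 : ∀ k : Fin 3, ∑ j, (g j k * star (g j l)) * h k l = (if k = l then 1 else 0) * h k l := by
      intro k
      rw [← Finset.sum_mul, rows hg]
    simp only [e4]
    simp
  exact Finset.sum_congr rfl fun l _ => e3 l

theorem cont_r (N : ℕ) (g : X3) : Continuous fun h : X3 => kN N g h := by
  unfold kN hp
  fun_prop

theorem cont_l (N : ℕ) (h : X3) : Continuous fun g : X3 => kN N g h := by
  unfold kN hp
  fun_prop

theorem cont_g (N : ℕ) (g : X3) {f : X3 → ℝ} (hf : ContinuousOn f U3) :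
    ContinuousOn (fun h => kN N g h * f h) U3 :=
  (cont_r N g).continuousOn.mul hf

theorem restrict_u {ν : Measure X3} (hν : Ha ν) : ν.restrict U3 = ν :=
  P28u.IntDAux.restrict_un (n := 2) ((ha_haar ν).1 hν)

theorem integrable_prod {ν : Measure X3} (hν : Ha ν) {F : X3 × X3 → ℝ}
    (hF : ContinuousOn F (U3 ×ˢ U3)) : Integrable F (ν.prod ν) := by
  have := hν.prob
  have h : IntegrableOn F (U3 ×ˢ U3) (ν.prod ν) :=
    hF.integrableOn_compact (isCompact_U3.prod isCompact_U3)
  rw [IntegrableOn, ← Measure.prod_restrict, restrict_u hν] at h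
  exact h

end KerAux

open KerAux

theorem kN_mm (N : ℕ) {g : X3} (hg : g ∈ U3) (h : X3) : kN N g (mm h g) = kN N id3 h := by
  unfold kN
  rw [tr_inv hg h]

theorem kN_nonneg (N : ℕ) {g h : X3} (hg : g ∈ U3) (hh : h ∈ U3) : 0 ≤ kN N g h := by
  have h1 := abs_le.mp (sum_abs hg hh)
  unfold kN
  apply pow_nonneg
  linarith [h1.1]

theorem kN_le (N : ℕ) {g h : X3} (hg : g ∈ U3) (hh : h ∈ U3) : kN N g h ≤ 1 := by
  have h1 := abs_le.mp (sum_abs hg hh)
  unfold kN
  apply pow_le_one₀
  · linarith [h1.1]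
  · linarith [h1.2]

theorem kN_symm (N : ℕ) (g h : X3) : kN N g h = kN N h g := by
  unfold kN
  rw [Complex.re_sum, Complex.re_sum]
  congr 3
  exact Finset.sum_congr rfl fun j _ => hp_re_symm _ _

theorem kN_cont (N : ℕ) : Continuous fun p : X3 × X3 => kN N p.1 p.2 := by
  unfold kN hp
  fun_prop

theorem cN_pos {ν : Measure X3} (hν : Ha ν) (N : ℕ) : 0 < cN ν N := by
  have h1 : ContinuousOn (fun h => kN N id3 h) U3 := (cont_r N id3).continuousOn
  have h2 : 0 ≤ cN ν N :=
    integral_nonneg_of_ae (ae_u hν fun h hh => kN_nonneg N id3_mem hh)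
  rcases h2.lt_or_eq with h3 | h3
  · exact h3
  · exfalso
    have h4 := eq_zero_of_int hν h1 (fun h hh => kN_nonneg N id3_mem hh) h3.symm id3 id3_mem
    have h5 : kN N id3 id3 = 1 := by
      unfold kN
      have h6 : (∑ j, hp ((id3 : X3) j) ((id3 : X3) j)).re = 3 := by
        have h7 : ∀ j ∈ (Finset.univ : Finset (Fin 3)), hp ((id3 : X3) j) ((id3 : X3) j) = 1 := by
          intro j _
          have := (id3_mem : (id3 : X3) ∈ U3) j j
          simpa using this
        rw [Finset.sum_congr rfl h7]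
        simp
      rw [h6]
      norm_num
    rw [h5] at h4
    exact one_ne_zero h4

theorem int_kN {ν : Measure X3} (hν : Ha ν) (N : ℕ) {g : X3} (hg : g ∈ U3) :
    ∫ h, kN N g h ∂ν = cN ν N := by
  have h1 : ContinuousOn (fun h => kN N g h) U3 := (cont_r N g).continuousOn
  rw [← integral_mm hν h1 hg]
  unfold cN
  congr 1
  funext h
  exact kN_mm N hg h

theorem Cv_eq {ν : Measure X3} (hν : Ha ν) (N : ℕ) {f : X3 → ℝ} (hf : ContinuousOn f U3) {g : X3}
    (hg : g ∈ U3) : Cv ν N f g = (cN ν N)⁻¹ * ∫ h, kN N id3 h * f (mm h g) ∂ν := by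
  unfold Cv
  rw [← integral_mm hν (cont_g N g hf) hg]
  congr 2
  funext h
  rw [kN_mm N hg h]

theorem Cv_cont {ν : Measure X3} (hν : Ha ν) (N : ℕ) {f : X3 → ℝ} (hf : ContinuousOn f U3) :
    Continuous (Cv ν N f) := by
  have := hν.prob
  unfold Cv
  refine Continuous.mul continuous_const ?_
  rw [continuous_iff_continuousAt]
  intro g0
  obtain ⟨C, hC⟩ := ((isCompact_closedBall g0 1).prod isCompact_U3).exists_bound_of_continuousOn
    (f := fun p : X3 × X3 => kN N p.1 p.2) (kN_cont N).continuousOn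
  have hCf : ContinuousOn (fun h => C * |f h|) U3 := continuousOn_const.mul hf.abs
  refine continuousAt_of_dominated (bound := fun h => C * |f h|) ?_ ?_ (integrable_u hν hCf) ?_
  · exact Eventually.of_forall fun g =>
      (integrable_u hν (cont_g N g hf)).aestronglyMeasurable
  · filter_upwards [closedBall_mem_nhds g0 one_pos] with g hg
    refine ae_u hν fun h hh => ?_
    have h1 := hC (g, h) ⟨hg, hh⟩
    rw [norm_mul]
    exact mul_le_mul h1 (le_of_eq (Real.norm_eq_abs _)) (norm_nonneg _)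
      ((norm_nonneg _).trans h1)
  · refine ae_u hν fun h _ => ?_
    exact ((cont_l N h).mul continuous_const).continuousAt

theorem Cv_self {ν : Measure X3} (hν : Ha ν) (N : ℕ) {f k : X3 → ℝ} (hf : ContinuousOn f U3)
    (hk : ContinuousOn k U3) : ∫ g, Cv ν N f g * k g ∂ν = ∫ g, f g * Cv ν N k g ∂ν := by
  have := hν.prob
  have hF : ContinuousOn (fun p : X3 × X3 => kN N p.1 p.2 * f p.2 * k p.1) (U3 ×ˢ U3) := by
    refine ((kN_cont N).continuousOn.mul ?_).mul ?_
    · exact hf.comp continuous_snd.continuousOn fun p hp => hp.2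
    · exact hk.comp continuous_fst.continuousOn fun p hp => hp.1
  have hswap := integral_integral_swap (f := fun g h => kN N g h * f h * k g)
    (integrable_prod hν hF)
  have e1 : ∀ g, Cv ν N f g * k g = (cN ν N)⁻¹ * ∫ h, kN N g h * f h * k g ∂ν := by
    intro g
    unfold Cv
    rw [integral_mul_const]
    ring
  have e2 : ∀ h, f h * Cv ν N k h = (cN ν N)⁻¹ * ∫ g, kN N g h * f h * k g ∂ν := by
    intro h
    unfold Cv
    have e3 : ∀ g, kN N g h * f h * k g = f h * (kN N h g * k g) := by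
      intro g
      rw [kN_symm N g h]
      ring
    simp only [e3]
    rw [integral_const_mul]
    ring
  simp only [e1, e2]
  rw [integral_const_mul, integral_const_mul, hswap]

theorem Cv_contr {ν : Measure X3} (hν : Ha ν) (N : ℕ) {f : X3 → ℝ} (hf : ContinuousOn f U3) :
    ∫ g, Cv ν N f g ^ 2 ∂ν ≤ ∫ g, f g ^ 2 ∂ν := by
  have := hν.prob
  have hc := cN_pos hν N
  have hf2 : ContinuousOn (fun h => f h ^ 2) U3 := hf.pow 2
  have h1 : ∀ g ∈ U3, Cv ν N f g ^ 2 ≤ Cv ν N (fun h => f h ^ 2) g := by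
    intro g hg
    set t := Cv ν N f g with ht
    have hI1 : ∫ h, kN N g h * f h ∂ν = cN ν N * t := by
      rw [ht]
      unfold Cv
      rw [mul_inv_cancel_left₀ hc.ne']
    have hi1 := integrable_u hν (cont_g N g hf)
    have hi2 := integrable_u hν (cont_g N g hf2)
    have hi3 : Integrable (fun h => kN N g h) ν :=
      integrable_u hν (cont_r N g).continuousOn
    have h2 : 0 ≤ ∫ h, kN N g h * (f h - t) ^ 2 ∂ν :=
      integral_nonneg_of_ae (ae_u hν fun h hh => mul_nonneg (kN_nonneg N hg hh) (sq_nonneg _))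
    have h3 : ∫ h, kN N g h * (f h - t) ^ 2 ∂ν =
        ∫ h, kN N g h * f h ^ 2 ∂ν - 2 * t * ∫ h, kN N g h * f h ∂ν +
          t ^ 2 * ∫ h, kN N g h ∂ν := by
      have e4 : (fun h => kN N g h * (f h - t) ^ 2) = fun h =>
          (kN N g h * f h ^ 2 - 2 * t * (kN N g h * f h)) + t ^ 2 * kN N g h := by
        funext h
        ring
      have hi4 : Integrable (fun h => 2 * t * (kN N g h * f h)) ν := hi1.const_mul (2 * t)
      have hi12 : Integrable (fun h => kN N g h * f h ^ 2 - 2 * t * (kN N g h * f h)) ν :=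
        hi2.sub hi4
      have hi3' : Integrable (fun h => t ^ 2 * kN N g h) ν := hi3.const_mul _
      rw [e4, integral_add hi12 hi3', integral_sub hi2 hi4, integral_const_mul,
        integral_const_mul]
    rw [h3, hI1, int_kN hν N hg] at h2
    have h4 : cN ν N * t ^ 2 ≤ ∫ h, kN N g h * f h ^ 2 ∂ν := by nlinarith
    show t ^ 2 ≤ (cN ν N)⁻¹ * ∫ h, kN N g h * f h ^ 2 ∂ν
    rw [inv_mul_eq_div, le_div_iff₀ hc]
    linarith
  have h5 : ∫ g, Cv ν N f g ^ 2 ∂ν ≤ ∫ g, Cv ν N (fun h => f h ^ 2) g ∂ν := by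
    refine integral_mono_ae ?_ ?_ (ae_u hν h1)
    · exact integrable_u hν ((Cv_cont hν N hf).pow 2).continuousOn
    · exact integrable_u hν (Cv_cont hν N hf2).continuousOn
  refine h5.trans (le_of_eq ?_)
  have h6 := Cv_self hν N hf2 (continuousOn_const (c := (1 : ℝ)))
  simp only [mul_one] at h6
  rw [h6]
  refine integral_congr_u hν fun g hg => ?_
  have h7 : Cv ν N (fun _ => (1 : ℝ)) g = 1 := by
    unfold Cv
    simp only [mul_one]
    rw [int_kN hν N hg, inv_mul_cancel₀ hc.ne']
  rw [h7, mul_one]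

end Pool.Agent.Lib.DEn
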