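import Pool.Agent.Lib.DEn.Forms
import Pool.Agent.Lib.DEn.Ker
import Pool.Agent.Lib.DEn.DvE
import Pool.Agent.Lib.P28e.AvgClose

set_option autoImplicit false
set_option maxSynthPendingDepth 3

/-!
# Averages of forms over the unitary matrices  (1.5 h)

`γ'_z = (cN ν N)⁻¹ • ∫_{h ∈ U3} kN N id3 h • pl1 h γ z dν(h)` (integral of functions with values in the finite dimensional space `W →L[ℝ] ℝ`), `τ'_z` the same with `pl h τ z`. Smooth off `0`: `P28e.contDiffOn_param` with `Ω = {0}ᶜ`, `O` = the open set of invertible `h` (`h` such that the determinant of the matrix of columns is `≠ 0`; it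
contains `U3`), `K = U3` compact (`isCompact_U3`), `Ψ (z, h) = kN N id3 h • pl1 h γ z` is smooth on `Ω ×ˢ O` because `mv h z ≠ 0` there and `(h, z) ↦ mv h z`, `h ↦ mvL h` are smooth. (The integral over `K` with respect to `ν` is the integral over the whole space: `Ha.supp`.) Basic/HF: the integrand has these properties for `h ∈ U3`
(`mv_smul`, `mv h z ≠ 0`). `dB` commutes with the integral (`P28e.Close46.hasFDerivAt_param`) and with linear pull-backs: `dB (pl1 h γ) z = pl h (dB γ) z` (chain rule). Then `cF (dB γ') g i j = (cN)⁻¹ ∫ kN N id3 h * cF (dB γ) (mm h g) i j dν(h) = Cv ν N (fun x => cF (dB γ) x i j) g` (`cF_pl`, `Cv_eq`; the continuity of the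
entries on `U3` is elementary, or `DvE.ctU_cF`).
-/

open MeasureTheory Set Metric Filter
open scoped ContDiff Topology

namespace Pool.Agent.Lib.DEn

open Pool.Agent.P28b04d
open Pool.Agent.Lib.Psd (W hp ON3 fr cmp st asd sd nrm2 Pf Skew Conn Basic dd a0 c0)

namespace AvAux

theorem restrict_U3 {ν : Measure X3} (hν : Ha ν) : ν.restrict U3 = ν :=
  Measure.restrict_eq_self_of_ae_mem (by
    rw [ae_iff]
    exact hν.supp)

/-- determinant of a matrix given by its columns -/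
noncomputable def detX (h : X3) : ℂ := Matrix.det (Matrix.of fun i j => h j i)

/-- invertible matrices -/
def OX : Set X3 := {h | detX h ≠ 0}

theorem continuous_detX : Continuous detX := by
  unfold detX
  apply Continuous.matrix_det
  exact continuous_pi fun i => continuous_pi fun j =>
    (continuous_apply i).comp (continuous_apply j)

theorem isOpen_OX : IsOpen OX := isOpen_ne_fun continuous_detX continuous_const

theorem mulVec_eq (h : X3) (z : W) : (Matrix.of fun i j => h j i).mulVec z = mv h z := by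
  funext i
  simp only [Matrix.mulVec, dotProduct, Matrix.of_apply, mv, Finset.sum_apply, Pi.smul_apply,
    smul_eq_mul]
  exact Finset.sum_congr rfl fun j _ => mul_comm _ _

theorem mv_ne {h : X3} (hh : h ∈ OX) {z : W} (hz : z ≠ 0) : mv h z ≠ 0 := by
  intro h0
  exact hz (Matrix.eq_zero_of_mulVec_eq_zero hh (by rw [mulVec_eq, h0]))

theorem mv_ne_u {h : X3} (hh : h ∈ U3) {z : W} (hz : z ≠ 0) : mv h z ≠ 0 := by
  intro h0
  have h1 := nsq_mv hh z
  rw [h0] at h1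
  have h2 := nsq_pos hz
  rw [← h1] at h2
  simp [nsq] at h2

theorem U3_sub : U3 ⊆ OX := by
  intro h hh h0
  obtain ⟨v, hv, hv0⟩ := Matrix.exists_mulVec_eq_zero_iff.2 h0
  rw [mulVec_eq] at hv0
  exact mv_ne_u hh hv hv0

/-- `mvL` as a linear map -/
noncomputable def mvLl : X3 →ₗ[ℝ] (W →L[ℝ] W) where
  toFun := mvL
  map_add' g h := by
    ext1 z
    rw [ContinuousLinearMap.add_apply, mvL_apply, mvL_apply, mvL_apply]
    simp only [mv, Pi.add_apply, smul_add, Finset.sum_add_distrib]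
  map_smul' c g := by
    ext1 z
    rw [RingHom.id_apply, ContinuousLinearMap.smul_apply, mvL_apply, mvL_apply]
    simp only [mv, Pi.smul_apply, Finset.smul_sum]
    exact Finset.sum_congr rfl fun j _ => smul_comm _ _ _

theorem contDiff_mvL : ContDiff ℝ ∞ (mvL : X3 → W →L[ℝ] W) :=
  (LinearMap.toContinuousLinearMap mvLl).contDiff

theorem contDiff_mv : ContDiff ℝ ∞ (fun p : W × X3 => mv p.2 p.1) := by
  have h : ContDiff ℝ ∞ (fun p : W × X3 => mvL p.2 p.1) :=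
    (contDiff_mvL.comp contDiff_snd).clm_apply contDiff_fst
  simpa only [mvL_apply] using h

theorem contDiff_kN (N : ℕ) : ContDiff ℝ ∞ (fun h : X3 => kN N id3 h) := by
  unfold kN
  apply ContDiff.pow
  apply ContDiff.div_const
  apply contDiff_const.add
  have h1 : (fun h : X3 => (∑ j, hp (id3 j) (h j)).re) = fun h : X3 => ∑ j, (h j j).re := by
    funext h
    rw [Complex.re_sum]
    refine Finset.sum_congr rfl fun j _ => ?_
    congr 1
    simp only [hp, id3, Pi.single_apply]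
    rw [Finset.sum_eq_single j]
    · simp
    · intro k _ hk
      simp [hk]
    · simp
  rw [h1]
  apply ContDiff.sum
  intro j _
  exact Complex.reCLM.contDiff.comp (by fun_prop)

/-- average of a family of functions -/
noncomputable def avg {G : Type} [NormedAddCommGroup G] [NormedSpace ℝ G] (ν : Measure X3) (N : ℕ)
    (Ψ : W × X3 → G) (z : W) : G := (cN ν N)⁻¹ • ∫ h, kN N id3 h • Ψ (z, h) ∂ν

section
variable {G : Type} [NormedAddCommGroup G] [NormedSpace ℝ G] [FiniteDimensional ℝ G]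
  {ν : Measure X3} {N : ℕ} {Ψ : W × X3 → G}

theorem smooth_k (N : ℕ) (hΨ : ContDiffOn ℝ ∞ Ψ (({0}ᶜ : Set W) ×ˢ OX)) :
    ContDiffOn ℝ ∞ (fun q : W × X3 => kN N id3 q.2 • Ψ q) (({0}ᶜ : Set W) ×ˢ OX) :=
  ((contDiff_kN N).comp contDiff_snd).contDiffOn.smul hΨ

theorem avg_smooth (hν : Ha ν) (hΨ : ContDiffOn ℝ ∞ Ψ (({0}ᶜ : Set W) ×ˢ OX)) :
    ContDiffOn ℝ ∞ (avg ν N Ψ) {0}ᶜ := by
  have := hν.prob
  unfold avg
  apply ContDiffOn.const_smul
  have h := P28e.contDiffOn_param ν isOpen_compl_singleton isOpen_OX isCompact_U3 U3_sub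
    (smooth_k N hΨ)
  rw [restrict_U3 hν] at h
  exact h

theorem avg_int (hν : Ha ν) (hΨ : ContDiffOn ℝ ∞ Ψ (({0}ᶜ : Set W) ×ˢ OX)) {z : W} (hz : z ≠ 0) :
    Integrable (fun h => kN N id3 h • Ψ (z, h)) ν := by
  have := hν.prob
  have h0 := (smooth_k N hΨ).continuousOn
  have h1 : ContinuousOn (fun h : X3 => kN N id3 h • Ψ (z, h)) U3 := by
    refine ContinuousOn.comp (g := fun q : W × X3 => kN N id3 q.2 • Ψ q)
      (f := fun h : X3 => ((z, h) : W × X3)) (t := ({0}ᶜ : Set W) ×ˢ OX) h0 ?_ ?_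
    · exact (Continuous.prodMk_right z).continuousOn
    · intro η hη
      exact ⟨hz, U3_sub hη⟩
  have h2 := h1.integrableOn_compact (μ := ν) isCompact_U3
  rw [IntegrableOn, restrict_U3 hν] at h2
  exact h2

theorem avg_deriv (hν : Ha ν) (hΨ : ContDiffOn ℝ ∞ Ψ (({0}ᶜ : Set W) ×ˢ OX)) {z : W}
    (hz : z ≠ 0) :
    Integrable (fun h => (fderiv ℝ (fun q : W × X3 => kN N id3 q.2 • Ψ q) (z, h)).comp
      (ContinuousLinearMap.inl ℝ W X3)) ν ∧
    fderiv ℝ (avg ν N Ψ) z = (cN ν N)⁻¹ • ∫ h,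
      (fderiv ℝ (fun q : W × X3 => kN N id3 q.2 • Ψ q) (z, h)).comp
        (ContinuousLinearMap.inl ℝ W X3) ∂ν := by
  have := hν.prob
  obtain ⟨h1, h2⟩ := P28e.Close46.hasFDerivAt_param ν isOpen_compl_singleton isOpen_OX
    isCompact_U3 U3_sub (smooth_k N hΨ) (show z ∈ ({0}ᶜ : Set W) from hz)
  rw [IntegrableOn, restrict_U3 hν] at h1
  rw [restrict_U3 hν] at h2
  refine ⟨h1, ?_⟩
  exact (h2.const_smul (cN ν N)⁻¹).fderiv

end

section
variable {G : Type} [NormedAddCommGroup G] [NormedSpace ℝ G] [FiniteDimensional ℝ G]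
  {ν : Measure X3} {N : ℕ} {Ψ : W × X3 → G}

theorem avg_clm (hν : Ha ν) (hΨ : ContDiffOn ℝ ∞ Ψ (({0}ᶜ : Set W) ×ˢ OX)) {z : W} (hz : z ≠ 0)
    (L : G →L[ℝ] ℝ) : L (avg ν N Ψ z) = (cN ν N)⁻¹ * ∫ h, kN N id3 h * L (Ψ (z, h)) ∂ν := by
  unfold avg
  rw [map_smul, ← L.integral_comp_comm (avg_int hν hΨ hz), smul_eq_mul]
  simp only [map_smul, smul_eq_mul]

theorem avg_deriv_clm (hν : Ha ν) (hΨ : ContDiffOn ℝ ∞ Ψ (({0}ᶜ : Set W) ×ˢ OX)) {z : W}
    (hz : z ≠ 0) (L : (W →L[ℝ] G) →L[ℝ] ℝ) : L (fderiv ℝ (avg ν N Ψ) z) = (cN ν N)⁻¹ * ∫ h,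
      L ((fderiv ℝ (fun q : W × X3 => kN N id3 q.2 • Ψ q) (z, h)).comp
        (ContinuousLinearMap.inl ℝ W X3)) ∂ν := by
  obtain ⟨h1, h2⟩ := avg_deriv (N := N) hν hΨ hz
  rw [h2, map_smul, ← L.integral_comp_comm h1, smul_eq_mul]

end

theorem smooth_arg {G : Type} [NormedAddCommGroup G] [NormedSpace ℝ G] {γ : W → G}
    (hγ : ContDiffOn ℝ ∞ γ {0}ᶜ) :
    ContDiffOn ℝ ∞ (fun q : W × X3 => γ (mv q.2 q.1)) (({0}ᶜ : Set W) ×ˢ OX) :=
  hγ.comp contDiff_mv.contDiffOn (fun _ hq => mv_ne hq.2 hq.1)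

theorem smooth_mvL (S : Set (W × X3)) : ContDiffOn ℝ ∞ (fun q : W × X3 => mvL q.2) S :=
  (contDiff_mvL.comp contDiff_snd).contDiffOn

theorem smooth_pl1 {γ : W → W →L[ℝ] ℝ} (hγ : ContDiffOn ℝ ∞ γ {0}ᶜ) :
    ContDiffOn ℝ ∞ (fun q : W × X3 => pl1 q.2 γ q.1) (({0}ᶜ : Set W) ×ˢ OX) :=
  (smooth_arg hγ).clm_comp (smooth_mvL _)

theorem smooth_flip {S : Set (W × X3)} {f : W × X3 → BW} (hf : ContDiffOn ℝ ∞ f S) :
    ContDiffOn ℝ ∞ (fun q => (f q).flip) S :=
  (ContinuousLinearMap.flipₗᵢ ℝ W W ℝ).toContinuousLinearEquiv.toContinuousLinearMap.contDiff.comp_contDiffOn hf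

theorem smooth_pl {τ : W → BW} (hτ : ContDiffOn ℝ ∞ τ {0}ᶜ) :
    ContDiffOn ℝ ∞ (fun q : W × X3 => pl q.2 τ q.1) (({0}ᶜ : Set W) ×ˢ OX) := by
  have h1 := smooth_flip (smooth_arg hτ)
  have h2 := smooth_flip (h1.clm_comp (smooth_mvL _))
  exact h2.clm_comp (smooth_mvL _)

/-- evaluation of one-forms -/
noncomputable def ev1 (v : W) : (W →L[ℝ] ℝ) →L[ℝ] ℝ := ContinuousLinearMap.apply ℝ ℝ v

/-- evaluation of bilinear forms -/
noncomputable def ev2 (v w : W) : BW →L[ℝ] ℝ :=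
  (ContinuousLinearMap.apply ℝ ℝ w).comp (ContinuousLinearMap.apply ℝ (W →L[ℝ] ℝ) v)

theorem ev1_apply (v : W) (φ : W →L[ℝ] ℝ) : ev1 v φ = φ v := rfl

theorem ev2_apply (v w : W) (φ : BW) : ev2 v w φ = φ v w := rfl

/-- the average of a one-form -/
noncomputable def A1 (ν : Measure X3) (N : ℕ) (γ : W → W →L[ℝ] ℝ) : W → W →L[ℝ] ℝ :=
  avg ν N (fun q : W × X3 => pl1 q.2 γ q.1)

/-- the average of a two-form -/
noncomputable def A2 (ν : Measure X3) (N : ℕ) (τ : W → BW) : W → BW :=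
  avg ν N (fun q : W × X3 => pl q.2 τ q.1)

theorem A1_apply {ν : Measure X3} (hν : Ha ν) (N : ℕ) {γ : W → W →L[ℝ] ℝ}
    (hγ : ContDiffOn ℝ ∞ γ {0}ᶜ) {z : W} (hz : z ≠ 0) (v : W) :
    A1 ν N γ z v = (cN ν N)⁻¹ * ∫ h, kN N id3 h * γ (mv h z) (mv h v) ∂ν := by
  have h := avg_clm (N := N) hν (smooth_pl1 hγ) hz (ev1 v)
  simp only [ev1_apply, pl1_apply] at h
  exact h

theorem A2_apply {ν : Measure X3} (hν : Ha ν) (N : ℕ) {τ : W → BW}
    (hτ : ContDiffOn ℝ ∞ τ {0}ᶜ) {z : W} (hz : z ≠ 0) (v w : W) :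
    A2 ν N τ z v w = (cN ν N)⁻¹ * ∫ h, kN N id3 h * τ (mv h z) (mv h v) (mv h w) ∂ν := by
  have h := avg_clm (N := N) hν (smooth_pl hτ) hz (ev2 v w)
  simp only [ev2_apply, pl_apply] at h
  exact h

theorem slice_deriv {G : Type} [NormedAddCommGroup G] [NormedSpace ℝ G] {F : W × X3 → G}
    (hF : ContDiffOn ℝ ∞ F (({0}ᶜ : Set W) ×ˢ OX)) {h : X3} (hh : h ∈ U3) {z : W} (hz : z ≠ 0) :
    HasFDerivAt (fun z' : W => F (z', h)) ((fderiv ℝ F (z, h)).comp
        (ContinuousLinearMap.inl ℝ W X3)) z := by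
  have hopen : IsOpen (({0}ᶜ : Set W) ×ˢ OX) := isOpen_compl_singleton.prod isOpen_OX
  have hmem : ((z, h) : W × X3) ∈ (({0}ᶜ : Set W) ×ˢ OX) := ⟨hz, U3_sub hh⟩
  have hd : DifferentiableAt ℝ F (z, h) :=
    (hF.differentiableOn (by simp)).differentiableAt (hopen.mem_nhds hmem)
  exact HasFDerivAt.comp (g := F) z hd.hasFDerivAt (hasFDerivAt_prodMk_left z h)

theorem deriv_pl1 {γ : W → W →L[ℝ] ℝ} (hγ : ContDiffOn ℝ ∞ γ {0}ᶜ) (N : ℕ) {h : X3} (hh : h ∈ U3)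
    {z : W} (hz : z ≠ 0) (v w : W) :
    ((fderiv ℝ (fun q : W × X3 => kN N id3 q.2 • pl1 q.2 γ q.1) (z, h)).comp
        (ContinuousLinearMap.inl ℝ W X3)) v w =
      kN N id3 h * fderiv ℝ γ (mv h z) (mv h v) (mv h w) := by
  have h2 : HasFDerivAt (fun z' : W => kN N id3 h • pl1 h γ z')
      ((fderiv ℝ (fun q : W × X3 => kN N id3 q.2 • pl1 q.2 γ q.1) (z, h)).comp
        (ContinuousLinearMap.inl ℝ W X3)) z :=
    slice_deriv (smooth_k N (smooth_pl1 hγ)) hh hz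
  have hmv : mv h z ∈ ({0}ᶜ : Set W) := mv_ne_u hh hz
  have h3 : HasFDerivAt γ (fderiv ℝ γ (mv h z)) (mv h z) :=
    ((hγ.differentiableOn (by simp)).differentiableAt
      (isOpen_compl_singleton.mem_nhds hmv)).hasFDerivAt
  have h4 : HasFDerivAt (fun z' : W => mv h z') (mvL h) z := by
    have h40 := (mvL h).hasFDerivAt (x := z)
    have h41 : (⇑(mvL h) : W → W) = fun z' : W => mv h z' := by
      funext z'
      exact mvL_apply h z'
    rw [h41] at h40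
    exact h40
  have h5 : HasFDerivAt (fun z' : W => γ (mv h z')) ((fderiv ℝ γ (mv h z)).comp (mvL h)) z :=
    HasFDerivAt.comp (g := γ) z h3 h4
  have h6 : HasFDerivAt (fun z' : W => kN N id3 h • pl1 h γ z')
      (kN N id3 h • (((ContinuousLinearMap.compL ℝ W W ℝ).flip (mvL h)).comp
        ((fderiv ℝ γ (mv h z)).comp (mvL h)))) z := by
    have h60 : HasFDerivAt (fun z' : W => ((ContinuousLinearMap.compL ℝ W W ℝ).flip (mvL h))
        (γ (mv h z'))) (((ContinuousLinearMap.compL ℝ W W ℝ).flip (mvL h)).comp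
        ((fderiv ℝ γ (mv h z)).comp (mvL h))) z :=
      ((ContinuousLinearMap.compL ℝ W W ℝ).flip (mvL h)).hasFDerivAt.comp z h5
    exact h60.const_smul (kN N id3 h)
  rw [h2.unique h6]
  simp only [smul_apply, ContinuousLinearMap.comp_apply,
    ContinuousLinearMap.flip_apply, ContinuousLinearMap.compL_apply, mvL_apply, smul_eq_mul]

theorem dB_A1 {ν : Measure X3} (hν : Ha ν) (N : ℕ) {γ : W → W →L[ℝ] ℝ}
    (hγ : ContDiffOn ℝ ∞ γ {0}ᶜ) {z : W} (hz : z ≠ 0) (v w : W) :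
    dB (A1 ν N γ) z v w =
      (cN ν N)⁻¹ * ∫ h, kN N id3 h * dB γ (mv h z) (mv h v) (mv h w) ∂ν := by
  have h := avg_deriv_clm (N := N) hν (smooth_pl1 hγ) hz (ev2 v w - ev2 w v)
  have h0 : dB (A1 ν N γ) z v w = (ev2 v w - ev2 w v) (fderiv ℝ (A1 ν N γ) z) := by
    rw [dB_apply, dd, sub_apply, ev2_apply, ev2_apply]
  rw [h0]
  refine h.trans ?_
  congr 1
  apply integral_congr_u hν
  intro k hk
  rw [sub_apply, ev2_apply, ev2_apply, deriv_pl1 hγ N hk hz, deriv_pl1 hγ N hk hz, dB_apply, dd]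
  ring

theorem mv_hom {h : X3} (c : ℂ) (z : W) : mv h (c • z) = c • mv h z := mv_smul h c z

end AvAux

open AvAux

theorem av_basic {ν : Measure X3} (hν : Ha ν) (N : ℕ) {γ : W → W →L[ℝ] ℝ} (hγ : Basic γ) :
    ∃ γ' : W → W →L[ℝ] ℝ, Basic γ' ∧ ∀ g ∈ U3, cF (dB γ') g = C4 ν N (cF (dB γ)) g := by
  refine ⟨A1 ν N γ, ⟨avg_smooth hν (smooth_pl1 hγ.smooth), ?_, ?_, ?_⟩, ?_⟩
  · intro c hc z hz v
    rw [A1_apply hν N hγ.smooth (smul_ne_zero hc hz), A1_apply hν N hγ.smooth hz]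
    congr 1
    apply integral_congr_u hν
    intro h hh
    rw [mv_smul, mv_smul, hγ.hom c hc _ (mv_ne_u hh hz)]
  · intro z hz
    rw [A1_apply hν N hγ.smooth hz]
    have h1 : ∫ h, kN N id3 h * γ (mv h z) (mv h z) ∂ν = ∫ _h : X3, (0 : ℝ) ∂ν := by
      apply integral_congr_u hν
      intro h hh
      rw [hγ.rad _ (mv_ne_u hh hz), mul_zero]
    rw [h1, integral_zero, mul_zero]
  · intro z hz
    rw [A1_apply hν N hγ.smooth hz]
    have h1 : ∫ h, kN N id3 h * γ (mv h z) (mv h (Complex.I • z)) ∂ν = ∫ _h : X3, (0 : ℝ) ∂ν := by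
      apply integral_congr_u hν
      intro h hh
      rw [mv_smul, hγ.rot _ (mv_ne_u hh hz), mul_zero]
    rw [h1, integral_zero, mul_zero]
  · intro g hg
    funext i j
    have hc : ContinuousOn (fun x => cF (dB γ) x i j) U3 := ctU_cF (dB_hf hγ).smooth i j
    show dB (A1 ν N γ) (g 0) (fr (g 1) (g 2) i) (fr (g 1) (g 2) j) = Cv ν N (fun x => cF (dB γ) x i j) g
    rw [Cv_eq hν N hc hg, dB_A1 hν N hγ.smooth (col_ne hg 0)]
    congr 1
    apply integral_congr_u hν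
    intro h _
    show _ = kN N id3 h * dB γ (mv h (g 0)) (fr (mm h g 1) (mm h g 2) i) (fr (mm h g 1) (mm h g 2) j)
    rw [fr_mm, fr_mm]

theorem av_hf {ν : Measure X3} (hν : Ha ν) (N : ℕ) {τ : W → BW} (hτ : HF τ) :
    ∃ τ' : W → BW, HF τ' ∧ ∀ g ∈ U3, cF τ' g = C4 ν N (cF τ) g := by
  refine ⟨A2 ν N τ, ⟨avg_smooth hν (smooth_pl hτ.smooth), ?_, ?_, ?_⟩, ?_⟩
  · intro z hz v w
    rw [A2_apply hν N hτ.smooth hz, A2_apply hν N hτ.smooth hz, ← mul_neg, ← integral_neg]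
    congr 1
    apply integral_congr_u hν
    intro h hh
    rw [hτ.skew _ (mv_ne_u hh hz), mul_neg]
  · intro c hc z hz v w
    rw [A2_apply hν N hτ.smooth (smul_ne_zero hc hz), A2_apply hν N hτ.smooth hz]
    congr 1
    apply integral_congr_u hν
    intro h hh
    rw [mv_smul, mv_smul, mv_smul, hτ.hom c hc _ (mv_ne_u hh hz)]
  · intro z hz c w
    rw [A2_apply hν N hτ.smooth hz]
    have h1 : ∫ h, kN N id3 h * τ (mv h z) (mv h (c • z)) (mv h w) ∂ν = ∫ _h : X3, (0 : ℝ) ∂ν := by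
      apply integral_congr_u hν
      intro h hh
      rw [mv_smul, hτ.hor _ (mv_ne_u hh hz), mul_zero]
    rw [h1, integral_zero, mul_zero]
  · intro g hg
    funext i j
    have hc : ContinuousOn (fun x => cF τ x i j) U3 := ctU_cF hτ.smooth i j
    show A2 ν N τ (g 0) (fr (g 1) (g 2) i) (fr (g 1) (g 2) j) = Cv ν N (fun x => cF τ x i j) g
    rw [Cv_eq hν N hc hg, A2_apply hν N hτ.smooth (col_ne hg 0)]
    congr 1
    apply integral_congr_u hν
    intro h _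
    show _ = kN N id3 h * τ (mv h (g 0)) (fr (mm h g 1) (mm h g 2) i) (fr (mm h g 1) (mm h g 2) j)
    rw [fr_mm, fr_mm]

end Pool.Agent.Lib.DEn
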