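import Pool.Agent.Lib.DEn.Br

/-!
# The invariant measure has full support  (0.7 h)

`pos_open`: suppose `ν U = 0`. For `x ∈ U3` let `k = x⁻¹ g` (`exists_inv`, `mm_mem`), so `mm x k = g ∈ U`. The sets `{x | mm x k ∈ U}`, `k ∈ U3`, are open (`continuous_mm`), cover the compact set `U3`, and have measure `ν U = 0` (`Ha.inv`, `Measure.map_apply`). A finite subcover gives `ν U3 = 0`, a contradiction with `Ha.prob`, `Ha.supp`.
`eq_zero_of_int`: if `f g > 0` for some `g ∈ U3`, there is an open `U ∋ g` with `f > f g / 2` on `U ∩ U3` (continuity within `U3`), and `∫ f ≥ (f g / 2) ν U > 0` (`f ≥ 0` almost everywhere, `ae_u`, `integrable_u`).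
-/

set_option autoImplicit false
set_option maxSynthPendingDepth 3

open MeasureTheory Set Metric Filter
open scoped ContDiff Topology

namespace Pool.Agent.Lib.DEn

open Pool.Agent.P28b04d
open Pool.Agent.Lib.Psd (W hp ON3 fr cmp st asd sd nrm2 Pf Skew Conn Basic dd a0 c0)

theorem pos_open {ν : Measure X3} (hν : Ha ν) {U : Set X3} (hU : IsOpen U) {g : X3} (hg : g ∈ U3)
    (hgU : g ∈ U) : 0 < ν U := by
  rw [pos_iff_ne_zero]
  intro h0
  have h1 : ν U3 = 0 := by
    refine isCompact_U3.measure_zero_of_nhdsWithin (fun a ha => ?_)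
    obtain ⟨a', ha', h1, _⟩ := exists_inv ha
    have hk : mm a' g ∈ U3 := mm_mem ha' hg
    have hc : Continuous fun x : X3 => mm x (mm a' g) :=
      continuous_mm.comp (continuous_id.prodMk continuous_const)
    refine ⟨(fun x : X3 => mm x (mm a' g)) ⁻¹' U, ?_, ?_⟩
    · apply mem_nhdsWithin_of_mem_nhds
      apply (hU.preimage hc).mem_nhds
      show mm a (mm a' g) ∈ U
      rw [← mm_assoc, h1, id3_mm]
      exact hgU
    · rw [← Measure.map_apply hc.measurable hU.measurableSet, hν.inv _ hk, h0]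
  have h2 : ν univ = 0 := by
    rw [← union_compl_self U3]
    exact measure_union_null h1 hν.supp
  haveI := hν.prob
  rw [measure_univ] at h2
  exact one_ne_zero h2

theorem eq_zero_of_int {ν : Measure X3} (hν : Ha ν) {f : X3 → ℝ} (hf : ContinuousOn f U3)
    (h0 : ∀ g ∈ U3, 0 ≤ f g) (hi : ∫ g, f g ∂ν = 0) : ∀ g ∈ U3, f g = 0 := by
  intro g hg
  by_contra hne
  obtain ⟨U, hU, hUe⟩ := continuousOn_iff'.1 hf {0}ᶜ isOpen_compl_singleton
  have hgU : g ∈ U := by
    have : g ∈ f ⁻¹' {0}ᶜ ∩ U3 := ⟨hne, hg⟩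
    rw [hUe] at this
    exact this.1
  have h1 := pos_open hν hU hg hgU
  have h2 : f =ᵐ[ν] 0 :=
    (integral_eq_zero_iff_of_nonneg_ae (ae_u hν h0) (integrable_u hν hf)).1 hi
  have h3 : ν {x | ¬ (f x = (0 : X3 → ℝ) x)} = 0 := h2
  have h4 : U ⊆ {x | ¬ (f x = (0 : X3 → ℝ) x)} ∪ U3ᶜ := by
    intro x hx
    by_cases hxU : x ∈ U3
    · left
      have : x ∈ U ∩ U3 := ⟨hx, hxU⟩
      rw [← hUe] at this
      exact this.1
    · right
      exact hxU
  have h5 : ν U = 0 := measure_mono_null h4 (measure_union_null h3 hν.supp)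
  rw [h5] at h1
  exact lt_irrefl _ h1

end Pool.Agent.Lib.DEn
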