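import Pool.Agent.Lib.DEn.Ker
import Pool.Agent.Lib.DEn.Pos

/-!
# Concentration of powers  (1 h)

`tail_h`: choose `r < r' < 1`; the set of `g ∈ U3` with `h g > r'` contains the intersection of `U3` with an open set containing `g₀` (continuity), of positive measure `m` (`pos_open`, `Ha.supp`), so `∫ h^N ≥ r'^N m` and `r^N / ∫ h^N ≤ (r/r')^N / m → 0`. In particular `∫ h^N > 0`.
`conc`: let `ε > 0` and `K' = {g ∈ U3 | ε ≤ |f g - a|}`: compact, `h < 1` on it, so `h ≤ r` on it for some `r < 1` (`0 ≤ r`). With `|f - a| ≤ M` on `U3`: `|∫ h^N f - a ∫ h^N| ≤ ε ∫ h^N + M r^N`; divide by `∫ h^N` and use `tail_h`. `tail_c`: `tail_h` for `h = (3 + Re ∑_j hp (id3 j) (h j)) / 6` (`kN 1 id3`), `cN ν N = ∫ h^N` by definition.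
-/

set_option autoImplicit false
set_option maxSynthPendingDepth 3

open MeasureTheory Set Metric Filter
open scoped ContDiff Topology

namespace Pool.Agent.Lib.DEn

open Pool.Agent.P28b04d
open Pool.Agent.Lib.Psd (W hp ON3 fr cmp st asd sd nrm2 Pf Skew Conn Basic dd a0 c0 Mat form fs Tan tv cmpM NondegM pb)

theorem tail_h {ν : Measure X3} (hν : Ha ν) {h : X3 → ℝ} (hh : ContinuousOn h U3)
    (h0 : ∀ g ∈ U3, 0 ≤ h g) {g₀ : X3} (hg₀ : g₀ ∈ U3) (hg1 : h g₀ = 1) {r : ℝ} (hr0 : 0 ≤ r)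
    (hr : r < 1) :
    (∀ N : ℕ, 0 < ∫ g, h g ^ N ∂ν) ∧ Tendsto (fun N : ℕ => r ^ N / ∫ g, h g ^ N ∂ν) atTop (𝓝 0) := by
  have := hν.prob
  have hpos : ∀ N : ℕ, 0 < ∫ g, h g ^ N ∂ν := by
    intro N
    have h1 : ContinuousOn (fun g => h g ^ N) U3 := hh.pow N
    have h2 : 0 ≤ ∫ g, h g ^ N ∂ν :=
      integral_nonneg_of_ae (ae_u hν fun g hg => pow_nonneg (h0 g hg) N)
    rcases h2.lt_or_eq with h3 | h3
    · exact h3
    · exfalso
      have h4 := eq_zero_of_int hν h1 (fun g hg => pow_nonneg (h0 g hg) N) h3.symm g₀ hg₀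
      rw [hg1, one_pow] at h4
      exact one_ne_zero h4
  refine ⟨hpos, ?_⟩
  obtain ⟨r', hr'⟩ : ∃ r' : ℝ, r' = (r + 1) / 2 := ⟨_, rfl⟩
  have hrr : r < r' := by rw [hr']; linarith
  have hr1 : r' < 1 := by rw [hr']; linarith
  have hr'0 : 0 < r' := by linarith
  obtain ⟨U, hU, hUe⟩ := continuousOn_iff'.1 hh (Ioi r') isOpen_Ioi
  have hgU : g₀ ∈ U := by
    have h1 : g₀ ∈ h ⁻¹' Ioi r' ∩ U3 := ⟨by
      show r' < h g₀
      rw [hg1]
      exact hr1, hg₀⟩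
    rw [hUe] at h1
    exact h1.1
  have hm : 0 < ν.real U :=
    ENNReal.toReal_pos (pos_open hν hU hg₀ hgU).ne' (measure_ne_top ν U)
  have hlow : ∀ N : ℕ, r' ^ N * ν.real U ≤ ∫ g, h g ^ N ∂ν := by
    intro N
    have hi : Integrable (fun g => h g ^ N) ν := integrable_u hν (hh.pow N)
    have h1 : ∫ g in U, h g ^ N ∂ν ≤ ∫ g, h g ^ N ∂ν :=
      setIntegral_le_integral hi (ae_u hν fun g hg => pow_nonneg (h0 g hg) N)
    have h2 : ∫ _ in U, r' ^ N ∂ν ≤ ∫ g in U, h g ^ N ∂ν := by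
      refine setIntegral_mono_ae_restrict (integrable_const _).integrableOn hi.integrableOn ?_
      refine (ae_restrict_iff' hU.measurableSet).2 (ae_u hν fun g hg hgU' => ?_)
      have h3 : g ∈ U ∩ U3 := ⟨hgU', hg⟩
      rw [← hUe] at h3
      exact pow_le_pow_left₀ hr'0.le (le_of_lt h3.1) N
    rw [setIntegral_const, smul_eq_mul] at h2
    rw [mul_comm]
    exact h2.trans h1
  have hlim : Tendsto (fun N : ℕ => (r / r') ^ N / ν.real U) atTop (𝓝 0) := by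
    have h1 : Tendsto (fun N : ℕ => (r / r') ^ N) atTop (𝓝 0) :=
      tendsto_pow_atTop_nhds_zero_of_lt_one (by positivity) ((div_lt_one hr'0).2 hrr)
    have h2 := h1.div_const (ν.real U)
    rwa [zero_div] at h2
  refine squeeze_zero (fun N => div_nonneg (pow_nonneg hr0 N) (hpos N).le) (fun N => ?_) hlim
  rw [div_pow, div_div]
  exact div_le_div_of_nonneg_left (pow_nonneg hr0 N) (by positivity) (hlow N)

theorem conc {ν : Measure X3} (hν : Ha ν) {h f : X3 → ℝ} (hh : ContinuousOn h U3)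
    (h0 : ∀ g ∈ U3, 0 ≤ h g) (h1 : ∀ g ∈ U3, h g ≤ 1) {g₀ : X3} (hg₀ : g₀ ∈ U3) (hg1 : h g₀ = 1)
    (hf : ContinuousOn f U3) {a : ℝ} (ha : ∀ g ∈ U3, h g = 1 → f g = a) :
    Tendsto (fun N : ℕ => (∫ g, h g ^ N ∂ν)⁻¹ * ∫ g, h g ^ N * f g ∂ν) atTop (𝓝 a) := by
  have := hν.prob
  have hpos := (tail_h hν hh h0 hg₀ hg1 (le_refl (0 : ℝ)) zero_lt_one).1
  have hfa : ContinuousOn (fun g => f g - a) U3 := hf.sub continuousOn_const
  obtain ⟨M, hM⟩ := isCompact_U3.exists_bound_of_continuousOn hfa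
  have hM0 : 0 ≤ M := (norm_nonneg _).trans (hM g₀ hg₀)
  rw [Metric.tendsto_atTop]
  intro ε hε
  -- the bound of `h` where `f` is far from `a`
  obtain ⟨r, hr0, hr1, hr⟩ : ∃ r : ℝ, 0 ≤ r ∧ r < 1 ∧
      ∀ g ∈ U3, ε / 2 ≤ |f g - a| → h g ≤ r := by
    have hcl : IsCompact {g | g ∈ U3 ∧ ε / 2 ≤ |f g - a|} := by
      have e : {g | g ∈ U3 ∧ ε / 2 ≤ |f g - a|} = U3 ∩ (fun g => |f g - a|) ⁻¹' Ici (ε / 2) := rfl
      rw [e]
      exact isCompact_U3.of_isClosed_subset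
        (hfa.abs.preimage_isClosed_of_isClosed isCompact_U3.isClosed isClosed_Ici)
        Set.inter_subset_left
    rcases Set.eq_empty_or_nonempty {g | g ∈ U3 ∧ ε / 2 ≤ |f g - a|} with he | hne
    · refine ⟨0, le_refl _, zero_lt_one, fun g hg hge => ?_⟩
      exfalso
      have h3 : g ∈ {g | g ∈ U3 ∧ ε / 2 ≤ |f g - a|} := ⟨hg, hge⟩
      rw [he] at h3
      exact h3
    · obtain ⟨g₁, hg₁, hmax⟩ := hcl.exists_isMaxOn hne (hh.mono fun g hg => hg.1)
      refine ⟨h g₁, h0 g₁ hg₁.1, lt_of_le_of_ne (h1 g₁ hg₁.1) ?_, fun g hg hge => hmax ⟨hg, hge⟩⟩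
      intro h3
      have h4 := ha g₁ hg₁.1 h3
      have h5 := hg₁.2
      rw [h4, sub_self, abs_zero] at h5
      linarith
  have hlim := ((tail_h hν hh h0 hg₀ hg1 hr0 hr1).2).const_mul M
  rw [mul_zero] at hlim
  obtain ⟨N₀, hN₀⟩ := (Metric.tendsto_atTop.1 hlim) (ε / 2) (by linarith)
  refine ⟨N₀, fun N hN => ?_⟩
  have hI := hpos N
  have hi1 : Integrable (fun g => h g ^ N) ν := integrable_u hν (hh.pow N)
  have hi2 : Integrable (fun g => h g ^ N * f g) ν := integrable_u hν ((hh.pow N).mul hf)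
  have hi3 : Integrable (fun g => h g ^ N * (f g - a)) ν := integrable_u hν ((hh.pow N).mul hfa)
  have e1 : (∫ g, h g ^ N ∂ν)⁻¹ * ∫ g, h g ^ N * f g ∂ν - a =
      (∫ g, h g ^ N ∂ν)⁻¹ * ∫ g, h g ^ N * (f g - a) ∂ν := by
    have e2 : ∫ g, h g ^ N * (f g - a) ∂ν =
        ∫ g, h g ^ N * f g ∂ν - (∫ g, h g ^ N ∂ν) * a := by
      rw [← integral_mul_const, ← integral_sub hi2 (hi1.mul_const a)]
      congr 1
      funext g
      ring
    rw [e2, mul_sub, ← mul_assoc, inv_mul_cancel₀ hI.ne', one_mul]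
  have e3 : |∫ g, h g ^ N * (f g - a) ∂ν| ≤ ε / 2 * (∫ g, h g ^ N ∂ν) + M * r ^ N := by
    have h3 : ∀ g ∈ U3, |h g ^ N * (f g - a)| ≤ ε / 2 * h g ^ N + M * r ^ N := by
      intro g hg
      have h4 : 0 ≤ h g ^ N := pow_nonneg (h0 g hg) N
      have h6 : 0 ≤ M * r ^ N := mul_nonneg hM0 (pow_nonneg hr0 N)
      rw [abs_mul, abs_of_nonneg h4]
      rcases le_or_gt (ε / 2) |f g - a| with h5 | h5
      · have h7 : h g ^ N ≤ r ^ N := pow_le_pow_left₀ (h0 g hg) (hr g hg h5) N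
        have h8 : |f g - a| ≤ M := hM g hg
        have h9 : h g ^ N * |f g - a| ≤ r ^ N * M :=
          mul_le_mul h7 h8 (abs_nonneg _) (pow_nonneg hr0 N)
        have h10 : 0 ≤ ε / 2 * h g ^ N := mul_nonneg (by linarith) h4
        linarith
      · have h9 : h g ^ N * |f g - a| ≤ h g ^ N * (ε / 2) := mul_le_mul_of_nonneg_left h5.le h4
        linarith
    calc |∫ g, h g ^ N * (f g - a) ∂ν| ≤ ∫ g, |h g ^ N * (f g - a)| ∂ν :=
          abs_integral_le_integral_abs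
      _ ≤ ∫ g, (ε / 2 * h g ^ N + M * r ^ N) ∂ν :=
          integral_mono_ae hi3.abs ((hi1.const_mul _).add (integrable_const _)) (ae_u hν h3)
      _ = ε / 2 * (∫ g, h g ^ N ∂ν) + M * r ^ N := by
          rw [integral_add (hi1.const_mul _) (integrable_const _), integral_const_mul,
            integral_const, probReal_univ, one_smul]
  have h4 := hN₀ N hN
  rw [Real.dist_eq, sub_zero] at h4
  have h5 := le_abs_self (M * (r ^ N / ∫ g, h g ^ N ∂ν))
  rw [Real.dist_eq, e1, abs_mul, abs_of_pos (inv_pos.2 hI)]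
  calc (∫ g, h g ^ N ∂ν)⁻¹ * |∫ g, h g ^ N * (f g - a) ∂ν|
      ≤ (∫ g, h g ^ N ∂ν)⁻¹ * (ε / 2 * (∫ g, h g ^ N ∂ν) + M * r ^ N) :=
        mul_le_mul_of_nonneg_left e3 (inv_pos.2 hI).le
    _ = ε / 2 + M * (r ^ N / ∫ g, h g ^ N ∂ν) := by
        field_simp
    _ < ε := by linarith

theorem tail_c {ν : Measure X3} (hν : Ha ν) {r : ℝ} (hr0 : 0 ≤ r) (hr : r < 1) :
    Tendsto (fun N : ℕ => r ^ N / cN ν N) atTop (𝓝 0) := by
  have hc : Continuous fun g : X3 => (3 + (∑ j, hp (id3 j) (g j)).re) / 6 := by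
    have h1 := KerAux.cont_r 1 id3
    have h2 : (fun g : X3 => (3 + (∑ j, hp (id3 j) (g j)).re) / 6) = fun g => kN 1 id3 g := by
      funext g
      unfold kN
      rw [pow_one]
    rw [h2]
    exact h1
  have h1 : (3 + (∑ j, hp (id3 j) (id3 j)).re) / 6 = (1 : ℝ) := by
    have h2 : ∀ j, hp (id3 j) (id3 j) = 1 := fun j => by
      have := id3_mem j j
      simpa using this
    simp only [h2]
    norm_num
  exact (tail_h hν (h := fun g : X3 => (3 + (∑ j, hp (id3 j) (g j)).re) / 6) hc.continuousOn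
    (fun g hg => by
      have h3 := abs_le.mp (KerAux.sum_abs id3_mem hg)
      have h4 := h3.1
      show 0 ≤ (3 + (∑ j, hp (id3 j) (g j)).re) / 6
      linarith) id3_mem h1 hr0 hr).2

end Pool.Agent.Lib.DEn
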