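import Pool.Agent.Lib.DEn.RieL

set_option autoImplicit false
set_option maxSynthPendingDepth 3

/-!
# Convergence of functionals in finite dimension  (0.8 h)

`V = V' ⊔ K₀` with `K₀ = {v | B v v = 0}` (a submodule, containing `ker L`; `RieLAux.cs_zero`), `V'` a complement: it embeds in `range L` because `V' ∩ ker L = 0`, so it is finite dimensional and `B` is positive definite on it. Let `e_1, …, e_n` be an orthonormal basis of `V'` for `B` (or: any basis, and the compact unit sphere of `V'`; all norms on `V'` are equivalent).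
`v = ∑ a_j e_j + k`, `√(B v v) = √(∑ a_j²)`, `(ℓ n - m) v = ∑ a_j (ℓ n - m) e_j` (`ℓ n`, `m` vanish on `K₀`, `m` by `hb`), so `|ℓ n v| ≤ c √(B v v) + √(B v v) * ∑_j |(ℓ n - m) e_j|` and the last sum tends to `0`.
-/

open MeasureTheory Set Metric Filter
open scoped ContDiff Topology

namespace Pool.Agent.Lib.DEn

open Pool.Agent.P28b04d
open Pool.Agent.Lib.Psd (W hp ON3 fr cmp st asd sd nrm2 Pf Skew Conn Basic dd a0 c0 Mat form fs Tan tv cmpM NondegM pb)

namespace BCvAux

variable {V U : Type*} [AddCommGroup V] [Module ℝ V] [AddCommGroup U] [Module ℝ U]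

/-- the remainder after projection to an orthonormal family -/
def rem (B : V →ₗ[ℝ] V →ₗ[ℝ] ℝ) {n : ℕ} (e : Fin n → V) (v : V) : V := v - ∑ i, B v (e i) • e i

theorem rem_orth {B : V →ₗ[ℝ] V →ₗ[ℝ] ℝ} {n : ℕ} {e : Fin n → V}
    (he : ∀ i j, B (e i) (e j) = if i = j then 1 else 0) (v : V) (j : Fin n) : B (rem B e v) (e j) = 0 := by
  unfold rem
  rw [map_sub, LinearMap.sub_apply, map_sum, LinearMap.sum_apply]
  simp only [map_smul, LinearMap.smul_apply, smul_eq_mul, he]
  simp

theorem rem_sq {B : V →ₗ[ℝ] V →ₗ[ℝ] ℝ} (hs : ∀ x y, B x y = B y x) {n : ℕ} {e : Fin n → V}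
    (he : ∀ i j, B (e i) (e j) = if i = j then 1 else 0) (v : V) :
    B (rem B e v) (rem B e v) = B v v - ∑ i, B v (e i) ^ 2 := by
  have h1 : B (rem B e v) (rem B e v) = B (rem B e v) v := by
    conv_lhs => rw [show B (rem B e v) (rem B e v) = B (rem B e v) (v - ∑ i, B v (e i) • e i) from rfl]
    rw [map_sub, map_sum]
    simp only [map_smul, rem_orth he, smul_zero, Finset.sum_const_zero, sub_zero]
  rw [h1, hs]
  unfold rem
  rw [map_sub, map_sum]
  simp only [map_smul, smul_eq_mul]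
  congr 1
  exact Finset.sum_congr rfl fun i _ => (sq _).symm

theorem orth_card (L : V →ₗ[ℝ] U) (hL : FiniteDimensional ℝ (LinearMap.range L)) (B : V →ₗ[ℝ] V →ₗ[ℝ] ℝ)
    (hs : ∀ x y, B x y = B y x) (hp : ∀ x, 0 ≤ B x x) (hk : ∀ x, L x = 0 → B x x = 0)
    {n : ℕ} {e : Fin n → V} (he : ∀ i j, B (e i) (e j) = if i = j then 1 else 0) :
    n ≤ Module.finrank ℝ (LinearMap.range L) := by
  have h1 : LinearIndependent ℝ fun i => L.rangeRestrict (e i) := by
    rw [Fintype.linearIndependent_iff]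
    intro g hg j
    have h2 : L (∑ i, g i • e i) = 0 := by
      have h3 := congrArg (LinearMap.range L).subtype hg
      rw [map_sum, map_zero] at h3
      simp only [map_smul] at h3
      rw [map_sum]
      simp only [map_smul]
      exact h3
    have h4 := RieLAux.cs_zero B hs hp (hk _ h2) (e j)
    rw [map_sum, LinearMap.sum_apply] at h4
    simp only [map_smul, LinearMap.smul_apply, smul_eq_mul, he] at h4
    simpa using h4
  have h5 := h1.fintype_card_le_finrank
  rwa [Fintype.card_fin] at h5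

theorem exists_max (L : V →ₗ[ℝ] U) (hL : FiniteDimensional ℝ (LinearMap.range L)) (B : V →ₗ[ℝ] V →ₗ[ℝ] ℝ)
    (hs : ∀ x y, B x y = B y x) (hp : ∀ x, 0 ≤ B x x) (hk : ∀ x, L x = 0 → B x x = 0) :
    ∃ (n : ℕ) (e : Fin n → V), (∀ i j, B (e i) (e j) = if i = j then 1 else 0) ∧
      ∀ v, B (rem B e v) (rem B e v) = 0 := by
  by_contra hcon
  push Not at hcon
  have h1 : ∀ n : ℕ, ∃ e : Fin n → V, ∀ i j, B (e i) (e j) = if i = j then 1 else 0 := by
    intro n
    induction n with
    | zero => exact ⟨Fin.elim0, fun i => i.elim0⟩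
    | succ n ih =>
      obtain ⟨e, he⟩ := ih
      obtain ⟨v, hv⟩ := hcon n e he
      have hv0 : 0 < B (rem B e v) (rem B e v) := lt_of_le_of_ne (hp _) (Ne.symm hv)
      have hsq := Real.sqrt_pos.2 hv0
      have hss := Real.mul_self_sqrt hv0.le
      refine ⟨Fin.snoc (α := fun _ => V) e ((Real.sqrt (B (rem B e v) (rem B e v)))⁻¹ • rem B e v), fun i j => ?_⟩
      refine Fin.lastCases ?_ (fun i' => ?_) i
      · refine Fin.lastCases ?_ (fun j' => ?_) j
        · rw [Fin.snoc_last, if_pos rfl]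
          simp only [map_smul, LinearMap.smul_apply, smul_eq_mul]
          rw [← mul_assoc, ← mul_inv, hss]
          exact inv_mul_cancel₀ hv0.ne'
        · rw [Fin.snoc_last, Fin.snoc_castSucc, map_smul, LinearMap.smul_apply, rem_orth he, smul_zero,
            if_neg (Fin.castSucc_lt_last j').ne']
      · refine Fin.lastCases ?_ (fun j' => ?_) j
        · rw [Fin.snoc_last, Fin.snoc_castSucc, map_smul, hs (e i') (rem B e v), rem_orth he, smul_zero,
            if_neg (Fin.castSucc_lt_last i').ne]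
        · rw [Fin.snoc_castSucc, Fin.snoc_castSucc, he]
          simp only [Fin.castSucc_inj]
  obtain ⟨e, he⟩ := h1 (Module.finrank ℝ (LinearMap.range L) + 1)
  have := orth_card L hL B hs hp hk he
  omega

end BCvAux

theorem cvg_fin {V U : Type*} [AddCommGroup V] [Module ℝ V] [AddCommGroup U] [Module ℝ U]
    (L : V →ₗ[ℝ] U) (hL : FiniteDimensional ℝ (LinearMap.range L)) (B : V →ₗ[ℝ] V →ₗ[ℝ] ℝ)
    (hs : ∀ x y, B x y = B y x) (hp : ∀ x, 0 ≤ B x x) (hk : ∀ x, L x = 0 → B x x = 0)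
    (ℓ : ℕ → V →ₗ[ℝ] ℝ) (m : V →ₗ[ℝ] ℝ)
    (hlim : ∀ v, Filter.Tendsto (fun n => ℓ n v) Filter.atTop (nhds (m v)))
    (h0 : ∀ n v, B v v = 0 → ℓ n v = 0) {c : ℝ} (hc : 0 ≤ c) (hb : ∀ v, |m v| ≤ c * Real.sqrt (B v v))
    {ε : ℝ} (hε : 0 < ε) :
    ∀ᶠ n in Filter.atTop, ∀ v, |ℓ n v| ≤ (c + ε) * Real.sqrt (B v v) := by
  obtain ⟨n, e, he, hr⟩ := BCvAux.exists_max L hL B hs hp hk
  have hdec : ∀ v, v = (∑ i, B v (e i) • e i) + BCvAux.rem B e v := by
    intro v
    unfold BCvAux.rem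
    abel
  have hcoef : ∀ v i, |B v (e i)| ≤ Real.sqrt (B v v) := by
    intro v i
    apply Real.abs_le_sqrt
    have h1 := BCvAux.rem_sq hs he v
    rw [hr] at h1
    have h2 : B v (e i) ^ 2 ≤ ∑ i, B v (e i) ^ 2 :=
      Finset.single_le_sum (f := fun i => B v (e i) ^ 2) (fun j _ => sq_nonneg _) (Finset.mem_univ i)
    linarith
  have hm0 : ∀ v, B v v = 0 → m v = 0 := by
    intro v hv
    have h1 := hb v
    rw [hv, Real.sqrt_zero, mul_zero] at h1
    exact abs_nonpos_iff.1 h1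
  have hexp : ∀ k v, ℓ k v = m v + ∑ i, B v (e i) * (ℓ k (e i) - m (e i)) := by
    intro k v
    have h1 : ℓ k v = ∑ i, B v (e i) * ℓ k (e i) := by
      conv_lhs => rw [hdec v]
      rw [map_add, h0 k _ (hr v), add_zero, map_sum]
      simp only [map_smul, smul_eq_mul]
    have h2 : m v = ∑ i, B v (e i) * m (e i) := by
      conv_lhs => rw [hdec v]
      rw [map_add, hm0 _ (hr v), add_zero, map_sum]
      simp only [map_smul, smul_eq_mul]
    rw [h1]
    conv_rhs => rw [h2]
    rw [← Finset.sum_add_distrib]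
    exact Finset.sum_congr rfl fun i _ => by ring
  have hten : Filter.Tendsto (fun k => ∑ i, |ℓ k (e i) - m (e i)|) Filter.atTop (nhds 0) := by
    have h1 : Filter.Tendsto (fun k => ∑ i, |ℓ k (e i) - m (e i)|) Filter.atTop
        (nhds (∑ _i : Fin n, (0 : ℝ))) := by
      refine tendsto_finset_sum _ fun i _ => ?_
      have h2 := (hlim (e i)).sub_const (m (e i))
      rw [sub_self] at h2
      have h3 := h2.abs
      rwa [abs_zero] at h3
    simpa using h1
  filter_upwards [hten.eventually_lt_const hε] with k hk' v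
  have hq := Real.sqrt_nonneg (B v v)
  calc |ℓ k v| = |m v + ∑ i, B v (e i) * (ℓ k (e i) - m (e i))| := by rw [hexp]
    _ ≤ |m v| + |∑ i, B v (e i) * (ℓ k (e i) - m (e i))| := abs_add_le _ _
    _ ≤ c * Real.sqrt (B v v) + ∑ i, |B v (e i) * (ℓ k (e i) - m (e i))| :=
        add_le_add (hb v) (Finset.abs_sum_le_sum_abs _ _)
    _ ≤ c * Real.sqrt (B v v) + ∑ i, Real.sqrt (B v v) * |ℓ k (e i) - m (e i)| := by
        refine add_le_add le_rfl (Finset.sum_le_sum fun i _ => ?_)
        rw [abs_mul]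
        exact mul_le_mul_of_nonneg_right (hcoef v i) (abs_nonneg _)
    _ = c * Real.sqrt (B v v) + Real.sqrt (B v v) * ∑ i, |ℓ k (e i) - m (e i)| := by rw [Finset.mul_sum]
    _ ≤ (c + ε) * Real.sqrt (B v v) := by nlinarith [mul_le_mul_of_nonneg_left hk'.le hq]

end Pool.Agent.Lib.DEn
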