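import Pool.Agent.Lib.DEn.Forms

set_option autoImplicit false
set_option maxSynthPendingDepth 3

/-!
# The inner product of two forms as a smooth function  (1 h)

`f z = (nsq z)² / 2 * ∑_{a,b} τ z (E_a) (E_b) * σ z (E_a) (E_b)`, where `E_a` runs over the real orthonormal basis `e_k, i e_k` (`k : Fin 3`) of `W` with the real inner product `Re hp`. Smooth off `0`. For bilinear `B, B'` the sum `∑_{a,b} B(E_a,E_b) B'(E_a,E_b)` does not depend on the orthonormal basis: for `g ∈ U3` the vectors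
`g j, i g j` are another one (`E'_a = ∑_b (Re hp E_b E'_a) E_b`), and those with `j = 0` do not contribute (`HF.hor`, `HF.skew`), so `f (g 0) = ip (cF τ g) (cF σ g)` (the vectors `g 1, i g 1, g 2, i g 2` are `fr (g 1) (g 2)`). Homogeneity: `c⁻¹ E_a` are `|c|⁻¹` times an orthonormal basis; or deduce it from the formula on `U3`:
every `z ≠ 0` is `c' • g 0`, and real scaling is clear, for `|c| = 1` multiply the column `g 0` by `c` and the columns `g 1, g 2` by `c` as well (`HF.hom`).
-/

open MeasureTheory Set Metric Filter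
open scoped ContDiff Topology Matrix

namespace Pool.Agent.Lib.DEn

open Pool.Agent.P28b04d
open Pool.Agent.Lib.Psd (W hp ON3 fr cmp st asd sd nrm2 Pf Skew Conn Basic dd a0 c0)

namespace IpUAux

/-- `1` or `i` -/
noncomputable def us (s : Fin 2) : ℂ := if s = 0 then 1 else Complex.I

/-- the vectors `g j, i g j` -/
noncomputable def F (g : X3) (i : Fin 3 × Fin 2) : W := us i.2 • g i.1

/-- coefficients of `F g` in the basis `F id3` -/
noncomputable def O (g : X3) (i a : Fin 3 × Fin 2) : ℝ :=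
  if a.2 = 0 then (us i.2 * g i.1 a.1).re else (us i.2 * g i.1 a.1).im

theorem F_eq (g : X3) (i : Fin 3 × Fin 2) : F g i = ∑ a, O g i a • F id3 a := by
  rw [Fintype.sum_prod_type]
  simp only [Fin.sum_univ_two]
  funext k
  rw [Finset.sum_apply, Finset.sum_eq_single k]
  · simp only [O, F, us, id3]
    simp only [if_true, Fin.isValue, one_ne_zero, if_false, Pi.add_apply, Pi.smul_apply,
      Pi.single_eq_same, smul_eq_mul, one_mul, mul_one]
    apply Complex.ext
    · simp
    · simp
  · intro j _ hj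
    have : (id3 j) k = 0 := by
      unfold id3
      exact Pi.single_eq_of_ne (Ne.symm hj) _
    simp only [F, Pi.add_apply, Pi.smul_apply, this, smul_zero, add_zero]
  · intro h
    exact absurd (Finset.mem_univ k) h

theorem OtO {g : X3} {l : ℝ}
    (h : ∀ k m, ∑ j, g j k * star (g j m) = if k = m then (l : ℂ) else 0) :
    (Matrix.of (O g))ᵀ * Matrix.of (O g) = l • (1 : Matrix (Fin 3 × Fin 2) (Fin 3 × Fin 2) ℝ) := by
  ext ⟨k, α⟩ ⟨m, β⟩
  rw [Matrix.mul_apply, Matrix.smul_apply, Matrix.one_apply, Fintype.sum_prod_type]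
  simp only [Matrix.transpose_apply, Matrix.of_apply, Fin.sum_univ_two, smul_eq_mul]
  have hre := congrArg Complex.re (h k m)
  have him := congrArg Complex.im (h k m)
  rw [Complex.re_sum] at hre
  rw [Complex.im_sum] at him
  simp only [Complex.mul_re, Complex.mul_im, RCLike.star_def, Complex.conj_re,
    Complex.conj_im] at hre him
  have hif : ∀ (P : Prop) [Decidable P], (if P then (l : ℂ) else 0).re = if P then l else 0 := by
    intro P _
    split_ifs <;> simp
  have hif2 : ∀ (P : Prop) [Decidable P], (if P then (l : ℂ) else 0).im = 0 := by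
    intro P _
    split_ifs <;> simp
  rw [hif] at hre
  rw [hif2] at him
  have hone : (if (k, α) = (m, β) then (1 : ℝ) else 0) = if k = m ∧ α = β then 1 else 0 := by
    simp only [Prod.mk.injEq]
  rw [hone]
  rcases Fin.exists_fin_two.1 ⟨α, rfl⟩ with rfl | rfl <;>
  rcases Fin.exists_fin_two.1 ⟨β, rfl⟩ with rfl | rfl <;>
  simp only [O, us, if_true, Fin.isValue, one_ne_zero, if_false, one_mul, and_true, and_false,
    mul_zero, mul_ite, mul_one, zero_ne_one]
  · rw [← hre]
    refine Finset.sum_congr rfl fun j _ => ?_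
    simp
  · rw [← neg_zero, ← him, ← Finset.sum_neg_distrib]
    refine Finset.sum_congr rfl fun j _ => ?_
    simp
    ring
  · rw [← him]
    refine Finset.sum_congr rfl fun j _ => ?_
    simp
    ring
  · rw [← hre]
    refine Finset.sum_congr rfl fun j _ => ?_
    simp
    ring

/-- the matrix of a bilinear form -/
noncomputable def Bm (B : BW) (g : X3) : Matrix (Fin 3 × Fin 2) (Fin 3 × Fin 2) ℝ :=
  Matrix.of fun i j => B (F g i) (F g j)

theorem Bm_eq (B : BW) (g : X3) :
    Bm B g = Matrix.of (O g) * Bm B id3 * (Matrix.of (O g))ᵀ := by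
  ext i j
  rw [Matrix.mul_apply]
  simp only [Matrix.mul_apply, Matrix.transpose_apply, Matrix.of_apply, Bm]
  conv_lhs => rw [F_eq g i, F_eq g j]
  simp only [map_sum, map_smul, sum_apply, smul_apply,
    smul_eq_mul, Finset.mul_sum, Finset.sum_mul]
  refine Finset.sum_congr rfl fun b _ => Finset.sum_congr rfl fun a _ => ?_
  ring

theorem sum_Bm {g : X3} {l : ℝ}
    (h : ∀ k m, ∑ j, g j k * star (g j m) = if k = m then (l : ℂ) else 0) (B B' : BW) :
    ∑ i, ∑ j, Bm B g i j * Bm B' g i j = l ^ 2 * ∑ i, ∑ j, Bm B id3 i j * Bm B' id3 i j := by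
  have htr : ∀ X Y : Matrix (Fin 3 × Fin 2) (Fin 3 × Fin 2) ℝ,
      ∑ i, ∑ j, X i j * Y i j = (Xᵀ * Y).trace := by
    intro X Y
    simp only [Matrix.trace, Matrix.diag, Matrix.mul_apply, Matrix.transpose_apply]
    rw [Finset.sum_comm]
  rw [htr, htr, Bm_eq B g, Bm_eq B' g]
  have hO := OtO h
  set O' := Matrix.of (O g) with hO'
  set b := Bm B id3
  set b' := Bm B' id3
  have e1 : (O' * b * O'ᵀ)ᵀ * (O' * b' * O'ᵀ) = O' * (bᵀ * (O'ᵀ * O') * b' * O'ᵀ) := by
    simp only [Matrix.transpose_mul, Matrix.transpose_transpose, Matrix.mul_assoc]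
  rw [e1, Matrix.trace_mul_comm]
  have e2 : bᵀ * (O'ᵀ * O') * b' * O'ᵀ * O' = bᵀ * (O'ᵀ * O') * b' * (O'ᵀ * O') := by
    simp only [Matrix.mul_assoc]
  rw [e2, hO]
  simp only [Matrix.mul_smul, Matrix.mul_one, Matrix.smul_mul, Matrix.trace_smul, smul_eq_mul]
  ring

theorem row_of_U3 {g : X3} (hg : g ∈ U3) (k m : Fin 3) :
    ∑ j, g j k * star (g j m) = if k = m then ((1 : ℝ) : ℂ) else 0 := by
  -- `G k j = g j k`, `Gᴴ G = 1`
  let G : Matrix (Fin 3) (Fin 3) ℂ := Matrix.of fun k j => g j k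
  have h1 : G.conjTranspose * G = 1 := by
    ext i j
    rw [Matrix.mul_apply, Matrix.one_apply]
    exact hg i j
  have h2 : G * G.conjTranspose = 1 := mul_eq_one_comm.1 h1
  have h3 := congrFun (congrFun h2 k) m
  rw [Matrix.mul_apply, Matrix.one_apply] at h3
  rw [Complex.ofReal_one]
  exact h3

end IpUAux

open IpUAux

theorem ip_up {τ σ : W → BW} (hτ : HF τ) (hσ : HF σ) :
    ∃ f : W → ℝ, ContDiffOn ℝ ∞ f {0}ᶜ ∧ (∀ c : ℂ, c ≠ 0 → ∀ z : W, z ≠ 0 → f (c • z) = f z) ∧
      ∀ g ∈ U3, f (g 0) = ip (cF τ g) (cF σ g) := by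
  refine ⟨fun z => nsq z ^ 2 / 2 * ∑ i, ∑ j, Bm (τ z) id3 i j * Bm (σ z) id3 i j, ?_, ?_, ?_⟩
  · refine ContDiffOn.mul ?_ ?_
    · refine ContDiff.contDiffOn ?_
      refine ContDiff.div_const ?_ _
      refine ContDiff.pow ?_ 2
      unfold nsq
      refine ContDiff.sum fun k _ => ?_
      have h1 : (fun z : W => Complex.normSq (z k)) = fun z : W => (z k).re * (z k).re + (z k).im * (z k).im := by
        funext z
        exact Complex.normSq_apply _
      rw [h1]
      have h2 : ContDiff ℝ ∞ (fun z : W => (z k).re) :=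
        (Complex.reCLM.comp (ContinuousLinearMap.proj (R := ℝ) (φ := fun _ : Fin 3 => ℂ) k)).contDiff
      have h3 : ContDiff ℝ ∞ (fun z : W => (z k).im) :=
        (Complex.imCLM.comp (ContinuousLinearMap.proj (R := ℝ) (φ := fun _ : Fin 3 => ℂ) k)).contDiff
      exact (h2.mul h2).add (h3.mul h3)
    · refine ContDiffOn.sum fun i _ => ContDiffOn.sum fun j _ => ContDiffOn.mul ?_ ?_
      · exact (hτ.smooth.clm_apply contDiffOn_const).clm_apply contDiffOn_const
      · exact (hσ.smooth.clm_apply contDiffOn_const).clm_apply contDiffOn_const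
  · intro c hc z hz
    -- the vectors `c⁻¹ E_a`
    let g : X3 := fun j => c⁻¹ • id3 j
    have hg : ∀ (k m : Fin 3), ∑ j, g j k * star (g j m) =
        if k = m then ((Complex.normSq c⁻¹ : ℝ) : ℂ) else 0 := by
      intro k m
      have h1 : ∀ j k : Fin 3, g j k = if j = k then c⁻¹ else 0 := by
        intro j k
        show c⁻¹ * (Pi.single j (1 : ℂ) : Fin 3 → ℂ) k = _
        rw [Pi.single_apply]
        by_cases hjk : k = j
        · rw [if_pos hjk, if_pos hjk.symm, mul_one]
        · rw [if_neg hjk, if_neg (Ne.symm hjk), mul_zero]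
      simp only [h1]
      rw [Finset.sum_eq_single k]
      · rw [if_pos rfl]
        by_cases hkm : k = m
        · rw [if_pos hkm, if_pos hkm, RCLike.star_def, Complex.mul_conj]
        · rw [if_neg hkm, if_neg hkm, star_zero, mul_zero]
      · intro j _ hj
        rw [if_neg hj, zero_mul]
      · intro h
        exact absurd (Finset.mem_univ k) h
    have hF : ∀ i, F id3 i = c • F g i := by
      intro i
      show us i.2 • id3 i.1 = c • (us i.2 • (c⁻¹ • id3 i.1))
      rw [smul_smul, smul_smul]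
      congr 1
      field_simp
    have hB : ∀ {ρ : W → BW}, HF ρ → Bm (ρ (c • z)) id3 = Bm (ρ z) g := by
      intro ρ hρ
      ext i j
      show ρ (c • z) (F id3 i) (F id3 j) = ρ z (F g i) (F g j)
      rw [hF i, hF j]
      exact hρ.hom c hc z hz _ _
    have hn : nsq (c • z) = Complex.normSq c * nsq z := by
      unfold nsq
      rw [Finset.mul_sum]
      refine Finset.sum_congr rfl fun k _ => ?_
      rw [Pi.smul_apply, smul_eq_mul, Complex.normSq_mul]
    show nsq (c • z) ^ 2 / 2 * ∑ i, ∑ j, Bm (τ (c • z)) id3 i j * Bm (σ (c • z)) id3 i j =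
      nsq z ^ 2 / 2 * ∑ i, ∑ j, Bm (τ z) id3 i j * Bm (σ z) id3 i j
    rw [hB hτ, hB hσ, sum_Bm hg, hn, Complex.normSq_inv]
    have hc' : Complex.normSq c ≠ 0 := by
      rw [Ne, Complex.normSq_eq_zero]
      exact hc
    field_simp
  · intro g hg
    show nsq (g 0) ^ 2 / 2 * ∑ i, ∑ j, Bm (τ (g 0)) id3 i j * Bm (σ (g 0)) id3 i j = _
    have h1 := sum_Bm (row_of_U3 hg) (τ (g 0)) (σ (g 0))
    rw [one_pow, one_mul] at h1
    have hg0 : g 0 ≠ 0 := col_ne hg 0
    rw [← h1, nsq_col hg 0]
    have hz : ∀ {ρ : W → BW}, HF ρ → ∀ s : Fin 2, ∀ w : W, ρ (g 0) (F g (0, s)) w = 0 := by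
      intro ρ hρ s w
      exact hρ.hor (g 0) hg0 (us s) w
    have hz' : ∀ {ρ : W → BW}, HF ρ → ∀ s : Fin 2, ∀ w : W, ρ (g 0) w (F g (0, s)) = 0 := by
      intro ρ hρ s w
      rw [hρ.skew (g 0) hg0, hz hρ, neg_zero]
    unfold ip cF
    simp only [Bm, Matrix.of_apply]
    rw [Fintype.sum_prod_type]
    simp only [Fintype.sum_prod_type, Fin.sum_univ_three, Fin.sum_univ_two, hz hτ, hz' hτ,
      zero_mul, zero_add, Finset.sum_const_zero]
    have f0 : F g (1, 0) = fr (g 1) (g 2) 0 := by
      show us 0 • g 1 = g 1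
      simp [us]
    have f1 : F g (1, 1) = fr (g 1) (g 2) 1 := by
      show us 1 • g 1 = Complex.I • g 1
      simp [us]
    have f2 : F g (2, 0) = fr (g 1) (g 2) 2 := by
      show us 0 • g 2 = g 2
      simp [us]
    have f3 : F g (2, 1) = fr (g 1) (g 2) 3 := by
      show us 1 • g 2 = Complex.I • g 2
      simp [us]
    simp only [f0, f1, f2, f3, Fin.sum_univ_four]
    ring

end Pool.Agent.Lib.DEn
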