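import Pool.Agent.Lib.DEn.StarU
import Pool.Agent.Lib.DEn.IpU

set_option autoImplicit false
set_option maxSynthPendingDepth 3

/-!
# The gradient form  (0.8 h)

`τ = dB α` (`dB_hfc`), `σ` its star (`star_up`), `p` the function of `ip_up` for `(τ, σ)`, `q` for `(τ, τ)`. For `g ∈ U3`: `p (g 0) = ip T (st T) = wd T T = 2 Pf T > 0` (`wd_eq_ip`, `wd_self`), `q (g 0) = ip T T = nrm2 T / 2`; every `z ≠ 0` is `c • g 0` with `g ∈ U3` (`exists_col`), so `p > 0` off `0`.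
`sg T = nrm2 T / (4 Pf T) = q / p`. `Θ z = (2 / p z) • (σ z - (q z / p z) • τ z)` (`1 / Pf T = 2 / p`); `hf_smul`, `hf_sub`. `pf_sign`: `p` is continuous on the connected set `{0}ᶜ` (`isConnected_compl_singleton_of_one_lt_rank`), without zeros, and `∫ Pf = 4 > 0` (`int_pf`) shows that it is positive somewhere.
-/

open MeasureTheory Set Metric Filter
open scoped ContDiff Topology

namespace Pool.Agent.Lib.DEn

open Pool.Agent.P28b04d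
open Pool.Agent.Lib.Psd (W hp ON3 fr cmp st asd sd nrm2 Pf Skew Conn Basic dd a0 c0)

namespace ThUAux

theorem sphere {z : W} (hz : z ≠ 0) : ∃ (c : ℂ) (g : X3), c ≠ 0 ∧ g ∈ U3 ∧ z = c • g 0 := by
  have h0 : 0 < nsq z := nsq_pos hz
  have hs : 0 < Real.sqrt (nsq z) := Real.sqrt_pos.2 h0
  have hc : ((Real.sqrt (nsq z) : ℝ) : ℂ) ≠ 0 := Complex.ofReal_ne_zero.2 hs.ne'
  have h1 : nsq (((Real.sqrt (nsq z) : ℝ) : ℂ)⁻¹ • z) = 1 := by
    have h2 : nsq (((Real.sqrt (nsq z) : ℝ) : ℂ)⁻¹ • z) =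
        (Real.sqrt (nsq z))⁻¹ ^ 2 * nsq z := by
      unfold nsq
      rw [Finset.mul_sum]
      refine Finset.sum_congr rfl fun k _ => ?_
      rw [Pi.smul_apply, smul_eq_mul, map_mul, map_inv₀, Complex.normSq_ofReal]
      ring
    rw [h2, inv_pow, Real.sq_sqrt h0.le, inv_mul_cancel₀ h0.ne']
  obtain ⟨g, hg, hg0⟩ := exists_col h1
  exact ⟨_, g, hc, hg, by rw [hg0, smul_inv_smul₀ hc]⟩

theorem one_lt_rank : 1 < Module.rank ℝ W := by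
  have h1 : Module.finrank ℝ W = 6 := by
    show Module.finrank ℝ (Fin 3 → ℂ) = 6
    rw [Module.finrank_pi_fintype]
    simp
  rw [← Module.finrank_eq_rank, h1]
  norm_num

theorem data {α : W → W →L[ℝ] ℝ} (hα : Conn α) : ∃ (σ : W → BW) (p q : W → ℝ), HF σ ∧
    (∀ g ∈ U3, cF σ g = st (cF (dB α) g)) ∧ ContDiffOn ℝ ∞ p {0}ᶜ ∧ ContDiffOn ℝ ∞ q {0}ᶜ ∧
    (∀ c : ℂ, c ≠ 0 → ∀ z : W, z ≠ 0 → p (c • z) = p z) ∧
    (∀ c : ℂ, c ≠ 0 → ∀ z : W, z ≠ 0 → q (c • z) = q z) ∧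
    (∀ g ∈ U3, p (g 0) = 2 * Pf (cF (dB α) g)) ∧
    (∀ g ∈ U3, q (g 0) = nrm2 (cF (dB α) g) / 2) := by
  have hτ := dB_hfc hα
  obtain ⟨σ, hσ, hσ'⟩ := star_up hτ
  obtain ⟨p, hp1, hp2, hp3⟩ := ip_up hτ hσ
  obtain ⟨q, hq1, hq2, hq3⟩ := ip_up hτ hτ
  refine ⟨σ, p, q, hσ, hσ', hp1, hq1, hp2, hq2, fun g hg => ?_, fun g hg => ?_⟩
  · rw [hp3 g hg, hσ' g hg, ← wd_eq_ip (cF_skew hτ hg) (cF_skew hτ hg), wd_self]
  · rw [hq3 g hg, nrm2_ip]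
    ring

end ThUAux

theorem theta_up {α : W → W →L[ℝ] ℝ} (hα : Conn α) (hP : ∀ g ∈ U3, 0 < Pf (cF (dB α) g)) :
    ∃ Θ : W → BW, HF Θ ∧ ∀ g ∈ U3, cF Θ g = th (cF (dB α) g) := by
  obtain ⟨σ, p, q, hσ, hσ', hp1, hq1, hp2, hq2, hp3, hq3⟩ := ThUAux.data hα
  have hτ := dB_hfc hα
  have hpos : ∀ z : W, z ≠ 0 → 0 < p z := by
    intro z hz
    obtain ⟨c, g, hc, hg, rfl⟩ := ThUAux.sphere hz
    rw [hp2 c hc _ (col_ne hg 0), hp3 g hg]
    have := hP g hg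
    linarith
  have hne : ∀ z ∈ ({0}ᶜ : Set W), p z ≠ 0 := fun z hz => (hpos z hz).ne'
  have h1 : HF (fun z => (q z / p z) • dB α z) :=
    hf_smul (hq1.div hp1 hne) (fun c hc z hz => by rw [hq2 c hc z hz, hp2 c hc z hz]) hτ
  have h2 : HF (fun z => (2 / p z) • (σ z - (q z / p z) • dB α z)) :=
    hf_smul (contDiffOn_const.div hp1 hne) (fun c hc z hz => by rw [hp2 c hc z hz]) (hf_sub hσ h1)
  refine ⟨_, h2, fun g hg => ?_⟩
  have hPg := hP g hg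
  have e1 : ∀ i j, cF (fun z => (2 / p z) • (σ z - (q z / p z) • dB α z)) g i j =
      2 / p (g 0) * (cF σ g i j - q (g 0) / p (g 0) * cF (dB α) g i j) := fun i j => rfl
  funext i j
  rw [e1, hσ' g hg, hp3 g hg, hq3 g hg]
  unfold th sg
  field_simp
  ring

theorem pf_sign {ν : Measure X3} (hν : Ha ν) {α : W → W →L[ℝ] ℝ} (hα : Conn α)
    (hint : ∫ g, Pf (cF (dB α) g) ∂ν = 4) (hP : ∀ g ∈ U3, Pf (cF (dB α) g) ≠ 0) :
    ∀ g ∈ U3, 0 < Pf (cF (dB α) g) := by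
  obtain ⟨σ, p, q, hσ, hσ', hp1, hq1, hp2, hq2, hp3, hq3⟩ := ThUAux.data hα
  have hne : ∀ z : W, z ≠ 0 → p z ≠ 0 := by
    intro z hz
    obtain ⟨c, g, hc, hg, rfl⟩ := ThUAux.sphere hz
    rw [hp2 c hc _ (col_ne hg 0), hp3 g hg]
    have := hP g hg
    simpa using this
  have hconn : IsPreconnected ({0}ᶜ : Set W) :=
    (isConnected_compl_singleton_of_one_lt_rank ThUAux.one_lt_rank 0).isPreconnected
  have himg : IsPreconnected (p '' {0}ᶜ) := hconn.image p hp1.continuousOn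
  intro g hg
  by_contra hc
  have hneg : p (g 0) < 0 := by
    have h1 := hP g hg
    rw [hp3 g hg]
    have h2 : Pf (cF (dB α) g) < 0 := lt_of_le_of_ne (not_lt.1 hc) h1
    linarith
  have hall : ∀ k ∈ U3, Pf (cF (dB α) k) ≤ 0 := by
    intro k hk
    by_contra hk'
    have hk2 : 0 < p (k 0) := by
      rw [hp3 k hk]
      linarith [not_le.1 hk']
    have h3 : (0 : ℝ) ∈ p '' {0}ᶜ :=
      himg.ordConnected.out ⟨g 0, col_ne hg 0, rfl⟩ ⟨k 0, col_ne hk 0, rfl⟩ ⟨hneg.le, hk2.le⟩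
    obtain ⟨z, hz, hz'⟩ := h3
    exact hne z hz hz'
  have h4 : ∫ g, Pf (cF (dB α) g) ∂ν ≤ 0 := integral_nonpos_of_ae (ae_u hν hall)
  linarith

end Pool.Agent.Lib.DEn
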