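import Pool.Agent.Lib.DEn.BEta
import Pool.Agent.Lib.DEn.ThU

set_option autoImplicit false
set_option maxSynthPendingDepth 3

/-!
# Simultaneous descent at a constant rate  (0.8 h)

A corollary of `descent_eta` with `H = 1`. `U3` is compact, so `Pf (cF τ g) ≤ m` on `U3` for some `m > 0`; `κ = b / m`. Functions on the projective plane (`ip_up`, `star_up`, `wd_eq_ip`): `q₁ (g 0) = wd (cF Θ g) (cF Θ g)`, `q₂ (g 0) = 2 Pf (cF τ g) > 0` (`wd_self`). `η z = c / max (- q₁ z) (2 b / q₂ z)`: continuous off `0` (`q₂ > 0` there: every `z ≠ 0` is `c • g 0`, `ThUAux.sphere`),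
homogeneous, nonnegative. With `f = - wd Θ Θ`, `π = Pf (cF τ g)`: on `K`, `f ≥ b / π`, so `η f = c`. Everywhere `η² f ≤ c² / max f (b / π) ≤ c² π / b`, so `4 A ∫ η² f ≤ 4 A c² (∫ π) / b < 1`.
-/

open MeasureTheory Set Metric Filter
open scoped ContDiff Topology

namespace Pool.Agent.Lib.DEn

open Pool.Agent.P28b04d
open Pool.Agent.Lib.Psd (W hp ON3 fr cmp st asd sd nrm2 Pf Skew Conn Basic dd a0 c0 Mat form fs Tan tv cmpM NondegM pb)

open BEtaAux RieBAux in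
theorem descent {ν : Measure X3} (hν : Ha ν) {Θ τ : W → BW} (hΘ : HF Θ) (hτ : HF τ) {K : Set X3}
    (hK : IsClosed K) (hKU : K ⊆ U3) {A b c : ℝ} (hA : 0 < A) (hb0 : 0 < b) (hc : 0 ≤ c)
    (hip : ∀ g ∈ U3, ip (cF Θ g) (cF Θ g) ≤ -A * wd (cF Θ g) (cF Θ g))
    (hP : ∀ g ∈ U3, 0 < Pf (cF τ g))
    (hb : ∀ g ∈ K, b ≤ -wd (cF Θ g) (cF Θ g) * Pf (cF τ g))
    (hcb : 4 * A * c ^ 2 * ∫ g, Pf (cF τ g) ∂ν < b) :
    ∃ γ : W → W →L[ℝ] ℝ, Basic γ ∧ ∫ g, ip (cF (dB γ) g) (cF (dB γ) g) ∂ν ≤ 1 ∧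
      ∀ g ∈ K, wd (cF (dB γ) g) (cF Θ g) ≤ -c := by
  have := hν.prob
  have cΘ : CtU (cF Θ) := ctU_cF hΘ.smooth
  obtain ⟨q₁, q₁s, q₁h, e₁⟩ := wd_up hΘ hΘ
  obtain ⟨q₂, q₂s, q₂h, e₂⟩ := wd_up hτ hτ
  have hq₂ : ∀ g ∈ U3, q₂ (g 0) = 2 * Pf (cF τ g) := fun g hg => by rw [e₂ g hg, wd_self]
  have hq₂pos : ∀ z : W, z ≠ 0 → 0 < q₂ z := by
    intro z hz
    obtain ⟨k, g, hk, hg, rfl⟩ := ThUAux.sphere hz
    rw [q₂h k hk _ (col_ne hg 0), hq₂ g hg]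
    linarith [hP g hg]
  have hπc : ContinuousOn (fun g => Pf (cF τ g)) U3 := by
    refine (ct_col q₂s.continuousOn).div_const 2 |>.congr fun g hg => ?_
    show Pf (cF τ g) = q₂ (g 0) / 2
    rw [hq₂ g hg]
    ring
  obtain ⟨m, hm0, hm⟩ := bound_of_ct hπc
  obtain ⟨D, hD⟩ : ∃ D : W → ℝ, D = fun z => max (-q₁ z) (2 * b / q₂ z) := ⟨_, rfl⟩
  have hDc : ContinuousOn D {0}ᶜ := by
    rw [hD]
    have h1 : ContinuousOn (fun z => 2 * b / q₂ z) {0}ᶜ :=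
      continuousOn_const.div q₂s.continuousOn fun z hz => (hq₂pos z hz).ne'
    exact q₁s.continuousOn.neg.sup h1
  have hDh : ∀ k : ℂ, k ≠ 0 → ∀ z : W, z ≠ 0 → D (k • z) = D z := by
    intro k hk z hz
    rw [hD]
    show max (-q₁ (k • z)) (2 * b / q₂ (k • z)) = max (-q₁ z) (2 * b / q₂ z)
    rw [q₂h k hk z hz, q₁h k hk z hz]
  have hDpos : ∀ z : W, z ≠ 0 → 0 < D z := by
    intro z hz
    have h1 : 2 * b / q₂ z ≤ D z := by
      rw [hD]
      exact le_max_right _ _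
    exact lt_of_lt_of_le (div_pos (by linarith) (hq₂pos z hz)) h1
  have hD1 : ∀ g ∈ U3, -wd (cF Θ g) (cF Θ g) ≤ D (g 0) := by
    intro g hg
    rw [← e₁ g hg, hD]
    exact le_max_left _ _
  have hD2 : ∀ g ∈ U3, b / Pf (cF τ g) ≤ D (g 0) := by
    intro g hg
    have h1 : 2 * b / q₂ (g 0) ≤ D (g 0) := by
      rw [hD]
      exact le_max_right _ _
    rwa [hq₂ g hg, mul_div_mul_left _ _ two_ne_zero] at h1
  have hDK : ∀ g ∈ K, D (g 0) = -wd (cF Θ g) (cF Θ g) := by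
    intro g hg
    have hgU := hKU hg
    rw [hD]
    show max (-q₁ (g 0)) (2 * b / q₂ (g 0)) = _
    rw [hq₂ g hgU, mul_div_mul_left _ _ two_ne_zero, e₁ g hgU]
    exact max_eq_left ((div_le_iff₀ (hP g hgU)).2 (hb g hg))
  obtain ⟨η, hη⟩ : ∃ η : W → ℝ, η = fun z => c / D z := ⟨_, rfl⟩
  have hηc : ContinuousOn η {0}ᶜ := by
    rw [hη]
    exact continuousOn_const.div hDc fun z hz => (hDpos z hz).ne'
  have hηh : ∀ k : ℂ, k ≠ 0 → ∀ z : W, z ≠ 0 → η (k • z) = η z := by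
    intro k hk z hz
    rw [hη]
    show c / D (k • z) = c / D z
    rw [hDh k hk z hz]
  have hη0 : ∀ g ∈ U3, 0 ≤ η (g 0) := by
    intro g hg
    rw [hη]
    exact div_nonneg hc (hDpos _ (col_ne hg 0)).le
  have hκ : 0 < b / (m + 1) := div_pos hb0 (by linarith)
  have hκK : ∀ g ∈ K, b / (m + 1) ≤ -wd (cF Θ g) (cF Θ g) := by
    intro g hg
    have h1 := hb g hg
    have h2 := hP g (hKU hg)
    have h3 : 0 < -wd (cF Θ g) (cF Θ g) := by
      by_contra hneg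
      push Not at hneg
      have := mul_nonpos_of_nonpos_of_nonneg hneg h2.le
      linarith
    have h4 : Pf (cF τ g) ≤ m := (le_abs_self _).trans (hm g (hKU hg))
    rw [div_le_iff₀ (by linarith)]
    refine h1.trans (mul_le_mul_of_nonneg_left (by linarith) h3.le)
  have hηU : ContinuousOn (fun g : X3 => η (g 0)) U3 := ct_col hηc
  have hwc : ContinuousOn (fun g => wd (cF Θ g) (cF Θ g)) U3 := wd_ct cΘ cΘ
  have hH : 4 * A * (-∫ g, η (g 0) ^ 2 * wd (cF Θ g) (cF Θ g) ∂ν) < 1 := by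
    have h1 : -∫ g, η (g 0) ^ 2 * wd (cF Θ g) (cF Θ g) ∂ν ≤ ∫ g, c ^ 2 / b * Pf (cF τ g) ∂ν := by
      rw [← integral_neg]
      refine integral_mono_ae (integrable_u hν ((hηU.pow 2).mul hwc).neg)
        (integrable_u hν (continuousOn_const.mul hπc)) (ae_u hν fun g hg => ?_)
      show -(η (g 0) ^ 2 * wd (cF Θ g) (cF Θ g)) ≤ c ^ 2 / b * Pf (cF τ g)
      have k0 := hDpos _ (col_ne hg 0)
      have k1 := hD1 g hg
      have k2 := hD2 g hg
      have k3 := hP g hg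
      have k4 : η (g 0) = c / D (g 0) := by rw [hη]
      rw [div_le_iff₀ k3] at k2
      have k5 : -(η (g 0) ^ 2 * wd (cF Θ g) (cF Θ g)) =
          c ^ 2 / D (g 0) ^ 2 * -wd (cF Θ g) (cF Θ g) := by
        rw [k4, div_pow]
        ring
      rw [k5]
      calc c ^ 2 / D (g 0) ^ 2 * -wd (cF Θ g) (cF Θ g)
          ≤ c ^ 2 / D (g 0) ^ 2 * D (g 0) := mul_le_mul_of_nonneg_left k1 (by positivity)
        _ = c ^ 2 / D (g 0) := by
            field_simp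
        _ ≤ c ^ 2 / b * Pf (cF τ g) := by
            rw [div_mul_eq_mul_div, div_le_div_iff₀ k0 hb0]
            have := mul_le_mul_of_nonneg_left k2 (sq_nonneg c)
            nlinarith
    rw [integral_const_mul] at h1
    have h2 : 4 * A * (c ^ 2 / b * ∫ g, Pf (cF τ g) ∂ν) < 1 := by
      have h3 : 4 * A * (c ^ 2 / b * ∫ g, Pf (cF τ g) ∂ν) =
          (4 * A * c ^ 2 * ∫ g, Pf (cF τ g) ∂ν) / b := by
        field_simp
      rw [h3, div_lt_one hb0]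
      exact hcb
    exact lt_of_le_of_lt (mul_le_mul_of_nonneg_left h1 (by positivity)) h2
  obtain ⟨γ, hγ, h1, h2⟩ := descent_eta hν hΘ hK hKU hA hκ hip hκK hηc hηh hη0 hH
  refine ⟨γ, hγ, h1, fun g hg => (h2 g hg).trans (le_of_eq ?_)⟩
  have k0 := hDpos _ (col_ne (hKU hg) 0)
  have k4 : η (g 0) = c / D (g 0) := by rw [hη]
  have k5 : wd (cF Θ g) (cF Θ g) = -D (g 0) := by
    rw [hDK g hg, neg_neg]
  rw [k4, k5]
  field_simp

end Pool.Agent.Lib.DEn
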