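import Pool.Agent.Lib.DEn.Defs
import Pool.Agent.Lib.Psd.NdP
import Pool.Agent.Lib.Psd.AmbB
import Pool.Agent.Lib.P28u.IntD
import Pool.Agent.Lib.P28u.HaarU
import Pool.Agent.Lib.P28u.EbF

set_option autoImplicit false
set_option maxSynthPendingDepth 3

/-!
# Bridge to the library P28u: elementary facts on unitary matrices and the invariant measure
-/

open MeasureTheory Set Metric
open scoped ContDiff Topology

namespace Pool.Agent.Lib.DEn

open Pool.Agent.P28b04d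
open Pool.Agent.Lib.Psd (W hp ON3 fr cmp st asd sd nrm2 Pf Skew Conn Basic dd a0 c0)

theorem mv_eq (g : X3) (z : W) : mv g z = P28t.mx (n := 2) g z := rfl

theorem mm_eq (g h : X3) : mm g h = P28u.rm (n := 2) g h := rfl

theorem U3_eq : U3 = P28u.Un 2 := rfl

theorem id3_eq : id3 = P28u.idm 2 := rfl

theorem ha_haar (ν : Measure X3) : Ha ν ↔ P28u.Haar (n := 2) ν :=
  ⟨fun h => ⟨h.prob, h.supp, h.inv⟩, fun h => ⟨h.prob, h.supp, h.inv⟩⟩

theorem exists_ha : ∃ ν : Measure X3, Ha ν := by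
  obtain ⟨ν, hν⟩ := P28u.exists_haar 2
  exact ⟨ν, (ha_haar ν).2 hν⟩

theorem mv_add (g : X3) (z w : W) : mv g (z + w) = mv g z + mv g w := P28u.mx_add (n := 2) g z w

theorem mv_smul (g : X3) (c : ℂ) (z : W) : mv g (c • z) = c • mv g z := P28u.mx_smul (n := 2) g c z

theorem mv_rsmul (g : X3) (r : ℝ) (z : W) : mv g (r • z) = r • mv g z := P28u.mx_rsmul (n := 2) g r z

theorem mv_mm (g X : X3) (z : W) : mv (mm g X) z = mv g (mv X z) := P28u.mx_rm (n := 2) g X z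

theorem mm_apply (g X : X3) (j : Fin 3) : mm g X j = mv g (X j) := rfl

theorem mm_assoc (g X Y : X3) : mm (mm g X) Y = mm g (mm X Y) := P28u.rm_assoc (n := 2) g X Y

theorem mm_id3 (g : X3) : mm g id3 = g := P28u.rm_idm (n := 2) g

theorem id3_mm (g : X3) : mm id3 g = g := P28u.idm_rm (n := 2) g

theorem mv_id3 (z : W) : mv id3 z = z := P28u.mx_idm (n := 2) z

theorem hp_mv {g : X3} (hg : g ∈ U3) (z w : W) : hp (mv g z) (mv g w) = hp z w :=
  P28u.hip_mx (n := 2) hg z w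

theorem nsq_mv {g : X3} (hg : g ∈ U3) (z : W) : nsq (mv g z) = nsq z := P28u.nsq_mx (n := 2) hg z

theorem mm_mem {g k : X3} (hg : g ∈ U3) (hk : k ∈ U3) : mm g k ∈ U3 := P28u.rm_mem (n := 2) hg hk

theorem id3_mem : id3 ∈ U3 := P28u.idm_mem (n := 2)

theorem exists_inv {g : X3} (hg : g ∈ U3) : ∃ k ∈ U3, mm g k = id3 ∧ mm k g = id3 :=
  P28u.exists_inv (n := 2) hg

theorem exists_col {z : W} (hz : nsq z = 1) : ∃ g ∈ U3, g 0 = z := P28u.exists_col (n := 2) hz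

theorem isCompact_U3 : IsCompact U3 := P28u.isCompact_Un (n := 2)

theorem continuous_mm : Continuous fun p : X3 × X3 => mm p.1 p.2 := P28u.continuous_rm (n := 2)

theorem continuous_mv : Continuous fun p : X3 × W => mv p.1 p.2 := P28u.continuous_mx (n := 2)

theorem on3_iff (g : X3) : ON3 (g 0) (g 1) (g 2) ↔ g ∈ U3 := by
  constructor
  · intro h j k
    have hc : ∀ a b : W, hp a b = star (hp b a) := fun a b => Psd.ConnBAux.hp_conj b a
    fin_cases j <;> fin_cases k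
    · exact h.zz
    · exact h.zu
    · exact h.zv
    · show hp (g 1) (g 0) = _
      rw [hc, h.zu]; simp
    · exact h.uu
    · exact h.uv
    · show hp (g 2) (g 0) = _
      rw [hc, h.zv]; simp
    · show hp (g 2) (g 1) = _
      rw [hc, h.uv]; simp
    · exact h.vv
  · intro h
    exact ⟨h 0 0, h 1 1, h 2 2, h 0 1, h 0 2, h 1 2⟩

theorem nsq_col {g : X3} (hg : g ∈ U3) (j : Fin 3) : nsq (g j) = 1 := P28u.nsq_col (n := 2) hg j

theorem col_ne {g : X3} (hg : g ∈ U3) (j : Fin 3) : g j ≠ 0 := P28u.col_ne (n := 2) hg j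

theorem Eb_eq (g : X3) (i : Fin 4) : P28t.mx (n := 2) g (P28u.Eb (n := 2) i) = fr (g 1) (g 2) i := by
  have h0 : ∀ (p : Fin 4), P28u.Eb (n := 2) p =
      ![0, ⟨if p = 0 then 1 else 0, if p = 1 then 1 else 0⟩,
        ⟨if p = 2 then 1 else 0, if p = 3 then 1 else 0⟩] := by
    intro p
    show (Fin.cons 0 (P28e.kap 2 (Pi.single p 1)) : Fin 3 → ℂ) = _
    funext k
    refine Fin.cases rfl (fun k => ?_) k
    show P28e.kap 2 (Pi.single p 1) k = _
    rw [P28e.kap_apply]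
    fin_cases k <;> fin_cases p <;> simp [finProdFinEquiv]
  have e0 : (⟨0, 0⟩ : ℂ) = 0 := rfl
  have e1 : (⟨1, 0⟩ : ℂ) = 1 := rfl
  have e2 : (⟨0, 1⟩ : ℂ) = Complex.I := rfl
  rw [h0 i]
  show ∑ j : Fin 3, _ • g j = _
  rw [Fin.sum_univ_three]
  fin_cases i <;> simp [fr, e0, e1, e2]

/-- frames at a point span the tangent space -/
theorem decomp {g : X3} (hg : g ∈ U3) (y : W) :
    ∃ (c : ℂ) (x : Fin 4 → ℝ), y = c • g 0 + ∑ i, x i • fr (g 1) (g 2) i := by
  obtain ⟨c, x, h⟩ := Psd.decomp ((on3_iff g).2 hg) y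
  exact ⟨c, fun i => x i, by rw [h, Psd.Lf_apply]⟩

theorem hp_frame {g : X3} (hg : g ∈ U3) (i : Fin 4) : hp (g 0) (fr (g 1) (g 2) i) = 0 := by
  have h := (on3_iff g).2 hg
  fin_cases i
  · exact h.zu
  · show hp (g 0) (Complex.I • g 1) = 0
    rw [Psd.ConnBAux.hp_smul_right, h.zu, mul_zero]
  · exact h.zv
  · show hp (g 0) (Complex.I • g 2) = 0
    rw [Psd.ConnBAux.hp_smul_right, h.zv, mul_zero]

/-- the frame of a product -/
theorem fr_mm (h g : X3) (i : Fin 4) :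
    fr (mm h g 1) (mm h g 2) i = mv h (fr (g 1) (g 2) i) := by
  fin_cases i
  · rfl
  · show Complex.I • mv h (g 1) = mv h (Complex.I • g 1)
    rw [mv_smul]
  · rfl
  · show Complex.I • mv h (g 2) = mv h (Complex.I • g 2)
    rw [mv_smul]

theorem cF_pl (τ : W → BW) (h g : X3) : cF (pl h τ) g = cF τ (mm h g) := by
  funext i j
  simp only [cF, pl_apply, fr_mm]
  rfl

theorem c1_pl1 (γ : W → W →L[ℝ] ℝ) (h g : X3) : c1 (pl1 h γ) g = c1 γ (mm h g) := by
  funext i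
  simp only [c1, pl1_apply, fr_mm]
  rfl

theorem integrable_u {ν : Measure X3} (hν : Ha ν) {f : X3 → ℝ} (hf : ContinuousOn f U3) :
    Integrable f ν := P28u.integrable_un (n := 2) ((ha_haar ν).1 hν) hf

theorem ae_u {ν : Measure X3} (hν : Ha ν) {p : X3 → Prop} (h : ∀ g ∈ U3, p g) : ∀ᵐ g ∂ν, p g :=
  P28u.ae_un (n := 2) ((ha_haar ν).1 hν) h

theorem integral_congr_u {ν : Measure X3} (hν : Ha ν) {f k : X3 → ℝ} (h : ∀ g ∈ U3, f g = k g) :
    ∫ g, f g ∂ν = ∫ g, k g ∂ν := integral_congr_ae (ae_u hν h)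

theorem integral_mm {ν : Measure X3} (hν : Ha ν) {f : X3 → ℝ} (hf : ContinuousOn f U3) {k : X3}
    (hk : k ∈ U3) : ∫ g, f (mm g k) ∂ν = ∫ g, f g ∂ν :=
  P28u.IntDAux.integral_rm (n := 2) ((ha_haar ν).1 hν) (integrable_u hν hf) hk

end Pool.Agent.Lib.DEn
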