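import Pool.Agent.Lib.DEn.Near
import Pool.Agent.Lib.DEn.Br
import Pool.Agent.Lib.DEn.Alg

set_option autoImplicit false
set_option maxSynthPendingDepth 3

/-!
# The integral estimates  (1.2 h)

Pointwise on `U3`, with `e = Ψ g - ρ g • F g` (entries at most `ε (ρ + 1)` in absolute value), `f = - wd F F ≥ 0` (`ip_nonneg`, `hip`, `A > 0`): `wd Ψ Ψ = ρ² wd F F + 2 ρ wd F e + wd e e`, `|wd F e| ≤ 6 M ε (ρ + 1)`, `|wd e e| ≤ 6 ε² (ρ + 1)²`, and `ρ (ρ + 1) ≤ 2 (ρ² + 1)`, `(ρ + 1)² ≤ 2 (ρ² + 1)`, `ε² ≤ ε`: so `- wd Ψ Ψ ≥ ρ² f - ε (24 M + 12) (ρ² + 1)`. Similarly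
`ip Ψ Ψ = ρ² ip F F + 2 ρ ip F e + ip e e ≤ A ρ² f + ε (32 M + 16) (ρ² + 1)`. `b ρ² / π ≤ ρ² f + u ρ² ≤ ρ² f + 2 ε (ρ² + 1)` (`u ρ² ≤ ε (ρ² + 2 ρ)`). Integrate (all functions are continuous on `U3`). `1 = (∫ ρ)² ≤ (∫ ρ² / π) (∫ π)`: Cauchy-Schwarz, e.g. from `0 ≤ ∫ (ρ - t π)² / π = Z - 2 t + t² P` for `t = 1 / P`. `∫ (ρ² + 1) = 1 + ∫ ρ² ≤ Z P + m Z`.
-/

open MeasureTheory Set Metric Filter
open scoped ContDiff Topology

namespace Pool.Agent.Lib.DEn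

open Pool.Agent.P28b04d
open Pool.Agent.Lib.Psd (W hp ON3 fr cmp st asd sd nrm2 Pf Skew Conn Basic dd a0 c0 Mat form fs Tan tv cmpM NondegM pb)

namespace BIntAux

theorem wd_bd {A B : A4} {a b : ℝ} (ha : ∀ i j, |A i j| ≤ a) (hb : ∀ i j, |B i j| ≤ b) :
    |wd A B| ≤ 6 * (a * b) := by
  have h : ∀ i j k l, |A i j * B k l| ≤ a * b := by
    intro i j k l
    rw [abs_mul]
    exact mul_le_mul (ha i j) (hb k l) (abs_nonneg _) ((abs_nonneg _).trans (ha i j))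
  have h1 := abs_le.1 (h 0 1 2 3)
  have h2 := abs_le.1 (h 2 3 0 1)
  have h3 := abs_le.1 (h 0 2 1 3)
  have h4 := abs_le.1 (h 1 3 0 2)
  have h5 := abs_le.1 (h 0 3 1 2)
  have h6 := abs_le.1 (h 1 2 0 3)
  unfold wd
  rw [abs_le]
  constructor
  · linarith [h1.1, h2.1, h3.2, h4.2, h5.1, h6.1]
  · linarith [h1.2, h2.2, h3.1, h4.1, h5.2, h6.2]

theorem ip_bd {A B : A4} {a b : ℝ} (ha : ∀ i j, |A i j| ≤ a) (hb : ∀ i j, |B i j| ≤ b) :
    |ip A B| ≤ 8 * (a * b) := by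
  have h : ∀ i j k l, |A i j * B k l| ≤ a * b := by
    intro i j k l
    rw [abs_mul]
    exact mul_le_mul (ha i j) (hb k l) (abs_nonneg _) ((abs_nonneg _).trans (ha i j))
  have h1 : |∑ i, ∑ j, A i j * B i j| ≤ ∑ _i : Fin 4, ∑ _j : Fin 4, a * b :=
    (Finset.abs_sum_le_sum_abs _ _).trans (Finset.sum_le_sum fun i _ =>
      (Finset.abs_sum_le_sum_abs _ _).trans (Finset.sum_le_sum fun j _ => h i j i j))
  simp only [Finset.sum_const, Finset.card_univ, Fintype.card_fin, nsmul_eq_mul] at h1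
  push_cast at h1
  unfold ip
  rw [abs_div, abs_two]
  linarith

theorem wd_exp (F Ψ : A4) (r : ℝ) :
    wd Ψ Ψ = r ^ 2 * wd F F + 2 * r * wd F (fun i j => Ψ i j - F i j * r) +
      wd (fun i j => Ψ i j - F i j * r) (fun i j => Ψ i j - F i j * r) := by
  unfold wd
  ring

theorem ip_exp (F Ψ : A4) (r : ℝ) :
    ip Ψ Ψ = r ^ 2 * ip F F + 2 * r * ip F (fun i j => Ψ i j - F i j * r) +
      ip (fun i j => Ψ i j - F i j * r) (fun i j => Ψ i j - F i j * r) := by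
  simp only [ip, Fin.sum_univ_four]
  ring

theorem wd_pt {F Ψ : A4} {r M ε : ℝ} (hM : 0 ≤ M) (hε : 0 < ε) (hε1 : ε ≤ 1) (hr : 0 ≤ r)
    (hF : ∀ i j, |F i j| ≤ M) (he : ∀ i j, |Ψ i j - F i j * r| ≤ ε * (r + 1)) :
    -(r ^ 2 * wd F F) - ε * (32 * M + 16) * (r ^ 2 + 1) ≤ -wd Ψ Ψ := by
  rw [wd_exp F Ψ r]
  have h1 := (abs_le.1 (wd_bd (B := fun i j => Ψ i j - F i j * r) hF he)).2
  have h2 := (abs_le.1 (wd_bd (A := fun i j => Ψ i j - F i j * r)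
    (B := fun i j => Ψ i j - F i j * r) he he)).2
  have h3 : r * (r + 1) ≤ 2 * (r ^ 2 + 1) := by nlinarith [sq_nonneg (r - 1)]
  have h4 : (r + 1) * (r + 1) ≤ 2 * (r ^ 2 + 1) := by nlinarith [sq_nonneg (r - 1)]
  have h5 : 2 * r * wd F (fun i j => Ψ i j - F i j * r) ≤ 2 * r * (6 * (M * (ε * (r + 1)))) :=
    mul_le_mul_of_nonneg_left h1 (by linarith)
  have h6 : 2 * r * (6 * (M * (ε * (r + 1)))) ≤ 12 * (M * ε) * (2 * (r ^ 2 + 1)) := by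
    calc 2 * r * (6 * (M * (ε * (r + 1)))) = 12 * (M * ε) * (r * (r + 1)) := by ring
      _ ≤ _ := mul_le_mul_of_nonneg_left h3 (by positivity)
  have h7 : 6 * (ε * (r + 1) * (ε * (r + 1))) ≤ 6 * ε * (2 * (r ^ 2 + 1)) := by
    calc 6 * (ε * (r + 1) * (ε * (r + 1))) = 6 * (ε * ε) * ((r + 1) * (r + 1)) := by ring
      _ ≤ 6 * (ε * 1) * (2 * (r ^ 2 + 1)) := by
        apply mul_le_mul _ h4 (by positivity) (by positivity)
        exact mul_le_mul_of_nonneg_left (mul_le_mul_of_nonneg_left hε1 hε.le) (by norm_num)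
      _ = _ := by ring
  have h8 : 0 ≤ M * ε * (r ^ 2 + 1) := by positivity
  have h9 : 0 ≤ ε * (r ^ 2 + 1) := by positivity
  nlinarith [h1, h2, h5, h6, h7, h8, h9]

theorem ip_pt {F Ψ : A4} {r M ε A : ℝ} (hM : 0 ≤ M) (hε : 0 < ε) (hε1 : ε ≤ 1) (hr : 0 ≤ r)
    (hF : ∀ i j, |F i j| ≤ M) (he : ∀ i j, |Ψ i j - F i j * r| ≤ ε * (r + 1))
    (hip : ip F F ≤ -A * wd F F) :
    ip Ψ Ψ ≤ A * -(r ^ 2 * wd F F) + ε * (32 * M + 16) * (r ^ 2 + 1) := by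
  rw [ip_exp F Ψ r]
  have h1 := (abs_le.1 (ip_bd (B := fun i j => Ψ i j - F i j * r) hF he)).2
  have h2 := (abs_le.1 (ip_bd (A := fun i j => Ψ i j - F i j * r)
    (B := fun i j => Ψ i j - F i j * r) he he)).2
  have h3 : r * (r + 1) ≤ 2 * (r ^ 2 + 1) := by nlinarith [sq_nonneg (r - 1)]
  have h4 : (r + 1) * (r + 1) ≤ 2 * (r ^ 2 + 1) := by nlinarith [sq_nonneg (r - 1)]
  have h0 : r ^ 2 * ip F F ≤ r ^ 2 * (-A * wd F F) := mul_le_mul_of_nonneg_left hip (sq_nonneg r)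
  have h5 : 2 * r * ip F (fun i j => Ψ i j - F i j * r) ≤ 2 * r * (8 * (M * (ε * (r + 1)))) :=
    mul_le_mul_of_nonneg_left h1 (by linarith)
  have h6 : 2 * r * (8 * (M * (ε * (r + 1)))) ≤ 16 * (M * ε) * (2 * (r ^ 2 + 1)) := by
    calc 2 * r * (8 * (M * (ε * (r + 1)))) = 16 * (M * ε) * (r * (r + 1)) := by ring
      _ ≤ _ := mul_le_mul_of_nonneg_left h3 (by positivity)
  have h7 : 8 * (ε * (r + 1) * (ε * (r + 1))) ≤ 8 * ε * (2 * (r ^ 2 + 1)) := by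
    calc 8 * (ε * (r + 1) * (ε * (r + 1))) = 8 * (ε * ε) * ((r + 1) * (r + 1)) := by ring
      _ ≤ 8 * (ε * 1) * (2 * (r ^ 2 + 1)) := by
        apply mul_le_mul _ h4 (by positivity) (by positivity)
        exact mul_le_mul_of_nonneg_left (mul_le_mul_of_nonneg_left hε1 hε.le) (by norm_num)
      _ = _ := by ring
  have h10 : r ^ 2 * (-A * wd F F) = A * -(r ^ 2 * wd F F) := by ring
  have h11 : ε * (32 * M + 16) * (r ^ 2 + 1) =
      16 * (M * ε) * (2 * (r ^ 2 + 1)) + 8 * ε * (2 * (r ^ 2 + 1)) := by ring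
  rw [h11, ← h10]
  linarith

end BIntAux

open BIntAux

theorem est_int {ν : Measure X3} (hν : Ha ν) {F Ψ : X3 → A4} {ρ π u : X3 → ℝ} (hF : CtU F) (hΨ : CtU Ψ)
    (hρ : ContinuousOn ρ U3) (hπ : ContinuousOn π U3) (hu : ContinuousOn u U3) {A b M ε : ℝ}
    (hA : 0 < A) (hM : 0 ≤ M) (hε : 0 < ε) (hε1 : ε ≤ 1) (hρ0 : ∀ g ∈ U3, 0 ≤ ρ g)
    (hπ0 : ∀ g ∈ U3, 0 < π g) (hFM : ∀ g ∈ U3, ∀ i j, |F g i j| ≤ M)
    (he : ∀ g ∈ U3, ∀ i j, |Ψ g i j - F g i j * ρ g| ≤ ε * (ρ g + 1))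
    (hip : ∀ g ∈ U3, ip (F g) (F g) ≤ -A * wd (F g) (F g))
    (hub : ∀ g ∈ U3, b / π g ≤ u g - wd (F g) (F g)) (huρ : ∀ g ∈ U3, u g * ρ g ≤ ε * (ρ g + 2))
    (hint : ∫ g, ρ g ∂ν = 1) :
    0 ≤ -∫ g, ρ g ^ 2 * wd (F g) (F g) ∂ν ∧ 0 ≤ ∫ g, (ρ g ^ 2 + 1) ∂ν ∧
    (-∫ g, ρ g ^ 2 * wd (F g) (F g) ∂ν) - ε * (32 * M + 16) * ∫ g, (ρ g ^ 2 + 1) ∂ν ≤
      -∫ g, wd (Ψ g) (Ψ g) ∂ν ∧
    ∫ g, ip (Ψ g) (Ψ g) ∂ν ≤
      A * (-∫ g, ρ g ^ 2 * wd (F g) (F g) ∂ν) + ε * (32 * M + 16) * ∫ g, (ρ g ^ 2 + 1) ∂ν ∧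
    b * ∫ g, ρ g ^ 2 / π g ∂ν ≤
      (-∫ g, ρ g ^ 2 * wd (F g) (F g) ∂ν) + 2 * ε * ∫ g, (ρ g ^ 2 + 1) ∂ν ∧
    1 ≤ (∫ g, ρ g ^ 2 / π g ∂ν) * ∫ g, π g ∂ν ∧
    ∀ m : ℝ, (∀ g ∈ U3, π g ≤ m) →
      ∫ g, (ρ g ^ 2 + 1) ∂ν ≤ ((∫ g, π g ∂ν) + m) * ∫ g, ρ g ^ 2 / π g ∂ν := by
  have hPr := hν.prob
  have hff : ∀ g ∈ U3, 0 ≤ -wd (F g) (F g) := by
    intro g hg
    have h1 := (ip_nonneg (F g)).trans (hip g hg)
    have h2 : 0 ≤ A * -wd (F g) (F g) := by linarith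
    exact (mul_nonneg_iff_of_pos_left hA).1 h2
  have cW : ContinuousOn (fun g => ρ g ^ 2 * wd (F g) (F g)) U3 := (hρ.pow 2).mul (cont_wd hF hF)
  have cR : ContinuousOn (fun g => ρ g ^ 2 + 1) U3 := (hρ.pow 2).add continuousOn_const
  have cWP : ContinuousOn (fun g => wd (Ψ g) (Ψ g)) U3 := cont_wd hΨ hΨ
  have cIP : ContinuousOn (fun g => ip (Ψ g) (Ψ g)) U3 := cont_ip hΨ hΨ
  have cZ : ContinuousOn (fun g => ρ g ^ 2 / π g) U3 :=
    (hρ.pow 2).div hπ fun g hg => (hπ0 g hg).ne'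
  have iW := integrable_u hν cW
  have iR := integrable_u hν cR
  have iWP := integrable_u hν cWP
  have iIP := integrable_u hν cIP
  have iZ := integrable_u hν cZ
  have iP := integrable_u hν hπ
  have iρ := integrable_u hν hρ
  have iWn : Integrable (fun g => -(ρ g ^ 2 * wd (F g) (F g))) ν := iW.neg
  have iAW : Integrable (fun g => A * -(ρ g ^ 2 * wd (F g) (F g))) ν := iWn.const_mul A
  have iCR : ∀ c : ℝ, Integrable (fun g => c * (ρ g ^ 2 + 1)) ν := fun c => iR.const_mul c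
  have iρ2 : Integrable (fun g => ρ g ^ 2) ν := integrable_u hν (hρ.pow 2)
  have hCS : 1 ≤ (∫ g, ρ g ^ 2 / π g ∂ν) * ∫ g, π g ∂ν := by
    set Z := ∫ g, ρ g ^ 2 / π g ∂ν with hZ
    set P := ∫ g, π g ∂ν with hP
    have hq : ∀ t : ℝ, 0 ≤ Z - 2 * t + t ^ 2 * P := by
      intro t
      have e : ∫ g, (ρ g ^ 2 / π g - 2 * t * ρ g + t ^ 2 * π g) ∂ν = Z - 2 * t + t ^ 2 * P := by
        have e1 : ∫ g, (ρ g ^ 2 / π g - 2 * t * ρ g) ∂ν = Z - 2 * t := by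
          rw [integral_sub iZ (iρ.const_mul _), integral_const_mul, hint, mul_one]
        have e2 : Integrable (fun g => ρ g ^ 2 / π g - 2 * t * ρ g) ν := iZ.sub (iρ.const_mul _)
        rw [integral_add e2 (iP.const_mul _), integral_const_mul, e1]
      rw [← e]
      apply integral_nonneg_of_ae
      refine ae_u hν fun g hg => ?_
      have h1 := hπ0 g hg
      have e2 : ρ g ^ 2 / π g - 2 * t * ρ g + t ^ 2 * π g = (ρ g - t * π g) ^ 2 / π g := by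
        field_simp
        ring
      show 0 ≤ ρ g ^ 2 / π g - 2 * t * ρ g + t ^ 2 * π g
      rw [e2]
      positivity
    have hP0 : 0 ≤ P := integral_nonneg_of_ae (ae_u hν fun g hg => (hπ0 g hg).le)
    have hZ0 : 0 ≤ Z := integral_nonneg_of_ae (ae_u hν fun g hg => by
      have := hπ0 g hg
      show 0 ≤ ρ g ^ 2 / π g
      positivity)
    have hPpos : 0 < P := by
      rcases hP0.lt_or_eq with h | h
      · exact h
      · have h2 := hq (Z + 1)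
        rw [← h] at h2
        linarith
    have h3 := hq (1 / P)
    have h4 : Z - 2 * (1 / P) + (1 / P) ^ 2 * P = (Z * P - 1) / P := by
      field_simp
      ring
    rw [h4] at h3
    have h5 : 0 ≤ Z * P - 1 := by
      by_contra hc
      push Not at hc
      have := div_neg_of_neg_of_pos hc hPpos
      linarith
    linarith
  refine ⟨?_, ?_, ?_, ?_, ?_, hCS, ?_⟩
  · rw [← integral_neg]
    apply integral_nonneg_of_ae
    refine ae_u hν fun g hg => ?_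
    have h1 := mul_nonneg (sq_nonneg (ρ g)) (hff g hg)
    show 0 ≤ -(ρ g ^ 2 * wd (F g) (F g))
    linarith
  · apply integral_nonneg_of_ae
    refine ae_u hν fun g _ => ?_
    show 0 ≤ ρ g ^ 2 + 1
    positivity
  · rw [← integral_neg, ← integral_neg, ← integral_const_mul, ← integral_sub iWn (iCR _)]
    apply integral_mono_ae (iWn.sub (iCR _)) iWP.neg
    refine ae_u hν fun g hg => ?_
    exact wd_pt hM hε hε1 (hρ0 g hg) (hFM g hg) (he g hg)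
  · rw [← integral_neg, ← integral_const_mul, ← integral_const_mul,
      ← integral_add iAW (iCR _)]
    apply integral_mono_ae iIP (iAW.add (iCR _))
    refine ae_u hν fun g hg => ?_
    exact ip_pt hM hε hε1 (hρ0 g hg) (hFM g hg) (he g hg) (hip g hg)
  · rw [← integral_neg, ← integral_const_mul, ← integral_const_mul,
      ← integral_add iWn (iCR _)]
    apply integral_mono_ae (iZ.const_mul _) (iWn.add (iCR _))
    refine ae_u hν fun g hg => ?_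
    show b * (ρ g ^ 2 / π g) ≤ -(ρ g ^ 2 * wd (F g) (F g)) + 2 * ε * (ρ g ^ 2 + 1)
    have h1 := mul_le_mul_of_nonneg_left (hub g hg) (sq_nonneg (ρ g))
    have h2 := mul_le_mul_of_nonneg_right (huρ g hg) (hρ0 g hg)
    have h3 : b * (ρ g ^ 2 / π g) = ρ g ^ 2 * (b / π g) := by ring
    have h4 : ε * (ρ g + 2) * ρ g ≤ 2 * ε * (ρ g ^ 2 + 1) := by
      have : 0 ≤ ε * ((ρ g - 1) ^ 2 + 1) := by positivity
      nlinarith
    rw [h3]
    nlinarith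
  · intro m hm
    have e1 : ∫ g, (ρ g ^ 2 + 1) ∂ν = (∫ g, ρ g ^ 2 ∂ν) + 1 := by
      rw [integral_add iρ2 (integrable_const 1)]
      simp
    have e2 : ∫ g, ρ g ^ 2 ∂ν ≤ m * ∫ g, ρ g ^ 2 / π g ∂ν := by
      rw [← integral_const_mul]
      apply integral_mono_ae iρ2 (iZ.const_mul _)
      refine ae_u hν fun g hg => ?_
      show ρ g ^ 2 ≤ m * (ρ g ^ 2 / π g)
      have h1 := hπ0 g hg
      have h2 : ρ g ^ 2 = π g * (ρ g ^ 2 / π g) := by field_simp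
      calc ρ g ^ 2 = π g * (ρ g ^ 2 / π g) := h2
        _ ≤ m * (ρ g ^ 2 / π g) := mul_le_mul_of_nonneg_right (hm g hg) (by positivity)
    rw [e1]
    nlinarith [hCS, e2]

end Pool.Agent.Lib.DEn
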