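import Pool.Agent.Lib.DEn.DefsB
import Pool.Agent.Lib.DEn.BConc

set_option autoImplicit false
set_option maxSynthPendingDepth 3

/-!
# The concentrated densities  (1.2 h)

`pk k z`: smooth off `0` (`hp (k 0)` is real linear in `z`, `nsq z > 0`: `nsq_pos`), `pk k (c z) = pk k z`, `0 ≤ pk k (g 0) ≤ 1` for `k, g ∈ U3` (Cauchy-Schwarz; `nsq (g 0) = 1`), `pk k (k 0) = 1`, and `pk k (g 0) = 1` only if `g 0 = c • k 0` with `|c| = 1`, `c = hp (k 0) (g 0)` (`nsq (g 0 - c k 0) = nsq (g 0) - |c|² = 0`). `∫ pk k (g 0) ^ L > 0` (`tail_h`).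
`mu_lim`: `conc` with `h g = pk k (g 0)`, `f g = q (g 0)`, `a = q (k 0)` (`q` is homogeneous), for each `k ∈ s`.
-/

open MeasureTheory Set Metric Filter
open scoped ContDiff Topology

namespace Pool.Agent.Lib.DEn

open Pool.Agent.P28b04d
open Pool.Agent.Lib.Psd (W hp ON3 fr cmp st asd sd nrm2 Pf Skew Conn Basic dd a0 c0 Mat form fs Tan tv cmpM NondegM pb)

namespace BMuAux

theorem hp_smul_r (c : ℂ) (z v : W) : hp z (c • v) = c * hp z v :=
  Psd.ConnBAux.hp_smul_right c z v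

theorem pk_hom (k : X3) {c : ℂ} (hc : c ≠ 0) (z : W) : pk k (c • z) = pk k z := by
  unfold pk
  rw [hp_smul_r, Complex.normSq_mul, nsq_smul,
    mul_div_mul_left _ _ (by simpa using hc : Complex.normSq c ≠ 0)]

theorem pk_smooth (k : X3) : ContDiffOn ℝ ∞ (pk k) {0}ᶜ := by
  have e : (fun z : W => Complex.normSq (hp (k 0) z)) =
      fun z : W => (hp (k 0) z).re * (hp (k 0) z).re + (hp (k 0) z).im * (hp (k 0) z).im := by
    funext z
    rfl
  have h0 : ContDiff ℝ ∞ (fun z : W => hp (k 0) z) := by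
    unfold hp
    exact ContDiff.sum fun j _ => contDiff_const.mul (contDiff_apply ℝ ℂ j)
  have h1 : ContDiff ℝ ∞ (fun z : W => (hp (k 0) z).re) := Complex.reCLM.contDiff.comp h0
  have h2 : ContDiff ℝ ∞ (fun z : W => (hp (k 0) z).im) := Complex.imCLM.contDiff.comp h0
  have h3 : ContDiff ℝ ∞ (fun z : W => Complex.normSq (hp (k 0) z)) := by
    rw [e]
    exact (h1.mul h1).add (h2.mul h2)
  exact h3.contDiffOn.div Psd.ConnBAux.contDiff_nsq.contDiffOn fun z hz => (nsq_pos hz).ne'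

theorem pk_nonneg (k : X3) (z : W) : 0 ≤ pk k z :=
  div_nonneg (Complex.normSq_nonneg _) (nsq_nonneg z)

/-- `|z - <u, z> u|² = |z|² - |<u, z>|²` for a unit vector `u` -/
theorem nsq_sub {u : W} (hu : hp u u = 1) (z : W) :
    nsq (z - hp u z • u) = nsq z - Complex.normSq (hp u z) := by
  have h1 : ((nsq (z - hp u z • u) : ℝ) : ℂ) = (nsq z : ℂ) - (Complex.normSq (hp u z) : ℂ) := by
    rw [← Psd.ConnBAux.hp_self, ← Psd.ConnBAux.hp_self]
    have h2 : hp (z - hp u z • u) (z - hp u z • u) = hp z z - hp u z * hp z u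
        - star (hp u z) * hp u z + star (hp u z) * hp u z * hp u u := by
      have e : ∀ c : ℂ, hp (z - c • u) (z - c • u) = hp z z - c * hp z u
          - star c * hp u z + star c * c * hp u u := by
        intro c
        unfold hp
        simp only [Finset.mul_sum, ← Finset.sum_sub_distrib, ← Finset.sum_add_distrib]
        refine Finset.sum_congr rfl fun j _ => ?_
        simp only [Pi.sub_apply, Pi.smul_apply, smul_eq_mul, star_sub, star_mul']
        ring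
      exact e (hp u z)
    rw [h2, hu, mul_one, Psd.ConnBAux.hp_conj u z, Complex.normSq_eq_conj_mul_self]
    show _ = _ - star (hp u z) * hp u z
    ring
  exact_mod_cast h1

theorem hp_one {k : X3} (hk : k ∈ U3) : hp (k 0) (k 0) = 1 := by
  have := hk 0 0
  simpa using this

theorem pk_unit {k g : X3} (hg : g ∈ U3) : pk k (g 0) = Complex.normSq (hp (k 0) (g 0)) := by
  unfold pk
  rw [nsq_col hg 0, div_one]

theorem pk_le {k g : X3} (hk : k ∈ U3) (hg : g ∈ U3) : pk k (g 0) ≤ 1 := by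
  have h1 := nsq_sub (hp_one hk) (g 0)
  have h2 := nsq_nonneg (g 0 - hp (k 0) (g 0) • k 0)
  rw [pk_unit hg]
  rw [h1, nsq_col hg 0] at h2
  linarith

theorem pk_self {k : X3} (hk : k ∈ U3) : pk k (k 0) = 1 := by
  rw [pk_unit hk, hp_one hk]
  simp

theorem pk_eq_one {k g : X3} (hk : k ∈ U3) (hg : g ∈ U3) (h : pk k (g 0) = 1) :
    ∃ c : ℂ, c ≠ 0 ∧ g 0 = c • k 0 := by
  have h1 := nsq_sub (hp_one hk) (g 0)
  rw [pk_unit hg] at h
  rw [nsq_col hg 0, h, sub_self] at h1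
  have h2 : g 0 - hp (k 0) (g 0) • k 0 = 0 := by
    by_contra h3
    exact (nsq_pos h3).ne' h1
  refine ⟨hp (k 0) (g 0), ?_, sub_eq_zero.1 h2⟩
  intro h3
  rw [h3] at h
  simp at h

theorem col_cont {q : W → ℝ} (hq : ContinuousOn q {0}ᶜ) : ContinuousOn (fun g : X3 => q (g 0)) U3 :=
  hq.comp (continuous_apply 0).continuousOn fun _ hg => col_ne hg 0

theorem pk_cont (k : X3) : ContinuousOn (fun g : X3 => pk k (g 0)) U3 :=
  col_cont (pk_smooth k).continuousOn

theorem pk_int {ν : Measure X3} (hν : Ha ν) {k : X3} (hk : k ∈ U3) (L : ℕ) :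
    0 < ∫ g, pk k (g 0) ^ L ∂ν :=
  (tail_h hν (pk_cont k) (fun g _ => pk_nonneg k (g 0)) hk (pk_self hk) (le_refl (0 : ℝ))
    zero_lt_one).1 L

end BMuAux

open BMuAux

theorem mu_hom (ν : Measure X3) (L : ℕ) (s : Finset X3) (w : X3 → ℝ) :
    ∀ c : ℂ, c ≠ 0 → ∀ z : W, z ≠ 0 → muW ν L s w (c • z) = muW ν L s w z := by
  intro c hc z _
  unfold muW
  exact Finset.sum_congr rfl fun k _ => by rw [pk_hom k hc z]

theorem mu_smooth (ν : Measure X3) (L : ℕ) (s : Finset X3) (w : X3 → ℝ) :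
    ContDiffOn ℝ ∞ (muW ν L s w) {0}ᶜ := by
  unfold muW
  exact ContDiffOn.sum fun k _ => contDiffOn_const.mul (((pk_smooth k).pow L).div_const _)

theorem mu_nonneg {ν : Measure X3} (hν : Ha ν) (L : ℕ) {s : Finset X3} {w : X3 → ℝ} (hs : ∀ k ∈ s, k ∈ U3)
    (hw : ∀ k ∈ s, 0 ≤ w k) : ∀ g ∈ U3, 0 ≤ muW ν L s w (g 0) := by
  intro g _
  unfold muW
  refine Finset.sum_nonneg fun k hk => mul_nonneg (hw k hk) ?_
  exact div_nonneg (pow_nonneg (pk_nonneg k _) L) (pk_int hν (hs k hk) L).le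

theorem mu_int {ν : Measure X3} (hν : Ha ν) (L : ℕ) {s : Finset X3} {w : X3 → ℝ} (hs : ∀ k ∈ s, k ∈ U3)
    (h1 : ∑ k ∈ s, w k = 1) : ∫ g, muW ν L s w (g 0) ∂ν = 1 := by
  unfold muW
  have hi : ∀ k ∈ s, Integrable (fun g : X3 =>
      w k * (pk k (g 0) ^ L / ∫ g, pk k (g 0) ^ L ∂ν)) ν := by
    intro k _
    have h2 : ContinuousOn (fun g : X3 => pk k (g 0) ^ L) U3 := (pk_cont k).pow L
    exact ((integrable_u hν h2).div_const _).const_mul (w k)
  rw [integral_finsetSum _ hi, ← h1]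
  refine Finset.sum_congr rfl fun k hk => ?_
  rw [integral_const_mul, integral_div, div_self (pk_int hν (hs k hk) L).ne', mul_one]

theorem mu_lim {ν : Measure X3} (hν : Ha ν) {s : Finset X3} (w : X3 → ℝ) (hs : ∀ k ∈ s, k ∈ U3)
    {q : W → ℝ} (hq : ContinuousOn q {0}ᶜ) (hh : ∀ c : ℂ, c ≠ 0 → ∀ z : W, z ≠ 0 → q (c • z) = q z) :
    Tendsto (fun L : ℕ => ∫ g, muW ν L s w (g 0) * q (g 0) ∂ν) atTop (𝓝 (∑ k ∈ s, w k * q (k 0))) := by
  have e : (fun L : ℕ => ∫ g, muW ν L s w (g 0) * q (g 0) ∂ν) = fun L : ℕ => ∑ k ∈ s,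
      w k * ((∫ g, pk k (g 0) ^ L ∂ν)⁻¹ * ∫ g, pk k (g 0) ^ L * q (g 0) ∂ν) := by
    funext L
    have h1 : ∀ g : X3, muW ν L s w (g 0) * q (g 0) = ∑ k ∈ s,
        (w k * (∫ g, pk k (g 0) ^ L ∂ν)⁻¹) * (pk k (g 0) ^ L * q (g 0)) := by
      intro g
      unfold muW
      rw [Finset.sum_mul]
      refine Finset.sum_congr rfl fun k _ => ?_
      rw [div_eq_mul_inv]
      ring
    simp only [h1]
    have hi : ∀ k ∈ s, Integrable (fun g : X3 =>
        (w k * (∫ g, pk k (g 0) ^ L ∂ν)⁻¹) * (pk k (g 0) ^ L * q (g 0))) ν := by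
      intro k _
      have h2 : ContinuousOn (fun g : X3 => pk k (g 0) ^ L * q (g 0)) U3 :=
        ((pk_cont k).pow L).mul (col_cont hq)
      exact (integrable_u hν h2).const_mul _
    rw [integral_finsetSum _ hi]
    refine Finset.sum_congr rfl fun k _ => ?_
    rw [integral_const_mul, mul_assoc]
  rw [e]
  refine tendsto_finsetSum _ fun k hk => Tendsto.const_mul _ ?_
  refine conc hν (pk_cont k) (fun g _ => pk_nonneg k (g 0)) (fun g hg => pk_le (hs k hk) hg)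
    (hs k hk) (pk_self (hs k hk)) (col_cont hq) fun g hg h => ?_
  obtain ⟨c, hc, hgc⟩ := pk_eq_one (hs k hk) hg h
  rw [hgc]
  exact hh c hc _ (col_ne (hs k hk) 0)

end Pool.Agent.Lib.DEn
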