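import Pool.Agent.Lib.DEn.BConc

set_option autoImplicit false
set_option maxSynthPendingDepth 3

/-!
# Convolution nearly commutes with multiplication  (1 h)

`near`: let `q g h = (3 + Re ∑_j hp (g j) (h j)) / 6`, continuous, `0 ≤ q ≤ 1` on `U3 × U3`, `q g h = 1` only if `g = h` (`∑_j nsq (g j - h j) = 6 - 2 Re ∑_j hp (g j) (h j)`), `kN N g h = q g h ^ N`. The compact set `{(g, h) ∈ U3 × U3 | ε ≤ |f h - f g|}` does not meet the diagonal, so `q ≤ r < 1` on it. Then `Cv N (μ f) g - f g * Cv N μ g = (cN)⁻¹ ∫ kN N g h * μ h * (f h - f g) dν(h)`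
(integrability: all functions are continuous on `U3`) and the integrand is at most `ε * kN N g h * μ h + 2 M r^N μ h` in absolute value (`|f| ≤ M` on `U3`), so the difference is at most `ε Cv N μ g + 2 M r^N / cN`, and `2 M r^N / cN ≤ ε` for large `N` (`tail_c`). `near4`: `near` for the 16 entries of `F` (maximum of the `N₀`). `Cv_small`: `0 ≤ kN ≤ 1`. `Cv_one`: Fubini or
`Cv_self` with the constant function `1` (`Cv ν N 1 = 1` on `U3` by `int_kN`). `Cv_nonneg`: clear.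
-/

open MeasureTheory Set Metric Filter
open scoped ContDiff Topology

namespace Pool.Agent.Lib.DEn

open Pool.Agent.P28b04d
open Pool.Agent.Lib.Psd (W hp ON3 fr cmp st asd sd nrm2 Pf Skew Conn Basic dd a0 c0 Mat form fs Tan tv cmpM NondegM pb)

namespace BNearAux

/-- the base of the kernel -/
noncomputable def q (p : X3 × X3) : ℝ := (3 + (∑ j, hp (p.1 j) (p.2 j)).re) / 6

theorem kN_eq (N : ℕ) (g h : X3) : kN N g h = q (g, h) ^ N := rfl

theorem q_cont : Continuous q := by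
  unfold q hp
  fun_prop

theorem q_nonneg {g h : X3} (hg : g ∈ U3) (hh : h ∈ U3) : 0 ≤ q (g, h) := by
  have h1 := kN_nonneg 1 hg hh
  rw [kN_eq, pow_one] at h1
  exact h1

theorem q_le {g h : X3} (hg : g ∈ U3) (hh : h ∈ U3) : q (g, h) ≤ 1 := by
  have h1 := kN_le 1 hg hh
  rw [kN_eq, pow_one] at h1
  exact h1

theorem eq_of_re {z w : W} (hz : hp z z = 1) (hw : hp w w = 1) (h : (hp z w).re = 1) : z = w := by
  have h1 : ∑ k, ((z k).re * (z k).re + (z k).im * (z k).im) = 1 := by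
    rw [← KerAux.hp_re, hz, Complex.one_re]
  have h2 : ∑ k, ((w k).re * (w k).re + (w k).im * (w k).im) = 1 := by
    rw [← KerAux.hp_re, hw, Complex.one_re]
  have h3 : ∑ k, ((z k).re * (w k).re + (z k).im * (w k).im) = 1 := by
    rw [← KerAux.hp_re, h]
  have h4 : ∑ k, (((z k).re - (w k).re) ^ 2 + ((z k).im - (w k).im) ^ 2) = 0 := by
    have e : ∀ k, ((z k).re - (w k).re) ^ 2 + ((z k).im - (w k).im) ^ 2 =
        ((z k).re * (z k).re + (z k).im * (z k).im) + ((w k).re * (w k).re + (w k).im * (w k).im)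
          - 2 * ((z k).re * (w k).re + (z k).im * (w k).im) := by
      intro k
      ring
    rw [Finset.sum_congr rfl fun k _ => e k, Finset.sum_sub_distrib, Finset.sum_add_distrib,
      ← Finset.mul_sum, h1, h2, h3]
    norm_num
  rw [Finset.sum_eq_zero_iff_of_nonneg fun k _ => by positivity] at h4
  funext k
  have h5 := h4 k (Finset.mem_univ _)
  apply Complex.ext
  · nlinarith [sq_nonneg ((z k).re - (w k).re), sq_nonneg ((z k).im - (w k).im)]
  · nlinarith [sq_nonneg ((z k).re - (w k).re), sq_nonneg ((z k).im - (w k).im)]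

theorem eq_of_q {g h : X3} (hg : g ∈ U3) (hh : h ∈ U3) (h1 : q (g, h) = 1) : g = h := by
  have hg1 : ∀ j, hp (g j) (g j) = 1 := by
    intro j
    have := hg j j
    simpa using this
  have hh1 : ∀ j, hp (h j) (h j) = 1 := by
    intro j
    have := hh j j
    simpa using this
  have hle : ∀ j, (hp (g j) (h j)).re ≤ 1 := fun j =>
    (le_abs_self _).trans (KerAux.hp_re_abs (hg1 j) (hh1 j))
  have h2 : ∑ j, (hp (g j) (h j)).re = 3 := by
    have h3 : (3 + (∑ j, hp (g j) (h j)).re) / 6 = 1 := h1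
    rw [Complex.re_sum] at h3
    linarith
  have h4 : ∑ j, (1 - (hp (g j) (h j)).re) = 0 := by
    rw [Finset.sum_sub_distrib, h2]
    simp
  rw [Finset.sum_eq_zero_iff_of_nonneg fun j _ => by linarith [hle j]] at h4
  funext j
  have h5 := h4 j (Finset.mem_univ _)
  exact eq_of_re (hg1 j) (hh1 j) (by linarith)

/-- the kernel is small where `f` oscillates -/
theorem exists_r {f : X3 → ℝ} (hf : ContinuousOn f U3) {ε : ℝ} (hε : 0 < ε) :
    ∃ r : ℝ, 0 ≤ r ∧ r < 1 ∧ ∀ g ∈ U3, ∀ h ∈ U3, ε ≤ |f h - f g| → q (g, h) ≤ r := by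
  let F : X3 × X3 → ℝ := fun p => |f p.2 - f p.1|
  have hF : ContinuousOn F (U3 ×ˢ U3) := by
    refine ContinuousOn.abs ?_
    refine ContinuousOn.sub ?_ ?_
    · exact hf.comp continuous_snd.continuousOn fun p hp => hp.2
    · exact hf.comp continuous_fst.continuousOn fun p hp => hp.1
  have hcp : IsCompact (U3 ×ˢ U3 : Set (X3 × X3)) := isCompact_U3.prod isCompact_U3
  let K : Set (X3 × X3) := (U3 ×ˢ U3) ∩ F ⁻¹' Ici ε
  have hK : IsCompact K := by
    have hcl : IsClosed K := hF.preimage_isClosed_of_isClosed hcp.isClosed isClosed_Ici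
    exact hcp.of_isClosed_subset hcl inter_subset_left
  rcases K.eq_empty_or_nonempty with hE | hne
  · refine ⟨0, le_refl _, one_pos, fun g hg h hh h1 => ?_⟩
    have : (g, h) ∈ K := ⟨⟨hg, hh⟩, h1⟩
    rw [hE] at this
    exact absurd this (notMem_empty _)
  · obtain ⟨p, hpK, hmax⟩ := hK.exists_isMaxOn hne q_cont.continuousOn
    refine ⟨q p, q_nonneg hpK.1.1 hpK.1.2, ?_, fun g hg h hh h1 => ?_⟩
    · refine lt_of_le_of_ne (q_le hpK.1.1 hpK.1.2) (fun h1 => ?_)
      have h2 := eq_of_q hpK.1.1 hpK.1.2 h1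
      have h3 : ε ≤ |f p.2 - f p.1| := hpK.2
      rw [h2, sub_self, abs_zero] at h3
      linarith
    · exact hmax (⟨⟨hg, hh⟩, h1⟩ : (g, h) ∈ K)

end BNearAux

open BNearAux

theorem near {ν : Measure X3} (hν : Ha ν) {f : X3 → ℝ} (hf : ContinuousOn f U3) {ε : ℝ} (hε : 0 < ε) :
    ∃ N₀ : ℕ, ∀ N ≥ N₀, ∀ μ : X3 → ℝ, ContinuousOn μ U3 → (∀ g ∈ U3, 0 ≤ μ g) → ∫ g, μ g ∂ν = 1 →
      ∀ g ∈ U3, |Cv ν N (fun h => μ h * f h) g - f g * Cv ν N μ g| ≤ ε * (Cv ν N μ g + 1) := by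
  have := hν.prob
  obtain ⟨r, hr0, hr1, hr⟩ := exists_r hf hε
  obtain ⟨M, hM⟩ := isCompact_U3.exists_bound_of_continuousOn hf
  have hM0 : 0 ≤ M := (norm_nonneg _).trans (hM id3 id3_mem)
  have ht := (tail_c hν hr0 hr1).const_mul (2 * M)
  rw [mul_zero] at ht
  obtain ⟨N₀, hN₀⟩ := eventually_atTop.1 (ht.eventually_lt_const hε)
  refine ⟨N₀, fun N hN μ hμ hμ0 hμ1 g hg => ?_⟩
  have hc := cN_pos hν N
  have hsmall : 2 * M * (r ^ N / cN ν N) < ε := hN₀ N hN
  have hi1 : Integrable (fun h => kN N g h * μ h) ν := integrable_u hν (KerAux.cont_g N g hμ)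
  have hi2 : Integrable (fun h => kN N g h * (μ h * f h)) ν :=
    integrable_u hν (KerAux.cont_g N g (hμ.mul hf))
  have hiμ : Integrable μ ν := integrable_u hν hμ
  have e1 : Cv ν N (fun h => μ h * f h) g - f g * Cv ν N μ g =
      (cN ν N)⁻¹ * ∫ h, kN N g h * μ h * (f h - f g) ∂ν := by
    have e2 : (fun h => kN N g h * μ h * (f h - f g)) = fun h =>
        kN N g h * (μ h * f h) - f g * (kN N g h * μ h) := by
      funext h
      ring
    rw [e2, integral_sub hi2 (hi1.const_mul _), integral_const_mul]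
    unfold Cv
    ring
  have hb : ∀ h ∈ U3, |kN N g h * μ h * (f h - f g)| ≤
      ε * (kN N g h * μ h) + 2 * M * r ^ N * μ h := by
    intro h hh
    have hk0 := kN_nonneg N hg hh
    have hμh := hμ0 h hh
    rw [abs_mul, abs_of_nonneg (mul_nonneg hk0 hμh)]
    rcases le_or_gt ε |f h - f g| with h1 | h1
    · have h2 : kN N g h ≤ r ^ N := by
        rw [kN_eq]
        exact pow_le_pow_left₀ (q_nonneg hg hh) (hr g hg h hh h1) N
      have h3 : |f h - f g| ≤ 2 * M := by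
        have h4 := hM h hh
        have h5 := hM g hg
        rw [Real.norm_eq_abs] at h4 h5
        calc |f h - f g| ≤ |f h| + |f g| := abs_sub _ _
          _ ≤ 2 * M := by linarith
      have h6 : 0 ≤ ε * (kN N g h * μ h) := by positivity
      have h7 : kN N g h * μ h * |f h - f g| ≤ r ^ N * μ h * (2 * M) :=
        mul_le_mul (mul_le_mul_of_nonneg_right h2 hμh) h3 (abs_nonneg _) (by positivity)
      linarith
    · have h6 : 0 ≤ 2 * M * r ^ N * μ h := by positivity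
      have h7 : kN N g h * μ h * |f h - f g| ≤ kN N g h * μ h * ε :=
        mul_le_mul_of_nonneg_left h1.le (mul_nonneg hk0 hμh)
      linarith
  have h8 : |∫ h, kN N g h * μ h * (f h - f g) ∂ν| ≤
      ε * (∫ h, kN N g h * μ h ∂ν) + 2 * M * r ^ N := by
    have hi3 : Integrable (fun h => ε * (kN N g h * μ h) + 2 * M * r ^ N * μ h) ν :=
      (hi1.const_mul _).add (hiμ.const_mul _)
    calc |∫ h, kN N g h * μ h * (f h - f g) ∂ν|
        ≤ ∫ h, |kN N g h * μ h * (f h - f g)| ∂ν := abs_integral_le_integral_abs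
      _ ≤ ∫ h, (ε * (kN N g h * μ h) + 2 * M * r ^ N * μ h) ∂ν := by
          refine integral_mono_ae ?_ hi3 (ae_u hν hb)
          have hc1 : ContinuousOn (fun h => kN N g h * μ h * (f h - f g)) U3 :=
            (KerAux.cont_g N g hμ).mul (hf.sub continuousOn_const)
          exact (integrable_u hν hc1).abs
      _ = _ := by
          rw [integral_add (hi1.const_mul _) (hiμ.const_mul _), integral_const_mul,
            integral_const_mul, hμ1, mul_one]
  rw [e1, abs_mul, abs_of_pos (inv_pos.2 hc)]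
  calc (cN ν N)⁻¹ * |∫ h, kN N g h * μ h * (f h - f g) ∂ν|
      ≤ (cN ν N)⁻¹ * (ε * (∫ h, kN N g h * μ h ∂ν) + 2 * M * r ^ N) :=
        mul_le_mul_of_nonneg_left h8 (inv_nonneg.2 hc.le)
    _ = ε * Cv ν N μ g + 2 * M * (r ^ N / cN ν N) := by
        unfold Cv
        ring
    _ ≤ ε * (Cv ν N μ g + 1) := by linarith

theorem near4 {ν : Measure X3} (hν : Ha ν) {F : X3 → A4} (hF : CtU F) {ε : ℝ} (hε : 0 < ε) :
    ∃ N₀ : ℕ, ∀ N ≥ N₀, ∀ μ : X3 → ℝ, ContinuousOn μ U3 → (∀ g ∈ U3, 0 ≤ μ g) → ∫ g, μ g ∂ν = 1 →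
      ∀ g ∈ U3, ∀ i j, |C4 ν N (fun h => μ h • F h) g i j - F g i j * Cv ν N μ g| ≤
        ε * (Cv ν N μ g + 1) := by
  have h1 : ∀ i j : Fin 4, ∃ N₀ : ℕ, ∀ N ≥ N₀, ∀ μ : X3 → ℝ, ContinuousOn μ U3 →
      (∀ g ∈ U3, 0 ≤ μ g) → ∫ g, μ g ∂ν = 1 →
      ∀ g ∈ U3, |Cv ν N (fun h => μ h * F h i j) g - F g i j * Cv ν N μ g| ≤
        ε * (Cv ν N μ g + 1) := fun i j => near hν (hF i j) hε
  choose N₀ hN₀ using h1
  refine ⟨∑ i, ∑ j, N₀ i j, fun N hN μ hμ hμ0 hμ1 g hg i j => ?_⟩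
  have h2 : N₀ i j ≤ N := by
    refine le_trans ?_ hN
    refine le_trans ?_ (Finset.single_le_sum (f := fun i => ∑ j, N₀ i j)
      (fun i _ => Nat.zero_le _) (Finset.mem_univ i))
    exact Finset.single_le_sum (f := fun j => N₀ i j) (fun j _ => Nat.zero_le _)
      (Finset.mem_univ j)
  exact hN₀ i j N h2 μ hμ hμ0 hμ1 g hg

theorem Cv_small {ν : Measure X3} (hν : Ha ν) (N : ℕ) {f : X3 → ℝ} (hf : ContinuousOn f U3)
    (h0 : ∀ g ∈ U3, 0 ≤ f g) : ∀ g ∈ U3, Cv ν N f g ≤ (cN ν N)⁻¹ * ∫ h, f h ∂ν := by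
  intro g hg
  have hc := cN_pos hν N
  unfold Cv
  refine mul_le_mul_of_nonneg_left ?_ (inv_nonneg.2 hc.le)
  refine integral_mono_ae (integrable_u hν (KerAux.cont_g N g hf)) (integrable_u hν hf)
    (ae_u hν fun h hh => ?_)
  exact mul_le_of_le_one_left (h0 h hh) (kN_le N hg hh)

theorem Cv_one {ν : Measure X3} (hν : Ha ν) (N : ℕ) {f : X3 → ℝ} (hf : ContinuousOn f U3) :
    ∫ g, Cv ν N f g ∂ν = ∫ g, f g ∂ν := by
  have hc := cN_pos hν N
  have h6 := Cv_self hν N hf (continuousOn_const (c := (1 : ℝ)))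
  simp only [mul_one] at h6
  rw [h6]
  refine integral_congr_u hν fun g hg => ?_
  have h7 : Cv ν N (fun _ => (1 : ℝ)) g = 1 := by
    unfold Cv
    simp only [mul_one]
    rw [int_kN hν N hg, inv_mul_cancel₀ hc.ne']
  rw [h7, mul_one]

theorem Cv_nonneg {ν : Measure X3} (hν : Ha ν) (N : ℕ) {f : X3 → ℝ} (h0 : ∀ g ∈ U3, 0 ≤ f g) :
    ∀ g ∈ U3, 0 ≤ Cv ν N f g := by
  intro g hg
  have hc := cN_pos hν N
  unfold Cv
  refine mul_nonneg (inv_nonneg.2 hc.le) ?_
  exact integral_nonneg_of_ae (ae_u hν fun h hh => mul_nonneg (kN_nonneg N hg hh) (h0 h hh))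

end Pool.Agent.Lib.DEn
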