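import Pool.Agent.Lib.DEn.Defs

set_option autoImplicit false
set_option maxSynthPendingDepth 3

/-!
# A numerical lemma, second form  (0.7 h)

Let `ε ≤ κ / 8`. From `2 ≤ Y`: `κ Y / 2 ≤ κ (Y - 1) ≤ X + 2 ε Y`, so `Y (κ / 2 - 2 ε) ≤ X`, `Y ≤ 4 X / κ` and `X ≥ κ / 2`. With `θ = 4 ε D / κ`: `ε D Y ≤ θ X`, so `X (1 - θ) ≤ 2 G √((A + θ) X)` with `G = max 0 ((σ + 2 ε) / √H) ≤ (√(I X) + 5 ε) / √H`, hence `√X (1 - θ) √H ≤ 2 √(A + θ) (√I √X + 5 ε)`, i.e.
`√X ((1 - θ) √H - 2 √(A + θ) √I) ≤ 10 ε √(A + θ)`, and `√X ≥ √(κ / 2)`. As `ε → 0` the bracket tends to `√H - 2 √(A I) > 0` (`hH`) and the right side to `0`: false for small `ε > 0` (continuity at `ε = 0`).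
-/

open MeasureTheory Set Metric Filter
open scoped ContDiff Topology

namespace Pool.Agent.Lib.DEn

open Pool.Agent.P28b04d
open Pool.Agent.Lib.Psd (W hp ON3 fr cmp st asd sd nrm2 Pf Skew Conn Basic dd a0 c0 Mat form fs Tan tv cmpM NondegM pb)

theorem est_real2 {A H I κ D : ℝ} (hA : 0 < A) (hκ : 0 < κ) (hI : 0 ≤ I) (hD : 0 ≤ D)
    (hH : 4 * A * I < H) :
    ∃ ε : ℝ, 0 < ε ∧ ε ≤ 1 ∧ ∀ X Y σ : ℝ, 0 ≤ X → 2 ≤ Y →
      X - ε * D * Y ≤ 2 * ((σ + 2 * ε) / Real.sqrt H) * Real.sqrt (A * X + ε * D * Y) →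
      κ * (Y - 1) ≤ X + 2 * ε * Y → σ ≤ Real.sqrt (I * X) + 3 * ε → False := by
  have hH0 : 0 < H := lt_of_le_of_lt (by positivity) hH
  have hsH : 0 < Real.sqrt H := Real.sqrt_pos.2 hH0
  set Φ : ℝ → ℝ := fun ε => Real.sqrt (κ / 2) * ((1 - 4 * ε * D / κ) * Real.sqrt H -
    2 * Real.sqrt (A + 4 * ε * D / κ) * Real.sqrt I) - 10 * ε * Real.sqrt (A + 4 * ε * D / κ) with hΦ
  have hΦc : Continuous Φ := by
    simp only [hΦ]
    fun_prop
  have hΦ0 : 0 < Φ 0 := by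
    have h1 : 2 * Real.sqrt A * Real.sqrt I < Real.sqrt H := by
      refine Real.lt_sqrt_of_sq_lt ?_
      rw [mul_pow, mul_pow, Real.sq_sqrt hA.le, Real.sq_sqrt hI]
      linarith
    have h2 : 0 < Real.sqrt (κ / 2) := Real.sqrt_pos.2 (by positivity)
    have h3 : Φ 0 = Real.sqrt (κ / 2) * (Real.sqrt H - 2 * Real.sqrt A * Real.sqrt I) := by
      simp only [hΦ, mul_zero, zero_mul, zero_div, sub_zero, add_zero, one_mul]
    rw [h3]
    exact mul_pos h2 (by linarith)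
  have hev : ∀ᶠ ε in 𝓝 (0 : ℝ), 0 < Φ ε := 
    (hΦc.tendsto 0).eventually (lt_mem_nhds hΦ0)
  obtain ⟨r, hr, hball⟩ := Metric.eventually_nhds_iff.1 hev
  set ε : ℝ := min (min 1 (κ / 8)) (r / 2) with hε
  have hε0 : 0 < ε := lt_min (lt_min one_pos (by positivity)) (by positivity)
  have hε1 : ε ≤ 1 := (min_le_left _ _).trans (min_le_left _ _)
  have hεκ : ε ≤ κ / 8 := (min_le_left _ _).trans (min_le_right _ _)
  have hεr : ε < r := lt_of_le_of_lt (min_le_right _ _) (by linarith)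
  have hΦε : 0 < Φ ε := hball (by rw [Real.dist_eq, sub_zero, abs_of_pos hε0]; exact hεr)
  refine ⟨ε, hε0, hε1, fun X Y σ hX hY h1 h2 h3 => ?_⟩
  set θ : ℝ := 4 * ε * D / κ with hθ
  have hθ0 : 0 ≤ θ := by positivity
  have hY0 : 0 < Y := by linarith
  have h4 : κ * Y / 2 ≤ X + 2 * ε * Y := by nlinarith
  have h5 : 2 * ε * Y ≤ κ / 4 * Y := by nlinarith
  have h6 : κ / 4 * Y ≤ X := by linarith
  have hXκ : κ / 2 ≤ X := by nlinarith
  have hX0 : 0 < X := by linarith [half_pos hκ]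
  have h7 : ε * D * Y ≤ θ * X := by
    have : Y ≤ 4 * X / κ := by
      rw [le_div_iff₀ hκ]
      linarith
    calc ε * D * Y ≤ ε * D * (4 * X / κ) := mul_le_mul_of_nonneg_left this (by positivity)
      _ = θ * X := by rw [hθ]; ring
  have hsX : 0 < Real.sqrt X := Real.sqrt_pos.2 hX0
  have hR : Real.sqrt (A * X + ε * D * Y) ≤ Real.sqrt (A + θ) * Real.sqrt X := by
    rw [← Real.sqrt_mul (by positivity)]
    exact Real.sqrt_le_sqrt (by linarith)
  have hq : (σ + 2 * ε) / Real.sqrt H ≤ (Real.sqrt I * Real.sqrt X + 5 * ε) / Real.sqrt H := by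
    refine div_le_div_of_nonneg_right ?_ hsH.le
    rw [← Real.sqrt_mul hI]
    linarith
  have hq0 : 0 ≤ (Real.sqrt I * Real.sqrt X + 5 * ε) / Real.sqrt H := by positivity
  have h8 : X * (1 - θ) ≤ 2 * ((Real.sqrt I * Real.sqrt X + 5 * ε) / Real.sqrt H) *
      (Real.sqrt (A + θ) * Real.sqrt X) := by
    calc X * (1 - θ) ≤ X - ε * D * Y := by linarith
      _ ≤ _ := h1
      _ ≤ 2 * ((Real.sqrt I * Real.sqrt X + 5 * ε) / Real.sqrt H) * Real.sqrt (A * X + ε * D * Y) :=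
        mul_le_mul_of_nonneg_right (mul_le_mul_of_nonneg_left hq two_pos.le) (Real.sqrt_nonneg _)
      _ ≤ _ := mul_le_mul_of_nonneg_left hR (by positivity)
  have h9 : Real.sqrt X * ((1 - θ) * Real.sqrt H) ≤
      2 * (Real.sqrt I * Real.sqrt X + 5 * ε) * Real.sqrt (A + θ) := by
    have e1 : X = Real.sqrt X * Real.sqrt X := (Real.mul_self_sqrt hX).symm
    have h10 : Real.sqrt X * (Real.sqrt X * ((1 - θ) * Real.sqrt H)) ≤
        Real.sqrt X * (2 * (Real.sqrt I * Real.sqrt X + 5 * ε) * Real.sqrt (A + θ)) := by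
      calc Real.sqrt X * (Real.sqrt X * ((1 - θ) * Real.sqrt H))
          = (Real.sqrt X * Real.sqrt X) * (1 - θ) * Real.sqrt H := by ring
        _ = X * (1 - θ) * Real.sqrt H := by rw [← e1]
        _ ≤ (2 * ((Real.sqrt I * Real.sqrt X + 5 * ε) / Real.sqrt H) *
              (Real.sqrt (A + θ) * Real.sqrt X)) * Real.sqrt H :=
          mul_le_mul_of_nonneg_right h8 hsH.le
        _ = Real.sqrt X * (2 * (Real.sqrt I * Real.sqrt X + 5 * ε) * Real.sqrt (A + θ)) := by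
          field_simp
    exact le_of_mul_le_mul_left h10 hsX
  have h11 : Real.sqrt X * ((1 - θ) * Real.sqrt H - 2 * Real.sqrt (A + θ) * Real.sqrt I) ≤
      10 * ε * Real.sqrt (A + θ) := by nlinarith
  have h12 : 0 < Real.sqrt (κ / 2) * ((1 - θ) * Real.sqrt H - 2 * Real.sqrt (A + θ) * Real.sqrt I) -
      10 * ε * Real.sqrt (A + θ) := hΦε
  have hsκ : 0 < Real.sqrt (κ / 2) := Real.sqrt_pos.2 (by positivity)
  have h13 : 0 < (1 - θ) * Real.sqrt H - 2 * Real.sqrt (A + θ) * Real.sqrt I := by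
    have h14 : 0 < Real.sqrt (κ / 2) * ((1 - θ) * Real.sqrt H - 2 * Real.sqrt (A + θ) * Real.sqrt I) := by
      have : 0 ≤ 10 * ε * Real.sqrt (A + θ) := by positivity
      linarith
    exact (pos_iff_pos_of_mul_pos h14).1 hsκ
  have h15 : Real.sqrt (κ / 2) ≤ Real.sqrt X := Real.sqrt_le_sqrt hXκ
  have h16 := mul_le_mul_of_nonneg_right h15 h13.le
  linarith

end Pool.Agent.Lib.DEn
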