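import Pool.Agent.Lib.DEn.Ker
import Pool.Agent.Lib.DEn.Alg

set_option autoImplicit false
set_option maxSynthPendingDepth 3

/-!
# Concentration of the kernel  (1 h)

`Cv_lim`: for fixed `g ∈ U3` the function `q h = (3 + Re ∑_j hp (g j) (h j)) / 6` is continuous, `0 ≤ q ≤ 1` on the compact set `U3`, `q g = 1` and `q h = 1` only for `h = g` (`∑_j nsq (g j - h j) = 6 - 2 Re ∑_j hp (g j) (h j)`). `tendsto_setIntegral_pow_smul_of_unique_maximum_of_isCompact_of_measure_nhdsWithin_pos`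
(Mathlib, `PeakFunction`; the restriction of `ν` to `U3` is `ν`, positivity of the measure of `u ∩ U3` from `Pos.pos_open` and `Ha.supp`) gives `(∫ q^N)⁻¹ * ∫ q^N f → f g`; `kN N g h = q h ^ N`, `∫ kN N g h = cN` (`int_kN`). `Cv_bdd`: `|∫ kN f| ≤ B ∫ kN`.
`wd_lim`, `ip_lim`: dominated convergence: the entries are bounded on `U3` (continuous on a compact set), `Cv_bdd` bounds the convolutions, pointwise convergence by `Cv_lim`, `wd` and `ip` are polynomials in the entries; measurability from `Cv_cont`.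
-/

open MeasureTheory Set Metric Filter
open scoped ContDiff Topology

namespace Pool.Agent.Lib.DEn

open Pool.Agent.P28b04d
open Pool.Agent.Lib.Psd (W hp ON3 fr cmp st asd sd nrm2 Pf Skew Conn Basic dd a0 c0)

namespace PeakAux

theorem restrict_u {ν : Measure X3} (hν : Ha ν) : ν.restrict U3 = ν := by
  have hae : ∀ᵐ g ∂ν, g ∈ U3 := by
    rw [ae_iff]
    exact hν.supp
  exact Measure.restrict_eq_self_of_ae_mem hae

theorem re_hp (z w : W) : (hp z w).re = (nsq z + nsq w - nsq (z - w)) / 2 := by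
  unfold hp nsq
  rw [Complex.re_sum, ← Finset.sum_add_distrib, ← Finset.sum_sub_distrib, Finset.sum_div]
  apply Finset.sum_congr rfl
  intro k _
  simp only [Pi.sub_apply, Complex.normSq_apply, Complex.sub_re, Complex.sub_im, Complex.mul_re,
    Complex.star_def, Complex.conj_re, Complex.conj_im]
  ring

theorem re_hp' (z w : W) : (hp z w).re = (nsq (z + w) - nsq z - nsq w) / 2 := by
  unfold hp nsq
  rw [Complex.re_sum, ← Finset.sum_sub_distrib, ← Finset.sum_sub_distrib, Finset.sum_div]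
  apply Finset.sum_congr rfl
  intro k _
  simp only [Pi.add_apply, Complex.normSq_apply, Complex.add_re, Complex.add_im, Complex.mul_re,
    Complex.star_def, Complex.conj_re, Complex.conj_im]
  ring

theorem nsq_nn (z : W) : 0 ≤ nsq z := Finset.sum_nonneg fun k _ => Complex.normSq_nonneg _

theorem nsq_pos {z : W} (h : z ≠ 0) : 0 < nsq z := by
  obtain ⟨k, hk⟩ := Function.ne_iff.1 h
  exact Finset.sum_pos' (fun k _ => Complex.normSq_nonneg _)
    ⟨k, Finset.mem_univ k, Complex.normSq_pos.2 hk⟩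

/-- the base of the kernel -/
noncomputable def cc (g h : X3) : ℝ := (3 + (∑ j, hp (g j) (h j)).re) / 6

theorem cc_pow (N : ℕ) (g h : X3) : kN N g h = cc g h ^ N := rfl

theorem cc_eq {g h : X3} (hg : g ∈ U3) (hh : h ∈ U3) :
    cc g h = 1 - (∑ j, nsq (g j - h j)) / 12 := by
  unfold cc
  rw [Complex.re_sum]
  have : ∀ j, (hp (g j) (h j)).re = 1 - nsq (g j - h j) / 2 := by
    intro j
    rw [re_hp, nsq_col hg, nsq_col hh]
    ring
  simp only [this, Fin.sum_univ_three]
  ring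

theorem cc_nonneg {g h : X3} (hg : g ∈ U3) (hh : h ∈ U3) : 0 ≤ cc g h := by
  unfold cc
  rw [Complex.re_sum]
  have : ∀ j, -1 ≤ (hp (g j) (h j)).re := by
    intro j
    rw [re_hp', nsq_col hg, nsq_col hh]
    have := nsq_nn (g j + h j)
    linarith
  rw [Fin.sum_univ_three]
  have h0 := this 0
  have h1 := this 1
  have h2 := this 2
  linarith

theorem cc_self {g : X3} (hg : g ∈ U3) : cc g g = 1 := by
  rw [cc_eq hg hg]
  have h0 : nsq (0 : W) = 0 := by simp [nsq]
  simp [h0]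

theorem cc_lt {g h : X3} (hg : g ∈ U3) (hh : h ∈ U3) (hne : h ≠ g) : cc g h < cc g g := by
  rw [cc_self hg, cc_eq hg hh]
  obtain ⟨j, hj⟩ := Function.ne_iff.1 hne
  have : 0 < ∑ j, nsq (g j - h j) :=
    Finset.sum_pos' (fun k _ => nsq_nn _)
      ⟨j, Finset.mem_univ j, nsq_pos (sub_ne_zero.2 (Ne.symm hj))⟩
  linarith

theorem cc_cont (g : X3) : Continuous (cc g) := by
  unfold cc hp
  refine Continuous.div_const (continuous_const.add (Complex.continuous_re.comp ?_)) 6
  refine continuous_finset_sum _ fun j _ => ?_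
  refine continuous_finset_sum _ fun k _ => ?_
  exact continuous_const.mul ((continuous_apply k).comp (continuous_apply j))

theorem bd_all {F : X3 → A4} (hF : CtU F) : ∃ B : ℝ, 0 ≤ B ∧ ∀ i j, ∀ g ∈ U3, |F g i j| ≤ B := by
  have h : ∀ i j, ∃ C : ℝ, ∀ g ∈ U3, ‖F g i j‖ ≤ C := fun i j =>
    isCompact_U3.exists_bound_of_continuousOn (hF i j)
  choose C hC using h
  refine ⟨∑ i, ∑ j, |C i j|, Finset.sum_nonneg fun i _ => Finset.sum_nonneg fun j _ => abs_nonneg _,
    ?_⟩
  intro i j g hg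
  have h1 := hC i j g hg
  rw [Real.norm_eq_abs] at h1
  have h2 : |C i j| ≤ ∑ j, |C i j| :=
    Finset.single_le_sum (f := fun j => |C i j|) (fun j _ => abs_nonneg _) (Finset.mem_univ j)
  have h3 : ∑ j, |C i j| ≤ ∑ i, ∑ j, |C i j| :=
    Finset.single_le_sum (f := fun i => ∑ j, |C i j|)
      (fun i _ => Finset.sum_nonneg fun j _ => abs_nonneg _) (Finset.mem_univ i)
  exact h1.trans ((le_abs_self _).trans (h2.trans h3))

theorem prod_le {a b B : ℝ} (ha : |a| ≤ B) (hb : |b| ≤ B) : |a * b| ≤ B ^ 2 := by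
  rw [abs_mul, sq]
  exact mul_le_mul ha hb (abs_nonneg _) ((abs_nonneg _).trans ha)

theorem wd_bd {A : A4} {B : ℝ} (h : ∀ i j, |A i j| ≤ B) : |wd A A| ≤ 6 * B ^ 2 := by
  unfold wd
  have e1 := abs_le.1 (prod_le (h 0 1) (h 2 3))
  have e2 := abs_le.1 (prod_le (h 2 3) (h 0 1))
  have e3 := abs_le.1 (prod_le (h 0 2) (h 1 3))
  have e4 := abs_le.1 (prod_le (h 1 3) (h 0 2))
  have e5 := abs_le.1 (prod_le (h 0 3) (h 1 2))
  have e6 := abs_le.1 (prod_le (h 1 2) (h 0 3))
  rw [abs_le]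
  constructor <;> linarith [e1.1, e1.2, e2.1, e2.2, e3.1, e3.2, e4.1, e4.2, e5.1, e5.2, e6.1, e6.2]

theorem ip_bd {A : A4} {B : ℝ} (h : ∀ i j, |A i j| ≤ B) : |ip A A| ≤ 8 * B ^ 2 := by
  unfold ip
  have h1 : |∑ i, ∑ j, A i j * A i j| ≤ ∑ i : Fin 4, ∑ j : Fin 4, B ^ 2 := by
    refine (Finset.abs_sum_le_sum_abs _ _).trans (Finset.sum_le_sum fun i _ => ?_)
    refine (Finset.abs_sum_le_sum_abs _ _).trans (Finset.sum_le_sum fun j _ => ?_)
    exact prod_le (h i j) (h i j)
  rw [abs_div]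
  have h2 : ∑ i : Fin 4, ∑ j : Fin 4, B ^ 2 = 16 * B ^ 2 := by
    simp [Finset.sum_const, Finset.card_univ]
    ring
  rw [h2] at h1
  have h3 : |(2 : ℝ)| = 2 := abs_of_pos (by norm_num)
  rw [h3]
  linarith

theorem wd_cont {α : Type*} [TopologicalSpace α] {F : α → A4}
    (hF : ∀ i j, Continuous (fun a => F a i j)) : Continuous (fun a => wd (F a) (F a)) := by
  unfold wd
  exact (((((((hF 0 1).mul (hF 2 3)).add ((hF 2 3).mul (hF 0 1))).sub
    ((hF 0 2).mul (hF 1 3))).sub ((hF 1 3).mul (hF 0 2))).add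
    ((hF 0 3).mul (hF 1 2))).add ((hF 1 2).mul (hF 0 3)))

theorem ip_cont {α : Type*} [TopologicalSpace α] {F : α → A4}
    (hF : ∀ i j, Continuous (fun a => F a i j)) : Continuous (fun a => ip (F a) (F a)) := by
  unfold ip
  exact (continuous_finset_sum _ fun i _ => continuous_finset_sum _ fun j _ =>
    (hF i j).mul (hF i j)).div_const 2

end PeakAux

open PeakAux

theorem Cv_lim {ν : Measure X3} (hν : Ha ν) {f : X3 → ℝ} (hf : ContinuousOn f U3) {g : X3} (hg : g ∈ U3) :
    Tendsto (fun N : ℕ => Cv ν N f g) atTop (𝓝 (f g)) := by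
  have hprob := hν.prob
  have hr := restrict_u hν
  have hpos : ∀ u : Set X3, IsOpen u → g ∈ u → 0 < ν (u ∩ U3) := by
    intro u hu hgu
    have h1 := pos_open hν hu hg hgu
    rw [← hr, Measure.restrict_apply hu.measurableSet] at h1
    exact h1
  have key := tendsto_setIntegral_pow_smul_of_unique_maximum_of_isCompact_of_measure_nhdsWithin_pos
    (μ := ν) (s := U3) (x₀ := g) (g := f) (c := cc g) isCompact_U3 hpos
    (cc_cont g).continuousOn (fun y hy hne => cc_lt hg hy hne) (fun x hx => cc_nonneg hg hx)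
    (by rw [cc_self hg]; norm_num) hg (hf.integrableOn_compact isCompact_U3) (hf g hg)
  rw [hr] at key
  refine key.congr ?_
  intro N
  unfold Cv
  rw [← int_kN hν N hg]
  rfl

theorem Cv_bdd {ν : Measure X3} (hν : Ha ν) (N : ℕ) {f : X3 → ℝ} (hf : ContinuousOn f U3) {B : ℝ}
    (hB : ∀ g ∈ U3, |f g| ≤ B) {g : X3} (hg : g ∈ U3) : |Cv ν N f g| ≤ B := by
  have hprob := hν.prob
  have hc := cN_pos hν N
  have hk : ContinuousOn (fun h => kN N g h) U3 :=
    ((kN_cont N).comp (Continuous.prodMk continuous_const continuous_id)).continuousOn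
  have hI1 : Integrable (fun h => |kN N g h * f h|) ν := (integrable_u hν (hk.mul hf)).abs
  have hI2 : Integrable (fun h => kN N g h * B) ν := (integrable_u hν hk).mul_const B
  have h1 : |∫ h, kN N g h * f h ∂ν| ≤ cN ν N * B := by
    calc |∫ h, kN N g h * f h ∂ν| ≤ ∫ h, |kN N g h * f h| ∂ν := abs_integral_le_integral_abs
      _ ≤ ∫ h, kN N g h * B ∂ν := by
          apply integral_mono_ae hI1 hI2
          apply ae_u hν
          intro h hh
          show |kN N g h * f h| ≤ kN N g h * B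
          rw [abs_mul, abs_of_nonneg (kN_nonneg N hg hh)]
          exact mul_le_mul_of_nonneg_left (hB h hh) (kN_nonneg N hg hh)
      _ = cN ν N * B := by rw [integral_mul_const, int_kN hν N hg]
  unfold Cv
  rw [abs_mul, abs_of_pos (inv_pos.2 hc)]
  calc (cN ν N)⁻¹ * |∫ h, kN N g h * f h ∂ν| ≤ (cN ν N)⁻¹ * (cN ν N * B) :=
        mul_le_mul_of_nonneg_left h1 (inv_pos.2 hc).le
    _ = B := by field_simp

theorem wd_lim {ν : Measure X3} (hν : Ha ν) {F : X3 → A4} (hF : CtU F) :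
    Tendsto (fun N : ℕ => ∫ g, wd (C4 ν N F g) (C4 ν N F g) ∂ν) atTop (𝓝 (∫ g, wd (F g) (F g) ∂ν)) := by
  have hprob := hν.prob
  obtain ⟨B, hB0, hB⟩ := bd_all hF
  apply tendsto_integral_of_dominated_convergence (fun _ => 6 * B ^ 2)
  · intro N
    exact (wd_cont fun i j => Cv_cont hν N (hF i j)).aestronglyMeasurable
  · exact integrable_const _
  · intro N
    apply ae_u hν
    intro g hg
    rw [Real.norm_eq_abs]
    exact wd_bd fun i j => Cv_bdd hν N (hF i j) (hB i j) hg
  · apply ae_u hν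
    intro g hg
    have hl : ∀ i j, Tendsto (fun N => C4 ν N F g i j) atTop (𝓝 (F g i j)) := fun i j =>
      Cv_lim hν (hF i j) hg
    unfold wd
    exact (((((((hl 0 1).mul (hl 2 3)).add ((hl 2 3).mul (hl 0 1))).sub
      ((hl 0 2).mul (hl 1 3))).sub ((hl 1 3).mul (hl 0 2))).add
      ((hl 0 3).mul (hl 1 2))).add ((hl 1 2).mul (hl 0 3)))

theorem ip_lim {ν : Measure X3} (hν : Ha ν) {F : X3 → A4} (hF : CtU F) :
    Tendsto (fun N : ℕ => ∫ g, ip (C4 ν N F g) (C4 ν N F g) ∂ν) atTop (𝓝 (∫ g, ip (F g) (F g) ∂ν)) := by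
  have hprob := hν.prob
  obtain ⟨B, hB0, hB⟩ := bd_all hF
  apply tendsto_integral_of_dominated_convergence (fun _ => 8 * B ^ 2)
  · intro N
    exact (ip_cont fun i j => Cv_cont hν N (hF i j)).aestronglyMeasurable
  · exact integrable_const _
  · intro N
    apply ae_u hν
    intro g hg
    rw [Real.norm_eq_abs]
    exact ip_bd fun i j => Cv_bdd hν N (hF i j) (hB i j) hg
  · apply ae_u hν
    intro g hg
    have hl : ∀ i j, Tendsto (fun N => C4 ν N F g i j) atTop (𝓝 (F g i j)) := fun i j =>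
      Cv_lim hν (hF i j) hg
    unfold ip
    exact (tendsto_finset_sum _ fun i _ => tendsto_finset_sum _ fun j _ =>
      (hl i j).mul (hl i j)).div_const 2

end Pool.Agent.Lib.DEn
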