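import Pool.Agent.Lib.DEn.ExP

set_option autoImplicit false
set_option maxSynthPendingDepth 3

/-!
# Unitary maps do not change the class of a closed form  (0.8 h)

There is `c : ℂ` with `‖c‖ = 1` such that `z + c • mv h z ≠ 0` for all `z ≠ 0`: otherwise every `-c⁻¹` on the unit circle is an eigenvalue of the linear map `mv h` on `ℂ³`, which has finitely many eigenvalues (`Module.End.finite_hasEigenvalue`, or the determinant of `1 + c h` is a polynomial in `c` with value `1` at `0`). Let `k = c • h`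
(`fun j => c • h j`), so `mv k z = c • mv h z`, `nsq (mv k z) = nsq z` (`nsq_mv`). For `t ∈ [0,1]`, `z ≠ 0`: `z + t • (mv k z - z) = (1 - t) • z + t • mv k z`; if it vanishes then `(1-t)^2 nsq z = t^2 nsq z`, so `t = 1/2` and `z + mv k z = 0`, excluded. `exact_path` for `k`; and `pl k τ z v w = τ (c h z) (c h v) (c h w) = pl h τ z v w` (`HF.hom`, `mv h z ≠ 0`).
-/

open MeasureTheory Set Metric Filter
open scoped ContDiff Topology

namespace Pool.Agent.Lib.DEn

open Pool.Agent.P28b04d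
open Pool.Agent.Lib.Psd (W hp ON3 fr cmp st asd sd nrm2 Pf Skew Conn Basic dd a0 c0)

namespace ExUAux

/-- scaling of a matrix -/
noncomputable def sc (c : ℂ) (h : X3) : X3 := fun j => c • h j

theorem mv_sc (c : ℂ) (h : X3) (z : W) : mv (sc c h) z = c • mv h z := by
  unfold mv sc
  rw [Finset.smul_sum]
  refine Finset.sum_congr rfl fun j _ => ?_
  rw [smul_comm]

/-- the linear map of a matrix, over `ℂ` -/
noncomputable def lin (h : X3) : Module.End ℂ W where
  toFun z := mv h z
  map_add' z w := mv_add h z w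
  map_smul' c z := mv_smul h c z

theorem exists_c (h : X3) : ∃ c : ℂ, ‖c‖ = 1 ∧ ∀ z : W, z ≠ 0 → z + c • mv h z ≠ 0 := by
  by_contra hcon
  push Not at hcon
  have hfin : Set.Finite {μ : ℂ | (lin h).HasEigenvalue μ} := Module.End.finite_hasEigenvalue (lin h)
  have hinf : (Metric.sphere (0 : ℂ) 1).Infinite := by
    have h1 : IsPreconnected (Metric.sphere (0 : ℂ) 1) := by
      refine isPreconnected_sphere ?_ 0 1
      rw [Complex.rank_real_complex]
      exact_mod_cast Nat.one_lt_two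
    refine h1.infinite_of_nontrivial ⟨1, by simp, -1, by simp, ?_⟩
    intro h2
    have h3 := congrArg Complex.re h2
    simp at h3
    norm_num at h3
  have hinj : Set.InjOn (fun c : ℂ => -c⁻¹) (Metric.sphere (0 : ℂ) 1) := by
    intro a _ b _ hab
    exact inv_injective (neg_injective hab)
  have hsub : (fun c : ℂ => -c⁻¹) '' (Metric.sphere (0 : ℂ) 1) ⊆
      {μ : ℂ | (lin h).HasEigenvalue μ} := by
    rintro _ ⟨c, hc, rfl⟩
    have hc1 : ‖c‖ = 1 := by simpa using hc
    obtain ⟨z, hz, hz0⟩ := hcon c hc1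
    have hc0 : c ≠ 0 := by
      rintro rfl
      simp at hc1
    refine Module.End.hasEigenvalue_of_hasEigenvector (x := z) ⟨?_, hz⟩
    rw [Module.End.mem_eigenspace_iff]
    show mv h z = (-c⁻¹) • z
    have h1 : c • mv h z = -z := by
      rw [eq_neg_iff_add_eq_zero, add_comm]
      exact hz0
    have h2 : mv h z = c⁻¹ • (c • mv h z) := by
      rw [smul_smul, inv_mul_cancel₀ hc0, one_smul]
    rw [h2, h1, smul_neg, neg_smul]
  exact (hinf.image hinj) (hfin.subset hsub)

theorem nsq_rsmul (r : ℝ) (z : W) : nsq (r • z) = r ^ 2 * nsq z := by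
  have h1 : r • z = (r : ℂ) • z := by
    funext i
    simp
  rw [h1, Psd.ConnBAux.nsq_smul, Complex.normSq_ofReal, sq]

end ExUAux

open ExUAux in
theorem exact_u {τ : W → BW} (hτ : HF τ) (hc : Cl τ) {h : X3} (hh : h ∈ U3) :
    ∃ β : W → W →L[ℝ] ℝ, Basic β ∧ ∀ z : W, z ≠ 0 → dB β z = pl h τ z - τ z := by
  obtain ⟨c, hc1, hcz⟩ := exists_c h
  have hc0 : c ≠ 0 := by
    rintro rfl
    simp at hc1
  have hcn : Complex.normSq c = 1 := by
    rw [Complex.normSq_eq_norm_sq, hc1, one_pow]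
  have hk : ∀ z : W, nsq (mv (sc c h) z) = nsq z := by
    intro z
    rw [mv_sc, Psd.ConnBAux.nsq_smul, hcn, one_mul, nsq_mv hh]
  have hpath : ∀ t ∈ Icc (0 : ℝ) 1, ∀ z : W, z ≠ 0 → z + t • (mv (sc c h) z - z) ≠ 0 := by
    intro t ht z hz h0
    have hpos : 0 < nsq z := Psd.ConnBAux.nsq_pos hz
    have h1 : (1 - t) • z = (-t) • mv (sc c h) z := by
      rw [sub_smul, one_smul, neg_smul, eq_neg_iff_add_eq_zero, ← h0, smul_sub]
      abel
    have h2 := congrArg nsq h1
    rw [nsq_rsmul, nsq_rsmul, hk] at h2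
    have h3 : (1 - t) ^ 2 = (-t) ^ 2 := mul_right_cancel₀ hpos.ne' h2
    have h4 : t = 1 / 2 := by nlinarith
    subst h4
    apply hcz z hz
    have h5 : (1 / 2 : ℝ) • (z + mv (sc c h) z) = 0 := by
      rw [← h0, smul_add, smul_sub]
      have h6 : z = (1 / 2 : ℝ) • z + (1 / 2 : ℝ) • z := by
        rw [← add_smul]
        norm_num
      nth_rewrite 3 [h6]
      abel
    rcases smul_eq_zero.1 h5 with h6 | h6
    · norm_num at h6
    · rw [mv_sc] at h6
      exact h6
  obtain ⟨β, hβ, hd⟩ := exact_path hτ hc (sc c h) hpath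
  refine ⟨β, hβ, fun z hz => ?_⟩
  rw [hd z hz]
  congr 1
  ext1 v
  ext1 w
  rw [pl_apply, pl_apply, mv_sc, mv_sc, mv_sc]
  refine hτ.hom c hc0 _ ?_ _ _
  intro h0
  have h1 := nsq_mv hh z
  rw [h0] at h1
  have h2 : nsq (0 : W) = 0 := by
    unfold nsq
    simp
  rw [h2] at h1
  exact (Psd.ConnBAux.nsq_pos hz).ne h1

end Pool.Agent.Lib.DEn
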