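import Pool.Agent.Lib.DEn.ClW
import Pool.Agent.Lib.DEn.ExU

set_option autoImplicit false
set_option maxSynthPendingDepth 3

/-!
# The square of a weakly closed form is nonnegative  (1 h)

`Cl τ` by `cl_of_wk`. For `h ∈ U3` take `β` of `exact_u`: `cF (pl h τ) g = cF τ (mm h g)` (`cF_pl`) and `cF (dB β) g = cF τ (mm h g) - cF τ g`, so `∫ wd (cF τ (mm h g)) (cF τ g) dν(g) = ∫ wd (cF τ g) (cF τ g) dν(g)` by `Wk`. Integrate over `h` and exchange (Fubini; continuous functions on the compact set `U3 × U3`):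
`∫ wd (cF τ g) (cF τ g) dν(g) = ∫ wd (∫ cF τ (mm h g) dν(h)) (cF τ g) dν(g) = wd Y Y`, `Y i j = ∫ cF τ h i j dν(h)`, because `∫ cF τ (mm h g) dν(h) = Y` for `g ∈ U3` (`integral_mm`), and then `∫ wd Y (cF τ g) = wd Y Y`.
Symmetry of `Y`: let `k ∈ U3` with columns `e0, i e1, e2`: `mm g k = (g 0, i g 1, g 2)`, `fr (i g 1) (g 2) = (f1, -f0, f2, f3)`. So `cF τ (mm g k) 0 2 = cF τ g 1 2`, `cF τ (mm g k) 1 2 = - cF τ g 0 2`, and by `integral_mm` `Y 0 2 = Y 1 2 = - Y 0 2`, i.e. `Y 0 2 = Y 1 2 = 0`; in the same way `Y 0 3 = Y 1 3 = 0`. For `k` with columns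
`e0, e2, e1`: `mm g k = (g 0, g 2, g 1)`, `Y 0 1 = Y 2 3`. So `wd Y Y = 2 (Y 0 1)^2 ≥ 0`.
-/

open MeasureTheory Set Metric Filter
open scoped ContDiff Topology

namespace Pool.Agent.Lib.DEn

open Pool.Agent.P28b04d
open Pool.Agent.Lib.Psd (W hp ON3 fr cmp st asd sd nrm2 Pf Skew Conn Basic dd a0 c0)

namespace QPosAux

theorem restrict_u {ν : Measure X3} (hν : Ha ν) : ν.restrict U3 = ν := by
  have hae : ∀ᵐ g ∂ν, g ∈ U3 := by
    rw [ae_iff]
    exact hν.supp
  exact Measure.restrict_eq_self_of_ae_mem hae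

theorem integrable_uu {ν : Measure X3} (hν : Ha ν) {F : X3 × X3 → ℝ}
    (hF : ContinuousOn F (U3 ×ˢ U3)) : Integrable F (ν.prod ν) := by
  have := hν.prob
  have h : IntegrableOn F (U3 ×ˢ U3) (ν.prod ν) :=
    hF.integrableOn_compact (isCompact_U3.prod isCompact_U3)
  rw [IntegrableOn, ← Measure.prod_restrict, restrict_u hν] at h
  exact h

theorem cont_fr (i : Fin 4) : Continuous fun g : X3 => fr (g 1) (g 2) i := by
  fin_cases i
  · exact continuous_apply 1
  · exact (continuous_apply (1 : Fin 3)).const_smul Complex.I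
  · exact continuous_apply 2
  · exact (continuous_apply (2 : Fin 3)).const_smul Complex.I

theorem cont_cF {τ : W → BW} (hτ : HF τ) (i j : Fin 4) :
    ContinuousOn (fun g => cF τ g i j) U3 := by
  have h1 : ContinuousOn (fun g : X3 => τ (g 0)) U3 := by
    have h2 : ContinuousOn τ {0}ᶜ := hτ.smooth.continuousOn
    exact h2.comp (continuous_apply (0 : Fin 3)).continuousOn (fun g hg => col_ne hg 0)
  exact (h1.clm_apply (cont_fr i).continuousOn).clm_apply (cont_fr j).continuousOn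

theorem cont_cFmm {τ : W → BW} (hτ : HF τ) (i j : Fin 4) :
    ContinuousOn (fun p : X3 × X3 => cF τ (mm p.1 p.2) i j) (U3 ×ˢ U3) :=
  (cont_cF hτ i j).comp continuous_mm.continuousOn (fun p hp => mm_mem hp.1 hp.2)

theorem cont_wd {α : Type*} [TopologicalSpace α] {F G : α → A4} {K : Set α}
    (hF : ∀ i j, ContinuousOn (fun a => F a i j) K) (hG : ∀ i j, ContinuousOn (fun a => G a i j) K) :
    ContinuousOn (fun a => wd (F a) (G a)) K := by
  unfold wd
  exact (((((((hF 0 1).mul (hG 2 3)).add ((hF 2 3).mul (hG 0 1))).sub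
    ((hF 0 2).mul (hG 1 3))).sub ((hF 1 3).mul (hG 0 2))).add
    ((hF 0 3).mul (hG 1 2))).add ((hF 1 2).mul (hG 0 3)))

theorem int_wd_left {ν : Measure X3} {F : X3 → A4} (B : A4)
    (hF : ∀ i j, Integrable (fun h => F h i j) ν) :
    ∫ h, wd (F h) B ∂ν = wd (fun i j => ∫ h, F h i j ∂ν) B := by
  unfold wd
  have I1 := (hF 0 1).mul_const (B 2 3)
  have I2 := (hF 2 3).mul_const (B 0 1)
  have I3 := (hF 0 2).mul_const (B 1 3)
  have I4 := (hF 1 3).mul_const (B 0 2)
  have I5 := (hF 0 3).mul_const (B 1 2)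
  have I6 := (hF 1 2).mul_const (B 0 3)
  have J2 : Integrable (fun x => F x 0 1 * B 2 3 + F x 2 3 * B 0 1) ν := I1.add I2
  have J3 : Integrable (fun x => F x 0 1 * B 2 3 + F x 2 3 * B 0 1 - F x 0 2 * B 1 3) ν :=
    J2.sub I3
  have J4 : Integrable (fun x => F x 0 1 * B 2 3 + F x 2 3 * B 0 1 - F x 0 2 * B 1 3 -
    F x 1 3 * B 0 2) ν := J3.sub I4
  have J5 : Integrable (fun x => F x 0 1 * B 2 3 + F x 2 3 * B 0 1 - F x 0 2 * B 1 3 -
    F x 1 3 * B 0 2 + F x 0 3 * B 1 2) ν := J4.add I5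
  rw [integral_add J5 I6, integral_add J4 I5, integral_sub J3 I4, integral_sub J2 I3,
    integral_add I1 I2]
  simp only [integral_mul_const]

theorem int_wd_right {ν : Measure X3} {F : X3 → A4} (B : A4)
    (hF : ∀ i j, Integrable (fun h => F h i j) ν) :
    ∫ h, wd B (F h) ∂ν = wd B (fun i j => ∫ h, F h i j ∂ν) := by
  rw [wd_comm' , ← int_wd_left B hF]
  congr 1
  funext h
  rw [wd_comm']
where
  wd_comm' : ∀ (A B : A4), wd A B = wd B A := by
    intro A B
    unfold wd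
    ring

/-- the first symmetry -/
noncomputable def k1 : X3 := ![Pi.single 0 1, Pi.single 1 Complex.I, Pi.single 2 1]

/-- the second symmetry -/
noncomputable def k2 : X3 := ![Pi.single 0 1, Pi.single 2 1, Pi.single 1 1]

theorem k1_mem : k1 ∈ U3 := by
  intro j k
  fin_cases j <;> fin_cases k <;> simp [k1, hp, Fin.sum_univ_three, Pi.single_apply]

theorem k2_mem : k2 ∈ U3 := by
  intro j k
  fin_cases j <;> fin_cases k <;> simp [k2, hp, Fin.sum_univ_three, Pi.single_apply]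

theorem mv_single (g : X3) (j : Fin 3) (c : ℂ) : mv g (Pi.single j c) = c • g j := by
  unfold mv
  rw [Finset.sum_eq_single j]
  · simp
  · intro b _ hb
    rw [Pi.single_eq_of_ne hb, zero_smul]
  · intro h
    exact absurd (Finset.mem_univ j) h

theorem mm_k1 (g : X3) : mm g k1 0 = g 0 ∧ mm g k1 1 = Complex.I • g 1 ∧ mm g k1 2 = g 2 := by
  refine ⟨?_, ?_, ?_⟩
  · show mv g (Pi.single 0 1) = _
    rw [mv_single, one_smul]
  · show mv g (Pi.single 1 Complex.I) = _
    rw [mv_single]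
  · show mv g (Pi.single 2 1) = _
    rw [mv_single, one_smul]

theorem mm_k2 (g : X3) : mm g k2 0 = g 0 ∧ mm g k2 1 = g 2 ∧ mm g k2 2 = g 1 := by
  refine ⟨?_, ?_, ?_⟩
  · show mv g (Pi.single 0 1) = _
    rw [mv_single, one_smul]
  · show mv g (Pi.single 2 1) = _
    rw [mv_single, one_smul]
  · show mv g (Pi.single 1 1) = _
    rw [mv_single, one_smul]

end QPosAux

open QPosAux

theorem q_pos {ν : Measure X3} (hν : Ha ν) {τ : W → BW} (hτ : HF τ) (hw : Wk ν τ) :
    0 ≤ ∫ g, wd (cF τ g) (cF τ g) ∂ν := by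
  have hprob := hν.prob
  have hc : Cl τ := cl_of_wk hν hτ hw
  set Q := ∫ g, wd (cF τ g) (cF τ g) ∂ν with hQ
  set Y : A4 := fun i j => ∫ h, cF τ h i j ∂ν with hY
  have hcF := cont_cF hτ
  have hint : ∀ i j, Integrable (fun h => cF τ h i j) ν := fun i j => integrable_u hν (hcF i j)
  have hmmg : ∀ h ∈ U3, ∀ i j, ContinuousOn (fun g => cF τ (mm h g) i j) U3 := by
    intro h hh i j
    refine (hcF i j).comp ?_ (fun g hg => mm_mem hh hg)
    exact (continuous_mm.comp (Continuous.prodMk continuous_const continuous_id)).continuousOn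
  have hmmh : ∀ g ∈ U3, ∀ i j, ContinuousOn (fun h => cF τ (mm h g) i j) U3 := by
    intro g hg i j
    refine (hcF i j).comp ?_ (fun h hh => mm_mem hh hg)
    exact (continuous_mm.comp (Continuous.prodMk continuous_id continuous_const)).continuousOn
  -- step 1
  have h1 : ∀ h ∈ U3, ∫ g, wd (cF τ (mm h g)) (cF τ g) ∂ν = Q := by
    intro h hh
    obtain ⟨β, hβ, hβ2⟩ := exact_u hτ hc hh
    have h0 := hw β hβ
    have e1 : ∀ g ∈ U3, wd (cF (dB β) g) (cF τ g) =
        wd (cF τ (mm h g)) (cF τ g) - wd (cF τ g) (cF τ g) := by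
      intro g hg
      have e2 : cF (dB β) g = fun i j => cF τ (mm h g) i j - cF τ g i j := by
        rw [← cF_pl]
        funext i j
        simp only [cF, hβ2 (g 0) (col_ne hg 0), sub_apply]
      rw [e2]
      unfold wd
      ring
    rw [integral_congr_u hν e1, integral_sub] at h0
    · linarith
    · exact integrable_u hν (cont_wd (hmmg h hh) hcF)
    · exact integrable_u hν (cont_wd hcF hcF)
  have h2 : ∫ h, (∫ g, wd (cF τ (mm h g)) (cF τ g) ∂ν) ∂ν = Q := by
    rw [integral_congr_u hν h1]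
    simp
  have hswap : ∫ h, (∫ g, wd (cF τ (mm h g)) (cF τ g) ∂ν) ∂ν =
      ∫ g, (∫ h, wd (cF τ (mm h g)) (cF τ g) ∂ν) ∂ν := by
    apply integral_integral_swap (f := fun h g => wd (cF τ (mm h g)) (cF τ g))
    apply integrable_uu hν
    refine cont_wd (F := fun p : X3 × X3 => cF τ (mm p.1 p.2)) (G := fun p : X3 × X3 => cF τ p.2)
      (cont_cFmm hτ) ?_
    intro i j
    exact (hcF i j).comp continuous_snd.continuousOn (fun p hp => hp.2)
  have h3 : ∀ g ∈ U3, ∫ h, wd (cF τ (mm h g)) (cF τ g) ∂ν = wd Y (cF τ g) := by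
    intro g hg
    rw [int_wd_left (F := fun h => cF τ (mm h g)) (cF τ g)
      (fun i j => integrable_u hν (hmmh g hg i j))]
    congr 1
    funext i j
    exact integral_mm hν (f := fun h => cF τ h i j) (hcF i j) hg
  have h4 : Q = wd Y Y := by
    rw [← h2, hswap, integral_congr_u hν h3]
    exact int_wd_right (F := fun g => cF τ g) Y hint
  have hinv : ∀ k ∈ U3, ∀ i j, ∫ g, cF τ (mm g k) i j ∂ν = Y i j := fun k hk i j =>
    integral_mm hν (f := fun h => cF τ h i j) (hcF i j) hk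
  have hI : ∀ v : W, Complex.I • Complex.I • v = -v := by
    intro v
    rw [smul_smul, Complex.I_mul_I, neg_one_smul]
  have a1 : Y 0 2 = Y 1 2 := by
    rw [← hinv k1 k1_mem 0 2]
    congr 1
    funext g
    obtain ⟨m0, m1, m2⟩ := mm_k1 g
    simp only [cF, m0, m1, m2]
    rfl
  have a2 : Y 1 2 = -Y 0 2 := by
    rw [← hinv k1 k1_mem 1 2, hY, ← integral_neg]
    congr 1
    funext g
    obtain ⟨m0, m1, m2⟩ := mm_k1 g
    simp only [cF, m0, m1, m2]
    show τ (g 0) (Complex.I • Complex.I • g 1) (g 2) = -τ (g 0) (g 1) (g 2)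
    rw [hI]
    simp
  have a3 : Y 0 3 = Y 1 3 := by
    rw [← hinv k1 k1_mem 0 3]
    congr 1
    funext g
    obtain ⟨m0, m1, m2⟩ := mm_k1 g
    simp only [cF, m0, m1, m2]
    rfl
  have a4 : Y 1 3 = -Y 0 3 := by
    rw [← hinv k1 k1_mem 1 3, hY, ← integral_neg]
    congr 1
    funext g
    obtain ⟨m0, m1, m2⟩ := mm_k1 g
    simp only [cF, m0, m1, m2]
    show τ (g 0) (Complex.I • Complex.I • g 1) (Complex.I • g 2) =
      -τ (g 0) (g 1) (Complex.I • g 2)
    rw [hI]
    simp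
  have a5 : Y 0 1 = Y 2 3 := by
    rw [← hinv k2 k2_mem 0 1]
    congr 1
    funext g
    obtain ⟨m0, m1, m2⟩ := mm_k2 g
    simp only [cF, m0, m1, m2]
    rfl
  rw [h4]
  have b1 : Y 0 2 = 0 := by linarith
  have b2 : Y 1 2 = 0 := by linarith
  have b3 : Y 0 3 = 0 := by linarith
  have b4 : Y 1 3 = 0 := by linarith
  unfold wd
  rw [b1, b2, b3, b4, ← a5]
  nlinarith [sq_nonneg (Y 0 1)]

end Pool.Agent.Lib.DEn
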