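import Pool.Agent.Lib.DEn.Forms
import Pool.Agent.Lib.DEn.Alg

set_option autoImplicit false
set_option maxSynthPendingDepth 3

/-!
# The Hodge star of a form  (1.2 h)

`σ_z(v, w) = nsq z * (∑_k τ z (e_k) (i e_k)) * ω_z(v, w) - τ z (i v) (i w)` with `e_k = Pi.single k 1` and `ω_z = (1/2) • dB a0 z` (`dB_hfc a0_conn`, `cF_dB_a0`: the components of `ω` are `1` at `0 1` and `2 3`). Smooth off `0`; HF: `∑_k τ (c z) (e_k) (i e_k) = |c|⁻² ∑_k τ z (e_k) (i e_k)` (replace `e_k` by `c (c⁻¹ e_k)`, `HF.hom`, and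
`B (c e) (i c e) = |c|² B e (i e)` for alternating real bilinear `B`), `nsq (c z) = |c|² nsq z`; `τ z (i c z) w = 0`. Components at `g ∈ U3`: `nsq (g 0) = 1`, `∑_k τ z (e_k) (i e_k) = ∑_j τ z (g j) (i g j) = τ z (f0) (f1) + τ z (f2) (f3)` (unitary invariance of the trace of an alternating form, see `TestF`; the term `j = 0` is zero), and
`i f0 = f1, i f1 = - f0, i f2 = f3, i f3 = - f2`: entry `0 1`: `T01 + T23 - T01 = T23`; `0 2`: `-T(f1, f3) = -T13`; `0 3`: `T(f1, f2) = T12`; `1 2`: `T(f0, f3) = T03`; `1 3`: `-T(f0, f2) = -T02`; `2 3`: `T01`.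
-/

open MeasureTheory Set Metric Filter
open scoped ContDiff Topology

namespace Pool.Agent.Lib.DEn

open Pool.Agent.P28b04d
open Pool.Agent.Lib.Psd (W hp ON3 fr cmp st asd sd nrm2 Pf Skew Conn Basic dd a0 c0)

namespace StarUAux

/-- the Hermitian form of an alternating form -/
noncomputable def S (B : BW) (v w : W) : ℝ := B v (Complex.I • w) - B (Complex.I • v) w

noncomputable def h (B : BW) (v w : W) : ℂ := ⟨S B v w, S B v (Complex.I • w)⟩

theorem csmul (c : ℂ) (v : W) : c • v = c.re • v + c.im • (Complex.I • v) := by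
  funext k
  simp only [Pi.smul_apply, Pi.add_apply, smul_eq_mul, Complex.real_smul]
  conv_lhs => rw [← Complex.re_add_im c]
  ring

theorem II (v : W) : Complex.I • (Complex.I • v) = -v := by
  rw [smul_smul, Complex.I_mul_I, neg_one_smul]

theorem S_add_l (B : BW) (v v' w : W) : S B (v + v') w = S B v w + S B v' w := by
  simp only [S, smul_add, map_add, add_apply]
  ring

theorem S_add_r (B : BW) (v w w' : W) : S B v (w + w') = S B v w + S B v w' := by
  simp only [S, smul_add, map_add, add_apply]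
  ring

theorem Icomm (r : ℝ) (v : W) : Complex.I • (r • v) = r • (Complex.I • v) := smul_comm _ _ _

theorem S_smul_l (B : BW) (r : ℝ) (v w : W) : S B (r • v) w = r * S B v w := by
  simp only [S, Icomm, map_smul, ContinuousLinearMap.smul_apply, smul_eq_mul]
  ring

theorem S_smul_r (B : BW) (r : ℝ) (v w : W) : S B v (r • w) = r * S B v w := by
  simp only [S, Icomm, map_smul, smul_eq_mul]
  ring

theorem S_neg_r (B : BW) (v w : W) : S B v (-w) = -S B v w := by
  simp only [S, smul_neg, map_neg]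
  ring

theorem S_II (B : BW) (v w : W) : S B (Complex.I • v) (Complex.I • w) = S B v w := by
  simp only [S, II, map_neg, neg_apply]
  ring

theorem S_I_l (B : BW) (v w : W) : S B (Complex.I • v) w = -S B v (Complex.I • w) := by
  rw [← S_II B v (Complex.I • w), II, S_neg_r, neg_neg]

theorem h_add_l (B : BW) (v v' w : W) : h B (v + v') w = h B v w + h B v' w := by
  apply Complex.ext <;> simp [h, S_add_l]

theorem h_add_r (B : BW) (v w w' : W) : h B v (w + w') = h B v w + h B v w' := by
  apply Complex.ext <;> simp [h, S_add_r]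

theorem h_smul_l (B : BW) (c : ℂ) (v w : W) : h B (c • v) w = c * h B v w := by
  rw [csmul]
  apply Complex.ext
  · simp only [h, S_add_l, S_smul_l, S_I_l, Complex.mul_re]
    ring
  · simp only [h, S_add_l, S_smul_l, S_I_l, Complex.mul_im, II, S_neg_r]
    ring

theorem h_smul_r (B : BW) (c : ℂ) (v w : W) : h B v (c • w) = star c * h B v w := by
  rw [csmul]
  apply Complex.ext
  · simp only [h, S_add_r, S_smul_r, Complex.mul_re, Complex.star_def, Complex.conj_re,
      Complex.conj_im, smul_add]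
    ring
  · simp only [h, S_add_r, S_smul_r, Complex.mul_im, II, S_neg_r, Complex.star_def,
      Complex.conj_re, Complex.conj_im, smul_add, Icomm]
    ring

theorem h_zero_l (B : BW) (w : W) : h B 0 w = 0 := by
  have := h_smul_l B 0 0 w
  simpa using this

theorem h_zero_r (B : BW) (v : W) : h B v 0 = 0 := by
  have := h_smul_r B 0 v 0
  simpa using this

theorem h_sum_l (B : BW) (c : Fin 3 → ℂ) (g : X3) (w : W) :
    h B (∑ j, c j • g j) w = ∑ j, c j * h B (g j) w := by
  simp only [Fin.sum_univ_three, h_add_l, h_smul_l]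

theorem h_sum_r (B : BW) (c : Fin 3 → ℂ) (g : X3) (v : W) :
    h B v (∑ j, c j • g j) = ∑ j, star (c j) * h B v (g j) := by
  simp only [Fin.sum_univ_three, h_add_r, h_smul_r]

theorem h_self (B : BW) (hB : ∀ v w, B v w = -B w v) (v : W) :
    (h B v v).re = 2 * B v (Complex.I • v) := by
  simp only [h, S]
  rw [hB (Complex.I • v) v]
  ring

theorem expand (v : W) : v = ∑ k, v k • (id3 k) := by
  funext i
  simp only [id3, Finset.sum_apply, Pi.smul_apply, smul_eq_mul]
  rw [Finset.sum_eq_single i]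
  · simp
  · intro b _ hb
    simp [Pi.single_apply, hb.symm]
  · intro hi
    exact absurd (Finset.mem_univ i) hi

theorem hp_col {g : X3} (hg : g ∈ U3) (c : W) (j : Fin 3) : hp (g j) (mv g c) = c j := by
  have h1 : mv g (id3 j) = g j := by
    simp only [mv, id3]
    rw [Finset.sum_eq_single j]
    · simp
    · intro b _ hb
      simp [Pi.single_apply, hb]
    · intro hi
      exact absurd (Finset.mem_univ j) hi
  have h2 := hp_mv hg (id3 j) c
  rw [h1] at h2
  rw [h2]
  simp only [hp, id3]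
  rw [Finset.sum_eq_single j]
  · simp
  · intro b _ hb
    simp [Pi.single_apply, hb]
  · intro hi
    exact absurd (Finset.mem_univ j) hi

theorem row {g : X3} (hg : g ∈ U3) (l m : Fin 3) :
    ∑ j, g j l * star (g j m) = if l = m then 1 else 0 := by
  obtain ⟨k, hk, hgk, -⟩ := exists_inv hg
  have h1 : ∀ l j, k l j = star (g j l) := by
    intro l j
    have h2 : mv g (k l) = id3 l := by
      rw [← mm_apply, hgk]
    have h3 := hp_col hg (k l) j
    rw [h2] at h3
    rw [← h3]
    simp only [hp, id3]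
    rw [Finset.sum_eq_single l]
    · simp
    · intro b _ hb
      simp [Pi.single_apply, hb]
    · intro hi
      exact absurd (Finset.mem_univ l) hi
  have h4 := hk l m
  rw [← h4]
  simp only [hp, h1, star_star]

end StarUAux

open StarUAux in
/-- unitary invariance of the trace -/
theorem tr_unitary (B : BW) (hB : ∀ v w, B v w = -B w v) {g : X3} (hg : g ∈ U3) :
    ∑ k : Fin 3, B (Pi.single k (1 : ℂ) : W) (Complex.I • (Pi.single k (1 : ℂ) : W)) =
      ∑ j : Fin 3, B (g j) (Complex.I • g j) := by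
  have h1 : ∑ j, h B (g j) (g j) = ∑ k, h B (id3 k) (id3 k) := by
    have h2 : ∀ j, h B (g j) (g j) = ∑ k, ∑ l, (g j k * star (g j l)) * h B (id3 k) (id3 l) := by
      intro j
      conv_lhs => rw [expand (g j)]
      rw [h_sum_l]
      refine Finset.sum_congr rfl fun k _ => ?_
      rw [h_sum_r, Finset.mul_sum]
      refine Finset.sum_congr rfl fun l _ => ?_
      ring
    simp only [h2]
    rw [Finset.sum_comm]
    refine Finset.sum_congr rfl fun k _ => ?_
    rw [Finset.sum_comm]
    rw [Finset.sum_eq_single k]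
    · rw [← Finset.sum_mul, row hg, if_pos rfl, one_mul]
    · intro b _ hb
      rw [← Finset.sum_mul, row hg, if_neg (Ne.symm hb), zero_mul]
    · intro hi
      exact absurd (Finset.mem_univ k) hi
  have h3 := congrArg Complex.re h1
  rw [Complex.re_sum, Complex.re_sum] at h3
  simp only [h_self B hB] at h3
  rw [← Finset.mul_sum, ← Finset.mul_sum] at h3
  have h4 := mul_left_cancel₀ (two_ne_zero) h3
  exact h4.symm

namespace StarUAux

/-- multiplication by `i` -/
noncomputable def J : W →L[ℝ] W := ((Complex.I • ContinuousLinearMap.id ℂ W : W →L[ℂ] W)).restrictScalars ℝ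

theorem J_apply (v : W) : J v = Complex.I • v := by
  simp [J]

/-- the pull-back of bilinear forms by `J` -/
noncomputable def PJ : BW →L[ℝ] BW :=
  (((ContinuousLinearMap.compL ℝ W W (W →L[ℝ] ℝ)).flip J).comp
    (ContinuousLinearMap.flipₗᵢ ℝ W W ℝ).toContinuousLinearEquiv.toContinuousLinearMap).comp
  (((ContinuousLinearMap.compL ℝ W W (W →L[ℝ] ℝ)).flip J).comp
    (ContinuousLinearMap.flipₗᵢ ℝ W W ℝ).toContinuousLinearEquiv.toContinuousLinearMap)

theorem PJ_apply (B : BW) (v w : W) : PJ B v w = B (Complex.I • v) (Complex.I • w) := by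
  simp [PJ, J_apply]

theorem hf_PJ {τ : W → BW} (h : HF τ) : HF (fun z => PJ (τ z)) where
  smooth := PJ.contDiff.comp_contDiffOn h.smooth
  skew := fun z hz v w => by
    rw [PJ_apply, PJ_apply]
    exact h.skew z hz _ _
  hom := fun c hc z hz v w => by
    rw [PJ_apply, PJ_apply]
    have e : ∀ v : W, Complex.I • (c • v) = c • (Complex.I • v) := fun v => smul_comm _ _ _
    rw [e, e]
    exact h.hom c hc z hz _ _
  hor := fun z hz c w => by
    rw [PJ_apply, smul_smul]
    exact h.hor z hz _ _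

theorem alt_smul (B : BW) (hB : ∀ v w, B v w = -B w v) (a : ℂ) (e : W) :
    B (a • e) (Complex.I • (a • e)) = Complex.normSq a * B e (Complex.I • e) := by
  have h1 := h_self B hB (a • e)
  rw [h_smul_l, h_smul_r, ← mul_assoc, Complex.star_def, Complex.mul_conj,
    Complex.re_ofReal_mul, h_self B hB] at h1
  linarith

/-- the trace of the form -/
noncomputable def tt (τ : W → BW) (z : W) : ℝ :=
  ∑ k : Fin 3, τ z (Pi.single k (1 : ℂ) : W) (Complex.I • (Pi.single k (1 : ℂ) : W))

theorem tt_smooth {τ : W → BW} (h : HF τ) : ContDiffOn ℝ ∞ (tt τ) {0}ᶜ := by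
  unfold tt
  refine ContDiffOn.sum fun k _ => ?_
  exact (h.smooth.clm_apply contDiffOn_const).clm_apply contDiffOn_const

theorem tt_hom {τ : W → BW} (h : HF τ) {c : ℂ} (hc : c ≠ 0) {z : W} (hz : z ≠ 0) :
    Complex.normSq c * tt τ (c • z) = tt τ z := by
  unfold tt
  rw [Finset.mul_sum]
  refine Finset.sum_congr rfl fun k _ => ?_
  set e : W := Pi.single k (1 : ℂ) with he
  have hcz : c • z ≠ 0 := smul_ne_zero hc hz
  rw [← alt_smul (τ (c • z)) (h.skew _ hcz) c e]
  have e1 : Complex.I • (c • e) = c • (Complex.I • e) := smul_comm _ _ _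
  rw [e1, h.hom c hc z hz]

end StarUAux

open StarUAux in
theorem star_up {τ : W → BW} (hτ : HF τ) : ∃ σ : W → BW, HF σ ∧ ∀ g ∈ U3, cF σ g = st (cF τ g) := by
  have hω : HF (dB a0) := dB_hfc Psd.a0_conn
  have hf : HF (fun z => ((1 / 2) * (nsq z * tt τ z)) • dB a0 z) := by
    refine hf_smul ?_ ?_ hω
    · exact contDiffOn_const.mul (Psd.ConnBAux.contDiff_nsq.contDiffOn.mul (tt_smooth hτ))
    · intro c hc z hz
      show (1 / 2) * (nsq (c • z) * tt τ (c • z)) = (1 / 2) * (nsq z * tt τ z)
      rw [Psd.ConnBAux.nsq_smul, ← tt_hom hτ hc hz]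
      ring
  refine ⟨fun z => ((1 / 2) * (nsq z * tt τ z)) • dB a0 z - PJ (τ z), hf_sub hf (hf_PJ hτ), ?_⟩
  intro g hg
  have hg0 := col_ne hg 0
  have hT := cF_skew hτ hg
  have ht : tt τ (g 0) = cF τ g 0 1 + cF τ g 2 3 := by
    unfold tt
    rw [tr_unitary (τ (g 0)) (hτ.skew _ hg0) hg, Fin.sum_univ_three]
    have h0 : τ (g 0) (g 0) (Complex.I • g 0) = 0 := by
      have := hτ.hor (g 0) hg0 1 (Complex.I • g 0)
      rwa [one_smul] at this
    rw [h0, zero_add]
    rfl
  have hc := cF_dB_a0 hg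
  have key : ∀ i j, cF (fun z => ((1 / 2) * (nsq z * tt τ z)) • dB a0 z - PJ (τ z)) g i j =
      (1 / 2) * (cF τ g 0 1 + cF τ g 2 3) * c0 i j -
        τ (g 0) (Complex.I • fr (g 1) (g 2) i) (Complex.I • fr (g 1) (g 2) j) := by
    intro i j
    have hcij := congrFun (congrFun hc i) j
    rw [← hcij]
    simp only [cF, sub_apply, ContinuousLinearMap.smul_apply, PJ_apply, smul_eq_mul]
    rw [nsq_col hg, ht]
    simp only [cF]
    ring
  have i0 : Complex.I • fr (g 1) (g 2) 0 = fr (g 1) (g 2) 1 := rfl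
  have i1 : Complex.I • fr (g 1) (g 2) 1 = -fr (g 1) (g 2) 0 := II _
  have i2 : Complex.I • fr (g 1) (g 2) 2 = fr (g 1) (g 2) 3 := rfl
  have i3 : Complex.I • fr (g 1) (g 2) 3 = -fr (g 1) (g 2) 2 := II _
  have hk : ∀ i j, τ (g 0) (fr (g 1) (g 2) i) (fr (g 1) (g 2) j) = cF τ g i j := fun i j => rfl
  have s00 : cF τ g 0 0 = 0 := by have := hT 0 0; linarith
  have s11 : cF τ g 1 1 = 0 := by have := hT 1 1; linarith
  have s22 : cF τ g 2 2 = 0 := by have := hT 2 2; linarith
  have s33 : cF τ g 3 3 = 0 := by have := hT 3 3; linarith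
  have s01 := hT 0 1
  have s02 := hT 0 2
  have s03 := hT 0 3
  have s12 := hT 1 2
  have s13 := hT 1 3
  have s23 := hT 2 3
  funext i j
  rw [key]
  fin_cases i <;> fin_cases j <;>
    simp only [Fin.zero_eta, Fin.mk_one, Fin.reduceFinMk, i0, i1, i2, i3, map_neg, neg_apply, hk, c0, st,
      Matrix.cons_val_zero, Matrix.cons_val_one, Matrix.cons_val] <;> linarith

end Pool.Agent.Lib.DEn
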