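import Pool.Agent.Lib.DEn.RieB
import Pool.Agent.Lib.DEn.StarU
import Pool.Agent.Lib.DEn.QPos
import Pool.Agent.Lib.DEn.Peak

set_option autoImplicit false
set_option maxSynthPendingDepth 3

/-!
# The core inequality  (1.2 h)

`core_N`: `γ₀` from `riesz`, `p = cF (dB γ₀)`; `τ₁` the average of `Θ` (`av_hf`), `γ₁` the average of `γ₀` (`av_basic`), `σ` the star of `dB γ₁` (`star_up`), `τ = τ₁ - σ` (`hf_sub`). On `U3`: `cF τ₁ = C4 (cF Θ)`, `cF (dB γ₁) = C4 p`, `cF σ = st (C4 p)`. `Wk ν τ`: for `γ` basic, with `D = cF (dB γ)`: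
`∫ wd D (C4 (cF Θ)) = ∫ wd (C4 D) (cF Θ)` (entry by entry `Cv_self`) `= ∫ ip (C4 D) p = ∫ ip D (C4 p) = ∫ wd D (st (C4 p))` (`wd_st`, skewness). By `q_pos`: `0 ≤ ∫ wd (C4 Θ - st (C4 p)) (C4 Θ - st (C4 p)) = ∫ wd (C4 Θ) (C4 Θ) - 2 ∫ ip (C4 Θ) (C4 p) + ∫ wd (C4 p) (C4 p)` (`wd_st`, `wd_st_st`), the last integral is zero
(`stokes0` for `dB γ₁`, `dB_cl`), and `|∫ ip (C4 Θ) (C4 p)| ≤ √(∫ ip (C4 Θ) (C4 Θ)) √(∫ ip (C4 p) (C4 p))` (Cauchy-Schwarz for the integrals), `∫ ip (C4 p) (C4 p) ≤ ∫ ip p p ≤ G ^ 2` (`Cv_contr` entry by entry). `core`: the hypothesis for `γ'` of `av_basic` gives the hypothesis of `core_N` for each `N`; let `N → ∞` (`wd_lim`, `ip_lim`).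
-/

open MeasureTheory Set Metric Filter
open scoped ContDiff Topology

namespace Pool.Agent.Lib.DEn

open Pool.Agent.P28b04d
open Pool.Agent.Lib.Psd (W hp ON3 fr cmp st asd sd nrm2 Pf Skew Conn Basic dd a0 c0)

namespace CoreNAux

theorem lin6 {ν : Measure X3} {a b c d e f : X3 → ℝ} (ha : Integrable a ν) (hb : Integrable b ν)
    (hc : Integrable c ν) (hd : Integrable d ν) (he : Integrable e ν) (hf : Integrable f ν) :
    ∫ g, (a g + b g - c g - d g + e g + f g) ∂ν =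
      ∫ g, a g ∂ν + ∫ g, b g ∂ν - ∫ g, c g ∂ν - ∫ g, d g ∂ν + ∫ g, e g ∂ν + ∫ g, f g ∂ν := by
  have h1 : Integrable (fun g => a g + b g) ν := ha.add hb
  have h2 : Integrable (fun g => a g + b g - c g) ν := h1.sub hc
  have h3 : Integrable (fun g => a g + b g - c g - d g) ν := h2.sub hd
  have h4 : Integrable (fun g => a g + b g - c g - d g + e g) ν := h3.add he
  rw [integral_add h4 hf, integral_add h3 he, integral_sub h2 hd, integral_sub h1 hc,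
    integral_add ha hb]

theorem lin3 {ν : Measure X3} {a b c : X3 → ℝ} (ha : Integrable a ν) (hb : Integrable b ν)
    (hc : Integrable c ν) : ∫ g, (a g - 2 * b g + c g) ∂ν =
      ∫ g, a g ∂ν - 2 * ∫ g, b g ∂ν + ∫ g, c g ∂ν := by
  have h0 : Integrable (fun g => 2 * b g) ν := hb.const_mul 2
  have h1 : Integrable (fun g => a g - 2 * b g) ν := ha.sub h0
  rw [integral_add h1 hc, integral_sub ha h0, integral_const_mul]

theorem linq {ν : Measure X3} {a b c : X3 → ℝ} (t : ℝ) (ha : Integrable a ν) (hb : Integrable b ν)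
    (hc : Integrable c ν) : ∫ g, (t * t * a g + 2 * t * b g + c g) ∂ν =
      t * t * ∫ g, a g ∂ν + 2 * t * ∫ g, b g ∂ν + ∫ g, c g ∂ν := by
  have h0 : Integrable (fun g => t * t * a g) ν := ha.const_mul _
  have h1 : Integrable (fun g => 2 * t * b g) ν := hb.const_mul _
  have h2 : Integrable (fun g => t * t * a g + 2 * t * b g) ν := h0.add h1
  rw [integral_add h2 hc, integral_add h0 h1, integral_const_mul, integral_const_mul]

theorem ct_wd {A B : X3 → A4} (hA : CtU A) (hB : CtU B) :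
    ContinuousOn (fun g => wd (A g) (B g)) U3 := by
  unfold wd
  exact (((((((hA 0 1).mul (hB 2 3)).add ((hA 2 3).mul (hB 0 1))).sub ((hA 0 2).mul (hB 1 3))).sub
    ((hA 1 3).mul (hB 0 2))).add ((hA 0 3).mul (hB 1 2))).add ((hA 1 2).mul (hB 0 3)))

theorem ct_ip {A B : X3 → A4} (hA : CtU A) (hB : CtU B) :
    ContinuousOn (fun g => ip (A g) (B g)) U3 := by
  unfold ip
  refine ContinuousOn.div_const ?_ 2
  exact continuousOn_finset_sum _ fun i _ => continuousOn_finset_sum _ fun j _ =>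
    (hA i j).mul (hB i j)

theorem ct_C4 {ν : Measure X3} (hν : Ha ν) (N : ℕ) {A : X3 → A4} (hA : CtU A) : CtU (C4 ν N A) :=
  fun i j => (Cv_cont hν N (hA i j)).continuousOn

/-- `∫ wd (C4 A) B = ∫ wd A (C4 B)` -/
theorem self_wd {ν : Measure X3} (hν : Ha ν) (N : ℕ) {A B : X3 → A4} (hA : CtU A) (hB : CtU B) :
    ∫ g, wd (C4 ν N A g) (B g) ∂ν = ∫ g, wd (A g) (C4 ν N B g) ∂ν := by
  have hC := ct_C4 hν N hA
  have hD := ct_C4 hν N hB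
  have I1 : ∀ i j k l, Integrable (fun g => C4 ν N A g i j * B g k l) ν := fun i j k l =>
    integrable_u hν ((hC i j).mul (hB k l))
  have I2 : ∀ i j k l, Integrable (fun g => A g i j * C4 ν N B g k l) ν := fun i j k l =>
    integrable_u hν ((hA i j).mul (hD k l))
  have E : ∀ i j k l, ∫ g, C4 ν N A g i j * B g k l ∂ν = ∫ g, A g i j * C4 ν N B g k l ∂ν :=
    fun i j k l => Cv_self hν N (hA i j) (hB k l)
  have L : ∫ g, wd (C4 ν N A g) (B g) ∂ν =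
      ∫ g, C4 ν N A g 0 1 * B g 2 3 ∂ν + ∫ g, C4 ν N A g 2 3 * B g 0 1 ∂ν
        - ∫ g, C4 ν N A g 0 2 * B g 1 3 ∂ν - ∫ g, C4 ν N A g 1 3 * B g 0 2 ∂ν
        + ∫ g, C4 ν N A g 0 3 * B g 1 2 ∂ν + ∫ g, C4 ν N A g 1 2 * B g 0 3 ∂ν := by
    unfold wd
    exact lin6 (I1 0 1 2 3) (I1 2 3 0 1) (I1 0 2 1 3) (I1 1 3 0 2) (I1 0 3 1 2) (I1 1 2 0 3)
  have R : ∫ g, wd (A g) (C4 ν N B g) ∂ν =
      ∫ g, A g 0 1 * C4 ν N B g 2 3 ∂ν + ∫ g, A g 2 3 * C4 ν N B g 0 1 ∂ν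
        - ∫ g, A g 0 2 * C4 ν N B g 1 3 ∂ν - ∫ g, A g 1 3 * C4 ν N B g 0 2 ∂ν
        + ∫ g, A g 0 3 * C4 ν N B g 1 2 ∂ν + ∫ g, A g 1 2 * C4 ν N B g 0 3 ∂ν := by
    unfold wd
    exact lin6 (I2 0 1 2 3) (I2 2 3 0 1) (I2 0 2 1 3) (I2 1 3 0 2) (I2 0 3 1 2) (I2 1 2 0 3)
  rw [L, R, E 0 1 2 3, E 2 3 0 1, E 0 2 1 3, E 1 3 0 2, E 0 3 1 2, E 1 2 0 3]

theorem int_ip {ν : Measure X3} (hν : Ha ν) {A B : X3 → A4} (hA : CtU A) (hB : CtU B) :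
    ∫ g, ip (A g) (B g) ∂ν = (∑ i, ∑ j, ∫ g, A g i j * B g i j ∂ν) / 2 := by
  have I : ∀ i j, Integrable (fun g => A g i j * B g i j) ν := fun i j =>
    integrable_u hν ((hA i j).mul (hB i j))
  unfold ip
  rw [integral_div, integral_finset_sum _ fun i _ => integrable_finset_sum _ fun j _ => I i j]
  congr 1
  exact Finset.sum_congr rfl fun i _ => integral_finset_sum _ fun j _ => I i j

/-- `∫ ip (C4 A) B = ∫ ip A (C4 B)` -/
theorem self_ip {ν : Measure X3} (hν : Ha ν) (N : ℕ) {A B : X3 → A4} (hA : CtU A) (hB : CtU B) :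
    ∫ g, ip (C4 ν N A g) (B g) ∂ν = ∫ g, ip (A g) (C4 ν N B g) ∂ν := by
  rw [int_ip hν (ct_C4 hν N hA) hB, int_ip hν hA (ct_C4 hν N hB)]
  congr 1
  exact Finset.sum_congr rfl fun i _ => Finset.sum_congr rfl fun j _ =>
    Cv_self hν N (hA i j) (hB i j)

theorem contr_ip {ν : Measure X3} (hν : Ha ν) (N : ℕ) {A : X3 → A4} (hA : CtU A) :
    ∫ g, ip (C4 ν N A g) (C4 ν N A g) ∂ν ≤ ∫ g, ip (A g) (A g) ∂ν := by
  rw [int_ip hν (ct_C4 hν N hA) (ct_C4 hν N hA), int_ip hν hA hA]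
  refine div_le_div_of_nonneg_right ?_ (by norm_num)
  refine Finset.sum_le_sum fun i _ => Finset.sum_le_sum fun j _ => ?_
  have h := Cv_contr hν N (hA i j)
  simp only [pow_two] at h
  exact h

theorem ip_nn (T : A4) : 0 ≤ ip T T := ip_nonneg T

/-- Cauchy-Schwarz for the integrals -/
theorem int_cs {ν : Measure X3} (hν : Ha ν) {A B : X3 → A4} (hA : CtU A) (hB : CtU B) :
    |∫ g, ip (A g) (B g) ∂ν| ≤
      Real.sqrt (∫ g, ip (A g) (A g) ∂ν) * Real.sqrt (∫ g, ip (B g) (B g) ∂ν) := by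
  have IAA := integrable_u hν (ct_ip hA hA)
  have IAB := integrable_u hν (ct_ip hA hB)
  have IBB := integrable_u hν (ct_ip hB hB)
  have ha : 0 ≤ ∫ g, ip (A g) (A g) ∂ν := integral_nonneg fun g => ip_nonneg _
  have key : ∀ t : ℝ, 0 ≤ (∫ g, ip (B g) (B g) ∂ν) * (t * t) +
      (2 * ∫ g, ip (A g) (B g) ∂ν) * t + ∫ g, ip (A g) (A g) ∂ν := by
    intro t
    have h1 : 0 ≤ ∫ g, ip (A g + t • B g) (A g + t • B g) ∂ν :=
      integral_nonneg fun g => ip_nonneg _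
    have h2 : ∀ g, ip (A g + t • B g) (A g + t • B g) =
        (t * t) * ip (B g) (B g) + (2 * t) * ip (A g) (B g) + ip (A g) (A g) := by
      intro g
      rw [ip_add, ip_smul, ip_comm (A g) (A g + t • B g), ip_comm (B g) (A g + t • B g),
        ip_add, ip_add, ip_smul, ip_smul, ip_comm (B g) (A g)]
      ring
    simp only [h2] at h1
    rw [linq t IBB IAB IAA] at h1
    linarith
  have hd := discrim_le_zero key
  unfold discrim at hd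
  rw [← Real.sqrt_mul ha]
  refine Real.abs_le_sqrt ?_
  nlinarith

theorem skew_C4 {ν : Measure X3} (hν : Ha ν) (N : ℕ) {A : X3 → A4} (hA : ∀ g ∈ U3, Skew (A g))
    (g : X3) : Skew (C4 ν N A g) := by
  intro i j
  show (cN ν N)⁻¹ * ∫ h, kN N g h * A h i j ∂ν = -((cN ν N)⁻¹ * ∫ h, kN N g h * A h j i ∂ν)
  rw [integral_congr_u hν (k := fun h => -(kN N g h * A h j i)) (fun h hh => by
    rw [hA h hh i j]; ring), integral_neg]
  ring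

theorem wd_sub_st {X Y : A4} (hX : Skew X) (hY : Skew Y) :
    wd (X - st Y) (X - st Y) = wd X X - 2 * ip X Y + wd Y Y := by
  have h0 : X - st Y = X + (-1 : ℝ) • st Y := by
    rw [neg_one_smul, sub_eq_add_neg]
  rw [h0, wd_add, wd_smul, wd_comm X (X + (-1 : ℝ) • st Y), wd_comm (st Y) (X + (-1 : ℝ) • st Y),
    wd_add, wd_add, wd_smul, wd_smul, wd_comm (st Y) X, wd_st hX hY, wd_st_st hY hY]
  ring

end CoreNAux

open CoreNAux

theorem core_N {ν : Measure X3} (hν : Ha ν) (N : ℕ) {Θ : W → BW} (hΘ : HF Θ) {G : ℝ} (hG : 0 ≤ G)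
    (hb : ∀ γ : W → W →L[ℝ] ℝ, Basic γ → |∫ g, wd (C4 ν N (cF (dB γ)) g) (cF Θ g) ∂ν| ≤
      G * Real.sqrt (∫ g, ip (C4 ν N (cF (dB γ)) g) (C4 ν N (cF (dB γ)) g) ∂ν)) :
    -∫ g, wd (C4 ν N (cF Θ) g) (C4 ν N (cF Θ) g) ∂ν ≤
      2 * G * Real.sqrt (∫ g, ip (C4 ν N (cF Θ) g) (C4 ν N (cF Θ) g) ∂ν) := by
  obtain ⟨γ₀, hγ₀, hrep, hG2⟩ := riesz hν N hΘ hG hb
  obtain ⟨τ₁, hτ₁, e₁⟩ := av_hf hν N hΘ
  obtain ⟨γ₁, hγ₁, e₂⟩ := av_basic hν N hγ₀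
  obtain ⟨σ, hσ, e₃⟩ := star_up (dB_hf hγ₁)
  have hτ := hf_sub hτ₁ hσ
  have cΘ : CtU (cF Θ) := ctU_cF hΘ.smooth
  have cp : CtU (cF (dB γ₀)) := ctU_cF (dB_hf hγ₀).smooth
  have cX : CtU (C4 ν N (cF Θ)) := ct_C4 hν N cΘ
  have cY : CtU (C4 ν N (cF (dB γ₀))) := ct_C4 hν N cp
  have sX : ∀ g, Skew (C4 ν N (cF Θ) g) := skew_C4 hν N fun g hg => cF_skew hΘ hg
  have sY : ∀ g, Skew (C4 ν N (cF (dB γ₀)) g) := skew_C4 hν N fun g hg => cF_skew (dB_hf hγ₀) hg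
  have eτ : ∀ g ∈ U3, cF (fun z => τ₁ z - σ z) g =
      C4 ν N (cF Θ) g - st (C4 ν N (cF (dB γ₀)) g) := by
    intro g hg
    rw [← e₁ g hg, ← e₂ g hg, ← e₃ g hg]
    rfl
  have hw : Wk ν (fun z => τ₁ z - σ z) := by
    intro γ hγ
    have cD : CtU (cF (dB γ)) := ctU_cF (dB_hf hγ).smooth
    have h1 : ∀ g ∈ U3, wd (cF (dB γ) g) (cF (fun z => τ₁ z - σ z) g) =
        wd (cF (dB γ) g) (C4 ν N (cF Θ) g) - ip (cF (dB γ) g) (C4 ν N (cF (dB γ₀)) g) := by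
      intro g hg
      have h0 : C4 ν N (cF Θ) g - st (C4 ν N (cF (dB γ₀)) g) =
          C4 ν N (cF Θ) g + (-1 : ℝ) • st (C4 ν N (cF (dB γ₀)) g) := by
        rw [neg_one_smul, sub_eq_add_neg]
      rw [eτ g hg, h0, wd_comm, wd_add, wd_smul, wd_comm (st _) (cF (dB γ) g),
        wd_st (cF_skew (dB_hf hγ) hg) (sY g), wd_comm (C4 ν N (cF Θ) g)]
      ring
    rw [integral_congr_u hν h1, integral_sub (integrable_u hν (ct_wd cD cX))
      (integrable_u hν (ct_ip cD cY)), ← self_wd hν N cD cΘ, ← self_ip hν N cD cp, hrep γ hγ,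
      sub_self]
  have hq := q_pos hν hτ hw
  have h2 : ∀ g ∈ U3, wd (cF (fun z => τ₁ z - σ z) g) (cF (fun z => τ₁ z - σ z) g) =
      wd (C4 ν N (cF Θ) g) (C4 ν N (cF Θ) g) -
        2 * ip (C4 ν N (cF Θ) g) (C4 ν N (cF (dB γ₀)) g) +
        wd (C4 ν N (cF (dB γ₀)) g) (C4 ν N (cF (dB γ₀)) g) := by
    intro g hg
    rw [eτ g hg, wd_sub_st (sX g) (sY g)]
  have hY0 : ∫ g, wd (C4 ν N (cF (dB γ₀)) g) (C4 ν N (cF (dB γ₀)) g) ∂ν = 0 := by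
    rw [← stokes0 hν hγ₁ (dB_hf hγ₁) (dB_cl hγ₁.smooth)]
    exact integral_congr_u hν fun g hg => by rw [e₂ g hg]
  rw [integral_congr_u hν h2, lin3 (integrable_u hν (ct_wd cX cX)) (integrable_u hν (ct_ip cX cY))
    (integrable_u hν (ct_wd cY cY)), hY0] at hq
  have hcs := int_cs hν cX cY
  have hYG : Real.sqrt (∫ g, ip (C4 ν N (cF (dB γ₀)) g) (C4 ν N (cF (dB γ₀)) g) ∂ν) ≤ G :=
    Real.sqrt_le_iff.2 ⟨hG, (contr_ip hν N cp).trans hG2⟩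
  have h3 : Real.sqrt (∫ g, ip (C4 ν N (cF Θ) g) (C4 ν N (cF Θ) g) ∂ν) *
      Real.sqrt (∫ g, ip (C4 ν N (cF (dB γ₀)) g) (C4 ν N (cF (dB γ₀)) g) ∂ν) ≤
      Real.sqrt (∫ g, ip (C4 ν N (cF Θ) g) (C4 ν N (cF Θ) g) ∂ν) * G :=
    mul_le_mul_of_nonneg_left hYG (Real.sqrt_nonneg _)
  have h4 := neg_abs_le (∫ g, ip (C4 ν N (cF Θ) g) (C4 ν N (cF (dB γ₀)) g) ∂ν)
  nlinarith

theorem core {ν : Measure X3} (hν : Ha ν) {Θ : W → BW} (hΘ : HF Θ) {G : ℝ} (hG : 0 ≤ G)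
    (hb : ∀ γ : W → W →L[ℝ] ℝ, Basic γ → |∫ g, wd (cF (dB γ) g) (cF Θ g) ∂ν| ≤
      G * Real.sqrt (∫ g, ip (cF (dB γ) g) (cF (dB γ) g) ∂ν)) :
    -∫ g, wd (cF Θ g) (cF Θ g) ∂ν ≤ 2 * G * Real.sqrt (∫ g, ip (cF Θ g) (cF Θ g) ∂ν) := by
  have cΘ : CtU (cF Θ) := ctU_cF hΘ.smooth
  have hN : ∀ N : ℕ, -∫ g, wd (C4 ν N (cF Θ) g) (C4 ν N (cF Θ) g) ∂ν ≤
      2 * G * Real.sqrt (∫ g, ip (C4 ν N (cF Θ) g) (C4 ν N (cF Θ) g) ∂ν) := by
    intro N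
    refine core_N hν N hΘ hG fun γ hγ => ?_
    obtain ⟨γ', hγ', e⟩ := av_basic hν N hγ
    have h := hb γ' hγ'
    rw [integral_congr_u hν (f := fun g => wd (cF (dB γ') g) (cF Θ g))
        (k := fun g => wd (C4 ν N (cF (dB γ)) g) (cF Θ g)) (fun g hg => by rw [e g hg]),
      integral_congr_u hν (f := fun g => ip (cF (dB γ') g) (cF (dB γ') g))
        (k := fun g => ip (C4 ν N (cF (dB γ)) g) (C4 ν N (cF (dB γ)) g))
        (fun g hg => by rw [e g hg])] at h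
    exact h
  refine le_of_tendsto_of_tendsto' (wd_lim hν cΘ).neg
    (((Real.continuous_sqrt.tendsto _).comp (ip_lim hν cΘ)).const_mul (2 * G)) hN

end Pool.Agent.Lib.DEn
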