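import Pool.Agent.Lib.DEn.BSepA
import Pool.Agent.Lib.DEn.BCv
import Pool.Agent.Lib.DEn.BNear
import Pool.Agent.Lib.DEn.BMu
import Pool.Agent.Lib.DEn.BReal2
import Pool.Agent.Lib.DEn.BInt
import Pool.Agent.Lib.DEn.CoreN
import Pool.Agent.Lib.DEn.IpU
import Pool.Agent.Lib.DEn.StarU
import Pool.Agent.Lib.DEn.Peak

set_option autoImplicit false
set_option maxSynthPendingDepth 3

/-!
# Simultaneous descent with a prescribed rate  (2 h)

`K` nonempty (else `γ = 0`). `F = cF Θ`, `|F i j| ≤ M` on `U3` (compactness), `D = 32 M + 16`, `f = - wd F F ≥ 0`, `I = ∫ η² f`, `0 < H`. Functions on the projective plane (`ip_up`, `star_up`, `wd_eq_ip`): `q₁ (g 0) = wd (F g) (F g)`; `u z = max 0 (κ + q₁ z)`, `h z = - η z * q₁ z`: continuous off `0`, homogeneous; `u (g 0) ≥ 0`, `κ ≤ u (g 0) - wd (F g) (F g)`, `u (g 0) = 0` on `K`, `h (g 0) = η f ≥ 0`.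
`ε` from `est_real2`. `N` from `near4` (for `F`) and `near` (for `u (g 0)` and `h (g 0)`) with `ε`. `V = RieBAux.VB` (the basic forms), `L = RieBAux.Lm hν N`, `B = RieBAux.Bm hν N` (`Bm_apply`), finite dimensional range as in the proof of `riesz`; `ℓ g γ = √H * wd (C4 ν N (cF (dB γ)) g) (F g)` for `g ∈ K` (linear in `γ`; continuous in `g`), `b g = h (g 0)`.
If there is `v ∈ V` with `B v v ≤ 1` and `ℓ g v + b g ≤ 0` on `K`: the average of `√H • v` (`av_basic`: `cF (dB γ₁) = C4 ν N (cF (dB (√H • v)))` on `U3`) is the wanted form. Otherwise `sep_aff` with `δ = ε` gives `s ⊆ K`, `w`; `σ = ∑ w k * b k`. With `μ g = muW ν L s w (g 0)`, as `L → ∞`: `∫ μ g * wd (C4 .. g) (F g) → ∑ w k * wd (C4 .. k) (F k)` for every `γ` (`mu_lim` for the function of `ip_up` of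
`dB γ₁` and the star of `Θ`), so `cvg_fin` gives, for large `L`, `|∫ wd (C4 .. g) (μ g • F g)| ≤ ((σ + ε) / √H + ε / √H) √(B γ γ)` for all `γ` (`B γ γ = 0` implies that `C4 ..` vanishes on `U3`: `eq_zero_of_int`, `ip_zero`); `(cN ν N)⁻¹ * ∫ μ g * u (g 0) ≤ ε` (`mu_lim`: the limit is `∑ w k * u (k 0) = 0`) and `σ - ε ≤ ∫ μ g * h (g 0)` (`mu_lim`). Fix such an `L`;
`Θ' z = muW .. z • Θ z` is `HF` (`hf_smul`, `mu_hom`, `mu_smooth`), `cF Θ' g = μ g • F g`; `core_N` for `Θ'`, `G = (σ + 2 ε) / √H ≥ 0`. With `ρ = Cv ν N μ`, `Ψ = C4 ν N (cF Θ')`: `est_int` with `π = 1`, `b = κ`: hypotheses from `near4`, `near` and `Cv_small` (`u (g 0) ρ g ≤ Cv N (μ u) g + ε (ρ + 1) ≤ ε (ρ + 2)`), `Cv_one` (`∫ ρ = ∫ μ = 1`, `mu_int`), `Cv_nonneg`. `X = - ∫ ρ² wd F F`, `Y = ∫ (ρ² + 1) = 1 + ∫ ρ² ≥ 2`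
(the conclusion `1 ≤ (∫ ρ² / 1) * ∫ 1`). `σ - 3 ε ≤ ∫ ρ h ≤ √I √X`: `∫ ρ h = ∫ Cv N μ * h = ∫ μ * Cv N h` (`Cv_self`) and `|Cv N h g - h g| ≤ 2 ε` on `U3` (`near` with the constant function `1`, `Cv N 1 = 1` on `U3`: `int_kN`); Cauchy-Schwarz for `ρ h = (η √f) (ρ √f)`. This contradicts `est_real2`.
-/

open MeasureTheory Set Metric Filter
open scoped ContDiff Topology

namespace Pool.Agent.Lib.DEn

open Pool.Agent.P28b04d
open Pool.Agent.Lib.Psd (W hp ON3 fr cmp st asd sd nrm2 Pf Skew Conn Basic dd a0 c0 Mat form fs Tan tv cmpM NondegM pb)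

namespace BEtaAux

open RieBAux

theorem exists_frame {z : W} (hz : z ≠ 0) : ∃ g ∈ U3, ∃ c : ℂ, c ≠ 0 ∧ z = c • g 0 := by
  have hp : 0 < nsq z := Psd.ConnBAux.nsq_pos hz
  set r : ℝ := Real.sqrt (nsq z) with hr
  have hr0 : 0 < r := Real.sqrt_pos.2 hp
  have hrr : r * r = nsq z := Real.mul_self_sqrt hp.le
  have h1 : nsq (((r⁻¹ : ℝ) : ℂ) • z) = 1 := by
    have h2 : nsq (((r⁻¹ : ℝ) : ℂ) • z) = (r⁻¹ * r⁻¹) * nsq z := by
      unfold nsq
      rw [Finset.mul_sum]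
      refine Finset.sum_congr rfl fun k _ => ?_
      rw [Pi.smul_apply, smul_eq_mul, Complex.normSq_mul, Complex.normSq_ofReal]
    rw [h2, ← hrr]
    field_simp
  obtain ⟨g, hg, hg0⟩ := exists_col h1
  refine ⟨g, hg, (r : ℂ), ?_, ?_⟩
  · exact_mod_cast hr0.ne'
  · rw [hg0, smul_smul]
    have h3 : (r : ℂ) * ((r⁻¹ : ℝ) : ℂ) = 1 := by
      rw [← Complex.ofReal_mul, mul_inv_cancel₀ hr0.ne', Complex.ofReal_one]
    rw [h3, one_smul]

theorem ct_col {f : W → ℝ} (hf : ContinuousOn f {0}ᶜ) : ContinuousOn (fun g : X3 => f (g 0)) U3 :=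
  hf.comp (continuous_apply 0).continuousOn fun _ hg => col_ne hg 0

/-- the wedge product with a fixed form is a function on the plane -/
theorem wd_up {τ σ : W → BW} (hτ : HF τ) (hσ : HF σ) :
    ∃ f : W → ℝ, ContDiffOn ℝ ∞ f {0}ᶜ ∧ (∀ c : ℂ, c ≠ 0 → ∀ z : W, z ≠ 0 → f (c • z) = f z) ∧
      ∀ g ∈ U3, f (g 0) = wd (cF τ g) (cF σ g) := by
  obtain ⟨σ', hσ', e⟩ := star_up hσ
  obtain ⟨f, h1, h2, h3⟩ := ip_up hτ hσ'
  refine ⟨f, h1, h2, fun g hg => ?_⟩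
  rw [h3 g hg, e g hg, wd_eq_ip (cF_skew hτ hg) (cF_skew hσ hg)]

theorem rng {ν : Measure X3} (hν : Ha ν) (N : ℕ) :
    FiniteDimensional ℝ (LinearMap.range (Lm hν N)) := by
  obtain ⟨P, hP, hmem⟩ := fin_cv hν N
  have := PP_fin P hP
  refine Submodule.finiteDimensional_of_le (S₂ := PP P) ?_
  rintro _ ⟨γ, rfl⟩ i j
  exact hmem _ (ct_dB γ.2 i j)

/-- evaluation at `g` -/
noncomputable def ev {ν : Measure X3} (hν : Ha ν) (N : ℕ) (F : X3 → A4) (g : X3) : VB →ₗ[ℝ] ℝ where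
  toFun γ := wd (Lm hν N γ g) (F g)
  map_add' γ δ := by rw [map_add, Pi.add_apply, wd_add]
  map_smul' c γ := by rw [map_smul, Pi.smul_apply, wd_smul, RingHom.id_apply, smul_eq_mul]

theorem ev_apply {ν : Measure X3} (hν : Ha ν) (N : ℕ) (F : X3 → A4) (g : X3) (γ : VB) :
    ev hν N F g γ = wd (Lm hν N γ g) (F g) := rfl

theorem wd_zero (A : A4) : wd 0 A = 0 := by
  simp [wd]

theorem cF_smul (f : W → ℝ) (Θ : W → BW) (g : X3) : cF (fun z => f z • Θ z) g = f (g 0) • cF Θ g := by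
  funext i j
  rfl

theorem wd_smul_right (c : ℝ) (A B : A4) : wd A (c • B) = c * wd A B := by
  rw [wd_comm, wd_smul, wd_comm]

/-- the hypotheses of `sep_fin`, `cvg_fin` for the bilinear form -/
theorem Bm_facts {ν : Measure X3} (hν : Ha ν) (N : ℕ) :
    (∀ x y, Bm hν N x y = Bm hν N y x) ∧ (∀ x, 0 ≤ Bm hν N x x) ∧
      ∀ x, Lm hν N x = 0 → Bm hν N x x = 0 := by
  refine ⟨?_, ?_, ?_⟩
  · intro γ δ
    rw [Bm_apply, Bm_apply]
    refine integral_congr_u hν fun g _ => ?_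
    rw [ip_comm]
  · intro γ
    rw [Bm_apply]
    exact integral_nonneg fun g => ip_nonneg _
  · intro γ h0
    rw [Bm_apply, h0]
    have e : ∀ g : X3, ip ((0 : X3 → A4) g) ((0 : X3 → A4) g) = 0 := by
      intro g
      simp [ip]
    simp only [e]
    simp

theorem bound_of_ct {f : X3 → ℝ} (hf : ContinuousOn f U3) : ∃ M : ℝ, 0 ≤ M ∧ ∀ g ∈ U3, |f g| ≤ M := by
  obtain ⟨C, hC⟩ := isCompact_U3.exists_bound_of_continuousOn hf
  exact ⟨|C|, abs_nonneg _, fun g hg => (hC g hg).trans (le_abs_self C)⟩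

theorem bound4 {F : X3 → A4} (hF : CtU F) : ∃ M : ℝ, 0 ≤ M ∧ ∀ g ∈ U3, ∀ i j, |F g i j| ≤ M := by
  have h : ∀ i j : Fin 4, ∃ M : ℝ, 0 ≤ M ∧ ∀ g ∈ U3, |F g i j| ≤ M := fun i j =>
    bound_of_ct (hF i j)
  choose M hM0 hM using h
  refine ⟨∑ i, ∑ j, M i j, Finset.sum_nonneg fun i _ => Finset.sum_nonneg fun j _ => hM0 i j,
    fun g hg i j => (hM i j g hg).trans ?_⟩
  refine (Finset.single_le_sum (f := fun j => M i j) (fun j _ => hM0 i j)
    (Finset.mem_univ j)).trans ?_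
  exact Finset.single_le_sum (f := fun i => ∑ j, M i j)
    (fun i _ => Finset.sum_nonneg fun j _ => hM0 i j) (Finset.mem_univ i)

/-- the limit of the functionals -/
theorem lim_lm {ν : Measure X3} (hν : Ha ν) (N : ℕ) {Θ : W → BW} (hΘ : HF Θ) {s : Finset X3}
    {w : X3 → ℝ} (hs : ∀ k ∈ s, k ∈ U3)
    (hΘ' : ∀ n, HF (fun z => muW ν n s w z • Θ z)) (γ : VB) :
    Tendsto (fun n => lm hν N (hΘ' n) γ) atTop (𝓝 ((∑ k ∈ s, w k • ev hν N (cF Θ) k) γ)) := by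
  obtain ⟨γ₁, hγ₁, e₁⟩ := av_basic hν N γ.2
  obtain ⟨q, hq1, hq2, hq3⟩ := wd_up (dB_hf hγ₁) hΘ
  have h1 := mu_lim hν w hs hq1.continuousOn hq2
  have h2 : (∑ k ∈ s, w k • ev hν N (cF Θ) k) γ = ∑ k ∈ s, w k * q (k 0) := by
    rw [LinearMap.sum_apply]
    refine Finset.sum_congr rfl fun k hk => ?_
    rw [LinearMap.smul_apply, smul_eq_mul, ev_apply, hq3 k (hs k hk), e₁ k (hs k hk)]
    rfl
  rw [h2]
  refine h1.congr fun n => ?_
  rw [lm_apply]
  refine integral_congr_u hν fun g hg => ?_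
  rw [cF_smul, wd_smul_right, hq3 g hg, e₁ g hg]
  rfl

/-- Cauchy-Schwarz with a weight -/
theorem csw {ν : Measure X3} (hν : Ha ν) {p q f : X3 → ℝ} (hp : ContinuousOn p U3)
    (hq : ContinuousOn q U3) (hf : ContinuousOn f U3) (hf0 : ∀ g ∈ U3, 0 ≤ f g) :
    ∫ g, p g * q g * f g ∂ν ≤
      Real.sqrt ((∫ g, p g ^ 2 * f g ∂ν) * ∫ g, q g ^ 2 * f g ∂ν) := by
  have i1 : Integrable (fun g => p g ^ 2 * f g) ν := integrable_u hν ((hp.pow 2).mul hf)
  have i2 : Integrable (fun g => q g ^ 2 * f g) ν := integrable_u hν ((hq.pow 2).mul hf)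
  have i3 : Integrable (fun g => p g * q g * f g) ν := integrable_u hν ((hp.mul hq).mul hf)
  have key : ∀ t : ℝ, 0 ≤ (∫ g, p g ^ 2 * f g ∂ν) * (t * t) + (2 * ∫ g, p g * q g * f g ∂ν) * t +
      ∫ g, q g ^ 2 * f g ∂ν := by
    intro t
    have h1 : 0 ≤ ∫ g, (p g * t + q g) ^ 2 * f g ∂ν :=
      integral_nonneg_of_ae (ae_u hν fun g hg => mul_nonneg (sq_nonneg _) (hf0 g hg))
    have h2 : ∫ g, (p g * t + q g) ^ 2 * f g ∂ν =
        ∫ g, (p g ^ 2 * f g * (t * t) + p g * q g * f g * (2 * t) + q g ^ 2 * f g) ∂ν := by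
      congr 1
      funext g
      ring
    have j1 : Integrable (fun g => p g ^ 2 * f g * (t * t)) ν := i1.mul_const _
    have j3 : Integrable (fun g => p g * q g * f g * (2 * t)) ν := i3.mul_const _
    have j4 : Integrable (fun g => p g ^ 2 * f g * (t * t) + p g * q g * f g * (2 * t)) ν :=
      j1.add j3
    rw [h2, integral_add j4 i2, integral_add j1 j3, integral_mul_const, integral_mul_const] at h1
    linarith
  have hd := discrim_le_zero key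
  unfold discrim at hd
  refine (le_abs_self _).trans (Real.abs_le_sqrt ?_)
  nlinarith

/-- the convolution is close to the function -/
theorem cv_near {ν : Measure X3} (hν : Ha ν) {N : ℕ} {f : X3 → ℝ} {ε : ℝ}
    (h : ∀ μ : X3 → ℝ, ContinuousOn μ U3 → (∀ g ∈ U3, 0 ≤ μ g) → ∫ g, μ g ∂ν = 1 →
      ∀ g ∈ U3, |Cv ν N (fun h => μ h * f h) g - f g * Cv ν N μ g| ≤ ε * (Cv ν N μ g + 1)) :
    ∀ g ∈ U3, |Cv ν N f g - f g| ≤ 2 * ε := by
  intro g hg
  have := hν.prob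
  have h1 := h (fun _ => 1) continuousOn_const (fun _ _ => zero_le_one) (by simp) g hg
  have h2 : Cv ν N (fun _ => (1 : ℝ)) g = 1 := by
    unfold Cv
    simp only [mul_one]
    rw [int_kN hν N hg, inv_mul_cancel₀ (cN_pos hν N).ne']
  have h3 : (fun h => (1 : ℝ) * f h) = f := by
    funext h
    rw [one_mul]
  rw [h2, h3, mul_one] at h1
  linarith

/-- moving the convolution to the other factor -/
theorem mass_le {ν : Measure X3} (hν : Ha ν) {N : ℕ} {f μ : X3 → ℝ} {ε : ℝ}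
    (hf : ContinuousOn f U3) (hμ : ContinuousOn μ U3) (hμ0 : ∀ g ∈ U3, 0 ≤ μ g)
    (hμ1 : ∫ g, μ g ∂ν = 1) (h : ∀ g ∈ U3, |Cv ν N f g - f g| ≤ 2 * ε) :
    ∫ g, μ g * f g ∂ν ≤ ∫ g, Cv ν N μ g * f g ∂ν + 2 * ε := by
  rw [Cv_self hν N hμ hf]
  have hc : ContinuousOn (Cv ν N f) U3 := (Cv_cont hν N hf).continuousOn
  have h1 : ∫ g, μ g * f g ∂ν ≤ ∫ g, (μ g * Cv ν N f g + μ g * (2 * ε)) ∂ν := by
    refine integral_mono_ae (integrable_u hν (hμ.mul hf))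
      (integrable_u hν ((hμ.mul hc).add (hμ.mul continuousOn_const))) (ae_u hν fun g hg => ?_)
    show μ g * f g ≤ μ g * Cv ν N f g + μ g * (2 * ε)
    rw [← mul_add]
    refine mul_le_mul_of_nonneg_left ?_ (hμ0 g hg)
    have := abs_le.1 (h g hg)
    linarith [this.1]
  refine h1.trans (le_of_eq ?_)
  have j1 : Integrable (fun g => μ g * Cv ν N f g) ν := integrable_u hν (hμ.mul hc)
  have j2 : Integrable (fun g => μ g * (2 * ε)) ν :=
    integrable_u hν (hμ.mul continuousOn_const)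
  rw [integral_add j1 j2, integral_mul_const, hμ1, one_mul]

end BEtaAux

open BEtaAux RieBAux in
theorem descent_eta {ν : Measure X3} (hν : Ha ν) {Θ : W → BW} (hΘ : HF Θ) {K : Set X3}
    (hK : IsClosed K) (hKU : K ⊆ U3) {A κ H : ℝ} (hA : 0 < A) (hκ : 0 < κ)
    (hip : ∀ g ∈ U3, ip (cF Θ g) (cF Θ g) ≤ -A * wd (cF Θ g) (cF Θ g))
    (hκK : ∀ g ∈ K, κ ≤ -wd (cF Θ g) (cF Θ g)) {η : W → ℝ} (hη : ContinuousOn η {0}ᶜ)
    (hηh : ∀ c : ℂ, c ≠ 0 → ∀ z : W, z ≠ 0 → η (c • z) = η z) (hη0 : ∀ g ∈ U3, 0 ≤ η (g 0))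
    (hH : 4 * A * (-∫ g, η (g 0) ^ 2 * wd (cF Θ g) (cF Θ g) ∂ν) < H) :
    ∃ γ : W → W →L[ℝ] ℝ, Basic γ ∧ ∫ g, ip (cF (dB γ) g) (cF (dB γ) g) ∂ν ≤ H ∧
      ∀ g ∈ K, wd (cF (dB γ) g) (cF Θ g) ≤ η (g 0) * wd (cF Θ g) (cF Θ g) := by
  have := hν.prob
  have cΘ : CtU (cF Θ) := ctU_cF hΘ.smooth
  obtain ⟨q₁, q₁s, q₁h, e₁⟩ := wd_up hΘ hΘ
  have hwd : ∀ g ∈ U3, wd (cF Θ g) (cF Θ g) ≤ 0 := by
    intro g hg
    have h1 := (ip_nonneg (cF Θ g)).trans (hip g hg)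
    by_contra hpos
    push Not at hpos
    nlinarith [mul_pos hA hpos]
  have hfc : ContinuousOn (fun g => -wd (cF Θ g) (cF Θ g)) U3 := (wd_ct cΘ cΘ).neg
  have hηU : ContinuousOn (fun g : X3 => η (g 0)) U3 := ct_col hη
  -- the function u
  obtain ⟨u, hu⟩ : ∃ u : W → ℝ, u = fun z => max 0 (κ + q₁ z) := ⟨_, rfl⟩
  have huc : ContinuousOn u {0}ᶜ := by
    rw [hu]
    have h1 : ContinuousOn (fun z => κ + q₁ z) {0}ᶜ := continuousOn_const.add q₁s.continuousOn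
    exact (continuous_const.max continuous_id).comp_continuousOn h1
  have huh : ∀ k : ℂ, k ≠ 0 → ∀ z : W, z ≠ 0 → u (k • z) = u z := by
    intro k hk z hz
    rw [hu]
    show max 0 (κ + q₁ (k • z)) = max 0 (κ + q₁ z)
    rw [q₁h k hk z hz]
  have huU : ContinuousOn (fun g : X3 => u (g 0)) U3 := ct_col huc
  have hub : ∀ g ∈ U3, κ / (fun _ : X3 => (1 : ℝ)) g ≤ u (g 0) - wd (cF Θ g) (cF Θ g) := by
    intro g hg
    have h1 : κ + q₁ (g 0) ≤ u (g 0) := by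
      rw [hu]
      exact le_max_right _ _
    rw [e₁ g hg] at h1
    show κ / 1 ≤ _
    rw [div_one]
    linarith
  have huK : ∀ g ∈ K, u (g 0) = 0 := by
    intro g hg
    rw [hu]
    show max 0 (κ + q₁ (g 0)) = 0
    rw [e₁ g (hKU hg)]
    refine max_eq_left ?_
    linarith [hκK g hg]
  -- the function h
  obtain ⟨h, hh⟩ : ∃ h : W → ℝ, h = fun z => -(η z * q₁ z) := ⟨_, rfl⟩
  have hhc : ContinuousOn h {0}ᶜ := by
    rw [hh]
    exact (hη.mul q₁s.continuousOn).neg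
  have hhh : ∀ k : ℂ, k ≠ 0 → ∀ z : W, z ≠ 0 → h (k • z) = h z := by
    intro k hk z hz
    rw [hh]
    show -(η (k • z) * q₁ (k • z)) = -(η z * q₁ z)
    rw [q₁h k hk z hz, hηh k hk z hz]
  have hhU : ContinuousOn (fun g : X3 => h (g 0)) U3 := ct_col hhc
  have hhe : ∀ g ∈ U3, h (g 0) = -(η (g 0) * wd (cF Θ g) (cF Θ g)) := by
    intro g hg
    rw [hh]
    show -(η (g 0) * q₁ (g 0)) = _
    rw [e₁ g hg]
  -- constants
  obtain ⟨I, hI⟩ : ∃ I : ℝ, I = -∫ g, η (g 0) ^ 2 * wd (cF Θ g) (cF Θ g) ∂ν := ⟨_, rfl⟩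
  have hI' : I = ∫ g, η (g 0) ^ 2 * -wd (cF Θ g) (cF Θ g) ∂ν := by
    rw [hI, ← integral_neg]
    congr 1
    funext g
    ring
  have hI0 : 0 ≤ I := by
    rw [hI']
    exact integral_nonneg_of_ae (ae_u hν fun g hg =>
      mul_nonneg (sq_nonneg _) (neg_nonneg.2 (hwd g hg)))
  rw [← hI] at hH
  have hH0 : 0 < H := lt_of_le_of_lt (by positivity) hH
  have hsH : 0 < Real.sqrt H := Real.sqrt_pos.2 hH0
  obtain ⟨M, hM0, hM⟩ := bound4 cΘ
  obtain ⟨ε, hε, hε1, hreal⟩ := est_real2 (D := 32 * M + 16) hA hκ hI0 (by linarith) hH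
  obtain ⟨N₁, hN₁⟩ := near4 hν cΘ hε
  obtain ⟨N₂, hN₂⟩ := near hν huU hε
  obtain ⟨N₃, hN₃⟩ := near hν hhU hε
  set N : ℕ := max N₁ (max N₂ N₃) with hN
  have hnear4 := hN₁ N (le_max_left _ _)
  have hnear := hN₂ N ((le_max_left _ _).trans (le_max_right _ _))
  have hnearh := hN₃ N ((le_max_right _ _).trans (le_max_right _ _))
  obtain ⟨hsym, hpos, hker⟩ := Bm_facts hν N
  have hKc : IsCompact K := isCompact_U3.of_isClosed_subset hK hKU
  by_cases hex : ∃ γ : VB, Bm hν N γ γ ≤ 1 ∧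
      ∀ g ∈ K, (Real.sqrt H • ev hν N (cF Θ) g) γ + h (g 0) ≤ 0
  · obtain ⟨γ, h1, h2⟩ := hex
    obtain ⟨γ', hγ'⟩ : ∃ γ' : VB, γ' = Real.sqrt H • γ := ⟨_, rfl⟩
    obtain ⟨γ₁, hγ₁, e⟩ := av_basic hν N γ'.2
    refine ⟨γ₁, hγ₁, ?_, fun g hg => ?_⟩
    · have h3 : Bm hν N γ' γ' = H * Bm hν N γ γ := by
        rw [hγ']
        simp only [map_smul, LinearMap.smul_apply, smul_eq_mul]
        rw [← mul_assoc, Real.mul_self_sqrt hH0.le]
      have h4 : Bm hν N γ' γ' ≤ H := by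
        rw [h3]
        have := mul_le_mul_of_nonneg_left h1 hH0.le
        rwa [mul_one] at this
      refine le_trans (le_of_eq ?_) h4
      rw [Bm_apply]
      refine integral_congr_u hν fun g hg => ?_
      rw [e g hg]
      rfl
    · rw [e g (hKU hg)]
      have h3 := h2 g hg
      rw [hhe g (hKU hg)] at h3
      have h4 : (Real.sqrt H • ev hν N (cF Θ) g) γ = ev hν N (cF Θ) g γ' := by
        rw [hγ', map_smul, LinearMap.smul_apply]
      rw [h4, ev_apply] at h3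
      have h5 : wd (C4 ν N (cF (dB γ'.1)) g) (cF Θ g) = wd (Lm hν N γ' g) (cF Θ g) := rfl
      show wd (C4 ν N (cF (dB γ'.1)) g) (cF Θ g) ≤ _
      rw [h5]
      linarith
  · exfalso
    push Not at hex
    obtain ⟨s, w, hsK, hw0, hw1, hσ0, hsep⟩ := sep_aff (Lm hν N) (rng hν N) hKc
      (fun g => Real.sqrt H • ev hν N (cF Θ) g)
      (fun γ => by
        have h1 := (wd_ct (Lm_ct hν N γ) cΘ).mono hKU
        exact continuousOn_const.mul h1)
      (fun g _ γ h0 => by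
        rw [LinearMap.smul_apply, ev_apply, h0]
        have h1 : wd ((0 : X3 → A4) g) (cF Θ g) = 0 := wd_zero _
        rw [h1, smul_zero])
      (fun g => h (g 0)) (hhU.mono hKU) (Bm hν N) hsym hpos hker hε hex
    obtain ⟨σ, hσ⟩ : ∃ σ : ℝ, σ = ∑ x ∈ s, w x * h (x 0) := ⟨_, rfl⟩
    rw [← hσ] at hσ0
    have hsU : ∀ k ∈ s, k ∈ U3 := fun k hk => hKU (hsK k hk)
    have hΘ' : ∀ n, HF (fun z => muW ν n s w z • Θ z) := fun n =>
      hf_smul (mu_smooth ν n s w) (mu_hom ν n s w) hΘ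
    have hsep' : ∀ γ, |(∑ k ∈ s, w k • ev hν N (cF Θ) k) γ| ≤
        (σ + ε) / Real.sqrt H * Real.sqrt (Bm hν N γ γ) := by
      intro γ
      have h1 := hsep γ
      rw [← hσ] at h1
      have h2 : ∑ x ∈ s, w x * (Real.sqrt H • ev hν N (cF Θ) x) γ =
          Real.sqrt H * (∑ k ∈ s, w k • ev hν N (cF Θ) k) γ := by
        rw [LinearMap.sum_apply, Finset.mul_sum]
        refine Finset.sum_congr rfl fun k _ => ?_
        rw [LinearMap.smul_apply, LinearMap.smul_apply, smul_eq_mul, smul_eq_mul]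
        ring
      rw [h2, abs_mul, abs_of_pos hsH] at h1
      rw [div_mul_eq_mul_div, le_div_iff₀ hsH]
      linarith
    have hconv := cvg_fin (Lm hν N) (rng hν N) (Bm hν N) hsym hpos hker
      (fun n => lm hν N (hΘ' n)) (∑ k ∈ s, w k • ev hν N (cF Θ) k)
      (fun γ => lim_lm hν N hΘ hsU hΘ' γ)
      (fun n γ h0 => by
        rw [lm_apply]
        rw [Bm_apply] at h0
        have h1 := eq_zero_of_int hν (ip_ct (Lm_ct hν N γ) (Lm_ct hν N γ))
          (fun g _ => ip_nonneg _) h0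
        rw [integral_congr_u hν (k := fun _ => (0 : ℝ)) (fun g hg => by
          rw [ip_zero (h1 g hg), wd_zero])]
        simp)
      (c := (σ + ε) / Real.sqrt H) (div_nonneg hσ0 hsH.le) hsep'
      (ε := ε / Real.sqrt H) (div_pos hε hsH)
    have hu0 : Tendsto (fun n : ℕ => ∫ g, muW ν n s w (g 0) * u (g 0) ∂ν) atTop (𝓝 0) := by
      have h1 := mu_lim hν w hsU huc huh
      have h2 : ∑ k ∈ s, w k * u (k 0) = 0 := by
        refine Finset.sum_eq_zero fun k hk => ?_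
        rw [huK k (hsK k hk), mul_zero]
      rwa [h2] at h1
    have hh0 : Tendsto (fun n : ℕ => ∫ g, muW ν n s w (g 0) * h (g 0) ∂ν) atTop (𝓝 σ) := by
      have h1 := mu_lim hν w hsU hhc hhh
      rwa [← hσ] at h1
    have hcN : 0 < cN ν N := cN_pos hν N
    have hu1 : ∀ᶠ n : ℕ in atTop, ∫ g, muW ν n s w (g 0) * u (g 0) ∂ν < ε * cN ν N :=
      hu0.eventually_lt_const (by positivity)
    have hh1 : ∀ᶠ n : ℕ in atTop, σ - ε < ∫ g, muW ν n s w (g 0) * h (g 0) ∂ν :=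
      hh0.eventually_const_lt (by linarith)
    obtain ⟨n, ⟨hn1, hn2⟩, hn3⟩ := ((hconv.and hu1).and hh1).exists
    have hGe : (σ + ε) / Real.sqrt H + ε / Real.sqrt H = (σ + 2 * ε) / Real.sqrt H := by
      rw [← add_div]
      ring_nf
    rw [hGe] at hn1
    have hG0 : 0 ≤ (σ + 2 * ε) / Real.sqrt H := div_nonneg (by linarith) hsH.le
    have hcore := core_N hν N (hΘ' n) (G := (σ + 2 * ε) / Real.sqrt H) hG0
      (fun γ hγ => hn1 ⟨γ, hγ⟩)
    -- the density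
    obtain ⟨μ, hμ⟩ : ∃ μ : X3 → ℝ, μ = fun g => muW ν n s w (g 0) := ⟨_, rfl⟩
    have hμc : ContinuousOn μ U3 := by
      rw [hμ]
      exact ct_col (mu_smooth ν n s w).continuousOn
    have hμ0 : ∀ g ∈ U3, 0 ≤ μ g := by
      rw [hμ]
      exact mu_nonneg hν n hsU hw0
    have hμ1 : ∫ g, μ g ∂ν = 1 := by
      rw [hμ]
      exact mu_int hν n hsU hw1
    have hcF : cF (fun z => muW ν n s w z • Θ z) = fun g => μ g • cF Θ g := by
      funext g
      rw [cF_smul, hμ]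
    have cΨ : CtU (C4 ν N (cF (fun z => muW ν n s w z • Θ z))) :=
      CoreNAux.ct_C4 hν N (ctU_cF (hΘ' n).smooth)
    have hρc : ContinuousOn (Cv ν N μ) U3 := (Cv_cont hν N hμc).continuousOn
    have hρ0 := Cv_nonneg hν N hμ0
    have hest := est_int (M := M) (b := κ) (π := fun _ => (1 : ℝ)) hν cΘ cΨ hρc
      continuousOn_const huU hA hM0 hε hε1 hρ0 (fun _ _ => zero_lt_one) hM
      (fun g hg i j => by
        rw [hcF]
        exact hnear4 μ hμc hμ0 hμ1 g hg i j)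
      hip hub
      (fun g hg => by
        have h1 := hnear μ hμc hμ0 hμ1 g hg
        have h2 : Cv ν N (fun h => μ h * u (h 0)) g ≤ ε := by
          refine (Cv_small hν N (hμc.mul huU) (fun h hh => mul_nonneg (hμ0 h hh) ?_) g hg).trans ?_
          · rw [hu]
            exact le_max_left _ _
          · have h3 : ∫ h, μ h * u (h 0) ∂ν < ε * cN ν N := by
              rw [hμ]
              exact hn2
            rw [inv_mul_le_iff₀ hcN]
            have h3' : ∫ h, (μ * fun g : X3 => u (g 0)) h ∂ν < ε * cN ν N := h3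
            linarith
        have h4 := abs_le.1 h1
        nlinarith [h4.1])
      (by rw [Cv_one hν N hμc, hμ1])
    obtain ⟨hX, hY, h3, h4, h5, h6, -⟩ := hest
    simp only [div_one] at h5 h6
    have hρ2 : Integrable (fun g => Cv ν N μ g ^ 2) ν := integrable_u hν (hρc.pow 2)
    have hYe : ∫ g, (Cv ν N μ g ^ 2 + 1) ∂ν = ∫ g, Cv ν N μ g ^ 2 ∂ν + 1 := by
      rw [integral_add hρ2 (integrable_const _)]
      simp
    have h6' : 1 ≤ ∫ g, Cv ν N μ g ^ 2 ∂ν := by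
      simpa using h6
    have hXe : -∫ g, Cv ν N μ g ^ 2 * wd (cF Θ g) (cF Θ g) ∂ν =
        ∫ g, Cv ν N μ g ^ 2 * -wd (cF Θ g) (cF Θ g) ∂ν := by
      rw [← integral_neg]
      congr 1
      funext g
      ring
    refine hreal _ (∫ g, (Cv ν N μ g ^ 2 + 1) ∂ν) σ hX (by rw [hYe]; linarith) ?_ ?_ ?_
    · refine h3.trans (hcore.trans ?_)
      exact mul_le_mul_of_nonneg_left (Real.sqrt_le_sqrt h4) (by linarith)
    · refine le_trans (le_of_eq ?_) h5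
      rw [hYe, add_sub_cancel_right]
    · have k1 : σ - ε < ∫ g, μ g * h (g 0) ∂ν := by
        rw [hμ]
        exact hn3
      have k2 := mass_le hν hhU hμc hμ0 hμ1 (cv_near hν hnearh)
      have k3 := csw hν hηU hρc hfc (fun g hg => neg_nonneg.2 (hwd g hg))
      have k4 : ∫ g, Cv ν N μ g * h (g 0) ∂ν =
          ∫ g, η (g 0) * Cv ν N μ g * -wd (cF Θ g) (cF Θ g) ∂ν := by
        refine integral_congr_u hν fun g hg => ?_
        rw [hhe g hg]
        ring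
      rw [← hI', ← hXe, ← k4] at k3
      linarith

end Pool.Agent.Lib.DEn
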