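import Pool.Agent.Lib.DEn.Near
import Pool.Agent.Lib.DEn.Br

set_option autoImplicit false
set_option maxSynthPendingDepth 3

/-!
# Decrease of a maximum  (1 h)

`φ'` is uniformly continuous on the compact set `U3 × [0, ε]` and bounded there by `M'`. Choose `t₁ ≤ ε` with `|φ' g t - φ' g 0| ≤ c - c'` for `g ∈ U3`, `0 ≤ t ≤ t₁`. If `σ ≤ φ g 0`: `φ' g t ≤ - c'` on `[0, t₁]`, so `φ g t ≤ φ g 0 - c' t ≤ S - c' t` (mean value inequality, `image_le_of_deriv_right_le_deriv_boundary` or `Convex.image_sub_le_mul_sub_of_deriv_le`).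
If `φ g 0 < σ`: `φ g t ≤ σ + M' t ≤ S - c' t` as soon as `(M' + c') t ≤ S - σ`.
-/

open MeasureTheory Set Metric Filter
open scoped ContDiff Topology

namespace Pool.Agent.Lib.DEn

open Pool.Agent.P28b04d
open Pool.Agent.Lib.Psd (W hp ON3 fr cmp st asd sd nrm2 Pf Skew Conn Basic dd a0 c0 Mat form fs Tan tv cmpM NondegM pb)

private theorem mvb {f f' : ℝ → ℝ} {ε : ℝ} (hd : ∀ t ∈ Icc (0 : ℝ) ε, HasDerivAt f (f' t) t)
    {C t : ℝ} (ht : t ∈ Icc (0 : ℝ) ε) (hC : ∀ s ∈ Icc (0 : ℝ) t, f' s ≤ C) :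
    f t ≤ f 0 + C * t := by
  have hsub : Icc (0 : ℝ) t ⊆ Icc (0 : ℝ) ε := Icc_subset_Icc le_rfl ht.2
  have h := (convex_Icc (0 : ℝ) t).image_sub_le_mul_sub_of_deriv_le (f := f)
    (fun s hs => (hd s (hsub hs)).continuousAt.continuousWithinAt)
    (fun s hs => (hd s (hsub (interior_subset hs))).differentiableAt.differentiableWithinAt)
    (C := C)
    (fun s hs => by
      rw [(hd s (hsub (interior_subset hs))).deriv]
      exact hC s (interior_subset hs))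
    0 ⟨le_rfl, ht.1⟩ t ⟨ht.1, le_rfl⟩ ht.1
  linarith

theorem max_dec {φ φ' : X3 → ℝ → ℝ} {ε : ℝ} (hε : 0 < ε)
    (hd : ∀ g ∈ U3, ∀ t ∈ Icc (0 : ℝ) ε, HasDerivAt (φ g) (φ' g t) t)
    (hc' : ContinuousOn (fun p : X3 × ℝ => φ' p.1 p.2) (U3 ×ˢ Icc 0 ε)) {S σ c c' : ℝ} (hσ : σ < S)
    (hcc : c' < c) (hc0 : 0 ≤ c') (hS : ∀ g ∈ U3, φ g 0 ≤ S)
    (hK : ∀ g ∈ U3, σ ≤ φ g 0 → φ' g 0 ≤ -c) :
    ∃ t₀ : ℝ, 0 < t₀ ∧ t₀ ≤ ε ∧ ∀ t ∈ Icc (0 : ℝ) t₀, ∀ g ∈ U3, φ g t ≤ S - c' * t := by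
  have hcp : IsCompact (U3 ×ˢ Icc (0 : ℝ) ε : Set (X3 × ℝ)) := isCompact_U3.prod isCompact_Icc
  have huc := hcp.uniformContinuousOn_of_continuous hc'
  rw [Metric.uniformContinuousOn_iff] at huc
  obtain ⟨δ, hδ, huc⟩ := huc (c - c') (by linarith)
  obtain ⟨M, hM⟩ := hcp.exists_bound_of_continuousOn hc'
  have hden : 0 < |M| + c' + 1 := by positivity
  set t₀ : ℝ := min (min ε (δ / 2)) ((S - σ) / (|M| + c' + 1)) with ht₀
  have hq : 0 < (S - σ) / (|M| + c' + 1) := div_pos (by linarith) hden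
  have h0 : 0 < t₀ := lt_min (lt_min hε (by linarith)) hq
  have h1 : t₀ ≤ ε := (min_le_left _ _).trans (min_le_left _ _)
  have h2 : t₀ ≤ δ / 2 := (min_le_left _ _).trans (min_le_right _ _)
  have h3 : t₀ ≤ (S - σ) / (|M| + c' + 1) := min_le_right _ _
  refine ⟨t₀, h0, h1, ?_⟩
  intro t ht g hg
  have htε : t ∈ Icc (0 : ℝ) ε := ⟨ht.1, ht.2.trans h1⟩
  rcases le_or_gt σ (φ g 0) with hs | hs
  · have hb : ∀ s ∈ Icc (0 : ℝ) t, φ' g s ≤ -c' := by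
      intro s hs'
      have hsε : s ∈ Icc (0 : ℝ) ε := ⟨hs'.1, hs'.2.trans htε.2⟩
      have hdist : dist ((g, s) : X3 × ℝ) (g, (0 : ℝ)) < δ := by
        rw [Prod.dist_eq, dist_self, Real.dist_eq, sub_zero, abs_of_nonneg hs'.1]
        refine max_lt hδ ?_
        linarith [hs'.2, ht.2]
      have := huc (g, s) ⟨hg, hsε⟩ (g, 0) ⟨hg, ⟨le_rfl, hε.le⟩⟩ hdist
      rw [Real.dist_eq] at this
      have h4 := (abs_lt.1 this).2
      have h5 := hK g hg hs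
      simp only at h4
      linarith
    have := mvb (hd g hg) htε hb
    linarith [hS g hg]
  · have hb : ∀ s ∈ Icc (0 : ℝ) t, φ' g s ≤ |M| := by
      intro s hs'
      have hsε : s ∈ Icc (0 : ℝ) ε := ⟨hs'.1, hs'.2.trans htε.2⟩
      have := hM (g, s) ⟨hg, hsε⟩
      rw [Real.norm_eq_abs] at this
      exact (le_abs_self _).trans (this.trans (le_abs_self _))
    have h4 := mvb (hd g hg) htε hb
    have h5 : t * (|M| + c' + 1) ≤ S - σ := by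
      have : t ≤ (S - σ) / (|M| + c' + 1) := ht.2.trans h3
      rwa [le_div_iff₀ hden] at this
    nlinarith [ht.1]

end Pool.Agent.Lib.DEn
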