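import Pool.Agent.Lib.DEn.Br

set_option autoImplicit false
set_option maxSynthPendingDepth 3

/-!
# Exterior derivatives of basic forms and connections; operations on forms  (1 h)

`dB_hf`: `dB_apply` and `Psd.dd_skew`, `Psd.Basic.dd_hom`, `Psd.Basic.dd_left`; smoothness: `ContDiffOn.fderiv_of_isOpen`, `ContinuousLinearMap.flip` is a continuous linear equivalence (`ContinuousLinearMap.flipₗᵢ`), as in `P28t.Form` (`Con.contDiffAt_dw`). `dB_hfc`: the same with `Psd.Conn.dd_hom`, `Psd.Conn.dd_left`.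
`dB_cl`: `d d = 0`: near `z`, `fderiv ℝ (dB γ) z a b c = D²γ(a)(b)(c) - D²γ(a)(c)(b)` with `D²γ = fderiv ℝ (fderiv ℝ γ) z`; the cyclic sum vanishes by the symmetry of second derivatives `D²γ a b = D²γ b a` (`ContDiffAt.isSymmSndFDerivAt` or `second_derivative_symmetric`, as in `Psd.Closed`/`P28s.Dd`).
`cF_dB_a0`: `Psd.dd_a0` (see `Psd.MainA`: `cmp_a0`). The other statements are formal. `cF_skew` needs `g 0 ≠ 0` (`col_ne`).
-/

open MeasureTheory Set Metric Filter
open scoped ContDiff Topology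

namespace Pool.Agent.Lib.DEn

open Pool.Agent.P28b04d
open Pool.Agent.Lib.Psd (W hp ON3 fr cmp st asd sd nrm2 Pf Skew Conn Basic dd a0 c0)

namespace FormsAux

theorem contDiffOn_flip {n : ℕ∞} {τ : W → BW} (h : ContDiffOn ℝ n τ {0}ᶜ) :
    ContDiffOn ℝ n (fun z => (τ z).flip) {0}ᶜ :=
  (ContinuousLinearMap.flipₗᵢ ℝ W W ℝ).toContinuousLinearEquiv.contDiff.comp_contDiffOn h

theorem smooth_dB {γ : W → W →L[ℝ] ℝ} (h : ContDiffOn ℝ ∞ γ {0}ᶜ) : ContDiffOn ℝ ∞ (dB γ) {0}ᶜ := by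
  have h1 : ContDiffOn ℝ ∞ (fderiv ℝ γ) {0}ᶜ :=
    h.fderiv_of_isOpen isOpen_compl_singleton (by simp)
  exact h1.sub (contDiffOn_flip h1)

theorem dB_fun_add {γ δ : W → W →L[ℝ] ℝ} (h : ContDiffOn ℝ ∞ γ {0}ᶜ) (h' : ContDiffOn ℝ ∞ δ {0}ᶜ)
    {z : W} (hz : z ≠ 0) : dB (fun z => γ z + δ z) z = dB γ z + dB δ z := by
  have e : fderiv ℝ (fun y => γ y + δ y) z = fderiv ℝ γ z + fderiv ℝ δ z :=
    ((Psd.ConnBAux.diffAt h hz).add (Psd.ConnBAux.diffAt h' hz)).fderiv
  ext v w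
  simp only [dB, e, add_apply, sub_apply,
    ContinuousLinearMap.flip_apply]
  ring

theorem dB_fun_smul {γ : W → W →L[ℝ] ℝ} (h : ContDiffOn ℝ ∞ γ {0}ᶜ) (c : ℝ)
    {z : W} (hz : z ≠ 0) : dB (fun z => c • γ z) z = c • dB γ z := by
  have e : fderiv ℝ (fun y => c • γ y) z = c • fderiv ℝ γ z :=
    ((Psd.ConnBAux.diffAt h hz).const_smul c).fderiv
  ext v w
  simp only [dB, e, smul_apply, sub_apply,
    ContinuousLinearMap.flip_apply, smul_eq_mul]
  ring

theorem mv_ne {k : X3} (hk : k ∈ U3) {z : W} (hz : z ≠ 0) : mv k z ≠ 0 := by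
  intro h0
  have h1 := nsq_mv hk z
  have h2 := Psd.ConnBAux.nsq_pos hz
  have h3 : nsq (0 : W) = 0 := by simp [nsq]
  rw [h0, h3] at h1
  linarith

end FormsAux

open FormsAux

theorem dB_hf {γ : W → W →L[ℝ] ℝ} (h : Basic γ) : HF (dB γ) where
  smooth := smooth_dB h.smooth
  skew := fun z _ v w => by rw [dB_apply, dB_apply, Psd.dd_skew]
  hom := fun c hc z hz v w => by rw [dB_apply, dB_apply, h.dd_hom hc hz]
  hor := fun z hz c w => by rw [dB_apply, h.dd_left hz]

theorem dB_hfc {α : W → W →L[ℝ] ℝ} (h : Conn α) : HF (dB α) where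
  smooth := smooth_dB h.smooth
  skew := fun z _ v w => by rw [dB_apply, dB_apply, Psd.dd_skew]
  hom := fun c hc z hz v w => by rw [dB_apply, dB_apply, h.dd_hom hc hz]
  hor := fun z hz c w => by rw [dB_apply, h.dd_left hz]

theorem dB_cl {γ : W → W →L[ℝ] ℝ} (h : ContDiffOn ℝ ∞ γ {0}ᶜ) : Cl (dB γ) := by
  intro z hz a b c
  have hz' : z ∈ ({0}ᶜ : Set W) := hz
  have h1 : ContDiffOn ℝ ∞ (fderiv ℝ γ) {0}ᶜ :=
    h.fderiv_of_isOpen isOpen_compl_singleton (by simp)
  have hd : HasFDerivAt (fderiv ℝ γ) (fderiv ℝ (fderiv ℝ γ) z) z :=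
    ((h1.contDiffAt (isOpen_compl_singleton.mem_nhds hz')).differentiableAt (by simp)).hasFDerivAt
  have hfl : HasFDerivAt (fun y => (fderiv ℝ γ y).flip)
      (((ContinuousLinearMap.flipₗᵢ ℝ W W ℝ).toContinuousLinearEquiv : BW →L[ℝ] BW).comp
        (fderiv ℝ (fderiv ℝ γ) z)) z :=
    ((ContinuousLinearMap.flipₗᵢ ℝ W W ℝ).toContinuousLinearEquiv :
      BW →L[ℝ] BW).hasFDerivAt.comp z hd
  have he : ∀ x y w : W, fderiv ℝ (dB γ) z x y w =
      fderiv ℝ (fderiv ℝ γ) z x y w - fderiv ℝ (fderiv ℝ γ) z x w y := by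
    intro x y w
    have h2 : HasFDerivAt (dB γ) _ z := hd.sub hfl
    rw [h2.fderiv]
    rfl
  have hs : IsSymmSndFDerivAt ℝ γ z :=
    (h.contDiffAt (isOpen_compl_singleton.mem_nhds hz')).isSymmSndFDerivAt (by
      simp only [minSmoothness_of_isRCLikeNormedField]
      exact WithTop.coe_le_coe.2 (OrderTop.le_top (2 : ℕ∞)))
  have s1 : fderiv ℝ (fderiv ℝ γ) z a b = fderiv ℝ (fderiv ℝ γ) z b a := hs a b
  have s2 : fderiv ℝ (fderiv ℝ γ) z a c = fderiv ℝ (fderiv ℝ γ) z c a := hs a c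
  have s3 : fderiv ℝ (fderiv ℝ γ) z b c = fderiv ℝ (fderiv ℝ γ) z c b := hs b c
  unfold d3
  rw [he, he, he, s1, s2, s3]
  ring

theorem hf_sub {τ σ : W → BW} (h : HF τ) (h' : HF σ) : HF (fun z => τ z - σ z) where
  smooth := h.smooth.sub h'.smooth
  skew := fun z hz v w => by
    simp only [sub_apply]
    rw [h.skew z hz v w, h'.skew z hz v w]
    ring
  hom := fun c hc z hz v w => by
    simp only [sub_apply]
    rw [h.hom c hc z hz, h'.hom c hc z hz]
  hor := fun z hz c w => by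
    simp only [sub_apply]
    rw [h.hor z hz, h'.hor z hz, sub_zero]

theorem hf_add {τ σ : W → BW} (h : HF τ) (h' : HF σ) : HF (fun z => τ z + σ z) where
  smooth := h.smooth.add h'.smooth
  skew := fun z hz v w => by
    simp only [add_apply]
    rw [h.skew z hz v w, h'.skew z hz v w]
    ring
  hom := fun c hc z hz v w => by
    simp only [add_apply]
    rw [h.hom c hc z hz, h'.hom c hc z hz]
  hor := fun z hz c w => by
    simp only [add_apply]
    rw [h.hor z hz, h'.hor z hz, add_zero]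

/-- multiplication by functions on `ℂP²` -/
theorem hf_smul {f : W → ℝ} {τ : W → BW} (hf : ContDiffOn ℝ ∞ f {0}ᶜ)
    (hh : ∀ c : ℂ, c ≠ 0 → ∀ z : W, z ≠ 0 → f (c • z) = f z) (h : HF τ) : HF (fun z => f z • τ z) where
  smooth := hf.smul h.smooth
  skew := fun z hz v w => by
    simp only [smul_apply, smul_eq_mul]
    rw [h.skew z hz v w]
    ring
  hom := fun c hc z hz v w => by
    simp only [smul_apply, smul_eq_mul]
    rw [h.hom c hc z hz, hh c hc z hz]
  hor := fun z hz c w => by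
    simp only [smul_apply, smul_eq_mul]
    rw [h.hor z hz, mul_zero]

theorem hf_pl {τ : W → BW} (h : HF τ) {k : X3} (hk : k ∈ U3) : HF (pl k τ) where
  smooth := by
    have h1 : ContDiffOn ℝ ∞ (fun z : W => τ (mv k z)) {0}ᶜ := by
      have h2 : ContDiffOn ℝ ∞ (fun z : W => τ (mvL k z)) {0}ᶜ :=
        h.smooth.comp (mvL k).contDiff.contDiffOn fun z hz => by
          rw [mvL_apply]
          exact mv_ne hk hz
      simpa only [mvL_apply] using h2
    exact (contDiffOn_flip ((contDiffOn_flip h1).clm_comp contDiffOn_const)).clm_comp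
      contDiffOn_const
  skew := fun z hz v w => by
    rw [pl_apply, pl_apply, h.skew _ (mv_ne hk hz)]
  hom := fun c hc z hz v w => by
    rw [pl_apply, pl_apply, mv_smul, mv_smul, mv_smul, h.hom c hc _ (mv_ne hk hz)]
  hor := fun z hz c w => by
    rw [pl_apply, mv_smul, h.hor _ (mv_ne hk hz)]

theorem cF_skew {τ : W → BW} (h : HF τ) {g : X3} (hg : g ∈ U3) : Skew (cF τ g) := fun _ _ =>
  h.skew _ (col_ne hg 0) _ _

theorem cF_dB_a0 {g : X3} (hg : g ∈ U3) : cF (dB a0) g = c0 := by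
  have h := (on3_iff g).2 hg
  have hz := col_ne hg 0
  have hleft : ∀ (a b : W) (c : ℂ), hp (c • a) b = star c * hp a b := by
    intro a b c
    rw [Psd.ConnBAux.hp_conj b (c • a), Psd.ConnBAux.hp_smul_right, star_mul',
      ← Psd.ConnBAux.hp_conj b a]
  have huv : hp (g 2) (g 1) = 0 := by
    rw [Psd.ConnBAux.hp_conj (g 1) (g 2), h.uv, star_zero]
  funext i j
  show dB a0 (g 0) (fr (g 1) (g 2) i) (fr (g 1) (g 2) j) = c0 i j
  rw [dB_apply, Psd.dd_a0 hz (hp_frame hg i) (hp_frame hg j), nsq_col hg 0, div_one]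
  fin_cases i <;> fin_cases j <;>
    simp [fr, c0, Psd.ConnBAux.hp_smul_right, hleft, h.uu, h.vv, h.uv, huv]

theorem basic_add {γ δ : W → W →L[ℝ] ℝ} (h : Basic γ) (h' : Basic δ) : Basic (fun z => γ z + δ z) where
  smooth := h.smooth.add h'.smooth
  hom := fun c hc z hz v => by
    simp only [add_apply]
    rw [h.hom c hc z hz, h'.hom c hc z hz]
  rad := fun z hz => by
    simp only [add_apply]
    rw [h.rad z hz, h'.rad z hz, add_zero]
  rot := fun z hz => by
    simp only [add_apply]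
    rw [h.rot z hz, h'.rot z hz, add_zero]

theorem basic_smul {γ : W → W →L[ℝ] ℝ} (h : Basic γ) (c : ℝ) : Basic (fun z => c • γ z) where
  smooth := h.smooth.const_smul c
  hom := fun k hk z hz v => by
    simp only [smul_apply, smul_eq_mul]
    rw [h.hom k hk z hz]
  rad := fun z hz => by
    simp only [smul_apply, smul_eq_mul]
    rw [h.rad z hz, mul_zero]
  rot := fun z hz => by
    simp only [smul_apply, smul_eq_mul]
    rw [h.rot z hz, mul_zero]

theorem cF_dB_add {γ δ : W → W →L[ℝ] ℝ} (h : ContDiffOn ℝ ∞ γ {0}ᶜ) (h' : ContDiffOn ℝ ∞ δ {0}ᶜ) {g : X3}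
    (hg : g ∈ U3) : cF (dB fun z => γ z + δ z) g = cF (dB γ) g + cF (dB δ) g := by
  funext i j
  simp only [cF, dB_fun_add h h' (col_ne hg 0), add_apply, Pi.add_apply]

theorem cF_dB_smul {γ : W → W →L[ℝ] ℝ} (h : ContDiffOn ℝ ∞ γ {0}ᶜ) (c : ℝ) {g : X3}
    (hg : g ∈ U3) : cF (dB fun z => c • γ z) g = c • cF (dB γ) g := by
  funext i j
  simp only [cF, dB_fun_smul h c (col_ne hg 0), smul_apply, Pi.smul_apply]

end Pool.Agent.Lib.DEn
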