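import Pool.Agent.Lib.DEn.DvE
import Pool.Agent.Lib.DEn.Forms
import Pool.Agent.Lib.DEn.Alg

/-!
# The derivative of the energy  (1 h)

Write `T g = cF (dB α) g`, `D g = cF (dB γ) g`: entries continuous on the compact set `U3` (`ctU_cF`), skew (`cF_skew`). `Pf (T g + t D g)` is continuous in `(g, t)` and positive for `t = 0`, so there are `ε, m > 0` with `Pf (T g + t D g) ≥ m` for `g ∈ U3`, `|t| < ε`. The derivative of the integrand in `t` is `wd (D g) (th (T g + t D g))`
(`hasDerivAt_sg`), continuous in `(g, t)` on this set, so bounded; differentiate under the integral (`hasDerivAt_integral_of_dominated_loc_of_deriv_le`; all functions are continuous on `U3`, hence almost everywhere strongly measurable: `integrable_u`).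
-/

set_option autoImplicit false
set_option maxSynthPendingDepth 3

open MeasureTheory Set Metric Filter
open scoped ContDiff Topology

namespace Pool.Agent.Lib.DEn

open Pool.Agent.P28b04d
open Pool.Agent.Lib.Psd (W hp ON3 fr cmp st asd sd nrm2 Pf Skew Conn Basic dd a0 c0)

namespace EDerAux

theorem cont_nrm2 : Continuous (nrm2 : A4 → ℝ) := by
  unfold nrm2
  fun_prop

theorem cont_Pf : Continuous (Pf : A4 → ℝ) := by
  unfold Pf
  fun_prop

theorem cont_st : Continuous (st : A4 → A4) := by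
  refine continuous_pi fun i => continuous_pi fun j => ?_
  fin_cases i <;> fin_cases j <;> simp [st] <;> fun_prop

theorem cont_wd : Continuous fun p : A4 × A4 => wd p.1 p.2 := by
  unfold wd
  fun_prop

theorem cont_sg : ContinuousOn (sg : A4 → ℝ) {S | Pf S ≠ 0} := by
  unfold sg
  exact cont_nrm2.continuousOn.div (continuous_const.mul cont_Pf).continuousOn
    (fun S hS => mul_ne_zero four_ne_zero hS)

theorem cont_th : ContinuousOn (th : A4 → A4) {S | Pf S ≠ 0} := by
  refine continuousOn_pi.2 fun i => continuousOn_pi.2 fun j => ?_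
  unfold th
  refine ContinuousOn.div (ContinuousOn.sub ?_ (cont_sg.mul ?_)) cont_Pf.continuousOn
    (fun S hS => hS)
  · exact (((continuous_apply j).comp (continuous_apply i)).comp cont_st).continuousOn
  · exact ((continuous_apply j).comp (continuous_apply i)).continuousOn

theorem contOn {F : X3 → A4} (h : CtU F) : ContinuousOn F U3 :=
  continuousOn_pi.2 fun i => continuousOn_pi.2 fun j => h i j

end EDerAux

open EDerAux

theorem hasDerivAt_E {ν : Measure X3} (hν : Ha ν) {α γ : W → W →L[ℝ] ℝ} (hα : Conn α) (hγ : Basic γ)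
    (hP : ∀ g ∈ U3, 0 < Pf (cF (dB α) g)) :
    HasDerivAt (fun t : ℝ => ∫ g, sg (cF (dB α) g + t • cF (dB γ) g) ∂ν)
      (∫ g, wd (cF (dB γ) g) (th (cF (dB α) g)) ∂ν) 0 := by
  have := hν.prob
  have hT := contOn (ctU_cF (dB_hfc hα).smooth)
  have hD := contOn (ctU_cF (dB_hf hγ).smooth)
  have sT : ∀ g ∈ U3, Skew (cF (dB α) g) := fun g hg => cF_skew (dB_hfc hα) hg
  have sD : ∀ g ∈ U3, Skew (cF (dB γ) g) := fun g hg => cF_skew (dB_hf hγ) hg
  generalize hTe : cF (dB α) = T at *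
  generalize hDe : cF (dB γ) = D at *
  -- a lower bound of the Pfaffian
  obtain ⟨g₀, hg₀, hmin⟩ := isCompact_U3.exists_isMinOn ⟨id3, id3_mem⟩
    (cont_Pf.comp_continuousOn hT)
  have hm0 := hP g₀ hg₀
  have hm : ∀ g ∈ U3, Pf (T g₀) ≤ Pf (T g) := fun g hg => hmin hg
  generalize Pf (T g₀) = m at hm0 hm
  obtain ⟨M₁, hM₁⟩ := isCompact_U3.exists_bound_of_continuousOn
    (cont_wd.comp_continuousOn (hD.prodMk hT))
  obtain ⟨M₂, hM₂⟩ := isCompact_U3.exists_bound_of_continuousOn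
    (cont_Pf.comp_continuousOn hD)
  have hM1 : 0 ≤ M₁ := (norm_nonneg _).trans (hM₁ g₀ hg₀)
  have hM2 : 0 ≤ M₂ := (norm_nonneg _).trans (hM₂ g₀ hg₀)
  have q2 : ∀ (A B : A4) (s : ℝ), Pf (A + s • B) = Pf A + s * wd B A + s ^ 2 * Pf B := by
    intro A B s
    simp only [Pf, wd, Pi.add_apply, Pi.smul_apply, smul_eq_mul]
    ring
  obtain ⟨ε, hε0, hε1, hε⟩ : ∃ ε : ℝ, 0 < ε ∧ ε ≤ 1 ∧ ε * (M₁ + M₂) < m := by
    refine ⟨min 1 (m / (M₁ + M₂ + 1)), lt_min one_pos (by positivity), min_le_left _ _, ?_⟩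
    have h1 : min 1 (m / (M₁ + M₂ + 1)) ≤ m / (M₁ + M₂ + 1) := min_le_right _ _
    have h2 : m / (M₁ + M₂ + 1) * (M₁ + M₂ + 1) = m :=
      div_mul_cancel₀ m (by positivity)
    have h3 : 0 < m / (M₁ + M₂ + 1) := by positivity
    nlinarith
  have hpos : ∀ g ∈ U3, ∀ t : ℝ, |t| ≤ ε → 0 < Pf (T g + t • D g) := by
    intro g hg t ht
    rw [q2]
    have h1 := hM₁ g hg
    have h2 := hM₂ g hg
    rw [Real.norm_eq_abs] at h1 h2
    have h3 : |t * wd (D g) (T g)| ≤ ε * M₁ := by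
      rw [abs_mul]
      exact mul_le_mul ht h1 (abs_nonneg _) hε0.le
    have h4 : |t ^ 2 * Pf (D g)| ≤ ε * M₂ := by
      rw [abs_mul, abs_pow]
      have : |t| ^ 2 ≤ ε := by nlinarith [abs_nonneg t]
      exact mul_le_mul this h2 (abs_nonneg _) hε0.le
    have h5 := neg_le_of_abs_le h3
    have h6 := neg_le_of_abs_le h4
    have h7 := hm g hg
    nlinarith
  -- the family and its derivative
  have hS : ContinuousOn (fun p : X3 × ℝ => T p.1 + p.2 • D p.1) (U3 ×ˢ Icc (-ε) ε) := by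
    have k1 : ContinuousOn (fun p : X3 × ℝ => T p.1) (U3 ×ˢ Icc (-ε) ε) :=
      hT.comp continuousOn_fst (fun p hp => hp.1)
    have k2 : ContinuousOn (fun p : X3 × ℝ => D p.1) (U3 ×ˢ Icc (-ε) ε) :=
      hD.comp continuousOn_fst (fun p hp => hp.1)
    exact k1.add (continuousOn_snd.smul k2)
  have hSm : MapsTo (fun p : X3 × ℝ => T p.1 + p.2 • D p.1) (U3 ×ˢ Icc (-ε) ε)
      {S | Pf S ≠ 0} := fun p hp => (hpos p.1 hp.1 p.2 (abs_le.2 hp.2)).ne'
  have hsg : ContinuousOn (fun p : X3 × ℝ => sg (T p.1 + p.2 • D p.1)) (U3 ×ˢ Icc (-ε) ε) :=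
    cont_sg.comp hS hSm
  have hG : ContinuousOn (fun p : X3 × ℝ => wd (D p.1) (th (T p.1 + p.2 • D p.1)))
      (U3 ×ˢ Icc (-ε) ε) := by
    have k2 : ContinuousOn (fun p : X3 × ℝ => D p.1) (U3 ×ˢ Icc (-ε) ε) :=
      hD.comp continuousOn_fst (fun p hp => hp.1)
    exact cont_wd.comp_continuousOn (k2.prodMk (cont_th.comp hS hSm))
  obtain ⟨C, hC⟩ := (isCompact_U3.prod isCompact_Icc).exists_bound_of_continuousOn hG
  have hmk : ∀ t : ℝ, t ∈ Icc (-ε) ε → ContinuousOn (fun g : X3 => (g, t)) U3 := fun t _ =>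
    continuousOn_id.prodMk continuousOn_const
  have h0 : (0 : ℝ) ∈ Icc (-ε) ε := ⟨by linarith, hε0.le⟩
  have hres : ∀ (f : X3 × ℝ → ℝ), ContinuousOn f (U3 ×ˢ Icc (-ε) ε) → ∀ t ∈ Icc (-ε) ε,
      ContinuousOn (fun g => f (g, t)) U3 := by
    intro f hf t ht
    have h1 : MapsTo (fun g : X3 => (g, t)) U3 (U3 ×ˢ Icc (-ε) ε) := fun g hg => ⟨hg, ht⟩
    exact ContinuousOn.comp (g := f) (f := fun g : X3 => (g, t)) hf (hmk t ht) h1
  have main := hasDerivAt_integral_of_dominated_loc_of_deriv_le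
    (F := fun (t : ℝ) (g : X3) => sg (T g + t • D g))
    (F' := fun (t : ℝ) (g : X3) => wd (D g) (th (T g + t • D g))) (μ := ν) (x₀ := 0)
    (bound := fun _ => C) (s := ball 0 ε) (ball_mem_nhds 0 hε0) ?_ ?_ ?_ ?_ ?_ ?_
  · have h1 := main.2
    simpa using h1
  · filter_upwards [ball_mem_nhds (0 : ℝ) hε0] with t ht
    have ht' : t ∈ Icc (-ε) ε := by
      rw [mem_ball_zero_iff, Real.norm_eq_abs] at ht
      exact abs_le.1 ht.le
    have h1 := hres _ hsg t ht'
    exact (integrable_u hν h1).aestronglyMeasurable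
  · have h1 := hres _ hsg 0 h0
    exact integrable_u hν h1
  · have h1 := hres _ hG 0 h0
    exact (integrable_u hν h1).aestronglyMeasurable
  · refine ae_u hν (fun g hg t ht => ?_)
    rw [mem_ball_zero_iff, Real.norm_eq_abs] at ht
    exact hC (g, t) ⟨hg, abs_le.1 ht.le⟩
  · exact integrable_const C
  · refine ae_u hν (fun g hg t ht => ?_)
    rw [mem_ball_zero_iff, Real.norm_eq_abs] at ht
    have hp := (hpos g hg t ht.le).ne'
    have h1 := sT g hg
    have h2 := sD g hg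
    generalize T g = A at hp h1 ⊢
    generalize D g = B at hp h2 ⊢
    have key := hasDerivAt_sg h1 h2 t hp
    exact key

end Pool.Agent.Lib.DEn
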