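import Pool.Agent.Lib.DEn.Br
import Pool.Agent.Lib.DEn.Alg

set_option autoImplicit false
set_option maxSynthPendingDepth 3

/-!
# Small perturbations of positive forms
-/

open MeasureTheory Set Metric
open scoped ContDiff Topology

namespace Pool.Agent.Lib.DEn

open Pool.Agent.P28b04d
open Pool.Agent.Lib.Psd (W hp ON3 fr cmp st asd sd nrm2 Pf Skew Conn Basic dd a0 c0)

theorem cont_pf {F : X3 → A4} (hF : CtU F) : ContinuousOn (fun g => Pf (F g)) U3 := by
  unfold Pf
  exact ((((hF 0 1).mul (hF 2 3)).sub ((hF 0 2).mul (hF 1 3))).add ((hF 0 3).mul (hF 1 2)))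

theorem cont_wd {F D : X3 → A4} (hF : CtU F) (hD : CtU D) :
    ContinuousOn (fun g => wd (F g) (D g)) U3 := by
  unfold wd
  exact ((((((hF 0 1).mul (hD 2 3)).add ((hF 2 3).mul (hD 0 1))).sub ((hF 0 2).mul (hD 1 3))).sub
    ((hF 1 3).mul (hD 0 2))).add ((hF 0 3).mul (hD 1 2))).add ((hF 1 2).mul (hD 0 3))

theorem cont_nrm2 {F : X3 → A4} (hF : CtU F) : ContinuousOn (fun g => nrm2 (F g)) U3 := by
  unfold nrm2
  exact continuousOn_finsetSum _ fun i _ => continuousOn_finsetSum _ fun j _ => (hF i j).pow 2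

theorem cont_ip {F D : X3 → A4} (hF : CtU F) (hD : CtU D) :
    ContinuousOn (fun g => ip (F g) (D g)) U3 := by
  unfold ip
  exact (continuousOn_finsetSum _ fun i _ =>
    continuousOn_finsetSum _ fun j _ => (hF i j).mul (hD i j)).div_const 2

theorem cont_sg {F : X3 → A4} (hF : CtU F) (h : ∀ g ∈ U3, Pf (F g) ≠ 0) :
    ContinuousOn (fun g => sg (F g)) U3 := by
  unfold sg
  refine (cont_nrm2 hF).div ((cont_pf hF).const_mul 4) fun g hg => ?_
  exact mul_ne_zero (by norm_num) (h g hg)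

theorem ctU_lin {F D : X3 → A4} (hF : CtU F) (hD : CtU D) (t : ℝ) : CtU fun g => F g + t • D g := by
  intro i j
  exact (hF i j).add ((hD i j).const_smul t)

theorem U3_nonempty : U3.Nonempty := ⟨id3, id3_mem⟩

theorem pf_near {F D : X3 → A4} (hF : CtU F) (hD : CtU D) (hP : ∀ g ∈ U3, 0 < Pf (F g)) :
    ∃ ε : ℝ, 0 < ε ∧ ∀ t : ℝ, |t| < ε → ∀ g ∈ U3, 0 < Pf (F g + t • D g) := by
  obtain ⟨g₀, hg₀, hmin⟩ := isCompact_U3.exists_isMinOn U3_nonempty (cont_pf hF)
  obtain ⟨B, hB⟩ := isCompact_U3.exists_bound_of_continuousOn (cont_wd hF hD)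
  obtain ⟨C, hC⟩ := isCompact_U3.exists_bound_of_continuousOn (cont_pf hD)
  set m : ℝ := Pf (F g₀) with hm
  have hm0 : 0 < m := hP g₀ hg₀
  set K : ℝ := |B| + |C| + 1 with hK
  have hK0 : 0 < K := by positivity
  refine ⟨min 1 (m / K), lt_min one_pos (div_pos hm0 hK0), fun t ht g hg => ?_⟩
  have ht1 : |t| < 1 := lt_of_lt_of_le ht (min_le_left _ _)
  have ht2 : |t| * K < m := by
    have := lt_of_lt_of_le ht (min_le_right _ _)
    rwa [lt_div_iff₀ hK0] at this
  have e : Pf (F g + t • D g) = Pf (F g) + t * wd (F g) (D g) + t ^ 2 * Pf (D g) := by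
    simp only [Pf, wd, Pi.add_apply, Pi.smul_apply, smul_eq_mul]
    ring
  have h1 : m ≤ Pf (F g) := hmin hg
  have h2 : |wd (F g) (D g)| ≤ |B| := by
    have := hB g hg
    rw [Real.norm_eq_abs] at this
    exact this.trans (le_abs_self B)
  have h3 : |Pf (D g)| ≤ |C| := by
    have := hC g hg
    rw [Real.norm_eq_abs] at this
    exact this.trans (le_abs_self C)
  have h4 : |t * wd (F g) (D g)| ≤ |t| * |B| := by
    rw [abs_mul]
    exact mul_le_mul_of_nonneg_left h2 (abs_nonneg t)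
  have h5 : |t ^ 2 * Pf (D g)| ≤ |t| * |C| := by
    rw [abs_mul, abs_pow, pow_two]
    have : |t| * |t| ≤ |t| * 1 := mul_le_mul_of_nonneg_left ht1.le (abs_nonneg t)
    calc |t| * |t| * |Pf (D g)| ≤ |t| * 1 * |C| :=
          mul_le_mul this h3 (abs_nonneg _) (by positivity)
      _ = |t| * |C| := by ring
  rw [e]
  have h6 := neg_abs_le (t * wd (F g) (D g))
  have h7 := neg_abs_le (t ^ 2 * Pf (D g))
  have h8 : |t| * K = |t| * |B| + |t| * |C| + |t| := by rw [hK]; ring
  have h9 := abs_nonneg t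
  linarith

end Pool.Agent.Lib.DEn
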