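import Pool.Agent.Lib.DEn.DvE
import Pool.Agent.Lib.DEn.Forms
import Pool.Agent.Lib.DEn.Alg

set_option autoImplicit false
set_option maxSynthPendingDepth 3

/-!
# Stokes on the unitary frames  (1 h)

Write `f i = fr (g 1) (g 2) i`, `D i = P28u.Dv i`. By `Dv_c1`, `(dB γ) (f i) (f j) = D i γ_j - D j γ_i` with `γ_j = c1 γ g j`; by `Dv_cF`, `d3 τ (f i) (f j) (f k) = D i τ_jk + D j τ_ki + D k τ_ij`. Each function `γ_j τ_kl` is smooth near `U3`, so `∫ D i (γ_j τ_kl) dν = 0` (`P28u.int_Dv`), i.e.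
`∫ (D i γ_j) τ_kl = - ∫ γ_j D i τ_kl` (product rule for `fderiv`). Expand `wd`: the terms with `γ_0` are `- D1γ0 τ23 + D2γ0 τ13 - D3γ0 τ12`, which integrate to `∫ γ_0 (D1 τ23 - D2 τ13 + D3 τ12) = ∫ γ_0 d3(f1,f2,f3)`; with `γ_1`: `D0γ1 τ23 - D2γ1 τ03 + D3γ1 τ02`, giving
`∫ γ_1 (-D0 τ23 + D2 τ03 - D3 τ02) = - ∫ γ_1 d3(f0,f2,f3)`; with `γ_2`: `- D0γ2 τ13 + D1γ2 τ03 - D3γ2 τ01`, giving `∫ γ_2 (D0 τ13 - D1 τ03 + D3 τ01) = ∫ γ_2 d3(f0,f1,f3)`; with `γ_3`: `D0γ3 τ12 - D1γ3 τ02 + D2γ3 τ01`, giving `- ∫ γ_3 d3(f0,f1,f2)` (skewness of `τ`).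
`stokes0`: `xi τ g = 0` for closed `τ`. `int_pf`: with `δ = α - a0` (basic, `Psd.Conn.sub`), `T = cF (dB α) g = c0 + cF (dB δ) g` (`cF_dB_a0`, derivative of a difference), `wd T T = wd c0 c0 + 2 wd (dδ) c0 + wd (dδ) (dδ)`; `c0 = cF (dB a0) g` and `dB a0`, `dB δ` are closed, so the last two integrals vanish
(`stokes0`), and `wd T T = 2 Pf T`, `wd c0 c0 = 8`, `ν` is a probability measure.
-/

open MeasureTheory Set Metric Filter
open scoped ContDiff Topology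

namespace Pool.Agent.Lib.DEn

open Pool.Agent.P28b04d
open Pool.Agent.Lib.Psd (W hp ON3 fr cmp st asd sd nrm2 Pf Skew Conn Basic dd a0 c0)

namespace StokesAux

/-- sum of three products -/
noncomputable def V (γ : W → W →L[ℝ] ℝ) (τ : W → BW) (j k l : Fin 3 → Fin 4) (s : Fin 3 → ℝ)
    (x : X3) : ℝ :=
  s 0 * (c1 γ x (j 0) * cF τ x (k 0) (l 0)) + s 1 * (c1 γ x (j 1) * cF τ x (k 1) (l 1)) +
    s 2 * (c1 γ x (j 2) * cF τ x (k 2) (l 2))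

theorem V_smooth {γ : W → W →L[ℝ] ℝ} (hγ : Basic γ) {τ : W → BW} (hτ : HF τ)
    (j k l : Fin 3 → Fin 4) (s : Fin 3 → ℝ) {g : X3} (hg : g ∈ U3) :
    ContDiffAt ℝ 1 (V γ τ j k l s) g := by
  have h1 : ∀ m, ContDiffAt ℝ 1 (fun x : X3 => c1 γ x (j m)) g := fun m =>
    (smooth_c1 hγ hg (j m)).of_le (by norm_num)
  have h2 : ∀ m, ContDiffAt ℝ 1 (fun x : X3 => cF τ x (k m) (l m)) g := fun m =>
    (smooth_cF hτ.smooth hg (k m) (l m)).of_le (by norm_num)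
  have h3 : ∀ m, ContDiffAt ℝ 1 (fun x : X3 => s m * (c1 γ x (j m) * cF τ x (k m) (l m))) g :=
    fun m => contDiffAt_const.mul ((h1 m).mul (h2 m))
  exact ((h3 0).add (h3 1)).add (h3 2)

theorem prod_deriv {γ : W → W →L[ℝ] ℝ} (hγ : Basic γ) {τ : W → BW} (hτ : HF τ)
    (j k l : Fin 4) (s : ℝ) {g : X3} (hg : g ∈ U3) :
    HasFDerivAt (fun x : X3 => s * (c1 γ x j * cF τ x k l))
      (s • (c1 γ g j • fderiv ℝ (fun x : X3 => cF τ x k l) g +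
        cF τ g k l • fderiv ℝ (fun x : X3 => c1 γ x j) g)) g := by
  have h1 : HasFDerivAt (fun x : X3 => c1 γ x j) (fderiv ℝ (fun x : X3 => c1 γ x j) g) g :=
    ((smooth_c1 hγ hg j).differentiableAt (by simp)).hasFDerivAt
  have h2 : HasFDerivAt (fun x : X3 => cF τ x k l) (fderiv ℝ (fun x : X3 => cF τ x k l) g) g :=
    ((smooth_cF hτ.smooth hg k l).differentiableAt (by simp)).hasFDerivAt
  exact (h1.mul h2).const_mul s

theorem V_Dv {γ : W → W →L[ℝ] ℝ} (hγ : Basic γ) {τ : W → BW} (hτ : HF τ)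
    (j k l : Fin 3 → Fin 4) (s : Fin 3 → ℝ) {g : X3} (hg : g ∈ U3) (i : Fin 4) :
    P28u.Dv (n := 2) i (V γ τ j k l s) g =
      s 0 * (c1 γ g (j 0) * fderiv ℝ τ (g 0) (fr (g 1) (g 2) i) (fr (g 1) (g 2) (k 0))
          (fr (g 1) (g 2) (l 0)) +
        cF τ g (k 0) (l 0) * fderiv ℝ γ (g 0) (fr (g 1) (g 2) i) (fr (g 1) (g 2) (j 0))) +
      s 1 * (c1 γ g (j 1) * fderiv ℝ τ (g 0) (fr (g 1) (g 2) i) (fr (g 1) (g 2) (k 1))
          (fr (g 1) (g 2) (l 1)) +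
        cF τ g (k 1) (l 1) * fderiv ℝ γ (g 0) (fr (g 1) (g 2) i) (fr (g 1) (g 2) (j 1))) +
      s 2 * (c1 γ g (j 2) * fderiv ℝ τ (g 0) (fr (g 1) (g 2) i) (fr (g 1) (g 2) (k 2))
          (fr (g 1) (g 2) (l 2)) +
        cF τ g (k 2) (l 2) * fderiv ℝ γ (g 0) (fr (g 1) (g 2) i) (fr (g 1) (g 2) (j 2))) := by
  have h := ((prod_deriv hγ hτ (j 0) (k 0) (l 0) (s 0) hg).add
    (prod_deriv hγ hτ (j 1) (k 1) (l 1) (s 1) hg)).add
    (prod_deriv hγ hτ (j 2) (k 2) (l 2) (s 2) hg)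
  have h1 := h.fderiv
  have h2 : P28u.Dv (n := 2) i (V γ τ j k l s) g =
      fderiv ℝ (V γ τ j k l s) g (P28u.rm (n := 2) g (P28u.Xm (n := 2) i)) := rfl
  rw [h2]
  have h3 : fderiv ℝ (V γ τ j k l s) g = _ := h1
  rw [h3]
  have c : ∀ m, fderiv ℝ (fun x : X3 => c1 γ x (j m)) g
      (P28u.rm (n := 2) g (P28u.Xm (n := 2) i)) =
      fderiv ℝ γ (g 0) (fr (g 1) (g 2) i) (fr (g 1) (g 2) (j m)) := fun m => Dv_c1 hγ hg i (j m)
  have d : ∀ m, fderiv ℝ (fun x : X3 => cF τ x (k m) (l m)) g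
      (P28u.rm (n := 2) g (P28u.Xm (n := 2) i)) =
      fderiv ℝ τ (g 0) (fr (g 1) (g 2) i) (fr (g 1) (g 2) (k m)) (fr (g 1) (g 2) (l m)) :=
    fun m => Dv_cF hτ hg i (k m) (l m)
  simp only [ContinuousLinearMap.add_apply, ContinuousLinearMap.smul_apply, smul_eq_mul, c, d]

theorem V_int {ν : Measure X3} (hν : Ha ν) {γ : W → W →L[ℝ] ℝ} (hγ : Basic γ) {τ : W → BW}
    (hτ : HF τ) (j k l : Fin 3 → Fin 4) (s : Fin 3 → ℝ) (i : Fin 4) :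
    ∫ g, P28u.Dv (n := 2) i (V γ τ j k l s) g ∂ν = 0 :=
  P28u.int_Dv (n := 2) ((ha_haar ν).1 hν) i (fun _ hg => V_smooth hγ hτ j k l s hg)

theorem V_integrable {ν : Measure X3} (hν : Ha ν) {γ : W → W →L[ℝ] ℝ} (hγ : Basic γ)
    {τ : W → BW} (hτ : HF τ) (j k l : Fin 3 → Fin 4) (s : Fin 3 → ℝ) (i : Fin 4) :
    Integrable (fun g => P28u.Dv (n := 2) i (V γ τ j k l s) g) ν := by
  apply integrable_u hν
  exact P28u.IntDAux.contOn_Dv (n := 2) i (fun _ hg => V_smooth hγ hτ j k l s hg)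

theorem fderiv_skew {τ : W → BW} (hτ : HF τ) {z : W} (hz : z ≠ 0) (a v w : W) :
    fderiv ℝ τ z a v w = -fderiv ℝ τ z a w v := by
  have hd : HasFDerivAt τ (fderiv ℝ τ z) z :=
    ((hτ.smooth.contDiffAt (isOpen_compl_singleton.mem_nhds hz)).differentiableAt
      (by simp)).hasFDerivAt
  have h1 : ∀ p q : W, HasFDerivAt (fun y => τ y p q)
      (((fderiv ℝ τ z).flip p).flip q) z := by
    intro p q
    have h2 := (hd.clm_apply (hasFDerivAt_const p z)).clm_apply (hasFDerivAt_const q z)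
    have e : ((τ z p).comp (0 : W →L[ℝ] W) +
        ((τ z).comp (0 : W →L[ℝ] W) + (fderiv ℝ τ z).flip p).flip q) =
        ((fderiv ℝ τ z).flip p).flip q := by
      ext b
      simp
    rw [e] at h2
    exact h2
  have h3 := (h1 w v).neg
  have h4 : (fun y => τ y v w) =ᶠ[nhds z] fun y => -τ y w v := by
    filter_upwards [isOpen_compl_singleton.mem_nhds hz] with y hy
    exact hτ.skew y hy v w
  have h5 := (h3.congr_of_eventuallyEq h4).unique (h1 v w)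
  have h6 := DFunLike.congr_fun h5 a
  simp only [ContinuousLinearMap.neg_apply, ContinuousLinearMap.flip_apply] at h6
  exact h6.symm

theorem wd_cont {A B : X3 → A4} (hA : CtU A) (hB : CtU B) :
    ContinuousOn (fun g => wd (A g) (B g)) U3 := by
  unfold wd
  exact (((((((hA 0 1).mul (hB 2 3)).add ((hA 2 3).mul (hB 0 1))).sub
    ((hA 0 2).mul (hB 1 3))).sub ((hA 1 3).mul (hB 0 2))).add ((hA 0 3).mul (hB 1 2))).add
    ((hA 1 2).mul (hB 0 3)))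

end StokesAux

open StokesAux

theorem stokes {ν : Measure X3} (hν : Ha ν) {γ : W → W →L[ℝ] ℝ} (hγ : Basic γ) {τ : W → BW} (hτ : HF τ) :
    ∫ g, wd (cF (dB γ) g) (cF τ g) ∂ν = ∫ g, ∑ j, c1 γ g j * xi τ g j ∂ν := by
  set V0 := V γ τ ![1, 2, 3] ![2, 1, 1] ![3, 3, 2] ![1, -1, 1] with hV0
  set V1 := V γ τ ![0, 3, 2] ![2, 0, 0] ![3, 2, 3] ![-1, -1, 1] with hV1
  set V2 := V γ τ ![3, 0, 1] ![0, 1, 0] ![1, 3, 3] ![1, 1, -1] with hV2
  set V3 := V γ τ ![2, 1, 0] ![0, 0, 1] ![1, 2, 2] ![-1, 1, -1] with hV3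
  have hpt : ∀ g ∈ U3, ∑ j, c1 γ g j * xi τ g j =
      wd (cF (dB γ) g) (cF τ g) - (P28u.Dv (n := 2) (0 : Fin 4) V0 g +
        P28u.Dv (n := 2) (1 : Fin 4) V1 g + P28u.Dv (n := 2) (2 : Fin 4) V2 g +
        P28u.Dv (n := 2) (3 : Fin 4) V3 g) := by
    intro g hg
    have hz : g 0 ≠ 0 := col_ne hg 0
    rw [hV0, hV1, hV2, hV3, V_Dv hγ hτ _ _ _ _ hg, V_Dv hγ hτ _ _ _ _ hg,
      V_Dv hγ hτ _ _ _ _ hg, V_Dv hγ hτ _ _ _ _ hg]
    have e1 := fderiv_skew hτ hz (fr (g 1) (g 2) 2) (fr (g 1) (g 2) 3) (fr (g 1) (g 2) 1)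
    have e2 := fderiv_skew hτ hz (fr (g 1) (g 2) 2) (fr (g 1) (g 2) 3) (fr (g 1) (g 2) 0)
    have e3 := fderiv_skew hτ hz (fr (g 1) (g 2) 1) (fr (g 1) (g 2) 3) (fr (g 1) (g 2) 0)
    have e4 := fderiv_skew hτ hz (fr (g 1) (g 2) 1) (fr (g 1) (g 2) 2) (fr (g 1) (g 2) 0)
    have hB : ∀ i j, cF (dB γ) g i j =
        fderiv ℝ γ (g 0) (fr (g 1) (g 2) i) (fr (g 1) (g 2) j) -
          fderiv ℝ γ (g 0) (fr (g 1) (g 2) j) (fr (g 1) (g 2) i) := by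
      intro i j
      rfl
    simp only [Fin.sum_univ_four, wd, hB, xi, d3, Matrix.cons_val, e1, e2, e3, e4]
    ring
  have hw : Integrable (fun g => wd (cF (dB γ) g) (cF τ g)) ν :=
    integrable_u hν (wd_cont (ctU_cF (dB_hf hγ).smooth) (ctU_cF hτ.smooth))
  have i0 := V_integrable hν hγ hτ ![1, 2, 3] ![2, 1, 1] ![3, 3, 2] ![1, -1, 1] 0
  have i1 := V_integrable hν hγ hτ ![0, 3, 2] ![2, 0, 0] ![3, 2, 3] ![-1, -1, 1] 1
  have i2 := V_integrable hν hγ hτ ![3, 0, 1] ![0, 1, 0] ![1, 3, 3] ![1, 1, -1] 2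
  have i3 := V_integrable hν hγ hτ ![2, 1, 0] ![0, 0, 1] ![1, 2, 2] ![-1, 1, -1] 3
  have z0 := V_int hν hγ hτ ![1, 2, 3] ![2, 1, 1] ![3, 3, 2] ![1, -1, 1] 0
  have z1 := V_int hν hγ hτ ![0, 3, 2] ![2, 0, 0] ![3, 2, 3] ![-1, -1, 1] 1
  have z2 := V_int hν hγ hτ ![3, 0, 1] ![0, 1, 0] ![1, 3, 3] ![1, 1, -1] 2
  have z3 := V_int hν hγ hτ ![2, 1, 0] ![0, 0, 1] ![1, 2, 2] ![-1, 1, -1] 3
  rw [← hV0] at i0 z0
  rw [← hV1] at i1 z1
  rw [← hV2] at i2 z2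
  rw [← hV3] at i3 z3
  have i01 : Integrable (fun g => P28u.Dv (n := 2) (0 : Fin 4) V0 g +
      P28u.Dv (n := 2) (1 : Fin 4) V1 g) ν := i0.add i1
  have i012 : Integrable (fun g => P28u.Dv (n := 2) (0 : Fin 4) V0 g +
      P28u.Dv (n := 2) (1 : Fin 4) V1 g + P28u.Dv (n := 2) (2 : Fin 4) V2 g) ν := i01.add i2
  have i0123 : Integrable (fun g => P28u.Dv (n := 2) (0 : Fin 4) V0 g +
      P28u.Dv (n := 2) (1 : Fin 4) V1 g + P28u.Dv (n := 2) (2 : Fin 4) V2 g +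
      P28u.Dv (n := 2) (3 : Fin 4) V3 g) ν := i012.add i3
  rw [integral_congr_u hν hpt, integral_sub hw i0123, integral_add i012 i3, integral_add i01 i2,
    integral_add i0 i1, z0, z1, z2, z3]
  ring

theorem stokes0 {ν : Measure X3} (hν : Ha ν) {γ : W → W →L[ℝ] ℝ} (hγ : Basic γ) {τ : W → BW} (hτ : HF τ)
    (hc : Cl τ) : ∫ g, wd (cF (dB γ) g) (cF τ g) ∂ν = 0 := by
  rw [stokes hν hγ hτ]
  have h : ∀ g ∈ U3, ∑ j, c1 γ g j * xi τ g j = (fun _ : X3 => (0 : ℝ)) g := by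
    intro g hg
    have hz : g 0 ≠ 0 := col_ne hg 0
    simp only [Fin.sum_univ_four, xi, hc (g 0) hz, Matrix.cons_val]
    ring
  rw [integral_congr_u hν h]
  simp

theorem int_pf {ν : Measure X3} (hν : Ha ν) {α : W → W →L[ℝ] ℝ} (hα : Conn α) :
    ∫ g, Pf (cF (dB α) g) ∂ν = 4 := by
  have := hν.prob
  have hδ : Basic (fun z => α z - a0 z) := hα.sub Psd.a0_conn
  set δ : W → W →L[ℝ] ℝ := fun z => α z - a0 z with hδdef
  have hT : ∀ g ∈ U3, cF (dB α) g = c0 + cF (dB δ) g := by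
    intro g hg
    have hz : g 0 ≠ 0 := col_ne hg 0
    have h1 : HasFDerivAt α (fderiv ℝ α (g 0)) (g 0) := Psd.ConnBAux.diffAt hα.smooth hz
    have h2 : HasFDerivAt a0 (fderiv ℝ a0 (g 0)) (g 0) :=
      Psd.ConnBAux.diffAt Psd.a0_conn.smooth hz
    have h3 : fderiv ℝ δ (g 0) = fderiv ℝ α (g 0) - fderiv ℝ a0 (g 0) := (h1.sub h2).fderiv
    rw [← cF_dB_a0 hg]
    funext i j
    simp only [Pi.add_apply, cF, dB, h3, sub_apply,
      ContinuousLinearMap.flip_apply]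
    ring
  have hpt : ∀ g ∈ U3, Pf (cF (dB α) g) = 4 + (wd (cF (dB δ) g) (cF (dB a0) g) +
      wd (cF (dB δ) g) (cF (dB δ) g) / 2) := by
    intro g hg
    have h1 := wd_self (cF (dB α) g)
    have h2 := wd_self c0
    rw [c0_st.2.2.1] at h2
    rw [hT g hg, wd_add, wd_comm c0 (c0 + _), wd_add, wd_comm (cF (dB δ) g) (c0 + _), wd_add, h2,
      wd_comm c0 (cF (dB δ) g)] at h1
    rw [hT g hg, cF_dB_a0 hg]
    linarith
  have k1 : Integrable (fun g => wd (cF (dB δ) g) (cF (dB a0) g)) ν :=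
    integrable_u hν (wd_cont (ctU_cF (dB_hf hδ).smooth) (ctU_cF (dB_hfc Psd.a0_conn).smooth))
  have k2 : Integrable (fun g => wd (cF (dB δ) g) (cF (dB δ) g)) ν :=
    integrable_u hν (wd_cont (ctU_cF (dB_hf hδ).smooth) (ctU_cF (dB_hf hδ).smooth))
  have z1 := stokes0 hν hδ (dB_hfc Psd.a0_conn) (dB_cl Psd.a0_conn.smooth)
  have z2 := stokes0 hν hδ (dB_hf hδ) (dB_cl hδ.smooth)
  have k3 : Integrable (fun g => wd (cF (dB δ) g) (cF (dB δ) g) / 2) ν := k2.div_const 2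
  have k12 : Integrable (fun g => wd (cF (dB δ) g) (cF (dB a0) g) +
      wd (cF (dB δ) g) (cF (dB δ) g) / 2) ν := k1.add k3
  rw [integral_congr_u hν hpt, integral_add (integrable_const _) k12, integral_add k1 k3, z1,
    integral_div, z2]
  simp

end Pool.Agent.Lib.DEn
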