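import Pool.Agent.Lib.DEn.BDesc
import Pool.Agent.Lib.DEn.BMax
import Pool.Agent.Lib.DEn.ThU
import Pool.Agent.Lib.DEn.Stokes
import Pool.Agent.Lib.DEn.Near
import Pool.Agent.Lib.DEn.EDer

set_option autoImplicit false
set_option maxSynthPendingDepth 3

/-!
# Descent of the distortion for the Fubini-Study metric  (1 h)

`T g = cF (dB α) g`, `Θ` of `theta_up`. `c₁ > c` and `1 < σ < S` with `8 S c₁² < σ² - 1`. `K = {g ∈ U3 | σ ≤ sg (T g)}` is closed (`cont_sg`, `U3` is closed). `descent` with `τ = dB α`, `A = S`, `b = 2 (σ² - 1)`, `c₁`: `th_facts`: `ip Θ Θ = 2 s (s² - 1) / Pf = - s * wd Θ Θ ≤ - S * wd Θ Θ` (`1 ≤ s ≤ S`, `sg_ge`), `- wd Θ Θ * Pf = 2 (s² - 1) ≥ b` on `K`, `∫ Pf = 4` (`int_pf`). This gives `γ`.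
`max_dec` with `φ g t = sg (T g + t • D g)`, `D = cF (dB γ)`, `φ' g t = wd (D g) (th (T g + t • D g))` (`hasDerivAt_sg`), on `[0, ε]` where `Pf (T g + t • D g) > 0` (`pf_near`).
-/

open MeasureTheory Set Metric Filter
open scoped ContDiff Topology

namespace Pool.Agent.Lib.DEn

open Pool.Agent.P28b04d
open Pool.Agent.Lib.Psd (W hp ON3 fr cmp st asd sd nrm2 Pf Skew Conn Basic dd a0 c0 Mat form fs Tan tv cmpM NondegM pb)

namespace BFSAux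

theorem exists_consts {S c : ℝ} (h1 : 1 < S) (hcS : 8 * S * c ^ 2 < S ^ 2 - 1) :
    ∃ c₁ σ : ℝ, c < c₁ ∧ 1 < σ ∧ σ < S ∧ 8 * S * c₁ ^ 2 < σ ^ 2 - 1 := by
  have hcont : Continuous fun η : ℝ => ((S - η) ^ 2 - 1) - 8 * S * (c + η) ^ 2 := by fun_prop
  have h2 : ∀ᶠ η : ℝ in 𝓝 0, 0 < ((S - η) ^ 2 - 1) - 8 * S * (c + η) ^ 2 := by
    have h3 := hcont.tendsto 0
    refine h3.eventually_const_lt ?_
    rw [sub_zero, add_zero]
    linarith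
  have hcont' : Continuous fun η : ℝ => S - η := by fun_prop
  have h4 : ∀ᶠ η : ℝ in 𝓝 0, 1 < S - η := by
    have h3 := hcont'.tendsto 0
    refine h3.eventually_const_lt ?_
    rw [sub_zero]
    exact h1
  have h5 : ∀ᶠ η : ℝ in 𝓝[>] (0 : ℝ), 0 < ((S - η) ^ 2 - 1) - 8 * S * (c + η) ^ 2 ∧ 1 < S - η :=
    (h2.and h4).filter_mono nhdsWithin_le_nhds
  obtain ⟨η, ⟨h6, h7⟩, h8⟩ := (h5.and self_mem_nhdsWithin).exists
  have h9 : 0 < η := h8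
  exact ⟨c + η, S - η, by linarith, h7, by linarith, by linarith⟩

theorem real1 {s P S : ℝ} (hs : 1 ≤ s) (hsS : s ≤ S) (hP : 0 < P) :
    2 * s * (s ^ 2 - 1) / P ≤ -S * (2 * (1 - s ^ 2) / P) := by
  have e1 : -S * (2 * (1 - s ^ 2) / P) = 2 * S * (s ^ 2 - 1) / P := by ring
  rw [e1]
  refine div_le_div_of_nonneg_right ?_ hP.le
  have h2 : 0 ≤ s ^ 2 - 1 := by nlinarith
  nlinarith

theorem real2 {s P σ : ℝ} (hσ : 1 < σ) (hs : σ ≤ s) (hP : 0 < P) :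
    2 * (σ ^ 2 - 1) ≤ -(2 * (1 - s ^ 2) / P) * P := by
  have e1 : -(2 * (1 - s ^ 2) / P) * P = 2 * (s ^ 2 - 1) := by
    rw [neg_mul, div_mul_cancel₀ _ hP.ne']
    ring
  rw [e1]
  nlinarith

theorem cont_G {T D : X3 → A4} (hT : ContinuousOn T U3) (hD : ContinuousOn D U3) {I : Set ℝ}
    (h : ∀ t ∈ I, ∀ g ∈ U3, 0 < Pf (T g + t • D g)) :
    ContinuousOn (fun p : X3 × ℝ => wd (D p.1) (th (T p.1 + p.2 • D p.1))) (U3 ×ˢ I) := by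
  have k1 : ContinuousOn (fun p : X3 × ℝ => T p.1) (U3 ×ˢ I) :=
    hT.comp continuousOn_fst (fun p hp => hp.1)
  have k2 : ContinuousOn (fun p : X3 × ℝ => D p.1) (U3 ×ˢ I) :=
    hD.comp continuousOn_fst (fun p hp => hp.1)
  have hSc : ContinuousOn (fun p : X3 × ℝ => T p.1 + p.2 • D p.1) (U3 ×ˢ I) :=
    k1.add (continuousOn_snd.smul k2)
  have hSm : MapsTo (fun p : X3 × ℝ => T p.1 + p.2 • D p.1) (U3 ×ˢ I) {S | Pf S ≠ 0} :=
    fun p hp => (h p.2 hp.2 p.1 hp.1).ne'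
  exact EDerAux.cont_wd.comp_continuousOn (k2.prodMk (EDerAux.cont_th.comp hSc hSm))

end BFSAux

open BFSAux

theorem desc_fs {ν : Measure X3} (hν : Ha ν) {α : W → W →L[ℝ] ℝ} (hα : Conn α)
    (hP : ∀ g ∈ U3, 0 < Pf (cF (dB α) g)) {S c : ℝ} (hS : ∀ g ∈ U3, sg (cF (dB α) g) ≤ S) (h1 : 1 < S)
    (hc : 0 ≤ c) (hcS : 8 * S * c ^ 2 < S ^ 2 - 1) :
    ∃ γ : W → W →L[ℝ] ℝ, Basic γ ∧ ∫ g, ip (cF (dB γ) g) (cF (dB γ) g) ∂ν ≤ 1 ∧
      ∃ t₀ : ℝ, 0 < t₀ ∧ ∀ t ∈ Icc (0 : ℝ) t₀, ∀ g ∈ U3, 0 < Pf (cF (dB α) g + t • cF (dB γ) g) ∧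
        sg (cF (dB α) g + t • cF (dB γ) g) ≤ S - c * t := by
  obtain ⟨c₁, σ, hc1, hσ1, hσS, hcσ⟩ := exists_consts h1 hcS
  have hS0 : 0 < S := by linarith
  have hτ : HF (dB α) := dB_hfc hα
  have hTc : CtU (cF (dB α)) := ctU_cF hτ.smooth
  have hsgc : ContinuousOn (fun g => sg (cF (dB α) g)) U3 :=
    cont_sg hTc fun g hg => (hP g hg).ne'
  obtain ⟨Θ, hΘ, hΘe⟩ := theta_up hα hP
  let K : Set X3 := U3 ∩ (fun g => sg (cF (dB α) g)) ⁻¹' Ici σ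
  have hK : IsClosed K := hsgc.preimage_isClosed_of_isClosed isCompact_U3.isClosed isClosed_Ici
  have hfac : ∀ g ∈ U3, 1 ≤ sg (cF (dB α) g) ∧
      wd (cF Θ g) (cF Θ g) = 2 * (1 - sg (cF (dB α) g) ^ 2) / Pf (cF (dB α) g) ∧
      ip (cF Θ g) (cF Θ g) =
        2 * sg (cF (dB α) g) * (sg (cF (dB α) g) ^ 2 - 1) / Pf (cF (dB α) g) := by
    intro g hg
    have hsk := cF_skew hτ hg
    have h2 := th_facts hsk (hP g hg)
    rw [hΘe g hg]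
    exact ⟨sg_ge hsk (hP g hg), h2.2.2.1, h2.2.2.2⟩
  obtain ⟨γ, hγ, hγ1, hγK⟩ := descent hν hΘ hτ hK inter_subset_left (A := S)
    (b := 2 * (σ ^ 2 - 1)) (c := c₁) hS0 (by nlinarith) (by linarith)
    (by
      intro g hg
      obtain ⟨hs1, hw, hi⟩ := hfac g hg
      rw [hw, hi]
      exact real1 hs1 (hS g hg) (hP g hg))
    hP
    (by
      rintro g ⟨hg, hgσ⟩
      rw [(hfac g hg).2.1]
      exact real2 hσ1 hgσ (hP g hg))
    (by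
      rw [int_pf hν hα]
      linarith)
  have hDf : HF (dB γ) := dB_hf hγ
  have hDc : CtU (cF (dB γ)) := ctU_cF hDf.smooth
  obtain ⟨ε, hε, hpf⟩ := pf_near hTc hDc hP
  have hpf' : ∀ t ∈ Icc (0 : ℝ) (ε / 2), ∀ g ∈ U3, 0 < Pf (cF (dB α) g + t • cF (dB γ) g) := by
    intro t ht g hg
    refine hpf t ?_ g hg
    rw [abs_of_nonneg ht.1]
    linarith [ht.2]
  have hT := EDerAux.contOn hTc
  have hD := EDerAux.contOn hDc
  have hG : ContinuousOn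
      (fun p : X3 × ℝ => wd (cF (dB γ) p.1) (th (cF (dB α) p.1 + p.2 • cF (dB γ) p.1)))
      (U3 ×ˢ Icc 0 (ε / 2)) := cont_G hT hD hpf'
  have e0 : ∀ g, cF (dB α) g + (0 : ℝ) • cF (dB γ) g = cF (dB α) g := by
    intro g
    rw [zero_smul, add_zero]
  obtain ⟨t₀, ht0, ht1, ht⟩ := max_dec (φ := fun g t => sg (cF (dB α) g + t • cF (dB γ) g))
    (φ' := fun g t => wd (cF (dB γ) g) (th (cF (dB α) g + t • cF (dB γ) g))) (ε := ε / 2)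
    (half_pos hε)
    (fun g hg t ht => hasDerivAt_sg (cF_skew hτ hg) (cF_skew hDf hg) t (hpf' t ht g hg).ne')
    hG (S := S) (σ := σ) (c := c₁) (c' := c) hσS hc1 hc
    (fun g hg => by
      rw [e0]
      exact hS g hg)
    (fun g hg h => by
      rw [e0] at h
      rw [e0, ← hΘe g hg]
      exact hγK g ⟨hg, h⟩)
  exact ⟨γ, hγ, hγ1, t₀, ht0, fun t ht' g hg =>
    ⟨hpf' t ⟨ht'.1, ht'.2.trans ht1⟩ g hg, ht t ht' g hg⟩⟩

end Pool.Agent.Lib.DEn
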