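import Pool.Agent.Lib.DEn.GAl

set_option autoImplicit false
set_option maxSynthPendingDepth 3

/-!
# The Hodge star of an inner product  (1.5 h)

`M` symmetric: `cg M X = tc M X = ct M X`. Skewness is clear. `wd_kap`: `wd (cg M (st A)) (cg M (st B)) = det M * wd (st A) (st B)` (`wd_tc`, `wd_st_st`). `kap_kap`: `cg M (st (cg M (st T))) = det M • st (st T)` (`st_tc` with `X = st T`, `st_st`). `kap_symm`: `wd A (kap M B) = ip A (st (kap M B))` and, with `N = M⁻¹`, `st (cg M (st B)) = det M • N B N`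
(from `st_tc`: `cg M (st (cg M (st B))) = det M • B`), so `wd A (kap M B) = det M * (∑ A_ij N_ik B_kl N_lj) / 2`, symmetric in `A, B` (`N` symmetric). `kap_pos`: `∑_{ijkl} X_ij N_ik X_kl N_jl = ∑ X'_ij² > 0` for `N = QᵀQ` (`X' = Q X Qᵀ`; `M` is positive definite, `Matrix.PosDef`, so is `M⁻¹`; or use `M = QᵀQ` and `X = Qᵀ X' Q`,
`wd X (kap M X) = det Q * wd X' (st' ...)`): a positive definite form. (A matrix `Q` with `M = Qᵀ Q` and `det Q > 0`: `Matrix.PosDef` square root, change of sign of a row.)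
`fM_ge`: put `v = √det M`, `Y = T - v⁻¹ • kap M T`: `0 ≤ wd Y (kap M Y) = wd T (kap M T) - 2 v wd T T + wd T (kap M T)` up to the positive factor (`wd (kap) (kap) = v² wd T T`, `kap (kap T) = v² T`), i.e. `wd T (kap M T) ≥ v wd T T = 2 v Pf T`; equality forces `Y = 0`.
`tM_facts`: with `F = fM M T`, `P = Pf T`, `K = kap M T`: `tM M T = P⁻¹ • (K - F • T)`, `wd T K = 2 P F`, `wd K K = 2 P det M`, `kap M (tM M T) = P⁻¹ • (det M • T - F • K)`. `hasDerivAt_fM`: quotient rule, `d/dt wd (T + tD) (kap M (T + tD)) = 2 wd D (kap M T)` at `0` by `kap_symm`, `d/dt Pf = wd D T`.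
`fM_eq`: `wd T (kap M T) = det M * nrmM M T` (formula in `kap_symm`; `trace (N T N T) = - ∑ T_ij N_ik T_kl N_lj`).
-/

open MeasureTheory Set Metric Filter
open scoped ContDiff Topology

namespace Pool.Agent.Lib.DEn

open Pool.Agent.P28b04d
open Pool.Agent.Lib.Psd (W hp ON3 fr cmp st asd sd nrm2 Pf Skew Conn Basic dd a0 c0 Mat form fs Tan tv cmpM NondegM pb)

namespace GStAux

theorem posDef {M : A4} (hM : PD M) : (Matrix.of M).PosDef := by
  refine Matrix.PosDef.of_dotProduct_mulVec_pos ?_ ?_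
  · ext i j
    simp only [Matrix.conjTranspose_apply, Matrix.of_apply, star_trivial]
    exact hM.1 j i
  · intro x hx
    have h := hM.2 x hx
    have e : star x ⬝ᵥ (Matrix.of M).mulVec x = ∑ i, ∑ j, x i * M i j * x j := by
      simp only [dotProduct, Matrix.mulVec, Pi.star_apply, star_trivial, Matrix.of_apply,
        Finset.mul_sum, mul_assoc]
    rw [e]
    exact h

theorem cg_tc {M : A4} (hM : PD M) (X : A4) : cg M X = tc M X := by
  funext i j
  unfold cg tc
  refine Finset.sum_congr rfl fun k _ => Finset.sum_congr rfl fun l _ => ?_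
  rw [hM.1 i k]

theorem cg_ct {M : A4} (hM : PD M) (X : A4) : cg M X = ct M X := by
  funext i j
  unfold cg ct
  refine Finset.sum_congr rfl fun k _ => Finset.sum_congr rfl fun l _ => ?_
  rw [hM.1 l j]

theorem cg_add (M X Y : A4) : cg M (X + Y) = cg M X + cg M Y := by
  funext i j
  simp only [cg, Pi.add_apply, mul_add, add_mul, Finset.sum_add_distrib]

theorem cg_smul (M : A4) (c : ℝ) (X : A4) : cg M (c • X) = c • cg M X := by
  funext i j
  simp only [cg, Pi.smul_apply, smul_eq_mul, Finset.mul_sum]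
  refine Finset.sum_congr rfl fun k _ => Finset.sum_congr rfl fun l _ => ?_
  ring

theorem kap_add (M X Y : A4) : kap M (X + Y) = kap M X + kap M Y := by
  unfold kap
  rw [st_add, cg_add]

theorem kap_smul (M : A4) (c : ℝ) (X : A4) : kap M (c • X) = c • kap M X := by
  unfold kap
  rw [st_smul, cg_smul]

theorem skew_cg {M X : A4} (hM : PD M) (hX : Skew X) : Skew (cg M X) := by
  intro i j
  unfold cg
  rw [Finset.sum_comm, ← Finset.sum_neg_distrib]
  refine Finset.sum_congr rfl fun k _ => ?_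
  rw [← Finset.sum_neg_distrib]
  refine Finset.sum_congr rfl fun l _ => ?_
  rw [hX l k, hM.1 i l, hM.1 k j]
  ring

theorem wd_smul' (c : ℝ) (A B : A4) : wd A (c • B) = c * wd A B := by
  rw [wd_comm, wd_smul, wd_comm]

theorem wd_add' (A B C : A4) : wd A (B + C) = wd A B + wd A C := by
  rw [wd_comm, wd_add, wd_comm B, wd_comm C]

theorem ip_cg_symm {M : A4} (hM : PD M) (A B : A4) : ip (cg M A) B = ip (cg M B) A := by
  unfold ip
  congr 1
  have e : ∀ A B : A4, ∑ i, ∑ j, cg M A i j * B i j =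
      ∑ p : Fin 4 × Fin 4, ∑ q : Fin 4 × Fin 4, M p.1 q.1 * A q.1 q.2 * M q.2 p.2 * B p.1 p.2 := by
    intro A B
    rw [Fintype.sum_prod_type]
    refine Finset.sum_congr rfl fun i _ => Finset.sum_congr rfl fun j _ => ?_
    rw [Fintype.sum_prod_type]
    unfold cg
    rw [Finset.sum_mul]
    refine Finset.sum_congr rfl fun k _ => ?_
    rw [Finset.sum_mul]
  rw [e, e, Finset.sum_comm]
  refine Finset.sum_congr rfl fun p _ => Finset.sum_congr rfl fun q _ => ?_
  rw [hM.1 q.1 p.1, hM.1 p.2 q.2]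
  ring

theorem ip_cg_pos {M Y : A4} (hM : PD M) (h0 : Y ≠ 0) : 0 < ip (cg M Y) Y := by
  have h1 := (posDef hM).kronecker (posDef hM)
  have hx : (fun p : Fin 4 × Fin 4 => Y p.1 p.2) ≠ 0 := by
    intro h
    apply h0
    funext i j
    exact congrFun h (i, j)
  have h2 := h1.dotProduct_mulVec_pos hx
  have e : star (fun p : Fin 4 × Fin 4 => Y p.1 p.2) ⬝ᵥ
      (Matrix.kroneckerMap (fun a b => a * b) (Matrix.of M) (Matrix.of M)).mulVec
        (fun p : Fin 4 × Fin 4 => Y p.1 p.2) = 2 * ip (cg M Y) Y := by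
    unfold ip
    rw [mul_div_cancel₀ _ two_ne_zero]
    simp only [dotProduct, Matrix.mulVec, Pi.star_apply, star_trivial, Matrix.kroneckerMap_apply,
      Matrix.of_apply, Fintype.sum_prod_type, cg]
    refine Finset.sum_congr rfl fun i _ => Finset.sum_congr rfl fun j _ => ?_
    rw [mul_comm]
    congr 1
    refine Finset.sum_congr rfl fun k _ => Finset.sum_congr rfl fun l _ => ?_
    rw [hM.1 j l]
    ring
  rw [e] at h2
  linarith

theorem st_ne {X : A4} (hX : Skew X) (h0 : X ≠ 0) : st X ≠ 0 := by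
  intro h
  apply h0
  rw [← st_st hX, h]
  funext i j
  fin_cases i <;> fin_cases j <;> simp [st]

theorem wkap {M A B : A4} (hM : PD M) (hA : Skew A) (hB : Skew B) :
    wd A (kap M B) = ip (cg M (st B)) (st A) := by
  unfold kap
  rw [wd_comm, wd_eq_ip (skew_cg hM (skew_st hB)) hA]

end GStAux

open GStAux

theorem det_pos {M : A4} (hM : PD M) : 0 < Matrix.det (Matrix.of M) := (posDef hM).det_pos

theorem skew_kap {M T : A4} (hM : PD M) (hT : Skew T) : Skew (kap M T) :=
  skew_cg hM (skew_st hT)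

theorem wd_kap {M A B : A4} (hM : PD M) (hA : Skew A) (hB : Skew B) :
    wd (kap M A) (kap M B) = Matrix.det (Matrix.of M) * wd A B := by
  unfold kap
  rw [cg_tc hM, cg_tc hM, wd_tc M (skew_st hA) (skew_st hB), wd_st_st hA hB]

theorem kap_kap {M T : A4} (hM : PD M) (hT : Skew T) :
    kap M (kap M T) = Matrix.det (Matrix.of M) • T := by
  unfold kap
  rw [cg_ct hM (st (cg M (st T))), cg_tc hM (st T), st_tc M (skew_st hT), st_st hT]

theorem kap_symm {M A B : A4} (hM : PD M) (hA : Skew A) (hB : Skew B) :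
    wd A (kap M B) = wd B (kap M A) := by
  rw [wkap hM hA hB, wkap hM hB hA, ip_cg_symm hM]

theorem kap_pos {M X : A4} (hM : PD M) (hX : Skew X) (h0 : X ≠ 0) : 0 < wd X (kap M X) := by
  rw [wkap hM hX hX]
  exact ip_cg_pos hM (st_ne hX h0)

namespace GStAux

theorem vM_pos {M : A4} (hM : PD M) : 0 < vM M := Real.sqrt_pos.2 (det_pos hM)

theorem vM_sq {M : A4} (hM : PD M) : vM M ^ 2 = Matrix.det (Matrix.of M) :=
  Real.sq_sqrt (det_pos hM).le

theorem wTK {M T : A4} (hP : Pf T ≠ 0) : wd T (kap M T) = 2 * Pf T * fM M T := by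
  unfold fM
  field_simp

/-- the form `T - v⁻¹ * (kap M T)` -/
theorem wY {M T : A4} (hM : PD M) (hT : Skew T) (hP : 0 < Pf T) :
    Skew (T + (-(vM M)⁻¹) • kap M T) ∧
    wd (T + (-(vM M)⁻¹) • kap M T) (kap M (T + (-(vM M)⁻¹) • kap M T)) =
      4 * Pf T * (fM M T - vM M) := by
  have hv := vM_pos hM
  have hv2 := vM_sq hM
  have hK := skew_kap hM hT
  constructor
  · intro i j
    simp only [Pi.add_apply, Pi.smul_apply, smul_eq_mul]
    rw [hT i j, hK i j]
    ring
  · rw [kap_add, kap_smul, kap_kap hM hT]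
    simp only [wd_add, wd_smul, wd_add', wd_smul']
    rw [wd_comm (kap M T) T, wd_kap hM hT hT, wTK hP.ne', wd_self, ← hv2]
    field_simp
    ring

end GStAux

theorem fM_ge {M T : A4} (hM : PD M) (hT : Skew T) (hP : 0 < Pf T) : vM M ≤ fM M T := by
  obtain ⟨h1, h2⟩ := wY hM hT hP
  by_contra hc
  have h3 : fM M T - vM M < 0 := by linarith [not_le.1 hc]
  have h4 : 4 * Pf T * (fM M T - vM M) < 0 := mul_neg_of_pos_of_neg (by linarith) h3
  by_cases h0 : T + (-(vM M)⁻¹) • kap M T = 0
  · rw [h0] at h2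
    have h5 : wd (0 : A4) (kap M 0) = 0 := by
      simp [wd]
    rw [h5] at h2
    linarith
  · have h5 := kap_pos hM h1 h0
    rw [h2] at h5
    linarith

theorem fM_one {M T : A4} (hM : PD M) (hT : Skew T) (hP : 0 < Pf T) (h1 : fM M T = vM M) :
    kap M T = vM M • T := by
  obtain ⟨h2, h3⟩ := wY hM hT hP
  have hv := vM_pos hM
  by_cases h0 : T + (-(vM M)⁻¹) • kap M T = 0
  · funext i j
    have h4 := congrFun (congrFun h0 i) j
    simp only [Pi.add_apply, Pi.smul_apply, smul_eq_mul, Pi.zero_apply] at h4 ⊢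
    field_simp at h4
    linarith
  · have h5 := kap_pos hM h2 h0
    rw [h3, h1, sub_self, mul_zero] at h5
    exact absurd h5 (lt_irrefl _)

theorem tM_facts {M T : A4} (hM : PD M) (hT : Skew T) (hP : 0 < Pf T) :
    Skew (tM M T) ∧ wd T (tM M T) = 0 ∧
      wd (tM M T) (tM M T) = 2 * (Matrix.det (Matrix.of M) - fM M T ^ 2) / Pf T ∧
      wd (tM M T) (kap M (tM M T)) = 2 * fM M T * (fM M T ^ 2 - Matrix.det (Matrix.of M)) / Pf T := by
  have hK := skew_kap hM hT
  have hP' := hP.ne'
  have e : tM M T = (Pf T)⁻¹ • (kap M T + (-fM M T) • T) := by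
    unfold tM fM
    funext i j
    simp only [Pi.sub_apply, Pi.smul_apply, Pi.add_apply, smul_eq_mul]
    field_simp
    ring
  have w1 : wd T (kap M T) = 2 * Pf T * fM M T := wTK hP'
  have w2 : wd T T = 2 * Pf T := wd_self T
  have w3 : wd (kap M T) T = 2 * Pf T * fM M T := by rw [wd_comm, w1]
  have w4 : wd (kap M T) (kap M T) = Matrix.det (Matrix.of M) * (2 * Pf T) := by
    rw [wd_kap hM hT hT, w2]
  refine ⟨?_, ?_, ?_, ?_⟩
  · intro i j
    rw [e]
    simp only [Pi.smul_apply, Pi.add_apply, smul_eq_mul]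
    rw [hT i j, hK i j]
    ring
  · rw [e]
    simp only [wd_smul', wd_add', w1, w2]
    field_simp
    ring
  · rw [e]
    simp only [wd_smul', wd_add', wd_smul, wd_add, w1, w2, w3, w4]
    field_simp
    ring
  · rw [e, kap_smul, kap_add, kap_smul, kap_kap hM hT]
    simp only [wd_smul', wd_add', wd_smul, wd_add, w1, w2, w3, w4]
    field_simp
    ring

theorem hasDerivAt_fM {M T D : A4} (hM : PD M) (hT : Skew T) (hD : Skew D) (t : ℝ)
    (hP : Pf (T + t • D) ≠ 0) :
    HasDerivAt (fun t : ℝ => fM M (T + t • D)) (wd D (tM M (T + t • D))) t := by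
  have hsym : wd T (kap M D) = wd D (kap M T) := kap_symm hM hT hD
  have q1 : ∀ s : ℝ, wd (T + s • D) (kap M (T + s • D)) =
      wd T (kap M T) + s * (2 * wd D (kap M T)) + s ^ 2 * wd D (kap M D) := by
    intro s
    rw [kap_add, kap_smul]
    simp only [wd_smul', wd_add', wd_smul, wd_add]
    rw [hsym]
    ring
  have q2 : ∀ s : ℝ, Pf (T + s • D) = Pf T + s * wd D T + s ^ 2 * Pf D := by
    intro s
    simp only [Pf, wd, Pi.add_apply, Pi.smul_apply, smul_eq_mul]
    ring
  have d1 : HasDerivAt (fun s : ℝ => wd (T + s • D) (kap M (T + s • D)))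
      (2 * wd D (kap M (T + t • D))) t := by
    have h0 : HasDerivAt (fun s : ℝ => wd T (kap M T) + s * (2 * wd D (kap M T)) +
        s ^ 2 * wd D (kap M D))
        (0 + 1 * (2 * wd D (kap M T)) + (((2 : ℕ) : ℝ) * t ^ (2 - 1)) * wd D (kap M D)) t :=
      ((hasDerivAt_const t _).add ((hasDerivAt_id' t).mul_const _)).add
        ((hasDerivAt_pow 2 t).mul_const _)
    have h1 : (fun s : ℝ => wd (T + s • D) (kap M (T + s • D))) =
        fun s : ℝ => wd T (kap M T) + s * (2 * wd D (kap M T)) + s ^ 2 * wd D (kap M D) :=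
      funext q1
    rw [h1]
    convert h0 using 1
    rw [kap_add, kap_smul, wd_add', wd_smul']
    norm_num
    ring
  have d2 : HasDerivAt (fun s : ℝ => Pf (T + s • D)) (wd D (T + t • D)) t := by
    have h0 : HasDerivAt (fun s : ℝ => Pf T + s * wd D T + s ^ 2 * Pf D)
        (0 + 1 * wd D T + (((2 : ℕ) : ℝ) * t ^ (2 - 1)) * Pf D) t :=
      ((hasDerivAt_const t _).add ((hasDerivAt_id' t).mul_const _)).add
        ((hasDerivAt_pow 2 t).mul_const _)
    have h1 : (fun s : ℝ => Pf (T + s • D)) =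
        fun s : ℝ => Pf T + s * wd D T + s ^ 2 * Pf D := funext q2
    rw [h1]
    convert h0 using 1
    rw [wd_add', wd_smul', wd_self]
    norm_num
    ring
  have d3 := d1.div (d2.const_mul 2) (mul_ne_zero two_ne_zero hP)
  have h2 : (fun t : ℝ => fM M (T + t • D)) =
      fun s : ℝ => wd (T + s • D) (kap M (T + s • D)) / (2 * Pf (T + s • D)) := rfl
  have e : wd D (tM M (T + t • D)) = (2 * wd D (kap M (T + t • D)) * (2 * Pf (T + t • D)) -
      wd (T + t • D) (kap M (T + t • D)) * (2 * wd D (T + t • D))) / (2 * Pf (T + t • D)) ^ 2 := by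
    have e1 : tM M (T + t • D) = (Pf (T + t • D))⁻¹ • kap M (T + t • D) +
        (-(wd (T + t • D) (kap M (T + t • D)) / (2 * Pf (T + t • D) ^ 2))) • (T + t • D) := by
      unfold tM
      rw [neg_smul, sub_eq_add_neg]
    rw [e1, wd_add', wd_smul', wd_smul']
    field_simp
    ring
  rw [h2, e]
  exact d3

theorem fM_eq {M T : A4} (hM : PD M) (hT : Skew T) (hP : Pf T ≠ 0) :
    fM M T = disM M T * vM M := by
  have hK := skew_kap hM hT
  have hdet := (det_pos hM).ne'
  have hv := vM_pos hM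
  have hv2 := vM_sq hM
  have hu : IsUnit (Matrix.of M).det := isUnit_iff_ne_zero.2 hdet
  -- the star of `kap M T` in terms of the inverse matrix
  have h1 : Matrix.of M * Matrix.of (st (kap M T)) * Matrix.of M =
      Matrix.det (Matrix.of M) • Matrix.of T := by
    have h2 := kap_kap hM hT
    ext i j
    have h3 := congrFun (congrFun h2 i) j
    simp only [Pi.smul_apply, smul_eq_mul] at h3
    rw [Matrix.smul_apply, smul_eq_mul, Matrix.of_apply, ← h3, Matrix.mul_apply]
    show _ = ∑ k, ∑ l, M i k * st (kap M T) k l * M l j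
    rw [Finset.sum_comm]
    refine Finset.sum_congr rfl fun l _ => ?_
    rw [Matrix.mul_apply, Finset.sum_mul]
    rfl
  have h4 : Matrix.of (st (kap M T)) = Matrix.det (Matrix.of M) •
      ((Matrix.of M)⁻¹ * Matrix.of T * (Matrix.of M)⁻¹) := by
    have h5 : (Matrix.of M)⁻¹ * (Matrix.of M * Matrix.of (st (kap M T)) * Matrix.of M) *
        (Matrix.of M)⁻¹ = Matrix.of (st (kap M T)) := by
      rw [Matrix.mul_assoc, Matrix.mul_assoc (Matrix.of M), Matrix.mul_assoc (Matrix.of M),
        Matrix.mul_assoc (Matrix.of (st (kap M T))), Matrix.mul_nonsing_inv _ hu, Matrix.mul_one,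
        ← Matrix.mul_assoc, Matrix.nonsing_inv_mul _ hu, Matrix.one_mul]
    rw [← h5, h1]
    simp only [Matrix.mul_smul, Matrix.smul_mul]
  have h6 : wd T (kap M T) = Matrix.det (Matrix.of M) * nrmM M T := by
    rw [wd_eq_ip hT hK]
    have h7 : ip T (st (kap M T)) =
        -(Matrix.of T * Matrix.of (st (kap M T))).trace / 2 := by
      unfold ip
      congr 1
      rw [Matrix.trace, ← Finset.sum_neg_distrib]
      refine Finset.sum_congr rfl fun i _ => ?_
      rw [Matrix.diag_apply, Matrix.mul_apply, ← Finset.sum_neg_distrib]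
      refine Finset.sum_congr rfl fun j _ => ?_
      rw [Matrix.of_apply, Matrix.of_apply, skew_st hK j i]
      ring
    rw [h7, h4, Matrix.mul_smul, Matrix.trace_smul, smul_eq_mul]
    unfold nrmM
    have h8 : (Matrix.of T * ((Matrix.of M)⁻¹ * Matrix.of T * (Matrix.of M)⁻¹)).trace =
        ((Matrix.of M)⁻¹ * Matrix.of T * (Matrix.of M)⁻¹ * Matrix.of T).trace := by
      rw [Matrix.trace_mul_comm]
    rw [h8]
    ring
  unfold fM disM
  rw [h6, ← hv2]
  field_simp

/-- for the standard inner product -/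
theorem fM_id {T : A4} (hT : Skew T) (hP : Pf T ≠ 0) : fM (fun i j => if i = j then 1 else 0) T = sg T := by
  have h1 : kap (fun i j => if i = j then 1 else 0) T = st T := by
    funext i j
    unfold kap cg
    simp
  unfold fM sg
  rw [h1, wd_st hT hT, nrm2_ip]
  field_simp
  ring

end Pool.Agent.Lib.DEn
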