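import Pool.Agent.Lib.DEn.GCo
import Pool.Agent.Lib.DEn.StarU
import Pool.Agent.Lib.DEn.IpU
import Pool.Agent.Lib.DEn.GSt

set_option autoImplicit false
set_option maxSynthPendingDepth 3

/-!
# The gradient form of the energy for a metric  (0.7 h)

`τ = dB α`, `σ` its star (`star_up`), `κ` from `congr_up`, so `cF κ g = kap (cF μ g) T`; `κ'` the star of `κ`; functions `p` for `(τ, σ)` (`p (g 0) = ip T (st T) = 2 Pf T > 0`), `q` for `(τ, κ')` (`q (g 0) = ip T (st K) = wd T K`, `wd_eq_ip`). `Θ z = (2 / p z) • κ z - (2 q z / p z ^ 2) • τ z`: `1 / Pf T = 2 / p`, `wd T K / (2 Pf T ^ 2) = q / (2 (p / 2)^2) = 2 q / p^2`.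
`p > 0` off `0` since every `z ≠ 0` is `c • g 0` with `g ∈ U3` (`exists_col`); compare `ThU`.
-/

open MeasureTheory Set Metric Filter
open scoped ContDiff Topology

namespace Pool.Agent.Lib.DEn

open Pool.Agent.P28b04d
open Pool.Agent.Lib.Psd (W hp ON3 fr cmp st asd sd nrm2 Pf Skew Conn Basic dd a0 c0 Mat form fs Tan tv cmpM NondegM pb)

namespace GThAux

theorem sphere {z : W} (hz : z ≠ 0) : ∃ (c : ℂ) (g : X3), c ≠ 0 ∧ g ∈ U3 ∧ z = c • g 0 := by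
  have h0 : 0 < nsq z := nsq_pos hz
  have hs : 0 < Real.sqrt (nsq z) := Real.sqrt_pos.2 h0
  have hc : ((Real.sqrt (nsq z) : ℝ) : ℂ) ≠ 0 := Complex.ofReal_ne_zero.2 hs.ne'
  have h1 : nsq (((Real.sqrt (nsq z) : ℝ) : ℂ)⁻¹ • z) = 1 := by
    have h2 : nsq (((Real.sqrt (nsq z) : ℝ) : ℂ)⁻¹ • z) =
        (Real.sqrt (nsq z))⁻¹ ^ 2 * nsq z := by
      unfold nsq
      rw [Finset.mul_sum]
      refine Finset.sum_congr rfl fun k _ => ?_
      rw [Pi.smul_apply, smul_eq_mul, map_mul, map_inv₀, Complex.normSq_ofReal]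
      ring
    rw [h2, inv_pow, Real.sq_sqrt h0.le, inv_mul_cancel₀ h0.ne']
  obtain ⟨g, hg, hg0⟩ := exists_col h1
  exact ⟨_, g, hc, hg, by rw [hg0, smul_inv_smul₀ hc]⟩

end GThAux

theorem theta_M {α : W → W →L[ℝ] ℝ} (hα : Conn α) (hP : ∀ g ∈ U3, 0 < Pf (cF (dB α) g)) {μ : W → BW}
    (hμ : HS μ) : ∃ Θ : W → BW, HF Θ ∧ ∀ g ∈ U3, cF Θ g = tM (cF μ g) (cF (dB α) g) := by
  have hτ := dB_hfc hα
  obtain ⟨σ, hσ, hσ'⟩ := star_up hτ
  obtain ⟨κ, hκ, hκ'⟩ := congr_up hσ hμ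
  obtain ⟨η, hη, hη'⟩ := star_up hκ
  obtain ⟨p, hp1, hp2, hp3⟩ := ip_up hτ hσ
  obtain ⟨q, hq1, hq2, hq3⟩ := ip_up hτ hη
  have hkap : ∀ g ∈ U3, cF κ g = kap (cF μ g) (cF (dB α) g) := by
    intro g hg
    rw [hκ' g hg, hσ' g hg]
    rfl
  have hpP : ∀ g ∈ U3, p (g 0) = 2 * Pf (cF (dB α) g) := by
    intro g hg
    rw [hp3 g hg, hσ' g hg, ← wd_eq_ip (cF_skew hτ hg) (cF_skew hτ hg), wd_self]
  have hqP : ∀ g ∈ U3, q (g 0) = wd (cF (dB α) g) (kap (cF μ g) (cF (dB α) g)) := by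
    intro g hg
    rw [hq3 g hg, hη' g hg, ← wd_eq_ip (cF_skew hτ hg) (cF_skew hκ hg), hkap g hg]
  have hpos : ∀ z : W, z ≠ 0 → 0 < p z := by
    intro z hz
    obtain ⟨c, g, hc, hg, rfl⟩ := GThAux.sphere hz
    rw [hp2 c hc _ (col_ne hg 0), hpP g hg]
    have := hP g hg
    linarith
  have hne : ∀ z ∈ ({0}ᶜ : Set W), p z ≠ 0 := fun z hz => (hpos z hz).ne'
  have hne2 : ∀ z ∈ ({0}ᶜ : Set W), p z ^ 2 ≠ 0 := fun z hz => pow_ne_zero 2 (hne z hz)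
  have h1 : HF (fun z => (2 * q z / p z ^ 2) • dB α z) :=
    hf_smul ((contDiffOn_const.mul hq1).div (hp1.pow 2) hne2)
      (fun c hc z hz => by rw [hq2 c hc z hz, hp2 c hc z hz]) hτ
  have h2 : HF (fun z => (2 / p z) • κ z) :=
    hf_smul (contDiffOn_const.div hp1 hne) (fun c hc z hz => by rw [hp2 c hc z hz]) hκ
  have h3 : HF (fun z => (2 / p z) • κ z - (2 * q z / p z ^ 2) • dB α z) := hf_sub h2 h1
  refine ⟨_, h3, fun g hg => ?_⟩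
  have hPg := hP g hg
  have e1 : ∀ i j, cF (fun z => (2 / p z) • κ z - (2 * q z / p z ^ 2) • dB α z) g i j =
      2 / p (g 0) * cF κ g i j - 2 * q (g 0) / p (g 0) ^ 2 * cF (dB α) g i j := fun i j => rfl
  funext i j
  rw [e1, hkap g hg, hpP g hg, hqP g hg]
  have e2 : tM (cF μ g) (cF (dB α) g) i j = (Pf (cF (dB α) g))⁻¹ *
      kap (cF μ g) (cF (dB α) g) i j - (wd (cF (dB α) g) (kap (cF μ g) (cF (dB α) g)) /
        (2 * Pf (cF (dB α) g) ^ 2)) * cF (dB α) g i j := rfl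
  rw [e2]
  field_simp
  try ring

end Pool.Agent.Lib.DEn
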