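import Pool.Agent.Lib.DEn.CoreN
import Pool.Agent.Lib.DEn.GTh
import Pool.Agent.Lib.DEn.Stokes

set_option autoImplicit false
set_option maxSynthPendingDepth 3

/-!
# The gradient inequality for every metric  (1.5 h)

Constants: `U3` is compact and `M = cF μ g` is continuous: `0 < v₀ ≤ vM M ≤ v₁` on `U3`, and `ip X X ≤ c₁ * wd X (kap M X)` for all skew `X` and `g ∈ U3` (`kap_pos`, compactness of `U3 × {X skew, ip X X = 1}`, homogeneity). For `α`: `T = cF (dB α) g`, `F = fM M T`, `v = vM M`, `P = Pf T`, `Θ` of `theta_M`.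
`N := - ∫ wd Θ Θ = ∫ 2 (F² - v²) / P` (`tM_facts`, `v² = det M`), `∫ ip Θ Θ ≤ c₁ ∫ 2 F (F² - v²) / P ≤ c₁ S v₁ N` (`F ≤ S v`). `core`: `N ≤ 2 G √(c₁ S v₁ N)`, so `N ≤ 4 c₁ v₁ S G²`. `∫ P = 4` (`int_pf`); `F² - v² ≥ 2 v (F - v)`; `∫ (F - v) = ∫ √(v (F - v) / P) √((F - v) P / v) ≤ √(N/4) √(4 (S - 1))`
(`(F - v)/v ≤ S - 1`), so `∫ (F - v) ≤ 2 √(c₁ v₁) √(S (S-1)) G`. If `P ≤ U`: `∫ (F - v) ≤ (U / v₀) ∫ v (F - v)/P ≤ (U / v₀) N / 4 ≤ (c₁ v₁ / v₀) S U G²`. (`S ≥ 1` by `fM_ge`; compare module `Grad`.)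
`crit_M`: `F / v` is bounded on `U3` by some `S`; `G = 0`: `∫ (F - v) = 0`, so `F = v` on `U3` (`Pos.eq_zero_of_int`; continuity), `fM_one`. `uniq_M`: `δ = α - α'` is basic, `D = cF (dB δ) g = T - T'`, `kap M D = v • D` (`kap` is linear), `wd D D = wd D (kap M D) / v ≥ 0` and `∫ wd D D = 0` (`stokes0`, `dB_cl`), so `wd D (kap M D) = 0` on `U3`, `D = 0` (`kap_pos`).
-/

open MeasureTheory Set Metric Filter
open scoped ContDiff Topology

namespace Pool.Agent.Lib.DEn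

open Pool.Agent.P28b04d
open Pool.Agent.Lib.Psd (W hp ON3 fr cmp st asd sd nrm2 Pf Skew Conn Basic dd a0 c0 Mat form fs Tan tv cmpM NondegM pb)

namespace GGrAux

variable {Y : Type} [TopologicalSpace Y] {s : Set Y}

theorem ct_st {T : Y → A4} (h : ∀ i j, ContinuousOn (fun y => T y i j) s) :
    ∀ i j, ContinuousOn (fun y => st (T y) i j) s := by
  intro i j
  fin_cases i <;> fin_cases j
  · exact continuousOn_const (c := (0 : ℝ))
  · exact h 2 3
  · exact h 3 1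
  · exact h 1 2
  · exact h 3 2
  · exact continuousOn_const (c := (0 : ℝ))
  · exact h 0 3
  · exact h 2 0
  · exact h 1 3
  · exact h 3 0
  · exact continuousOn_const (c := (0 : ℝ))
  · exact h 0 1
  · exact h 2 1
  · exact h 0 2
  · exact h 1 0
  · exact continuousOn_const (c := (0 : ℝ))

theorem ct_kap {M T : Y → A4} (hM : ∀ i j, ContinuousOn (fun y => M y i j) s)
    (h : ∀ i j, ContinuousOn (fun y => T y i j) s) :
    ∀ i j, ContinuousOn (fun y => kap (M y) (T y) i j) s := by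
  intro i j
  show ContinuousOn (fun y => ∑ k, ∑ l, M y i k * st (T y) k l * M y l j) s
  exact continuousOn_finset_sum _ fun k _ => continuousOn_finset_sum _ fun l _ =>
    ((hM i k).mul (ct_st h k l)).mul (hM l j)

theorem ct_wd {A B : Y → A4} (hA : ∀ i j, ContinuousOn (fun y => A y i j) s)
    (hB : ∀ i j, ContinuousOn (fun y => B y i j) s) :
    ContinuousOn (fun y => wd (A y) (B y)) s := by
  unfold wd
  exact (((((((hA 0 1).mul (hB 2 3)).add ((hA 2 3).mul (hB 0 1))).sub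
    ((hA 0 2).mul (hB 1 3))).sub ((hA 1 3).mul (hB 0 2))).add ((hA 0 3).mul (hB 1 2))).add
    ((hA 1 2).mul (hB 0 3)))

theorem ct_pf {A : Y → A4} (hA : ∀ i j, ContinuousOn (fun y => A y i j) s) :
    ContinuousOn (fun y => Pf (A y)) s := by
  unfold Pf
  exact (((hA 0 1).mul (hA 2 3)).sub ((hA 0 2).mul (hA 1 3))).add ((hA 0 3).mul (hA 1 2))

theorem ct_ip {A B : Y → A4} (hA : ∀ i j, ContinuousOn (fun y => A y i j) s)
    (hB : ∀ i j, ContinuousOn (fun y => B y i j) s) :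
    ContinuousOn (fun y => ip (A y) (B y)) s := by
  unfold ip
  exact (continuousOn_finset_sum _ fun k _ => continuousOn_finset_sum _ fun l _ =>
    (hA k l).mul (hB k l)).div_const 2

theorem ct_vM {M : Y → A4} (hM : ∀ i j, ContinuousOn (fun y => M y i j) s) :
    ContinuousOn (fun y => vM (M y)) s := by
  unfold vM
  refine Real.continuous_sqrt.comp_continuousOn ?_
  simp only [Matrix.det_apply]
  exact continuousOn_finset_sum _ fun σ _ =>
    (continuousOn_finset_prod _ fun i _ => hM (σ i) i).const_smul _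

theorem kap_smul (M : A4) (c : ℝ) (X : A4) : kap M (c • X) = c • kap M X := by
  funext i j
  show ∑ k, ∑ l, M i k * st (c • X) k l * M l j = c * ∑ k, ∑ l, M i k * st X k l * M l j
  rw [st_smul, Finset.mul_sum]
  refine Finset.sum_congr rfl fun k _ => ?_
  rw [Finset.mul_sum]
  refine Finset.sum_congr rfl fun l _ => ?_
  simp only [Pi.smul_apply, smul_eq_mul]
  ring

theorem kap_sub (M : A4) (X X' : A4) : kap M (X - X') = kap M X - kap M X' := by
  have h1 : X - X' = X + (-1 : ℝ) • X' := by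
    rw [neg_one_smul, sub_eq_add_neg]
  funext i j
  show ∑ k, ∑ l, M i k * st (X - X') k l * M l j =
    ∑ k, ∑ l, M i k * st X k l * M l j - ∑ k, ∑ l, M i k * st X' k l * M l j
  rw [h1, st_add, st_smul, ← Finset.sum_sub_distrib]
  refine Finset.sum_congr rfl fun k _ => ?_
  rw [← Finset.sum_sub_distrib]
  refine Finset.sum_congr rfl fun l _ => ?_
  simp only [Pi.add_apply, Pi.smul_apply, smul_eq_mul]
  ring

theorem ct_mu {μ : W → BW} (hμ : HS μ) : CtU (cF μ) := ctU_cF hμ.smooth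

theorem vM_pos {M : A4} (hM : PD M) : 0 < vM M := Real.sqrt_pos.2 (det_pos hM)

theorem vM_sq {M : A4} (hM : PD M) : vM M ^ 2 = Matrix.det (Matrix.of M) :=
  Real.sq_sqrt (det_pos hM).le

theorem vM_bounds {μ : W → BW} (hμ : HS μ) :
    ∃ v₀ v₁ : ℝ, 0 < v₀ ∧ 0 < v₁ ∧ ∀ g ∈ U3, v₀ ≤ vM (cF μ g) ∧ vM (cF μ g) ≤ v₁ := by
  have hc : ContinuousOn (fun g => vM (cF μ g)) U3 := ct_vM (ct_mu hμ)
  obtain ⟨a, ha, hmin⟩ := isCompact_U3.exists_isMinOn ⟨id3, id3_mem⟩ hc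
  obtain ⟨b, hb, hmax⟩ := isCompact_U3.exists_isMaxOn ⟨id3, id3_mem⟩ hc
  exact ⟨vM (cF μ a), vM (cF μ b), vM_pos (hμ.pos a ha), vM_pos (hμ.pos b hb),
    fun g hg => ⟨hmin hg, hmax hg⟩⟩

theorem compact_sphere : IsCompact {X : A4 | Skew X ∧ ip X X = 1} := by
  have hent : ∀ i j, Continuous fun X : A4 => X i j := fun i j => by fun_prop
  refine Metric.isCompact_of_isClosed_isBounded ?_ ?_
  · have h1 : IsClosed {X : A4 | Skew X} := by
      have e : {X : A4 | Skew X} = ⋂ i, ⋂ j, {X : A4 | X i j = -X j i} := by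
        ext X
        simp only [mem_setOf_eq, mem_iInter]
        rfl
      rw [e]
      exact isClosed_iInter fun i => isClosed_iInter fun j => isClosed_eq (hent i j) (hent j i).neg
    have h2 : IsClosed {X : A4 | ip X X = 1} := by
      refine isClosed_eq ?_ continuous_const
      unfold ip
      exact (continuous_finset_sum _ fun i _ => continuous_finset_sum _ fun j _ =>
        (hent i j).mul (hent i j)).div_const 2
    exact h1.inter h2
  · refine (Metric.isBounded_closedBall (x := (0 : A4)) (r := 2)).subset ?_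
    rintro X ⟨_, hX⟩
    rw [mem_closedBall, dist_zero_right]
    refine (pi_norm_le_iff_of_nonneg (by norm_num)).2 fun i => ?_
    refine (pi_norm_le_iff_of_nonneg (by norm_num)).2 fun j => ?_
    have h1 : X i j * X i j ≤ ∑ j, X i j * X i j :=
      Finset.single_le_sum (f := fun j => X i j * X i j) (fun _ _ => mul_self_nonneg _)
        (Finset.mem_univ j)
    have h2 : ∑ j, X i j * X i j ≤ ∑ i, ∑ j, X i j * X i j :=
      Finset.single_le_sum (f := fun i => ∑ j, X i j * X i j)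
        (fun _ _ => Finset.sum_nonneg fun _ _ => mul_self_nonneg _) (Finset.mem_univ i)
    unfold ip at hX
    have h3 : X i j * X i j ≤ 2 := by linarith
    rw [Real.norm_eq_abs]
    refine abs_le_of_sq_le_sq ?_ (by norm_num)
    nlinarith

theorem kap_bound {μ : W → BW} (hμ : HS μ) :
    ∃ c : ℝ, 0 < c ∧ ∀ g ∈ U3, ∀ X : A4, Skew X → ip X X ≤ c * wd X (kap (cF μ g) X) := by
  set K : Set (X3 × A4) := U3 ×ˢ {X : A4 | Skew X ∧ ip X X = 1} with hKdef
  have hK : IsCompact K := isCompact_U3.prod compact_sphere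
  have hX : ∀ i j, ContinuousOn (fun p : X3 × A4 => p.2 i j) K := fun i j => by fun_prop
  have hM : ∀ i j, ContinuousOn (fun p : X3 × A4 => cF μ p.1 i j) K := fun i j =>
    (ct_mu hμ i j).comp continuousOn_fst fun p hp => hp.1
  have hF : ContinuousOn (fun p : X3 × A4 => wd p.2 (kap (cF μ p.1) p.2)) K :=
    ct_wd hX (ct_kap hM hX)
  have hpos : ∀ p ∈ K, 0 < wd p.2 (kap (cF μ p.1) p.2) := by
    intro p hp
    refine kap_pos (hμ.pos p.1 hp.1) hp.2.1 fun h0 => ?_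
    have h1 : ip p.2 p.2 = 1 := hp.2.2
    rw [h0] at h1
    simp [ip] at h1
  have hm : ∃ m : ℝ, 0 < m ∧ ∀ p ∈ K, m ≤ wd p.2 (kap (cF μ p.1) p.2) := by
    rcases K.eq_empty_or_nonempty with h0 | h0
    · exact ⟨1, one_pos, fun p hp => by rw [h0] at hp; exact hp.elim⟩
    · obtain ⟨a, ha, hmin⟩ := hK.exists_isMinOn h0 hF
      exact ⟨_, hpos a ha, fun p hp => hmin hp⟩
  obtain ⟨m, hm0, hm1⟩ := hm
  refine ⟨m⁻¹, inv_pos.2 hm0, fun g hg X hXs => ?_⟩
  by_cases h0 : ip X X = 0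
  · have hX0 : X = 0 := ip_zero h0
    rw [h0, hX0]
    have : wd (0 : A4) (kap (cF μ g) 0) = 0 := by simp [wd]
    rw [this, mul_zero]
  · have hpos' : 0 < ip X X := lt_of_le_of_ne (ip_nonneg X) (Ne.symm h0)
    set r : ℝ := Real.sqrt (ip X X) with hr
    have hr0 : 0 < r := Real.sqrt_pos.2 hpos'
    have hr2 : r ^ 2 = ip X X := Real.sq_sqrt hpos'.le
    have h1 : ip (r⁻¹ • X) (r⁻¹ • X) = 1 := by
      rw [ip_smul, ip_comm, ip_smul, ← hr2]
      field_simp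
    have h2 : Skew (r⁻¹ • X) := by
      intro i j
      simp only [Pi.smul_apply, smul_eq_mul]
      rw [hXs i j]
      ring
    have h3 := hm1 (g, r⁻¹ • X) ⟨hg, h2, h1⟩
    have h4 : wd (r⁻¹ • X) (kap (cF μ g) (r⁻¹ • X)) = (r ^ 2)⁻¹ * wd X (kap (cF μ g) X) := by
      rw [kap_smul, wd_smul, wd_comm, wd_smul, wd_comm]
      field_simp
    have h5 : m ≤ (r ^ 2)⁻¹ * wd X (kap (cF μ g) X) := by
      rw [← h4]
      exact h3
    rw [hr2] at h5
    have h6 : m * ip X X ≤ wd X (kap (cF μ g) X) := by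
      calc m * ip X X ≤ ((ip X X)⁻¹ * wd X (kap (cF μ g) X)) * ip X X :=
            mul_le_mul_of_nonneg_right h5 hpos'.le
        _ = wd X (kap (cF μ g) X) := by field_simp
    calc ip X X = m⁻¹ * (m * ip X X) := by field_simp
      _ ≤ m⁻¹ * wd X (kap (cF μ g) X) := mul_le_mul_of_nonneg_left h6 (inv_pos.2 hm0).le

/-- if `0 ≤ N ≤ 2 G √(A N)` then `N ≤ 4 G² A` -/
theorem quad {N G A : ℝ} (hN : 0 ≤ N) (hA : 0 ≤ A) (hG : 0 ≤ G) (h : N ≤ 2 * G * Real.sqrt (A * N)) :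
    N ≤ 4 * G ^ 2 * A := by
  rcases hN.eq_or_lt with h0 | h0
  · rw [← h0]
    positivity
  · have h1 : N ^ 2 ≤ (2 * G * Real.sqrt (A * N)) ^ 2 := pow_le_pow_left₀ hN h 2
    rw [mul_pow, Real.sq_sqrt (mul_nonneg hA hN)] at h1
    have h2 : N * N ≤ (4 * G ^ 2 * A) * N := by nlinarith
    exact le_of_mul_le_mul_right h2 h0

/-- Cauchy-Schwarz from the discriminant -/
theorem disc {A B I : ℝ} (h : ∀ a : ℝ, 0 ≤ a * a * A - 2 * a * I + B) : I ^ 2 ≤ A * B := by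
  have h1 : discrim A (-2 * I) B ≤ 0 := discrim_le_zero fun x => by
    have := h x
    nlinarith
  unfold discrim at h1
  nlinarith

theorem cF_dB_sub {α β : W → W →L[ℝ] ℝ} (h : ContDiffOn ℝ ∞ α {0}ᶜ) (h' : ContDiffOn ℝ ∞ β {0}ᶜ)
    {g : X3} (hg : g ∈ U3) : cF (dB fun z => α z - β z) g = cF (dB α) g - cF (dB β) g := by
  have e : fderiv ℝ (fun z => α z - β z) (g 0) = fderiv ℝ α (g 0) - fderiv ℝ β (g 0) :=
    ((DvEAux.d_at h (col_ne hg 0)).sub (DvEAux.d_at h' (col_ne hg 0))).fderiv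
  funext i j
  simp only [cF, dB, e, Pi.sub_apply, sub_apply, ContinuousLinearMap.flip_apply]
  ring

end GGrAux

open GGrAux

theorem grad_M {ν : Measure X3} (hν : Ha ν) {μ : W → BW} (hμ : HS μ) :
    ∃ C : ℝ, 0 < C ∧ ∀ α : W → W →L[ℝ] ℝ, Conn α → (∀ g ∈ U3, 0 < Pf (cF (dB α) g)) →
      ∀ S G : ℝ, 0 ≤ G → (∀ g ∈ U3, fM (cF μ g) (cF (dB α) g) ≤ S * vM (cF μ g)) →
      (∀ γ : W → W →L[ℝ] ℝ, Basic γ → |∫ g, wd (cF (dB γ) g) (tM (cF μ g) (cF (dB α) g)) ∂ν| ≤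
        G * Real.sqrt (∫ g, ip (cF (dB γ) g) (cF (dB γ) g) ∂ν)) →
      ∫ g, (fM (cF μ g) (cF (dB α) g) - vM (cF μ g)) ∂ν ≤ C * Real.sqrt (S * (S - 1)) * G ∧
        ∀ U : ℝ, (∀ g ∈ U3, Pf (cF (dB α) g) ≤ U) →
          ∫ g, (fM (cF μ g) (cF (dB α) g) - vM (cF μ g)) ∂ν ≤ C * S * U * G ^ 2 := by
  obtain ⟨v₀, v₁, hv₀, hv₁, hv⟩ := vM_bounds hμ
  obtain ⟨c, hc, hkap⟩ := kap_bound hμ
  have hcv : 0 < c * v₁ := mul_pos hc hv₁
  have hC1 : 0 < Real.sqrt (c * v₁) := Real.sqrt_pos.2 hcv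
  refine ⟨2 * Real.sqrt (c * v₁) + c * v₁ / v₀, by positivity, ?_⟩
  intro α hα hP S G hG hS hb
  obtain ⟨Θ, hΘ, hΘe⟩ := theta_M hα hP hμ
  have hτ := dB_hfc hα
  have hTc : CtU (cF (dB α)) := ctU_cF hτ.smooth
  have hMc : CtU (cF μ) := ct_mu hμ
  have hΘc : CtU (cF Θ) := ctU_cF hΘ.smooth
  have hPc : ContinuousOn (fun g => Pf (cF (dB α) g)) U3 := ct_pf hTc
  have hvc : ContinuousOn (fun g => vM (cF μ g)) U3 := ct_vM hMc
  have hFc : ContinuousOn (fun g => fM (cF μ g) (cF (dB α) g)) U3 := by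
    unfold fM
    exact (ct_wd hTc (ct_kap hMc hTc)).div (continuousOn_const.mul hPc) fun g hg =>
      (mul_pos two_pos (hP g hg)).ne'
  have hnc : ContinuousOn (fun g => -wd (cF Θ g) (cF Θ g)) U3 := (ct_wd hΘc hΘc).neg
  have hic : ContinuousOn (fun g => ip (cF Θ g) (cF Θ g)) U3 := ct_ip hΘc hΘc
  have hxc : ContinuousOn (fun g => fM (cF μ g) (cF (dB α) g) - vM (cF μ g)) U3 := hFc.sub hvc
  have h1c : ContinuousOn (fun g => vM (cF μ g) *
      (fM (cF μ g) (cF (dB α) g) - vM (cF μ g)) / Pf (cF (dB α) g)) U3 :=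
    (hvc.mul hxc).div hPc fun g hg => (hP g hg).ne'
  have h2c : ContinuousOn (fun g => (fM (cF μ g) (cF (dB α) g) - vM (cF μ g)) *
      Pf (cF (dB α) g) / vM (cF μ g)) U3 :=
    (hxc.mul hPc).div hvc fun g hg => (vM_pos (hμ.pos g hg)).ne'
  -- pointwise facts
  have hT : ∀ g ∈ U3, Skew (cF (dB α) g) := fun g hg => cF_skew hτ hg
  have hvF : ∀ g ∈ U3, vM (cF μ g) ≤ fM (cF μ g) (cF (dB α) g) := fun g hg =>
    fM_ge (hμ.pos g hg) (hT g hg) (hP g hg)
  have hS1 : 1 ≤ S := by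
    have h1 := (hvF id3 id3_mem).trans (hS id3 id3_mem)
    have h2 := vM_pos (hμ.pos id3 id3_mem)
    by_contra h3
    push Not at h3
    nlinarith
  have hn : ∀ g ∈ U3, -wd (cF Θ g) (cF Θ g) =
      2 * (fM (cF μ g) (cF (dB α) g) ^ 2 - vM (cF μ g) ^ 2) / Pf (cF (dB α) g) := by
    intro g hg
    rw [hΘe g hg, (tM_facts (hμ.pos g hg) (hT g hg) (hP g hg)).2.2.1, vM_sq (hμ.pos g hg)]
    ring
  have hn0 : ∀ g ∈ U3, 0 ≤ -wd (cF Θ g) (cF Θ g) := by
    intro g hg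
    rw [hn g hg]
    have h1 := hvF g hg
    have h2 := vM_pos (hμ.pos g hg)
    have h3 := hP g hg
    apply div_nonneg _ h3.le
    nlinarith
  have hip : ∀ g ∈ U3, ip (cF Θ g) (cF Θ g) ≤ (c * v₁ * S) * -wd (cF Θ g) (cF Θ g) := by
    intro g hg
    have hf := tM_facts (hμ.pos g hg) (hT g hg) (hP g hg)
    have h1 := hkap g hg (cF Θ g) (cF_skew hΘ hg)
    have h2 : wd (cF Θ g) (kap (cF μ g) (cF Θ g)) =
        fM (cF μ g) (cF (dB α) g) * -wd (cF Θ g) (cF Θ g) := by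
      rw [hn g hg, hΘe g hg, hf.2.2.2, vM_sq (hμ.pos g hg)]
      ring
    rw [h2] at h1
    have h3 : fM (cF μ g) (cF (dB α) g) ≤ S * v₁ :=
      (hS g hg).trans (mul_le_mul_of_nonneg_left (hv g hg).2 (by linarith))
    have h4 : fM (cF μ g) (cF (dB α) g) * -wd (cF Θ g) (cF Θ g) ≤
        (S * v₁) * -wd (cF Θ g) (cF Θ g) := mul_le_mul_of_nonneg_right h3 (hn0 g hg)
    calc ip (cF Θ g) (cF Θ g) ≤ c * (fM (cF μ g) (cF (dB α) g) * -wd (cF Θ g) (cF Θ g)) := h1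
      _ ≤ c * ((S * v₁) * -wd (cF Θ g) (cF Θ g)) := mul_le_mul_of_nonneg_left h4 hc.le
      _ = (c * v₁ * S) * -wd (cF Θ g) (cF Θ g) := by ring
  have h1n : ∀ g ∈ U3, vM (cF μ g) * (fM (cF μ g) (cF (dB α) g) - vM (cF μ g)) /
      Pf (cF (dB α) g) ≤ -wd (cF Θ g) (cF Θ g) / 4 := by
    intro g hg
    rw [hn g hg]
    have h1 := hvF g hg
    have h3 := hP g hg
    rw [div_div, div_le_div_iff₀ h3 (by positivity)]
    nlinarith [mul_nonneg h3.le (sq_nonneg (fM (cF μ g) (cF (dB α) g) - vM (cF μ g)))]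
  have h2n : ∀ g ∈ U3, (fM (cF μ g) (cF (dB α) g) - vM (cF μ g)) * Pf (cF (dB α) g) /
      vM (cF μ g) ≤ (S - 1) * Pf (cF (dB α) g) := by
    intro g hg
    have h1 := hS g hg
    have h2 := vM_pos (hμ.pos g hg)
    have h3 := hP g hg
    rw [div_le_iff₀ h2]
    nlinarith [mul_le_mul_of_nonneg_right h1 h3.le]
  -- integrals
  set N : ℝ := ∫ g, -wd (cF Θ g) (cF Θ g) ∂ν with hNdef
  set A : ℝ := ∫ g, vM (cF μ g) * (fM (cF μ g) (cF (dB α) g) - vM (cF μ g)) /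
      Pf (cF (dB α) g) ∂ν with hAdef
  set B : ℝ := ∫ g, (fM (cF μ g) (cF (dB α) g) - vM (cF μ g)) * Pf (cF (dB α) g) /
      vM (cF μ g) ∂ν with hBdef
  set I : ℝ := ∫ g, (fM (cF μ g) (cF (dB α) g) - vM (cF μ g)) ∂ν with hIdef
  have hN0 : 0 ≤ N := integral_nonneg_of_ae (ae_u hν hn0)
  have hcore : N ≤ 2 * G * Real.sqrt (∫ g, ip (cF Θ g) (cF Θ g) ∂ν) := by
    have h1 := core hν hΘ hG fun γ hγ => by
      have e : ∫ g, wd (cF (dB γ) g) (cF Θ g) ∂ν =
          ∫ g, wd (cF (dB γ) g) (tM (cF μ g) (cF (dB α) g)) ∂ν :=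
        integral_congr_u hν fun g hg => by rw [hΘe g hg]
      rw [e]
      exact hb γ hγ
    rw [hNdef, integral_neg]
    exact h1
  have hipI : ∫ g, ip (cF Θ g) (cF Θ g) ∂ν ≤ (c * v₁ * S) * N := by
    rw [hNdef, ← integral_const_mul]
    exact integral_mono_ae (integrable_u hν hic) ((integrable_u hν hnc).const_mul _)
      (ae_u hν hip)
  have hNle : N ≤ 4 * G ^ 2 * (c * v₁ * S) := by
    refine quad hN0 (by positivity) hG (hcore.trans ?_)
    exact mul_le_mul_of_nonneg_left (Real.sqrt_le_sqrt hipI) (by positivity)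
  have hAle : A ≤ N / 4 := by
    have h1 : ∫ g, -wd (cF Θ g) (cF Θ g) / 4 ∂ν = N / 4 := integral_div 4 _
    rw [← h1]
    exact integral_mono_ae (integrable_u hν h1c) ((integrable_u hν hnc).div_const 4)
      (ae_u hν h1n)
  have hBle : B ≤ (S - 1) * 4 := by
    rw [← int_pf hν hα, ← integral_const_mul]
    exact integral_mono_ae (integrable_u hν h2c) ((integrable_u hν hPc).const_mul _)
      (ae_u hν h2n)
  have hA0 : 0 ≤ A := integral_nonneg_of_ae (ae_u hν fun g hg => by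
    have h1 := hvF g hg
    have h2 := vM_pos (hμ.pos g hg)
    have h3 := hP g hg
    exact div_nonneg (mul_nonneg h2.le (by linarith)) h3.le)
  have hI : I ^ 2 ≤ A * B := by
    refine disc fun a => ?_
    have h1 : a * a * A - 2 * a * I + B = ∫ g, (a * a * (vM (cF μ g) *
        (fM (cF μ g) (cF (dB α) g) - vM (cF μ g)) / Pf (cF (dB α) g)) -
        2 * a * (fM (cF μ g) (cF (dB α) g) - vM (cF μ g)) +
        (fM (cF μ g) (cF (dB α) g) - vM (cF μ g)) * Pf (cF (dB α) g) / vM (cF μ g)) ∂ν := by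
      have i1 := (integrable_u hν h1c).const_mul (a * a)
      have i2 := (integrable_u hν hxc).const_mul (2 * a)
      have i3 : Integrable (fun g => a * a * (vM (cF μ g) *
        (fM (cF μ g) (cF (dB α) g) - vM (cF μ g)) / Pf (cF (dB α) g)) -
        2 * a * (fM (cF μ g) (cF (dB α) g) - vM (cF μ g))) ν := i1.sub i2
      rw [integral_add i3 (integrable_u hν h2c), integral_sub i1 i2,
        integral_const_mul, integral_const_mul]
    rw [h1]
    refine integral_nonneg_of_ae (ae_u hν fun g hg => ?_)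
    have h1 := hvF g hg
    have h2 := vM_pos (hμ.pos g hg)
    have h3 := hP g hg
    beta_reduce
    set x : ℝ := fM (cF μ g) (cF (dB α) g) - vM (cF μ g) with hx
    set v : ℝ := vM (cF μ g) with hvdef
    set p : ℝ := Pf (cF (dB α) g) with hpdef
    have hx0 : 0 ≤ x := by rw [hx]; linarith
    have e : a * a * (v * x / p) - 2 * a * x + x * p / v = x * (a * v - p) ^ 2 / (v * p) := by
      field_simp
      ring
    rw [e]
    positivity
  constructor
  · have hI2 : I ^ 2 ≤ (2 * Real.sqrt (c * v₁) * Real.sqrt (S * (S - 1)) * G) ^ 2 := by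
      have h1 : (2 * Real.sqrt (c * v₁) * Real.sqrt (S * (S - 1)) * G) ^ 2 =
          4 * (c * v₁) * (S * (S - 1)) * G ^ 2 := by
        rw [mul_pow, mul_pow, mul_pow, Real.sq_sqrt hcv.le,
          Real.sq_sqrt (mul_nonneg (by linarith) (by linarith))]
        ring
      rw [h1]
      calc I ^ 2 ≤ A * B := hI
        _ ≤ A * ((S - 1) * 4) := mul_le_mul_of_nonneg_left hBle hA0
        _ ≤ (N / 4) * ((S - 1) * 4) := mul_le_mul_of_nonneg_right hAle (by linarith)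
        _ = N * (S - 1) := by ring
        _ ≤ (4 * G ^ 2 * (c * v₁ * S)) * (S - 1) := mul_le_mul_of_nonneg_right hNle (by linarith)
        _ = 4 * (c * v₁) * (S * (S - 1)) * G ^ 2 := by ring
    have h2 : I ≤ 2 * Real.sqrt (c * v₁) * Real.sqrt (S * (S - 1)) * G :=
      le_trans (le_abs_self I) (abs_le_of_sq_le_sq hI2 (by positivity))
    have h3 : 0 ≤ c * v₁ / v₀ * (Real.sqrt (S * (S - 1)) * G) := by positivity
    calc I ≤ 2 * Real.sqrt (c * v₁) * Real.sqrt (S * (S - 1)) * G := h2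
      _ ≤ (2 * Real.sqrt (c * v₁) + c * v₁ / v₀) * Real.sqrt (S * (S - 1)) * G := by
        nlinarith [h3]
  · intro U hU
    have hU0 : 0 < U := lt_of_lt_of_le (hP id3 id3_mem) (hU id3 id3_mem)
    have h1 : I ≤ (U / v₀) * A := by
      rw [hAdef, ← integral_const_mul]
      refine integral_mono_ae (integrable_u hν hxc) ((integrable_u hν h1c).const_mul _)
        (ae_u hν fun g hg => ?_)
      have h1 := hvF g hg
      have h2 := vM_pos (hμ.pos g hg)
      have h3 := hP g hg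
      have h4 := hU g hg
      have h5 := (hv g hg).1
      beta_reduce
      set x : ℝ := fM (cF μ g) (cF (dB α) g) - vM (cF μ g) with hx
      set v : ℝ := vM (cF μ g) with hvdef
      set p : ℝ := Pf (cF (dB α) g) with hpdef
      have hx0 : 0 ≤ x := by rw [hx]; linarith
      have e : U / v₀ * (v * x / p) = x * ((U / p) * (v / v₀)) := by
        field_simp
      rw [e]
      have h6 : 1 ≤ U / p := (one_le_div h3).2 h4
      have h7 : 1 ≤ v / v₀ := (one_le_div hv₀).2 h5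
      have h8 : 1 ≤ (U / p) * (v / v₀) := by nlinarith
      nlinarith
    have h2 : I ≤ (c * v₁ / v₀) * S * U * G ^ 2 := by
      calc I ≤ (U / v₀) * A := h1
        _ ≤ (U / v₀) * (N / 4) := mul_le_mul_of_nonneg_left hAle (by positivity)
        _ ≤ (U / v₀) * ((4 * G ^ 2 * (c * v₁ * S)) / 4) :=
          mul_le_mul_of_nonneg_left (by linarith) (by positivity)
        _ = (c * v₁ / v₀) * S * U * G ^ 2 := by
          field_simp
    have h3 : 0 ≤ 2 * Real.sqrt (c * v₁) * (S * U * G ^ 2) := by positivity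
    calc I ≤ (c * v₁ / v₀) * S * U * G ^ 2 := h2
      _ ≤ (2 * Real.sqrt (c * v₁) + c * v₁ / v₀) * S * U * G ^ 2 := by nlinarith [h3]

theorem crit_M {ν : Measure X3} (hν : Ha ν) {μ : W → BW} (hμ : HS μ) {α : W → W →L[ℝ] ℝ} (hα : Conn α)
    (hP : ∀ g ∈ U3, 0 < Pf (cF (dB α) g))
    (hb : ∀ γ : W → W →L[ℝ] ℝ, Basic γ →
      ∫ g, wd (cF (dB γ) g) (tM (cF μ g) (cF (dB α) g)) ∂ν = 0) :
    ∀ g ∈ U3, kap (cF μ g) (cF (dB α) g) = vM (cF μ g) • cF (dB α) g := by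
  obtain ⟨C, hC, H⟩ := grad_M hν hμ
  have hτ := dB_hfc hα
  have hTc : CtU (cF (dB α)) := ctU_cF hτ.smooth
  have hMc : CtU (cF μ) := ct_mu hμ
  have hPc : ContinuousOn (fun g => Pf (cF (dB α) g)) U3 := ct_pf hTc
  have hvc : ContinuousOn (fun g => vM (cF μ g)) U3 := ct_vM hMc
  have hFc : ContinuousOn (fun g => fM (cF μ g) (cF (dB α) g)) U3 := by
    unfold fM
    exact (ct_wd hTc (ct_kap hMc hTc)).div (continuousOn_const.mul hPc) fun g hg =>
      (mul_pos two_pos (hP g hg)).ne'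
  have hqc : ContinuousOn (fun g => fM (cF μ g) (cF (dB α) g) / vM (cF μ g)) U3 :=
    hFc.div hvc fun g hg => (vM_pos (hμ.pos g hg)).ne'
  obtain ⟨b, _, hmax⟩ := isCompact_U3.exists_isMaxOn ⟨id3, id3_mem⟩ hqc
  set S : ℝ := fM (cF μ b) (cF (dB α) b) / vM (cF μ b) with hSdef
  have hS : ∀ g ∈ U3, fM (cF μ g) (cF (dB α) g) ≤ S * vM (cF μ g) := fun g hg =>
    (div_le_iff₀ (vM_pos (hμ.pos g hg))).1 (hmax hg)
  have h1 := (H α hα hP S 0 le_rfl hS fun γ hγ => by rw [hb γ hγ, abs_zero, zero_mul]).1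
  rw [mul_zero] at h1
  have hvF : ∀ g ∈ U3, 0 ≤ fM (cF μ g) (cF (dB α) g) - vM (cF μ g) := fun g hg =>
    sub_nonneg.2 (fM_ge (hμ.pos g hg) (cF_skew hτ hg) (hP g hg))
  have h2 : ∫ g, (fM (cF μ g) (cF (dB α) g) - vM (cF μ g)) ∂ν = 0 :=
    le_antisymm h1 (integral_nonneg_of_ae (ae_u hν hvF))
  have h3 := eq_zero_of_int hν (hFc.sub hvc) hvF h2
  intro g hg
  exact fM_one (hμ.pos g hg) (cF_skew hτ hg) (hP g hg) (sub_eq_zero.1 (h3 g hg))

theorem uniq_M {ν : Measure X3} (hν : Ha ν) {μ : W → BW} (hμ : HS μ) {α α' : W → W →L[ℝ] ℝ} (hα : Conn α)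
    (hα' : Conn α')
    (h : ∀ g ∈ U3, kap (cF μ g) (cF (dB α) g) = vM (cF μ g) • cF (dB α) g)
    (h' : ∀ g ∈ U3, kap (cF μ g) (cF (dB α') g) = vM (cF μ g) • cF (dB α') g) :
    ∀ g ∈ U3, cF (dB α) g = cF (dB α') g := by
  have hδ : Basic (fun z => α z - α' z) := hα.sub hα'
  set δ : W → W →L[ℝ] ℝ := fun z => α z - α' z with hδdef
  have hD : ∀ g ∈ U3, cF (dB δ) g = cF (dB α) g - cF (dB α') g := fun g hg =>
    cF_dB_sub hα.smooth hα'.smooth hg
  have hk : ∀ g ∈ U3, wd (cF (dB δ) g) (kap (cF μ g) (cF (dB δ) g)) =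
      vM (cF μ g) * wd (cF (dB δ) g) (cF (dB δ) g) := by
    intro g hg
    have e : kap (cF μ g) (cF (dB δ) g) = vM (cF μ g) • cF (dB δ) g := by
      rw [hD g hg, kap_sub, h g hg, h' g hg, smul_sub]
    rw [e, wd_comm, wd_smul]
  have hτ := dB_hf hδ
  have hDc : CtU (cF (dB δ)) := ctU_cF hτ.smooth
  have hpos : ∀ g ∈ U3, 0 ≤ wd (cF (dB δ) g) (cF (dB δ) g) := by
    intro g hg
    by_cases h0 : cF (dB δ) g = 0
    · rw [h0]
      simp [wd]
    · have h1 := kap_pos (hμ.pos g hg) (cF_skew hτ hg) h0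
      rw [hk g hg] at h1
      exact (pos_of_mul_pos_right h1 (vM_pos (hμ.pos g hg)).le).le
  have h0 := eq_zero_of_int hν (ct_wd hDc hDc) hpos (stokes0 hν hδ hτ (dB_cl hδ.smooth))
  intro g hg
  by_contra hne
  have h1 : cF (dB δ) g ≠ 0 := by
    rw [hD g hg]
    exact sub_ne_zero.2 hne
  have h2 := kap_pos (hμ.pos g hg) (cF_skew hτ hg) h1
  rw [hk g hg, h0 g hg, mul_zero] at h2
  exact lt_irrefl _ h2

end Pool.Agent.Lib.DEn
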