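import Pool.Agent.Lib.DEn.BDesc
import Pool.Agent.Lib.DEn.BMax
import Pool.Agent.Lib.DEn.GTh
import Pool.Agent.Lib.DEn.GGr
import Pool.Agent.Lib.DEn.Stokes
import Pool.Agent.Lib.DEn.Near

set_option autoImplicit false
set_option maxSynthPendingDepth 3

/-!
# Descent of the distortion for every metric  (1.2 h)

Constants (`GGrAux.vM_bounds`, `GGrAux.kap_bound`): `0 < v₀ ≤ vM M ≤ v₁` on `U3`, `ip X X ≤ c₁ * wd X (kap M X)` for skew `X`. Given `α`, `S > 1` and `c` with `C S c² < S² - 1`, `C = 8 c₁ v₁³ / v₀²` (plus `1`): choose `c₂ > c` and `σ < S` (`1 < σ`) with `C S c₂² < σ² - 1`. `Θ` of `theta_M`, `F = fM M T`, `v = vM M`, `K = {g ∈ U3 | σ v ≤ F}` closed. `descent` with `τ = dB α`, `A = c₁ S v₁`, `b = 2 (σ² - 1) v₀²`, and the rate `c₂ v₁`: `tM_facts`: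
`ip Θ Θ ≤ c₁ wd Θ (kap M Θ) = c₁ * 2 F (F² - v²) / P = - c₁ F wd Θ Θ ≤ - c₁ S v₁ wd Θ Θ`, `- wd Θ Θ * P = 2 (F² - v²) ≥ 2 (σ² - 1) v²` on `K`, `∫ P = 4`: `4 A (c₂ v₁)² 4 = 16 c₁ S v₁³ c₂² < 2 (σ² - 1) v₀²`. So `wd D Θ ≤ - c₂ v₁ ≤ - c₂ v` on `K`. `max_dec` with `φ g t = fM M (T + t D) / vM M`, `φ' g t = wd D (tM M (T + t D)) / vM M` (`hasDerivAt_fM`; continuity as in modules `GDer`, `EDer`), on `[0, ε]` where `Pf (T + t D) > 0` (`pf_near`).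
-/

open MeasureTheory Set Metric Filter
open scoped ContDiff Topology

namespace Pool.Agent.Lib.DEn

open Pool.Agent.P28b04d
open Pool.Agent.Lib.Psd (W hp ON3 fr cmp st asd sd nrm2 Pf Skew Conn Basic dd a0 c0 Mat form fs Tan tv cmpM NondegM pb)

open GGrAux

theorem desc_M {ν : Measure X3} (hν : Ha ν) {μ : W → BW} (hμ : HS μ) :
    ∃ C : ℝ, 0 < C ∧ ∀ α : W → W →L[ℝ] ℝ, Conn α → (∀ g ∈ U3, 0 < Pf (cF (dB α) g)) → ∀ S c : ℝ,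
      (∀ g ∈ U3, fM (cF μ g) (cF (dB α) g) ≤ S * vM (cF μ g)) → 1 < S → 0 ≤ c → C * S * c ^ 2 < S ^ 2 - 1 →
      ∃ γ : W → W →L[ℝ] ℝ, Basic γ ∧ ∫ g, ip (cF (dB γ) g) (cF (dB γ) g) ∂ν ≤ 1 ∧
        ∃ t₀ : ℝ, 0 < t₀ ∧ ∀ t ∈ Icc (0 : ℝ) t₀, ∀ g ∈ U3, 0 < Pf (cF (dB α) g + t • cF (dB γ) g) ∧
          fM (cF μ g) (cF (dB α) g + t • cF (dB γ) g) ≤ (S - c * t) * vM (cF μ g) := by
  obtain ⟨v₀, v₁, hv₀, hv₁, hv⟩ := vM_bounds hμ
  obtain ⟨c₁, hc₁, hkap⟩ := kap_bound hμ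
  refine ⟨8 * c₁ * v₁ ^ 3 / v₀ ^ 2, by positivity, ?_⟩
  intro α hα hP S c hS h1 hc hcS
  set C : ℝ := 8 * c₁ * v₁ ^ 3 / v₀ ^ 2 with hCdef
  -- the constants
  obtain ⟨e, he0, he1, he2⟩ : ∃ e : ℝ, 0 < e ∧ 1 < S - e ∧ C * S * (c + e) ^ 2 < (S - e) ^ 2 - 1 := by
    have hc1 : Continuous fun e : ℝ => (S - e) ^ 2 - 1 - C * S * (c + e) ^ 2 := by fun_prop
    have hc2 : Continuous fun e : ℝ => S - e := by fun_prop
    have a1 : ∀ᶠ e : ℝ in nhds 0, 0 < (S - e) ^ 2 - 1 - C * S * (c + e) ^ 2 :=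
      hc1.continuousAt.eventually_const_lt (by beta_reduce; rw [sub_zero, add_zero]; linarith)
    have a2 : ∀ᶠ e : ℝ in nhds 0, 1 < S - e :=
      hc2.continuousAt.eventually_const_lt (by beta_reduce; rw [sub_zero]; exact h1)
    have a3 : ∀ᶠ e : ℝ in nhdsWithin 0 (Ioi 0), (0 < (S - e) ^ 2 - 1 - C * S * (c + e) ^ 2 ∧
        1 < S - e) ∧ e ∈ Ioi (0 : ℝ) :=
      ((a1.and a2).filter_mono nhdsWithin_le_nhds).and self_mem_nhdsWithin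
    obtain ⟨e, ⟨b1, b2⟩, b3⟩ := a3.exists
    exact ⟨e, b3, b2, by linarith⟩
  set σ : ℝ := S - e with hσdef
  set c₂ : ℝ := c + e with hc₂def
  have hσ1 : 1 < σ := he1
  have hσS : σ < S := by linarith
  have hcc : c < c₂ := by linarith
  have hc₂ : 0 < c₂ := by linarith
  obtain ⟨Θ, hΘ, hΘe⟩ := theta_M hα hP hμ
  have hτ := dB_hfc hα
  have hTc : CtU (cF (dB α)) := ctU_cF hτ.smooth
  have hMc : CtU (cF μ) := ct_mu hμ
  have hPc : ContinuousOn (fun g => Pf (cF (dB α) g)) U3 := ct_pf hTc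
  have hvc : ContinuousOn (fun g => vM (cF μ g)) U3 := ct_vM hMc
  have hFc : ContinuousOn (fun g => fM (cF μ g) (cF (dB α) g)) U3 := by
    unfold fM
    exact (ct_wd hTc (ct_kap hMc hTc)).div (continuousOn_const.mul hPc) fun g hg =>
      (mul_pos two_pos (hP g hg)).ne'
  have hT : ∀ g ∈ U3, Skew (cF (dB α) g) := fun g hg => cF_skew hτ hg
  have hvF : ∀ g ∈ U3, vM (cF μ g) ≤ fM (cF μ g) (cF (dB α) g) := fun g hg =>
    fM_ge (hμ.pos g hg) (hT g hg) (hP g hg)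
  have hn : ∀ g ∈ U3, -wd (cF Θ g) (cF Θ g) =
      2 * (fM (cF μ g) (cF (dB α) g) ^ 2 - vM (cF μ g) ^ 2) / Pf (cF (dB α) g) := by
    intro g hg
    rw [hΘe g hg, (tM_facts (hμ.pos g hg) (hT g hg) (hP g hg)).2.2.1, vM_sq (hμ.pos g hg)]
    ring
  have hn0 : ∀ g ∈ U3, 0 ≤ -wd (cF Θ g) (cF Θ g) := by
    intro g hg
    rw [hn g hg]
    have h1 := hvF g hg
    have h2 := vM_pos (hμ.pos g hg)
    have h3 := hP g hg
    apply div_nonneg _ h3.le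
    nlinarith
  have hip : ∀ g ∈ U3, ip (cF Θ g) (cF Θ g) ≤ -(c₁ * S * v₁) * wd (cF Θ g) (cF Θ g) := by
    intro g hg
    have hf := tM_facts (hμ.pos g hg) (hT g hg) (hP g hg)
    have h1 := hkap g hg (cF Θ g) (cF_skew hΘ hg)
    have h2 : wd (cF Θ g) (kap (cF μ g) (cF Θ g)) =
        fM (cF μ g) (cF (dB α) g) * -wd (cF Θ g) (cF Θ g) := by
      rw [hn g hg, hΘe g hg, hf.2.2.2, vM_sq (hμ.pos g hg)]
      ring
    rw [h2] at h1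
    have h3 : fM (cF μ g) (cF (dB α) g) ≤ S * v₁ :=
      (hS g hg).trans (mul_le_mul_of_nonneg_left (hv g hg).2 (by linarith))
    have h4 : fM (cF μ g) (cF (dB α) g) * -wd (cF Θ g) (cF Θ g) ≤
        (S * v₁) * -wd (cF Θ g) (cF Θ g) := mul_le_mul_of_nonneg_right h3 (hn0 g hg)
    calc ip (cF Θ g) (cF Θ g) ≤ c₁ * (fM (cF μ g) (cF (dB α) g) * -wd (cF Θ g) (cF Θ g)) := h1
      _ ≤ c₁ * ((S * v₁) * -wd (cF Θ g) (cF Θ g)) := mul_le_mul_of_nonneg_left h4 hc₁.le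
      _ = -(c₁ * S * v₁) * wd (cF Θ g) (cF Θ g) := by ring
  -- the closed set
  have hKc : IsClosed (U3 ∩ (fun g => fM (cF μ g) (cF (dB α) g) - σ * vM (cF μ g)) ⁻¹' Ici 0) :=
    (hFc.sub (continuousOn_const.mul hvc)).preimage_isClosed_of_isClosed
      isCompact_U3.isClosed isClosed_Ici
  have hb : ∀ g ∈ U3 ∩ (fun g => fM (cF μ g) (cF (dB α) g) - σ * vM (cF μ g)) ⁻¹' Ici 0,
      2 * (σ ^ 2 - 1) * v₀ ^ 2 ≤ -wd (cF Θ g) (cF Θ g) * Pf (cF (dB α) g) := by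
    rintro g ⟨hg, hg2⟩
    have h2 : 0 ≤ fM (cF μ g) (cF (dB α) g) - σ * vM (cF μ g) := hg2
    have h3 := hP g hg
    have h4 : -wd (cF Θ g) (cF Θ g) * Pf (cF (dB α) g) =
        2 * (fM (cF μ g) (cF (dB α) g) ^ 2 - vM (cF μ g) ^ 2) := by
      rw [hn g hg]
      field_simp
    rw [h4]
    have h5 := (hv g hg).1
    have h6 : (σ * vM (cF μ g)) ^ 2 ≤ fM (cF μ g) (cF (dB α) g) ^ 2 :=
      pow_le_pow_left₀ (by nlinarith) (by linarith) 2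
    have h7 : v₀ ^ 2 ≤ vM (cF μ g) ^ 2 := pow_le_pow_left₀ hv₀.le h5 2
    have h8 : 0 ≤ σ ^ 2 - 1 := by nlinarith
    nlinarith [mul_le_mul_of_nonneg_left h7 h8]
  have hb0 : 0 < 2 * (σ ^ 2 - 1) * v₀ ^ 2 := by
    have : 0 < σ ^ 2 - 1 := by nlinarith
    positivity
  have hcb : 4 * (c₁ * S * v₁) * (c₂ * v₁) ^ 2 * ∫ g, Pf (cF (dB α) g) ∂ν <
      2 * (σ ^ 2 - 1) * v₀ ^ 2 := by
    rw [int_pf hν hα]
    have h2 : C * v₀ ^ 2 = 8 * c₁ * v₁ ^ 3 := by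
      rw [hCdef]
      field_simp
    have h3 : 0 < 2 * v₀ ^ 2 := by positivity
    have h4 := mul_lt_mul_of_pos_right he2 h3
    calc 4 * (c₁ * S * v₁) * (c₂ * v₁) ^ 2 * 4 = (8 * c₁ * v₁ ^ 3) * (2 * S * c₂ ^ 2) := by ring
      _ = (C * v₀ ^ 2) * (2 * S * c₂ ^ 2) := by rw [h2]
      _ = C * S * c₂ ^ 2 * (2 * v₀ ^ 2) := by ring
      _ < (σ ^ 2 - 1) * (2 * v₀ ^ 2) := h4
      _ = 2 * (σ ^ 2 - 1) * v₀ ^ 2 := by ring
  obtain ⟨γ, hγ, hγ1, hγ2⟩ := descent hν hΘ hτ hKc inter_subset_left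
    (A := c₁ * S * v₁) (b := 2 * (σ ^ 2 - 1) * v₀ ^ 2) (c := c₂ * v₁) (by positivity) hb0
    (by positivity) hip hP hb hcb
  refine ⟨γ, hγ, hγ1, ?_⟩
  -- decrease of the maximum
  have hτ' := dB_hf hγ
  have hDc : CtU (cF (dB γ)) := ctU_cF hτ'.smooth
  have hD : ∀ g ∈ U3, Skew (cF (dB γ) g) := fun g hg => cF_skew hτ' hg
  obtain ⟨ε, hε0, hε⟩ := pf_near hTc hDc hP
  have hε2 : ∀ t ∈ Icc (0 : ℝ) (ε / 2), |t| < ε := by
    intro t ht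
    rw [abs_of_nonneg ht.1]
    linarith [ht.2]
  have hcont : ContinuousOn (fun p : X3 × ℝ => wd (cF (dB γ) p.1)
      (tM (cF μ p.1) (cF (dB α) p.1 + p.2 • cF (dB γ) p.1)) / vM (cF μ p.1))
      (U3 ×ˢ Icc (0 : ℝ) (ε / 2)) := by
    have hfst : ContinuousOn (fun p : X3 × ℝ => p.1) (U3 ×ˢ Icc (0 : ℝ) (ε / 2)) :=
      continuousOn_fst
    have hmap : MapsTo (fun p : X3 × ℝ => p.1) (U3 ×ˢ Icc (0 : ℝ) (ε / 2)) U3 := fun p hp => hp.1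
    have m1 : ∀ i j, ContinuousOn (fun p : X3 × ℝ => cF μ p.1 i j) (U3 ×ˢ Icc (0 : ℝ) (ε / 2)) :=
      fun i j => (hMc i j).comp hfst hmap
    have m2 : ∀ i j, ContinuousOn (fun p : X3 × ℝ => cF (dB γ) p.1 i j)
        (U3 ×ˢ Icc (0 : ℝ) (ε / 2)) := fun i j => (hDc i j).comp hfst hmap
    have m3 : ∀ i j, ContinuousOn (fun p : X3 × ℝ => (cF (dB α) p.1 + p.2 • cF (dB γ) p.1) i j)
        (U3 ×ˢ Icc (0 : ℝ) (ε / 2)) := fun i j =>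
      ((hTc i j).comp hfst hmap).add (continuousOn_snd.mul (m2 i j))
    have m4 := ct_pf m3
    have m5 := ct_kap m1 m3
    have m6 := ct_wd m3 m5
    have m7 : ∀ p ∈ U3 ×ˢ Icc (0 : ℝ) (ε / 2),
        Pf (cF (dB α) p.1 + p.2 • cF (dB γ) p.1) ≠ 0 := fun p hp =>
      (hε p.2 (hε2 p.2 hp.2) p.1 hp.1).ne'
    have m8 : ∀ i j, ContinuousOn (fun p : X3 × ℝ =>
        tM (cF μ p.1) (cF (dB α) p.1 + p.2 • cF (dB γ) p.1) i j)
        (U3 ×ˢ Icc (0 : ℝ) (ε / 2)) := by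
      intro i j
      have a1 := (m4.inv₀ m7).mul (m5 i j)
      have a2 := (m6.div (continuousOn_const.mul (m4.pow 2)) (fun p hp =>
        mul_ne_zero two_ne_zero (pow_ne_zero 2 (m7 p hp)))).mul (m3 i j)
      exact a1.sub a2
    exact (ct_wd m2 m8).div (ct_vM m1) fun p hp => (vM_pos (hμ.pos p.1 hp.1)).ne'
  obtain ⟨t₀, ht₀, ht₁, ht₂⟩ := max_dec
    (φ := fun g t => fM (cF μ g) (cF (dB α) g + t • cF (dB γ) g) / vM (cF μ g))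
    (φ' := fun g t => wd (cF (dB γ) g) (tM (cF μ g) (cF (dB α) g + t • cF (dB γ) g)) / vM (cF μ g))
    (ε := ε / 2) (S := S) (σ := σ) (c := c₂) (c' := c) (by positivity)
    (fun g hg t ht => (hasDerivAt_fM (hμ.pos g hg) (hT g hg) (hD g hg) t
      (hε t (hε2 t ht) g hg).ne').div_const _) hcont hσS hcc hc
    (fun g hg => by
      simp only [zero_smul, add_zero]
      rw [div_le_iff₀ (vM_pos (hμ.pos g hg))]
      exact hS g hg)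
    (fun g hg h => by
      simp only [zero_smul, add_zero] at h ⊢
      have h2 := vM_pos (hμ.pos g hg)
      rw [le_div_iff₀ h2] at h
      have h3 := hγ2 g ⟨hg, by
        show 0 ≤ fM (cF μ g) (cF (dB α) g) - σ * vM (cF μ g)
        linarith⟩
      rw [hΘe g hg] at h3
      rw [div_le_iff₀ h2]
      have h4 := (hv g hg).2
      nlinarith [mul_le_mul_of_nonneg_left h4 hc₂.le])
  refine ⟨t₀, ht₀, fun t ht g hg => ?_⟩
  have ht' : t ∈ Icc (0 : ℝ) (ε / 2) := ⟨ht.1, ht.2.trans ht₁⟩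
  refine ⟨hε t (hε2 t ht') g hg, ?_⟩
  exact (div_le_iff₀ (vM_pos (hμ.pos g hg))).1 (ht₂ t ht g hg)

end Pool.Agent.Lib.DEn
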