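import Pool.Agent.Lib.DEn.RieL

set_option autoImplicit false
set_option maxSynthPendingDepth 3

/-!
# Separation in finite dimension  (1.5 h)

Reduction to `V` finite dimensional: `V = V' ⊔ ker L` with `V'` a complement of `ker L` (`Submodule.exists_isCompl`), `V'` is isomorphic to `range L`; for `v = v' + k`: `ℓ x v = ℓ x v'`, `B v v = B v' v'` (`RieLAux.cs_zero`). Put the topology of `Dual ℝ V'` through a basis: work in `Fin n → ℝ` (`V' ≃ (Fin n → ℝ)` by a basis, functionals are `v ↦ a ⬝ v`, `a : Fin n → ℝ`).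
Let `D = {a | ∀ v, |a ⬝ v| ≤ c' √(B v v)}` (convex, closed) and `C = convexHull {a_x | x ∈ K}`, compact (`x ↦ a_x` is continuous on the compact set `K`, its coordinates are `ℓ x e_j`; `IsCompact.convexHull`). If `C ∩ D` is nonempty, the point is a finite convex combination of the `a_x` (`convexHull_image`, `mem_convexHull_iff_exists_fintype`, `Finset.centerMass`; collect equal points) and this is the claim.
Otherwise `geometric_hahn_banach_compact_closed` gives `v` and reals `α < β` with `a_x ⬝ v < α` for `x ∈ K` and `β < a ⬝ v` for `a ∈ D`. If `B v v > 0`: `a = - c' B v (·) / √(B v v)` is in `D` (Cauchy-Schwarz), so `β < - c' √(B v v)`; `v' = v / √(B v v)` has `B v' v' = 1` and `ℓ x v' < - c' < - c` for all `x ∈ K`, contradicting `hn`. If `B v v = 0`: `0 ∈ D`, `β < 0`, `α < 0`, so `t v`, `t` large, has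
`B = 0` and `ℓ x (t v) ≤ t α ≤ - c` for all `x ∈ K`, a contradiction.
-/

open MeasureTheory Set Metric Filter
open scoped ContDiff Topology

namespace Pool.Agent.Lib.DEn

open Pool.Agent.P28b04d
open Pool.Agent.Lib.Psd (W hp ON3 fr cmp st asd sd nrm2 Pf Skew Conn Basic dd a0 c0 Mat form fs Tan tv cmpM NondegM pb)

namespace BSepAux

/-- in finite dimension the convex hull of a compact set is compact -/
theorem hull {n : ℕ} {S : Set (Fin n → ℝ)} (hS : IsCompact S) : IsCompact (convexHull ℝ S) := by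
  rcases S.eq_empty_or_nonempty with rfl | ⟨s0, hs0⟩
  · simp
  have hT : IsCompact ((stdSimplex ℝ (Fin (n + 1))) ×ˢ
      (Set.pi (Set.univ : Set (Fin (n + 1))) fun _ => S)) :=
    (isCompact_stdSimplex ℝ (Fin (n + 1))).prod (isCompact_univ_pi fun _ => hS)
  have hF : Continuous fun p : (Fin (n + 1) → ℝ) × (Fin (n + 1) → Fin n → ℝ) =>
      ∑ i, p.1 i • p.2 i := by fun_prop
  have himg := hT.image hF
  convert himg using 1
  apply Set.Subset.antisymm
  · intro x hx
    obtain ⟨ι, _, z, w, hz, hai, hw, hw1, hwx⟩ := eq_pos_convex_span_of_mem_convexHull hx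
    have hcard : Fintype.card ι ≤ n + 1 := by
      refine hai.card_le_finrank_succ.trans ?_
      have h1 : Module.finrank ℝ (vectorSpan ℝ (Set.range z)) ≤ n := by
        refine (Submodule.finrank_le _).trans ?_
        simp
      omega
    obtain ⟨e⟩ : Nonempty (ι ↪ Fin (n + 1)) := by
      apply Function.Embedding.nonempty_of_card_le
      simpa using hcard
    have hw' : ∀ i, Function.extend e w 0 (e i) = w i := fun i => e.injective.extend_apply _ _ _
    have hz' : ∀ i, Function.extend e z (fun _ => s0) (e i) = z i := fun i =>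
      e.injective.extend_apply _ _ _
    have hw0 : ∀ j, j ∉ Set.range e → Function.extend e w 0 j = 0 := fun j hj =>
      Function.extend_apply' _ _ _ (by rintro ⟨a, ha⟩; exact hj ⟨a, ha⟩)
    have hz0 : ∀ j, j ∉ Set.range e → Function.extend e z (fun _ => s0) j = s0 := fun j hj =>
      Function.extend_apply' _ _ _ (by rintro ⟨a, ha⟩; exact hj ⟨a, ha⟩)
    refine ⟨(Function.extend e w 0, Function.extend e z (fun _ => s0)), ⟨⟨?_, ?_⟩, ?_⟩, ?_⟩
    · intro j
      by_cases hj : j ∈ Set.range e
      · obtain ⟨i, rfl⟩ := hj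
        show 0 ≤ Function.extend e w 0 (e i)
        rw [hw']
        exact (hw i).le
      · show 0 ≤ Function.extend e w 0 j
        rw [hw0 j hj]
    · show ∑ j, Function.extend e w 0 j = 1
      rw [← hw1]
      exact (Fintype.sum_of_injective e e.injective _ _ (fun j hj => hw0 j hj)
        (fun i => (hw' i).symm)).symm
    · intro j _
      show Function.extend e z (fun _ => s0) j ∈ S
      by_cases hj : j ∈ Set.range e
      · obtain ⟨i, rfl⟩ := hj
        rw [hz']
        exact hz ⟨i, rfl⟩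
      · rw [hz0 j hj]
        exact hs0
    · show ∑ j, Function.extend e w 0 j • Function.extend e z (fun _ => s0) j = x
      rw [← hwx]
      refine (Fintype.sum_of_injective e e.injective _ _ (fun j hj => ?_) (fun i => ?_)).symm
      · rw [hw0 j hj, zero_smul]
      · rw [hw', hz']
  · rintro _ ⟨⟨w, z⟩, ⟨⟨hw0, hw1⟩, hz⟩, rfl⟩
    exact (convex_convexHull ℝ S).sum_mem (fun i _ => hw0 i) hw1
      (fun i _ => subset_convexHull ℝ S (hz i (Set.mem_univ i)))

theorem cs {V : Type*} [AddCommGroup V] [Module ℝ V] (B : V →ₗ[ℝ] V →ₗ[ℝ] ℝ)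
    (hs : ∀ x y, B x y = B y x) (hp : ∀ x, 0 ≤ B x x) (x y : V) :
    |B x y| ≤ Real.sqrt (B x x) * Real.sqrt (B y y) := by
  have key : ∀ t : ℝ, 0 ≤ B y y * (t * t) + (2 * B x y) * t + B x x := by
    intro t
    have h := hp (x + t • y)
    have h2 : B (x + t • y) (x + t • y) = B y y * (t * t) + (2 * B x y) * t + B x x := by
      simp only [map_add, map_smul, LinearMap.add_apply, LinearMap.smul_apply, smul_eq_mul]
      rw [hs y x]
      ring
    rwa [h2] at h
  have hd := discrim_le_zero key
  unfold discrim at hd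
  rw [← Real.sqrt_mul (hp x)]
  refine Real.abs_le_sqrt ?_
  nlinarith

end BSepAux

open BSepAux in
theorem sep_fin {V U X : Type*} [AddCommGroup V] [Module ℝ V] [AddCommGroup U] [Module ℝ U]
    [TopologicalSpace X] (L : V →ₗ[ℝ] U) (hL : FiniteDimensional ℝ (LinearMap.range L)) {K : Set X}
    (hK : IsCompact K) (ℓ : X → V →ₗ[ℝ] ℝ) (hℓ : ∀ v, ContinuousOn (fun x => ℓ x v) K)
    (hℓL : ∀ x ∈ K, ∀ v, L v = 0 → ℓ x v = 0) (B : V →ₗ[ℝ] V →ₗ[ℝ] ℝ)
    (hs : ∀ x y, B x y = B y x) (hp : ∀ x, 0 ≤ B x x) (hk : ∀ x, L x = 0 → B x x = 0)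
    {c c' : ℝ} (hc : 0 ≤ c) (hcc : c < c') (hn : ∀ v, B v v ≤ 1 → ∃ x ∈ K, -c < ℓ x v) :
    ∃ (s : Finset X) (w : X → ℝ), (∀ x ∈ s, x ∈ K) ∧ (∀ x ∈ s, 0 ≤ w x) ∧ ∑ x ∈ s, w x = 1 ∧
      ∀ v, |∑ x ∈ s, w x * ℓ x v| ≤ c' * Real.sqrt (B v v) := by
  classical
  have hc' : 0 < c' := hc.trans_lt hcc
  have := hL
  set n := Module.finrank ℝ (LinearMap.range L) with hn'
  let b := Module.finBasis ℝ (LinearMap.range L)
  have hex : ∀ i, ∃ e : V, L e = b i := fun i => (b i).2
  choose e he using hex
  -- coordinates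
  have hdec : ∀ v : V, ∃ y : Fin n → ℝ, L (v - ∑ i, y i • e i) = 0 := by
    intro v
    refine ⟨fun i => b.repr ⟨L v, ⟨v, rfl⟩⟩ i, ?_⟩
    rw [map_sub, map_sum]
    have h1 := b.sum_repr ⟨L v, ⟨v, rfl⟩⟩
    have h2 := congrArg (Subtype.val) h1
    simp only [AddSubmonoidClass.coe_finset_sum, SetLike.val_smul] at h2
    simp only [map_smul, he]
    rw [h2, sub_self]
  have hBk : ∀ k v : V, L k = 0 → B k v = 0 := fun k v h =>
    RieLAux.cs_zero B hs hp (hk k h) v
  have hBeq : ∀ v (y : Fin n → ℝ), L (v - ∑ i, y i • e i) = 0 →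
      B v v = B (∑ i, y i • e i) (∑ i, y i • e i) := by
    intro v y h
    have h1 : v = (v - ∑ i, y i • e i) + ∑ i, y i • e i := by abel
    have h2 := hBk _ (v - ∑ i, y i • e i) h
    have h3 := hBk _ (∑ i, y i • e i) h
    rw [h1]
    simp only [map_add, LinearMap.add_apply]
    rw [hs (∑ i, y i • e i) (v - ∑ i, y i • e i)]
    simp only [add_sub_cancel_right, sub_add_cancel] at *
    rw [h2, h3]
    ring
  set a : X → Fin n → ℝ := fun x i => ℓ x (e i) with ha
  have hac : ContinuousOn a K := continuousOn_pi.2 fun i => hℓ (e i)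
  have hS : IsCompact (a '' K) := hK.image_of_continuousOn hac
  have hC := hull hS
  have hla : ∀ x (y : Fin n → ℝ), ℓ x (∑ i, y i • e i) = ∑ i, a x i * y i := by
    intro x y
    rw [map_sum]
    refine Finset.sum_congr rfl fun i _ => ?_
    rw [map_smul, smul_eq_mul, mul_comm]
  set D : Set (Fin n → ℝ) := {p | ∀ y : Fin n → ℝ, |∑ i, p i * y i| ≤
    c' * Real.sqrt (B (∑ i, y i • e i) (∑ i, y i • e i))} with hD
  have hDconv : Convex ℝ D := by
    intro p hp1 q hq1 s t hs0 ht0 hst y
    have h1 : ∑ i, (s • p + t • q) i * y i = s * ∑ i, p i * y i + t * ∑ i, q i * y i := by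
      simp only [Pi.add_apply, Pi.smul_apply, smul_eq_mul, Finset.mul_sum, ← Finset.sum_add_distrib]
      refine Finset.sum_congr rfl fun i _ => ?_
      ring
    rw [h1]
    calc |s * ∑ i, p i * y i + t * ∑ i, q i * y i|
        ≤ |s * ∑ i, p i * y i| + |t * ∑ i, q i * y i| := abs_add_le _ _
      _ = s * |∑ i, p i * y i| + t * |∑ i, q i * y i| := by
          rw [abs_mul, abs_mul, abs_of_nonneg hs0, abs_of_nonneg ht0]
      _ ≤ s * (c' * Real.sqrt (B (∑ i, y i • e i) (∑ i, y i • e i))) +
          t * (c' * Real.sqrt (B (∑ i, y i • e i) (∑ i, y i • e i))) :=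
          add_le_add (mul_le_mul_of_nonneg_left (hp1 y) hs0)
            (mul_le_mul_of_nonneg_left (hq1 y) ht0)
      _ = c' * Real.sqrt (B (∑ i, y i • e i) (∑ i, y i • e i)) := by
          rw [← add_mul, hst, one_mul]
  have hDcl : IsClosed D := by
    have h1 : D = ⋂ y : Fin n → ℝ, {p | |∑ i, p i * y i| ≤
        c' * Real.sqrt (B (∑ i, y i • e i) (∑ i, y i • e i))} := by
      ext p
      simp [hD]
    rw [h1]
    refine isClosed_iInter fun y => ?_
    exact isClosed_le (by fun_prop) continuous_const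
  by_cases hdis : Disjoint (convexHull ℝ (a '' K)) D
  · exfalso
    obtain ⟨f, u, v', hf1, huv, hf2⟩ :=
      geometric_hahn_banach_compact_closed (convex_convexHull ℝ _) hC hDconv hDcl hdis
    set y : Fin n → ℝ := fun i => f (Pi.single i 1) with hy
    have hfy : ∀ p : Fin n → ℝ, f p = ∑ i, p i * y i := by
      intro p
      have h1 : p = ∑ i, p i • (Pi.single i 1 : Fin n → ℝ) := by
        funext j
        simp [Finset.sum_apply, Pi.single_apply]
      conv_lhs => rw [h1]
      rw [map_sum]
      refine Finset.sum_congr rfl fun i _ => ?_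
      rw [map_smul, smul_eq_mul]
    obtain ⟨v, hv⟩ : ∃ v : V, v = ∑ i, y i • e i := ⟨_, rfl⟩
    have hBsum : ∀ (u : V) (y' : Fin n → ℝ),
        B u (∑ i, y' i • e i) = ∑ i, y' i * B u (e i) := by
      intro u y'
      rw [map_sum]
      refine Finset.sum_congr rfl fun i _ => ?_
      rw [map_smul, smul_eq_mul]
    have hBsm : ∀ (t : ℝ) (u : V), B (t • u) (t • u) = t * (t * B u u) := by
      intro t u
      simp only [map_smul, LinearMap.smul_apply, smul_eq_mul]
    have hlv : ∀ x ∈ K, ℓ x v < u := by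
      intro x hx
      rw [hv, hla, ← hfy]
      exact hf1 _ (subset_convexHull ℝ _ ⟨x, hx, rfl⟩)
    have h0D : (0 : Fin n → ℝ) ∈ D := by
      intro y'
      simp only [Pi.zero_apply, zero_mul, Finset.sum_const_zero, abs_zero]
      exact mul_nonneg hc'.le (Real.sqrt_nonneg _)
    have hv0 : v' < 0 := by
      have := hf2 0 h0D
      simpa using this
    rcases (hp v).eq_or_lt with hq | hq
    · have hu : u < 0 := huv.trans hv0
      set t : ℝ := (c + 1) / (-u) with ht
      have ht0 : 0 < t := div_pos (by linarith) (by linarith)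
      have hB : B (t • v) (t • v) = 0 := by
        rw [hBsm, ← hq, mul_zero, mul_zero]
      obtain ⟨x, hx, hxt⟩ := hn (t • v) (by rw [hB]; norm_num)
      rw [map_smul, smul_eq_mul] at hxt
      have h1 : t * ℓ x v < t * u := mul_lt_mul_of_pos_left (hlv x hx) ht0
      have h2 : t * u = -(c + 1) := by
        have hu0 : u ≠ 0 := hu.ne
        rw [ht, div_mul_eq_mul_div, div_eq_iff (neg_ne_zero.2 hu0)]
        ring
      linarith
    · set r : ℝ := Real.sqrt (B v v) with hr
      have hr0 : 0 < r := Real.sqrt_pos.2 hq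
      have hrr : r * r = B v v := Real.mul_self_sqrt hq.le
      have hmem : (fun i => -(c' / r) * B v (e i)) ∈ D := by
        intro y'
        have h1 : ∑ i, (-(c' / r) * B v (e i)) * y' i = -(c' / r) * B v (∑ i, y' i • e i) := by
          rw [hBsum, Finset.mul_sum]
          refine Finset.sum_congr rfl fun i _ => ?_
          ring
        rw [h1, abs_mul, abs_neg, abs_of_pos (div_pos hc' hr0)]
        have h2 := cs B hs hp v (∑ i, y' i • e i)
        calc c' / r * |B v (∑ i, y' i • e i)|
            ≤ c' / r * (r * Real.sqrt (B (∑ i, y' i • e i) (∑ i, y' i • e i))) :=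
              mul_le_mul_of_nonneg_left h2 (div_pos hc' hr0).le
          _ = c' * Real.sqrt (B (∑ i, y' i • e i) (∑ i, y' i • e i)) := by
              field_simp
      have h3 := hf2 _ hmem
      rw [hfy] at h3
      have h4 : ∑ i, (-(c' / r) * B v (e i)) * y i = -(c' * r) := by
        have h0 : B v v = ∑ i, y i * B v (e i) := by
          rw [← hBsum, ← hv]
        have h1 : ∑ i, (-(c' / r) * B v (e i)) * y i = -(c' / r) * B v v := by
          rw [h0, Finset.mul_sum]
          refine Finset.sum_congr rfl fun i _ => ?_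
          ring
        rw [h1, ← hrr]
        field_simp
      rw [h4] at h3
      obtain ⟨x, hx, hxt⟩ := hn (r⁻¹ • v) (by
        rw [hBsm, ← hrr]
        have : r⁻¹ * (r⁻¹ * (r * r)) = 1 := by field_simp
        rw [this])
      rw [map_smul, smul_eq_mul] at hxt
      have h5 : r⁻¹ * ℓ x v < r⁻¹ * (-(c' * r)) :=
        mul_lt_mul_of_pos_left ((hlv x hx).trans (huv.trans h3)) (inv_pos.2 hr0)
      have h6 : r⁻¹ * (-(c' * r)) = -c' := by field_simp
      linarith
  · rw [Set.not_disjoint_iff] at hdis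
    obtain ⟨p, hpC, hpD⟩ := hdis
    rw [convexHull_eq] at hpC
    obtain ⟨ι, t, w, z, hw0, hw1, hz, hcm⟩ := hpC
    rw [Finset.centerMass_eq_of_sum_1 _ _ hw1] at hcm
    have hzx : ∀ i, ∃ x : X, i ∈ t → x ∈ K ∧ a x = z i := by
      intro i
      by_cases hi : i ∈ t
      · obtain ⟨x, hx, hxz⟩ := hz i hi
        exact ⟨x, fun _ => ⟨hx, hxz⟩⟩
      · obtain ⟨x, _⟩ := hn 0 (by simp)
        exact ⟨x, fun h => absurd h hi⟩
    choose g hg using hzx
    refine ⟨t.image g, fun x => ∑ i ∈ t with g i = x, w i, ?_, ?_, ?_, ?_⟩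
    · intro x hx
      obtain ⟨i, hi, rfl⟩ := Finset.mem_image.1 hx
      exact (hg i hi).1
    · intro x _
      exact Finset.sum_nonneg fun i hi => hw0 i (Finset.mem_filter.1 hi).1
    · rw [Finset.sum_fiberwise_of_maps_to (fun i hi => Finset.mem_image_of_mem g hi), hw1]
    · intro v
      obtain ⟨y, hy⟩ := hdec v
      have h1 : ∑ x ∈ t.image g, (∑ i ∈ t with g i = x, w i) * ℓ x v = ∑ i, p i * y i := by
        have h2 : ∀ x ∈ t.image g, (∑ i ∈ t with g i = x, w i) * ℓ x v =
            ∑ i ∈ t with g i = x, w i * ℓ (g i) v := by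
          intro x _
          rw [Finset.sum_mul]
          refine Finset.sum_congr rfl fun i hi => ?_
          rw [(Finset.mem_filter.1 hi).2]
        rw [Finset.sum_congr rfl h2,
          Finset.sum_fiberwise_of_maps_to (fun i hi => Finset.mem_image_of_mem g hi)]
        have h3 : ∀ i ∈ t, w i * ℓ (g i) v = ∑ j, w i * z i j * y j := by
          intro i hi
          have h4 : ℓ (g i) v = ℓ (g i) (∑ j, y j • e j) := by
            have h5 := hℓL (g i) (hg i hi).1 _ hy
            rw [map_sub, sub_eq_zero] at h5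
            exact h5
          rw [h4, hla, (hg i hi).2, Finset.mul_sum]
          refine Finset.sum_congr rfl fun j _ => ?_
          ring
        rw [Finset.sum_congr rfl h3, Finset.sum_comm]
        refine Finset.sum_congr rfl fun j _ => ?_
        rw [← Finset.sum_mul, ← hcm, Finset.sum_apply]
        rfl
      rw [h1, hBeq v y hy]
      exact hpD y

end Pool.Agent.Lib.DEn
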