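import Pool.Agent.Lib.DEn.RieL

set_option autoImplicit false
set_option maxSynthPendingDepth 3

/-!
# Separation in finite dimension, affine form  (1.5 h)

Reduction to `V` finite dimensional: `V = V' ⊔ ker L` with `V'` a complement of `ker L` (`Submodule.exists_isCompl`), `V'` is isomorphic to `range L`; for `v = v' + k`: `ℓ x v = ℓ x v'`, `B v v = B v' v'` (`RieLAux.cs_zero`). Work in `Fin n → ℝ` (`V' ≃ (Fin n → ℝ)` by a basis; functionals are `v ↦ a ⬝ v`).
In `(Fin n → ℝ) × ℝ` let `D = {(a, t) | ∀ v, |a ⬝ v| ≤ (t + δ) √(B v v)} ` together with `0 ≤ t + δ` (convex, closed) and `C = convexHull {(a_x, b x) | x ∈ K}`, compact (`x ↦ (a_x, b x)` is continuous on the compact set `K`; `IsCompact.convexHull`). If `C ∩ D` is nonempty, the point is a finite convex combination (`mem_convexHull_iff_exists_fintype` or similar; collect equal points) and this is the claim.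
Otherwise `geometric_hahn_banach_compact_closed` gives `(v, r)` and reals `α < β` with `a_x ⬝ v + r * b x < α` for `x ∈ K` and `β < a ⬝ v + r * t` for `(a, t) ∈ D`. `(0, t) ∈ D` for `t ≥ -δ`, so `r ≥ 0`, and `β < - r δ ≤ 0` (`t = -δ`). For `B v v > 0` and `t ≥ -δ`: `a = - (t + δ) B v (·) / √(B v v)` gives `β < - (t + δ) √(B v v) + r t` for all `t ≥ -δ`, so `√(B v v) ≤ r`; this holds also if `B v v = 0`.
If `r > 0`: `v' = v / r` has `B v' v' ≤ 1` and `ℓ x v' + b x < α / r < 0` on `K`, contradicting `hn`. If `r = 0`: `B v v = 0` and `ℓ x v < α < 0` on `K`; `b ≤ M` on `K`, so `t v` for large `t` has `B = 0 ≤ 1` and `ℓ x (t v) + b x < 0` on `K`, a contradiction. (`K` is nonempty by `hn 0`.)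
-/

open MeasureTheory Set Metric Filter
open scoped ContDiff Topology

namespace Pool.Agent.Lib.DEn

open Pool.Agent.P28b04d
open Pool.Agent.Lib.Psd (W hp ON3 fr cmp st asd sd nrm2 Pf Skew Conn Basic dd a0 c0 Mat form fs Tan tv cmpM NondegM pb)

namespace BSepAAux

/-- in finite dimension the convex hull of a compact set is compact -/
theorem hull {E : Type*} [NormedAddCommGroup E] [NormedSpace ℝ E] [FiniteDimensional ℝ E]
    {S : Set E} (hS : IsCompact S) : IsCompact (convexHull ℝ S) := by
  rcases S.eq_empty_or_nonempty with rfl | ⟨s0, hs0⟩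
  · simp
  set n := Module.finrank ℝ E with hn
  have hT : IsCompact ((stdSimplex ℝ (Fin (n + 1))) ×ˢ
      (Set.pi (Set.univ : Set (Fin (n + 1))) fun _ => S)) :=
    (isCompact_stdSimplex ℝ (Fin (n + 1))).prod (isCompact_univ_pi fun _ => hS)
  have hF : Continuous fun p : (Fin (n + 1) → ℝ) × (Fin (n + 1) → E) =>
      ∑ i, p.1 i • p.2 i := by fun_prop
  have himg := hT.image hF
  convert himg using 1
  apply Set.Subset.antisymm
  · intro x hx
    obtain ⟨ι, _, z, w, hz, hai, hw, hw1, hwx⟩ := eq_pos_convex_span_of_mem_convexHull hx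
    have hcard : Fintype.card ι ≤ n + 1 := by
      refine hai.card_le_finrank_succ.trans ?_
      have h1 : Module.finrank ℝ (vectorSpan ℝ (Set.range z)) ≤ n := Submodule.finrank_le _
      omega
    obtain ⟨e⟩ : Nonempty (ι ↪ Fin (n + 1)) := by
      apply Function.Embedding.nonempty_of_card_le
      simpa using hcard
    have hw' : ∀ i, Function.extend e w 0 (e i) = w i := fun i => e.injective.extend_apply _ _ _
    have hz' : ∀ i, Function.extend e z (fun _ => s0) (e i) = z i := fun i =>
      e.injective.extend_apply _ _ _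
    have hw0 : ∀ j, j ∉ Set.range e → Function.extend e w 0 j = 0 := fun j hj =>
      Function.extend_apply' _ _ _ (by rintro ⟨a, ha⟩; exact hj ⟨a, ha⟩)
    have hz0 : ∀ j, j ∉ Set.range e → Function.extend e z (fun _ => s0) j = s0 := fun j hj =>
      Function.extend_apply' _ _ _ (by rintro ⟨a, ha⟩; exact hj ⟨a, ha⟩)
    refine ⟨(Function.extend e w 0, Function.extend e z (fun _ => s0)), ⟨⟨?_, ?_⟩, ?_⟩, ?_⟩
    · intro j
      by_cases hj : j ∈ Set.range e
      · obtain ⟨i, rfl⟩ := hj
        show 0 ≤ Function.extend e w 0 (e i)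
        rw [hw']
        exact (hw i).le
      · show 0 ≤ Function.extend e w 0 j
        rw [hw0 j hj]
    · show ∑ j, Function.extend e w 0 j = 1
      rw [← hw1]
      exact (Fintype.sum_of_injective e e.injective _ _ (fun j hj => hw0 j hj)
        (fun i => (hw' i).symm)).symm
    · intro j _
      show Function.extend e z (fun _ => s0) j ∈ S
      by_cases hj : j ∈ Set.range e
      · obtain ⟨i, rfl⟩ := hj
        rw [hz']
        exact hz ⟨i, rfl⟩
      · rw [hz0 j hj]
        exact hs0
    · show ∑ j, Function.extend e w 0 j • Function.extend e z (fun _ => s0) j = x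
      rw [← hwx]
      refine (Fintype.sum_of_injective e e.injective _ _ (fun j hj => ?_) (fun i => ?_)).symm
      · rw [hw0 j hj, zero_smul]
      · rw [hw', hz']
  · rintro _ ⟨⟨w, z⟩, ⟨⟨hw0, hw1⟩, hz⟩, rfl⟩
    exact (convex_convexHull ℝ S).sum_mem (fun i _ => hw0 i) hw1
      (fun i _ => subset_convexHull ℝ S (hz i (Set.mem_univ i)))

theorem cs {V : Type*} [AddCommGroup V] [Module ℝ V] (B : V →ₗ[ℝ] V →ₗ[ℝ] ℝ)
    (hs : ∀ x y, B x y = B y x) (hp : ∀ x, 0 ≤ B x x) (x y : V) :
    |B x y| ≤ Real.sqrt (B x x) * Real.sqrt (B y y) := by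
  have key : ∀ t : ℝ, 0 ≤ B y y * (t * t) + (2 * B x y) * t + B x x := by
    intro t
    have h := hp (x + t • y)
    have h2 : B (x + t • y) (x + t • y) = B y y * (t * t) + (2 * B x y) * t + B x x := by
      simp only [map_add, map_smul, LinearMap.add_apply, LinearMap.smul_apply, smul_eq_mul]
      rw [hs y x]
      ring
    rwa [h2] at h
  have hd := discrim_le_zero key
  unfold discrim at hd
  rw [← Real.sqrt_mul (hp x)]
  refine Real.abs_le_sqrt ?_
  nlinarith

end BSepAAux

open BSepAAux in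
theorem sep_aff {V U X : Type*} [AddCommGroup V] [Module ℝ V] [AddCommGroup U] [Module ℝ U]
    [TopologicalSpace X] (L : V →ₗ[ℝ] U) (hL : FiniteDimensional ℝ (LinearMap.range L)) {K : Set X}
    (hK : IsCompact K) (ℓ : X → V →ₗ[ℝ] ℝ) (hℓ : ∀ v, ContinuousOn (fun x => ℓ x v) K)
    (hℓL : ∀ x ∈ K, ∀ v, L v = 0 → ℓ x v = 0) (b : X → ℝ) (hb : ContinuousOn b K)
    (B : V →ₗ[ℝ] V →ₗ[ℝ] ℝ)
    (hs : ∀ x y, B x y = B y x) (hp : ∀ x, 0 ≤ B x x) (hk : ∀ x, L x = 0 → B x x = 0)
    {δ : ℝ} (hδ : 0 < δ) (hn : ∀ v, B v v ≤ 1 → ∃ x ∈ K, 0 < ℓ x v + b x) :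
    ∃ (s : Finset X) (w : X → ℝ), (∀ x ∈ s, x ∈ K) ∧ (∀ x ∈ s, 0 ≤ w x) ∧ ∑ x ∈ s, w x = 1 ∧
      0 ≤ ∑ x ∈ s, w x * b x + δ ∧
      ∀ v, |∑ x ∈ s, w x * ℓ x v| ≤ (∑ x ∈ s, w x * b x + δ) * Real.sqrt (B v v) := by
  classical
  have := hL
  set n := Module.finrank ℝ (LinearMap.range L) with hn'
  let bs := Module.finBasis ℝ (LinearMap.range L)
  have hex : ∀ i, ∃ e : V, L e = bs i := fun i => (bs i).2
  choose e he using hex
  -- coordinates
  have hdec : ∀ v : V, ∃ y : Fin n → ℝ, L (v - ∑ i, y i • e i) = 0 := by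
    intro v
    refine ⟨fun i => bs.repr ⟨L v, ⟨v, rfl⟩⟩ i, ?_⟩
    rw [map_sub, map_sum]
    have h1 := bs.sum_repr ⟨L v, ⟨v, rfl⟩⟩
    have h2 := congrArg (Subtype.val) h1
    simp only [AddSubmonoidClass.coe_finset_sum, SetLike.val_smul] at h2
    simp only [map_smul, he]
    rw [h2, sub_self]
  have hBk : ∀ k v : V, L k = 0 → B k v = 0 := fun k v h =>
    RieLAux.cs_zero B hs hp (hk k h) v
  have hBeq : ∀ v (y : Fin n → ℝ), L (v - ∑ i, y i • e i) = 0 →
      B v v = B (∑ i, y i • e i) (∑ i, y i • e i) := by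
    intro v y h
    have h1 : v = (v - ∑ i, y i • e i) + ∑ i, y i • e i := by abel
    have h2 := hBk _ (v - ∑ i, y i • e i) h
    have h3 := hBk _ (∑ i, y i • e i) h
    rw [h1]
    simp only [map_add, LinearMap.add_apply]
    rw [hs (∑ i, y i • e i) (v - ∑ i, y i • e i)]
    simp only [add_sub_cancel_right, sub_add_cancel] at *
    rw [h2, h3]
    ring
  set a : X → Fin n → ℝ := fun x i => ℓ x (e i) with ha
  have hac : ContinuousOn a K := continuousOn_pi.2 fun i => hℓ (e i)
  set A : X → (Fin n → ℝ) × ℝ := fun x => (a x, b x) with hA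
  have hAc : ContinuousOn A K := hac.prodMk hb
  have hS : IsCompact (A '' K) := hK.image_of_continuousOn hAc
  have hC := hull hS
  have hla : ∀ x (y : Fin n → ℝ), ℓ x (∑ i, y i • e i) = ∑ i, a x i * y i := by
    intro x y
    rw [map_sum]
    refine Finset.sum_congr rfl fun i _ => ?_
    rw [map_smul, smul_eq_mul, mul_comm]
  set D : Set ((Fin n → ℝ) × ℝ) := {p | 0 ≤ p.2 + δ ∧ ∀ y : Fin n → ℝ, |∑ i, p.1 i * y i| ≤
    (p.2 + δ) * Real.sqrt (B (∑ i, y i • e i) (∑ i, y i • e i))} with hD
  have hDconv : Convex ℝ D := by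
    intro p hp1 q hq1 s t hs0 ht0 hst
    have h2 : (s • p + t • q).2 + δ = s * (p.2 + δ) + t * (q.2 + δ) := by
      have h3 : (s • p + t • q).2 = s * p.2 + t * q.2 := rfl
      have h4 : s * δ + t * δ = δ := by rw [← add_mul, hst, one_mul]
      rw [h3]
      linarith
    refine ⟨?_, fun y => ?_⟩
    · rw [h2]
      exact add_nonneg (mul_nonneg hs0 hp1.1) (mul_nonneg ht0 hq1.1)
    have h1 : ∑ i, (s • p + t • q).1 i * y i = s * ∑ i, p.1 i * y i + t * ∑ i, q.1 i * y i := by
      simp only [Prod.fst_add, Prod.smul_fst, Pi.add_apply, Pi.smul_apply, smul_eq_mul,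
        Finset.mul_sum, ← Finset.sum_add_distrib]
      refine Finset.sum_congr rfl fun i _ => ?_
      ring
    rw [h1, h2]
    calc |s * ∑ i, p.1 i * y i + t * ∑ i, q.1 i * y i|
        ≤ |s * ∑ i, p.1 i * y i| + |t * ∑ i, q.1 i * y i| := abs_add_le _ _
      _ = s * |∑ i, p.1 i * y i| + t * |∑ i, q.1 i * y i| := by
          rw [abs_mul, abs_mul, abs_of_nonneg hs0, abs_of_nonneg ht0]
      _ ≤ s * ((p.2 + δ) * Real.sqrt (B (∑ i, y i • e i) (∑ i, y i • e i))) +
          t * ((q.2 + δ) * Real.sqrt (B (∑ i, y i • e i) (∑ i, y i • e i))) :=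
          add_le_add (mul_le_mul_of_nonneg_left (hp1.2 y) hs0)
            (mul_le_mul_of_nonneg_left (hq1.2 y) ht0)
      _ = (s * (p.2 + δ) + t * (q.2 + δ)) *
          Real.sqrt (B (∑ i, y i • e i) (∑ i, y i • e i)) := by ring
  have hDcl : IsClosed D := by
    have h1 : D = {p | 0 ≤ p.2 + δ} ∩ ⋂ y : Fin n → ℝ, {p | |∑ i, p.1 i * y i| ≤
        (p.2 + δ) * Real.sqrt (B (∑ i, y i • e i) (∑ i, y i • e i))} := by
      ext p
      simp [hD]
    rw [h1]
    refine (isClosed_le continuous_const (by fun_prop)).inter (isClosed_iInter fun y => ?_)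
    exact isClosed_le (by fun_prop) (by fun_prop)
  by_cases hdis : Disjoint (convexHull ℝ (A '' K)) D
  · exfalso
    obtain ⟨f, u, v', hf1, huv, hf2⟩ :=
      geometric_hahn_banach_compact_closed (convex_convexHull ℝ _) hC hDconv hDcl hdis
    set y : Fin n → ℝ := fun i => f (Pi.single i 1, 0) with hy
    set r : ℝ := f (0, 1) with hr
    have hfy : ∀ p : (Fin n → ℝ) × ℝ, f p = ∑ i, p.1 i * y i + p.2 * r := by
      intro p
      have h1 : p = ∑ i, p.1 i • ((Pi.single i 1, 0) : (Fin n → ℝ) × ℝ) +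
          p.2 • ((0, 1) : (Fin n → ℝ) × ℝ) := by
        apply Prod.ext
        · funext j
          simp [Prod.fst_sum, Finset.sum_apply, Pi.single_apply]
        · simp [Prod.snd_sum]
      conv_lhs => rw [h1]
      rw [map_add, map_sum, map_smul, smul_eq_mul]
      congr 1
      refine Finset.sum_congr rfl fun i _ => ?_
      rw [map_smul, smul_eq_mul]
    obtain ⟨v, hv⟩ : ∃ v : V, v = ∑ i, y i • e i := ⟨_, rfl⟩
    have hBsum : ∀ (u : V) (y' : Fin n → ℝ),
        B u (∑ i, y' i • e i) = ∑ i, y' i * B u (e i) := by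
      intro u y'
      rw [map_sum]
      refine Finset.sum_congr rfl fun i _ => ?_
      rw [map_smul, smul_eq_mul]
    have hBsm : ∀ (t : ℝ) (u : V), B (t • u) (t • u) = t * (t * B u u) := by
      intro t u
      simp only [map_smul, LinearMap.smul_apply, smul_eq_mul]
    have hlv : ∀ x ∈ K, ℓ x v + b x * r < u := by
      intro x hx
      have h1 := hf1 _ (subset_convexHull ℝ _ ⟨x, hx, rfl⟩)
      rw [hfy] at h1
      rw [hv, hla]
      exact h1
    have h0D : ∀ t : ℝ, -δ ≤ t → v' < t * r := by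
      intro t ht
      have h1 : ((0, t) : (Fin n → ℝ) × ℝ) ∈ D := by
        refine ⟨by show 0 ≤ t + δ; linarith, fun y' => ?_⟩
        simp only [Pi.zero_apply, zero_mul, Finset.sum_const_zero, abs_zero]
        exact mul_nonneg (by linarith) (Real.sqrt_nonneg _)
      have h2 := hf2 _ h1
      rw [hfy] at h2
      simpa using h2
    have hr0 : 0 ≤ r := by
      by_contra hneg
      push Not at hneg
      have h1 := h0D (|v'| / (-r)) (by
        have : 0 ≤ |v'| / (-r) := div_nonneg (abs_nonneg _) (by linarith)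
        linarith)
      have h2 : |v'| / (-r) * r = -|v'| := by
        have hne : r ≠ 0 := hneg.ne
        rw [div_mul_eq_mul_div, div_eq_iff (neg_ne_zero.2 hne)]
        ring
      rw [h2] at h1
      linarith [neg_abs_le v']
    have hv0 : v' < 0 := by
      have h1 := h0D (-δ) le_rfl
      nlinarith
    have hu0 : u < 0 := huv.trans hv0
    have hRr : Real.sqrt (B v v) ≤ r := by
      rcases (hp v).eq_or_lt with hq | hq
      · rw [← hq, Real.sqrt_zero]
        exact hr0
      set R : ℝ := Real.sqrt (B v v) with hR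
      have hR0 : 0 < R := Real.sqrt_pos.2 hq
      have hRR : R * R = B v v := Real.mul_self_sqrt hq.le
      by_contra hlt
      push Not at hlt
      set t : ℝ := |v'| / (R - r) with ht
      have ht0 : 0 ≤ t := div_nonneg (abs_nonneg _) (by linarith)
      have hmem : ((fun i => -((t + δ) / R) * B v (e i), t) : (Fin n → ℝ) × ℝ) ∈ D := by
        refine ⟨by show 0 ≤ t + δ; linarith, fun y' => ?_⟩
        have h1 : ∑ i, (-((t + δ) / R) * B v (e i)) * y' i =
            -((t + δ) / R) * B v (∑ i, y' i • e i) := by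
          rw [hBsum, Finset.mul_sum]
          refine Finset.sum_congr rfl fun i _ => ?_
          ring
        show |∑ i, (-((t + δ) / R) * B v (e i)) * y' i| ≤ (t + δ) *
          Real.sqrt (B (∑ i, y' i • e i) (∑ i, y' i • e i))
        have hq0 : 0 ≤ (t + δ) / R := div_nonneg (by linarith) hR0.le
        rw [h1, abs_mul, abs_neg, abs_of_nonneg hq0]
        have h2 := cs B hs hp v (∑ i, y' i • e i)
        calc (t + δ) / R * |B v (∑ i, y' i • e i)|
            ≤ (t + δ) / R * (R * Real.sqrt (B (∑ i, y' i • e i) (∑ i, y' i • e i))) :=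
              mul_le_mul_of_nonneg_left h2 hq0
          _ = (t + δ) * Real.sqrt (B (∑ i, y' i • e i) (∑ i, y' i • e i)) := by
              field_simp
      have h3 := hf2 _ hmem
      rw [hfy] at h3
      have h4 : ∑ i, (-((t + δ) / R) * B v (e i)) * y i = -((t + δ) * R) := by
        have h0 : B v v = ∑ i, y i * B v (e i) := by
          rw [← hBsum, ← hv]
        have h1 : ∑ i, (-((t + δ) / R) * B v (e i)) * y i = -((t + δ) / R) * B v v := by
          rw [h0, Finset.mul_sum]
          refine Finset.sum_congr rfl fun i _ => ?_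
          ring
        rw [h1, ← hRR]
        field_simp
      have h5 : v' < -((t + δ) * R) + t * r := by
        rw [← h4]
        exact h3
      have h6 : t * (R - r) = |v'| := by
        rw [ht, div_mul_cancel₀]
        exact (sub_pos.2 hlt).ne'
      have h7 := neg_abs_le v'
      nlinarith [mul_pos hδ hR0]
    rcases hr0.eq_or_lt with hr1 | hr1
    · have hB0 : B v v = 0 := by
        rw [← hr1] at hRr
        exact le_antisymm (Real.sqrt_eq_zero'.1 (le_antisymm hRr (Real.sqrt_nonneg _))) (hp v)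
      obtain ⟨M, hM⟩ := hK.exists_bound_of_continuousOn hb
      set t : ℝ := (|M| + 1) / (-u) with ht
      have ht0 : 0 < t := div_pos (by positivity) (by linarith)
      have hB : B (t • v) (t • v) = 0 := by
        rw [hBsm, hB0, mul_zero, mul_zero]
      obtain ⟨x, hx, hxt⟩ := hn (t • v) (by rw [hB]; norm_num)
      rw [map_smul, smul_eq_mul] at hxt
      have hx1 := hlv x hx
      rw [← hr1, mul_zero, add_zero] at hx1
      have h1 : t * ℓ x v < t * u := mul_lt_mul_of_pos_left hx1 ht0
      have h2 : t * u = -(|M| + 1) := by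
        have hu0' : u ≠ 0 := hu0.ne
        rw [ht, div_mul_eq_mul_div, div_eq_iff (neg_ne_zero.2 hu0')]
        ring
      have h3 : b x ≤ M := (le_abs_self _).trans (hM x hx)
      have h4 := le_abs_self M
      linarith
    · obtain ⟨x, hx, hxt⟩ := hn (r⁻¹ • v) (by
        rw [hBsm]
        have h1 : B v v ≤ r * r := by
          rw [← Real.mul_self_sqrt (hp v)]
          exact mul_self_le_mul_self (Real.sqrt_nonneg _) hRr
        calc r⁻¹ * (r⁻¹ * B v v) ≤ r⁻¹ * (r⁻¹ * (r * r)) := by
              have : 0 ≤ r⁻¹ := (inv_pos.2 hr1).le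
              exact mul_le_mul_of_nonneg_left (mul_le_mul_of_nonneg_left h1 this) this
          _ = 1 := by field_simp)
      rw [map_smul, smul_eq_mul] at hxt
      have hx1 := hlv x hx
      have h2 : r * (r⁻¹ * ℓ x v + b x) = ℓ x v + b x * r := by
        field_simp
      have h3 := mul_pos hr1 hxt
      rw [h2] at h3
      linarith
  · rw [Set.not_disjoint_iff] at hdis
    obtain ⟨p, hpC, hpD⟩ := hdis
    rw [convexHull_eq] at hpC
    obtain ⟨ι, t, w, z, hw0, hw1, hz, hcm⟩ := hpC
    rw [Finset.centerMass_eq_of_sum_1 _ _ hw1] at hcm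
    have hzx : ∀ i, ∃ x : X, i ∈ t → x ∈ K ∧ A x = z i := by
      intro i
      by_cases hi : i ∈ t
      · obtain ⟨x, hx, hxz⟩ := hz i hi
        exact ⟨x, fun _ => ⟨hx, hxz⟩⟩
      · obtain ⟨x, _⟩ := hn 0 (by simp)
        exact ⟨x, fun h => absurd h hi⟩
    choose g hg using hzx
    have hfib : ∀ q : X → ℝ, ∑ x ∈ t.image g, (∑ i ∈ t with g i = x, w i) * q x =
        ∑ i ∈ t, w i * q (g i) := by
      intro q
      have h2 : ∀ x ∈ t.image g, (∑ i ∈ t with g i = x, w i) * q x =
          ∑ i ∈ t with g i = x, w i * q (g i) := by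
        intro x _
        rw [Finset.sum_mul]
        refine Finset.sum_congr rfl fun i hi => ?_
        rw [(Finset.mem_filter.1 hi).2]
      rw [Finset.sum_congr rfl h2,
        Finset.sum_fiberwise_of_maps_to (fun i hi => Finset.mem_image_of_mem g hi)]
    have hb2 : ∑ x ∈ t.image g, (∑ i ∈ t with g i = x, w i) * b x = p.2 := by
      rw [hfib, ← hcm, Prod.snd_sum]
      refine Finset.sum_congr rfl fun i hi => ?_
      have h1 : b (g i) = (z i).2 := by rw [← (hg i hi).2]
      rw [h1]
      rfl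
    refine ⟨t.image g, fun x => ∑ i ∈ t with g i = x, w i, ?_, ?_, ?_, ?_, ?_⟩
    · intro x hx
      obtain ⟨i, hi, rfl⟩ := Finset.mem_image.1 hx
      exact (hg i hi).1
    · intro x _
      exact Finset.sum_nonneg fun i hi => hw0 i (Finset.mem_filter.1 hi).1
    · rw [Finset.sum_fiberwise_of_maps_to (fun i hi => Finset.mem_image_of_mem g hi), hw1]
    · rw [hb2]
      exact hpD.1
    · intro v
      rw [hb2]
      obtain ⟨y, hy⟩ := hdec v
      have h1 : ∑ x ∈ t.image g, (∑ i ∈ t with g i = x, w i) * ℓ x v = ∑ i, p.1 i * y i := by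
        rw [hfib fun x => ℓ x v]
        have h3 : ∀ i ∈ t, w i * ℓ (g i) v = ∑ j, w i * (z i).1 j * y j := by
          intro i hi
          have h4 : ℓ (g i) v = ℓ (g i) (∑ j, y j • e j) := by
            have h5 := hℓL (g i) (hg i hi).1 _ hy
            rw [map_sub, sub_eq_zero] at h5
            exact h5
          have h6 : a (g i) = (z i).1 := by rw [← (hg i hi).2]
          rw [h4, hla, h6, Finset.mul_sum]
          refine Finset.sum_congr rfl fun j _ => ?_
          ring
        rw [Finset.sum_congr rfl h3, Finset.sum_comm]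
        refine Finset.sum_congr rfl fun j _ => ?_
        rw [← Finset.sum_mul, ← hcm, Prod.fst_sum, Finset.sum_apply]
        rfl
      rw [h1, hBeq v y hy]
      exact hpD.2 y

end Pool.Agent.Lib.DEn
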