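import Pool.Agent.Lib.DEn.Forms
import Pool.Agent.Lib.DEn.Alg
import Pool.Agent.Lib.Psd.AmbC
import Pool.Agent.Lib.Psd.Alg

set_option autoImplicit false
set_option maxSynthPendingDepth 3

/-!
# Bridge to forms on the space of matrices  (1.2 h)

`conn_form`: `Psd.conn_add`, `Psd.a0_conn`, `Psd.pb_basic`, `Psd.dd_conn`, `dB_apply`, `nsq (g 0) = 1`, `hp_frame`. `basic_pb`: `Psd.pb_basic`, `Psd.dd_pb`, and `fderiv ℝ pt z v = tv z v` for `nsq z = 1`, `hp z v = 0` (`Psd.AmbAAux.fderiv_pt`). `exists_mat`: `Psd.ext1`, `Psd.pb_ext1`, `Psd.ext1_smooth` for the constant family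
(`Psd.AmbBAux`), as in `Psd.AmbC`. `cmp_lin`: `dd` is additive (`fderiv` of a sum, `β`, `γ` smooth).
`nd_pf`: if `Pf T = 0` for `T = cmpM (form β) (g 0) (g 1) (g 2)` (skew), then `det T = Pf T ^ 2 = 0` and there is `x ≠ 0` in `ℝ⁴` with `∑ i, x i * T i j = 0` for all `j` (`Matrix.exists_vecMul_eq_zero_iff`). Let `Y = tv (g 0) v`, `v = ∑ i, x i • fr (g 1) (g 2) i` (`tv z` is real linear), `Y ∈ Tan (pt (g 0))` (`Psd.AmbBAux.tv_mem`), `Y ≠ 0` (`tv_zero`, the frame vectors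
are linearly independent). Every `Z ∈ Tan (pt (g 0))` is `tv (g 0) w` with `hp (g 0) w = 0` (`tan_eq`), `w = ∑ y_j fr_j` (`decomp`, the coefficient of `g 0` is zero), so `form β (pt (g 0)) Y Z = ∑ x_i y_j T_ij = 0`, contradicting `NondegM` (`pt (g 0) ∈ CP 2`, see `Psd.AmbC`: `nondeg_amb`).
`form_eq`: `P = pt z`, `nsq z = 1` (`exists_unit`), `z = g 0` (`exists_col`), expand `Y`, `Z` in the frame as above; `fs` has the components `c0` too (`form 0`, `cF_dB_a0`, or `AmbAAux.fs_eq`).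
-/

open MeasureTheory Set Metric Filter
open scoped ContDiff Topology

namespace Pool.Agent.Lib.DEn

open Pool.Agent.P28b04d
open Pool.Agent.Lib.Psd (W hp ON3 fr cmp st asd sd nrm2 Pf Skew Conn Basic dd a0 c0)

open Pool.Agent.Lib.Psd (Mat form fs Tan tv cmpM NondegM pb)

namespace BrMAux

theorem nsq0 {g : X3} (hg : g ∈ U3) : nsq (g 0) = 1 := nsq_col hg 0

/-- bilinear expansion in the frame -/
theorem bil (B : BW) (f : Fin 4 → W) (x y : Fin 4 → ℝ) :
    B (∑ i, x i • f i) (∑ j, y j • f j) = ∑ i, ∑ j, x i * y j * B (f i) (f j) := by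
  have h1 : B (∑ i, x i • f i) = ∑ i, x i • B (f i) := by
    simp only [map_sum, map_smul]
  rw [h1, sum_apply]
  refine Finset.sum_congr rfl fun i _ => ?_
  rw [smul_apply, map_sum, smul_eq_mul, Finset.mul_sum]
  refine Finset.sum_congr rfl fun j _ => ?_
  rw [map_smul, smul_eq_mul]
  ring

theorem hp_lin {g : X3} (hg : g ∈ U3) (x : Fin 4 → ℝ) :
    hp (g 0) (∑ i, x i • fr (g 1) (g 2) i) = 0 := by
  have h1 : ∀ i, hp (g 0) (x i • fr (g 1) (g 2) i) = 0 := by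
    intro i
    have e : x i • fr (g 1) (g 2) i = (x i : ℂ) • fr (g 1) (g 2) i := by
      funext k
      simp only [Pi.smul_apply, Complex.real_smul, smul_eq_mul]
    rw [e, Psd.ConnBAux.hp_smul_right, hp_frame hg i, mul_zero]
  simp only [Fin.sum_univ_four, Psd.hp_add_right, h1, add_zero]

theorem hp_zz {g : X3} (hg : g ∈ U3) : hp (g 0) (g 0) = 1 := by
  have h := hg 0 0
  simpa using h

theorem perp {g : X3} (hg : g ∈ U3) {w : W} (hw : hp (g 0) w = 0) :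
    ∃ y : Fin 4 → ℝ, w = ∑ j, y j • fr (g 1) (g 2) j := by
  obtain ⟨c, y, hy⟩ := decomp hg w
  have h1 : c = 0 := by
    rw [hy, Psd.hp_add_right, Psd.ConnBAux.hp_smul_right, hp_zz hg, hp_lin hg, add_zero,
      mul_one] at hw
    exact hw
  refine ⟨y, ?_⟩
  rw [h1, zero_smul, zero_add] at hy
  exact hy

/-- values of `form β` in terms of the components -/
theorem form_lin {β : Mat → Mat →L[ℝ] ℝ} (hβ : ContDiff ℝ ∞ β) {g : X3} (hg : g ∈ U3)
    (x y : Fin 4 → ℝ) :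
    form β (pt (g 0)) (tv (g 0) (∑ i, x i • fr (g 1) (g 2) i))
        (tv (g 0) (∑ j, y j • fr (g 1) (g 2) j)) =
      ∑ i, ∑ j, x i * y j * cmpM (form β) (g 0) (g 1) (g 2) i j := by
  have h0 := nsq0 hg
  rw [← Psd.dd_conn hβ h0 (hp_lin hg x) (hp_lin hg y), ← dB_apply, bil]
  refine Finset.sum_congr rfl fun i _ => Finset.sum_congr rfl fun j _ => ?_
  rw [dB_apply, Psd.dd_conn hβ h0 (hp_frame hg i) (hp_frame hg j)]
  rfl

theorem exists_ker {T : A4} (hT : Skew T) (hP : Pf T = 0) :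
    ∃ x : Fin 4 → ℝ, x ≠ 0 ∧ ∀ j, ∑ i, x i * T i j = 0 := by
  obtain ⟨⟨e1, e2, e3, e4⟩, ⟨e5, e6, e7⟩, ⟨e8, e9, e10⟩⟩ := Psd.AlgAux.sk hT
  have hP' : T 0 1 * T 2 3 - T 0 2 * T 1 3 + T 0 3 * T 1 2 = 0 := hP
  by_cases h0 : T = 0
  · refine ⟨fun _ => 1, ?_, fun j => ?_⟩
    · intro h
      have := congrFun h 0
      simp at this
    · rw [h0]
      simp
  · have key : ∀ i j, ∑ k, st T i k * T k j = 0 := by
      intro i j
      fin_cases i <;> fin_cases j <;>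
        simp only [st, Fin.sum_univ_four, Fin.zero_eta, Fin.mk_one, Fin.reduceFinMk, Fin.isValue,
          Matrix.cons_val_zero, Matrix.cons_val_one, Matrix.cons_val, e1, e2, e3, e4, e5, e6, e7,
          e8, e9, e10] <;>
        first
          | ring1
          | linear_combination hP'
          | linear_combination -hP'
    by_contra hc
    push Not at hc
    have hrow : ∀ i, st T i = 0 := by
      intro i
      by_contra hi
      obtain ⟨j, hj⟩ := hc (st T i) hi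
      exact hj (key i j)
    apply h0
    have r0 := hrow 0
    have r1 := hrow 1
    have r2 := hrow 2
    have r3 := hrow 3
    have a01 : T 0 1 = 0 := by have := congrFun r2 3; simpa [st] using this
    have a02 : T 0 2 = 0 := by have := congrFun r3 1; simpa [st] using this
    have a03 : T 0 3 = 0 := by have := congrFun r1 2; simpa [st] using this
    have a12 : T 1 2 = 0 := by have := congrFun r0 3; simpa [st] using this
    have a23 : T 2 3 = 0 := by have := congrFun r0 1; simpa [st] using this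
    have a31 : T 3 1 = 0 := by have := congrFun r0 2; simpa [st] using this
    have a13 : T 1 3 = 0 := by rw [e9] at a31; linarith
    funext i j
    fin_cases i <;> fin_cases j <;> simp [e1, e2, e3, e4, e5, e6, e7, e8, e9, e10, a01, a02, a03, a12, a23, a13]

end BrMAux

open BrMAux

theorem conn_form {β : Mat → Mat →L[ℝ] ℝ} (hβ : ContDiff ℝ ∞ β) :
    Conn (fun z => a0 z + pb β z) ∧
      ∀ g ∈ U3, cF (dB fun z => a0 z + pb β z) g = cmpM (form β) (g 0) (g 1) (g 2) := by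
  refine ⟨Psd.conn_add Psd.a0_conn (Psd.pb_basic hβ), fun g hg => ?_⟩
  funext i j
  show dB _ (g 0) (fr (g 1) (g 2) i) (fr (g 1) (g 2) j) = _
  rw [dB_apply]
  exact Psd.dd_conn hβ (nsq0 hg) (hp_frame hg i) (hp_frame hg j)

theorem basic_pb {γ : Mat → Mat →L[ℝ] ℝ} (hγ : ContDiff ℝ ∞ γ) :
    Basic (pb γ) ∧ ∀ g ∈ U3, cF (dB (pb γ)) g = cmpM (dd γ) (g 0) (g 1) (g 2) := by
  refine ⟨Psd.pb_basic hγ, fun g hg => ?_⟩
  funext i j
  show dB _ (g 0) (fr (g 1) (g 2) i) (fr (g 1) (g 2) j) = _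
  rw [dB_apply, Psd.dd_pb hγ (col_ne hg 0), Psd.fderiv_pt (nsq0 hg) (hp_frame hg i),
    Psd.fderiv_pt (nsq0 hg) (hp_frame hg j)]
  rfl

theorem exists_mat {γ : W → W →L[ℝ] ℝ} (h : Basic γ) :
    ∃ γ' : Mat → Mat →L[ℝ] ℝ, ContDiff ℝ ∞ γ' ∧ ∀ z : W, z ≠ 0 → pb γ' z = γ z := by
  set Γ : ℝ × W → W →L[ℝ] ℝ := fun q => γ q.2 with hΓ
  have hΓs : ContDiffOn ℝ ∞ Γ (univ ×ˢ {0}ᶜ) :=
    h.smooth.comp contDiffOn_snd fun q hq => hq.2
  have hb : ∀ t, Basic (fun z => Γ (t, z)) := fun _ => h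
  have hs := Psd.ext1_smooth hΓs
  exact ⟨fun P => Psd.ext1 Γ (0, P), hs.comp (contDiff_const.prodMk contDiff_id),
    fun z hz => Psd.pb_ext1 hb 0 hz⟩

theorem cmp_lin {β γ : Mat → Mat →L[ℝ] ℝ} (hβ : ContDiff ℝ ∞ β) (hγ : ContDiff ℝ ∞ γ) (t : ℝ) (z u v : W) :
    cmpM (form fun P => β P + t • γ P) z u v = cmpM (form β) z u v + t • cmpM (dd γ) z u v := by
  have hb : DifferentiableAt ℝ β (pt z) := hβ.differentiable (by simp) _
  have hc : DifferentiableAt ℝ γ (pt z) := hγ.differentiable (by simp) _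
  have e : fderiv ℝ (fun P => β P + t • γ P) (pt z) = fderiv ℝ β (pt z) + t • fderiv ℝ γ (pt z) := by
    exact (hb.hasFDerivAt.add (hc.hasFDerivAt.const_smul t)).fderiv
  funext i j
  simp only [cmpM, form, dd, Pi.add_apply, Pi.smul_apply, smul_eq_mul, e, add_apply, smul_apply]
  ring

theorem nd_pf {β : Mat → Mat →L[ℝ] ℝ} (hβ : ContDiff ℝ ∞ β) (hn : NondegM (form β)) :
    ∀ g ∈ U3, Pf (cmpM (form β) (g 0) (g 1) (g 2)) ≠ 0 := by
  intro g hg hP
  have h0 := nsq0 hg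
  have hsk : Skew (cmpM (form β) (g 0) (g 1) (g 2)) := by
    rw [← (conn_form hβ).2 g hg]
    intro i j
    show dB _ (g 0) _ _ = -dB _ (g 0) _ _
    rw [dB_apply, dB_apply, Psd.dd_skew]
  obtain ⟨x, hx0, hx⟩ := exists_ker hsk hP
  set v : W := ∑ i, x i • fr (g 1) (g 2) i with hv
  have hv0 : hp (g 0) v = 0 := hp_lin hg x
  have hY : tv (g 0) v = 0 := by
    refine hn _ (pt_mem (col_ne hg 0)) _ (Psd.tv_mem h0 hv0) fun Z hZ => ?_
    obtain ⟨w, hw, rfl⟩ := Psd.tan_eq h0 hZ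
    obtain ⟨y, rfl⟩ := perp hg hw
    rw [hv, form_lin hβ hg, Finset.sum_comm]
    refine Finset.sum_eq_zero fun j _ => ?_
    have := hx j
    calc ∑ i, x i * y j * cmpM (form β) (g 0) (g 1) (g 2) i j
        = y j * ∑ i, x i * cmpM (form β) (g 0) (g 1) (g 2) i j := by
          rw [Finset.mul_sum]
          exact Finset.sum_congr rfl fun i _ => by ring
      _ = 0 := by rw [this, mul_zero]
  have hv00 : v = 0 := Psd.tv_zero h0 hv0 hY
  apply hx0
  refine Psd.nd_of_Pf Psd.c0_facts.1 (by rw [Psd.c0_facts.2.2.2.2]; norm_num) fun j => ?_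
  have h1 : dB a0 (g 0) v (fr (g 1) (g 2) j) = 0 := by rw [hv00, map_zero]; rfl
  have h2 : dB a0 (g 0) v (fr (g 1) (g 2) j) = ∑ i, x i * c0 i j := by
    rw [hv]
    simp only [map_sum, map_smul, sum_apply, smul_apply, smul_eq_mul]
    refine Finset.sum_congr rfl fun i _ => ?_
    rw [← cF_dB_a0 hg]
    rfl
  rw [← h2, h1]

theorem form_eq {β : Mat → Mat →L[ℝ] ℝ} (hβ : ContDiff ℝ ∞ β)
    (h : ∀ g ∈ U3, cmpM (form β) (g 0) (g 1) (g 2) = c0) :
    ∀ P ∈ CP 2, ∀ Y ∈ Tan P, ∀ Z ∈ Tan P, form β P Y Z = fs P Y Z := by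
  intro P hP Y hY Z hZ
  obtain ⟨z, hz, rfl⟩ := Psd.exists_unit hP
  obtain ⟨g, hg, rfl⟩ := exists_col hz
  obtain ⟨v, hv, rfl⟩ := Psd.tan_eq hz hY
  obtain ⟨w, hw, rfl⟩ := Psd.tan_eq hz hZ
  have h1 : fs (pt (g 0)) (tv (g 0) v) (tv (g 0) w) = dB a0 (g 0) v w := by
    rw [dB_apply, Psd.dd_a0 (col_ne hg 0) hv hw, hz, div_one, Psd.AmbAAux.fs_eq hz hv hw]
  rw [h1]
  obtain ⟨x, rfl⟩ := perp hg hv
  obtain ⟨y, rfl⟩ := perp hg hw
  rw [form_lin hβ hg, bil, h g hg]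
  refine Finset.sum_congr rfl fun i _ => Finset.sum_congr rfl fun j _ => ?_
  rw [← cF_dB_a0 hg]
  rfl

end Pool.Agent.Lib.DEn
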