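import Pool.Agent.Lib.DEn.TestF
import Pool.Agent.Lib.DEn.Stokes
import Pool.Agent.Lib.DEn.Pos

set_option autoImplicit false
set_option maxSynthPendingDepth 3

/-!
# Weakly closed smooth forms are closed  (0.8 h)

Take `γ` of `exists_test`. `0 = ∫ wd (cF (dB γ)) (cF τ) = ∫ ∑_j (c1 γ g j)^2` (`stokes`), a continuous nonnegative function on `U3` with zero integral, so `xi τ g = 0` for all `g ∈ U3` (`Pos.eq_zero_of_int`). `cl_of_xi`: let `z ≠ 0`; by `d3_hom` (with `c⁻¹ = sqrt (nsq z)`) we may take `nsq z = 1`, `z = g 0` with `g ∈ U3`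
(`exists_col`). `d3 τ z` is trilinear and alternating (`fderiv ℝ τ z a` is skew: differentiate `HF.skew`) and vanishes if one argument is a complex multiple of `z` (`d3_hor`); decompose the arguments (`decomp`) and use that `d3 τ z (f i) (f j) (f k)` is zero if two indices agree and otherwise `±` an entry of `xi`.
-/

open MeasureTheory Set Metric Filter
open scoped ContDiff Topology

namespace Pool.Agent.Lib.DEn

open Pool.Agent.P28b04d
open Pool.Agent.Lib.Psd (W hp ON3 fr cmp st asd sd nrm2 Pf Skew Conn Basic dd a0 c0)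

namespace ClWAux

theorem d3_cyc (τ : W → BW) (z a b c : W) : d3 τ z a b c = d3 τ z b c a := by
  unfold d3
  ring

theorem d3_add (τ : W → BW) (z a a' b c : W) :
    d3 τ z (a + a') b c = d3 τ z a b c + d3 τ z a' b c := by
  unfold d3
  simp only [map_add, add_apply]
  ring

theorem d3_smul (τ : W → BW) (z : W) (r : ℝ) (a b c : W) :
    d3 τ z (r • a) b c = r * d3 τ z a b c := by
  unfold d3
  simp only [map_smul, smul_apply, smul_eq_mul]
  ring

theorem fd_skew {τ : W → BW} (hτ : HF τ) {z : W} (hz : z ≠ 0) (a b c : W) :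
    fderiv ℝ τ z a b c = -fderiv ℝ τ z a c b := by
  have hd : DifferentiableAt ℝ τ z :=
    (hτ.smooth.contDiffAt (isOpen_compl_singleton.mem_nhds hz)).differentiableAt (by simp)
  have h1 : HasFDerivAt (fun x => τ x b c)
      (((ContinuousLinearMap.apply ℝ ℝ c).comp (ContinuousLinearMap.apply ℝ (W →L[ℝ] ℝ) b)).comp
        (fderiv ℝ τ z)) z :=
    ((ContinuousLinearMap.apply ℝ ℝ c).comp
      (ContinuousLinearMap.apply ℝ (W →L[ℝ] ℝ) b)).hasFDerivAt.comp z hd.hasFDerivAt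
  have h2 : HasFDerivAt (fun x => -τ x c b)
      (-(((ContinuousLinearMap.apply ℝ ℝ b).comp (ContinuousLinearMap.apply ℝ (W →L[ℝ] ℝ) c)).comp
        (fderiv ℝ τ z))) z :=
    (((ContinuousLinearMap.apply ℝ ℝ b).comp
      (ContinuousLinearMap.apply ℝ (W →L[ℝ] ℝ) c)).hasFDerivAt.comp z hd.hasFDerivAt).neg
  have h3 : (fun x => τ x b c) =ᶠ[𝓝 z] fun x => -τ x c b := by
    filter_upwards [isOpen_compl_singleton.mem_nhds hz] with x hx
    exact hτ.skew x hx b c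
  have h4 := (h1.congr_of_eventuallyEq h3.symm).unique h2
  have h5 := congrArg (fun L : W →L[ℝ] ℝ => L a) h4
  simpa using h5

theorem d3_skew {τ : W → BW} (hτ : HF τ) {z : W} (hz : z ≠ 0) (a b c : W) :
    d3 τ z a b c = -d3 τ z b a c := by
  unfold d3
  rw [fd_skew hτ hz a b c, fd_skew hτ hz b c a, fd_skew hτ hz c a b]
  ring

/-- a trilinear alternating function that vanishes on the first vector and on the frame vanishes -/
theorem fin_zero (B : Fin 4 → Fin 4 → Fin 4 → ℝ) (hc : ∀ i j k, B i j k = B j k i)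
    (hs : ∀ i j k, B i j k = -B j i k) (h0 : B 1 2 3 = 0) (h1 : B 0 2 3 = 0) (h2 : B 0 1 3 = 0)
    (h3 : B 0 1 2 = 0) (i j k : Fin 4) : B i j k = 0 := by
  have a1 := hc i j k
  have a2 := hc j k i
  have a3 := hs i j k
  have a4 := hs j k i
  have a5 := hs k i j
  have a6 := hc j i k
  have a7 := hc i k j
  fin_cases i <;> fin_cases j <;> fin_cases k <;>
    simp only [Fin.zero_eta, Fin.mk_one, Fin.reduceFinMk, Fin.isValue] at * <;> linarith

theorem lin_zero (F : W → ℝ) (ha : ∀ x y, F (x + y) = F x + F y) (hm : ∀ (r : ℝ) x, F (r • x) = r * F x)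
    {g : X3} (hg : g ∈ U3) (h0 : ∀ c : ℂ, F (c • g 0) = 0) (h1 : ∀ i, F (fr (g 1) (g 2) i) = 0)
    (y : W) : F y = 0 := by
  obtain ⟨c, x, hy⟩ := decomp hg y
  rw [hy, Fin.sum_univ_four]
  simp only [ha, hm, h0, h1]
  ring

end ClWAux

open ClWAux in
theorem cl_of_xi {τ : W → BW} (hτ : HF τ) (h : ∀ g ∈ U3, ∀ j, xi τ g j = 0) : Cl τ := by
  intro z hz a b c
  obtain ⟨s, hs, hs1⟩ := Psd.AmbBAux.exists_scale hz
  obtain ⟨g, hg, hg0⟩ := exists_col hs1
  rw [← d3_hom hτ hs hz a b c, ← hg0]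
  have hz' : g 0 ≠ 0 := col_ne hg 0
  have e0 : d3 τ (g 0) (fr (g 1) (g 2) 1) (fr (g 1) (g 2) 2) (fr (g 1) (g 2) 3) = 0 := h g hg 0
  have e1 : -d3 τ (g 0) (fr (g 1) (g 2) 0) (fr (g 1) (g 2) 2) (fr (g 1) (g 2) 3) = 0 := h g hg 1
  have e2 : d3 τ (g 0) (fr (g 1) (g 2) 0) (fr (g 1) (g 2) 1) (fr (g 1) (g 2) 3) = 0 := h g hg 2
  have e3 : -d3 τ (g 0) (fr (g 1) (g 2) 0) (fr (g 1) (g 2) 1) (fr (g 1) (g 2) 2) = 0 := h g hg 3
  have hB : ∀ i j k, d3 τ (g 0) (fr (g 1) (g 2) i) (fr (g 1) (g 2) j) (fr (g 1) (g 2) k) = 0 :=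
    fin_zero (fun i j k => d3 τ (g 0) (fr (g 1) (g 2) i) (fr (g 1) (g 2) j) (fr (g 1) (g 2) k))
      (fun i j k => d3_cyc τ _ _ _ _) (fun i j k => d3_skew hτ hz' _ _ _) e0 (neg_eq_zero.1 e1) e2
      (neg_eq_zero.1 e3)
  have hH : ∀ (t : ℂ) (x y : W), d3 τ (g 0) (t • g 0) x y = 0 := by
    intro t x y
    rw [d3_cyc]
    exact d3_hor hτ hz' t x y
  have s1 : ∀ (y : W) j k, d3 τ (g 0) y (fr (g 1) (g 2) j) (fr (g 1) (g 2) k) = 0 := fun y j k =>
    lin_zero (fun y => d3 τ (g 0) y (fr (g 1) (g 2) j) (fr (g 1) (g 2) k))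
      (fun x y => d3_add τ _ _ _ _ _) (fun r x => d3_smul τ _ _ _ _ _) hg (fun t => hH t _ _)
      (fun i => hB i j k) y
  have s2 : ∀ (y y' : W) k, d3 τ (g 0) y y' (fr (g 1) (g 2) k) = 0 := fun y y' k =>
    lin_zero (fun x => d3 τ (g 0) x y' (fr (g 1) (g 2) k))
      (fun x y => d3_add τ _ _ _ _ _) (fun r x => d3_smul τ _ _ _ _ _) hg (fun t => hH t _ _)
      (fun i => by
        show d3 τ (g 0) (fr (g 1) (g 2) i) y' (fr (g 1) (g 2) k) = 0
        rw [d3_cyc]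
        exact s1 y' k i) y
  exact lin_zero (fun x => d3 τ (g 0) x (s • b) (s • c))
    (fun x y => d3_add τ _ _ _ _ _) (fun r x => d3_smul τ _ _ _ _ _) hg (fun t => hH t _ _)
    (fun i => by
      show d3 τ (g 0) (fr (g 1) (g 2) i) (s • b) (s • c) = 0
      rw [d3_cyc]
      exact s2 _ _ i) (s • a)

theorem cl_of_wk {ν : Measure X3} (hν : Ha ν) {τ : W → BW} (hτ : HF τ) (hw : Wk ν τ) : Cl τ := by
  obtain ⟨γ, hγ, hx⟩ := exists_test hτ
  refine cl_of_xi hτ fun g hg j => ?_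
  have h1 : ∫ g, ∑ j, c1 γ g j ^ 2 ∂ν = 0 := by
    rw [← hw γ hγ, stokes hν hγ hτ]
    refine integral_congr_u hν fun x hxU => Finset.sum_congr rfl fun j _ => ?_
    rw [hx x hxU j]
    ring
  have hc : ContinuousOn (fun x : X3 => ∑ j, c1 γ x j ^ 2) U3 := by
    refine continuousOn_finsetSum _ fun j _ => ContinuousOn.pow (fun x hxU => ?_) 2
    exact (smooth_c1 hγ hxU j).continuousAt.continuousWithinAt
  have h2 := eq_zero_of_int hν hc (fun x _ => Finset.sum_nonneg fun j _ => sq_nonneg _) h1 g hg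
  have h3 := (Finset.sum_eq_zero_iff_of_nonneg fun j _ => sq_nonneg _).1 h2 j (Finset.mem_univ j)
  rw [← hx g hg j]
  exact pow_eq_zero_iff (two_ne_zero) |>.1 h3

end Pool.Agent.Lib.DEn
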