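import Pool.Agent.Lib.Psd.AmbD
import Pool.Agent.Lib.P28u.Defs2

set_option autoImplicit false
set_option maxSynthPendingDepth 3

/-!
# Donaldson's energy on the symplectic forms of the projective plane: definitions

`W = ℂ³`, `X3`: complex `3 × 3` matrices by columns, `Un 2` the unitary ones, `Haar ν`: invariant probability measures. A unitary matrix `g` is the frame
`fr (g 1) (g 2) = (g 1, i g 1, g 2, i g 2)` at the point `[g 0]` of `ℂP²`. Two-forms on `ℂP²` are horizontal homogeneous two-forms `τ : W → BW` on `W - 0` (`HF`), `cF τ g` are the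
components in the frame `g`; one-forms are `Basic` forms, with components `c1 γ g`. `dB γ` is the exterior derivative of a one-form, `d3 τ` the exterior derivative of a two-form, `xi` its
components. `wd A B` is the wedge product of the components, `ip` the inner product (sum over `i < j`), `st` (library) the Hodge star, `sg T` the distortion
`(|T⁺|² + |T⁻|²) / (|T⁺|² - |T⁻|²)` and `th T` its gradient. `Wk ν τ`: weakly closed. `pl h τ` is the pull-back by the linear map `h`. `kN`, `cN`, `Cv`: kernel, its integral, convolution.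
-/

open MeasureTheory Set Metric
open scoped ContDiff Topology

namespace Pool.Agent.Lib.DEn

open Pool.Agent.P28b04d
open Pool.Agent.Lib.Psd (W hp ON3 fr cmp st asd sd nrm2 Pf Skew Conn Basic dd a0 c0)

/-- Real bilinear forms on `W`. -/
abbrev BW : Type := W →L[ℝ] W →L[ℝ] ℝ

/-- Components. -/
abbrev A4 : Type := Fin 4 → Fin 4 → ℝ

/-- Matrices, by columns. -/
abbrev X3 : Type := Fin 3 → W

/-- The product of the matrix `g` and the vector `z`. -/
noncomputable def mv (g : X3) (z : W) : W := ∑ j, z j • g j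

/-- The product of the matrix `g` and the vector `z`, as a linear map. -/
noncomputable def mvL (g : X3) : W →L[ℝ] W :=
  ∑ j, (((ContinuousLinearMap.proj (R := ℂ) (φ := fun _ : Fin 3 => ℂ) j).smulRight (g j)) :
    W →L[ℂ] W).restrictScalars ℝ

/-- The product of matrices. -/
noncomputable def mm (g X : X3) : X3 := fun j => mv g (X j)

/-- The identity matrix. -/
noncomputable def id3 : X3 := fun j => Pi.single j 1

/-- Unitary matrices. -/
def U3 : Set X3 := {g | ∀ j k, hp (g j) (g k) = if j = k then 1 else 0}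

/-- Right invariant probability measures on the unitary matrices. -/
structure Ha (ν : Measure X3) : Prop where
  prob : IsProbabilityMeasure ν
  supp : ν U3ᶜ = 0
  inv : ∀ k ∈ U3, ν.map (fun g => mm g k) = ν

/-- Exterior derivative of a one-form on `W`. -/
noncomputable def dB (γ : W → W →L[ℝ] ℝ) (z : W) : BW := fderiv ℝ γ z - (fderiv ℝ γ z).flip

/-- Pull-backs of two-forms on `ℂP²` to `W - 0`. -/
structure HF (τ : W → BW) : Prop where
  smooth : ContDiffOn ℝ ∞ τ {0}ᶜ
  skew : ∀ z : W, z ≠ 0 → ∀ v w : W, τ z v w = -τ z w v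
  hom : ∀ c : ℂ, c ≠ 0 → ∀ z : W, z ≠ 0 → ∀ v w : W, τ (c • z) (c • v) (c • w) = τ z v w
  hor : ∀ z : W, z ≠ 0 → ∀ (c : ℂ) (w : W), τ z (c • z) w = 0

/-- Components of a two-form in the frame `g`. -/
noncomputable def cF (τ : W → BW) (g : X3) : A4 := fun i j => τ (g 0) (fr (g 1) (g 2) i) (fr (g 1) (g 2) j)

/-- Components of a one-form in the frame `g`. -/
noncomputable def c1 (γ : W → W →L[ℝ] ℝ) (g : X3) (i : Fin 4) : ℝ := γ (g 0) (fr (g 1) (g 2) i)

/-- Wedge product of two-forms on `ℝ⁴`. -/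
def wd (A B : A4) : ℝ :=
  A 0 1 * B 2 3 + A 2 3 * B 0 1 - A 0 2 * B 1 3 - A 1 3 * B 0 2 + A 0 3 * B 1 2 + A 1 2 * B 0 3

/-- Inner product of two-forms on `ℝ⁴`. -/
noncomputable def ip (A B : A4) : ℝ := (∑ i, ∑ j, A i j * B i j) / 2

/-- Exterior derivative of a two-form on `W`. -/
noncomputable def d3 (τ : W → BW) (z a b c : W) : ℝ :=
  fderiv ℝ τ z a b c + fderiv ℝ τ z b c a + fderiv ℝ τ z c a b

/-- Closed two-forms. -/
def Cl (τ : W → BW) : Prop := ∀ z : W, z ≠ 0 → ∀ a b c : W, d3 τ z a b c = 0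

/-- Components of the exterior derivative in the frame `g`. -/
noncomputable def xi (τ : W → BW) (g : X3) : Fin 4 → ℝ :=
  ![d3 τ (g 0) (fr (g 1) (g 2) 1) (fr (g 1) (g 2) 2) (fr (g 1) (g 2) 3),
    -d3 τ (g 0) (fr (g 1) (g 2) 0) (fr (g 1) (g 2) 2) (fr (g 1) (g 2) 3),
    d3 τ (g 0) (fr (g 1) (g 2) 0) (fr (g 1) (g 2) 1) (fr (g 1) (g 2) 3),
    -d3 τ (g 0) (fr (g 1) (g 2) 0) (fr (g 1) (g 2) 1) (fr (g 1) (g 2) 2)]

/-- Weakly closed two-forms. -/
def Wk (ν : Measure X3) (τ : W → BW) : Prop :=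
  ∀ γ : W → W →L[ℝ] ℝ, Basic γ → ∫ g, wd (cF (dB γ) g) (cF τ g) ∂ν = 0

/-- Pull-back of a two-form by a linear map. -/
noncomputable def pl (h : X3) (τ : W → BW) (z : W) : BW :=
  ((τ (mv h z)).flip.comp (mvL h)).flip.comp (mvL h)

/-- Pull-back of a one-form by a linear map. -/
noncomputable def pl1 (h : X3) (γ : W → W →L[ℝ] ℝ) (z : W) : W →L[ℝ] ℝ := (γ (mv h z)).comp (mvL h)

/-- The kernel `((3 + Re tr (g* h)) / 6) ^ N`. -/
noncomputable def kN (N : ℕ) (g h : X3) : ℝ := ((3 + (∑ j, hp (g j) (h j)).re) / 6) ^ N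

/-- The integral of the kernel. -/
noncomputable def cN (ν : Measure X3) (N : ℕ) : ℝ := ∫ h, kN N id3 h ∂ν

/-- Convolution with the kernel. -/
noncomputable def Cv (ν : Measure X3) (N : ℕ) (f : X3 → ℝ) (g : X3) : ℝ :=
  (cN ν N)⁻¹ * ∫ h, kN N g h * f h ∂ν

/-- Convolution, entry by entry. -/
noncomputable def C4 (ν : Measure X3) (N : ℕ) (F : X3 → A4) (g : X3) : A4 :=
  fun i j => Cv ν N (fun h => F h i j) g

/-- The distortion of a two-form. -/
noncomputable def sg (T : A4) : ℝ := nrm2 T / (4 * Pf T)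

/-- The gradient of the distortion. -/
noncomputable def th (T : A4) : A4 := fun i j => (st T i j - sg T * T i j) / Pf T

/-- Forms that are continuous on the unitary matrices, entry by entry. -/
def CtU (F : X3 → A4) : Prop := ∀ i j, ContinuousOn (fun g => F g i j) U3

theorem dB_apply (γ : W → W →L[ℝ] ℝ) (z v w : W) : dB γ z v w = dd γ z v w := by
  simp only [dB, dd, sub_apply, ContinuousLinearMap.flip_apply]

theorem mvL_apply (g : X3) (z : W) : mvL g z = mv g z := by
  simp [mvL, mv]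

theorem pl_apply (h : X3) (τ : W → BW) (z v w : W) :
    pl h τ z v w = τ (mv h z) (mv h v) (mv h w) := by
  simp only [pl, ContinuousLinearMap.comp_apply, ContinuousLinearMap.flip_apply, mvL_apply]

theorem pl1_apply (h : X3) (γ : W → W →L[ℝ] ℝ) (z v : W) : pl1 h γ z v = γ (mv h z) (mv h v) := by
  simp only [pl1, ContinuousLinearMap.comp_apply, mvL_apply]

end Pool.Agent.Lib.DEn
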