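import Pool.Agent.Lib.DEn.DefsG

set_option autoImplicit false
set_option maxSynthPendingDepth 3

/-!
# Concentrated densities on the projective plane

For a unitary `k`, `pk k z = |<k 0, z>|² / |z|²` is a function on the projective plane with values in `[0, 1]`, equal to `1` only at the point of `k 0`. `muW ν L s w` is the combination with weights `w` of the probability densities proportional to
`pk k ^ L`, `k ∈ s`; as `L` grows it concentrates at the points of `k 0`, `k ∈ s`.
-/

open MeasureTheory Set Metric
open scoped ContDiff Topology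

namespace Pool.Agent.Lib.DEn

open Pool.Agent.P28b04d
open Pool.Agent.Lib.Psd (W hp ON3 fr cmp st asd sd nrm2 Pf Skew Conn Basic dd a0 c0)

/-- `|<k 0, z>|² / |z|²` -/
noncomputable def pk (k : X3) (z : W) : ℝ := Complex.normSq (hp (k 0) z) / nsq z

/-- Combinations of densities concentrated at the points of `k 0`, `k ∈ s`. -/
noncomputable def muW (ν : Measure X3) (L : ℕ) (s : Finset X3) (w : X3 → ℝ) (z : W) : ℝ :=
  ∑ k ∈ s, w k * (pk k z ^ L / ∫ g, pk k (g 0) ^ L ∂ν)

end Pool.Agent.Lib.DEn
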