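import Pool.Agent.Lib.DEn.DefsG

set_option autoImplicit false
set_option maxSynthPendingDepth 3

/-!
# The distortion of a symplectic form for a Riemannian metric on the projective plane: definitions

`Ten`: fields of bilinear forms on the space of matrices; `Riem m`: `m` restricts to a Riemannian metric on `ℂP²`; `frm m g` is its Gram matrix in the frame `g` at the point `pt (g 0)`. `OneF`: one-forms; `Symp β`: `w = fs + dβ` is symplectic on `ℂP²`.
`dis m β g` is the distortion `s = |w|² / (w ∧ w)` of `w` for the metric `m` at the point `pt (g 0)`, `vol m β g` the ratio `u` of the volume form `w ∧ w / 2` and the volume form of `m`, `exc m β g` the quotient `(s² - 1) / u`, `intM ν m` the integral with respect to the volume of `m`,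
`Ene ν m β` Donaldson's energy `∫ (s + 1)` and `fsm` the Fubini-Study metric. `Rate`, `Slope`, `Grad`: the distortion decreases at a prescribed rate, the maximum of the distortion has a slope, the gradient inequality, each with constant `C`.
-/

open MeasureTheory Set Metric
open scoped ContDiff Topology

namespace Pool.Agent.Lib.DEn

open Pool.Agent.P28b04d
open Pool.Agent.Lib.Psd (W hp ON3 fr cmp st asd sd nrm2 Pf Skew Conn Basic dd a0 c0 Mat form fs Tan tv cmpM NondegM pb)

/-- One-forms on the space of matrices. -/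
abbrev OneF : Type := Mat → Mat →L[ℝ] ℝ

/-- Fields of bilinear forms on the space of matrices. -/
abbrev Ten : Type := Mat → Mat → Mat → ℝ

/-- Riemannian metrics on `ℂP²`: smooth fields of symmetric bilinear forms, positive definite on the tangent spaces of `ℂP²`. -/
structure Riem (m : Ten) : Prop where
  smooth : ∀ Y Z : Mat, ContDiff ℝ ∞ fun P => m P Y Z
  add : ∀ P Y Y' Z : Mat, m P (Y + Y') Z = m P Y Z + m P Y' Z
  smul : ∀ (P Y Z : Mat) (a : ℝ), m P (a • Y) Z = a * m P Y Z
  symm : ∀ P Y Z : Mat, m P Y Z = m P Z Y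
  pos : ∀ P ∈ CP 2, ∀ Y ∈ Tan P, Y ≠ 0 → 0 < m P Y Y

/-- The Fubini-Study metric: half of the real inner product of matrices. -/
noncomputable def fsm : Ten := fun _ Y Z =>
  (∑ i, ∑ j, ((Y i j).re * (Z i j).re + (Y i j).im * (Z i j).im)) / 2

/-- Smooth one-forms. -/
def Sm (β : OneF) : Prop := ContDiff ℝ ∞ β

/-- `β` is smooth and `fs + dβ` is a symplectic form on `ℂP²`. -/
def Symp (β : OneF) : Prop := Sm β ∧ NondegM (form β)

/-- The one-form `β + t γ`. -/
noncomputable def add1 (β γ : OneF) (t : ℝ) : OneF := fun P => β P + t • γ P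

/-- The distortion `|w|² / (w ∧ w)` of `w = fs + dβ` for the metric `m`, at the point `pt (g 0)`. -/
noncomputable def dis (m : Ten) (β : OneF) (g : X3) : ℝ := disM (frm m g) (frm (form β) g)

/-- The ratio of the volume forms of `w = fs + dβ` and of the metric `m`, at the point `pt (g 0)`. -/
noncomputable def vol (m : Ten) (β : OneF) (g : X3) : ℝ := Pf (frm (form β) g) / vM (frm m g)

/-- The function `(s² - 1) / u`, for the distortion `s` and the volume ratio `u`. -/
noncomputable def exc (m : Ten) (β : OneF) (g : X3) : ℝ := (dis m β g ^ 2 - 1) / vol m β g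

/-- The integral over `ℂP²` with respect to the volume of the metric `m`. -/
noncomputable def intM (ν : Measure X3) (m : Ten) (f : X3 → ℝ) : ℝ := ∫ g, f g * vM (frm m g) ∂ν

/-- Donaldson's energy of the form `fs + dβ` for the metric `m`: the integral of `s + 1`. -/
noncomputable def Ene (ν : Measure X3) (m : Ten) (β : OneF) : ℝ := intM ν m fun g => dis m β g + 1

/-- The differential at `fs + dβ` of the energy of the metric `m` has norm at most `G`. -/
def DEne (ν : Measure X3) (m : Ten) (β : OneF) (G : ℝ) : Prop :=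
  ∀ γ : OneF, Sm γ → |deriv (fun t : ℝ => Ene ν m (add1 β γ t)) 0| ≤ G * nL2 ν γ

/-- The derivative at `fs + dβ` of the energy of the metric `m` vanishes. -/
def Crit (ν : Measure X3) (m : Ten) (β : OneF) : Prop :=
  ∀ γ : OneF, Sm γ → HasDerivAt (fun t : ℝ => Ene ν m (add1 β γ t)) 0 0

/-- The energy of the metric `m` is differentiable at `fs + dβ` in all directions. -/
def Diffb (ν : Measure X3) (m : Ten) (β : OneF) : Prop :=
  ∀ γ : OneF, Sm γ → DifferentiableAt ℝ (fun t : ℝ => Ene ν m (add1 β γ t)) 0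

/-- The distortion decreases at any rate proportional to `(s² - 1) / u`: for continuous `η ≥ 0` and `δ > 0` there is a one-form `γ` with `|dγ|² ≤ C S ∫ η² (s² - 1) / u + δ` such that the derivative of
the distortion of `w + t dγ` at `t = 0` is at most `- η (s² - 1) / u` at every point where `s ≥ 1 + δ`. -/
def Rate (ν : Measure X3) (m : Ten) (C S : ℝ) (β : OneF) : Prop :=
  ∀ η : Mat → ℝ, ContinuousOn η (CP 2) → (∀ P ∈ CP 2, 0 ≤ η P) → ∀ δ : ℝ, 0 < δ →
    ∃ γ : OneF, Sm γ ∧ nL2 ν γ ^ 2 ≤ C * S * intM ν m (fun g => η (pt (g 0)) ^ 2 * exc m β g) + δ ∧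
      ∀ g ∈ U3, 1 + δ ≤ dis m β g → ∃ r : ℝ, HasDerivAt (fun t : ℝ => dis m (add1 β γ t) g) r 0 ∧
        r ≤ -(η (pt (g 0)) * exc m β g)

/-- The maximum of the distortion has a slope: if `4 C S c² < S² - 1` there is a one-form `γ` with `|dγ| ≤ 1` such that `w + t dγ` is symplectic with distortion at most `S - c t` for all small `t ≥ 0`. -/
def Slope (ν : Measure X3) (m : Ten) (C S : ℝ) (β : OneF) : Prop :=
  ∀ c : ℝ, 0 ≤ c → 4 * C * S * c ^ 2 < S ^ 2 - 1 → ∃ γ : OneF, Sm γ ∧ nL2 ν γ ≤ 1 ∧
    ∃ t₀ : ℝ, 0 < t₀ ∧ ∀ t : ℝ, 0 ≤ t → t ≤ t₀ → Symp (add1 β γ t) ∧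
      ∀ g ∈ U3, dis m (add1 β γ t) g ≤ S - c * t

/-- The gradient inequality: if the differential of the energy at `w` has norm at most `G`, then `∫ (s² - 1) / u ≤ C S G²`, `∫ (s - 1) ≤ 2 √(C S (S - 1) / (S + 1)) G`, and `∫ (s - 1) ≤ C S U G² / 2` if `u ≤ U`. -/
def Grad (ν : Measure X3) (m : Ten) (C S : ℝ) (β : OneF) : Prop :=
  ∀ G : ℝ, 0 ≤ G → DEne ν m β G → intM ν m (exc m β) ≤ C * S * G ^ 2 ∧
    intM ν m (fun g => dis m β g - 1) ≤ 2 * Real.sqrt (C * (S * (S - 1) / (S + 1))) * G ∧
    ∀ U : ℝ, (∀ g ∈ U3, vol m β g ≤ U) → intM ν m (fun g => dis m β g - 1) ≤ C * S * U * G ^ 2 / 2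

/-- No almost critical points, with constant `C`. -/
def NoCrit (ν : Measure X3) (m : Ten) (C : ℝ) : Prop :=
  ∀ β : OneF, Symp β → ∀ S : ℝ, (∀ g ∈ U3, dis m β g ≤ S) →
    Diffb ν m β ∧ Rate ν m C S β ∧ Slope ν m C S β ∧ Grad ν m C S β

end Pool.Agent.Lib.DEn
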