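import Pool.Agent.Lib.DEn.DefsM

set_option autoImplicit false
set_option maxSynthPendingDepth 3

/-!
# Donaldson's energy for an arbitrary Riemannian metric: definitions

`M` is the Gram matrix of an inner product on `ℝ⁴`. `kap M T = M (st T) M` is the Hodge star of `T` for this inner product times the volume density `vM M = √(det M)`, `fM M T` is the distortion times the volume density and `tM M T` its gradient. `HS μ`: `μ` is the pull-back to `W - 0` of a
Riemannian metric on `ℂP²`. `Met m`: `m` is a Riemannian metric on `ℂP²`, `gram m g` its Gram matrix in the frame `g`.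
`nrmM M T` is the square of the norm of the two-form `T`, `densM M T` Donaldson's energy density times the volume density.
-/

open MeasureTheory Set Metric
open scoped ContDiff Topology

namespace Pool.Agent.Lib.DEn

open Pool.Agent.P28b04d
open Pool.Agent.Lib.Psd (W hp ON3 fr cmp st asd sd nrm2 Pf Skew Conn Basic dd a0 c0 Mat form fs Tan tv cmpM NondegM pb)

/-- The product `M X M`. -/
def cg (M X : A4) : A4 := fun i j => ∑ k, ∑ l, M i k * X k l * M l j

/-- The Hodge star times the volume density. -/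
noncomputable def kap (M T : A4) : A4 := cg M (st T)

/-- The distortion times the volume density. -/
noncomputable def fM (M T : A4) : ℝ := wd T (kap M T) / (2 * Pf T)

/-- The gradient of `fM`. -/
noncomputable def tM (M T : A4) : A4 := (Pf T)⁻¹ • kap M T - (wd T (kap M T) / (2 * Pf T ^ 2)) • T

/-- The volume density. -/
noncomputable def vM (M : A4) : ℝ := Real.sqrt (Matrix.det (Matrix.of M))

/-- Gram matrices of inner products. -/
def PD (M : A4) : Prop :=
  (∀ i j, M i j = M j i) ∧ ∀ x : Fin 4 → ℝ, x ≠ 0 → 0 < ∑ i, ∑ j, x i * M i j * x j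

/-- Pull-backs of Riemannian metrics on `ℂP²` to `W - 0`. -/
structure HS (μ : W → BW) : Prop where
  smooth : ContDiffOn ℝ ∞ μ {0}ᶜ
  symm : ∀ z : W, z ≠ 0 → ∀ v w : W, μ z v w = μ z w v
  hom : ∀ c : ℂ, c ≠ 0 → ∀ z : W, z ≠ 0 → ∀ v w : W, μ (c • z) (c • v) (c • w) = μ z v w
  hor : ∀ z : W, z ≠ 0 → ∀ (c : ℂ) (w : W), μ z (c • z) w = 0
  pos : ∀ g ∈ U3, PD (cF μ g)

/-- Riemannian metrics on `ℂP²`. -/
structure Met (m : Mat → Mat →L[ℝ] Mat →L[ℝ] ℝ) : Prop where
  smooth : ContDiff ℝ ∞ m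
  symm : ∀ P ∈ CP 2, ∀ Y ∈ Tan P, ∀ Z ∈ Tan P, m P Y Z = m P Z Y
  pos : ∀ P ∈ CP 2, ∀ Y ∈ Tan P, Y ≠ 0 → 0 < m P Y Y

/-- The Gram matrix of the metric `m` in the frame `g`. -/
noncomputable def gram (m : Mat → Mat →L[ℝ] Mat →L[ℝ] ℝ) (g : X3) : A4 := fun i j =>
  m (pt (g 0)) (tv (g 0) (fr (g 1) (g 2) i)) (tv (g 0) (fr (g 1) (g 2) j))

/-- The square of the norm of the two-form `T` for the inner product with Gram matrix `M`. -/
noncomputable def nrmM (M T : A4) : ℝ :=
  -((Matrix.of M)⁻¹ * Matrix.of T * (Matrix.of M)⁻¹ * Matrix.of T).trace / 2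

/-- The distortion `|T|² / (2 u)`, where `T ∧ T = 2 u` times the volume form. -/
noncomputable def disM (M T : A4) : ℝ := nrmM M T / (2 * (Pf T / vM M))

/-- Donaldson's energy density times the volume density. -/
noncomputable def densM (M T : A4) : ℝ := (disM M T + 1) * vM M

/-- Donaldson's energy of the form `fs + dβ` for the metric `m`. -/
noncomputable def EnM (ν : Measure X3) (m : Mat → Mat →L[ℝ] Mat →L[ℝ] ℝ) (β : Mat → Mat →L[ℝ] ℝ) : ℝ :=
  ∫ g, densM (gram m g) (frm (form β) g) ∂ν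

/-- The volume of the metric `m`. -/
noncomputable def VoM (ν : Measure X3) (m : Mat → Mat →L[ℝ] Mat →L[ℝ] ℝ) : ℝ := ∫ g, vM (gram m g) ∂ν

/-- The differential at `fs + dβ` of the energy for the metric `m` has norm at most `G`. -/
def DLeM (ν : Measure X3) (m : Mat → Mat →L[ℝ] Mat →L[ℝ] ℝ) (β : Mat → Mat →L[ℝ] ℝ) (G : ℝ) : Prop :=
  ∀ γ : Mat → Mat →L[ℝ] ℝ, ContDiff ℝ ∞ γ →
    |deriv (fun t : ℝ => EnM ν m fun P => β P + t • γ P) 0| ≤ G * nL2 ν γ

end Pool.Agent.Lib.DEn
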