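import Pool.Agent.Lib.DEn.Defs

set_option autoImplicit false
set_option maxSynthPendingDepth 3

/-!
# Donaldson's energy of the symplectic forms of the Fubini-Study class on the projective plane: definitions

`ℂP²` is the set `CP 2` of rank-one Hermitian projections, `Tan P` its tangent space at `P`, `fs` the Fubini-Study form; the closed two-forms in its class are the restrictions of the forms
`form β = fs + dβ`, `β` a smooth one-form on the space `Mat` of matrices. `NondegM (form β)`: `form β` is symplectic. A unitary matrix `g : X3` with columns `g 0, g 1, g 2` is a unitary frame at the point `pt (g 0)`, and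
`frm Ω g` are the components of the two-form `Ω` in the corresponding orthonormal frame; `Ha ν`: `ν` is the invariant probability measure on the unitary group, whose image is the normalised volume of `ℂP²`.
-/

open MeasureTheory Set Metric
open scoped ContDiff Topology

namespace Pool.Agent.Lib.DEn

open Pool.Agent.P28b04d
open Pool.Agent.Lib.Psd (W hp ON3 fr cmp st asd sd nrm2 Pf Skew Conn Basic dd a0 c0 Mat form fs Tan tv cmpM NondegM pb)

/-- Components of a two-form on `ℂP²` at `pt (g 0)` in the orthogonal frame given by the unitary matrix `g`. -/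
noncomputable def frm (Ω : Mat → Mat → Mat → ℝ) (g : X3) : A4 := cmpM Ω (g 0) (g 1) (g 2)

/-- Donaldson's energy density `2 |T⁺|² / (|T⁺|² - |T⁻|²)`. -/
noncomputable def dens (T : A4) : ℝ := 2 * nrm2 (sd T) / (nrm2 (sd T) - nrm2 (asd T))

/-- Donaldson's energy of the form `fs + dβ`. -/
noncomputable def En (ν : Measure X3) (β : Mat → Mat →L[ℝ] ℝ) : ℝ := ∫ g, dens (frm (form β) g) ∂ν

/-- The `L²` norm of `dγ` on `ℂP²`. -/
noncomputable def nL2 (ν : Measure X3) (γ : Mat → Mat →L[ℝ] ℝ) : ℝ :=
  Real.sqrt (∫ g, nrm2 (frm (dd γ) g) / 2 ∂ν)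

/-- The differential of the energy at `fs + dβ` has norm at most `G`. -/
def DLe (ν : Measure X3) (β : Mat → Mat →L[ℝ] ℝ) (G : ℝ) : Prop :=
  ∀ γ : Mat → Mat →L[ℝ] ℝ, ContDiff ℝ ∞ γ →
    |deriv (fun t : ℝ => En ν fun P => β P + t • γ P) 0| ≤ G * nL2 ν γ

end Pool.Agent.Lib.DEn
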