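import Pool.Agent.Lib.DEn.Forms
import Pool.Agent.Lib.P28e.AvgClose

set_option autoImplicit false
set_option maxSynthPendingDepth 3

/-!
# Homotopy formula for linear maps  (1.5 h)

Put `A z = mv h z - z`, `P_t z = z + t • A z` (linear in `z`; `P_t z ≠ 0` for `z ≠ 0`, `t ∈ [0,1]` by `hh`), `β_z(v) = ∫_0^1 τ (P_t z) (A z) (P_t v) dt`. `β` is smooth off `0`: `P28e.contDiffOn_param` (integral over the compact set `Icc 0 1` of a function which is smooth on an open neighbourhood; the set of pairs `(z, t)` with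
`P_t z ≠ 0` is open and contains `z ≠ 0`, `t ∈ [0,1]`; to get a product neighbourhood work near a given `z₀`, using compactness of `Icc 0 1` (`generalized_tube_lemma`), the statement is local in `z`). `β_z(z) = 0`, `β_z(iz) = 0` because `P_t (c z) = c P_t z` and `τ` is horizontal and skew; homogeneity from `HF.hom`.
Derivative under the integral (`P28e.Close46.hasFDerivAt_param`): `dB β z v w = ∫_0^1 (Dτ(P_t v)(A z)(P_t w) + τ(A v)(P_t w) - Dτ(P_t w)(A z)(P_t v) - τ(A w)(P_t v)) dt` (at the point `P_t z`). On the other hand `d/dt [τ (P_t z)(P_t v)(P_t w)] = Dτ(A z)(P_t v)(P_t w) + τ(A v)(P_t w) + τ(P_t v)(A w)`. The difference of the integrands is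
`Dτ(A z)(P_t v)(P_t w) + Dτ(P_t v)(P_t w)(A z) + Dτ(P_t w)(A z)(P_t v) = d3 τ (A z) (P_t v) (P_t w) = 0` (skewness of `Dτ(·)` in the last two arguments, `Cl`). Integrate from `0` to `1` (fundamental theorem): `pl h τ z v w - τ z v w`.
-/

open MeasureTheory Set Metric Filter
open scoped ContDiff Topology

namespace Pool.Agent.Lib.DEn

open Pool.Agent.P28b04d
open Pool.Agent.Lib.Psd (W hp ON3 fr cmp st asd sd nrm2 Pf Skew Conn Basic dd a0 c0)

namespace ExPAux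

/-- the matrix minus the identity -/
noncomputable def Ao (h : X3) : W →L[ℝ] W := mvL h - ContinuousLinearMap.id ℝ W

/-- the path of linear maps -/
noncomputable def Qo (h : X3) (t : ℝ) : W →L[ℝ] W := ContinuousLinearMap.id ℝ W + t • Ao h

theorem Ao_apply (h : X3) (z : W) : Ao h z = mv h z - z := by
  simp [Ao, mvL_apply]

theorem Qo_apply (h : X3) (t : ℝ) (z : W) : Qo h t z = z + t • Ao h z := by
  simp [Qo]

theorem Ao_smul (h : X3) (c : ℂ) (z : W) : Ao h (c • z) = c • Ao h z := by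
  rw [Ao_apply, Ao_apply, mv_smul, smul_sub]

theorem Qo_smul (h : X3) (t : ℝ) (c : ℂ) (z : W) : Qo h t (c • z) = c • Qo h t z := by
  rw [Qo_apply, Qo_apply, Ao_smul, smul_add, smul_comm t c]

/-- the integrand -/
noncomputable def Ps (τ : W → BW) (h : X3) (q : W × ℝ) : W →L[ℝ] ℝ :=
  (τ (Qo h q.2 q.1) (Ao h q.1)).comp (Qo h q.2)

/-- the domain of the integrand -/
def UU (h : X3) : Set (W × ℝ) := {q | Qo h q.2 q.1 ≠ 0}

theorem contDiff_Q (h : X3) : ContDiff ℝ ∞ (fun q : W × ℝ => Qo h q.2 q.1) := by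
  have e : (fun q : W × ℝ => Qo h q.2 q.1) = fun q : W × ℝ => q.1 + q.2 • Ao h q.1 := by
    funext q
    rw [Qo_apply]
  rw [e]
  exact contDiff_fst.add (contDiff_snd.smul ((Ao h).contDiff.comp contDiff_fst))

theorem contDiff_Qo (h : X3) : ContDiff ℝ ∞ (fun q : W × ℝ => Qo h q.2) := by
  unfold Qo
  exact contDiff_const.add (contDiff_snd.smul contDiff_const)

theorem isOpen_UU (h : X3) : IsOpen (UU h) :=
  isOpen_compl_singleton.preimage (contDiff_Q h).continuous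

theorem smooth_Ps {τ : W → BW} (hτ : HF τ) (h : X3) : ContDiffOn ℝ ∞ (Ps τ h) (UU h) := by
  have h1 : ContDiffOn ℝ ∞ (fun q : W × ℝ => τ (Qo h q.2 q.1)) (UU h) :=
    hτ.smooth.comp (contDiff_Q h).contDiffOn (fun q hq => hq)
  have h2 : ContDiffOn ℝ ∞ (fun q : W × ℝ => τ (Qo h q.2 q.1) (Ao h q.1)) (UU h) :=
    h1.clm_apply ((Ao h).contDiff.comp contDiff_fst).contDiffOn
  exact h2.clm_comp (contDiff_Qo h).contDiffOn

theorem diff_tau {τ : W → BW} (hτ : HF τ) {p : W} (hp : p ≠ 0) :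
    HasFDerivAt τ (fderiv ℝ τ p) p :=
  ((hτ.smooth.differentiableOn (by simp)).differentiableAt
    (isOpen_compl_singleton.mem_nhds hp)).hasFDerivAt

/-- evaluation of the derivative -/
theorem deriv_eval {τ : W → BW} (hτ : HF τ) {p : W} (hp : p ≠ 0) (a b : W) :
    ∃ D : W →L[ℝ] ℝ, HasFDerivAt (fun y => τ y a b) D p ∧ ∀ x, D x = fderiv ℝ τ p x a b := by
  have h1 := ((diff_tau hτ hp).clm_apply (hasFDerivAt_const a p)).clm_apply (hasFDerivAt_const b p)
  refine ⟨_, h1, fun x => ?_⟩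
  simp

theorem skew_deriv {τ : W → BW} (hτ : HF τ) {p : W} (hp : p ≠ 0) (x a b : W) :
    fderiv ℝ τ p x a b = -fderiv ℝ τ p x b a := by
  obtain ⟨D1, hD1, e1⟩ := deriv_eval hτ hp a b
  obtain ⟨D2, hD2, e2⟩ := deriv_eval hτ hp b a
  have h3 : (fun y => τ y a b) =ᶠ[𝓝 p] fun y => -τ y b a := by
    filter_upwards [isOpen_compl_singleton.mem_nhds hp] with y hy
    exact hτ.skew y hy a b
  have h4 : HasFDerivAt (fun y => τ y a b) (-D2) p := hD2.neg.congr_of_eventuallyEq h3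
  have h5 := hD1.unique h4
  rw [← e1, ← e2, h5]
  rfl

theorem Ps_deriv {τ : W → BW} (hτ : HF τ) (h : X3) {z : W} {t : ℝ} (hq : Qo h t z ≠ 0) (v w : W) :
    (fderiv ℝ (Ps τ h) (z, t)).comp (ContinuousLinearMap.inl ℝ W ℝ) v w =
      fderiv ℝ τ (Qo h t z) (Qo h t v) (Ao h z) (Qo h t w) +
        τ (Qo h t z) (Ao h v) (Qo h t w) := by
  have h2 : HasFDerivAt (Ps τ h) (fderiv ℝ (Ps τ h) (z, t)) (z, t) :=
    (((smooth_Ps hτ h).differentiableOn (by simp)).differentiableAt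
      ((isOpen_UU h).mem_nhds hq)).hasFDerivAt
  have h3 : HasFDerivAt (fun y => Ps τ h (y, t))
      ((fderiv ℝ (Ps τ h) (z, t)).comp (ContinuousLinearMap.inl ℝ W ℝ)) z :=
    HasFDerivAt.comp (g := Ps τ h) (f := fun y => (y, t)) z h2 (hasFDerivAt_prodMk_left z t)
  have h4 := h3.clm_apply (hasFDerivAt_const w z)
  have e1 : HasFDerivAt (fun y => τ (Qo h t y)) ((fderiv ℝ τ (Qo h t z)).comp (Qo h t)) z :=
    (diff_tau hτ hq).comp z (Qo h t).hasFDerivAt
  have e2 := (e1.clm_apply (Ao h).hasFDerivAt).clm_apply (hasFDerivAt_const (Qo h t w) z)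
  have h5 := congrArg (fun D : W →L[ℝ] ℝ => D v) (h4.unique e2)
  simp at h5
  simp
  linarith

theorem Q_deriv (h : X3) (t : ℝ) (z : W) : HasDerivAt (fun t => Qo h t z) (Ao h z) t := by
  have h1 : HasDerivAt (fun t : ℝ => z + t • Ao h z) ((1 : ℝ) • Ao h z) t :=
    ((hasDerivAt_id t).smul_const (Ao h z)).const_add z
  rw [one_smul] at h1
  exact h1.congr_of_eventuallyEq (Filter.Eventually.of_forall fun s => Qo_apply h s z)

theorem F_deriv {τ : W → BW} (hτ : HF τ) (h : X3) {z : W} {t : ℝ} (hq : Qo h t z ≠ 0) (v w : W) :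
    HasDerivAt (fun t => τ (Qo h t z) (Qo h t v) (Qo h t w))
      (fderiv ℝ τ (Qo h t z) (Ao h z) (Qo h t v) (Qo h t w) + τ (Qo h t z) (Ao h v) (Qo h t w) +
        τ (Qo h t z) (Qo h t v) (Ao h w)) t := by
  have h1 : HasDerivAt (fun t => τ (Qo h t z)) (fderiv ℝ τ (Qo h t z) (Ao h z)) t :=
    (diff_tau hτ hq).comp_hasDerivAt t (Q_deriv h t z)
  have h2 := (h1.clm_apply (Q_deriv h t v)).clm_apply (Q_deriv h t w)
  exact h2

theorem key {τ : W → BW} (hτ : HF τ) (hc : Cl τ) (h : X3) {z : W} {t : ℝ} (hq : Qo h t z ≠ 0)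
    (v w : W) :
    (fderiv ℝ (Ps τ h) (z, t)).comp (ContinuousLinearMap.inl ℝ W ℝ) v w -
      (fderiv ℝ (Ps τ h) (z, t)).comp (ContinuousLinearMap.inl ℝ W ℝ) w v =
    fderiv ℝ τ (Qo h t z) (Ao h z) (Qo h t v) (Qo h t w) + τ (Qo h t z) (Ao h v) (Qo h t w) +
        τ (Qo h t z) (Qo h t v) (Ao h w) := by
  rw [Ps_deriv hτ h hq, Ps_deriv hτ h hq]
  have h1 := hc _ hq (Ao h z) (Qo h t v) (Qo h t w)
  unfold d3 at h1
  have h2 := skew_deriv hτ hq (Qo h t v) (Ao h z) (Qo h t w)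
  have h3 := hτ.skew _ hq (Qo h t v) (Ao h w)
  linarith

end ExPAux

open ExPAux

theorem exact_path {τ : W → BW} (hτ : HF τ) (hc : Cl τ) (h : X3)
    (hh : ∀ t ∈ Icc (0 : ℝ) 1, ∀ z : W, z ≠ 0 → z + t • (mv h z - z) ≠ 0) :
    ∃ β : W → W →L[ℝ] ℝ, Basic β ∧ ∀ z : W, z ≠ 0 → dB β z = pl h τ z - τ z := by
  have hQ : ∀ z : W, z ≠ 0 → ∀ t ∈ Icc (0 : ℝ) 1, Qo h t z ≠ 0 := by
    intro z hz t ht
    rw [Qo_apply, Ao_apply]
    exact hh t ht z hz
  have htube : ∀ z : W, z ≠ 0 → ∃ (Ω : Set W) (O : Set ℝ), IsOpen Ω ∧ IsOpen O ∧ z ∈ Ω ∧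
      Icc (0 : ℝ) 1 ⊆ O ∧ Ω ×ˢ O ⊆ UU h := by
    intro z hz
    obtain ⟨u, v, hu, hv, hzu, hIv, huv⟩ := generalized_tube_lemma (isCompact_singleton (x := z))
      (isCompact_Icc (a := (0 : ℝ)) (b := 1)) (isOpen_UU h) (by
        rintro ⟨y, t⟩ ⟨hy, ht⟩
        rw [mem_singleton_iff] at hy
        have hy' : y = z := hy
        subst hy'
        exact hQ y hz t ht)
    exact ⟨u, v, hu, hv, hzu rfl, hIv, huv⟩
  have hint : ∀ z : W, z ≠ 0 → IntegrableOn (fun t => Ps τ h (z, t)) (Icc (0 : ℝ) 1) := by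
    intro z hz
    apply ContinuousOn.integrableOn_compact isCompact_Icc
    exact (smooth_Ps hτ h).continuousOn.comp (Continuous.prodMk_right z).continuousOn
      (fun t ht => hQ z hz t ht)
  have happ : ∀ z : W, z ≠ 0 → ∀ v : W, (∫ t in Icc (0 : ℝ) 1, Ps τ h (z, t)) v =
      ∫ t in Icc (0 : ℝ) 1, τ (Qo h t z) (Ao h z) (Qo h t v) := by
    intro z hz v
    rw [ContinuousLinearMap.integral_apply (hint z hz)]
    rfl
  refine ⟨fun z => ∫ t in Icc (0 : ℝ) 1, Ps τ h (z, t), ⟨?_, ?_, ?_, ?_⟩, ?_⟩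
  · intro z hz
    obtain ⟨Ω, O, hΩ, hO, hzΩ, hIO, hsub⟩ := htube z hz
    have h1 := P28e.contDiffOn_param (volume : Measure ℝ) hΩ hO isCompact_Icc hIO ((smooth_Ps hτ h).mono hsub)
    exact (h1.contDiffAt (hΩ.mem_nhds hzΩ)).contDiffWithinAt
  · intro c hc0 z hz v
    have hcz : c • z ≠ 0 := smul_ne_zero hc0 hz
    rw [happ _ hcz, happ _ hz]
    apply setIntegral_congr_fun measurableSet_Icc
    intro t ht
    show τ (Qo h t (c • z)) (Ao h (c • z)) (Qo h t (c • v)) = _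
    rw [Qo_smul, Qo_smul, Ao_smul, hτ.hom c hc0 _ (hQ z hz t ht)]
  · intro z hz
    rw [happ _ hz]
    have h1 : ∀ t ∈ Icc (0 : ℝ) 1, τ (Qo h t z) (Ao h z) (Qo h t z) = 0 := by
      intro t ht
      rw [hτ.skew _ (hQ z hz t ht)]
      have h2 := hτ.hor _ (hQ z hz t ht) 1 (Ao h z)
      rw [one_smul] at h2
      rw [h2, neg_zero]
    rw [setIntegral_congr_fun measurableSet_Icc h1]
    simp
  · intro z hz
    rw [happ _ hz]
    have h1 : ∀ t ∈ Icc (0 : ℝ) 1, τ (Qo h t z) (Ao h z) (Qo h t (Complex.I • z)) = 0 := by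
      intro t ht
      rw [hτ.skew _ (hQ z hz t ht), Qo_smul]
      have h2 := hτ.hor _ (hQ z hz t ht) Complex.I (Ao h z)
      rw [h2, neg_zero]
    rw [setIntegral_congr_fun measurableSet_Icc h1]
    simp
  · intro z hz
    obtain ⟨Ω, O, hΩ, hO, hzΩ, hIO, hsub⟩ := htube z hz
    obtain ⟨i1, d1⟩ := P28e.Close46.hasFDerivAt_param (volume : Measure ℝ) hΩ hO isCompact_Icc hIO
      ((smooth_Ps hτ h).mono hsub) hzΩ
    have e1 : fderiv ℝ (fun z => ∫ t in Icc (0 : ℝ) 1, Ps τ h (z, t)) z =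
        ∫ t in Icc (0 : ℝ) 1, (fderiv ℝ (Ps τ h) (z, t)).comp (ContinuousLinearMap.inl ℝ W ℝ) :=
      d1.fderiv
    have e2 : ∀ v w : W, fderiv ℝ (fun z => ∫ t in Icc (0 : ℝ) 1, Ps τ h (z, t)) z v w =
        ∫ t in Icc (0 : ℝ) 1,
          (fderiv ℝ (Ps τ h) (z, t)).comp (ContinuousLinearMap.inl ℝ W ℝ) v w := by
      intro v w
      rw [e1, ContinuousLinearMap.integral_apply i1, ContinuousLinearMap.integral_apply
        (i1.apply_continuousLinearMap v)]
    have i2 : ∀ v w : W, IntegrableOn (fun t =>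
        (fderiv ℝ (Ps τ h) (z, t)).comp (ContinuousLinearMap.inl ℝ W ℝ) v w) (Icc (0 : ℝ) 1) :=
      fun v w => (i1.apply_continuousLinearMap v).apply_continuousLinearMap w
    ext v w
    show dB (fun z => ∫ t in Icc (0 : ℝ) 1, Ps τ h (z, t)) z v w = pl h τ z v w - τ z v w
    rw [pl_apply]
    show fderiv ℝ (fun z => ∫ t in Icc (0 : ℝ) 1, Ps τ h (z, t)) z v w -
      fderiv ℝ (fun z => ∫ t in Icc (0 : ℝ) 1, Ps τ h (z, t)) z w v = _
    rw [e2, e2, ← integral_sub (i2 v w) (i2 w v)]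
    have i3 : IntegrableOn (fun t => fderiv ℝ τ (Qo h t z) (Ao h z) (Qo h t v) (Qo h t w) +
        τ (Qo h t z) (Ao h v) (Qo h t w) + τ (Qo h t z) (Qo h t v) (Ao h w)) (Icc (0 : ℝ) 1) :=
      ((i2 v w).sub (i2 w v)).congr_fun (fun t ht => key hτ hc h (hQ z hz t ht) v w)
        measurableSet_Icc
    rw [setIntegral_congr_fun measurableSet_Icc
      (fun t ht => key hτ hc h (hQ z hz t ht) v w), integral_Icc_eq_integral_Ioc,
      ← intervalIntegral.integral_of_le zero_le_one,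
      intervalIntegral.integral_eq_sub_of_hasDerivAt
        (f := fun t => τ (Qo h t z) (Qo h t v) (Qo h t w))]
    · simp only [Qo_apply, Ao_apply, one_smul, zero_smul, add_zero, add_sub_cancel]
    · intro t ht
      rw [uIcc_of_le zero_le_one] at ht
      exact F_deriv hτ h (hQ z hz t ht) v w
    · rw [intervalIntegrable_iff_integrableOn_Icc_of_le zero_le_one]
      exact i3

end Pool.Agent.Lib.DEn
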