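import Pool.Agent.Lib.DEn.Ker

set_option autoImplicit false
set_option maxSynthPendingDepth 3

/-!
# The convolutions form a finite dimensional space

By induction on `N` for the unnormalised integrals `I_N f g = ∫ kN N g h * f h dν(h)`: there is a finite dimensional `P_N` with `I_N f ∈ P_N` for all `f` continuous on `U3`. `N = 0`: constants. Step: `kN (N+1) g h = kN N g h * (3 + ∑_m g_m h_m) / 6` where `m` runs over the 18 real coordinates
(`Re ∑_j hp (g j) (h j) = ∑_{j,k} (Re g_jk Re h_jk + Im g_jk Im h_jk)`), so `I_{N+1} f = (1/2) I_N f + (1/6) ∑_m x_m I_N (x_m f)` with the coordinate functions `x_m`, and `P_{N+1} = P_N + ∑_m x_m P_N`.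
-/

open MeasureTheory Set Metric Filter
open scoped ContDiff Topology

namespace Pool.Agent.Lib.DEn

open Pool.Agent.P28b04d
open Pool.Agent.Lib.Psd (W hp ON3 fr cmp st asd sd nrm2 Pf Skew Conn Basic dd a0 c0)

namespace FinDAux

/-- the real coordinates -/
noncomputable def co (m : (Fin 3 × Fin 3) × Bool) (g : X3) : ℝ :=
  if m.2 then (g m.1.1 m.1.2).re else (g m.1.1 m.1.2).im

theorem co_cont (m : (Fin 3 × Fin 3) × Bool) : Continuous (co m) := by
  obtain ⟨⟨j, k⟩, b⟩ := m
  have h1 : Continuous fun g : X3 => g j k := (continuous_apply k).comp (continuous_apply j)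
  cases b
  · exact Complex.continuous_im.comp h1
  · exact Complex.continuous_re.comp h1

theorem hp_co (g h : X3) : (∑ j, hp (g j) (h j)).re = ∑ m, co m g * co m h := by
  rw [Fintype.sum_prod_type, Fintype.sum_prod_type, Complex.re_sum]
  refine Finset.sum_congr rfl fun j _ => ?_
  unfold hp
  rw [Complex.re_sum]
  refine Finset.sum_congr rfl fun k _ => ?_
  rw [Fintype.sum_bool]
  simp [co, Complex.mul_re]

theorem step {ν : Measure X3} (hν : Ha ν) (N : ℕ) {f : X3 → ℝ} (hf : ContinuousOn f U3) :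
    (fun g => ∫ h, kN (N + 1) g h * f h ∂ν) =
      (2 : ℝ)⁻¹ • (fun g => ∫ h, kN N g h * f h ∂ν) +
        ∑ m, (6 : ℝ)⁻¹ • (co m * fun g => ∫ h, kN N g h * (co m h * f h) ∂ν) := by
  funext g
  have hq : Continuous fun h : X3 => ((g, h) : X3 × X3) := continuous_const.prodMk continuous_id
  have hc1 := (kN_cont N).comp hq
  have hc2 : ((fun p : X3 × X3 => kN N p.1 p.2) ∘ fun h : X3 => ((g, h) : X3 × X3)) =
      fun h => kN N g h := by
    funext h
    rw [Function.comp_apply]
  rw [hc2] at hc1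
  have hc : Continuous fun h => kN N g h := hc1
  have hi0 : Integrable (fun h => kN N g h * f h) ν := integrable_u hν (hc.continuousOn.mul hf)
  have hi : ∀ m, Integrable (fun h => kN N g h * (co m h * f h)) ν := fun m =>
    integrable_u hν (hc.continuousOn.mul ((co_cont m).continuousOn.mul hf))
  have e : ∀ h, kN (N + 1) g h * f h =
      (2 : ℝ)⁻¹ * (kN N g h * f h) + ∑ m, (6 : ℝ)⁻¹ * (co m g * (kN N g h * (co m h * f h))) := by
    intro h
    have e1 : kN (N + 1) g h = kN N g h * ((3 + ∑ m, co m g * co m h) / 6) := by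
      unfold kN
      rw [pow_succ, hp_co]
    rw [e1]
    have e2 : ∑ m, (6 : ℝ)⁻¹ * (co m g * (kN N g h * (co m h * f h))) =
        (6 : ℝ)⁻¹ * (kN N g h * f h) * ∑ m, co m g * co m h := by
      rw [Finset.mul_sum]
      exact Finset.sum_congr rfl fun m _ => by ring
    rw [e2]
    ring
  simp only [Pi.add_apply, Pi.smul_apply, Finset.sum_apply, Pi.mul_apply, smul_eq_mul]
  rw [integral_congr_ae (Eventually.of_forall e), integral_add (hi0.const_mul _)
    (integrable_finsetSum _ fun m _ => ((hi m).const_mul _).const_mul _), integral_const_mul,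
    integral_finsetSum _ fun m _ => ((hi m).const_mul _).const_mul _]
  congr 1
  exact Finset.sum_congr rfl fun m _ => by rw [integral_const_mul, integral_const_mul]

theorem main {ν : Measure X3} (hν : Ha ν) (N : ℕ) :
    ∃ P : Submodule ℝ (X3 → ℝ), FiniteDimensional ℝ P ∧
      ∀ f : X3 → ℝ, ContinuousOn f U3 → (fun g => ∫ h, kN N g h * f h ∂ν) ∈ P := by
  induction N with
  | zero =>
    refine ⟨Submodule.span ℝ {fun _ => 1}, inferInstance, fun f _ => ?_⟩
    rw [Submodule.mem_span_singleton]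
    refine ⟨∫ h, f h ∂ν, ?_⟩
    funext g
    simp [kN]
  | succ N ih =>
    obtain ⟨P, hP, h⟩ := ih
    refine ⟨P ⊔ ⨆ m, P.map (LinearMap.mulLeft ℝ (co m)), inferInstance, fun f hf => ?_⟩
    rw [step hν N hf]
    refine Submodule.add_mem_sup (P.smul_mem _ (h f hf)) (Submodule.sum_mem _ fun m _ => ?_)
    refine Submodule.smul_mem _ _ (Submodule.mem_iSup_of_mem m ?_)
    exact ⟨_, h _ ((co_cont m).continuousOn.mul hf), rfl⟩

end FinDAux

theorem fin_cv {ν : Measure X3} (hν : Ha ν) (N : ℕ) :
    ∃ P : Submodule ℝ (X3 → ℝ), FiniteDimensional ℝ P ∧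
      ∀ f : X3 → ℝ, ContinuousOn f U3 → Cv ν N f ∈ P := by
  obtain ⟨P, hP, h⟩ := FinDAux.main hν N
  exact ⟨P, hP, fun f hf => P.smul_mem _ (h f hf)⟩

end Pool.Agent.Lib.DEn
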