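import Pool.Agent.Lib.DEn.DefsG
import Pool.Agent.Lib.DEn.BrM

set_option autoImplicit false
set_option maxSynthPendingDepth 3

/-!
# Riemannian metrics on the projective plane and their pull-backs  (1 h)

`μ_z(v, w) = m (pt z) (D v) (D w)` symmetrised, where `D = fderiv ℝ pt z`: `μ_z = (1/2) (B_z + B_z.flip)` with `B_z(v,w) = m (pt z) (D v) (D w)` (smooth off `0` by `Psd.AmbAAux.contDiffOn_pt`, `contDiffOn_fderiv_pt`). Homogeneous and horizontal: `pt (c z) = pt z`, `Psd.fderiv_pt_hom`, `fderiv_pt_self`. For `nsq z = 1`, `hp z v = 0`: `D v = tv z v ∈ Tan (pt z)`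
(`Psd.AmbAAux.fderiv_pt`, `Psd.AmbBAux.tv_mem`), so `cF μ g = gram m g` by `Met.symm` (`pt (g 0) ∈ CP 2`). `PD`: for `x ≠ 0`, `∑ x_i x_j M_ij = m P Y Y` with `Y = tv (g 0) (∑ x_i f_i)` and `Y ≠ 0` (`Psd.AmbBAux.tv_zero`, the `f_i` are orthonormal).
`unif_eq`: as `form_eq` in `BrM`: two forms with the same components in all frames agree on the tangent spaces.
-/

open MeasureTheory Set Metric Filter
open scoped ContDiff Topology

namespace Pool.Agent.Lib.DEn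

open Pool.Agent.P28b04d
open Pool.Agent.Lib.Psd (W hp ON3 fr cmp st asd sd nrm2 Pf Skew Conn Basic dd a0 c0 Mat form fs Tan tv cmpM NondegM pb)

namespace GBrAux

/-- flip is smooth -/
theorem contDiffOn_flip {E F G : Type} [NormedAddCommGroup E] [NormedSpace ℝ E] [NormedAddCommGroup F]
    [NormedSpace ℝ F] [NormedAddCommGroup G] [NormedSpace ℝ G] {f : W → E →L[ℝ] F →L[ℝ] G} {s : Set W}
    (hf : ContDiffOn ℝ ∞ f s) : ContDiffOn ℝ ∞ (fun z => (f z).flip) s :=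
  (ContinuousLinearMap.flipₗᵢ ℝ E F G).toLinearIsometry.contDiff.comp_contDiffOn hf

/-- the pull-back of the bilinear form `m` -/
noncomputable def Bm (m : Mat → Mat →L[ℝ] Mat →L[ℝ] ℝ) (z : W) : BW :=
  ((((m (pt z)).comp (fderiv ℝ pt z)).flip).comp (fderiv ℝ pt z)).flip

theorem Bm_apply (m : Mat → Mat →L[ℝ] Mat →L[ℝ] ℝ) (z v w : W) :
    Bm m z v w = m (pt z) (fderiv ℝ pt z v) (fderiv ℝ pt z w) := by
  simp only [Bm, ContinuousLinearMap.flip_apply, ContinuousLinearMap.comp_apply]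

theorem smooth_Bm {m : Mat → Mat →L[ℝ] Mat →L[ℝ] ℝ} (hm : ContDiff ℝ ∞ m) :
    ContDiffOn ℝ ∞ (Bm m) {0}ᶜ := by
  have h1 : ContDiffOn ℝ ∞ (fun z : W => m (pt z)) {0}ᶜ := hm.comp_contDiffOn Psd.AmbAAux.contDiffOn_pt
  have h2 : ContDiffOn ℝ ∞ (fderiv ℝ (pt : W → Mat)) {0}ᶜ := Psd.AmbAAux.contDiffOn_fderiv_pt
  exact contDiffOn_flip ((contDiffOn_flip (h1.clm_comp h2)).clm_comp h2)

/-- the symmetric part -/
noncomputable def mu (m : Mat → Mat →L[ℝ] Mat →L[ℝ] ℝ) (z : W) : BW :=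
  (1 / 2 : ℝ) • (Bm m z + (Bm m z).flip)

theorem mu_apply (m : Mat → Mat →L[ℝ] Mat →L[ℝ] ℝ) (z v w : W) :
    mu m z v w = (m (pt z) (fderiv ℝ pt z v) (fderiv ℝ pt z w) +
      m (pt z) (fderiv ℝ pt z w) (fderiv ℝ pt z v)) / 2 := by
  simp only [mu, smul_apply, add_apply, ContinuousLinearMap.flip_apply, Bm_apply, smul_eq_mul]
  ring

theorem tv_lin (z : W) (x : Fin 4 → ℝ) (f : Fin 4 → W) :
    tv z (∑ i, x i • f i) = ∑ i, x i • tv z (f i) := by
  funext a b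
  simp only [tv, Fin.sum_univ_four, Pi.add_apply, Pi.smul_apply, star_add, Complex.real_smul, star_mul',
    RCLike.star_def, Complex.conj_ofReal]
  ring

theorem gram_sum {m : Mat → Mat →L[ℝ] Mat →L[ℝ] ℝ} (g : X3) (x : Fin 4 → ℝ) :
    ∑ i, ∑ j, x i * gram m g i j * x j =
      m (pt (g 0)) (tv (g 0) (∑ i, x i • fr (g 1) (g 2) i)) (tv (g 0) (∑ i, x i • fr (g 1) (g 2) i)) := by
  rw [tv_lin]
  have h1 : m (pt (g 0)) (∑ i, x i • tv (g 0) (fr (g 1) (g 2) i)) =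
      ∑ i, x i • m (pt (g 0)) (tv (g 0) (fr (g 1) (g 2) i)) := by
    simp only [map_sum, map_smul]
  rw [h1, sum_apply]
  refine Finset.sum_congr rfl fun i _ => ?_
  rw [smul_apply, map_sum, smul_eq_mul, Finset.mul_sum]
  refine Finset.sum_congr rfl fun j _ => ?_
  rw [map_smul, smul_eq_mul]
  simp only [gram]
  ring

theorem fs_tv (g : X3) (x y : Fin 4 → ℝ) :
    fs (pt (g 0)) (tv (g 0) (∑ i, x i • fr (g 1) (g 2) i)) (tv (g 0) (∑ j, y j • fr (g 1) (g 2) j)) =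
      ∑ i, ∑ j, x i * y j * fs (pt (g 0)) (tv (g 0) (fr (g 1) (g 2) i)) (tv (g 0) (fr (g 1) (g 2) j)) := by
  have hadd : ∀ P Y Y' Z : Mat, fs P (Y + Y') Z = fs P Y Z + fs P Y' Z := by
    intro P Y Y' Z
    unfold fs
    rw [← mul_add, ← Complex.add_im, ← Finset.sum_add_distrib]
    congr 2
    refine Finset.sum_congr rfl fun i _ => ?_
    rw [← Finset.sum_add_distrib]
    refine Finset.sum_congr rfl fun j _ => ?_
    rw [← Finset.sum_add_distrib]
    refine Finset.sum_congr rfl fun k _ => ?_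
    simp only [Pi.add_apply]
    ring
  have hadd' : ∀ P Y Z Z' : Mat, fs P Y (Z + Z') = fs P Y Z + fs P Y Z' := by
    intro P Y Z Z'
    unfold fs
    rw [← mul_add, ← Complex.add_im, ← Finset.sum_add_distrib]
    congr 2
    refine Finset.sum_congr rfl fun i _ => ?_
    rw [← Finset.sum_add_distrib]
    refine Finset.sum_congr rfl fun j _ => ?_
    rw [← Finset.sum_add_distrib]
    refine Finset.sum_congr rfl fun k _ => ?_
    simp only [Pi.add_apply]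
    ring
  have hsm : ∀ (c : ℝ) (P Y Z : Mat), fs P (c • Y) Z = c * fs P Y Z := by
    intro c P Y Z
    have h : ∑ i, ∑ j, ∑ k, P i j * (c • Y) j k * Z k i = (c : ℂ) * ∑ i, ∑ j, ∑ k, P i j * Y j k * Z k i := by
      simp only [Finset.mul_sum, Pi.smul_apply, Complex.real_smul]
      refine Finset.sum_congr rfl fun i _ => Finset.sum_congr rfl fun j _ => Finset.sum_congr rfl fun k _ => ?_
      ring
    unfold fs
    rw [h, Complex.im_ofReal_mul]
    ring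
  have hsm' : ∀ (c : ℝ) (P Y Z : Mat), fs P Y (c • Z) = c * fs P Y Z := by
    intro c P Y Z
    have h : ∑ i, ∑ j, ∑ k, P i j * Y j k * (c • Z) k i = (c : ℂ) * ∑ i, ∑ j, ∑ k, P i j * Y j k * Z k i := by
      simp only [Finset.mul_sum, Pi.smul_apply, Complex.real_smul]
      refine Finset.sum_congr rfl fun i _ => Finset.sum_congr rfl fun j _ => Finset.sum_congr rfl fun k _ => ?_
      ring
    unfold fs
    rw [h, Complex.im_ofReal_mul]
    ring
  rw [tv_lin, tv_lin]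
  simp only [Fin.sum_univ_four, hadd, hadd', hsm, hsm']
  ring

theorem dd_tv (β : Mat → Mat →L[ℝ] ℝ) (g : X3) (x y : Fin 4 → ℝ) :
    dd β (pt (g 0)) (tv (g 0) (∑ i, x i • fr (g 1) (g 2) i)) (tv (g 0) (∑ j, y j • fr (g 1) (g 2) j)) =
      ∑ i, ∑ j, x i * y j * dd β (pt (g 0)) (tv (g 0) (fr (g 1) (g 2) i)) (tv (g 0) (fr (g 1) (g 2) j)) := by
  rw [tv_lin, tv_lin]
  simp only [dd, Fin.sum_univ_four, map_add, map_smul, add_apply, smul_apply, smul_eq_mul]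
  ring

end GBrAux

open GBrAux

theorem hs_of_met {m : Mat → Mat →L[ℝ] Mat →L[ℝ] ℝ} (hm : Met m) :
    ∃ μ : W → BW, HS μ ∧ ∀ g ∈ U3, cF μ g = gram m g := by
  have hcF : ∀ g ∈ U3, cF (mu m) g = gram m g := by
    intro g hg
    have h0 := BrMAux.nsq0 hg
    funext i j
    show mu m (g 0) (fr (g 1) (g 2) i) (fr (g 1) (g 2) j) = _
    rw [mu_apply, Psd.fderiv_pt h0 (hp_frame hg i), Psd.fderiv_pt h0 (hp_frame hg j)]
    rw [hm.symm _ (pt_mem (col_ne hg 0)) _ (Psd.tv_mem h0 (hp_frame hg j)) _ (Psd.tv_mem h0 (hp_frame hg i))]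
    show _ = m (pt (g 0)) (tv (g 0) (fr (g 1) (g 2) i)) (tv (g 0) (fr (g 1) (g 2) j))
    ring
  refine ⟨mu m, ⟨?_, ?_, ?_, ?_, ?_⟩, hcF⟩
  · have h1 := smooth_Bm hm.smooth
    exact (h1.add (contDiffOn_flip h1)).const_smul (1 / 2 : ℝ)
  · intro z _ v w
    rw [mu_apply, mu_apply]
    ring
  · intro c hc z hz v w
    rw [mu_apply, mu_apply, pt_smul hc z, Psd.fderiv_pt_hom hc hz, Psd.fderiv_pt_hom hc hz]
  · intro z hz c w
    rw [mu_apply, Psd.fderiv_pt_self hz c]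
    simp
  · intro g hg
    have h0 := BrMAux.nsq0 hg
    rw [hcF g hg]
    refine ⟨fun i j => ?_, fun x hx => ?_⟩
    · exact hm.symm _ (pt_mem (col_ne hg 0)) _ (Psd.tv_mem h0 (hp_frame hg i)) _
        (Psd.tv_mem h0 (hp_frame hg j))
    · rw [gram_sum]
      refine hm.pos _ (pt_mem (col_ne hg 0)) _ (Psd.tv_mem h0 (BrMAux.hp_lin hg x)) fun h => ?_
      have hv : (∑ i, x i • fr (g 1) (g 2) i) = 0 := Psd.tv_zero h0 (BrMAux.hp_lin hg x) h
      apply hx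
      refine Psd.nd_of_Pf Psd.c0_facts.1 (by rw [Psd.c0_facts.2.2.2.2]; norm_num) fun j => ?_
      have h1 : dB a0 (g 0) (∑ i, x i • fr (g 1) (g 2) i) (fr (g 1) (g 2) j) = 0 := by
        rw [hv, map_zero]; rfl
      have h2 : dB a0 (g 0) (∑ i, x i • fr (g 1) (g 2) i) (fr (g 1) (g 2) j) = ∑ i, x i * c0 i j := by
        simp only [map_sum, map_smul, sum_apply, smul_apply, smul_eq_mul]
        refine Finset.sum_congr rfl fun i _ => ?_
        rw [← cF_dB_a0 hg]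
        rfl
      rw [← h2, h1]

theorem unif_eq {β β' : Mat → Mat →L[ℝ] ℝ}
    (h : ∀ g ∈ U3, cmpM (form β) (g 0) (g 1) (g 2) = cmpM (form β') (g 0) (g 1) (g 2)) :
    ∀ P ∈ CP 2, ∀ Y ∈ Tan P, ∀ Z ∈ Tan P, form β P Y Z = form β' P Y Z := by
  intro P hP Y hY Z hZ
  obtain ⟨z, hz, rfl⟩ := Psd.exists_unit hP
  obtain ⟨g, hg, rfl⟩ := exists_col hz
  obtain ⟨v, hv, rfl⟩ := Psd.tan_eq hz hY
  obtain ⟨w, hw, rfl⟩ := Psd.tan_eq hz hZ
  obtain ⟨x, rfl⟩ := BrMAux.perp hg hv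
  obtain ⟨y, rfl⟩ := BrMAux.perp hg hw
  have key : ∀ β : Mat → Mat →L[ℝ] ℝ,
      form β (pt (g 0)) (tv (g 0) (∑ i, x i • fr (g 1) (g 2) i)) (tv (g 0) (∑ j, y j • fr (g 1) (g 2) j)) =
        ∑ i, ∑ j, x i * y j * cmpM (form β) (g 0) (g 1) (g 2) i j := by
    intro β
    unfold form
    rw [fs_tv, dd_tv, ← Finset.sum_add_distrib]
    refine Finset.sum_congr rfl fun i _ => ?_
    rw [← Finset.sum_add_distrib]
    refine Finset.sum_congr rfl fun j _ => ?_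
    simp only [cmpM]
    ring
  rw [key, key, h g hg]

end Pool.Agent.Lib.DEn
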