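import Pool.Agent.Lib.DEn.DefsF
import Pool.Agent.Lib.DEn.GSt
import Pool.Agent.Lib.DEn.GBr

set_option autoImplicit false
set_option maxSynthPendingDepth 3

/-!
# The Fubini-Study metric
-/

open MeasureTheory Set Metric
open scoped ContDiff Topology

namespace Pool.Agent.Lib.DEn

open Pool.Agent.P28b04d
open Pool.Agent.Lib.Psd (W hp ON3 fr cmp st asd sd nrm2 Pf Skew Conn Basic dd a0 c0 Mat form fs Tan tv cmpM NondegM pb)

/-- Fields of continuous bilinear forms on the space of matrices. -/
abbrev BilF : Type := Mat → Mat →L[ℝ] Mat →L[ℝ] ℝ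

/-- The real part of an entry of a matrix. -/
noncomputable def reE (i j : Fin 3) : Mat →L[ℝ] ℝ :=
  Complex.reCLM.comp ((ContinuousLinearMap.proj (R := ℝ) (φ := fun _ : Fin 3 => ℂ) j).comp
    (ContinuousLinearMap.proj (R := ℝ) (φ := fun _ : Fin 3 => Fin 3 → ℂ) i))

/-- The imaginary part of an entry of a matrix. -/
noncomputable def imE (i j : Fin 3) : Mat →L[ℝ] ℝ :=
  Complex.imCLM.comp ((ContinuousLinearMap.proj (R := ℝ) (φ := fun _ : Fin 3 => ℂ) j).comp
    (ContinuousLinearMap.proj (R := ℝ) (φ := fun _ : Fin 3 => Fin 3 → ℂ) i))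

/-- The Fubini-Study metric, as a field of continuous bilinear forms. -/
noncomputable def fsb (_P : Mat) : Mat →L[ℝ] Mat →L[ℝ] ℝ :=
  (1 / 2 : ℝ) • ∑ i, ∑ j, ((reE i j).smulRight (reE i j) + (imE i j).smulRight (imE i j))

/-- The field of bilinear forms given by a field of continuous bilinear forms. -/
noncomputable def co (m : BilF) : Ten := fun P Y Z => m P Y Z

namespace FubAux

theorem fsb_apply (P Y Z : Mat) : fsb P Y Z =
    (∑ i, ∑ j, ((Y i j).re * (Z i j).re + (Y i j).im * (Z i j).im)) / 2 := by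
  have h : fsb P Y Z = (1 / 2 : ℝ) * ∑ i, ∑ j, ((Y i j).re * (Z i j).re + (Y i j).im * (Z i j).im) := by
    simp only [fsb, smul_apply, ContinuousLinearMap.sum_apply, add_apply,
      ContinuousLinearMap.smulRight_apply, smul_eq_mul]
    rfl
  rw [h]
  ring

theorem tv_tv (z u v : W) : ∑ i, ∑ j, (star (tv z u i j) * tv z v i j) =
    hp u v * hp z z + hp u z * hp v z + hp z v * hp z u + hp z z * hp v u := by
  simp only [tv, hp, Fin.sum_univ_three, star_add, star_mul', star_star]
  ring

theorem fsb_tv (P : Mat) {z u v : W} (hz : hp z z = 1) (hu : hp z u = 0) (hv : hp z v = 0) :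
    fsb P (tv z u) (tv z v) = (hp u v).re := by
  have h1 : (∑ i, ∑ j, (star (tv z u i j) * tv z v i j)).re =
      ∑ i, ∑ j, ((tv z u i j).re * (tv z v i j).re + (tv z u i j).im * (tv z v i j).im) := by
    rw [Complex.re_sum]
    refine Finset.sum_congr rfl fun i _ => ?_
    rw [Complex.re_sum]
    refine Finset.sum_congr rfl fun j _ => ?_
    simp [Complex.mul_re]
  have h2 : hp v u = star (hp u v) := Psd.ConnBAux.hp_conj u v
  have h3 : hp u z = 0 := by
    have h4 : hp u z = star (hp z u) := Psd.ConnBAux.hp_conj z u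
    rw [h4, hu, star_zero]
  rw [fsb_apply, ← h1, tv_tv, hz, hu, hv, h2, h3]
  simp

theorem hp_fr2 {g : X3} (hg : g ∈ U3) (i j : Fin 4) :
    (hp (fr (g 1) (g 2) i) (fr (g 1) (g 2) j)).re = if i = j then 1 else 0 := by
  have h11 : hp (g 1) (g 1) = 1 := by have := hg 1 1; simpa using this
  have h22 : hp (g 2) (g 2) = 1 := by have := hg 2 2; simpa using this
  have h12 : hp (g 1) (g 2) = 0 := by have := hg 1 2; simpa using this
  have h21 : hp (g 2) (g 1) = 0 := by have := hg 2 1; simpa using this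
  have hl : ∀ (c : ℂ) (a b : W), hp (c • a) b = star c * hp a b := by
    intro c a b
    simp only [hp, Pi.smul_apply, smul_eq_mul, star_mul', Finset.mul_sum]
    exact Finset.sum_congr rfl fun k _ => by ring
  fin_cases i <;> fin_cases j <;>
    simp [fr, hl, Psd.ConnBAux.hp_smul_right, h11, h22, h12, h21]

end FubAux

open FubAux

theorem gram_fsb {g : X3} (hg : g ∈ U3) : gram fsb g = fun i j => if i = j then 1 else 0 := by
  funext i j
  show fsb _ _ _ = _
  rw [fsb_tv _ (BrMAux.hp_zz hg) (hp_frame hg i) (hp_frame hg j), hp_fr2 hg]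

theorem met_fsb : Met fsb where
  smooth := contDiff_const
  symm := by
    intro P _ Y _ Z _
    rw [fsb_apply, fsb_apply]
    congr 1
    refine Finset.sum_congr rfl fun i _ => Finset.sum_congr rfl fun j _ => ?_
    ring
  pos := by
    intro P _ Y _ hY
    rw [fsb_apply]
    have h0 : ∀ i j : Fin 3, 0 ≤ (Y i j).re * (Y i j).re + (Y i j).im * (Y i j).im := fun i j =>
      add_nonneg (mul_self_nonneg _) (mul_self_nonneg _)
    have h1 : ∃ i j, Y i j ≠ 0 := by
      by_contra h
      push Not at h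
      exact hY (funext fun i => funext fun j => h i j)
    obtain ⟨i, j, hij⟩ := h1
    have h2 : 0 < (Y i j).re * (Y i j).re + (Y i j).im * (Y i j).im := by
      rw [← Complex.normSq_apply]
      exact Complex.normSq_pos.2 hij
    have h3 : (Y i j).re * (Y i j).re + (Y i j).im * (Y i j).im ≤
        ∑ j, ((Y i j).re * (Y i j).re + (Y i j).im * (Y i j).im) :=
      Finset.single_le_sum (f := fun j => (Y i j).re * (Y i j).re + (Y i j).im * (Y i j).im)
        (fun j _ => h0 i j) (Finset.mem_univ j)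
    have h4 : ∑ j, ((Y i j).re * (Y i j).re + (Y i j).im * (Y i j).im) ≤
        ∑ i, ∑ j, ((Y i j).re * (Y i j).re + (Y i j).im * (Y i j).im) :=
      Finset.single_le_sum (f := fun i => ∑ j, ((Y i j).re * (Y i j).re + (Y i j).im * (Y i j).im))
        (fun i _ => Finset.sum_nonneg fun j _ => h0 i j) (Finset.mem_univ i)
    linarith

theorem co_fsb : co fsb = fsm := by
  funext P Y Z
  exact fsb_apply P Y Z

theorem riem_fsm : Riem fsm where
  smooth := fun _ _ => contDiff_const
  add := by
    intro P Y Y' Z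
    rw [← co_fsb]
    simp [co]
  smul := by
    intro P Y Z a
    rw [← co_fsb]
    simp [co]
  symm := by
    intro P Y Z
    rw [← co_fsb]
    show fsb P Y Z = fsb P Z Y
    rw [fsb_apply, fsb_apply]
    congr 1
    refine Finset.sum_congr rfl fun i _ => Finset.sum_congr rfl fun j _ => ?_
    ring
  pos := by
    intro P hP Y hY hY0
    rw [← co_fsb]
    exact met_fsb.pos P hP Y hY hY0

/-- A Riemannian metric comes from a field of continuous bilinear forms. -/
theorem co_of_riem {m : Ten} (hm : Riem m) : ∃ m' : BilF, Met m' ∧ co m' = m := by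
  classical
  set b := Module.finBasis ℝ Mat with hb
  set e : Fin (Module.finrank ℝ Mat) → Mat →L[ℝ] ℝ := fun i => (b.coord i).toContinuousLinearMap with he
  set m' : BilF := fun P => ∑ i, ∑ j, m P (b i) (b j) • ((e i).smulRight (e j)) with hm'
  have h0 : ∀ (P : Mat) (Y Z : Mat), m' P Y Z = ∑ i, ∑ j, m P (b i) (b j) * (e i Y * e j Z) := by
    intro P Y Z
    simp only [hm', ContinuousLinearMap.sum_apply, smul_apply,
      ContinuousLinearMap.smulRight_apply, smul_eq_mul]
  have hl : ∀ P Z : Mat, ∃ f : Mat →ₗ[ℝ] ℝ, ∀ Y, f Y = m P Y Z := fun P Z =>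
    ⟨{ toFun := fun Y => m P Y Z
       map_add' := fun Y Y' => hm.add P Y Y' Z
       map_smul' := fun a Y => hm.smul P Y Z a }, fun _ => rfl⟩
  have h1 : ∀ P Y Z : Mat, m P Y Z = ∑ i, e i Y * m P (b i) Z := by
    intro P Y Z
    obtain ⟨f, hf⟩ := hl P Z
    rw [← hf]
    conv_lhs => rw [← b.sum_repr Y]
    rw [map_sum]
    refine Finset.sum_congr rfl fun i _ => ?_
    rw [map_smul, hf, smul_eq_mul]
    rfl
  have h2 : ∀ P Y Z : Mat, m' P Y Z = m P Y Z := by
    intro P Y Z
    rw [h0, h1 P Y Z]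
    refine Finset.sum_congr rfl fun i _ => ?_
    rw [hm.symm P (b i) Z, h1 P Z (b i), Finset.mul_sum]
    refine Finset.sum_congr rfl fun j _ => ?_
    rw [hm.symm P (b i) (b j)]
    ring
  refine ⟨m', ⟨?_, ?_, ?_⟩, ?_⟩
  · exact ContDiff.sum fun i _ => ContDiff.sum fun j _ => (hm.smooth (b i) (b j)).smul contDiff_const
  · intro P _ Y _ Z _
    rw [h2, h2]
    exact hm.symm P Y Z
  · intro P hP Y hY hY0
    rw [h2]
    exact hm.pos P hP Y hY hY0
  · funext P Y Z
    exact h2 P Y Z

theorem pd_id : PD (fun i j : Fin 4 => if i = j then (1 : ℝ) else 0) := by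
  refine ⟨fun i j => ?_, fun x hx => ?_⟩
  · by_cases h : i = j
    · simp [h]
    · simp [h, Ne.symm h]
  · have h1 : ∑ i, ∑ j, x i * (if i = j then (1 : ℝ) else 0) * x j = ∑ i, x i * x i := by
      refine Finset.sum_congr rfl fun i _ => ?_
      simp
    rw [h1]
    obtain ⟨i, hi⟩ : ∃ i, x i ≠ 0 := by
      by_contra h
      push Not at h
      exact hx (funext h)
    have h2 : x i * x i ≤ ∑ i, x i * x i :=
      Finset.single_le_sum (f := fun i => x i * x i) (fun j _ => mul_self_nonneg _) (Finset.mem_univ i)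
    have h3 : 0 < x i * x i := mul_self_pos.2 hi
    linarith

theorem kap_id {X : A4} : kap (fun i j => if i = j then 1 else 0) X = st X := by
  funext i j
  show ∑ k, ∑ l, (if i = k then (1 : ℝ) else 0) * st X k l * (if l = j then 1 else 0) = st X i j
  simp

theorem vM_id : vM (fun i j => if i = j then 1 else 0) = 1 := by
  have h : Matrix.of (fun i j : Fin 4 => if i = j then (1 : ℝ) else 0) = 1 := by
    ext i j
    rw [Matrix.one_apply]
    rfl
  unfold vM
  rw [h, Matrix.det_one, Real.sqrt_one]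

end Pool.Agent.Lib.DEn
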