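import Pool.Agent.Lib.DEn.DefsG
import Pool.Agent.Lib.DEn.Alg

/-!
# Congruence of skew arrays  (1.2 h)

`A` is any real `4 × 4` array, `X` skew, `(tc A X) i j = ∑ k, ∑ l, A k i * X k l * A l j` is `Aᵀ X A`. `Pf (Aᵀ X A) = det A * Pf X` and `A st(Aᵀ X A) Aᵀ = det A • st X` are polynomial identities (`Matrix.det_succ_row_zero`, `Fin.sum_univ_four`, the six components of `X`, `ring`); if `ring` is too slow for the second one: for diagonal and for elementary
matrices it is easy and both sides are multiplicative in `A`; or deduce it from the first: polarisation gives `wd (AᵀXA) (AᵀYA) = det A * wd X Y`, and `wd (AᵀYA) (AᵀXA) = ip (AᵀYA) (st (AᵀXA)) = ip Y (A st(AᵀXA) Aᵀ)`, `det A * wd Y X = ip Y (det A • st X)` for all skew `Y`, so the two skew arrays agree.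
-/

set_option autoImplicit false
set_option maxSynthPendingDepth 3

open MeasureTheory Set Metric Filter
open scoped ContDiff Topology

namespace Pool.Agent.Lib.DEn

open Pool.Agent.P28b04d
open Pool.Agent.Lib.Psd (W hp ON3 fr cmp st asd sd nrm2 Pf Skew Conn Basic dd a0 c0 Mat form fs Tan tv cmpM NondegM pb)

/-- `Aᵀ X A` -/
def tc (A X : A4) : A4 := fun i j => ∑ k, ∑ l, A k i * X k l * A l j

/-- `A X Aᵀ` -/
def ct (A X : A4) : A4 := fun i j => ∑ k, ∑ l, A i k * X k l * A j l

theorem pf_tc (A : A4) {X : A4} (hX : Skew X) : Pf (tc A X) = Matrix.det (Matrix.of A) * Pf X := by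
  obtain ⟨⟨e1, e2, e3, e4⟩, ⟨e5, e6, e7⟩, ⟨e8, e9, e10⟩⟩ := Psd.AlgAux.sk hX
  simp only [Pf, tc, Fin.sum_univ_four, e1, e2, e3, e4, e5, e6, e7, e8, e9, e10]
  rw [Matrix.det_succ_row_zero]
  simp only [Fin.sum_univ_four, Matrix.det_fin_three, Matrix.submatrix_apply, Matrix.of_apply,
    Fin.succ_zero_eq_one, Fin.succ_one_eq_two, Fin.succAbove]
  simp
  ring

theorem galSkewTc (A : A4) {X : A4} (hX : Skew X) : Skew (tc A X) := by
  intro i j
  simp only [tc]
  rw [Finset.sum_comm, ← Finset.sum_neg_distrib]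
  refine Finset.sum_congr rfl fun k _ => ?_
  rw [← Finset.sum_neg_distrib]
  refine Finset.sum_congr rfl fun l _ => ?_
  rw [hX l k]
  ring

theorem galSkewCt (A : A4) {X : A4} (hX : Skew X) : Skew (ct A X) := by
  intro i j
  simp only [ct]
  rw [Finset.sum_comm, ← Finset.sum_neg_distrib]
  refine Finset.sum_congr rfl fun k _ => ?_
  rw [← Finset.sum_neg_distrib]
  refine Finset.sum_congr rfl fun l _ => ?_
  rw [hX l k]
  ring

theorem galTcAdd (A X Y : A4) : tc A (X + Y) = tc A X + tc A Y := by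
  funext i j
  simp only [tc, Pi.add_apply, ← Finset.sum_add_distrib]
  refine Finset.sum_congr rfl fun k _ => Finset.sum_congr rfl fun l _ => ?_
  ring

theorem galPfAdd (X Y : A4) : wd X Y = Pf (X + Y) - Pf X - Pf Y := by
  simp only [wd, Pf, Pi.add_apply]
  ring

theorem wd_tc (A : A4) {X Y : A4} (hX : Skew X) (hY : Skew Y) :
    wd (tc A X) (tc A Y) = Matrix.det (Matrix.of A) * wd X Y := by
  have hXY : Skew (X + Y) := by
    intro i j
    simp only [Pi.add_apply]
    rw [hX i j, hY i j]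
    ring
  rw [galPfAdd, galPfAdd X Y, ← galTcAdd, pf_tc A hX, pf_tc A hY, pf_tc A hXY]
  ring

theorem galAdj (A Y Z : A4) : ip (tc A Y) Z = ip Y (ct A Z) := by
  simp only [ip, tc, ct]
  congr 1
  simp only [Finset.sum_mul, Finset.mul_sum]
  calc ∑ i : Fin 4, ∑ j : Fin 4, ∑ k : Fin 4, ∑ l : Fin 4, A k i * Y k l * A l j * Z i j
      = ∑ i : Fin 4, ∑ k : Fin 4, ∑ l : Fin 4, ∑ j : Fin 4, A k i * Y k l * A l j * Z i j := by
        refine Finset.sum_congr rfl fun i _ => ?_
        rw [Finset.sum_comm]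
        refine Finset.sum_congr rfl fun k _ => ?_
        rw [Finset.sum_comm]
    _ = ∑ k : Fin 4, ∑ l : Fin 4, ∑ i : Fin 4, ∑ j : Fin 4, A k i * Y k l * A l j * Z i j := by
        rw [Finset.sum_comm]
        refine Finset.sum_congr rfl fun k _ => ?_
        rw [Finset.sum_comm]
    _ = _ := by
        refine Finset.sum_congr rfl fun k _ => Finset.sum_congr rfl fun l _ =>
          Finset.sum_congr rfl fun i _ => Finset.sum_congr rfl fun j _ => ?_
        ring

theorem st_tc (A : A4) {X : A4} (hX : Skew X) :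
    ct A (st (tc A X)) = Matrix.det (Matrix.of A) • st X := by
  have s1 : Skew (ct A (st (tc A X))) := galSkewCt A (skew_st (galSkewTc A hX))
  have s2 : Skew (st X) := skew_st hX
  set Z : A4 := ct A (st (tc A X)) + (-Matrix.det (Matrix.of A)) • st X with hZ
  have sZ : Skew Z := by
    intro i j
    simp only [hZ, Pi.add_apply, Pi.smul_apply, smul_eq_mul]
    rw [s1 i j, s2 i j]
    ring
  have h1 : ip Z Z = 0 := by
    have e1 : ip Z (ct A (st (tc A X))) = Matrix.det (Matrix.of A) * wd Z X := by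
      rw [← galAdj, ← wd_eq_ip (galSkewTc A sZ) (galSkewTc A hX), wd_tc A sZ hX]
    have e2 : ip Z (st X) = wd Z X := (wd_eq_ip sZ hX).symm
    conv_lhs => rw [show ip Z Z = ip Z (ct A (st (tc A X)) + (-Matrix.det (Matrix.of A)) • st X)
      from rfl]
    rw [ip_comm, ip_add, ip_smul, ip_comm _ Z, ip_comm _ Z, e1, e2]
    ring
  have h2 := ip_zero h1
  have h3 : ct A (st (tc A X)) = Z + Matrix.det (Matrix.of A) • st X := by
    rw [hZ, add_assoc, neg_smul, neg_add_cancel, add_zero]
  rw [h3, h2, zero_add]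

end Pool.Agent.Lib.DEn
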