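import Pool.Agent.Lib.DEn.DefsG
import Pool.Agent.Lib.DEn.Forms

/-!
# Congruence of a form by a metric  (1.2 h)

`κ_z(v, w) = σ_z(Ĝ_z v, Ĝ_z w)`, `Ĝ_z v = nsq z • ∑_a μ_z(v, E_a) • E_a` with `E_a` the real basis `e_k, i e_k` of `W` (orthonormal for `Re hp`). Smooth off `0` (compositions of continuous linear maps depending smoothly on `z`). `Ĝ_z (c z) = 0` (`HS.hor`), so `κ` is horizontal; skew because `σ` is. Homogeneous: `Ĝ_{cz}(c v) = c Ĝ_z(v)`: `μ_{cz}(c v, E_a) = μ_z(v, c⁻¹ E_a)`, and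
`∑_a μ(v, c⁻¹E_a) E_a = |c|⁻² ∑_a μ(v, E'_a) c E'_a` for the orthonormal basis `E'_a = |c| c⁻¹ E_a` (the sum `∑_a B(E_a) E_a` does not depend on the orthonormal basis). At `g ∈ U3` use the orthonormal basis `g j, i g j`: `μ` kills `g 0, i g 0`, so `Ĝ (f i) = ∑_k μ(f i, f k) f k`, `f = fr (g 1) (g 2)`, hence
`κ(f i, f j) = ∑_{k,l} M i k * σ(f k, f l) * M j l` with `M = cF μ g` symmetric: `= cg M (cF σ g) i j`.
-/

set_option autoImplicit false
set_option maxSynthPendingDepth 3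

open MeasureTheory Set Metric Filter
open scoped ContDiff Topology

namespace Pool.Agent.Lib.DEn

open Pool.Agent.P28b04d
open Pool.Agent.Lib.Psd (W hp ON3 fr cmp st asd sd nrm2 Pf Skew Conn Basic dd a0 c0 Mat form fs Tan tv cmpM NondegM pb)

namespace GCoAux

theorem hp_add_r (z v w : W) : hp z (v + w) = hp z v + hp z w := by
  simp only [hp, Pi.add_apply, mul_add, Finset.sum_add_distrib]

theorem hp_sub_l (z v w : W) : hp (v - w) z = hp v z - hp w z := by
  simp only [hp, Pi.sub_apply, star_sub, sub_mul, Finset.sum_sub_distrib]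

theorem hp_add_l (z v w : W) : hp (v + w) z = hp v z + hp w z := by
  simp only [hp, Pi.add_apply, star_add, add_mul, Finset.sum_add_distrib]

theorem hp_smul_l (c : ℂ) (v z : W) : hp (c • v) z = star c * hp v z := by
  simp only [hp, Pi.smul_apply, smul_eq_mul, star_mul', Finset.mul_sum, mul_assoc]

theorem hp_rsmul_l (c : ℝ) (v z : W) : hp (c • v) z = (c : ℂ) * hp v z := by
  have h : (c • v : W) = (c : ℂ) • v := by
    funext k
    simp
  rw [h, hp_smul_l]
  congr 1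
  exact Complex.conj_ofReal c

theorem hp_sum_l (s : Fin 3 → W) (z : W) : hp (∑ j, s j) z = ∑ j, hp (s j) z := by
  rw [Fin.sum_univ_three, Fin.sum_univ_three, hp_add_l, hp_add_l]

/-- the sharp map in the basis `g` -/
noncomputable def sh (g : X3) (l : W →L[ℝ] ℝ) : W :=
  ∑ j, (l (g j) • g j + l (Complex.I • g j) • (Complex.I • g j))

theorem complete {g : X3} (hg : g ∈ U3) (w : W) : w = ∑ j, hp (g j) w • g j := by
  obtain ⟨c, x, hw⟩ := decomp hg w
  have h := (on3_iff g).2 hg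
  have hw2 : w = c • g 0 + (((x 0 : ℂ) + (x 1 : ℂ) * Complex.I) • g 1 +
      ((x 2 : ℂ) + (x 3 : ℂ) * Complex.I) • g 2) := by
    rw [hw]
    congr 1
    rw [Fin.sum_univ_four]
    funext k
    simp [fr]
    ring
  have hc : ∀ a b : W, hp a b = star (hp b a) := fun a b => Psd.ConnBAux.hp_conj b a
  have e10 : hp (g 1) (g 0) = 0 := by rw [hc, h.zu, star_zero]
  have e20 : hp (g 2) (g 0) = 0 := by rw [hc, h.zv, star_zero]
  have e21 : hp (g 2) (g 1) = 0 := by rw [hc, h.uv, star_zero]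
  have a0 : hp (g 0) w = c := by
    rw [hw2, hp_add_r, hp_add_r, Psd.ConnBAux.hp_smul_right, Psd.ConnBAux.hp_smul_right,
      Psd.ConnBAux.hp_smul_right, h.zz, h.zu, h.zv]
    ring
  have a1 : hp (g 1) w = (x 0 : ℂ) + (x 1 : ℂ) * Complex.I := by
    rw [hw2, hp_add_r, hp_add_r, Psd.ConnBAux.hp_smul_right, Psd.ConnBAux.hp_smul_right,
      Psd.ConnBAux.hp_smul_right, e10, h.uu, h.uv]
    ring
  have a2 : hp (g 2) w = (x 2 : ℂ) + (x 3 : ℂ) * Complex.I := by
    rw [hw2, hp_add_r, hp_add_r, Psd.ConnBAux.hp_smul_right, Psd.ConnBAux.hp_smul_right,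
      Psd.ConnBAux.hp_smul_right, e20, e21, h.vv]
    ring
  rw [Fin.sum_univ_three, a0, a1, a2, add_assoc]
  exact hw2

theorem sh_char {g : X3} (hg : g ∈ U3) (l : W →L[ℝ] ℝ) (w : W) : (hp (sh g l) w).re = l w := by
  have h1 : ∀ j, (hp (l (g j) • g j + l (Complex.I • g j) • (Complex.I • g j)) w).re =
      l (hp (g j) w • g j) := by
    intro j
    have h2 : hp (g j) w • g j = (hp (g j) w).re • g j + (hp (g j) w).im • (Complex.I • g j) := by
      have e := Complex.re_add_im (hp (g j) w)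
      funext k
      simp only [Pi.smul_apply, Pi.add_apply, smul_eq_mul, Complex.real_smul]
      linear_combination (-(g j k)) * e
    have h3 : l (hp (g j) w • g j) =
        (hp (g j) w).re * l (g j) + (hp (g j) w).im * l (Complex.I • g j) := by
      rw [h2, map_add, map_smul l (hp (g j) w).re (g j),
        map_smul l (hp (g j) w).im (Complex.I • g j)]
      rfl
    rw [h3, hp_add_l, hp_rsmul_l, hp_rsmul_l, hp_smul_l]
    generalize l (g j) = a
    generalize l (Complex.I • g j) = b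
    generalize hp (g j) w = q
    simp
    ring
  rw [sh, hp_sum_l, Complex.re_sum]
  simp only [h1]
  conv_rhs => rw [complete hg w]
  rw [map_sum]

theorem re_unique {a b : W} (h : ∀ w, (hp a w).re = (hp b w).re) : a = b := by
  by_contra hne
  have hd : a - b ≠ 0 := sub_ne_zero.2 hne
  have h1 := Psd.ConnBAux.nsq_pos hd
  have h2 : (hp (a - b) (a - b)).re = 0 := by
    rw [hp_sub_l, Complex.sub_re, h (a - b), sub_self]
  rw [Psd.ConnBAux.hp_self, Complex.ofReal_re] at h2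
  exact h1.ne' h2

theorem sh_inv {g : X3} (hg : g ∈ U3) (l : W →L[ℝ] ℝ) : sh id3 l = sh g l :=
  re_unique fun w => by rw [sh_char id3_mem, sh_char hg]

theorem sh_hom {c : ℂ} (l l' : W →L[ℝ] ℝ) (h : ∀ w, l' w = l (c⁻¹ • w)) :
    sh id3 l' = star c⁻¹ • sh id3 l :=
  re_unique fun w => by
    rw [sh_char id3_mem, h, ← sh_char id3_mem l, Psd.ConnBAux.hp_smul_right, hp_smul_l, star_star]

/-- the sharp map as a continuous linear map -/
noncomputable def shL : (W →L[ℝ] ℝ) →L[ℝ] W :=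
  ∑ j, ((ContinuousLinearMap.apply ℝ ℝ (id3 j)).smulRight (id3 j) +
    (ContinuousLinearMap.apply ℝ ℝ (Complex.I • id3 j)).smulRight (Complex.I • id3 j))

theorem shL_apply (l : W →L[ℝ] ℝ) : shL l = sh id3 l := by
  simp [shL, sh]

/-- the endomorphism of the metric -/
noncomputable def Gh (μ : W → BW) (z : W) : W →L[ℝ] W := nsq z • shL.comp (μ z)

theorem Gh_apply (μ : W → BW) (z v : W) : Gh μ z v = nsq z • sh id3 (μ z v) := by
  rw [Gh, smul_apply, ContinuousLinearMap.comp_apply, shL_apply]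

theorem Gh_hor {μ : W → BW} (hμ : HS μ) {z : W} (hz : z ≠ 0) (c : ℂ) : Gh μ z (c • z) = 0 := by
  have h0 : μ z (c • z) = 0 := ContinuousLinearMap.ext fun w => hμ.hor z hz c w
  rw [Gh_apply, h0]
  simp [sh]

theorem Gh_hom {μ : W → BW} (hμ : HS μ) {c : ℂ} (hc : c ≠ 0) {z : W} (hz : z ≠ 0) (v : W) :
    Gh μ (c • z) (c • v) = c • Gh μ z v := by
  have h1 : ∀ w, μ (c • z) (c • v) w = μ z v (c⁻¹ • w) := by
    intro w
    have := hμ.hom c hc z hz v (c⁻¹ • w)
    rwa [smul_inv_smul₀ hc] at this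
  rw [Gh_apply, Gh_apply, sh_hom _ _ h1, Psd.ConnBAux.nsq_smul]
  have h2 : ((Complex.normSq c : ℝ) : ℂ) * star c⁻¹ = c := by
    have h3 : (star c⁻¹ : ℂ) = (star c)⁻¹ := star_inv₀ c
    have h4 : ((Complex.normSq c : ℝ) : ℂ) = c * star c := (Complex.mul_conj c).symm
    have h5 : (star c : ℂ) ≠ 0 := by simpa using hc
    rw [h3, h4, mul_assoc, mul_inv_cancel₀ h5, mul_one]
  funext k
  simp only [Pi.smul_apply, smul_eq_mul, Complex.real_smul, Complex.ofReal_mul]
  calc ((Complex.normSq c : ℝ) : ℂ) * (nsq z : ℂ) * (star c⁻¹ * sh id3 (μ z v) k)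
      = (((Complex.normSq c : ℝ) : ℂ) * star c⁻¹) * ((nsq z : ℂ) * sh id3 (μ z v) k) := by ring
    _ = _ := by rw [h2]

theorem smooth_Gh {μ : W → BW} (hμ : ContDiffOn ℝ ∞ μ {0}ᶜ) : ContDiffOn ℝ ∞ (Gh μ) {0}ᶜ :=
  (Psd.ConnBAux.contDiff_nsq.contDiffOn).smul (contDiffOn_const.clm_comp hμ)

end GCoAux

open GCoAux

theorem congr_up {σ μ : W → BW} (hσ : HF σ) (hμ : HS μ) :
    ∃ κ : W → BW, HF κ ∧ ∀ g ∈ U3, cF κ g = cg (cF μ g) (cF σ g) := by
  have hap : ∀ z v w : W, (((σ z).flip.comp (Gh μ z)).flip.comp (Gh μ z)) v w =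
      σ z (Gh μ z v) (Gh μ z w) := by
    intro z v w
    simp only [ContinuousLinearMap.comp_apply, ContinuousLinearMap.flip_apply]
  refine ⟨fun z => ((σ z).flip.comp (Gh μ z)).flip.comp (Gh μ z), ⟨?_, ?_, ?_, ?_⟩, ?_⟩
  · have hflip : ∀ {f : W → BW}, ContDiffOn ℝ ∞ f {0}ᶜ → ContDiffOn ℝ ∞ (fun z => (f z).flip) {0}ᶜ := by
      intro f hf
      exact (ContinuousLinearMap.flipₗᵢ ℝ W W ℝ).contDiff.comp_contDiffOn hf
    have hG := smooth_Gh hμ.smooth
    exact (hflip ((hflip hσ.smooth).clm_comp hG)).clm_comp hG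
  · intro z hz v w
    rw [hap, hap]
    exact hσ.skew z hz _ _
  · intro c hc z hz v w
    rw [hap, hap, Gh_hom hμ hc hz, Gh_hom hμ hc hz]
    exact hσ.hom c hc z hz _ _
  · intro z hz c w
    rw [hap, Gh_hor hμ hz, map_zero]
    rfl
  · intro g hg
    have hz := col_ne hg 0
    have hn : nsq (g 0) = 1 := nsq_col hg 0
    have hk : ∀ i, Gh μ (g 0) (fr (g 1) (g 2) i) =
        ∑ k, cF μ g i k • fr (g 1) (g 2) k := by
      intro i
      have h0 : ∀ c : ℂ, μ (g 0) (fr (g 1) (g 2) i) (c • g 0) = 0 := fun c => by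
        rw [hμ.symm _ hz, hμ.hor _ hz]
      have h00 : μ (g 0) (fr (g 1) (g 2) i) (g 0) = 0 := by
        have := h0 1
        rwa [one_smul] at this
      rw [Gh_apply, hn, one_smul, sh_inv hg, sh, Fin.sum_univ_three, h00, h0, zero_smul, zero_smul,
        zero_add, zero_add, Fin.sum_univ_four]
      simp only [cF, fr, Matrix.cons_val_zero, Matrix.cons_val_one, Matrix.cons_val]
      abel
    funext i j
    show (((σ (g 0)).flip.comp (Gh μ (g 0))).flip.comp (Gh μ (g 0))) (fr (g 1) (g 2) i)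
      (fr (g 1) (g 2) j) = _
    rw [hap, hk i, hk j, map_sum (σ (g 0)), sum_apply, cg]
    refine Finset.sum_congr rfl fun k _ => ?_
    rw [map_smul, smul_apply, map_sum, smul_eq_mul, Finset.mul_sum]
    refine Finset.sum_congr rfl fun l _ => ?_
    have hs : cF μ g j l = cF μ g l j := hμ.symm _ hz _ _
    rw [map_smul, hs, smul_eq_mul]
    simp only [cF]
    ring

end Pool.Agent.Lib.DEn
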