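import Pool.Agent.Lib.DEn.DvE
import Pool.Agent.Lib.DEn.Forms
import Pool.Agent.Lib.DEn.GSt
import Pool.Agent.Lib.DEn.EDer

set_option autoImplicit false
set_option maxSynthPendingDepth 3

/-!
# The derivative of the energy for a metric  (1 h)

As in module `EDer`, with `hasDerivAt_fM` in the place of `hasDerivAt_sg`. `T g = cF (dB α) g`, `D g = cF (dB γ) g`, `M g = cF μ g`: entries continuous on the compact set `U3` (`ctU_cF`), `T, D` skew (`cF_skew`). `Pf (T g + t D g)` is positive and bounded below for `g ∈ U3`, `|t| < ε`. The derivative in `t` of the integrand is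
`wd (D g) (tM (M g) (T g + t D g))`, continuous in `(g, t)` on `U3 × (-ε, ε)`, so bounded; `hasDerivAt_integral_of_dominated_loc_of_deriv_le`.
-/

open MeasureTheory Set Metric Filter
open scoped ContDiff Topology

namespace Pool.Agent.Lib.DEn

open Pool.Agent.P28b04d
open Pool.Agent.Lib.Psd (W hp ON3 fr cmp st asd sd nrm2 Pf Skew Conn Basic dd a0 c0 Mat form fs Tan tv cmpM NondegM pb)

namespace GDerAux

open EDerAux

theorem gen {ν : Measure X3} (hν : Ha ν) {T D Mu : X3 → A4} (hT : ContinuousOn T U3)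
    (hD : ContinuousOn D U3) (hMc : ContinuousOn Mu U3) (hP : ∀ g ∈ U3, 0 < Pf (T g))
    (f : A4 → A4 → ℝ) (f' : A4 → A4 → A4)
    (cf : ContinuousOn (fun p : A4 × A4 => f p.1 p.2) {S : A4 × A4 | Pf S.2 ≠ 0})
    (cf' : ContinuousOn (fun p : A4 × A4 => f' p.1 p.2) {S : A4 × A4 | Pf S.2 ≠ 0})
    (hder : ∀ g ∈ U3, ∀ t : ℝ, Pf (T g + t • D g) ≠ 0 →
      HasDerivAt (fun t : ℝ => f (Mu g) (T g + t • D g))
        (wd (D g) (f' (Mu g) (T g + t • D g))) t) :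
    HasDerivAt (fun t : ℝ => ∫ g, f (Mu g) (T g + t • D g) ∂ν)
      (∫ g, wd (D g) (f' (Mu g) (T g)) ∂ν) 0 := by
  have := hν.prob
  -- a lower bound of the Pfaffian
  obtain ⟨g₀, hg₀, hmin⟩ := isCompact_U3.exists_isMinOn ⟨id3, id3_mem⟩
    (cont_Pf.comp_continuousOn hT)
  have hm0 := hP g₀ hg₀
  have hm : ∀ g ∈ U3, Pf (T g₀) ≤ Pf (T g) := fun g hg => hmin hg
  generalize Pf (T g₀) = m at hm0 hm
  obtain ⟨M₁, hM₁⟩ := isCompact_U3.exists_bound_of_continuousOn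
    (cont_wd.comp_continuousOn (hD.prodMk hT))
  obtain ⟨M₂, hM₂⟩ := isCompact_U3.exists_bound_of_continuousOn
    (cont_Pf.comp_continuousOn hD)
  have hM1 : 0 ≤ M₁ := (norm_nonneg _).trans (hM₁ g₀ hg₀)
  have hM2 : 0 ≤ M₂ := (norm_nonneg _).trans (hM₂ g₀ hg₀)
  have q2 : ∀ (A B : A4) (s : ℝ), Pf (A + s • B) = Pf A + s * wd B A + s ^ 2 * Pf B := by
    intro A B s
    simp only [Pf, wd, Pi.add_apply, Pi.smul_apply, smul_eq_mul]
    ring
  obtain ⟨ε, hε0, hε1, hε⟩ : ∃ ε : ℝ, 0 < ε ∧ ε ≤ 1 ∧ ε * (M₁ + M₂) < m := by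
    refine ⟨min 1 (m / (M₁ + M₂ + 1)), lt_min one_pos (by positivity), min_le_left _ _, ?_⟩
    have h1 : min 1 (m / (M₁ + M₂ + 1)) ≤ m / (M₁ + M₂ + 1) := min_le_right _ _
    have h2 : m / (M₁ + M₂ + 1) * (M₁ + M₂ + 1) = m :=
      div_mul_cancel₀ m (by positivity)
    have h3 : 0 < m / (M₁ + M₂ + 1) := by positivity
    nlinarith
  have hpos : ∀ g ∈ U3, ∀ t : ℝ, |t| ≤ ε → 0 < Pf (T g + t • D g) := by
    intro g hg t ht
    rw [q2]
    have h1 := hM₁ g hg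
    have h2 := hM₂ g hg
    rw [Real.norm_eq_abs] at h1 h2
    have h3 : |t * wd (D g) (T g)| ≤ ε * M₁ := by
      rw [abs_mul]
      exact mul_le_mul ht h1 (abs_nonneg _) hε0.le
    have h4 : |t ^ 2 * Pf (D g)| ≤ ε * M₂ := by
      rw [abs_mul, abs_pow]
      have : |t| ^ 2 ≤ ε := by nlinarith [abs_nonneg t]
      exact mul_le_mul this h2 (abs_nonneg _) hε0.le
    have h5 := neg_le_of_abs_le h3
    have h6 := neg_le_of_abs_le h4
    have h7 := hm g hg
    nlinarith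
  -- the family and its derivative
  have hS : ContinuousOn (fun p : X3 × ℝ => T p.1 + p.2 • D p.1) (U3 ×ˢ Icc (-ε) ε) := by
    have k1 : ContinuousOn (fun p : X3 × ℝ => T p.1) (U3 ×ˢ Icc (-ε) ε) :=
      hT.comp continuousOn_fst (fun p hp => hp.1)
    have k2 : ContinuousOn (fun p : X3 × ℝ => D p.1) (U3 ×ˢ Icc (-ε) ε) :=
      hD.comp continuousOn_fst (fun p hp => hp.1)
    exact k1.add (continuousOn_snd.smul k2)
  have hMu : ContinuousOn (fun p : X3 × ℝ => Mu p.1) (U3 ×ˢ Icc (-ε) ε) :=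
    hMc.comp continuousOn_fst (fun p hp => hp.1)
  have hMS : ContinuousOn (fun p : X3 × ℝ => ((Mu p.1, T p.1 + p.2 • D p.1) : A4 × A4)) (U3 ×ˢ Icc (-ε) ε) :=
    hMu.prodMk hS
  have hSm : MapsTo (fun p : X3 × ℝ => ((Mu p.1, T p.1 + p.2 • D p.1) : A4 × A4)) (U3 ×ˢ Icc (-ε) ε)
      {S : A4 × A4 | Pf S.2 ≠ 0} := fun p hp => (hpos p.1 hp.1 p.2 (abs_le.2 hp.2)).ne'
  have hsg : ContinuousOn (fun p : X3 × ℝ => f (Mu p.1) (T p.1 + p.2 • D p.1)) (U3 ×ˢ Icc (-ε) ε) :=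
    ContinuousOn.comp (g := fun p : A4 × A4 => f p.1 p.2)
      (f := fun p : X3 × ℝ => ((Mu p.1, T p.1 + p.2 • D p.1) : A4 × A4)) cf hMS hSm
  have hG : ContinuousOn (fun p : X3 × ℝ => wd (D p.1) (f' (Mu p.1) (T p.1 + p.2 • D p.1)))
      (U3 ×ˢ Icc (-ε) ε) := by
    have k2 : ContinuousOn (fun p : X3 × ℝ => D p.1) (U3 ×ˢ Icc (-ε) ε) :=
      hD.comp continuousOn_fst (fun p hp => hp.1)
    have k3 : ContinuousOn (fun p : X3 × ℝ => f' (Mu p.1) (T p.1 + p.2 • D p.1))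
        (U3 ×ˢ Icc (-ε) ε) :=
      ContinuousOn.comp (g := fun p : A4 × A4 => f' p.1 p.2)
        (f := fun p : X3 × ℝ => ((Mu p.1, T p.1 + p.2 • D p.1) : A4 × A4)) cf' hMS hSm
    exact cont_wd.comp_continuousOn (k2.prodMk k3)
  obtain ⟨C, hC⟩ := (isCompact_U3.prod isCompact_Icc).exists_bound_of_continuousOn hG
  have hmk : ∀ t : ℝ, t ∈ Icc (-ε) ε → ContinuousOn (fun g : X3 => (g, t)) U3 := fun t _ =>
    continuousOn_id.prodMk continuousOn_const
  have h0 : (0 : ℝ) ∈ Icc (-ε) ε := ⟨by linarith, hε0.le⟩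
  have hres : ∀ (f : X3 × ℝ → ℝ), ContinuousOn f (U3 ×ˢ Icc (-ε) ε) → ∀ t ∈ Icc (-ε) ε,
      ContinuousOn (fun g => f (g, t)) U3 := by
    intro f hf t ht
    have h1 : MapsTo (fun g : X3 => (g, t)) U3 (U3 ×ˢ Icc (-ε) ε) := fun g hg => ⟨hg, ht⟩
    exact ContinuousOn.comp (g := f) (f := fun g : X3 => (g, t)) hf (hmk t ht) h1
  have main := hasDerivAt_integral_of_dominated_loc_of_deriv_le
    (F := fun (t : ℝ) (g : X3) => f (Mu g) (T g + t • D g))
    (F' := fun (t : ℝ) (g : X3) => wd (D g) (f' (Mu g) (T g + t • D g))) (μ := ν) (x₀ := 0)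
    (bound := fun _ => C) (s := ball 0 ε) (ball_mem_nhds 0 hε0) ?_ ?_ ?_ ?_ ?_ ?_
  · have h1 := main.2
    simpa using h1
  · filter_upwards [ball_mem_nhds (0 : ℝ) hε0] with t ht
    have ht' : t ∈ Icc (-ε) ε := by
      rw [mem_ball_zero_iff, Real.norm_eq_abs] at ht
      exact abs_le.1 ht.le
    have h1 := hres _ hsg t ht'
    exact (integrable_u hν h1).aestronglyMeasurable
  · have h1 := hres _ hsg 0 h0
    exact integrable_u hν h1
  · have h1 := hres _ hG 0 h0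
    exact (integrable_u hν h1).aestronglyMeasurable
  · refine ae_u hν (fun g hg t ht => ?_)
    rw [mem_ball_zero_iff, Real.norm_eq_abs] at ht
    exact hC (g, t) ⟨hg, abs_le.1 ht.le⟩
  · exact integrable_const C
  · refine ae_u hν (fun g hg t ht => ?_)
    rw [mem_ball_zero_iff, Real.norm_eq_abs] at ht
    have hp := (hpos g hg t ht.le).ne'
    exact hder g hg t hp

theorem cont_kap : Continuous fun p : A4 × A4 => kap p.1 p.2 := by
  have h1 : Continuous fun p : A4 × A4 => st p.2 := cont_st.comp continuous_snd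
  have h2 : ∀ k l : Fin 4, Continuous fun p : A4 × A4 => st p.2 k l := fun k l =>
    (continuous_apply_apply k l).comp h1
  have h3 : ∀ k l : Fin 4, Continuous fun p : A4 × A4 => p.1 k l := fun k l =>
    (continuous_apply_apply k l).comp continuous_fst
  refine continuous_pi fun i => continuous_pi fun j => ?_
  show Continuous fun p : A4 × A4 => ∑ k, ∑ l, p.1 i k * st p.2 k l * p.1 l j
  exact continuous_finset_sum _ fun k _ => continuous_finset_sum _ fun l _ =>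
    ((h3 i k).mul (h2 k l)).mul (h3 l j)

theorem cont_num : Continuous fun p : A4 × A4 => wd p.2 (kap p.1 p.2) :=
  cont_wd.comp (continuous_snd.prodMk cont_kap)

theorem cont_PfS : ContinuousOn (fun p : A4 × A4 => Pf p.2) {S : A4 × A4 | Pf S.2 ≠ 0} :=
  (cont_Pf.comp continuous_snd).continuousOn

theorem cont_fM : ContinuousOn (fun p : A4 × A4 => fM p.1 p.2) {S : A4 × A4 | Pf S.2 ≠ 0} := by
  show ContinuousOn (fun p : A4 × A4 => wd p.2 (kap p.1 p.2) / (2 * Pf p.2)) _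
  exact cont_num.continuousOn.div (continuousOn_const.mul cont_PfS)
    (fun S hS => mul_ne_zero two_ne_zero hS)

theorem cont_tM : ContinuousOn (fun p : A4 × A4 => tM p.1 p.2) {S : A4 × A4 | Pf S.2 ≠ 0} := by
  show ContinuousOn (fun p : A4 × A4 => (Pf p.2)⁻¹ • kap p.1 p.2 -
    (wd p.2 (kap p.1 p.2) / (2 * Pf p.2 ^ 2)) • p.2) _
  have h1 : ContinuousOn (fun p : A4 × A4 => (Pf p.2)⁻¹) {S : A4 × A4 | Pf S.2 ≠ 0} :=
    cont_PfS.inv₀ (fun S hS => hS)
  have h2 : ContinuousOn (fun p : A4 × A4 => wd p.2 (kap p.1 p.2) / (2 * Pf p.2 ^ 2))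
      {S : A4 × A4 | Pf S.2 ≠ 0} :=
    cont_num.continuousOn.div (continuousOn_const.mul (cont_PfS.pow 2))
      (fun S hS => mul_ne_zero two_ne_zero (pow_ne_zero 2 hS))
  exact (h1.smul cont_kap.continuousOn).sub (h2.smul continuous_snd.continuousOn)

end GDerAux

open EDerAux GDerAux

theorem hasDerivAt_EM {ν : Measure X3} (hν : Ha ν) {α γ : W → W →L[ℝ] ℝ} (hα : Conn α) (hγ : Basic γ)
    (hP : ∀ g ∈ U3, 0 < Pf (cF (dB α) g)) {μ : W → BW} (hμ : HS μ) :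
    HasDerivAt (fun t : ℝ => ∫ g, fM (cF μ g) (cF (dB α) g + t • cF (dB γ) g) ∂ν)
      (∫ g, wd (cF (dB γ) g) (tM (cF μ g) (cF (dB α) g)) ∂ν) 0 := by
  have hT := contOn (ctU_cF (dB_hfc hα).smooth)
  have hD := contOn (ctU_cF (dB_hf hγ).smooth)
  have hMc := contOn (ctU_cF hμ.smooth)
  have sT : ∀ g ∈ U3, Skew (cF (dB α) g) := fun g hg => cF_skew (dB_hfc hα) hg
  have sD : ∀ g ∈ U3, Skew (cF (dB γ) g) := fun g hg => cF_skew (dB_hf hγ) hg
  have hMp := hμ.pos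
  exact gen hν hT hD hMc hP fM tM cont_fM cont_tM
    (fun g hg t hp => hasDerivAt_fM (hMp g hg) (sT g hg) (sD g hg) t hp)

end Pool.Agent.Lib.DEn
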