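import Pool.Agent.Lib.DEn.GGr
import Pool.Agent.Lib.DEn.AFin

set_option autoImplicit false
set_option maxSynthPendingDepth 3

/-!
# The basic gradient inequality, every metric

`∫ (F² - v²) / Pf ≤ C S G²` and its consequences for the energy.
-/

open MeasureTheory Set Metric Filter
open scoped ContDiff Topology

namespace Pool.Agent.Lib.DEn

open Pool.Agent.P28b04d
open Pool.Agent.Lib.Psd (W hp ON3 fr cmp st asd sd nrm2 Pf Skew Conn Basic dd a0 c0)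

namespace GFinAux

open GGrAux

theorem ct_fM {μ : W → BW} (hμ : HS μ) {α : W → W →L[ℝ] ℝ} (hα : Conn α)
    (hP : ∀ g ∈ U3, 0 < Pf (cF (dB α) g)) : ContinuousOn (fun g => fM (cF μ g) (cF (dB α) g)) U3 := by
  have hTc : CtU (cF (dB α)) := ctU_cF (dB_hfc hα).smooth
  have hMc : CtU (cF μ) := ct_mu hμ
  unfold fM
  exact (ct_wd hTc (ct_kap hMc hTc)).div (continuousOn_const.mul (ct_pf hTc)) fun g hg =>
    (mul_pos two_pos (hP g hg)).ne'

end GFinAux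

open GGrAux GFinAux

theorem J_M {ν : Measure X3} (hν : Ha ν) {μ : W → BW} (hμ : HS μ) :
    ∃ C : ℝ, 0 < C ∧ ∀ α : W → W →L[ℝ] ℝ, Conn α → (∀ g ∈ U3, 0 < Pf (cF (dB α) g)) →
      ∀ S G : ℝ, 0 ≤ G → (∀ g ∈ U3, fM (cF μ g) (cF (dB α) g) ≤ S * vM (cF μ g)) →
      (∀ γ : W → W →L[ℝ] ℝ, Basic γ → |∫ g, wd (cF (dB γ) g) (tM (cF μ g) (cF (dB α) g)) ∂ν| ≤
        G * Real.sqrt (∫ g, ip (cF (dB γ) g) (cF (dB γ) g) ∂ν)) →
      ∫ g, (fM (cF μ g) (cF (dB α) g) ^ 2 - vM (cF μ g) ^ 2) / Pf (cF (dB α) g) ∂ν ≤ C * S * G ^ 2 := by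
  obtain ⟨v₀, v₁, hv₀, hv₁, hv⟩ := vM_bounds hμ
  obtain ⟨c, hc, hkap⟩ := kap_bound hμ
  have hcv : 0 < c * v₁ := mul_pos hc hv₁
  refine ⟨2 * (c * v₁), by positivity, ?_⟩
  intro α hα hP S G hG hS hb
  obtain ⟨Θ, hΘ, hΘe⟩ := theta_M hα hP hμ
  have hτ := dB_hfc hα
  have hTc : CtU (cF (dB α)) := ctU_cF hτ.smooth
  have hMc : CtU (cF μ) := ct_mu hμ
  have hΘc : CtU (cF Θ) := ctU_cF hΘ.smooth
  have hnc : ContinuousOn (fun g => -wd (cF Θ g) (cF Θ g)) U3 := (ct_wd hΘc hΘc).neg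
  have hic : ContinuousOn (fun g => ip (cF Θ g) (cF Θ g)) U3 := ct_ip hΘc hΘc
  have hT : ∀ g ∈ U3, Skew (cF (dB α) g) := fun g hg => cF_skew hτ hg
  have hvF : ∀ g ∈ U3, vM (cF μ g) ≤ fM (cF μ g) (cF (dB α) g) := fun g hg =>
    fM_ge (hμ.pos g hg) (hT g hg) (hP g hg)
  have hS1 : 1 ≤ S := by
    have h1 := (hvF id3 id3_mem).trans (hS id3 id3_mem)
    have h2 := vM_pos (hμ.pos id3 id3_mem)
    by_contra h3
    push Not at h3
    nlinarith
  have hn : ∀ g ∈ U3, -wd (cF Θ g) (cF Θ g) =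
      2 * (fM (cF μ g) (cF (dB α) g) ^ 2 - vM (cF μ g) ^ 2) / Pf (cF (dB α) g) := by
    intro g hg
    rw [hΘe g hg, (tM_facts (hμ.pos g hg) (hT g hg) (hP g hg)).2.2.1, vM_sq (hμ.pos g hg)]
    ring
  have hn0 : ∀ g ∈ U3, 0 ≤ -wd (cF Θ g) (cF Θ g) := by
    intro g hg
    rw [hn g hg]
    have h1 := hvF g hg
    have h2 := vM_pos (hμ.pos g hg)
    have h3 := hP g hg
    apply div_nonneg _ h3.le
    nlinarith
  have hip : ∀ g ∈ U3, ip (cF Θ g) (cF Θ g) ≤ (c * v₁ * S) * -wd (cF Θ g) (cF Θ g) := by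
    intro g hg
    have hf := tM_facts (hμ.pos g hg) (hT g hg) (hP g hg)
    have h1 := hkap g hg (cF Θ g) (cF_skew hΘ hg)
    have h2 : wd (cF Θ g) (kap (cF μ g) (cF Θ g)) =
        fM (cF μ g) (cF (dB α) g) * -wd (cF Θ g) (cF Θ g) := by
      rw [hn g hg, hΘe g hg, hf.2.2.2, vM_sq (hμ.pos g hg)]
      ring
    rw [h2] at h1
    have h3 : fM (cF μ g) (cF (dB α) g) ≤ S * v₁ :=
      (hS g hg).trans (mul_le_mul_of_nonneg_left (hv g hg).2 (by linarith))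
    have h4 : fM (cF μ g) (cF (dB α) g) * -wd (cF Θ g) (cF Θ g) ≤
        (S * v₁) * -wd (cF Θ g) (cF Θ g) := mul_le_mul_of_nonneg_right h3 (hn0 g hg)
    calc ip (cF Θ g) (cF Θ g) ≤ c * (fM (cF μ g) (cF (dB α) g) * -wd (cF Θ g) (cF Θ g)) := h1
      _ ≤ c * ((S * v₁) * -wd (cF Θ g) (cF Θ g)) := mul_le_mul_of_nonneg_left h4 hc.le
      _ = (c * v₁ * S) * -wd (cF Θ g) (cF Θ g) := by ring
  set N : ℝ := ∫ g, -wd (cF Θ g) (cF Θ g) ∂ν with hNdef
  have hN0 : 0 ≤ N := integral_nonneg_of_ae (ae_u hν hn0)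
  have hcore : N ≤ 2 * G * Real.sqrt (∫ g, ip (cF Θ g) (cF Θ g) ∂ν) := by
    have h1 := core hν hΘ hG fun γ hγ => by
      have e : ∫ g, wd (cF (dB γ) g) (cF Θ g) ∂ν =
          ∫ g, wd (cF (dB γ) g) (tM (cF μ g) (cF (dB α) g)) ∂ν :=
        integral_congr_u hν fun g hg => by rw [hΘe g hg]
      rw [e]
      exact hb γ hγ
    rw [hNdef, integral_neg]
    exact h1
  have hipI : ∫ g, ip (cF Θ g) (cF Θ g) ∂ν ≤ (c * v₁ * S) * N := by
    rw [hNdef, ← integral_const_mul]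
    exact integral_mono_ae (integrable_u hν hic) ((integrable_u hν hnc).const_mul _)
      (ae_u hν hip)
  have hNle : N ≤ 4 * G ^ 2 * (c * v₁ * S) := by
    refine quad hN0 (by positivity) hG (hcore.trans ?_)
    exact mul_le_mul_of_nonneg_left (Real.sqrt_le_sqrt hipI) (by positivity)
  have hNJ : N = 2 * ∫ g, (fM (cF μ g) (cF (dB α) g) ^ 2 - vM (cF μ g) ^ 2) / Pf (cF (dB α) g) ∂ν := by
    rw [hNdef, ← integral_const_mul]
    refine integral_congr_u hν fun g hg => ?_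
    rw [hn g hg]
    ring
  nlinarith

theorem J_enM {ν : Measure X3} (hν : Ha ν) {μ : W → BW} (hμ : HS μ) {α : W → W →L[ℝ] ℝ} (hα : Conn α)
    (hP : ∀ g ∈ U3, 0 < Pf (cF (dB α) g)) {S : ℝ}
    (hS : ∀ g ∈ U3, fM (cF μ g) (cF (dB α) g) ≤ S * vM (cF μ g)) {J v₀ : ℝ} (hv₀ : 0 < v₀)
    (hv : ∀ g ∈ U3, v₀ ≤ vM (cF μ g))
    (hJ : ∫ g, (fM (cF μ g) (cF (dB α) g) ^ 2 - vM (cF μ g) ^ 2) / Pf (cF (dB α) g) ∂ν ≤ J) :
    ∫ g, (fM (cF μ g) (cF (dB α) g) - vM (cF μ g)) ∂ν ≤ Real.sqrt (4 * ((S - 1) / (S + 1)) * J) ∧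
      ∀ U : ℝ, (∀ g ∈ U3, Pf (cF (dB α) g) ≤ U) →
        ∫ g, (fM (cF μ g) (cF (dB α) g) - vM (cF μ g)) ∂ν ≤ U * J / (2 * v₀) := by
  have hτ := dB_hfc hα
  have hTc : CtU (cF (dB α)) := ctU_cF hτ.smooth
  have hMc : CtU (cF μ) := ct_mu hμ
  have hcP : ContinuousOn (fun g => Pf (cF (dB α) g)) U3 := ct_pf hTc
  have hvc : ContinuousOn (fun g => vM (cF μ g)) U3 := ct_vM hMc
  have hfc : ContinuousOn (fun g => fM (cF μ g) (cF (dB α) g)) U3 := ct_fM hμ hα hP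
  have hT : ∀ g ∈ U3, Skew (cF (dB α) g) := fun g hg => cF_skew hτ hg
  have hvF : ∀ g ∈ U3, vM (cF μ g) ≤ fM (cF μ g) (cF (dB α) g) := fun g hg =>
    fM_ge (hμ.pos g hg) (hT g hg) (hP g hg)
  have hv1 : ∀ g ∈ U3, 0 < vM (cF μ g) := fun g hg => vM_pos (hμ.pos g hg)
  have hS1 : 1 ≤ S := by
    have h1 := (hvF id3 id3_mem).trans (hS id3 id3_mem)
    have h2 := hv1 id3 id3_mem
    by_contra h3
    push Not at h3
    nlinarith
  set F : X3 → ℝ := fun g => (fM (cF μ g) (cF (dB α) g) ^ 2 - vM (cF μ g) ^ 2) / Pf (cF (dB α) g) with hF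
  have hFc : ContinuousOn F U3 :=
    ((hfc.pow 2).sub (hvc.pow 2)).div hcP fun g hg => (hP g hg).ne'
  have hF0 : ∀ g ∈ U3, 0 ≤ F g := by
    intro g hg
    have h1 := hvF g hg
    have h2 := hv1 g hg
    exact div_nonneg (by nlinarith) (hP g hg).le
  set E : X3 → ℝ := fun g => Pf (cF (dB α) g) *
    ((fM (cF μ g) (cF (dB α) g) - vM (cF μ g)) / (fM (cF μ g) (cF (dB α) g) + vM (cF μ g))) with hE
  have hEc : ContinuousOn E U3 :=
    hcP.mul ((hfc.sub hvc).div (hfc.add hvc) fun g hg => by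
      have h1 := hvF g hg
      have h2 := hv1 g hg
      exact (by linarith : (0 : ℝ) < fM (cF μ g) (cF (dB α) g) + vM (cF μ g)).ne')
  have hE0 : ∀ g ∈ U3, 0 ≤ E g := by
    intro g hg
    have h1 := hvF g hg
    have h2 := hv1 g hg
    exact mul_nonneg (hP g hg).le (div_nonneg (by linarith) (by linarith))
  have hFE : ∀ g ∈ U3, fM (cF μ g) (cF (dB α) g) - vM (cF μ g) = Real.sqrt (F g) * Real.sqrt (E g) := by
    intro g hg
    have h1 := hvF g hg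
    have h2 := hP g hg
    have h4 := hv1 g hg
    rw [← Real.sqrt_mul (hF0 g hg)]
    have h3 : F g * E g = (fM (cF μ g) (cF (dB α) g) - vM (cF μ g)) ^ 2 := by
      simp only [hF, hE]
      have h5 : fM (cF μ g) (cF (dB α) g) + vM (cF μ g) ≠ 0 :=
        (by linarith : (0 : ℝ) < fM (cF μ g) (cF (dB α) g) + vM (cF μ g)).ne'
      field_simp
      ring
    rw [h3, Real.sqrt_sq (by linarith)]
  refine ⟨?_, fun U hU => ?_⟩
  · refine Real.le_sqrt_of_sq_le ?_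
    have h1 := AFinAux.cs2 hν (hFc.sqrt) (hEc.sqrt)
    have h2 : ∫ g, Real.sqrt (F g) * Real.sqrt (E g) ∂ν =
        ∫ g, (fM (cF μ g) (cF (dB α) g) - vM (cF μ g)) ∂ν :=
      integral_congr_u hν fun g hg => (hFE g hg).symm
    have h3 : ∫ g, Real.sqrt (F g) ^ 2 ∂ν = ∫ g, F g ∂ν :=
      integral_congr_u hν fun g hg => Real.sq_sqrt (hF0 g hg)
    have h4 : ∫ g, Real.sqrt (E g) ^ 2 ∂ν = ∫ g, E g ∂ν :=
      integral_congr_u hν fun g hg => Real.sq_sqrt (hE0 g hg)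
    have h5 : ∫ g, E g ∂ν ≤ 4 * ((S - 1) / (S + 1)) := by
      have h6 : ∫ g, E g ∂ν ≤ ∫ g, Pf (cF (dB α) g) * ((S - 1) / (S + 1)) ∂ν := by
        refine GradAux.int_mono hν hEc (hcP.mul continuousOn_const) fun g hg => ?_
        refine mul_le_mul_of_nonneg_left ?_ (hP g hg).le
        have h7 := hvF g hg
        have h8 := hS g hg
        have h9 := hv1 g hg
        rw [div_le_div_iff₀ (by linarith) (by linarith)]
        nlinarith
      rw [integral_mul_const, int_pf hν hα] at h6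
      exact h6
    rw [h2, h3, h4] at h1
    have h9 : 0 ≤ ∫ g, F g ∂ν := GradAux.int_nonneg hν hF0
    have h10 : 0 ≤ ∫ g, E g ∂ν := GradAux.int_nonneg hν hE0
    calc (∫ g, (fM (cF μ g) (cF (dB α) g) - vM (cF μ g)) ∂ν) ^ 2 ≤ (∫ g, F g ∂ν) * ∫ g, E g ∂ν := h1
      _ ≤ J * (4 * ((S - 1) / (S + 1))) := mul_le_mul hJ h5 h10 (h9.trans hJ)
      _ = 4 * ((S - 1) / (S + 1)) * J := by ring
  · have hU0 : 0 ≤ U := (hP id3 id3_mem).le.trans (hU id3 id3_mem)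
    have h1 : ∫ g, (fM (cF μ g) (cF (dB α) g) - vM (cF μ g)) ∂ν ≤ ∫ g, U / (2 * v₀) * F g ∂ν := by
      refine GradAux.int_mono hν (hfc.sub hvc) (continuousOn_const.mul hFc) fun g hg => ?_
      have h2 := hP g hg
      have h3 := hvF g hg
      have h4 := hU g hg
      have h5 := hv g hg
      set f : ℝ := fM (cF μ g) (cF (dB α) g) with hfdef
      set v : ℝ := vM (cF μ g) with hvdef
      set p : ℝ := Pf (cF (dB α) g) with hpdef
      have e : U / (2 * v₀) * ((f ^ 2 - v ^ 2) / p) = (f - v) * ((U * (f + v)) / (2 * v₀ * p)) := by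
        field_simp
        ring
      show f - v ≤ U / (2 * v₀) * ((f ^ 2 - v ^ 2) / p)
      rw [e]
      have h6 : 1 ≤ (U * (f + v)) / (2 * v₀ * p) := by
        rw [one_le_div (by positivity)]
        calc 2 * v₀ * p ≤ 2 * v * p := by
              refine mul_le_mul_of_nonneg_right ?_ h2.le
              linarith
          _ ≤ 2 * v * U := by
              refine mul_le_mul_of_nonneg_left h4 ?_
              linarith
          _ ≤ (f + v) * U := mul_le_mul_of_nonneg_right (by linarith) hU0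
          _ = U * (f + v) := mul_comm _ _
      calc f - v = (f - v) * 1 := (mul_one _).symm
        _ ≤ (f - v) * ((U * (f + v)) / (2 * v₀ * p)) :=
          mul_le_mul_of_nonneg_left h6 (by linarith)
    rw [integral_const_mul] at h1
    have h2 : U / (2 * v₀) * ∫ g, F g ∂ν ≤ U / (2 * v₀) * J :=
      mul_le_mul_of_nonneg_left hJ (by positivity)
    calc _ ≤ _ := h1
      _ ≤ _ := h2
      _ = U * J / (2 * v₀) := by ring

end Pool.Agent.Lib.DEn
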