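import Pool.Agent.Lib.DEn.GFin
import Pool.Agent.Lib.DEn.BEta

set_option autoImplicit false
set_option maxSynthPendingDepth 3

/-!
# Gradient inequality and simultaneous descent for a metric, with explicit constants
-/

open MeasureTheory Set Metric Filter
open scoped ContDiff Topology

namespace Pool.Agent.Lib.DEn

open Pool.Agent.P28b04d
open Pool.Agent.Lib.Psd (W hp ON3 fr cmp st asd sd nrm2 Pf Skew Conn Basic dd a0 c0)

namespace GJAux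

open GGrAux GFinAux

/-- pointwise facts on the gradient form -/
theorem facts {μ : W → BW} (hμ : HS μ) {c v₁ : ℝ} (hc : 0 < c)
    (hkap : ∀ g ∈ U3, ∀ X : A4, Skew X → ip X X ≤ c * wd X (kap (cF μ g) X))
    (hv : ∀ g ∈ U3, vM (cF μ g) ≤ v₁) {α : W → W →L[ℝ] ℝ} (hα : Conn α)
    (hP : ∀ g ∈ U3, 0 < Pf (cF (dB α) g)) {S : ℝ}
    (hS : ∀ g ∈ U3, fM (cF μ g) (cF (dB α) g) ≤ S * vM (cF μ g)) {Θ : W → BW} (hΘ : HF Θ)
    (hΘe : ∀ g ∈ U3, cF Θ g = tM (cF μ g) (cF (dB α) g)) :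
    1 ≤ S ∧ (∀ g ∈ U3, vM (cF μ g) ≤ fM (cF μ g) (cF (dB α) g)) ∧
    (∀ g ∈ U3, -wd (cF Θ g) (cF Θ g) =
      2 * (fM (cF μ g) (cF (dB α) g) ^ 2 - vM (cF μ g) ^ 2) / Pf (cF (dB α) g)) ∧
    (∀ g ∈ U3, 0 ≤ -wd (cF Θ g) (cF Θ g)) ∧
    (∀ g ∈ U3, ip (cF Θ g) (cF Θ g) ≤ (c * v₁ * S) * -wd (cF Θ g) (cF Θ g)) := by
  have hτ := dB_hfc hα
  have hT : ∀ g ∈ U3, Skew (cF (dB α) g) := fun g hg => cF_skew hτ hg
  have hvF : ∀ g ∈ U3, vM (cF μ g) ≤ fM (cF μ g) (cF (dB α) g) := fun g hg =>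
    fM_ge (hμ.pos g hg) (hT g hg) (hP g hg)
  have hS1 : 1 ≤ S := by
    have h1 := (hvF id3 id3_mem).trans (hS id3 id3_mem)
    have h2 := vM_pos (hμ.pos id3 id3_mem)
    by_contra h3
    push Not at h3
    nlinarith
  have hn : ∀ g ∈ U3, -wd (cF Θ g) (cF Θ g) =
      2 * (fM (cF μ g) (cF (dB α) g) ^ 2 - vM (cF μ g) ^ 2) / Pf (cF (dB α) g) := by
    intro g hg
    rw [hΘe g hg, (tM_facts (hμ.pos g hg) (hT g hg) (hP g hg)).2.2.1, vM_sq (hμ.pos g hg)]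
    ring
  have hn0 : ∀ g ∈ U3, 0 ≤ -wd (cF Θ g) (cF Θ g) := by
    intro g hg
    rw [hn g hg]
    have h1 := hvF g hg
    have h2 := vM_pos (hμ.pos g hg)
    have h3 := hP g hg
    apply div_nonneg _ h3.le
    nlinarith
  refine ⟨hS1, hvF, hn, hn0, fun g hg => ?_⟩
  have hf := tM_facts (hμ.pos g hg) (hT g hg) (hP g hg)
  have h1 := hkap g hg (cF Θ g) (cF_skew hΘ hg)
  have h2 : wd (cF Θ g) (kap (cF μ g) (cF Θ g)) =
      fM (cF μ g) (cF (dB α) g) * -wd (cF Θ g) (cF Θ g) := by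
    rw [hn g hg, hΘe g hg, hf.2.2.2, vM_sq (hμ.pos g hg)]
    ring
  rw [h2] at h1
  have h3 : fM (cF μ g) (cF (dB α) g) ≤ S * v₁ :=
    (hS g hg).trans (mul_le_mul_of_nonneg_left (hv g hg) (by linarith))
  have h4 : fM (cF μ g) (cF (dB α) g) * -wd (cF Θ g) (cF Θ g) ≤
      (S * v₁) * -wd (cF Θ g) (cF Θ g) := mul_le_mul_of_nonneg_right h3 (hn0 g hg)
  calc ip (cF Θ g) (cF Θ g) ≤ c * (fM (cF μ g) (cF (dB α) g) * -wd (cF Θ g) (cF Θ g)) := h1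
    _ ≤ c * ((S * v₁) * -wd (cF Θ g) (cF Θ g)) := mul_le_mul_of_nonneg_left h4 hc.le
    _ = (c * v₁ * S) * -wd (cF Θ g) (cF Θ g) := by ring

end GJAux

open GGrAux GFinAux GJAux

/-- the basic gradient inequality with explicit constants -/
theorem J_Mc {ν : Measure X3} (hν : Ha ν) {μ : W → BW} (hμ : HS μ) {c v₁ : ℝ} (hc : 0 < c)
    (hv₁ : 0 < v₁) (hkap : ∀ g ∈ U3, ∀ X : A4, Skew X → ip X X ≤ c * wd X (kap (cF μ g) X))
    (hv : ∀ g ∈ U3, vM (cF μ g) ≤ v₁) {α : W → W →L[ℝ] ℝ} (hα : Conn α)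
    (hP : ∀ g ∈ U3, 0 < Pf (cF (dB α) g)) {S G : ℝ} (hG : 0 ≤ G)
    (hS : ∀ g ∈ U3, fM (cF μ g) (cF (dB α) g) ≤ S * vM (cF μ g))
    (hb : ∀ γ : W → W →L[ℝ] ℝ, Basic γ → |∫ g, wd (cF (dB γ) g) (tM (cF μ g) (cF (dB α) g)) ∂ν| ≤
        G * Real.sqrt (∫ g, ip (cF (dB γ) g) (cF (dB γ) g) ∂ν)) :
    ∫ g, (fM (cF μ g) (cF (dB α) g) ^ 2 - vM (cF μ g) ^ 2) / Pf (cF (dB α) g) ∂ν ≤
      2 * (c * v₁) * S * G ^ 2 := by
  obtain ⟨Θ, hΘ, hΘe⟩ := theta_M hα hP hμ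
  obtain ⟨hS1, hvF, hn, hn0, hip⟩ := facts hμ hc hkap hv hα hP hS hΘ hΘe
  have hΘc : CtU (cF Θ) := ctU_cF hΘ.smooth
  have hnc : ContinuousOn (fun g => -wd (cF Θ g) (cF Θ g)) U3 := (ct_wd hΘc hΘc).neg
  have hic : ContinuousOn (fun g => ip (cF Θ g) (cF Θ g)) U3 := ct_ip hΘc hΘc
  set N : ℝ := ∫ g, -wd (cF Θ g) (cF Θ g) ∂ν with hNdef
  have hN0 : 0 ≤ N := integral_nonneg_of_ae (ae_u hν hn0)
  have hcore : N ≤ 2 * G * Real.sqrt (∫ g, ip (cF Θ g) (cF Θ g) ∂ν) := by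
    have h1 := core hν hΘ hG fun γ hγ => by
      have e : ∫ g, wd (cF (dB γ) g) (cF Θ g) ∂ν =
          ∫ g, wd (cF (dB γ) g) (tM (cF μ g) (cF (dB α) g)) ∂ν :=
        integral_congr_u hν fun g hg => by rw [hΘe g hg]
      rw [e]
      exact hb γ hγ
    rw [hNdef, integral_neg]
    exact h1
  have hipI : ∫ g, ip (cF Θ g) (cF Θ g) ∂ν ≤ (c * v₁ * S) * N := by
    rw [hNdef, ← integral_const_mul]
    exact integral_mono_ae (integrable_u hν hic) ((integrable_u hν hnc).const_mul _)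
      (ae_u hν hip)
  have hNle : N ≤ 4 * G ^ 2 * (c * v₁ * S) := by
    refine quad hN0 (by positivity) hG (hcore.trans ?_)
    exact mul_le_mul_of_nonneg_left (Real.sqrt_le_sqrt hipI) (by positivity)
  have hNJ : N = 2 * ∫ g, (fM (cF μ g) (cF (dB α) g) ^ 2 - vM (cF μ g) ^ 2) / Pf (cF (dB α) g) ∂ν := by
    rw [hNdef, ← integral_const_mul]
    refine integral_congr_u hν fun g hg => ?_
    rw [hn g hg]
    ring
  nlinarith

/-- the energy in terms of `J`, for bounded volume ratio -/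
theorem J_enU {ν : Measure X3} (hν : Ha ν) {μ : W → BW} (hμ : HS μ) {α : W → W →L[ℝ] ℝ} (hα : Conn α)
    (hP : ∀ g ∈ U3, 0 < Pf (cF (dB α) g)) {J U : ℝ} (hU : ∀ g ∈ U3, Pf (cF (dB α) g) / vM (cF μ g) ≤ U)
    (hJ : ∫ g, (fM (cF μ g) (cF (dB α) g) ^ 2 - vM (cF μ g) ^ 2) / Pf (cF (dB α) g) ∂ν ≤ J) :
    ∫ g, (fM (cF μ g) (cF (dB α) g) - vM (cF μ g)) ∂ν ≤ U * J / 2 := by
  have hτ := dB_hfc hα
  have hTc : CtU (cF (dB α)) := ctU_cF hτ.smooth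
  have hMc : CtU (cF μ) := ct_mu hμ
  have hcP : ContinuousOn (fun g => Pf (cF (dB α) g)) U3 := ct_pf hTc
  have hvc : ContinuousOn (fun g => vM (cF μ g)) U3 := ct_vM hMc
  have hfc : ContinuousOn (fun g => fM (cF μ g) (cF (dB α) g)) U3 := ct_fM hμ hα hP
  have hT : ∀ g ∈ U3, Skew (cF (dB α) g) := fun g hg => cF_skew hτ hg
  have hvF : ∀ g ∈ U3, vM (cF μ g) ≤ fM (cF μ g) (cF (dB α) g) := fun g hg =>
    fM_ge (hμ.pos g hg) (hT g hg) (hP g hg)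
  have hv1 : ∀ g ∈ U3, 0 < vM (cF μ g) := fun g hg => vM_pos (hμ.pos g hg)
  have hU0 : 0 ≤ U := (div_nonneg (hP id3 id3_mem).le (hv1 id3 id3_mem).le).trans (hU id3 id3_mem)
  set F : X3 → ℝ := fun g => (fM (cF μ g) (cF (dB α) g) ^ 2 - vM (cF μ g) ^ 2) / Pf (cF (dB α) g) with hF
  have hFc : ContinuousOn F U3 :=
    ((hfc.pow 2).sub (hvc.pow 2)).div hcP fun g hg => (hP g hg).ne'
  have h1 : ∫ g, (fM (cF μ g) (cF (dB α) g) - vM (cF μ g)) ∂ν ≤ ∫ g, U / 2 * F g ∂ν := by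
    refine GradAux.int_mono hν (hfc.sub hvc) (continuousOn_const.mul hFc) fun g hg => ?_
    have h2 := hP g hg
    have h3 := hvF g hg
    have h4 := hU g hg
    have h5 := hv1 g hg
    set f : ℝ := fM (cF μ g) (cF (dB α) g) with hfdef
    set v : ℝ := vM (cF μ g) with hvdef
    set p : ℝ := Pf (cF (dB α) g) with hpdef
    have e : U / 2 * ((f ^ 2 - v ^ 2) / p) = (f - v) * ((U * (f + v)) / (2 * p)) := by
      field_simp
      ring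
    show f - v ≤ U / 2 * ((f ^ 2 - v ^ 2) / p)
    rw [e]
    have h6 : 1 ≤ (U * (f + v)) / (2 * p) := by
      rw [one_le_div (by positivity)]
      rw [div_le_iff₀ h5] at h4
      calc 2 * p ≤ 2 * (U * v) := by linarith
        _ = U * (v + v) := by ring
        _ ≤ U * (f + v) := mul_le_mul_of_nonneg_left (by linarith) hU0
    calc f - v = (f - v) * 1 := (mul_one _).symm
      _ ≤ (f - v) * ((U * (f + v)) / (2 * p)) :=
        mul_le_mul_of_nonneg_left h6 (by linarith)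
  rw [integral_const_mul] at h1
  have h2 : U / 2 * ∫ g, F g ∂ν ≤ U / 2 * J := mul_le_mul_of_nonneg_left hJ (by positivity)
  calc _ ≤ _ := h1
    _ ≤ _ := h2
    _ = U * J / 2 := by ring

/-- simultaneous descent with a prescribed rate -/
theorem eta_Mc {ν : Measure X3} (hν : Ha ν) {μ : W → BW} (hμ : HS μ) {c v₁ : ℝ} (hc : 0 < c)
    (hv₁ : 0 < v₁) (hkap : ∀ g ∈ U3, ∀ X : A4, Skew X → ip X X ≤ c * wd X (kap (cF μ g) X))
    (hv : ∀ g ∈ U3, vM (cF μ g) ≤ v₁) {α : W → W →L[ℝ] ℝ} (hα : Conn α)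
    (hP : ∀ g ∈ U3, 0 < Pf (cF (dB α) g)) {S σ : ℝ}
    (hS : ∀ g ∈ U3, fM (cF μ g) (cF (dB α) g) ≤ S * vM (cF μ g)) (hσ : 1 < σ) {η : W → ℝ}
    (hη : ContinuousOn η {0}ᶜ)
    (hηh : ∀ c : ℂ, c ≠ 0 → ∀ z : W, z ≠ 0 → η (c • z) = η z) (hη0 : ∀ g ∈ U3, 0 ≤ η (g 0)) {H : ℝ}
    (hH : 2 * (c * v₁) * S * ∫ g, η (g 0) ^ 2 *
      ((fM (cF μ g) (cF (dB α) g) ^ 2 - vM (cF μ g) ^ 2) / Pf (cF (dB α) g)) ∂ν < H) :
    ∃ γ : W → W →L[ℝ] ℝ, Basic γ ∧ ∫ g, ip (cF (dB γ) g) (cF (dB γ) g) ∂ν ≤ H ∧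
      ∀ g ∈ U3, σ * vM (cF μ g) ≤ fM (cF μ g) (cF (dB α) g) →
        wd (cF (dB γ) g) (tM (cF μ g) (cF (dB α) g)) ≤
          -(η (g 0) * ((fM (cF μ g) (cF (dB α) g) ^ 2 - vM (cF μ g) ^ 2) / Pf (cF (dB α) g))) := by
  obtain ⟨Θ, hΘ, hΘe⟩ := theta_M hα hP hμ
  obtain ⟨hS1, hvF, hn, hn0, hip⟩ := facts hμ hc hkap hv hα hP hS hΘ hΘe
  obtain ⟨v₀, v₂, hv₀, hv₂, hvb⟩ := vM_bounds hμ
  have hτ := dB_hfc hα
  have hTc : CtU (cF (dB α)) := ctU_cF hτ.smooth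
  have hMc : CtU (cF μ) := ct_mu hμ
  have hcP : ContinuousOn (fun g => Pf (cF (dB α) g)) U3 := ct_pf hTc
  have hvc : ContinuousOn (fun g => vM (cF μ g)) U3 := ct_vM hMc
  have hfc : ContinuousOn (fun g => fM (cF μ g) (cF (dB α) g)) U3 := ct_fM hμ hα hP
  obtain ⟨k, hk, hkmax⟩ := isCompact_U3.exists_isMaxOn ⟨id3, id3_mem⟩ hcP
  set m : ℝ := Pf (cF (dB α) k) with hm
  have hm0 : 0 < m := hP k hk
  have hmax : ∀ g ∈ U3, Pf (cF (dB α) g) ≤ m := fun g hg => hkmax hg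
  set K : Set X3 := {g | g ∈ U3 ∧ 0 ≤ fM (cF μ g) (cF (dB α) g) - σ * vM (cF μ g)} with hK
  have hKc : IsClosed K := by
    have h1 : ContinuousOn (fun g => fM (cF μ g) (cF (dB α) g) - σ * vM (cF μ g)) U3 :=
      hfc.sub (continuousOn_const.mul hvc)
    have h2 := h1.preimage_isClosed_of_isClosed isCompact_U3.isClosed (isClosed_Ici (a := (0 : ℝ)))
    exact h2
  have hA : 0 < c * v₁ * S := by positivity
  have hκ : 0 < 2 * ((σ ^ 2 - 1) * v₀ ^ 2) / m := by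
    have : 0 < σ ^ 2 - 1 := by nlinarith
    positivity
  obtain ⟨γ, hγ, hγH, hγK⟩ := descent_eta hν hΘ (K := K) hKc (fun g hg => hg.1) hA hκ
    (fun g hg => by linarith [hip g hg]) (fun g hg => by
      rw [hn g hg.1]
      have h1 := hg.2
      have h2 := (hvb g hg.1).1
      have h3 := hP g hg.1
      refine div_le_div₀ ?_ ?_ h3 (hmax g hg.1)
      · have h4 := hvF g hg.1
        nlinarith
      · have h4 : σ * vM (cF μ g) ≤ fM (cF μ g) (cF (dB α) g) := by linarith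
        have h5 : (σ * vM (cF μ g)) ^ 2 ≤ fM (cF μ g) (cF (dB α) g) ^ 2 :=
          pow_le_pow_left₀ (mul_nonneg (by linarith) (vM_pos (hμ.pos g hg.1)).le) h4 2
        have h6 : v₀ ^ 2 ≤ vM (cF μ g) ^ 2 := pow_le_pow_left₀ hv₀.le h2 2
        have h7 : 0 < σ ^ 2 - 1 := by nlinarith
        nlinarith [mul_le_mul_of_nonneg_left h6 h7.le])
    (η := fun z => η z / 2) (hη.div_const 2) (fun c hc z hz => by rw [hηh c hc z hz])
    (fun g hg => by have := hη0 g hg; positivity) (H := H) (by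
      refine lt_of_le_of_lt (le_of_eq ?_) hH
      rw [← integral_neg, ← integral_const_mul, ← integral_const_mul]
      refine integral_congr_u hν fun g hg => ?_
      have h1 := hn g hg
      calc 4 * (c * v₁ * S) * -((η (g 0) / 2) ^ 2 * wd (cF Θ g) (cF Θ g))
          = (c * v₁ * S) * (η (g 0)) ^ 2 * -wd (cF Θ g) (cF Θ g) := by ring
        _ = _ := by rw [h1]; ring)
  refine ⟨γ, hγ, hγH, fun g hg hg2 => ?_⟩
  have h1 := hγK g ⟨hg, by linarith⟩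
  rw [hΘe g hg] at h1
  have h2 := hn g hg
  rw [hΘe g hg] at h2
  calc wd (cF (dB γ) g) (tM (cF μ g) (cF (dB α) g))
      ≤ η (g 0) / 2 * wd (tM (cF μ g) (cF (dB α) g)) (tM (cF μ g) (cF (dB α) g)) := h1
    _ = -(η (g 0) / 2 * -wd (tM (cF μ g) (cF (dB α) g)) (tM (cF μ g) (cF (dB α) g))) := by ring
    _ = _ := by rw [h2]; ring

end Pool.Agent.Lib.DEn
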