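import Pool.Agent.Lib.DEn.CoreN
import Pool.Agent.Lib.DEn.ThU
import Pool.Agent.Lib.DEn.Stokes

set_option autoImplicit false
set_option maxSynthPendingDepth 3

/-!
# The gradient inequality and uniqueness, for connection forms  (1.2 h)

`T = cF (dB α) g`, `Θ` of `theta_up`, `s = sg T`, `P = Pf T`. `M := ∫ 2 (s² - 1) / P = - ∫ wd (th T) (th T)` (`th_facts`), `∫ ip (th T) (th T) = ∫ 2 s (s² - 1) / P ≤ S M` (`1 ≤ s ≤ S`, `sg_ge`). `core`: `M ≤ 2 G √(S M)`, so `M ≤ 4 S G²`. `∫ P = 4` (`int_pf`), `s² - 1 ≥ 2 (s - 1)`, so `∫ (s - 1) / P ≤ M / 4`.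
`∫ s - 1 = ∫ (s - 1)` (`ν` is a probability measure) `= ∫ √((s-1)/P) √((s-1) P) ≤ √(∫ (s-1)/P) √(∫ (s-1) P) ≤ √(M/4) √(4 (S-1)) ≤ √(S G²) √(4 (S - 1))` (Cauchy-Schwarz; or: for every `a > 0`, `s - 1 ≤ (a (s-1)/P + (s-1) P / a) / 2`, integrate and optimise `a`). If `P ≤ U`: `∫ (s-1) ≤ U ∫ (s-1)/P ≤ U M / 4 ≤ S U G²`.
`crit_uniq`: `s` is continuous on the compact set `U3`, so bounded by some `S`; the first part with `G = 0`: `∫ (s - 1) = 0`, so `s = 1` on `U3` (`eq_zero_of_int`), `st T = T` (`sg_one`). `δ = α - a0` is basic, `D = cF (dB δ) g = T - c0` satisfies `st D = D` (`c0_st`), so `0 = ∫ wd D D = ∫ ip D D` (`stokes0`, `dB_cl`, `wd_st`), a continuous nonnegative function; `D = 0` (`ip_zero`).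
-/

open MeasureTheory Set Metric Filter
open scoped ContDiff Topology

namespace Pool.Agent.Lib.DEn

open Pool.Agent.P28b04d
open Pool.Agent.Lib.Psd (W hp ON3 fr cmp st asd sd nrm2 Pf Skew Conn Basic dd a0 c0)

namespace GradAux

theorem cont_pf {F : X3 → A4} (h : CtU F) : ContinuousOn (fun g => Pf (F g)) U3 := by
  show ContinuousOn (fun g => F g 0 1 * F g 2 3 - F g 0 2 * F g 1 3 + F g 0 3 * F g 1 2) U3
  exact (((h 0 1).mul (h 2 3)).sub ((h 0 2).mul (h 1 3))).add ((h 0 3).mul (h 1 2))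

theorem cont_nrm2 {F : X3 → A4} (h : CtU F) : ContinuousOn (fun g => nrm2 (F g)) U3 := by
  show ContinuousOn (fun g => ∑ i, ∑ j, F g i j ^ 2) U3
  exact continuousOn_finsetSum _ fun i _ => continuousOn_finsetSum _ fun j _ => (h i j).pow 2

theorem cont_ip {F : X3 → A4} (h : CtU F) : ContinuousOn (fun g => ip (F g) (F g)) U3 := by
  show ContinuousOn (fun g => (∑ i, ∑ j, F g i j * F g i j) / 2) U3
  exact (continuousOn_finsetSum _ fun i _ =>
    continuousOn_finsetSum _ fun j _ => (h i j).mul (h i j)).div_const 2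

theorem cont_sg {F : X3 → A4} (h : CtU F) (hP : ∀ g ∈ U3, 0 < Pf (F g)) :
    ContinuousOn (fun g => sg (F g)) U3 := by
  show ContinuousOn (fun g => nrm2 (F g) / (4 * Pf (F g))) U3
  refine (cont_nrm2 h).div (continuousOn_const.mul (cont_pf h)) fun g hg => ?_
  have := hP g hg
  positivity

theorem int_mono {ν : Measure X3} (hν : Ha ν) {f k : X3 → ℝ} (hf : ContinuousOn f U3)
    (hk : ContinuousOn k U3) (h : ∀ g ∈ U3, f g ≤ k g) : ∫ g, f g ∂ν ≤ ∫ g, k g ∂ν :=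
  integral_mono_ae (integrable_u hν hf) (integrable_u hν hk) (ae_u hν h)

theorem int_nonneg {ν : Measure X3} (hν : Ha ν) {f : X3 → ℝ} (h : ∀ g ∈ U3, 0 ≤ f g) :
    0 ≤ ∫ g, f g ∂ν :=
  integral_nonneg_of_ae (ae_u hν h)

/-- weighted Cauchy-Schwarz -/
theorem cs {ν : Measure X3} (hν : Ha ν) {u P : X3 → ℝ} (hu : ContinuousOn u U3)
    (hP : ContinuousOn P U3) (hu0 : ∀ g ∈ U3, 0 ≤ u g) (hP0 : ∀ g ∈ U3, 0 < P g) :
    (∫ g, u g ∂ν) ^ 2 ≤ (∫ g, u g / P g ∂ν) * ∫ g, u g * P g ∂ν := by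
  have hc1 : ContinuousOn (fun g => u g / P g) U3 := hu.div hP fun g hg => (hP0 g hg).ne'
  have hc2 : ContinuousOn (fun g => u g * P g) U3 := hu.mul hP
  have h1 : ∀ t : ℝ, 0 ≤ (∫ g, u g * P g ∂ν) * (t * t) + (-2 * ∫ g, u g ∂ν) * t +
      ∫ g, u g / P g ∂ν := by
    intro t
    have h2 : (∫ g, u g * P g ∂ν) * (t * t) + (-2 * ∫ g, u g ∂ν) * t + ∫ g, u g / P g ∂ν =
        ∫ g, ((t * t) * (u g * P g) + (-2 * t) * u g + u g / P g) ∂ν := by
      rw [integral_add, integral_add, integral_const_mul, integral_const_mul]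
      · ring
      · exact (integrable_u hν hc2).const_mul _
      · exact (integrable_u hν hu).const_mul _
      · exact ((integrable_u hν hc2).const_mul _).add ((integrable_u hν hu).const_mul _)
      · exact integrable_u hν hc1
    rw [h2]
    refine int_nonneg hν fun g hg => ?_
    have h3 := hP0 g hg
    have h4 : (t * t) * (u g * P g) + (-2 * t) * u g + u g / P g =
        u g * (t * P g - 1) ^ 2 / P g := by
      field_simp
      ring
    rw [h4]
    exact div_nonneg (mul_nonneg (hu0 g hg) (sq_nonneg _)) h3.le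
  have h5 := discrim_le_zero h1
  unfold discrim at h5
  nlinarith

end GradAux

open GradAux in
theorem grad_ineq {ν : Measure X3} (hν : Ha ν) {α : W → W →L[ℝ] ℝ} (hα : Conn α)
    (hP : ∀ g ∈ U3, 0 < Pf (cF (dB α) g)) {S G : ℝ} (hG : 0 ≤ G) (hS : ∀ g ∈ U3, sg (cF (dB α) g) ≤ S)
    (hb : ∀ γ : W → W →L[ℝ] ℝ, Basic γ → |∫ g, wd (cF (dB γ) g) (th (cF (dB α) g)) ∂ν| ≤
      G * Real.sqrt (∫ g, ip (cF (dB γ) g) (cF (dB γ) g) ∂ν)) :
    ∫ g, sg (cF (dB α) g) ∂ν - 1 ≤ 2 * Real.sqrt (S * (S - 1)) * G ∧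
      ∀ U : ℝ, (∀ g ∈ U3, Pf (cF (dB α) g) ≤ U) → ∫ g, sg (cF (dB α) g) ∂ν - 1 ≤ S * U * G ^ 2 := by
  have hprob : IsProbabilityMeasure ν := hν.prob
  have hHF : HF (dB α) := dB_hfc hα
  have hct : CtU (cF (dB α)) := ctU_cF hHF.smooth
  have hsk : ∀ g ∈ U3, Skew (cF (dB α) g) := fun g hg => cF_skew hHF hg
  obtain ⟨Θ, hΘ, hΘe⟩ := theta_up hα hP
  have hcP := cont_pf hct
  have hcs := cont_sg hct hP
  have hs1 : ∀ g ∈ U3, 1 ≤ sg (cF (dB α) g) := fun g hg => sg_ge (hsk g hg) (hP g hg)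
  have hS1 : 1 ≤ S := (hs1 id3 id3_mem).trans (hS id3 id3_mem)
  -- the quantity `M`
  set M : ℝ := ∫ g, 2 * (sg (cF (dB α) g) ^ 2 - 1) / Pf (cF (dB α) g) ∂ν with hM
  have hcM : ContinuousOn (fun g => 2 * (sg (cF (dB α) g) ^ 2 - 1) / Pf (cF (dB α) g)) U3 :=
    (continuousOn_const.mul ((hcs.pow 2).sub continuousOn_const)).div hcP fun g hg => (hP g hg).ne'
  have hM0 : 0 ≤ M := by
    refine int_nonneg hν fun g hg => ?_
    have h1 := hs1 g hg
    have h2 := hP g hg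
    have h3 : 0 ≤ sg (cF (dB α) g) ^ 2 - 1 := by nlinarith
    positivity
  have hMe : -∫ g, wd (cF Θ g) (cF Θ g) ∂ν = M := by
    rw [hM, ← integral_neg]
    refine integral_congr_u hν fun g hg => ?_
    rw [hΘe g hg, (th_facts (hsk g hg) (hP g hg)).2.2.1]
    ring
  have hI : ∫ g, ip (cF Θ g) (cF Θ g) ∂ν ≤ S * M := by
    rw [hM, ← integral_const_mul]
    refine int_mono hν (cont_ip (ctU_cF hΘ.smooth)) (continuousOn_const.mul hcM) fun g hg => ?_
    rw [hΘe g hg, (th_facts (hsk g hg) (hP g hg)).2.2.2, ← mul_div_assoc]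
    have h1 := hs1 g hg
    have h2 := hP g hg
    have h3 : 0 ≤ sg (cF (dB α) g) ^ 2 - 1 := by nlinarith
    have h4 := hS g hg
    refine div_le_div_of_nonneg_right ?_ h2.le
    nlinarith [mul_le_mul_of_nonneg_right h4 h3]
  have hcore := core hν hΘ hG (fun γ hγ => by
    have h1 : ∫ g, wd (cF (dB γ) g) (cF Θ g) ∂ν =
        ∫ g, wd (cF (dB γ) g) (th (cF (dB α) g)) ∂ν :=
      integral_congr_u hν fun g hg => by rw [hΘe g hg]
    rw [h1]
    exact hb γ hγ)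
  rw [hMe] at hcore
  have hMS : M ≤ 4 * S * G ^ 2 := by
    have h1 : M ≤ 2 * G * Real.sqrt (S * M) :=
      hcore.trans (mul_le_mul_of_nonneg_left (Real.sqrt_le_sqrt hI) (by positivity))
    rcases hM0.eq_or_lt with h0 | h0
    · rw [← h0]; positivity
    · have hSM : 0 ≤ S * M := by positivity
      have h2 : M ^ 2 ≤ (2 * G * Real.sqrt (S * M)) ^ 2 :=
        pow_le_pow_left₀ hM0 h1 2
      rw [mul_pow, Real.sq_sqrt hSM] at h2
      have h3 : M * M ≤ (4 * S * G ^ 2) * M := by nlinarith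
      exact le_of_mul_le_mul_right h3 h0
  -- the function `u = s - 1`
  have hcu : ContinuousOn (fun g => sg (cF (dB α) g) - 1) U3 := hcs.sub continuousOn_const
  have hu0 : ∀ g ∈ U3, 0 ≤ sg (cF (dB α) g) - 1 := fun g hg => by linarith [hs1 g hg]
  have hX : ∫ g, sg (cF (dB α) g) ∂ν - 1 = ∫ g, (sg (cF (dB α) g) - 1) ∂ν := by
    rw [integral_sub (integrable_u hν hcs) (integrable_const _)]
    simp
  have hcA : ContinuousOn (fun g => (sg (cF (dB α) g) - 1) / Pf (cF (dB α) g)) U3 :=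
    hcu.div hcP fun g hg => (hP g hg).ne'
  have hA : ∫ g, (sg (cF (dB α) g) - 1) / Pf (cF (dB α) g) ∂ν ≤ S * G ^ 2 := by
    have h1 : ∫ g, 4 * ((sg (cF (dB α) g) - 1) / Pf (cF (dB α) g)) ∂ν ≤ M := by
      refine int_mono hν (continuousOn_const.mul hcA) hcM fun g hg => ?_
      have h1 := hs1 g hg
      have h2 := hP g hg
      rw [← mul_div_assoc]
      refine div_le_div_of_nonneg_right ?_ h2.le
      nlinarith
    rw [integral_const_mul] at h1
    linarith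
  have hA0 : 0 ≤ ∫ g, (sg (cF (dB α) g) - 1) / Pf (cF (dB α) g) ∂ν :=
    int_nonneg hν fun g hg => div_nonneg (hu0 g hg) (hP g hg).le
  constructor
  · have hB : ∫ g, (sg (cF (dB α) g) - 1) * Pf (cF (dB α) g) ∂ν ≤ 4 * (S - 1) := by
      have h1 : ∫ g, (sg (cF (dB α) g) - 1) * Pf (cF (dB α) g) ∂ν ≤
          ∫ g, (S - 1) * Pf (cF (dB α) g) ∂ν :=
        int_mono hν (hcu.mul hcP) (continuousOn_const.mul hcP) fun g hg =>
          mul_le_mul_of_nonneg_right (by linarith [hS g hg]) (hP g hg).le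
      rw [integral_const_mul, int_pf hν hα] at h1
      linarith
    have hcs2 := cs hν hcu hcP hu0 hP
    have hB0 : 0 ≤ ∫ g, (sg (cF (dB α) g) - 1) * Pf (cF (dB α) g) ∂ν :=
      int_nonneg hν fun g hg => mul_nonneg (hu0 g hg) (hP g hg).le
    have h2 : (∫ g, (sg (cF (dB α) g) - 1) ∂ν) ^ 2 ≤ (S * G ^ 2) * (4 * (S - 1)) :=
      hcs2.trans (mul_le_mul hA hB hB0 (by positivity))
    have h3 : (S * G ^ 2) * (4 * (S - 1)) = (2 * Real.sqrt (S * (S - 1)) * G) ^ 2 := by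
      rw [mul_pow, mul_pow, Real.sq_sqrt (mul_nonneg (by linarith) (by linarith))]
      ring
    rw [h3] at h2
    rw [hX]
    exact (abs_le_of_sq_le_sq' h2 (by positivity)).2
  · intro U hU
    rw [hX]
    have hU0 : 0 ≤ U := (hP id3 id3_mem).le.trans (hU id3 id3_mem)
    have h1 : ∫ g, (sg (cF (dB α) g) - 1) ∂ν ≤
        ∫ g, U * ((sg (cF (dB α) g) - 1) / Pf (cF (dB α) g)) ∂ν := by
      refine int_mono hν hcu (continuousOn_const.mul hcA) fun g hg => ?_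
      have h2 := hP g hg
      rw [← mul_div_assoc, le_div_iff₀ h2, mul_comm]
      exact mul_le_mul_of_nonneg_right (hU g hg) (hu0 g hg)
    rw [integral_const_mul] at h1
    have h2 := mul_le_mul_of_nonneg_left hA hU0
    calc ∫ g, (sg (cF (dB α) g) - 1) ∂ν ≤ _ := h1
      _ ≤ U * (S * G ^ 2) := h2
      _ = S * U * G ^ 2 := by ring

open GradAux in
theorem crit_uniq {ν : Measure X3} (hν : Ha ν) {α : W → W →L[ℝ] ℝ} (hα : Conn α)
    (hP : ∀ g ∈ U3, 0 < Pf (cF (dB α) g))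
    (hb : ∀ γ : W → W →L[ℝ] ℝ, Basic γ → ∫ g, wd (cF (dB γ) g) (th (cF (dB α) g)) ∂ν = 0) :
    ∀ g ∈ U3, cF (dB α) g = c0 := by
  have hprob : IsProbabilityMeasure ν := hν.prob
  have hHF : HF (dB α) := dB_hfc hα
  have hct : CtU (cF (dB α)) := ctU_cF hHF.smooth
  have hsk : ∀ g ∈ U3, Skew (cF (dB α) g) := fun g hg => cF_skew hHF hg
  have hcs := cont_sg hct hP
  have hs1 : ∀ g ∈ U3, 1 ≤ sg (cF (dB α) g) := fun g hg => sg_ge (hsk g hg) (hP g hg)
  obtain ⟨S, hS⟩ : ∃ S : ℝ, ∀ g ∈ U3, sg (cF (dB α) g) ≤ S := by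
    obtain ⟨S, hS⟩ := (isCompact_U3.image_of_continuousOn hcs).bddAbove
    exact ⟨S, fun g hg => hS ⟨g, hg, rfl⟩⟩
  have h1 := (grad_ineq hν hα hP (le_refl (0 : ℝ)) hS (fun γ hγ => by rw [hb γ hγ]; simp)).1
  rw [mul_zero] at h1
  have hcu : ContinuousOn (fun g => sg (cF (dB α) g) - 1) U3 := hcs.sub continuousOn_const
  have hu0 : ∀ g ∈ U3, 0 ≤ sg (cF (dB α) g) - 1 := fun g hg => by linarith [hs1 g hg]
  have hX : ∫ g, sg (cF (dB α) g) ∂ν - 1 = ∫ g, (sg (cF (dB α) g) - 1) ∂ν := by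
    rw [integral_sub (integrable_u hν hcs) (integrable_const _)]
    simp
  rw [hX] at h1
  have h2 : ∫ g, (sg (cF (dB α) g) - 1) ∂ν = 0 := le_antisymm h1 (int_nonneg hν hu0)
  have h3 := eq_zero_of_int hν hcu hu0 h2
  have hst : ∀ g ∈ U3, st (cF (dB α) g) = cF (dB α) g := fun g hg =>
    sg_one (hsk g hg) (hP g hg) (by linarith [h3 g hg])
  -- the difference with the Fubini-Study form
  have hδ : Basic (fun z => α z - a0 z) := Psd.Conn.sub hα Psd.a0_conn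
  have hD : ∀ g ∈ U3, cF (dB α) g = cF (dB fun z => α z - a0 z) g + c0 := by
    intro g hg
    have h4 := cF_dB_add hδ.smooth Psd.a0_conn.smooth hg
    rw [cF_dB_a0 hg] at h4
    rw [← h4]
    congr 2
    funext z
    exact (sub_add_cancel (α z) (a0 z)).symm
  have hskD : ∀ g ∈ U3, Skew (cF (dB fun z => α z - a0 z) g) := fun g hg => cF_skew (dB_hf hδ) hg
  have hstD : ∀ g ∈ U3, st (cF (dB fun z => α z - a0 z) g) = cF (dB fun z => α z - a0 z) g := by
    intro g hg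
    have h4 := hst g hg
    rw [hD g hg, st_add, c0_st.2.1] at h4
    exact add_right_cancel h4
  have h5 := stokes0 hν hδ (dB_hf hδ) (dB_cl hδ.smooth)
  have h6 : ∫ g, ip (cF (dB fun z => α z - a0 z) g) (cF (dB fun z => α z - a0 z) g) ∂ν = 0 := by
    rw [← h5]
    refine integral_congr_u hν fun g hg => ?_
    have h7 := wd_st (hskD g hg) (hskD g hg)
    rw [hstD g hg] at h7
    exact h7.symm
  have h8 := eq_zero_of_int hν (cont_ip (ctU_cF (dB_hf hδ).smooth))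
    (fun g _ => ip_nonneg (cF (dB fun z => α z - a0 z) g)) h6
  intro g hg
  rw [hD g hg, ip_zero (h8 g hg), zero_add]

end Pool.Agent.Lib.DEn
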