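import Pool.Agent.Lib.DEn.DefsM
import Pool.Agent.Lib.DEn.Grad
import Pool.Agent.Lib.DEn.BrM
import Pool.Agent.Lib.DEn.EDer
import Pool.Agent.Lib.DEn.Near

set_option autoImplicit false
set_option maxSynthPendingDepth 3

/-!
# The gradient inequality for Donaldson's energy on the projective plane
-/

open MeasureTheory Set Metric
open scoped ContDiff Topology

namespace Pool.Agent.Lib.DEn

open Pool.Agent.P28b04d
open Pool.Agent.Lib.Psd (W hp ON3 fr cmp st asd sd nrm2 Pf Skew Conn Basic dd a0 c0 Mat form fs Tan tv cmpM NondegM pb)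

namespace MainAAux

theorem dens_eq {T : A4} (h : Skew T) (hP : Pf T ≠ 0) : dens T = sg T + 1 := by
  have h1 := Psd.nrm2_split h
  have h2 := Psd.Pf_split h
  have h3 : nrm2 (sd T) - nrm2 (asd T) ≠ 0 := by
    rw [← h2]
    exact mul_ne_zero (by norm_num) hP
  unfold dens sg
  rw [h2, h1, div_add_one h3]
  congr 1
  ring

end MainAAux

open MainAAux

/-- positivity, skewness and the derivative of the energy -/
theorem setup {ν : Measure X3} (hν : Ha ν) {β : Mat → Mat →L[ℝ] ℝ} (hβ : ContDiff ℝ ∞ β)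
    (hn : NondegM (form β)) :
    (∀ g ∈ U3, Skew (frm (form β) g) ∧ 0 < Pf (frm (form β) g)) ∧
    ∀ γ : Mat → Mat →L[ℝ] ℝ, ContDiff ℝ ∞ γ →
      HasDerivAt (fun t : ℝ => En ν fun P => β P + t • γ P)
        (∫ g, wd (frm (dd γ) g) (th (frm (form β) g)) ∂ν) 0 := by
  obtain ⟨hα, hαc⟩ := conn_form hβ
  set α : W → W →L[ℝ] ℝ := fun z => a0 z + pb β z with hαdef
  have hP : ∀ g ∈ U3, 0 < Pf (cF (dB α) g) := by
    refine pf_sign hν hα (int_pf hν hα) fun g hg => ?_
    rw [hαc g hg]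
    exact nd_pf hβ hn g hg
  have hS : ∀ g ∈ U3, Skew (frm (form β) g) ∧ 0 < Pf (frm (form β) g) := by
    intro g hg
    have h1 : frm (form β) g = cF (dB α) g := (hαc g hg).symm
    rw [h1]
    exact ⟨cF_skew (dB_hfc hα) hg, hP g hg⟩
  refine ⟨hS, fun γ hγ => ?_⟩
  obtain ⟨hb, hbc⟩ := basic_pb hγ
  have h1 := hasDerivAt_E hν hα hb hP
  have h2 : ∫ g, wd (cF (dB (pb γ)) g) (th (cF (dB α) g)) ∂ν =
      ∫ g, wd (frm (dd γ) g) (th (frm (form β) g)) ∂ν := by
    refine integral_congr_u hν fun g hg => ?_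
    rw [hbc g hg, hαc g hg]
    rfl
  rw [← h2]
  -- near `0` the energies agree up to a constant
  have h4 : HasDerivAt (fun t : ℝ => ∫ g, sg (cF (dB α) g + t • cF (dB (pb γ)) g) ∂ν + 1)
      (∫ g, wd (cF (dB (pb γ)) g) (th (cF (dB α) g)) ∂ν) 0 := h1.add_const 1
  refine h4.congr_of_eventuallyEq ?_
  have hTc : CtU (cF (dB α)) := ctU_cF (dB_hfc hα).smooth
  have hDc : CtU (cF (dB (pb γ))) := ctU_cF (dB_hf hb).smooth
  obtain ⟨ε, hε, hpos'⟩ := pf_near hTc hDc hP
  have hpos : ∀ t : ℝ, |t| < ε → ∀ g ∈ U3, 0 < Pf (frm (form β) g + t • frm (dd γ) g) := by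
    intro t ht g hg
    have h := hpos' t ht g hg
    rw [hαc g hg, hbc g hg] at h
    exact h
  have h5 : ∀ᶠ t : ℝ in 𝓝 0, |t| < ε := by
    have : Metric.ball (0 : ℝ) ε ∈ 𝓝 (0 : ℝ) := Metric.ball_mem_nhds _ hε
    filter_upwards [this] with t ht
    simpa [Real.dist_eq] using ht
  filter_upwards [h5] with t ht
  have hprob := hν.prob
  have h6 : En ν (fun P => β P + t • γ P) =
      ∫ g, (sg (cF (dB α) g + t • cF (dB (pb γ)) g) + 1) ∂ν := by
    unfold En
    refine integral_congr_u hν fun g hg => ?_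
    have h7 : frm (form fun P => β P + t • γ P) g = frm (form β) g + t • frm (dd γ) g :=
      cmp_lin hβ hγ t _ _ _
    have h8 : Skew (frm (form β) g + t • frm (dd γ) g) := by
      have hs := (hS g hg).1
      have hs' : Skew (frm (dd γ) g) := by
        have : frm (dd γ) g = cF (dB (pb γ)) g := (hbc g hg).symm
        rw [this]
        exact cF_skew (dB_hf hb) hg
      intro i j
      simp only [Pi.add_apply, Pi.smul_apply, smul_eq_mul]
      rw [hs i j, hs' i j]
      ring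
    rw [h7, dens_eq h8 (hpos t ht g hg).ne', hαc g hg, hbc g hg]
    rfl
  rw [h6]
  have h9 : Integrable (fun g => sg (cF (dB α) g + t • cF (dB (pb γ)) g)) ν :=
    integrable_u hν (cont_sg (ctU_lin hTc hDc t) fun g hg => (hpos' t ht g hg).ne')
  rw [integral_add h9 (integrable_const 1), integral_const]
  simp

/-- the energy of a symplectic form in terms of the distortion -/
theorem En_eq {ν : Measure X3} (hν : Ha ν) {β : Mat → Mat →L[ℝ] ℝ} (hβ : ContDiff ℝ ∞ β)
    (hn : NondegM (form β)) : En ν β = ∫ g, sg (frm (form β) g) ∂ν + 1 := by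
  obtain ⟨hS, -⟩ := setup hν hβ hn
  obtain ⟨hα, hαc⟩ := conn_form hβ
  have hprob := hν.prob
  have h1 : En ν β = ∫ g, (sg (frm (form β) g) + 1) ∂ν :=
    integral_congr_u hν fun g hg => dens_eq (hS g hg).1 (hS g hg).2.ne'
  have hc : ContinuousOn (fun g => sg (frm (form β) g)) U3 := by
    have h2 : ContinuousOn (fun g => sg (cF (dB fun z => a0 z + pb β z) g)) U3 := by
      refine cont_sg (ctU_cF (dB_hfc hα).smooth) fun g hg => ?_
      rw [hαc g hg]
      exact (hS g hg).2.ne'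
    refine h2.congr fun g hg => ?_
    show sg (frm (form β) g) = sg (cF (dB fun z => a0 z + pb β z) g)
    rw [hαc g hg]
    rfl
  rw [h1, integral_add (integrable_u hν hc) (integrable_const 1), integral_const]
  simp

theorem mainA (ν : Measure X3) (hν : Ha ν) (β : Mat → Mat →L[ℝ] ℝ) (hβ : ContDiff ℝ ∞ β)
    (hn : NondegM (form β)) :
    (∀ S G : ℝ, 0 ≤ G → (∀ g ∈ U3, dens (frm (form β) g) ≤ S + 1) → DLe ν β G →
      En ν β - En ν 0 ≤ 2 * Real.sqrt (S * (S - 1)) * G ∧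
      ∀ U : ℝ, (∀ g ∈ U3, Pf (frm (form β) g) ≤ U) → En ν β - En ν 0 ≤ S * U * G ^ 2) ∧
    ((∀ γ : Mat → Mat →L[ℝ] ℝ, ContDiff ℝ ∞ γ →
        deriv (fun t : ℝ => En ν fun P => β P + t • γ P) 0 = 0) →
      ∀ P ∈ CP 2, ∀ Y ∈ Tan P, ∀ Z ∈ Tan P, form β P Y Z = fs P Y Z) := by
  obtain ⟨hS, hder⟩ := setup hν hβ hn
  obtain ⟨hα, hαc⟩ := conn_form hβ
  have hprob := hν.prob
  set α : W → W →L[ℝ] ℝ := fun z => a0 z + pb β z with hαdef
  have hαf : ∀ g ∈ U3, cF (dB α) g = frm (form β) g := hαc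
  have hP : ∀ g ∈ U3, 0 < Pf (cF (dB α) g) := by
    intro g hg
    rw [hαf g hg]
    exact (hS g hg).2
  have hE : En ν β = ∫ g, sg (cF (dB α) g) ∂ν + 1 := by
    rw [En_eq hν hβ hn]
    congr 1
    refine integral_congr_u hν fun g hg => ?_
    rw [hαf g hg]
  have hE0 : En ν 0 = 2 := by
    have h1 : En ν 0 = ∫ _g : X3, (2 : ℝ) ∂ν := by
      refine integral_congr_u hν fun g hg => ?_
      have h0 : ContDiff ℝ ∞ (0 : Mat → Mat →L[ℝ] ℝ) := contDiff_const
      obtain ⟨-, h2⟩ := conn_form h0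
      have h3 : frm (form 0) g = c0 := by
        have h4 := h2 g hg
        have h5 : (fun z => a0 z + pb (0 : Mat → Mat →L[ℝ] ℝ) z) = a0 := by
          funext z
          show a0 z + ((0 : Mat →L[ℝ] ℝ).comp _) = a0 z
          simp
        rw [h5, cF_dB_a0 hg] at h4
        exact h4.symm
      show dens (frm (form 0) g) = 2
      rw [h3, dens_eq c0_st.1 (by rw [c0_st.2.2.1]; norm_num), c0_st.2.2.2]
      norm_num
    rw [h1, integral_const]
    simp
  -- transfer of one-forms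
  have hb : ∀ G : ℝ, DLe ν β G → ∀ γ : W → W →L[ℝ] ℝ, Basic γ →
      |∫ g, wd (cF (dB γ) g) (th (cF (dB α) g)) ∂ν| ≤
        G * Real.sqrt (∫ g, ip (cF (dB γ) g) (cF (dB γ) g) ∂ν) := by
    intro G hG γ hγ
    obtain ⟨γ', hγ', hγz⟩ := exists_mat hγ
    have h1 := hG γ' hγ'
    rw [(hder γ' hγ').deriv] at h1
    obtain ⟨-, hbc⟩ := basic_pb hγ'
    have hcF : ∀ g ∈ U3, cF (dB γ) g = frm (dd γ') g := by
      intro g hg
      have h2 : cF (dB (pb γ')) g = cF (dB γ) g := by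
        have h3 : dB (pb γ') (g 0) = dB γ (g 0) := by
          have h4 : pb γ' =ᶠ[𝓝 (g 0)] γ := by
            filter_upwards [isOpen_compl_singleton.mem_nhds
              (show g 0 ∈ ({0}ᶜ : Set W) from col_ne hg 0)] with y hy
            exact hγz y hy
          simp only [dB, h4.fderiv_eq]
        funext i j
        show dB (pb γ') (g 0) _ _ = dB γ (g 0) _ _
        rw [h3]
      rw [← h2, hbc g hg]
      rfl
    have h5 : ∫ g, wd (cF (dB γ) g) (th (cF (dB α) g)) ∂ν =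
        ∫ g, wd (frm (dd γ') g) (th (frm (form β) g)) ∂ν := by
      refine integral_congr_u hν fun g hg => ?_
      rw [hcF g hg, hαf g hg]
    have h6 : ∫ g, ip (cF (dB γ) g) (cF (dB γ) g) ∂ν = ∫ g, nrm2 (frm (dd γ') g) / 2 ∂ν := by
      refine integral_congr_u hν fun g hg => ?_
      show ip (cF (dB γ) g) (cF (dB γ) g) = nrm2 (frm (dd γ') g) / 2
      rw [hcF g hg, nrm2_ip]
      ring
    rw [h5, h6]
    exact h1
  refine ⟨fun S G hG hSd hD => ?_, fun hc => ?_⟩
  · have h1 : ∀ g ∈ U3, sg (cF (dB α) g) ≤ S := by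
      intro g hg
      have h2 := hSd g hg
      rw [dens_eq (hS g hg).1 (hS g hg).2.ne', ← hαf g hg] at h2
      linarith
    obtain ⟨h3, h4⟩ := grad_ineq hν hα hP hG h1 (hb G hD)
    rw [hE, hE0]
    refine ⟨by linarith, fun U hU => ?_⟩
    have h5 := h4 U fun g hg => by rw [hαf g hg]; exact hU g hg
    linarith
  · have h1 : DLe ν β 0 := by
      intro γ hγ
      rw [hc γ hγ]
      simp
    refine form_eq hβ fun g hg => ?_
    have h2 := crit_uniq hν hα hP (fun γ hγ => by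
      have h3 := hb 0 h1 γ hγ
      rw [zero_mul] at h3
      exact abs_eq_zero.1 (le_antisymm h3 (abs_nonneg _))) g hg
    rw [hαf g hg] at h2
    exact h2

end Pool.Agent.Lib.DEn
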