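import Pool.Agent.Lib.DEn.MainG
import Pool.Agent.Lib.DEn.GJ
import Pool.Agent.Lib.DEn.BFS
import Pool.Agent.Lib.DEn.BMet
import Pool.Agent.Lib.DEn.Fub

set_option autoImplicit false
set_option maxSynthPendingDepth 3

/-!
# The energy and the maximal distortion have no almost critical points
-/

open MeasureTheory Set Metric
open scoped ContDiff Topology

namespace Pool.Agent.Lib.DEn

open Pool.Agent.P28b04d
open Pool.Agent.Lib.Psd (W hp ON3 fr cmp st asd sd nrm2 Pf Skew Conn Basic dd a0 c0 Mat form fs Tan tv cmpM NondegM pb)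

namespace MainFAux

theorem nondeg_of_pf {β : Mat → Mat →L[ℝ] ℝ} (hβ : ContDiff ℝ ∞ β)
    (h : ∀ g ∈ U3, Skew (frm (form β) g) ∧ Pf (frm (form β) g) ≠ 0) : NondegM (form β) := by
  intro P hP Y hY hZ
  obtain ⟨z, hz, rfl⟩ := Psd.exists_unit hP
  obtain ⟨g, hg, rfl⟩ := exists_col hz
  obtain ⟨v, hv, rfl⟩ := Psd.tan_eq hz hY
  obtain ⟨x, rfl⟩ := BrMAux.perp hg hv
  have h1 : ∀ j, ∑ i, x i * frm (form β) g i j = 0 := by
    intro j
    have h2 := hZ (tv (g 0) (∑ k, (Pi.single j 1 : Fin 4 → ℝ) k • fr (g 1) (g 2) k))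
      (Psd.tv_mem hz (BrMAux.hp_lin hg _))
    rw [BrMAux.form_lin hβ hg] at h2
    rw [← h2]
    refine Finset.sum_congr rfl fun i _ => ?_
    rw [Finset.sum_eq_single j]
    · simp [frm]
    · intro k _ hk
      simp [hk]
    · simp
  have h3 : x = 0 := Psd.nd_of_Pf (h g hg).1 (h g hg).2 h1
  have h4 : (∑ i, x i • fr (g 1) (g 2) i) = 0 := by
    rw [h3]
    simp
  rw [h4]
  funext a b
  simp [tv]

theorem nL2_sq (ν : Measure X3) (γ : Mat → Mat →L[ℝ] ℝ) :
    nL2 ν γ ^ 2 = ∫ g, nrm2 (frm (dd γ) g) / 2 ∂ν := by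
  unfold nL2
  rw [Real.sq_sqrt]
  refine integral_nonneg fun g => ?_
  show 0 ≤ nrm2 (frm (dd γ) g) / 2
  unfold nrm2
  positivity

theorem dis_eq {M T : A4} (hM : PD M) (hT : Skew T) (hP : Pf T ≠ 0) : disM M T = fM M T / vM M := by
  rw [fM_eq hM hT hP, mul_div_cancel_right₀ _ (MainGAux.vM_pos hM).ne']

end MainFAux

open MainFAux MainGAux

theorem nocrit_c {ν : Measure X3} (hν : Ha ν) {m : Mat → Mat →L[ℝ] Mat →L[ℝ] ℝ} (hm : Met m)
    {μ : W → BW} (hμ : HS μ) (hμg : ∀ g ∈ U3, cF μ g = gram m g) {c v₁ CB C : ℝ} (hc : 0 < c)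
    (hv₁ : 0 < v₁) (hkap : ∀ g ∈ U3, ∀ X : A4, Skew X → ip X X ≤ c * wd X (kap (cF μ g) X))
    (hv : ∀ g ∈ U3, vM (cF μ g) ≤ v₁) (hC : 2 * (c * v₁) ≤ C) (hCB : CB ≤ 4 * C)
    (hdesc : ∀ α : W → W →L[ℝ] ℝ, Conn α → (∀ g ∈ U3, 0 < Pf (cF (dB α) g)) → ∀ S c : ℝ,
      (∀ g ∈ U3, fM (cF μ g) (cF (dB α) g) ≤ S * vM (cF μ g)) → 1 < S → 0 ≤ c →
      CB * S * c ^ 2 < S ^ 2 - 1 →
      ∃ γ : W → W →L[ℝ] ℝ, Basic γ ∧ ∫ g, ip (cF (dB γ) g) (cF (dB γ) g) ∂ν ≤ 1 ∧
        ∃ t₀ : ℝ, 0 < t₀ ∧ ∀ t ∈ Icc (0 : ℝ) t₀, ∀ g ∈ U3, 0 < Pf (cF (dB α) g + t • cF (dB γ) g) ∧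
          fM (cF μ g) (cF (dB α) g + t • cF (dB γ) g) ≤ (S - c * t) * vM (cF μ g)) :
    NoCrit ν (co m) C := by
  intro β hs S hS
  obtain ⟨hβ, hn⟩ := hs
  obtain ⟨hSk, -⟩ := setup hν hβ hn
  obtain ⟨hE, hder⟩ := setupM hν hm hμ hμg hβ hn
  obtain ⟨hα, hαc⟩ := conn_form hβ
  set α : W → W →L[ℝ] ℝ := fun z => a0 z + pb β z with hαdef
  have hαf : ∀ g ∈ U3, cF (dB α) g = frm (form β) g := hαc
  have hP : ∀ g ∈ U3, 0 < Pf (cF (dB α) g) := by
    intro g hg
    rw [hαf g hg]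
    exact (hSk g hg).2
  have hpd : ∀ g ∈ U3, PD (gram m g) := fun g hg => by
    rw [← hμg g hg]
    exact hμ.pos g hg
  have hvp : ∀ g ∈ U3, 0 < vM (gram m g) := fun g hg => vM_pos (hpd g hg)
  have hfd : ∀ g ∈ U3, fM (cF μ g) (cF (dB α) g) = dis (co m) β g * vM (gram m g) := by
    intro g hg
    rw [hμg g hg, hαf g hg, fM_eq (hpd g hg) (hSk g hg).1 (hSk g hg).2.ne']
    rfl
  have hS' : ∀ g ∈ U3, fM (cF μ g) (cF (dB α) g) ≤ S * vM (cF μ g) := by
    intro g hg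
    rw [hfd g hg, hμg g hg]
    exact mul_le_mul_of_nonneg_right (hS g hg) (hvp g hg).le
  obtain ⟨v₀, v₂, hv₀, hv₂, hvb⟩ := GGrAux.vM_bounds hμ
  obtain ⟨Θ, hΘ, hΘe⟩ := theta_M hα hP hμ
  obtain ⟨hS1, hvF, -, -, -⟩ := GJAux.facts hμ hc hkap hv hα hP hS' hΘ hΘe
  have hC0 : 0 < C := lt_of_lt_of_le (by positivity) hC
  -- rewriting of the integrals
  have hJe : ∀ η : X3 → ℝ, intM ν (co m) (fun g => η g * exc (co m) β g) =
      ∫ g, η g * ((fM (cF μ g) (cF (dB α) g) ^ 2 - vM (cF μ g) ^ 2) / Pf (cF (dB α) g)) ∂ν := by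
    intro η
    refine integral_congr_u hν fun g hg => ?_
    show η g * ((dis (co m) β g ^ 2 - 1) / (Pf (frm (form β) g) / vM (gram m g))) * vM (gram m g) = _
    rw [hfd g hg, hμg g hg, hαf g hg]
    have h1 := (hvp g hg).ne'
    have h2 := (hSk g hg).2.ne'
    field_simp
  have hJ1 : intM ν (co m) (exc (co m) β) =
      ∫ g, (fM (cF μ g) (cF (dB α) g) ^ 2 - vM (cF μ g) ^ 2) / Pf (cF (dB α) g) ∂ν := by
    have h1 := hJe fun _ => 1
    simp only [one_mul] at h1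
    exact h1
  have hD1 : intM ν (co m) (fun g => dis (co m) β g - 1) = ∫ g, (fM (cF μ g) (cF (dB α) g) - vM (cF μ g)) ∂ν := by
    refine integral_congr_u hν fun g hg => ?_
    show (dis (co m) β g - 1) * vM (gram m g) = _
    rw [hfd g hg, hμg g hg]
    ring
  refine ⟨fun γ hγ => (hder γ hγ).differentiableAt, ?rate, ?slope, ?grad⟩
  case grad =>
    intro G hG hD
    have hb : ∀ γ : W → W →L[ℝ] ℝ, Basic γ →
        |∫ g, wd (cF (dB γ) g) (tM (cF μ g) (cF (dB α) g)) ∂ν| ≤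
          G * Real.sqrt (∫ g, ip (cF (dB γ) g) (cF (dB γ) g) ∂ν) := by
      intro γ hγ
      obtain ⟨γ', hγ', hcF, hi⟩ := basic_transfer hν hγ
      have h1 : |deriv (fun t : ℝ => EnM ν m fun P => β P + t • γ' P) 0| ≤ G * nL2 ν γ' := hD γ' hγ'
      rw [(hder γ' hγ').deriv] at h1
      have h5 : ∫ g, wd (cF (dB γ) g) (tM (cF μ g) (cF (dB α) g)) ∂ν =
          ∫ g, wd (frm (dd γ') g) (tM (gram m g) (frm (form β) g)) ∂ν := by
        refine integral_congr_u hν fun g hg => ?_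
        rw [hcF g hg, hαf g hg, hμg g hg]
      rw [h5, hi]
      exact h1
    have h1 := J_Mc hν hμ hc hv₁ hkap hv hα hP hG hS' hb
    have h2 : ∫ g, (fM (cF μ g) (cF (dB α) g) ^ 2 - vM (cF μ g) ^ 2) / Pf (cF (dB α) g) ∂ν ≤
        C * S * G ^ 2 := h1.trans (by
      refine mul_le_mul_of_nonneg_right ?_ (sq_nonneg G)
      exact mul_le_mul_of_nonneg_right hC (by linarith))
    have h3 := (J_enM hν hμ hα hP hS' hv₀ (fun g hg => (hvb g hg).1) h2).1
    refine ⟨by rw [hJ1]; exact h2, ?_, fun U hU => ?_⟩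
    · rw [hD1]
      refine h3.trans (le_of_eq ?_)
      have e1 : 4 * ((S - 1) / (S + 1)) * (C * S * G ^ 2) =
          (2 * G) ^ 2 * (C * (S * (S - 1) / (S + 1))) := by ring
      rw [e1, Real.sqrt_mul (sq_nonneg _), Real.sqrt_sq (by positivity)]
      ring
    · rw [hD1]
      have h4 := J_enU hν hμ hα hP (U := U) (fun g hg => by
        rw [hμg g hg, hαf g hg]
        exact hU g hg) h2
      calc _ ≤ U * (C * S * G ^ 2) / 2 := h4
        _ = C * S * U * G ^ 2 / 2 := by ring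
  case rate =>
    intro η hη hη0 δ hδ
    set I : ℝ := ∫ g, η (pt (g 0)) ^ 2 *
      ((fM (cF μ g) (cF (dB α) g) ^ 2 - vM (cF μ g) ^ 2) / Pf (cF (dB α) g)) ∂ν with hI
    have hI0 : 0 ≤ I := by
      refine integral_nonneg_of_ae (ae_u hν fun g hg => ?_)
      have h1 := hvF g hg
      have h2 : 0 < vM (cF μ g) := by rw [hμg g hg]; exact hvp g hg
      have h3 := hP g hg
      show 0 ≤ η (pt (g 0)) ^ 2 *
        ((fM (cF μ g) (cF (dB α) g) ^ 2 - vM (cF μ g) ^ 2) / Pf (cF (dB α) g))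
      refine mul_nonneg (sq_nonneg _) (div_nonneg ?_ h3.le)
      nlinarith
    have hηc : ContinuousOn (fun z : W => η (pt z)) {0}ᶜ := by
      refine hη.comp (Psd.AmbAAux.contDiffOn_pt.continuousOn) fun z hz => ?_
      exact pt_mem hz
    obtain ⟨γ, hγ, hγH, hγK⟩ := eta_Mc hν hμ hc hv₁ hkap hv hα hP hS' (σ := 1 + δ) (by linarith)
      (η := fun z => η (pt z)) hηc (fun c hc z hz => by rw [pt_smul hc z])
      (fun g hg => hη0 _ (pt_mem (col_ne hg 0))) (H := 2 * (c * v₁) * S * I + δ) (by linarith)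
    obtain ⟨γ', hγ', hcF, hi⟩ := basic_transfer hν hγ
    refine ⟨γ', hγ', ?_, fun g hg hgd => ?_⟩
    · rw [nL2_sq, ← hi, hJe fun g => η (pt (g 0)) ^ 2]
      have h1 : 2 * (c * v₁) * S * I ≤ C * S * I :=
        mul_le_mul_of_nonneg_right (mul_le_mul_of_nonneg_right hC (by linarith)) hI0
      show _ ≤ C * S * I + δ
      linarith
    · have hsD : Skew (frm (dd γ') g) := by
        rw [← hcF g hg]
        exact cF_skew (dB_hf hγ) hg
      have hsT := (hSk g hg).1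
      have hd0 : Pf (frm (form β) g + (0 : ℝ) • frm (dd γ') g) ≠ 0 := by
        rw [zero_smul, add_zero]
        exact (hSk g hg).2.ne'
      have h1 := (hasDerivAt_fM (hpd g hg) hsT hsD 0 hd0).div_const (vM (gram m g))
      rw [zero_smul, add_zero] at h1
      refine ⟨_, h1.congr_of_eventuallyEq ?_, ?_⟩
      · have h2 : ContinuousAt (fun t : ℝ => Pf (frm (form β) g + t • frm (dd γ') g)) 0 := by
          unfold Pf
          have h3 : Continuous fun t : ℝ => (frm (form β) g + t • frm (dd γ') g) := by fun_prop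
          have h4 : ∀ i j, Continuous fun t : ℝ => (frm (form β) g + t • frm (dd γ') g) i j :=
            fun i j => (continuous_apply_apply i j).comp h3
          exact ((((h4 0 1).mul (h4 2 3)).sub ((h4 0 2).mul (h4 1 3))).add
            ((h4 0 3).mul (h4 1 2))).continuousAt
        have h5 := h2.eventually_ne hd0
        filter_upwards [h5] with t ht
        have h7 : frm (form fun P => β P + t • γ' P) g = frm (form β) g + t • frm (dd γ') g :=
          cmp_lin hβ hγ' t _ _ _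
        have h8 : Skew (frm (form β) g + t • frm (dd γ') g) := by
          intro i j
          simp only [Pi.add_apply, Pi.smul_apply, smul_eq_mul]
          rw [hsT i j, hsD i j]
          ring
        show disM (gram m g) (frm (form fun P => β P + t • γ' P) g) = _
        rw [h7, dis_eq (hpd g hg) h8 ht]
      · have h2 := hγK g hg (by
          rw [hfd g hg, hμg g hg]
          exact mul_le_mul_of_nonneg_right hgd (hvp g hg).le)
        rw [hcF g hg, hfd g hg, hμg g hg, hαf g hg] at h2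
        have h3 := hvp g hg
        rw [div_le_iff₀ h3]
        refine h2.trans (le_of_eq ?_)
        show _ = -(η (pt (g 0)) * ((dis (co m) β g ^ 2 - 1) / (Pf (frm (form β) g) / vM (gram m g)))) *
          vM (gram m g)
        have h4 := h3.ne'
        have h5 := (hSk g hg).2.ne'
        field_simp
  case slope =>
    intro k hk hkS
    have hS2 : 1 < S := by
      by_contra h
      have h1 : S = 1 := le_antisymm (not_lt.1 h) hS1
      rw [h1] at hkS
      have h2 : 0 ≤ 4 * C * 1 * k ^ 2 := by positivity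
      linarith
    obtain ⟨γ, hγ, hγ1, t₀, ht₀, ht⟩ := hdesc α hα hP S k hS' hS2 hk (lt_of_le_of_lt (by
      refine mul_le_mul_of_nonneg_right ?_ (sq_nonneg k)
      exact mul_le_mul_of_nonneg_right hCB (by linarith)) hkS)
    obtain ⟨γ', hγ', hcF, hi⟩ := basic_transfer hν hγ
    refine ⟨γ', hγ', ?_, t₀, ht₀, fun t h0 h1 => ?_⟩
    · unfold nL2
      rw [← hi, Real.sqrt_le_one]
      exact hγ1
    · have h7 : ∀ g : X3, frm (form fun P => β P + t • γ' P) g = frm (form β) g + t • frm (dd γ') g :=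
        fun g => cmp_lin hβ hγ' t _ _ _
      have h8 : ∀ g ∈ U3, Skew (frm (form β) g + t • frm (dd γ') g) := by
        intro g hg i j
        have hsD : Skew (frm (dd γ') g) := by
          rw [← hcF g hg]
          exact cF_skew (dB_hf hγ) hg
        simp only [Pi.add_apply, Pi.smul_apply, smul_eq_mul]
        rw [(hSk g hg).1 i j, hsD i j]
        ring
      have h9 : ∀ g ∈ U3, 0 < Pf (frm (form β) g + t • frm (dd γ') g) ∧
          fM (gram m g) (frm (form β) g + t • frm (dd γ') g) ≤ (S - k * t) * vM (gram m g) := by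
        intro g hg
        have h10 := ht t ⟨h0, h1⟩ g hg
        rw [hcF g hg, hαf g hg, hμg g hg] at h10
        exact h10
      refine ⟨⟨hβ.add (hγ'.const_smul t),
        nondeg_of_pf (hβ.add (hγ'.const_smul t)) fun g hg => ?_⟩, fun g hg => ?_⟩
      · have h10 := h7 g
        show Skew (frm (form fun P => β P + t • γ' P) g) ∧ Pf (frm (form fun P => β P + t • γ' P) g) ≠ 0
        rw [h10]
        exact ⟨h8 g hg, (h9 g hg).1.ne'⟩
      · show disM (gram m g) (frm (form fun P => β P + t • γ' P) g) ≤ _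
        rw [h7 g, dis_eq (hpd g hg) (h8 g hg) (h9 g hg).1.ne', div_le_iff₀ (hvp g hg)]
        exact (h9 g hg).2

/-- every Riemannian metric -/
theorem nocrit_all {ν : Measure X3} (hν : Ha ν) {m : Ten} (hm : Riem m) :
    ∃ C : ℝ, 0 < C ∧ NoCrit ν m C := by
  obtain ⟨m', hm', rfl⟩ := co_of_riem hm
  obtain ⟨μ, hμ, hμg⟩ := hs_of_met hm'
  obtain ⟨v₀, v₁, hv₀, hv₁, hv⟩ := GGrAux.vM_bounds hμ
  obtain ⟨c, hc, hkap⟩ := GGrAux.kap_bound hμ
  obtain ⟨CB, hCB, hdesc⟩ := desc_M hν hμ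
  refine ⟨max (2 * (c * v₁)) (CB / 4), lt_max_of_lt_left (by positivity), ?_⟩
  refine nocrit_c hν hm' hμ hμg hc hv₁ hkap (fun g hg => (hv g hg).2) (le_max_left _ _) ?_ hdesc
  have h1 := le_max_right (2 * (c * v₁)) (CB / 4)
  linarith

/-- the Fubini-Study metric -/
theorem nocrit_fs {ν : Measure X3} (hν : Ha ν) : NoCrit ν fsm 2 := by
  obtain ⟨μ, hμ, hμg⟩ := hs_of_met met_fsb
  have hid : ∀ g ∈ U3, cF μ g = fun i j => if i = j then 1 else 0 := fun g hg => by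
    rw [hμg g hg, gram_fsb hg]
  rw [← co_fsb]
  refine nocrit_c hν met_fsb hμ hμg (c := 1) (v₁ := 1) (CB := 8) one_pos one_pos
    (fun g hg X hX => ?_) (fun g hg => ?_) (by norm_num) (by norm_num) ?_
  · rw [hid g hg, kap_id, one_mul, wd_st hX hX]
  · rw [hid g hg, vM_id]
  · intro α hα hP S c hS h1 hc hcS
    have hT : ∀ g ∈ U3, Skew (cF (dB α) g) := fun g hg => cF_skew (dB_hfc hα) hg
    obtain ⟨γ, hγ, hγ1, t₀, ht₀, ht⟩ := desc_fs hν hα hP (S := S) (fun g hg => by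
      have h2 := hS g hg
      rw [hid g hg, fM_id (hT g hg) (hP g hg).ne', vM_id, mul_one] at h2
      exact h2) h1 hc hcS
    refine ⟨γ, hγ, hγ1, t₀, ht₀, fun t ht' g hg => ?_⟩
    obtain ⟨h2, h3⟩ := ht t ht' g hg
    refine ⟨h2, ?_⟩
    have h4 : Skew (cF (dB α) g + t • cF (dB γ) g) := by
      intro i j
      simp only [Pi.add_apply, Pi.smul_apply, smul_eq_mul]
      rw [hT g hg i j, cF_skew (dB_hf hγ) hg i j]
      ring
    rw [hid g hg, fM_id h4 h2.ne', vM_id, mul_one]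
    exact h3

/-- two critical forms agree -/
theorem crit_all {ν : Measure X3} (hν : Ha ν) {m : Ten} (hm : Riem m)
    {β β' : OneF} (hs : Symp β) (hs' : Symp β') (hc : Crit ν m β) (hc' : Crit ν m β') :
    ∀ P ∈ CP 2, ∀ Y ∈ Tan P, ∀ Z ∈ Tan P, form β P Y Z = form β' P Y Z := by
  obtain ⟨m', hm', rfl⟩ := co_of_riem hm
  exact ((mainG ν hν m' hm').2 β β' hs.1 hs'.1 hs.2 hs'.2 (fun γ hγ => (hc γ hγ).deriv)
    fun γ hγ => (hc' γ hγ).deriv).2

/-- the Fubini-Study form is the only critical form for the Fubini-Study metric -/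
theorem crit_fs {ν : Measure X3} (hν : Ha ν) {β : OneF} (hs : Symp β) (hc : Crit ν fsm β) :
    ∀ P ∈ CP 2, ∀ Y ∈ Tan P, ∀ Z ∈ Tan P, form β P Y Z = fs P Y Z := by
  rw [← co_fsb] at hc
  obtain ⟨hβ, hn⟩ := hs
  obtain ⟨μ, hμ, hμg⟩ := hs_of_met met_fsb
  have hid : ∀ g ∈ U3, cF μ g = fun i j => if i = j then 1 else 0 := fun g hg => by
    rw [hμg g hg, gram_fsb hg]
  obtain ⟨hSk, -⟩ := setup hν hβ hn
  obtain ⟨-, hder⟩ := setupM hν met_fsb hμ hμg hβ hn
  obtain ⟨hα, hαc⟩ := conn_form hβ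
  have h1 : ∀ g ∈ U3, kap (cF μ g) (cF (dB fun z => a0 z + pb β z) g) =
      vM (cF μ g) • cF (dB fun z => a0 z + pb β z) g := by
    refine crit_M hν hμ hα (fun g hg => by rw [hαc g hg]; exact (hSk g hg).2) fun γ hγ => ?_
    obtain ⟨γ', hγ', hcF, -⟩ := basic_transfer hν hγ
    have h1 := (hc γ' hγ').unique (hder γ' hγ')
    rw [h1]
    refine integral_congr_u hν fun g hg => ?_
    rw [hcF g hg, hαc g hg, hμg g hg]
    rfl
  have h2 : ∀ g ∈ U3, kap (cF μ g) (cF (dB a0) g) = vM (cF μ g) • cF (dB a0) g := by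
    intro g hg
    rw [hid g hg, kap_id, vM_id, one_smul, cF_dB_a0 hg, c0_st.2.1]
  have h3 := uniq_M hν hμ hα Psd.a0_conn h1 h2
  refine form_eq hβ fun g hg => ?_
  rw [← hαc g hg, h3 g hg, cF_dB_a0 hg]

end Pool.Agent.Lib.DEn
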