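import Pool.Agent.Lib.DEn.MainA
import Pool.Agent.Lib.DEn.GGr
import Pool.Agent.Lib.DEn.GBr
import Pool.Agent.Lib.DEn.GDer

set_option autoImplicit false
set_option maxSynthPendingDepth 3

/-!
# The gradient inequality for Donaldson's energy of every Riemannian metric on the projective plane
-/

open MeasureTheory Set Metric
open scoped ContDiff Topology

namespace Pool.Agent.Lib.DEn

open Pool.Agent.P28b04d
open Pool.Agent.Lib.Psd (W hp ON3 fr cmp st asd sd nrm2 Pf Skew Conn Basic dd a0 c0 Mat form fs Tan tv cmpM NondegM pb)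

namespace MainGAux

theorem vM_pos {M : A4} (hM : PD M) : 0 < vM M := Real.sqrt_pos.2 (det_pos hM)

theorem densM_eq {M T : A4} (hM : PD M) (hT : Skew T) (hP : Pf T ≠ 0) :
    densM M T = fM M T + vM M := by
  unfold densM
  rw [fM_eq hM hT hP]
  ring

theorem cont_fun {F : X3 → A4} (hF : CtU F) : ContinuousOn F U3 :=
  continuousOn_pi.2 fun i => continuousOn_pi.2 fun j => hF i j

theorem continuous_vM : Continuous vM := by
  unfold vM
  refine Real.continuous_sqrt.comp ?_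
  exact Continuous.matrix_det (continuous_id)

theorem cont_vM {F : X3 → A4} (hF : CtU F) : ContinuousOn (fun g => vM (F g)) U3 :=
  continuous_vM.comp_continuousOn (cont_fun hF)

theorem continuous_st : Continuous (st : A4 → A4) := by
  refine continuous_pi fun i => continuous_pi fun j => ?_
  fin_cases i <;> fin_cases j <;> first
    | exact continuous_const
    | exact continuous_apply_apply _ _

theorem continuous_kap : Continuous fun p : A4 × A4 => kap p.1 p.2 := by
  refine continuous_pi fun i => continuous_pi fun j => ?_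
  show Continuous fun p : A4 × A4 => ∑ k, ∑ l, p.1 i k * st p.2 k l * p.1 l j
  refine continuous_finset_sum _ fun k _ => continuous_finset_sum _ fun l _ => ?_
  have h1 : Continuous fun p : A4 × A4 => p.1 i k := (continuous_apply_apply i k).comp continuous_fst
  have h2 : Continuous fun p : A4 × A4 => p.1 l j := (continuous_apply_apply l j).comp continuous_fst
  have h3 : Continuous fun p : A4 × A4 => st p.2 k l :=
    (continuous_apply_apply k l).comp (continuous_st.comp continuous_snd)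
  exact (h1.mul h3).mul h2

theorem ctU_kap {F T : X3 → A4} (hF : CtU F) (hT : CtU T) : CtU fun g => kap (F g) (T g) := by
  intro i j
  exact (continuous_apply_apply i j).comp_continuousOn
    (continuous_kap.comp_continuousOn ((cont_fun hF).prodMk (cont_fun hT)))

theorem cont_fM {F T : X3 → A4} (hF : CtU F) (hT : CtU T) (h : ∀ g ∈ U3, Pf (T g) ≠ 0) :
    ContinuousOn (fun g => fM (F g) (T g)) U3 := by
  unfold fM
  exact (cont_wd hT (ctU_kap hF hT)).div (continuousOn_const.mul (cont_pf hT))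
    fun g hg => mul_ne_zero two_ne_zero (h g hg)

end MainGAux

open MainGAux

/-- the derivative of the energy -/
theorem setupM {ν : Measure X3} (hν : Ha ν) {m : Mat → Mat →L[ℝ] Mat →L[ℝ] ℝ} (_hm : Met m) {μ : W → BW}
    (hμ : HS μ) (hμg : ∀ g ∈ U3, cF μ g = gram m g) {β : Mat → Mat →L[ℝ] ℝ} (hβ : ContDiff ℝ ∞ β)
    (hn : NondegM (form β)) :
    (EnM ν m β = ∫ g, fM (gram m g) (frm (form β) g) ∂ν + VoM ν m) ∧
    ∀ γ : Mat → Mat →L[ℝ] ℝ, ContDiff ℝ ∞ γ →
      HasDerivAt (fun t : ℝ => EnM ν m fun P => β P + t • γ P)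
        (∫ g, wd (frm (dd γ) g) (tM (gram m g) (frm (form β) g)) ∂ν) 0 := by
  obtain ⟨hS, -⟩ := setup hν hβ hn
  obtain ⟨hα, hαc⟩ := conn_form hβ
  set α : W → W →L[ℝ] ℝ := fun z => a0 z + pb β z with hαdef
  have hP : ∀ g ∈ U3, 0 < Pf (cF (dB α) g) := by
    intro g hg
    rw [hαc g hg]
    exact (hS g hg).2
  have hTc : CtU (cF (dB α)) := ctU_cF (dB_hfc hα).smooth
  have hMc : CtU (cF μ) := ctU_cF hμ.smooth
  have hpd : ∀ g ∈ U3, PD (gram m g) := fun g hg => by
    rw [← hμg g hg]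
    exact hμ.pos g hg
  have hV : ∫ g, vM (cF μ g) ∂ν = VoM ν m := by
    unfold VoM
    refine integral_congr_u hν fun g hg => ?_
    rw [hμg g hg]
  refine ⟨?_, fun γ hγ => ?_⟩
  · have h1 : EnM ν m β = ∫ g, (fM (cF μ g) (cF (dB α) g) + vM (cF μ g)) ∂ν := by
      unfold EnM
      refine integral_congr_u hν fun g hg => ?_
      rw [densM_eq (hpd g hg) (hS g hg).1 (hS g hg).2.ne', hαc g hg, hμg g hg]
      rfl
    rw [h1, integral_add (integrable_u hν (cont_fM hMc hTc fun g hg => (hP g hg).ne'))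
      (integrable_u hν (cont_vM hMc)), hV]
    congr 1
    refine integral_congr_u hν fun g hg => ?_
    rw [hαc g hg, hμg g hg]
    rfl
  · obtain ⟨hb, hbc⟩ := basic_pb hγ
    have h1 := hasDerivAt_EM hν hα hb hP hμ
    have h2 : ∫ g, wd (cF (dB (pb γ)) g) (tM (cF μ g) (cF (dB α) g)) ∂ν =
        ∫ g, wd (frm (dd γ) g) (tM (gram m g) (frm (form β) g)) ∂ν := by
      refine integral_congr_u hν fun g hg => ?_
      rw [hbc g hg, hαc g hg, hμg g hg]
      rfl
    rw [← h2]
    have h4 : HasDerivAt (fun t : ℝ => ∫ g, fM (cF μ g) (cF (dB α) g + t • cF (dB (pb γ)) g) ∂ν +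
        VoM ν m) (∫ g, wd (cF (dB (pb γ)) g) (tM (cF μ g) (cF (dB α) g)) ∂ν) 0 := h1.add_const _
    refine h4.congr_of_eventuallyEq ?_
    have hDc : CtU (cF (dB (pb γ))) := ctU_cF (dB_hf hb).smooth
    obtain ⟨ε, hε, hpos'⟩ := pf_near hTc hDc hP
    have hpos : ∀ t : ℝ, |t| < ε → ∀ g ∈ U3, 0 < Pf (frm (form β) g + t • frm (dd γ) g) := by
      intro t ht g hg
      have h := hpos' t ht g hg
      rw [hαc g hg, hbc g hg] at h
      exact h
    have h5 : ∀ᶠ t : ℝ in 𝓝 0, |t| < ε := by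
      have : Metric.ball (0 : ℝ) ε ∈ 𝓝 (0 : ℝ) := Metric.ball_mem_nhds _ hε
      filter_upwards [this] with t ht
      simpa [Real.dist_eq] using ht
    filter_upwards [h5] with t ht
    have h6 : EnM ν m (fun P => β P + t • γ P) =
        ∫ g, (fM (cF μ g) (cF (dB α) g + t • cF (dB (pb γ)) g) + vM (cF μ g)) ∂ν := by
      unfold EnM
      refine integral_congr_u hν fun g hg => ?_
      have h7 : frm (form fun P => β P + t • γ P) g = frm (form β) g + t • frm (dd γ) g :=
        cmp_lin hβ hγ t _ _ _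
      have h8 : Skew (frm (form β) g + t • frm (dd γ) g) := by
        have hs := (hS g hg).1
        have hs' : Skew (frm (dd γ) g) := by
          have : frm (dd γ) g = cF (dB (pb γ)) g := (hbc g hg).symm
          rw [this]
          exact cF_skew (dB_hf hb) hg
        intro i j
        simp only [Pi.add_apply, Pi.smul_apply, smul_eq_mul]
        rw [hs i j, hs' i j]
        ring
      rw [h7, densM_eq (hpd g hg) h8 (hpos t ht g hg).ne', hαc g hg, hbc g hg, hμg g hg]
      rfl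
    rw [h6, integral_add (integrable_u hν (cont_fM hMc (ctU_lin hTc hDc t) fun g hg =>
      (hpos' t ht g hg).ne')) (integrable_u hν (cont_vM hMc)), hV]

/-- transfer of the one-forms -/
theorem basic_transfer {ν : Measure X3} (hν : Ha ν) {γ : W → W →L[ℝ] ℝ} (hγ : Basic γ) :
    ∃ γ' : Mat → Mat →L[ℝ] ℝ, ContDiff ℝ ∞ γ' ∧ (∀ g ∈ U3, cF (dB γ) g = frm (dd γ') g) ∧
      ∫ g, ip (cF (dB γ) g) (cF (dB γ) g) ∂ν = ∫ g, nrm2 (frm (dd γ') g) / 2 ∂ν := by
  obtain ⟨γ', hγ', hγz⟩ := exists_mat hγ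
  obtain ⟨-, hbc⟩ := basic_pb hγ'
  have hcF : ∀ g ∈ U3, cF (dB γ) g = frm (dd γ') g := by
    intro g hg
    have h2 : cF (dB (pb γ')) g = cF (dB γ) g := by
      have h3 : dB (pb γ') (g 0) = dB γ (g 0) := by
        have h4 : pb γ' =ᶠ[𝓝 (g 0)] γ := by
          filter_upwards [isOpen_compl_singleton.mem_nhds
            (show g 0 ∈ ({0}ᶜ : Set W) from col_ne hg 0)] with y hy
          exact hγz y hy
        simp only [dB, h4.fderiv_eq]
      funext i j
      show dB (pb γ') (g 0) _ _ = dB γ (g 0) _ _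
      rw [h3]
    rw [← h2, hbc g hg]
    rfl
  refine ⟨γ', hγ', hcF, ?_⟩
  refine integral_congr_u hν fun g hg => ?_
  show ip (cF (dB γ) g) (cF (dB γ) g) = nrm2 (frm (dd γ') g) / 2
  rw [hcF g hg, nrm2_ip]
  ring

theorem mainG (ν : Measure X3) (hν : Ha ν) (m : Mat → Mat →L[ℝ] Mat →L[ℝ] ℝ) (hm : Met m) :
    (∃ C : ℝ, 0 < C ∧ ∀ β : Mat → Mat →L[ℝ] ℝ, ContDiff ℝ ∞ β → NondegM (form β) →
      ∀ S G : ℝ, 0 ≤ G → (∀ g ∈ U3, disM (gram m g) (frm (form β) g) ≤ S) → DLeM ν m β G →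
      EnM ν m β - 2 * VoM ν m ≤ C * Real.sqrt (S * (S - 1)) * G ∧
      ∀ U : ℝ, (∀ g ∈ U3, Pf (frm (form β) g) ≤ U) → EnM ν m β - 2 * VoM ν m ≤ C * S * U * G ^ 2) ∧
    ∀ β β' : Mat → Mat →L[ℝ] ℝ, ContDiff ℝ ∞ β → ContDiff ℝ ∞ β' → NondegM (form β) → NondegM (form β') →
      (∀ γ : Mat → Mat →L[ℝ] ℝ, ContDiff ℝ ∞ γ →
        deriv (fun t : ℝ => EnM ν m fun P => β P + t • γ P) 0 = 0) →
      (∀ γ : Mat → Mat →L[ℝ] ℝ, ContDiff ℝ ∞ γ →
        deriv (fun t : ℝ => EnM ν m fun P => β' P + t • γ P) 0 = 0) →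
      EnM ν m β = 2 * VoM ν m ∧
      ∀ P ∈ CP 2, ∀ Y ∈ Tan P, ∀ Z ∈ Tan P, form β P Y Z = form β' P Y Z := by
  obtain ⟨μ, hμ, hμg⟩ := hs_of_met hm
  obtain ⟨C, hC, hgr⟩ := grad_M hν hμ
  have hpd : ∀ g ∈ U3, PD (gram m g) := fun g hg => by
    rw [← hμg g hg]
    exact hμ.pos g hg
  have hMc : CtU (cF μ) := ctU_cF hμ.smooth
  have hV : ∫ g, vM (cF μ g) ∂ν = VoM ν m := by
    unfold VoM
    refine integral_congr_u hν fun g hg => ?_
    rw [hμg g hg]
  refine ⟨⟨C, hC, fun β hβ hn S G hG hS hD => ?_⟩, fun β β' hβ hβ' hn hn' hc hc' => ?_⟩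
  · obtain ⟨hSk, -⟩ := setup hν hβ hn
    obtain ⟨hE, hder⟩ := setupM hν hm hμ hμg hβ hn
    obtain ⟨hα, hαc⟩ := conn_form hβ
    set α : W → W →L[ℝ] ℝ := fun z => a0 z + pb β z with hαdef
    have hαf : ∀ g ∈ U3, cF (dB α) g = frm (form β) g := hαc
    have hP : ∀ g ∈ U3, 0 < Pf (cF (dB α) g) := by
      intro g hg
      rw [hαf g hg]
      exact (hSk g hg).2
    have hTc : CtU (cF (dB α)) := ctU_cF (dB_hfc hα).smooth
    obtain ⟨h3, h4⟩ := hgr α hα hP S G hG (fun g hg => by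
      rw [hμg g hg, hαf g hg, fM_eq (hpd g hg) (hSk g hg).1 (hSk g hg).2.ne']
      exact mul_le_mul_of_nonneg_right (hS g hg) (vM_pos (hpd g hg)).le) (fun γ hγ => by
      obtain ⟨γ', hγ', hcF, hi⟩ := basic_transfer hν hγ
      have h1 := hD γ' hγ'
      rw [(hder γ' hγ').deriv] at h1
      have h5 : ∫ g, wd (cF (dB γ) g) (tM (cF μ g) (cF (dB α) g)) ∂ν =
          ∫ g, wd (frm (dd γ') g) (tM (gram m g) (frm (form β) g)) ∂ν := by
        refine integral_congr_u hν fun g hg => ?_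
        rw [hcF g hg, hαf g hg, hμg g hg]
      rw [h5, hi]
      exact h1)
    have h6 : ∫ g, (fM (cF μ g) (cF (dB α) g) - vM (cF μ g)) ∂ν = EnM ν m β - 2 * VoM ν m := by
      rw [integral_sub (integrable_u hν (cont_fM hMc hTc fun g hg => (hP g hg).ne'))
        (integrable_u hν (cont_vM hMc)), hV, hE]
      have h7 : ∫ g, fM (cF μ g) (cF (dB α) g) ∂ν = ∫ g, fM (gram m g) (frm (form β) g) ∂ν := by
        refine integral_congr_u hν fun g hg => ?_
        rw [hμg g hg, hαf g hg]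
      rw [h7]
      ring
    rw [h6] at h3 h4
    exact ⟨h3, fun U hU => h4 U fun g hg => by rw [hαf g hg]; exact hU g hg⟩
  · obtain ⟨hα, hαc⟩ := conn_form hβ
    obtain ⟨hα', hαc'⟩ := conn_form hβ'
    have hcr : ∀ (β : Mat → Mat →L[ℝ] ℝ) (hβ : ContDiff ℝ ∞ β) (hn : NondegM (form β))
        (hc : ∀ γ : Mat → Mat →L[ℝ] ℝ, ContDiff ℝ ∞ γ →
          deriv (fun t : ℝ => EnM ν m fun P => β P + t • γ P) 0 = 0),
        ∀ g ∈ U3, kap (cF μ g) (cF (dB fun z => a0 z + pb β z) g) =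
          vM (cF μ g) • cF (dB fun z => a0 z + pb β z) g := by
      intro β hβ hn hc
      obtain ⟨hSk, -⟩ := setup hν hβ hn
      obtain ⟨hE, hder⟩ := setupM hν hm hμ hμg hβ hn
      obtain ⟨hα, hαc⟩ := conn_form hβ
      refine crit_M hν hμ hα (fun g hg => by rw [hαc g hg]; exact (hSk g hg).2) fun γ hγ => ?_
      obtain ⟨γ', hγ', hcF, -⟩ := basic_transfer hν hγ
      have h1 := hc γ' hγ'
      rw [(hder γ' hγ').deriv] at h1
      rw [← h1]
      refine integral_congr_u hν fun g hg => ?_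
      rw [hcF g hg, hαc g hg, hμg g hg]
      rfl
    have h1 := hcr β hβ hn hc
    have h2 := hcr β' hβ' hn' hc'
    have h3 := uniq_M hν hμ hα hα' h1 h2
    refine ⟨?_, unif_eq fun g hg => ?_⟩
    · obtain ⟨hSk, -⟩ := setup hν hβ hn
      obtain ⟨hE, -⟩ := setupM hν hm hμ hμg hβ hn
      rw [hE]
      have h4 : ∫ g, fM (gram m g) (frm (form β) g) ∂ν = ∫ g, vM (gram m g) ∂ν := by
        refine integral_congr_u hν fun g hg => ?_
        have h5 := h1 g hg
        have h6 : cF (dB fun z => a0 z + pb β z) g = frm (form β) g := hαc g hg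
        rw [h6, hμg g hg] at h5
        show fM _ _ = vM _
        unfold fM
        rw [h5, wd_comm, wd_smul, wd_self]
        have h7 := (hSk g hg).2.ne'
        field_simp
      rw [h4]
      show VoM ν m + VoM ν m = 2 * VoM ν m
      ring
    · have h4 := h3 g hg
      rw [hαc g hg, hαc' g hg] at h4
      exact h4

end Pool.Agent.Lib.DEn
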