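import Pool.Agent.Lib.DEn.Defs

set_option autoImplicit false
set_option maxSynthPendingDepth 3

/-!
# Riesz representation for semidefinite forms of finite rank  (0.8 h)

`B x y = 0` if `B x x = 0` (Cauchy-Schwarz for semidefinite forms: `B x y ^ 2 ≤ B x x * B y y`, from `0 ≤ B (x + t y) (x + t y)`), so `B` and `ℓ` factor through `V / ker L ≅ range L`, a finite dimensional space `R`; let `B' : R → R^*`, `ℓ' : R → ℝ` be the induced maps. `ℓ'` vanishes on `ker B'` (`|ℓ x| ≤ G √(B x x) = 0`), and in finite dimension the range of the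
symmetric map `B' : R → Dual R` is the annihilator of its kernel (`LinearMap.dualAnnihilator_ker_eq_range_flip` or a dimension count), so `ℓ' = B' y₀`. Or: choose `x₀` minimising `B x x / 2 - ℓ x` on a finite dimensional complement. Finally `B x₀ x₀ = ℓ x₀ ≤ G √(B x₀ x₀)` gives `B x₀ x₀ ≤ G ^ 2`.
-/

open MeasureTheory Set Metric Filter
open scoped ContDiff Topology

namespace Pool.Agent.Lib.DEn

open Pool.Agent.P28b04d
open Pool.Agent.Lib.Psd (W hp ON3 fr cmp st asd sd nrm2 Pf Skew Conn Basic dd a0 c0)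

namespace RieLAux

theorem cs_zero {V : Type*} [AddCommGroup V] [Module ℝ V] (B : V →ₗ[ℝ] V →ₗ[ℝ] ℝ)
    (hs : ∀ x y, B x y = B y x) (hp : ∀ x, 0 ≤ B x x) {x : V} (hx : B x x = 0) (y : V) :
    B x y = 0 := by
  by_contra hb
  have hc := hp y
  have h1 := hp (x + (-(B x y) / (B y y + 1)) • y)
  have h2 : B (x + (-(B x y) / (B y y + 1)) • y) (x + (-(B x y) / (B y y + 1)) • y) =
      B x x + 2 * (-(B x y) / (B y y + 1)) * B x y + (-(B x y) / (B y y + 1)) ^ 2 * B y y := by
    simp only [map_add, map_smul, LinearMap.add_apply, LinearMap.smul_apply, smul_eq_mul]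
    rw [hs y x]
    ring
  rw [h2, hx] at h1
  have hc1 : 0 < B y y + 1 := by linarith
  have h3 : 0 + 2 * (-(B x y) / (B y y + 1)) * B x y + (-(B x y) / (B y y + 1)) ^ 2 * B y y =
      -((B x y) ^ 2 * (B y y + 2) / (B y y + 1) ^ 2) := by
    field_simp
    ring
  rw [h3] at h1
  have h4 : 0 < (B x y) ^ 2 * (B y y + 2) / (B y y + 1) ^ 2 := by positivity
  linarith

end RieLAux

theorem riesz_lin {V U : Type*} [AddCommGroup V] [Module ℝ V] [AddCommGroup U] [Module ℝ U]
    (L : V →ₗ[ℝ] U) (hL : FiniteDimensional ℝ (LinearMap.range L)) (B : V →ₗ[ℝ] V →ₗ[ℝ] ℝ)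
    (hs : ∀ x y, B x y = B y x) (hp : ∀ x, 0 ≤ B x x) (hk : ∀ x, L x = 0 → B x x = 0)
    (ℓ : V →ₗ[ℝ] ℝ) {G : ℝ} (hG : 0 ≤ G) (hb : ∀ x, |ℓ x| ≤ G * Real.sqrt (B x x)) :
    ∃ x₀ : V, (∀ x, ℓ x = B x x₀) ∧ B x₀ x₀ ≤ G ^ 2 := by
  have hle : LinearMap.ker L ≤ LinearMap.ker B := by
    intro x hx
    rw [LinearMap.mem_ker] at hx ⊢
    ext y
    exact RieLAux.cs_zero B hs hp (hk x hx) y
  have : FiniteDimensional ℝ (V ⧸ LinearMap.ker L) :=
    LinearEquiv.finiteDimensional (L.quotKerEquivRange).symm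
  have hfin : FiniteDimensional ℝ (LinearMap.range B) := by
    have h1 : LinearMap.range ((LinearMap.ker L).liftQ B hle) = LinearMap.range B :=
      Submodule.range_liftQ _ _ _
    rw [← h1]
    infer_instance
  have hmem : ℓ ∈ (LinearMap.range B : Submodule ℝ (Module.Dual ℝ V)) := by
    rw [← Subspace.dualCoannihilator_dualAnnihilator_eq (W := (LinearMap.range B :
      Submodule ℝ (Module.Dual ℝ V)))]
    rw [Submodule.mem_dualAnnihilator]
    intro x hx
    rw [Submodule.mem_dualCoannihilator] at hx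
    have h2 : B x x = 0 := hx (B x) ⟨x, rfl⟩
    have h3 := hb x
    rw [h2, Real.sqrt_zero, mul_zero] at h3
    exact abs_nonpos_iff.1 h3
  obtain ⟨x₀, hx₀⟩ := hmem
  refine ⟨x₀, fun x => ?_, ?_⟩
  · rw [← hx₀, hs]
  · have h4 : B x₀ x₀ = ℓ x₀ := by rw [← hx₀]
    have h5 := (le_abs_self _).trans (hb x₀)
    rw [← h4] at h5
    have h6 := Real.sq_sqrt (hp x₀)
    have h7 := Real.sqrt_nonneg (B x₀ x₀)
    rcases h7.eq_or_lt with h8 | h8
    · rw [← h6, ← h8, zero_pow two_ne_zero]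
      exact sq_nonneg G
    · have h9 : Real.sqrt (B x₀ x₀) ≤ G := by
        by_contra hc
        have := mul_lt_mul_of_pos_right (not_le.1 hc) h8
        nlinarith
      rw [← h6]
      exact pow_le_pow_left₀ h7 h9 2

end Pool.Agent.Lib.DEn
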