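import Pool.Agent.Lib.DEn.Av
import Pool.Agent.Lib.DEn.FinD
import Pool.Agent.Lib.DEn.RieL
import Pool.Agent.Lib.DEn.DvE
import Pool.Agent.Lib.DEn.Alg

set_option autoImplicit false
set_option maxSynthPendingDepth 3

/-!
# The projection to the exact forms with polynomial components  (1.2 h)

`V` = the submodule of `W → W →L[ℝ] ℝ` of the basic forms (`basic_add`, `basic_smul`). For `γ ∈ V` let `L γ : U3 → A4` (functions on the subtype), `L γ g = C4 ν N (cF (dB γ)) g`: linear in `γ` (`cF_dB_add`, `cF_dB_smul`, linearity of the integral: `Cv` only sees the values on `U3`, `integral_congr_u`, `integrable_u`). Each entry of `L γ` lies in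
the restriction to `U3` of the finite dimensional space of `fin_cv` (entries continuous on `U3`: `ctU_cF`, `dB_hf`), so the range is finite dimensional. `B γ γ' = ∫ ip (L γ g) (L γ' g) dν` (written with `C4`), `ℓ γ = ∫ wd (C4 ν N (cF (dB γ)) g) (cF Θ g) dν`; bilinear/linear because all functions are continuous on `U3` (`Cv_cont`). `riesz_lin` gives `γ_*`;
`av_basic` gives `γ₀` with `cF (dB γ₀) g = C4 ν N (cF (dB γ_*)) g` on `U3`. Finally `wd A B = ip A (st B)` (`wd_eq_ip`; skewness: `cF_skew`, and `C4` of skew arrays is skew).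
-/

open MeasureTheory Set Metric Filter
open scoped ContDiff Topology

namespace Pool.Agent.Lib.DEn

open Pool.Agent.P28b04d
open Pool.Agent.Lib.Psd (W hp ON3 fr cmp st asd sd nrm2 Pf Skew Conn Basic dd a0 c0)

namespace RieBAux

/-- basic forms -/
def VB : Submodule ℝ (W → W →L[ℝ] ℝ) where
  carrier := {γ | Basic γ}
  add_mem' := by
    intro γ δ h h'
    exact basic_add h h'
  zero_mem' := by
    show Basic (0 : W → W →L[ℝ] ℝ)
    refine ⟨?_, ?_, ?_, ?_⟩
    · exact contDiffOn_const (c := (0 : W →L[ℝ] ℝ))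
    · intro c _ z _ v; simp
    · intro z _; simp
    · intro z _; simp
  smul_mem' := by
    intro c γ h
    exact basic_smul h c

theorem ct_dB {γ : W → W →L[ℝ] ℝ} (h : Basic γ) (i j : Fin 4) :
    ContinuousOn (fun g => cF (dB γ) g i j) U3 := ctU_cF (dB_hf h).smooth i j

theorem kN_ct (N : ℕ) (g : X3) : Continuous fun h : X3 => kN N g h := by
  have h1 : Continuous fun h : X3 => ((g, h) : X3 × X3) := Continuous.prodMk_right g
  have h2 : Continuous ((fun p : X3 × X3 => kN N p.1 p.2) ∘ fun h : X3 => ((g, h) : X3 × X3)) :=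
    (kN_cont N).comp h1
  exact h2

theorem C4_add {ν : Measure X3} (hν : Ha ν) (N : ℕ) {γ δ : W → W →L[ℝ] ℝ} (h : Basic γ)
    (h' : Basic δ) :
    C4 ν N (cF (dB (γ + δ))) = C4 ν N (cF (dB γ)) + C4 ν N (cF (dB δ)) := by
  funext g i j
  show (cN ν N)⁻¹ * ∫ x, kN N g x * cF (dB (γ + δ)) x i j ∂ν =
    (cN ν N)⁻¹ * (∫ x, kN N g x * cF (dB γ) x i j ∂ν) +
      (cN ν N)⁻¹ * (∫ x, kN N g x * cF (dB δ) x i j ∂ν)
  rw [← mul_add, ← integral_add]
  · congr 1
    refine integral_congr_u hν fun x hx => ?_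
    have e := cF_dB_add h.smooth h'.smooth hx
    have e' : cF (dB (γ + δ)) x i j = cF (dB γ) x i j + cF (dB δ) x i j := by
      have := congrFun (congrFun e i) j
      exact this
    rw [e', mul_add]
  · exact integrable_u hν ((kN_ct N g).continuousOn.mul (ct_dB h i j))
  · exact integrable_u hν ((kN_ct N g).continuousOn.mul (ct_dB h' i j))

theorem C4_smul {ν : Measure X3} (hν : Ha ν) (N : ℕ) (c : ℝ) {γ : W → W →L[ℝ] ℝ} (h : Basic γ) :
    C4 ν N (cF (dB (c • γ))) = c • C4 ν N (cF (dB γ)) := by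
  funext g i j
  show (cN ν N)⁻¹ * ∫ x, kN N g x * cF (dB (c • γ)) x i j ∂ν =
    c * ((cN ν N)⁻¹ * (∫ x, kN N g x * cF (dB γ) x i j ∂ν))
  have key : ∫ x, kN N g x * cF (dB (c • γ)) x i j ∂ν =
      c * ∫ x, kN N g x * cF (dB γ) x i j ∂ν := by
    rw [← integral_const_mul]
    refine integral_congr_u hν fun x hx => ?_
    have e := cF_dB_smul h.smooth c hx
    have e' : cF (dB (c • γ)) x i j = c * cF (dB γ) x i j := by
      have := congrFun (congrFun e i) j
      exact this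
    rw [e', mul_left_comm]
  rw [key, mul_left_comm]

/-- the map `L` -/
noncomputable def Lm {ν : Measure X3} (hν : Ha ν) (N : ℕ) : VB →ₗ[ℝ] (X3 → A4) where
  toFun γ := C4 ν N (cF (dB (γ : W → W →L[ℝ] ℝ)))
  map_add' γ δ := C4_add hν N γ.2 δ.2
  map_smul' c γ := C4_smul hν N c γ.2

theorem Lm_apply {ν : Measure X3} (hν : Ha ν) (N : ℕ) (γ : VB) :
    Lm hν N γ = C4 ν N (cF (dB (γ : W → W →L[ℝ] ℝ))) := rfl

/-- functions whose entries are in `P` -/
def PP (P : Submodule ℝ (X3 → ℝ)) : Submodule ℝ (X3 → A4) where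
  carrier := {F | ∀ i j, (fun g => F g i j) ∈ P}
  add_mem' := by
    intro F G hF hG i j
    exact P.add_mem (hF i j) (hG i j)
  zero_mem' := by
    intro i j
    exact P.zero_mem
  smul_mem' := by
    intro c F hF i j
    exact P.smul_mem c (hF i j)

/-- the entries -/
def PPmap (P : Submodule ℝ (X3 → ℝ)) : PP P →ₗ[ℝ] (Fin 4 → Fin 4 → P) where
  toFun F i j := ⟨fun g => (F : X3 → A4) g i j, F.2 i j⟩
  map_add' F G := by
    funext i j
    rfl
  map_smul' c F := by
    funext i j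
    rfl

theorem PP_fin (P : Submodule ℝ (X3 → ℝ)) (hP : FiniteDimensional ℝ P) :
    FiniteDimensional ℝ (PP P) := by
  have := hP
  refine FiniteDimensional.of_injective (PPmap P) ?_
  intro F G h
  apply Subtype.ext
  funext g i j
  have h1 := congrFun (congrFun h i) j
  have h2 := congrArg (fun x : P => (x : X3 → ℝ) g) h1
  exact h2

theorem ct_C4 {ν : Measure X3} (hν : Ha ν) (N : ℕ) {γ : W → W →L[ℝ] ℝ} (h : Basic γ)
    (i j : Fin 4) : Continuous fun g => C4 ν N (cF (dB γ)) g i j :=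
  Cv_cont hν N (ct_dB h i j)

theorem ip_ct {F G : X3 → A4} (hF : ∀ i j, ContinuousOn (fun g => F g i j) U3)
    (hG : ∀ i j, ContinuousOn (fun g => G g i j) U3) : ContinuousOn (fun g => ip (F g) (G g)) U3 := by
  unfold ip
  refine ContinuousOn.div_const ?_ 2
  refine continuousOn_finsetSum _ fun i _ => continuousOn_finsetSum _ fun j _ => ?_
  exact (hF i j).mul (hG i j)

theorem wd_ct {F G : X3 → A4} (hF : ∀ i j, ContinuousOn (fun g => F g i j) U3)
    (hG : ∀ i j, ContinuousOn (fun g => G g i j) U3) : ContinuousOn (fun g => wd (F g) (G g)) U3 := by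
  unfold wd
  exact (((((hF 0 1).mul (hG 2 3)).add ((hF 2 3).mul (hG 0 1))).sub ((hF 0 2).mul (hG 1 3))).sub
    ((hF 1 3).mul (hG 0 2))).add ((hF 0 3).mul (hG 1 2)) |>.add ((hF 1 2).mul (hG 0 3))

theorem Lm_ct {ν : Measure X3} (hν : Ha ν) (N : ℕ) (γ : VB) (i j : Fin 4) :
    ContinuousOn (fun g => Lm hν N γ g i j) U3 := (ct_C4 hν N γ.2 i j).continuousOn

/-- the bilinear form -/
noncomputable def Bm {ν : Measure X3} (hν : Ha ν) (N : ℕ) : VB →ₗ[ℝ] VB →ₗ[ℝ] ℝ :=
  LinearMap.mk₂ ℝ (fun γ δ => ∫ g, ip (Lm hν N γ g) (Lm hν N δ g) ∂ν)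
    (by
      intro γ γ' δ
      rw [← integral_add (integrable_u hν (ip_ct (Lm_ct hν N γ) (Lm_ct hν N δ)))
        (integrable_u hν (ip_ct (Lm_ct hν N γ') (Lm_ct hν N δ)))]
      refine integral_congr_u hν fun g _ => ?_
      rw [map_add, Pi.add_apply, ip_add])
    (by
      intro c γ δ
      rw [smul_eq_mul, ← integral_const_mul]
      refine integral_congr_u hν fun g _ => ?_
      rw [map_smul, Pi.smul_apply, ip_smul])
    (by
      intro γ δ δ'
      rw [← integral_add (integrable_u hν (ip_ct (Lm_ct hν N γ) (Lm_ct hν N δ)))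
        (integrable_u hν (ip_ct (Lm_ct hν N γ) (Lm_ct hν N δ')))]
      refine integral_congr_u hν fun g _ => ?_
      rw [map_add, Pi.add_apply, ip_comm, ip_add, ip_comm, ip_comm (Lm hν N δ' g)])
    (by
      intro c γ δ
      rw [smul_eq_mul, ← integral_const_mul]
      refine integral_congr_u hν fun g _ => ?_
      rw [map_smul, Pi.smul_apply, ip_comm, ip_smul, ip_comm])

theorem Bm_apply {ν : Measure X3} (hν : Ha ν) (N : ℕ) (γ δ : VB) :
    Bm hν N γ δ = ∫ g, ip (Lm hν N γ g) (Lm hν N δ g) ∂ν := rfl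

/-- the linear form -/
noncomputable def lm {ν : Measure X3} (hν : Ha ν) (N : ℕ) {Θ : W → BW} (hΘ : HF Θ) : VB →ₗ[ℝ] ℝ where
  toFun γ := ∫ g, wd (Lm hν N γ g) (cF Θ g) ∂ν
  map_add' γ δ := by
    rw [← integral_add (integrable_u hν (wd_ct (Lm_ct hν N γ) (ctU_cF hΘ.smooth)))
      (integrable_u hν (wd_ct (Lm_ct hν N δ) (ctU_cF hΘ.smooth)))]
    refine integral_congr_u hν fun g _ => ?_
    rw [map_add, Pi.add_apply, wd_add]
  map_smul' c γ := by
    rw [RingHom.id_apply, smul_eq_mul, ← integral_const_mul]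
    refine integral_congr_u hν fun g _ => ?_
    rw [map_smul, Pi.smul_apply, wd_smul]

theorem lm_apply {ν : Measure X3} (hν : Ha ν) (N : ℕ) {Θ : W → BW} (hΘ : HF Θ) (γ : VB) :
    lm hν N hΘ γ = ∫ g, wd (Lm hν N γ g) (cF Θ g) ∂ν := rfl

end RieBAux

open RieBAux

theorem riesz {ν : Measure X3} (hν : Ha ν) (N : ℕ) {Θ : W → BW} (hΘ : HF Θ) {G : ℝ} (hG : 0 ≤ G)
    (hb : ∀ γ : W → W →L[ℝ] ℝ, Basic γ → |∫ g, wd (C4 ν N (cF (dB γ)) g) (cF Θ g) ∂ν| ≤
      G * Real.sqrt (∫ g, ip (C4 ν N (cF (dB γ)) g) (C4 ν N (cF (dB γ)) g) ∂ν)) :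
    ∃ γ₀ : W → W →L[ℝ] ℝ, Basic γ₀ ∧
      (∀ γ : W → W →L[ℝ] ℝ, Basic γ → ∫ g, wd (C4 ν N (cF (dB γ)) g) (cF Θ g) ∂ν =
        ∫ g, ip (C4 ν N (cF (dB γ)) g) (cF (dB γ₀) g) ∂ν) ∧
      ∫ g, ip (cF (dB γ₀) g) (cF (dB γ₀) g) ∂ν ≤ G ^ 2 := by
  obtain ⟨P, hP, hmem⟩ := fin_cv hν N
  have hrange : FiniteDimensional ℝ (LinearMap.range (Lm hν N)) := by
    have := PP_fin P hP
    refine Submodule.finiteDimensional_of_le (S₂ := PP P) ?_
    rintro _ ⟨γ, rfl⟩ i j
    exact hmem _ (ct_dB γ.2 i j)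
  obtain ⟨x, hx, hxx⟩ := riesz_lin (Lm hν N) hrange (Bm hν N)
    (by
      intro γ δ
      rw [Bm_apply, Bm_apply]
      refine integral_congr_u hν fun g _ => ?_
      rw [ip_comm])
    (by
      intro γ
      rw [Bm_apply]
      exact integral_nonneg fun g => ip_nonneg _)
    (by
      intro γ h0
      rw [Bm_apply, h0]
      have e : ∀ g : X3, ip ((0 : X3 → A4) g) ((0 : X3 → A4) g) = 0 := by
        intro g
        simp [ip]
      simp only [e]
      simp)
    (lm hν N hΘ) hG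
    (by
      intro γ
      exact hb γ γ.2)
  obtain ⟨γ₀, hγ₀, hav⟩ := av_basic hν N x.2
  refine ⟨γ₀, hγ₀, ?_, ?_⟩
  · intro γ hγ
    have h1 := hx ⟨γ, hγ⟩
    rw [lm_apply, Bm_apply] at h1
    refine Eq.trans h1 ?_
    refine integral_congr_u hν fun g hg => ?_
    rw [hav g hg]
    rfl
  · refine le_trans (le_of_eq ?_) hxx
    rw [Bm_apply]
    refine integral_congr_u hν fun g hg => ?_
    rw [hav g hg]
    rfl

end Pool.Agent.Lib.DEn
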