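import Pool.Agent.Lib.DEn.Br

set_option autoImplicit false
set_option maxSynthPendingDepth 3

/-!
# The test form: the Hodge dual of d tau as a basic one-form  (1.2 h)

`γ_z(v) = nsq z * ∑_k d3 τ z (e_k) (i e_k) (i v)`, `e_k = Pi.single k 1` (`k : Fin 3`), as a continuous linear map in `v` (build it from `fderiv ℝ τ z`). Smooth off `0` (`ContDiffOn.fderiv_of_isOpen`). Homogeneous: differentiating `τ (c z) (c v) (c w) = τ z v w` gives `D τ_{cz}(c a)(c v)(c w) = D τ_z(a)(v)(w)`, so
`d3 τ (c z) (c a) (c b) (c w) = d3 τ z a b w`; and `∑_k d3 τ (c z) (e_k) (i e_k) (i c v) = ∑_k d3 τ z (c⁻¹ e_k) (i c⁻¹ e_k) (i v) = |c|⁻² ∑_k d3 τ z (e_k) (i e_k) (i v)` because `B(e, i e)` is multiplied by `|c|^2` if `e` is replaced by `c e` (`B` alternating bilinear). Radial: `d3 τ z a b z = 0` and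
`d3 τ z a b (i z) = 0`: differentiate `τ_z (z) (w) = 0`, `τ_z (i z) w = 0` in the direction `a`: `D τ_z(a)(z)(w) = - τ_z(a)(w)`, `D τ_z(a)(iz)(w) = - τ_z(i a)(w)`; differentiate the homogeneity for `c = e^t`: `D τ_z(z)(a)(b) = - 2 τ_z a b`, for `c = e^{it}`: `D τ_z(iz)(a)(b) = - τ_z(ia)(b) - τ_z(a)(ib)`; the cyclic sums vanish.
Components at `g ∈ U3`: `nsq (g 0) = 1`, and for an alternating real bilinear form `B` on `W`: `∑_k B(e_k, i e_k) = ∑_j B(g_j, i g_j)` (write `g_j = ∑_k g_j(k) e_k`, use `B(ae, ibe') ` bilinearity over real and imaginary parts and the unitarity of the rows of `g`; or both sides are equal to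
`∑ over the real orthonormal basis /2`). For `B = d3 τ z · · w` the term `j = 0` vanishes (horizontality), so `γ(f_j) = d3(f0,f1,i f_j) + d3(f2,f3,i f_j)` with `i f0 = f1, i f1 = -f0, i f2 = f3, i f3 = -f2`: these are the entries of `xi` (`d3` is alternating; e.g. `d3(f2,f3,f1) = d3(f1,f2,f3)`, `d3(f0,f1,f1) = 0`).
-/

open MeasureTheory Set Metric Filter
open scoped ContDiff Topology

namespace Pool.Agent.Lib.DEn

open Pool.Agent.P28b04d
open Pool.Agent.Lib.Psd (W hp ON3 fr cmp st asd sd nrm2 Pf Skew Conn Basic dd a0 c0)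

namespace TestFAux

variable {τ : W → BW}

theorem diffAt (hτ : HF τ) {z : W} (hz : z ≠ 0) : DifferentiableAt ℝ τ z :=
  (hτ.smooth.contDiffAt (isOpen_compl_singleton.mem_nhds hz)).differentiableAt (by simp)

/-- derivative along curves -/
theorem curve (hτ : HF τ) {zt vt wt : ℝ → W} {z' v' w' : W} {t : ℝ} (hz : zt t ≠ 0)
    (h1 : HasDerivAt zt z' t) (h2 : HasDerivAt vt v' t) (h3 : HasDerivAt wt w' t) :
    HasDerivAt (fun s => τ (zt s) (vt s) (wt s))
      (fderiv ℝ τ (zt t) z' (vt t) (wt t) + τ (zt t) v' (wt t) + τ (zt t) (vt t) w') t := by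
  have a1 : HasDerivAt (fun s => τ (zt s)) (fderiv ℝ τ (zt t) z') t :=
    (diffAt hτ hz).hasFDerivAt.comp_hasDerivAt t h1
  have a2 := a1.clm_apply h2
  have a3 := a2.clm_apply h3
  refine a3.congr_deriv ?_
  simp only [add_apply]

theorem line (z a : W) (t : ℝ) : HasDerivAt (fun s : ℝ => z + s • a) a t := by
  have := ((hasDerivAt_id t).smul_const a).const_add z
  simpa using this

theorem near (z a : W) (hz : z ≠ 0) : ∀ᶠ t : ℝ in 𝓝 0, z + t • a ≠ 0 := by
  have hc : Continuous fun t : ℝ => z + t • a := by fun_prop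
  have h0 : (fun t : ℝ => z + t • a) 0 ≠ 0 := by simpa using hz
  exact hc.continuousAt.eventually_ne h0

/-- two curves of values which agree near zero have the same derivative -/
theorem deriv_uniq {f k : ℝ → ℝ} {f' k' : ℝ} (hf : HasDerivAt f f' 0) (hk : HasDerivAt k k' 0)
    (h : ∀ᶠ t in 𝓝 (0 : ℝ), f t = k t) : f' = k' :=
  hf.unique (hk.congr_of_eventuallyEq h)

theorem skewD (hτ : HF τ) {z : W} (hz : z ≠ 0) (a v w : W) :
    fderiv ℝ τ z a v w = -fderiv ℝ τ z a w v := by
  have hz0 : z + (0 : ℝ) • a ≠ 0 := by simpa using hz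
  have h1 := curve hτ (zt := fun s => z + s • a) (vt := fun _ => v) (wt := fun _ => w) hz0
    (line z a 0) (hasDerivAt_const 0 v) (hasDerivAt_const 0 w)
  have h2 := curve hτ (zt := fun s => z + s • a) (vt := fun _ => w) (wt := fun _ => v) hz0
    (line z a 0) (hasDerivAt_const 0 w) (hasDerivAt_const 0 v)
  have h3 := deriv_uniq h1 h2.neg ((near z a hz).mono fun t ht => by
    simpa using hτ.skew _ ht v w)
  simpa using h3

theorem horD (hτ : HF τ) {z : W} (hz : z ≠ 0) (c : ℂ) (a w : W) :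
    fderiv ℝ τ z a (c • z) w = -τ z (c • a) w := by
  have hz0 : z + (0 : ℝ) • a ≠ 0 := by simpa using hz
  have hv : HasDerivAt (fun s : ℝ => c • (z + s • a)) (c • a) 0 := (line z a 0).const_smul c
  have h1 := curve hτ (zt := fun s => z + s • a) (vt := fun s => c • (z + s • a))
    (wt := fun _ => w) hz0 (line z a 0) hv (hasDerivAt_const 0 w)
  have h3 := deriv_uniq h1 (hasDerivAt_const (0 : ℝ) (0 : ℝ)) ((near z a hz).mono fun t ht => by
    simpa using hτ.hor _ ht c w)
  simp only [zero_smul, add_zero, map_zero] at h3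
  linarith

theorem homD (hτ : HF τ) {z : W} (hz : z ≠ 0) (κ : ℂ) (v w : W) :
    fderiv ℝ τ z (κ • z) v w = -τ z (κ • v) w - τ z v (κ • w) := by
  have hz0 : z + (0 : ℝ) • (κ • z) ≠ 0 := by simpa using hz
  have hc : ∀ u : W, HasDerivAt (fun s : ℝ => u + s • (κ • u)) (κ • u) 0 := fun u => line u _ 0
  have h1 := curve hτ (zt := fun s => z + s • (κ • z)) (vt := fun s => v + s • (κ • v))
    (wt := fun s => w + s • (κ • w)) hz0 (hc z) (hc v) (hc w)
  have hne : ∀ᶠ t : ℝ in 𝓝 0, (1 + (t : ℂ) * κ) ≠ 0 := by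
    have hcont : Continuous fun t : ℝ => (1 + (t : ℂ) * κ) := by fun_prop
    have h0 : (fun t : ℝ => (1 + (t : ℂ) * κ)) 0 ≠ 0 := by simp
    exact hcont.continuousAt.eventually_ne h0
  have e : ∀ (t : ℝ) (u : W), u + t • (κ • u) = (1 + (t : ℂ) * κ) • u := by
    intro t u
    rw [add_smul, one_smul, mul_smul, Complex.coe_smul]
  have h3 := deriv_uniq h1 (hasDerivAt_const (0 : ℝ) (τ z v w)) (hne.mono fun t ht => by
    simp only [e]
    exact hτ.hom _ ht z hz v w)
  simp only [zero_smul, add_zero] at h3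
  linarith

theorem scaleD (hτ : HF τ) {c : ℂ} (hc : c ≠ 0) {z : W} (hz : z ≠ 0) (a v w : W) :
    fderiv ℝ τ (c • z) (c • a) (c • v) (c • w) = fderiv ℝ τ z a v w := by
  have hz0 : z + (0 : ℝ) • a ≠ 0 := by simpa using hz
  have hcz : c • z ≠ 0 := smul_ne_zero hc hz
  have hcz0 : c • z + (0 : ℝ) • (c • a) ≠ 0 := by simpa using hcz
  have h1 := curve hτ (zt := fun s => c • z + s • (c • a)) (vt := fun _ => c • v)
    (wt := fun _ => c • w) hcz0 (line _ _ 0) (hasDerivAt_const 0 _) (hasDerivAt_const 0 _)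
  have h2 := curve hτ (zt := fun s => z + s • a) (vt := fun _ => v)
    (wt := fun _ => w) hz0 (line _ _ 0) (hasDerivAt_const 0 _) (hasDerivAt_const 0 _)
  have h3 := deriv_uniq h1 h2 ((near z a hz).mono fun t ht => by
    have e : c • z + t • (c • a) = c • (z + t • a) := by
      rw [smul_add, smul_comm t c a]
    simp only [e]
    exact hτ.hom c hc _ ht v w)
  simpa using h3

end TestFAux

open TestFAux in
theorem d3_hor {τ : W → BW} (hτ : HF τ) {z : W} (hz : z ≠ 0) (c : ℂ) (a b : W) : d3 τ z a b (c • z) = 0 := by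
  unfold d3
  rw [skewD hτ hz a b (c • z), horD hτ hz c a b, horD hτ hz c b a, homD hτ hz c a b,
    hτ.skew z hz (c • b) a]
  ring

open TestFAux in
theorem d3_hom {τ : W → BW} (hτ : HF τ) {c : ℂ} (hc : c ≠ 0) {z : W} (hz : z ≠ 0) (a b d : W) :
    d3 τ (c • z) (c • a) (c • b) (c • d) = d3 τ z a b d := by
  unfold d3
  rw [scaleD hτ hc hz, scaleD hτ hc hz, scaleD hτ hc hz]

namespace TestFAux

/-- multiplication by `i` -/
noncomputable def iL : W →L[ℝ] W :=
  (Complex.I • ContinuousLinearMap.id ℂ W).restrictScalars ℝ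

theorem iL_apply (v : W) : iL v = Complex.I • v := by
  simp [iL]

/-- the standard basis -/
noncomputable def eb (k : Fin 3) : W := Pi.single k 1

/-- one term of the test form -/
noncomputable def Ak (τ : W → BW) (z : W) (k : Fin 3) : W →L[ℝ] ℝ :=
  (fderiv ℝ τ z (eb k) (Complex.I • eb k)).comp iL +
    (((fderiv ℝ τ z (Complex.I • eb k)).flip (eb k)).comp iL +
      (((fderiv ℝ τ z).flip (eb k)).flip (Complex.I • eb k)).comp iL)

theorem Ak_apply (τ : W → BW) (z : W) (k : Fin 3) (v : W) :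
    Ak τ z k v = d3 τ z (eb k) (Complex.I • eb k) (Complex.I • v) := by
  simp only [Ak, d3, add_apply, ContinuousLinearMap.comp_apply, ContinuousLinearMap.flip_apply,
    iL_apply]
  ring

/-- the test form -/
noncomputable def ga (τ : W → BW) (z : W) : W →L[ℝ] ℝ := nsq z • ∑ k, Ak τ z k

theorem ga_apply (τ : W → BW) (z v : W) :
    ga τ z v = nsq z * ∑ k, d3 τ z (eb k) (Complex.I • eb k) (Complex.I • v) := by
  simp only [ga, smul_apply, sum_apply, smul_eq_mul, Ak_apply]

theorem smooth_ga {τ : W → BW} (hτ : HF τ) : ContDiffOn ℝ ∞ (ga τ) {0}ᶜ := by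
  have h1 : ContDiffOn ℝ ∞ (fderiv ℝ τ) {0}ᶜ :=
    hτ.smooth.fderiv_of_isOpen isOpen_compl_singleton (by simp)
  have hfl : ∀ {F : W → W →L[ℝ] W →L[ℝ] ℝ}, ContDiffOn ℝ ∞ F {0}ᶜ →
      ContDiffOn ℝ ∞ (fun z => (F z).flip) {0}ᶜ := by
    intro F hF
    exact (ContinuousLinearMap.flipₗᵢ ℝ W W ℝ).contDiff.comp_contDiffOn hF
  have hfl2 : ∀ {F : W → W →L[ℝ] W →L[ℝ] W →L[ℝ] ℝ}, ContDiffOn ℝ ∞ F {0}ᶜ →
      ContDiffOn ℝ ∞ (fun z => (F z).flip) {0}ᶜ := by
    intro F hF
    exact (ContinuousLinearMap.flipₗᵢ ℝ W W (W →L[ℝ] ℝ)).contDiff.comp_contDiffOn hF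
  have hA : ∀ k, ContDiffOn ℝ ∞ (fun z => Ak τ z k) {0}ᶜ := by
    intro k
    refine ContDiffOn.add ?_ (ContDiffOn.add ?_ ?_)
    · exact ((h1.clm_apply contDiffOn_const).clm_apply contDiffOn_const).clm_comp contDiffOn_const
    · exact ((hfl (h1.clm_apply contDiffOn_const)).clm_apply contDiffOn_const).clm_comp
        contDiffOn_const
    · exact ((hfl ((hfl2 h1).clm_apply contDiffOn_const)).clm_apply contDiffOn_const).clm_comp
        contDiffOn_const
  exact Psd.ConnBAux.contDiff_nsq.contDiffOn.smul (ContDiffOn.sum fun k _ => hA k)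

theorem d3_cyc (τ : W → BW) (z a b c : W) : d3 τ z a b c = d3 τ z b c a := by
  unfold d3
  ring

theorem d3_anti {τ : W → BW} (hτ : HF τ) {z : W} (hz : z ≠ 0) (a b c : W) :
    d3 τ z a b c = -d3 τ z b a c := by
  unfold d3
  rw [skewD hτ hz a b c, skewD hτ hz b c a, skewD hτ hz c a b]
  ring

theorem d3_self {τ : W → BW} (hτ : HF τ) {z : W} (hz : z ≠ 0) (a c : W) :
    d3 τ z a a c = 0 := by
  have := d3_anti hτ hz a a c
  linarith

/-- the trilinear form with the last argument fixed -/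
noncomputable def Bm (τ : W → BW) (z c : W) : W →ₗ[ℝ] W →ₗ[ℝ] ℝ :=
  LinearMap.mk₂ ℝ (fun a b => d3 τ z a b c)
    (fun a b d => by simp only [d3, map_add, add_apply]; ring)
    (fun r a b => by simp only [d3, map_smul, smul_apply, smul_eq_mul]; ring)
    (fun a b d => by simp only [d3, map_add, add_apply]; ring)
    (fun r a b => by simp only [d3, map_smul, smul_apply, smul_eq_mul]; ring)

theorem Bm_apply (τ : W → BW) (z c a b : W) : Bm τ z c a b = d3 τ z a b c := rfl

theorem scale_q {B : W →ₗ[ℝ] W →ₗ[ℝ] ℝ} (hB : ∀ v w, B v w = -B w v) (c : ℂ) (e : W) :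
    B (c • e) (Complex.I • c • e) = Complex.normSq c * B e (Complex.I • e) := by
  have h0 : B e e = 0 := by have := hB e e; linarith
  have h1 : B (Complex.I • e) (Complex.I • e) = 0 := by
    have := hB (Complex.I • e) (Complex.I • e); linarith
  have e1 : c • e = c.re • e + c.im • (Complex.I • e) := by
    conv_lhs => rw [← Complex.re_add_im c]
    rw [add_smul, mul_smul, Complex.coe_smul, Complex.coe_smul]
  have e2 : Complex.I • c • e = c.re • (Complex.I • e) - c.im • e := by
    have e3 : Complex.I • (Complex.I • e) = -e := by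
      rw [smul_smul, Complex.I_mul_I, neg_one_smul]
    rw [e1, smul_add, smul_comm Complex.I c.re e, smul_comm Complex.I c.im (Complex.I • e), e3,
      smul_neg, sub_eq_add_neg]
  rw [e2, e1, Complex.normSq_apply]
  simp only [map_add, map_sub, map_smul, LinearMap.add_apply, LinearMap.smul_apply, smul_eq_mul,
    h0, h1, hB (Complex.I • e) e]
  ring

theorem rows {g : X3} (hg : g ∈ U3) (k l : Fin 3) :
    ∑ j, g j k * star (g j l) = if k = l then 1 else 0 := by
  have h1 : (Matrix.of fun i j : Fin 3 => star (g i j)) * (Matrix.of fun j i : Fin 3 => g i j) =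
      1 := by
    ext i j
    rw [Matrix.mul_apply, Matrix.one_apply]
    exact hg i j
  have h2 := mul_eq_one_comm.1 h1
  have h3 := congrFun (congrFun h2 k) l
  rw [Matrix.mul_apply, Matrix.one_apply] at h3
  exact h3

theorem rows_re {g : X3} (hg : g ∈ U3) (k l : Fin 3) :
    ∑ j, ((g j k).re * (g j l).re + (g j k).im * (g j l).im) = if k = l then 1 else 0 := by
  have h := congrArg Complex.re (rows hg k l)
  rw [Complex.re_sum] at h
  have e : ((if k = l then (1 : ℂ) else 0)).re = if k = l then (1 : ℝ) else 0 := by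
    split_ifs <;> simp
  rw [e] at h
  rw [← h]
  refine Finset.sum_congr rfl fun j _ => ?_
  simp only [Complex.mul_re, Complex.star_def, Complex.conj_re, Complex.conj_im]
  ring

theorem rows_im {g : X3} (hg : g ∈ U3) (k l : Fin 3) :
    ∑ j, ((g j k).im * (g j l).re - (g j k).re * (g j l).im) = 0 := by
  have h := congrArg Complex.im (rows hg k l)
  rw [Complex.im_sum] at h
  have e : ((if k = l then (1 : ℂ) else 0)).im = 0 := by
    split_ifs <;> simp
  rw [e] at h
  rw [← h]
  refine Finset.sum_congr rfl fun j _ => ?_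
  simp only [Complex.mul_im, Complex.star_def, Complex.conj_re, Complex.conj_im]
  ring

theorem expand (v : W) :
    v = ∑ k, ((v k).re • eb k + (v k).im • (Complex.I • eb k)) := by
  funext i
  rw [Finset.sum_apply]
  have : ∀ k, ((v k).re • eb k + (v k).im • (Complex.I • eb k)) i = if k = i then v k else 0 := by
    intro k
    simp only [Pi.add_apply, Pi.smul_apply, eb, Pi.single_apply, Complex.real_smul, smul_eq_mul]
    by_cases h : k = i
    · rw [if_pos h, if_pos h.symm, mul_one, mul_one, Complex.re_add_im]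
    · rw [if_neg h, if_neg (fun h' => h h'.symm)]
      simp
  rw [Finset.sum_congr rfl fun k _ => this k]
  simp

theorem expandI (v : W) :
    Complex.I • v = ∑ k, ((v k).re • (Complex.I • eb k) - (v k).im • eb k) := by
  conv_lhs => rw [expand v]
  rw [Finset.smul_sum]
  refine Finset.sum_congr rfl fun k _ => ?_
  have e3 : Complex.I • (Complex.I • eb k) = -eb k := by
    rw [smul_smul, Complex.I_mul_I, neg_one_smul]
  rw [smul_add, smul_comm Complex.I (v k).re (eb k),
    smul_comm Complex.I (v k).im (Complex.I • eb k), e3, smul_neg, sub_eq_add_neg]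

/-- the trace does not depend on the unitary basis -/
theorem trace_inv {B : W →ₗ[ℝ] W →ₗ[ℝ] ℝ} (hB : ∀ v w, B v w = -B w v) {g : X3} (hg : g ∈ U3) :
    ∑ j, B (g j) (Complex.I • g j) = ∑ k, B (eb k) (Complex.I • eb k) := by
  have h0 : ∀ e, B e e = 0 := fun e => by have := hB e e; linarith
  have hq : ∀ v : W, B v (Complex.I • v) = ∑ k, ∑ l,
      (((v k).re * (v l).re) * B (eb k) (Complex.I • eb l)
        - ((v k).re * (v l).im) * B (eb k) (eb l)
        + ((v k).im * (v l).re) * B (Complex.I • eb k) (Complex.I • eb l)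
        - ((v k).im * (v l).im) * B (Complex.I • eb k) (eb l)) := by
    intro v
    have e1 : B v (Complex.I • v) = B (∑ k, ((v k).re • eb k + (v k).im • (Complex.I • eb k)))
        (∑ k, ((v k).re • (Complex.I • eb k) - (v k).im • eb k)) := by
      rw [← expandI, ← expand]
    rw [e1, map_sum B, LinearMap.sum_apply]
    refine Finset.sum_congr rfl fun k _ => ?_
    rw [map_sum]
    refine Finset.sum_congr rfl fun l _ => ?_
    simp only [map_add, map_sub, map_smul, LinearMap.add_apply, LinearMap.smul_apply, smul_eq_mul]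
    ring
  rw [Finset.sum_congr rfl fun j _ => hq (g j)]
  have r := rows_re hg
  have m := rows_im hg
  have r00 := r 0 0
  have r01 := r 0 1
  have r02 := r 0 2
  have r11 := r 1 1
  have r12 := r 1 2
  have r22 := r 2 2
  have m01 := m 0 1
  have m02 := m 0 2
  have m12 := m 1 2
  simp only [Fin.sum_univ_three] at r00 r01 r02 r11 r12 r22 m01 m02 m12 ⊢
  simp only [if_true, if_false, show ¬ ((0 : Fin 3) = 1) from by decide,
    show ¬ ((0 : Fin 3) = 2) from by decide, show ¬ ((1 : Fin 3) = 2) from by decide]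
    at r00 r01 r02 r11 r12 r22
  rw [h0 (eb 0), h0 (eb 1), h0 (eb 2), h0 (Complex.I • eb 0), h0 (Complex.I • eb 1),
    h0 (Complex.I • eb 2), hB (eb 1) (eb 0), hB (eb 2) (eb 0), hB (eb 2) (eb 1),
    hB (Complex.I • eb 1) (Complex.I • eb 0), hB (Complex.I • eb 2) (Complex.I • eb 0),
    hB (Complex.I • eb 2) (Complex.I • eb 1),
    hB (Complex.I • eb 0) (eb 0), hB (Complex.I • eb 0) (eb 1), hB (Complex.I • eb 0) (eb 2),
    hB (Complex.I • eb 1) (eb 0), hB (Complex.I • eb 1) (eb 1), hB (Complex.I • eb 1) (eb 2),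
    hB (Complex.I • eb 2) (eb 0), hB (Complex.I • eb 2) (eb 1), hB (Complex.I • eb 2) (eb 2)]
  linear_combination (B (eb 0) (Complex.I • eb 0)) * r00 + (B (eb 1) (Complex.I • eb 1)) * r11
    + (B (eb 2) (Complex.I • eb 2)) * r22
    + (B (eb 0) (Complex.I • eb 1) + B (eb 1) (Complex.I • eb 0)) * r01
    + (B (eb 0) (Complex.I • eb 2) + B (eb 2) (Complex.I • eb 0)) * r02
    + (B (eb 1) (Complex.I • eb 2) + B (eb 2) (Complex.I • eb 1)) * r12
    + (B (eb 0) (eb 1) + B (Complex.I • eb 0) (Complex.I • eb 1)) * m01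
    + (B (eb 0) (eb 2) + B (Complex.I • eb 0) (Complex.I • eb 2)) * m02
    + (B (eb 1) (eb 2) + B (Complex.I • eb 1) (Complex.I • eb 2)) * m12

theorem d3_neg (τ : W → BW) (z a b c : W) : d3 τ z a b (-c) = -d3 τ z a b c := by
  simp only [d3, map_neg, neg_apply]
  ring

end TestFAux

open TestFAux in
theorem exists_test {τ : W → BW} (hτ : HF τ) :
    ∃ γ : W → W →L[ℝ] ℝ, Basic γ ∧ ∀ g ∈ U3, ∀ j, c1 γ g j = xi τ g j := by
  refine ⟨ga τ, ⟨smooth_ga hτ, ?_, ?_, ?_⟩, ?_⟩
  · intro c hc z hz v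
    have hcn : Complex.normSq c ≠ 0 := (Complex.normSq_pos.2 hc).ne'
    rw [ga_apply, ga_apply, Psd.ConnBAux.nsq_smul, mul_assoc, Finset.mul_sum, Finset.mul_sum,
      Finset.mul_sum]
    refine Finset.sum_congr rfl fun k _ => ?_
    have hB : ∀ v' w', Bm τ z (Complex.I • v) v' w' = -Bm τ z (Complex.I • v) w' v' :=
      fun v' w' => d3_anti hτ hz v' w' _
    have h1 := scale_q hB c⁻¹ (eb k)
    rw [Bm_apply, Bm_apply] at h1
    have h2 := d3_hom hτ hc hz (c⁻¹ • eb k) (Complex.I • c⁻¹ • eb k) (Complex.I • v)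
    have e1 : c • c⁻¹ • eb k = eb k := by rw [smul_smul, mul_inv_cancel₀ hc, one_smul]
    have e2 : c • Complex.I • c⁻¹ • eb k = Complex.I • eb k := by
      rw [smul_comm c Complex.I, e1]
    have e3 : c • Complex.I • v = Complex.I • c • v := smul_comm c Complex.I v
    rw [e1, e2, e3] at h2
    rw [h2, h1, Complex.normSq_inv]
    field_simp
  · intro z hz
    rw [ga_apply, Finset.sum_eq_zero fun k _ => d3_hor hτ hz Complex.I _ _, mul_zero]
  · intro z hz
    have e : Complex.I • Complex.I • z = (-1 : ℂ) • z := by rw [smul_smul, Complex.I_mul_I]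
    rw [ga_apply, e, Finset.sum_eq_zero fun k _ => d3_hor hτ hz (-1) _ _, mul_zero]
  · intro g hg j
    have hz := col_ne hg 0
    have key : ∀ v : W, ga τ (g 0) v = d3 τ (g 0) (g 1) (Complex.I • g 1) (Complex.I • v)
        + d3 τ (g 0) (g 2) (Complex.I • g 2) (Complex.I • v) := by
      intro v
      have hB : ∀ v' w', Bm τ (g 0) (Complex.I • v) v' w' = -Bm τ (g 0) (Complex.I • v) w' v' :=
        fun v' w' => d3_anti hτ hz v' w' _
      have h1 := trace_inv hB hg
      simp only [Bm_apply] at h1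
      rw [ga_apply, nsq_col hg 0, one_mul, ← h1, Fin.sum_univ_three]
      have h2 : d3 τ (g 0) (g 0) (Complex.I • g 0) (Complex.I • v) = 0 := by
        rw [d3_cyc]
        have := d3_hor hτ hz 1 (Complex.I • g 0) (Complex.I • v)
        rwa [one_smul] at this
      rw [h2, zero_add]
    have e3 : ∀ v : W, Complex.I • (Complex.I • v) = -v := by
      intro v
      rw [smul_smul, Complex.I_mul_I, neg_one_smul]
    show ga τ (g 0) (fr (g 1) (g 2) j) = xi τ g j
    rw [key]
    have s1 : ∀ a c : W, d3 τ (g 0) a c c = 0 := by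
      intro a c
      rw [d3_cyc, d3_self hτ hz]
    have s2 : ∀ a c : W, d3 τ (g 0) a c a = 0 := by
      intro a c
      rw [d3_cyc, s1]
    fin_cases j
    · show d3 τ (g 0) (g 1) (Complex.I • g 1) (Complex.I • g 1) +
        d3 τ (g 0) (g 2) (Complex.I • g 2) (Complex.I • g 1) =
        d3 τ (g 0) (Complex.I • g 1) (g 2) (Complex.I • g 2)
      rw [s1, zero_add, ← d3_cyc]
    · show d3 τ (g 0) (g 1) (Complex.I • g 1) (Complex.I • (Complex.I • g 1)) +
        d3 τ (g 0) (g 2) (Complex.I • g 2) (Complex.I • (Complex.I • g 1)) =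
        -d3 τ (g 0) (g 1) (g 2) (Complex.I • g 2)
      rw [e3, d3_neg, d3_neg, s2, neg_zero, zero_add, ← d3_cyc]
    · show d3 τ (g 0) (g 1) (Complex.I • g 1) (Complex.I • g 2) +
        d3 τ (g 0) (g 2) (Complex.I • g 2) (Complex.I • g 2) =
        d3 τ (g 0) (g 1) (Complex.I • g 1) (Complex.I • g 2)
      rw [s1, add_zero]
    · show d3 τ (g 0) (g 1) (Complex.I • g 1) (Complex.I • (Complex.I • g 2)) +
        d3 τ (g 0) (g 2) (Complex.I • g 2) (Complex.I • (Complex.I • g 2)) =
        -d3 τ (g 0) (g 1) (Complex.I • g 1) (g 2)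
      rw [e3, d3_neg, d3_neg, s2, neg_zero, add_zero]

end Pool.Agent.Lib.DEn
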